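import Pool.Agent.Lib.MP_cb8a44_nt.RC.SpecD

/-!
# Theorem RC, block E: the subfield, the relative part, the witness, the end

Conventions as in `SpecG.lean`.
-/

set_option autoImplicit false

open NumberField Module

namespace Pool.Agent.Lib.MPcb8a44.RC

/-- the subspace underlying a subfield -/
abbrev fs {K : Type} [Field K] [NumberField K] (F : IntermediateField ℚ K) : Submodule ℚ K :=
  Subalgebra.toSubmodule F.toSubalgebra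

/-- **LMX** (200 lines), from `RD.specLEMF` (`RD/LEMF.lean`).  The 3/2 lemma for subspaces not containing 1.
Proof.  `X ≠ 0`; `0 ≠ y₀ ∈ X`, `X' := y₀⁻¹ X ∋ 1`, `X' X' = y₀⁻² X X`, `dim X X ≤ dim W < (3/2) dim X`
(`X X ≤ X V ≤ W`): LEMF gives a subfield `F = X' X'`; `X X = y₀² F`, `X = y₀ X' ⊆ y₀ F`.  If `y₀ ∉ F` then `y₀ F ∩ y₀² F = 0`, so
`X ∩ X X = 0` and `2 dim X ≤ dim (X + X X) ≤ dim W < (3/2) dim X`: a contradiction.  So `y₀ ∈ F`, `X X = F`, `X ≤ F`.  If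
`v ∈ V`, `v ∉ F`: `F ∩ v X = 0` (`v x = f` gives `v = f/x`), `F, v X ≤ W`, `dim F + dim X ≥ 2 dim X > dim W`: a
contradiction.  So `V ≤ F`, `X V ≤ F = X X ≤ X V`. -/
def SpecLMX : Prop := ∀ (K : Type) [Field K] [NumberField K], RD.TR K →
  ∀ X V W : Submodule ℚ K, X ≤ V → V ≤ W → X * V ≤ W → 2 * finrank ℚ W < 3 * finrank ℚ X →
  ∃ F : IntermediateField ℚ K, fs F = X * V ∧ V ≤ fs F

/-- **SBF** (150 lines), from LMX, XSP, HMU, HMO, HUL.  The subfield.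
Proof.  `T := z`, `z_0 = z`, `z_(j+1) = 2 z_j + T` (`z_1 = 3z`, `z_2 = 7z`, `z_3 = 15z`).  `V_j := HV z_j`,
`X_j := span (Bh V_j (exp (z_j + T)))`: `dim X_j ≥ nn z_j - d/100` (XSP, `T ≥ 100 (5 + log C)`), `X_j V_j ≤ V_(j+1)` (HMU (2)).  If
`nn z_(j+1) ≥ (3/2) dim X_j` for `j = 0, 1, 2`: `nn z_1 ≥ .465 d`, `nn z_2 ≥ .6825 d`, `nn z_3 ≥ 1.00875 d`, impossible.  So LMX
applies for some `j ≤ 2` (`X = X_j`, `V = V_j`, `W = V_(j+1)`): `F = X_j V_j`.  `dim F ≥ dim X_j ≥ .31 d > d/4`, so `[K:F] ≤ 3`.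
`F` is the sum of the `u V_j`, `0 ≠ u ∈ Bh V_j (exp(z_j+T))`, dense at `z_j + (z_j + T) = z_(j+1)` (HMU (1)); finitely many
suffice (finite dimension), so `F` is dense at `z_(j+1)` (HUL), so at `27 z` (HMO (1)). -/
def SpecSBF : Prop := ∀ C : ℝ, 1 ≤ C → RMs C → ∀ (K : Type) [Field K] [NumberField K],
  RD.TR K → ∀ z : ℝ, 100 * (5 + Real.log C) ≤ z → 32 * finrank ℚ K ≤ 100 * nn K z →
  ∃ F : IntermediateField ℚ K, finrank F K ≤ 3 ∧ DE (27 * z) (fs F)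

/-- **GMN** (100 lines).  Geometric mean of the `G_τ`.
Proof.  AM-GM over the `d` embeddings: `∏_φ G_φ ≤ ((1/d) ∑_φ G_φ)^d`, and `∑_φ G_φ = [K:F] ∑_ψ |ψ w|^2 = [K:F] d Ms w` (every
class of embeddings with the same restriction to `F` has `[K:F]` elements).  (2) `G_φ(w^2) ≤ G_φ(w)^2`. -/
def SpecGMN : Prop := ∀ (K : Type) [Field K] [NumberField K] (F : IntermediateField ℚ K) (w : K),
  ∏ φ : K →+* ℂ, (∑ᶠ ψ ∈ {ψ : K →+* ℂ | ∀ f ∈ F, ψ f = φ f}, ‖ψ w‖ ^ 2) ≤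
    (finrank F K * RD.Ms w) ^ finrank ℚ K ∧
  ∏ φ : K →+* ℂ, (∑ᶠ ψ ∈ {ψ : K →+* ℂ | ∀ f ∈ F, ψ f = φ f}, ‖ψ (w ^ 2)‖ ^ 2) ≤
    (finrank F K * RD.Ms w) ^ (2 * finrank ℚ K)

/-- **SM2** (120 lines), from TWD, GMN, HUL, HMO.  A small integer outside `F`.
Proof.  `k = [K:F] ∈ {2,3}` is prime, `K = F(c)`, `⊤ = F ⊔ c F ⊔ c² F`.  TWD, GMN: `F = 1 F` is dense at
`log 3/2 + LD F` (`Ms 1 = 1`), `c F` at `log (3 Ms c)/2 + LD F`, `c² F` at `log (3 Ms c) + LD F`; all `≤ log (3 Ms c) + LD F` because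
`Ms c ≥ 1` (`RD.one_le_prod_norm` and AM-GM).  So `⊤` is dense there. -/
def SpecSM2 : Prop := ∀ (K : Type) [Field K] [NumberField K], RD.TR K →
  ∀ (F : IntermediateField ℚ K) (c : K), 1 < finrank F K → finrank F K ≤ 3 → IsIntegral ℤ c →
  c ∉ F → HV K (Real.log (3 * RD.Ms c) + LD F) = ⊤

/-- **HSX** (40 lines), from INF.  Proof.  INF with `D = 1`, `x = a = y = R`: `nn x = d`; `GG x + x d ≤ 3 GG x + ..`. -/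
def SpecHSX : Prop := ∀ C : ℝ, 1 ≤ C → RMs C → ∀ ε : ℝ, 0 < ε → ε ≤ 1 → ∃ C' : ℝ, 0 ≤ C' ∧
  ∀ (K : Type) [Field K] [NumberField K], RD.TR K → RD.P3 K → ∀ x : ℝ, 0 ≤ x → HV K x = ⊤ →
  x * finrank ℚ K ≤ 2 * GG K x + (ε * x + C') * finrank ℚ K

/-- **FS2** (150 lines).  The forced square, in mean values.
Proof.  As RD.SpecFSQ (`RD/FSQ.lean`) with `Ms a + Ms b + Ms c ≤ B`: `h^2 + β = y_1^2+y_2^2+y_3^2`,
`∑ Ms y_i = Ms h + Ms a + Ms b + Ms c ≤ Ms g + 1 + B < 2 Ms g`; exactly one `y_i ∉ F` (one because `h^2 + β ∉ F`, not two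
by minimality of `g`); `κ := β - y'^2 - y''^2 ≠ 0`, `Ms y' + Ms y'' ≤ 1 + B` (as `Ms y ≥ Ms g`), `Av κ ≤ B + 1 + B`. -/
def SpecFS2 : Prop := ∀ (K : Type) [Field K] [NumberField K], RD.TR K → RD.P3 K →
  ∀ (F : IntermediateField ℚ K) (a b c g h : K) (B : ℝ),
  (a ∈ F ∧ IsIntegral ℤ a) → (b ∈ F ∧ IsIntegral ℤ b) → (c ∈ F ∧ IsIntegral ℤ c) →
  RD.Ms a + RD.Ms b + RD.Ms c ≤ B →
  (∀ y z : K, y ∈ F → z ∈ F → IsIntegral ℤ y → IsIntegral ℤ z →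
    a ^ 2 + b ^ 2 + c ^ 2 ≠ y ^ 2 + z ^ 2) →
  IsIntegral ℤ g → g ∉ F → (∀ x : K, IsIntegral ℤ x → x ∉ F → RD.Ms g ≤ RD.Ms x) →
  1 + B < RD.Ms g → IsIntegral ℤ h → h ^ 2 ∉ F → RD.Ms h ≤ RD.Ms g + 1 →
  ∃ y κ : K, IsIntegral ℤ y ∧ y ∉ F ∧ κ ∈ F ∧ κ ≠ 0 ∧ y ^ 2 = h ^ 2 + κ ∧
    RD.Ms y ≤ RD.Ms g + 1 + B ∧ RD.Av κ ≤ 2 * B + 1

/-- **RX3** (250 lines), from HSX, TWD, GMN, XSP, TOP, HUL, HMO.  Index 3.
Proof.  `t = Ms g ≥ 1`.  As in RD.SpecIX3: `1, g, y` is an `F`-basis of `K` (if `y = p + q g` then `q² = 1`, `2pq = 0`, `p² = κ`, so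
`κ = 0`), `⊤ = F ⊔ g F ⊔ y F`; TWD, GMN: all three are dense at `x := log(6t)/2 + LD F`, so `HV x = ⊤`, `LD K ≤ 2x`.  `C₁` from
HSX with `ε = 1/100`; `T := 100 (5 + log C)`.  If `0 ≤ z`, `z + T < log t/2`: an integer of house `≤ exp(z+T)` has
`Ms ≤ exp(2(z+T)) < t`, so lies in `F`; XSP: `nn z ≤ d/3 + d/100 ≤ .35 d`, so
`GG x ≤ GG z + (x-z) d ≤ .35 z d + (x - z) d` (HMO).  HSX: `x ≤ 2x - 1.3 z + x/100 + C₁`, so `1.3 z ≤ 1.01 x + C₁` for all these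
`z`; so `1.3 (log t/2 - T) ≤ 1.01 (log(6t)/2 + LD F) + C₁` (trivial if `log t/2 ≤ T`), `log t ≤ 7 LD F + const`. -/
def SpecRX3 : Prop := ∀ C : ℝ, 1 ≤ C → RMs C → ∃ C' : ℝ, ∀ (K : Type) [Field K]
  [NumberField K], RD.TR K → RD.P3 K → ∀ (F : IntermediateField ℚ K) (g y κ : K),
  finrank F K = 3 → IsIntegral ℤ g → g ∉ F →
  (∀ x : K, IsIntegral ℤ x → x ∉ F → RD.Ms g ≤ RD.Ms x) →
  IsIntegral ℤ y → y ∉ F → κ ∈ F → κ ≠ 0 → y ^ 2 = g ^ 2 + κ → RD.Ms y ≤ 2 * RD.Ms g →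
  LD K ≤ C' * (1 + LD F)

/-- **CVR** (250 lines), from POI, CUB, LTB, DUB, GTH.  Covering radius of ideals (no loss in the degree).
Proof.  `n = finrank ℚ F`; `b` a `ℤ`-basis of `I`, `gd (ev b)^(1/2) = N(I) |discr F|^(1/2) =: Δ`; `b'` the dual basis of `ev ∘ b`:
`b' = ev q`, `q` the trace dual basis; a nonzero `w ∈ span ℤ q` has `Tr(w I) ⊆ ℤ`, so `w I 𝔇` is a nonzero integral
ideal, `|N w| ≥ 1/(N(I) |discr F|)`, so `‖ev w‖^2 ≥ n |N w|^(2/n) ≥ n μ²`, `μ := N(I)^(-1/n) exp(-LD F)` (AM-GM), and so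
`hs w < μ` is impossible: CUB for `S = span ℤ q` at a scale `z' < log μ`: `rh z' S ≤ 4^n`.  `A := √3/μ`, `z := log A`.  POI:
`ths z (ev b) v = (A^n/Δ) (1 + ∑_(w ≠ 0) exp(-π A² ‖ev w‖²) cos ..)`, and
`∑_(w ≠ 0) exp(-πA²‖ev w‖²) ≤ exp(-(π/2) A² n μ²) ∑_w exp(-(π/2) A²‖ev w‖²) ≤ exp(-(3π/2) n) 4^n ≤ 1/2` (`exp(-2z') = A²/2`,
`exp z' = √2/A < μ`).  The terms with `‖v + x‖² > 6 n/μ² = 2 n A²` contribute at most
`exp(-(π/2) 2n) ths (z + log 2/2) (ev b) v ≤ exp(-πn) 2^(n/2) (A^n/Δ)(3/2) < (1/2) A^n/Δ`.  So there is `x ∈ I` with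
`‖ev v - ev x‖² ≤ 6 n/μ²`. -/
def SpecCVR : Prop := ∀ (F : Type) [Field F] [NumberField F], RD.TR F →
  ∀ (I : Ideal (𝓞 F)) (v : F), I ≠ ⊥ → ∃ f ∈ I,
  RD.Ms (v - (f : F)) ≤
    6 * (Ideal.absNorm I : ℝ) ^ ((2 : ℝ) / finrank ℚ F) * Real.exp (2 * LD F)

/-- **NEG** (300 lines), from POI, CUB, LTB, DUB, GTH.  A small element `1 + 4u` of negative norm (no loss in the degree).
Proof.  `n = finrank ℚ F`, `R = LD F ≥ 0`, `A := c exp(R) (1+R)`, `T₀ := c A² (1 + log A)`, `c` large absolute.  Suppose all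
`x ∈ 1 + 4 O_F` with `Ms x ≤ T₀` have positive norm.  `S := ∑_(x ∈ 1+4O_F) ∏_φ sinh(2π φ(x)/A) exp(-π φ(x)²/A²)`
(absolutely convergent).  (i) `∏ sinh` has the sign of `N x`; the term `x = 1` is `≥ (2π/A)^n exp(-πn)` (`sinh t ≥ t`).
(ii) Terms with `Ms x > T₀`: `2π|t|/A ≤ (π/2) t²/A² + 2π`, so they are `≤ exp(2πn) exp(-(π/2)‖x‖²/A²)`, in sum
`≤ exp(2πn) exp(-(π/4) n T₀/A²) ths (log(2A)) (1 + 4O_F) ≤ exp(2πn - (π/4) n T₀/A²) rh (log(2A)) O_F`, and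
`rh (log(2A)) O_F ≤ (2.1 A)^n rh (-1/100) O_F ≤ (8.4 A)^n` (GTH (3), CUB: no nonzero integer of house `< 1`).
(iii) Expand `∏ sinh` over signs `ε`: `S = 2^(-n) ∑_ε (∏ ε_φ) exp(πn) ∑_x exp(-π‖x - A ε‖²/A²)`; POI for `4 O_F`: the inner
sum is `(A^n/Δ)(1 + ∑_(w ≠ 0) exp(-πA²‖w‖²) cos ..)`, `Δ = 4^n |discr F|^(1/2)`, `w` in `(1/4)` codifferent,
`‖w‖² ≥ n exp(-2R)/16`; the terms `1` cancel (`∑_ε ∏ ε = 0`).  As in CVR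
`∑_(w≠0) exp(-πA²‖w‖²) ≤ exp(-(π/2) A² n exp(-2R)/16) 4^n`, so `|S| ≤ exp(πn) A^n exp(-πA² n exp(-2R)/32)` (`Δ ≥ 4^n`).
(iv) `S ≥ term(1) - (ii)` is `> 0` and larger than the bound (iii) for large `c`: a contradiction. -/
def SpecNEG : Prop := ∃ B : ℝ, 0 ≤ B ∧ ∀ (F : Type) [Field F] [NumberField F], RD.TR F →
  ∃ u : 𝓞 F, Algebra.norm ℤ (1 + 4 * u) < 0 ∧
    RD.Ms (((1 + 4 * u : 𝓞 F)) : F) ≤ Real.exp (B * (1 + LD F))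

/-- **WIT** (250 lines), from CVR, NEG (compare `RD/BET.lean` and `Prime.lean`).  A small sum of three squares which is not a
sum of two squares.
Proof.  `γ = 1 + 4u` (NEG), `|N γ| = 3 mod 4`, so some prime `P ∣ (γ)` has `N P = 3 mod 4` (the proof of `exists_prime`, as in
`RD/BET.lean`); `N P ≤ |N γ| ≤ (Ms γ)^(n/2)` (AM-GM).  There are `a, b` with `a²+b²+1 ∈ P`, `a ∉ P`, and `π ∈ P \ P²`; replace
`a`, `b`, `a + π` by representatives modulo `P²` (CVR with `I = P²`, `v = a`, ..): `Ms ≤ 6 N(P)^(4/n) exp(2 LD F) ≤ 6 (Ms γ)² exp(2 LD F)`.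
Either `a²+b²+1 ∉ P²`, or `(a+π)²+b²+1 ∉ P²` (`2aπ ∉ P²`); both are in `P`; a sum of two squares in `P` is in `P²`
(`-1` is not a square mod `P`). -/
def SpecWIT : Prop := ∃ B : ℝ, 0 ≤ B ∧ ∀ (F : Type) [Field F] [NumberField F], RD.TR F →
  ∃ a b c : 𝓞 F, RD.Ms (a : F) + RD.Ms (b : F) + RD.Ms (c : F) ≤ Real.exp (B * (1 + LD F)) ∧
    ¬ ∃ y z : 𝓞 F, a ^ 2 + b ^ 2 + c ^ 2 = y ^ 2 + z ^ 2

/-- **WTF** (120 lines), from WIT, CVR (compare `RD/BTF.lean`).  The same inside `K`, and the covering radius inside `K`.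
Proof.  Every embedding of `F` extends to `[K:F]` embeddings of `K`, so `Ms` of an element of `F` is the same in `F` and
in `K`; integrality is the same; `F` is totally real.  CVR with `I = ⊤`. -/
def SpecWTF : Prop := ∃ B : ℝ, 0 ≤ B ∧ ∀ (K : Type) [Field K] [NumberField K], RD.TR K →
  ∀ F : IntermediateField ℚ K,
  (∃ a b c : K, (a ∈ F ∧ IsIntegral ℤ a) ∧ (b ∈ F ∧ IsIntegral ℤ b) ∧ (c ∈ F ∧ IsIntegral ℤ c) ∧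
    RD.Ms a + RD.Ms b + RD.Ms c ≤ Real.exp (B * (1 + LD F)) ∧
    ∀ y z : K, y ∈ F → z ∈ F → IsIntegral ℤ y → IsIntegral ℤ z →
      a ^ 2 + b ^ 2 + c ^ 2 ≠ y ^ 2 + z ^ 2) ∧
  ∀ z ∈ F, ∃ f ∈ F, IsIntegral ℤ f ∧ RD.Ms (z - f) ≤ 6 * Real.exp (2 * LD F)

/-- **RX2** (300 lines), from TWD, GMN, TOP, HUL.  Index 2 (compare `RD/IXA.lean`).
Proof.  `μ := 6 exp(2 LD F)`, `σ` the nontrivial automorphism of `K/F`.  `A := h + σh`, `e := h - σh`, `P := y + σy`,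
`y' := y - σy`, all integral; `Ms (f + x) = Ms f + Ms x` for `f ∈ F`, `σx = -x`.  `g` minimal: for an integer `f ∈ F`,
`Ms(g-f) ≥ Ms g`, so `Ms((g+σg)/2) ≤ Ms((g+σg)/2 - f)`, `≤ μ` for a suitable `f`; if `h = g + 1`, `g² ∈ F`, then `σg = -g`, `A = 2`; so
`Ms A ≤ 4(μ+1)`.  `Ms(y-f) ≥ Ms g ≥ Ms y - B1` gives `Ms P ≤ 4(μ + B1)`.  As in IXA: `e²(A²-P²) = P²(A²-P²+4κ)`, `A, P ≠ 0`,
`A² ≠ P²`, product over all embeddings, `∏ |φ(A²-P²)| ≥ 1`, AM-GM: `(∏|φ e|)² ≤ (Ms P (Ms A + Ms P + 4 Av κ))^d ≤ H^d`,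
`H := 4(μ+1+B1) (8(μ+1) + 4B1 + 4B2)`.  The two conjugates of `e` over `τ` are `± `, so `G_φ(e) = 2|φ e|²` and
`∏_φ G_φ(e) = 2^d (∏|φ e|)² ≤ (2H)^d`.  TWD: `e F` is dense at `log(2H)/2 + LD F`, `F` too (GMN with `w = 1`, `2H ≥ 3`), and
`⊤ = F ⊔ e F`; TOP. -/
def SpecRX2 : Prop := ∀ (K : Type) [Field K] [NumberField K], RD.TR K →
  ∀ (F : IntermediateField ℚ K) (B1 B2 : ℝ) (g h y κ : K), finrank F K = 2 → 0 ≤ B1 → 0 ≤ B2 →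
  (∀ z ∈ F, ∃ f ∈ F, IsIntegral ℤ f ∧ RD.Ms (z - f) ≤ 6 * Real.exp (2 * LD F)) →
  IsIntegral ℤ g → g ∉ F → (∀ x : K, IsIntegral ℤ x → x ∉ F → RD.Ms g ≤ RD.Ms x) →
  (h = g ∨ (g ^ 2 ∈ F ∧ h = g + 1)) → h ^ 2 ∉ F →
  IsIntegral ℤ y → y ∉ F → κ ∈ F → κ ≠ 0 → y ^ 2 = h ^ 2 + κ → RD.Ms y ≤ RD.Ms g + B1 →
  RD.Av κ ≤ B2 →
  LD K ≤ Real.log (8 * (6 * Real.exp (2 * LD F) + 1 + B1) *
    (8 * (6 * Real.exp (2 * LD F) + 1) + 4 * B1 + 4 * B2)) + 2 * LD F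

/-- **REL** (200 lines), from SM2, TOP, WTF, FS2, RX3, RX2.  The relative theorem (compare `RD/IDX.lean`).
Proof.  `g` := an integer outside `F` with minimal `Ms` (`RD.Bx_finite`, `RD.hs_le_Ms`), `a, b, c` from WTF,
`B := exp(B₀(1 + LD F)) ≥ 1`.  If `Ms g ≤ 1 + B`: SM2, TOP: `LD K ≤ 2 log(3(1+B)) + 2 LD F`.  Otherwise `h := g` if `g² ∉ F`; if
`g² ∈ F` then `[K:F] = 2` (index 3 is odd), `σg = -g`, `Ms(g+1) = Ms g + 1`, `h := g + 1`, `h² ∉ F`.  FS2 gives `y, κ` with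
`Ms y ≤ Ms g + (1+B)`, `Av κ ≤ 2B+1`.  Index 3: RX3 (`Ms y < 2 Ms g`).  Index 2: RX2 with `B1 = 1+B`, `B2 = 2B+1`.  All
bounds are `≤ C' (1 + LD F)` (`TOP (3)` for `F`: `LD F ≥ 0`). -/
def SpecREL : Prop := ∀ C : ℝ, 1 ≤ C → RMs C → ∃ C' : ℝ, 0 ≤ C' ∧ ∀ (K : Type) [Field K]
  [NumberField K], RD.TR K → RD.P3 K → ∀ F : IntermediateField ℚ K, 1 < finrank F K →
  finrank F K ≤ 3 → LD K ≤ C' * (1 + LD F)

/-- **FRC** (100 lines), from NZ0, SBF, DTF, TOP, REL.  The theorem.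
Proof.  `C₁` from REL.  NZ0 with `ε := min 1 (1/(200 (C₁+1)))`: `z ≤ ε R + C'`, `R = LD K`; `z' := max z (100(5 + log C))`
(`nn` is monotone).  SBF: `F`, `[K:F] ≤ 3`, `DE (27 z') F`; DTF: `LD F ≤ 54 z'`.  If `[K:F] = 1`, `F = ⊤`, `HV (27 z') = ⊤` and
`R ≤ 54 z'` (TOP).  Otherwise `R ≤ C₁ (1 + 54 z')`.  Both give `R ≤ R/2 + const`. -/
def SpecFRC : Prop := ∀ C : ℝ, 1 ≤ C → RMs C → ∃ C' : ℝ, ∀ (K : Type) [Field K]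
  [NumberField K], RD.TR K → RD.P3 K → LD K ≤ C'

end Pool.Agent.Lib.MPcb8a44.RC
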