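import Pool.Agent.Lib.MP_cb8a44_nt.RD.Spec
import Pool.Agent.Lib.MP_cb8a44_nt.RC.SpecE
import Pool.Agent.Lib.MP_cb8a44_nt.RM.SpecL

section
/-!
# Final assembly of Theorem RD
-/
set_option autoImplicit false

open NumberField Module
open scoped Pointwise

namespace Pool.Agent.Lib.MPcb8a44.RD

namespace FINM

lemma p3_of {K : Type} [Field K] [NumberField K]
    (h : ∀ x : 𝓞 K, (∃ (m : ℕ) (f : Fin m → 𝓞 K), x = ∑ i, f i ^ 2) →
      ∃ f : Fin 3 → 𝓞 K, x = ∑ i, f i ^ 2) : P3 K := by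
  intro α hα
  have key : ∃ (m : ℕ) (f : Fin m → 𝓞 K), α = ((∑ i, f i ^ 2 : 𝓞 K) : K) := by
    induction hα using AddSubmonoid.closure_induction with
    | mem y hy =>
      obtain ⟨x, hx, rfl⟩ := hy
      exact ⟨1, fun _ => ⟨x, hx⟩, by simp⟩
    | zero => exact ⟨0, Fin.elim0, by simp⟩
    | add x y _ _ hx hy =>
      obtain ⟨m, f, rfl⟩ := hx
      obtain ⟨n, g, rfl⟩ := hy
      refine ⟨m + n, Fin.append f g, ?_⟩
      rw [Fin.sum_univ_add]
      simp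
  obtain ⟨m, f, hf⟩ := key
  obtain ⟨g, hg⟩ := h _ ⟨m, f, rfl⟩
  refine ⟨g 0, g 1, g 2, (g 0).2, (g 1).2, (g 2).2, ?_⟩
  rw [hf, hg, Fin.sum_univ_three]
  push_cast
  rfl

/-- the power bound for the minima -/
lemma exp_le {C1 : ℝ} {C : ℕ} (h1 : Real.exp |C1| ≤ C) (h2 : |C1| ≤ C) {d : ℕ} (hd : 1 ≤ d) :
    Real.exp (C1 * (1 + Real.log d)) ≤ ((C : ℝ) * d) ^ C := by
  have hd' : (1 : ℝ) ≤ d := by exact_mod_cast hd
  have hl : 0 ≤ Real.log d := Real.log_nonneg hd'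
  have hC1 : (1 : ℝ) ≤ C := le_trans (Real.one_le_exp (abs_nonneg _)) h1
  have hC : 1 ≤ C := by exact_mod_cast hC1
  calc Real.exp (C1 * (1 + Real.log d)) ≤ Real.exp (|C1| + C * Real.log d) := by
        apply Real.exp_le_exp.2
        have : C1 ≤ |C1| := le_abs_self _
        nlinarith [mul_le_mul_of_nonneg_right (this.trans h2) hl]
    _ = Real.exp |C1| * (d : ℝ) ^ C := by
        rw [Real.exp_add, mul_comm (C : ℝ) (Real.log d), Real.exp_mul,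
          Real.exp_log (by linarith), Real.rpow_natCast]
    _ ≤ (C : ℝ) * (d : ℝ) ^ C := mul_le_mul_of_nonneg_right h1 (by positivity)
    _ ≤ (C : ℝ) ^ C * (d : ℝ) ^ C := by
        apply mul_le_mul_of_nonneg_right _ (by positivity)
        calc (C : ℝ) = (C : ℝ) ^ 1 := (pow_one _).symm
          _ ≤ (C : ℝ) ^ C := pow_le_pow_right₀ hC1 hC
    _ = ((C : ℝ) * d) ^ C := (mul_pow _ _ _).symm

end FINM

theorem fin (hMIN : SpecMIN) (hBIG : SpecBIG) (hSMA : SpecSMA) (hDSC : SpecDSC) :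
    ∃ C : ℕ, ∀ (K : Type) [Field K] [NumberField K],
      (∀ φ : K →+* ℂ, ∀ x : K, (φ x).im = 0) →
      (∀ x : 𝓞 K, (∃ (m : ℕ) (f : Fin m → 𝓞 K), x = ∑ i, f i ^ 2) →
        ∃ f : Fin 3 → 𝓞 K, x = ∑ i, f i ^ 2) →
      (∃ b : Basis (Fin (finrank ℚ K)) ℚ K, ∀ i, IsIntegral ℤ (b i) ∧
        ∀ φ : K →+* ℂ, ‖φ (b i)‖ ≤ (C * finrank ℚ K) ^ C) ∧
      |discr K| ≤ (C * finrank ℚ K) ^ (C * finrank ℚ K) := by
  obtain ⟨C1, hC1⟩ := hBIG
  obtain ⟨X, hX⟩ := hSMA 1000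
  obtain ⟨C, hC⟩ := exists_nat_ge (max (max (Real.exp |C1|) |C1|) (max X 1))
  have h1 : Real.exp |C1| ≤ C := le_trans (le_trans (le_max_left _ _) (le_max_left _ _)) hC
  have h2 : |C1| ≤ C := le_trans (le_trans (le_max_right _ _) (le_max_left _ _)) hC
  have h3 : X ≤ C := le_trans (le_trans (le_max_left _ _) (le_max_right _ _)) hC
  have h4 : (1 : ℝ) ≤ C := le_trans (le_trans (le_max_right _ _) (le_max_right _ _)) hC
  have hCn : 1 ≤ C := by exact_mod_cast h4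
  refine ⟨2 * (C + 1), ?_⟩
  intro K _ _ hTR hP
  have hP3 : P3 K := FINM.p3_of hP
  set d := finrank ℚ K with hd
  have hd1 : 1 ≤ d := d_pos
  have hd1' : (1 : ℝ) ≤ d := by exact_mod_cast hd1
  -- the basis with the bound `(C d)^C`
  have key : ∃ b : Fin (finrank ℚ K) → K, LinearIndependent ℚ b ∧
      ∀ i, IsIntegral ℤ (b i) ∧ hs (b i) ≤ ((C : ℝ) * d) ^ C := by
    rcases le_or_gt 1000 (finrank ℚ K) with h | h
    · obtain ⟨m⟩ := hMIN K
      refine ⟨m.w, m.ind, fun i => ⟨m.int i, ?_⟩⟩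
      have h5 := hC1 K m hTR hP3 h
      rw [← exp_ell]
      exact (Real.exp_le_exp.2 ((ell_le_Lam m i.2).trans h5)).trans (FINM.exp_le h1 h2 hd1)
    · obtain ⟨b, hb, hb'⟩ := hX K hTR hP3 h.le
      refine ⟨b, hb, fun i => ⟨(hb' i).1, (hb' i).2.trans (h3.trans ?_)⟩⟩
      calc (C : ℝ) = (C : ℝ) ^ 1 := (pow_one _).symm
        _ ≤ (C : ℝ) ^ C := pow_le_pow_right₀ h4 hCn
        _ ≤ ((C : ℝ) * d) ^ C := pow_le_pow_left₀ (by positivity) (by nlinarith) _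
  obtain ⟨b, hb, hb'⟩ := key
  have hCd : (1 : ℝ) ≤ (C : ℝ) * d := by nlinarith
  have hCd2 : (C : ℝ) * d ≤ ((2 * (C + 1) : ℕ) : ℝ) * d := by
    push_cast
    nlinarith
  constructor
  · have hc : Fintype.card (Fin (finrank ℚ K)) = finrank ℚ K := Fintype.card_fin _
    have : Nonempty (Fin (finrank ℚ K)) := ⟨⟨0, d_pos⟩⟩
    refine ⟨basisOfLinearIndependentOfCardEqFinrank hb hc, ?_⟩
    intro i
    rw [coe_basisOfLinearIndependentOfCardEqFinrank]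
    refine ⟨(hb' i).1, fun φ => (norm_le_hs φ _).trans ((hb' i).2.trans ?_)⟩
    calc ((C : ℝ) * d) ^ C ≤ (((2 * (C + 1) : ℕ) : ℝ) * d) ^ C :=
          pow_le_pow_left₀ (by positivity) hCd2 _
      _ ≤ (((2 * (C + 1) : ℕ) : ℝ) * d) ^ (2 * (C + 1)) :=
          pow_le_pow_right₀ (hCd.trans hCd2) (by omega)
  · have h6 := hDSC K _ b hb hb'
    have h7 : ((|discr K| : ℤ) : ℝ) ≤
        ((((2 * (C + 1) : ℕ) : ℝ) * d) ^ (2 * (C + 1) * d)) := by
      rw [Int.cast_abs]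
      refine h6.trans ?_
      calc ((d : ℝ) * ((C : ℝ) * d) ^ C) ^ (2 * d)
          ≤ (((C : ℝ) * d) ^ (C + 1)) ^ (2 * d) := by
            apply pow_le_pow_left₀ (by positivity)
            rw [pow_succ' ((C : ℝ) * d) C]
            apply mul_le_mul_of_nonneg_right _ (by positivity)
            nlinarith
        _ ≤ ((((2 * (C + 1) : ℕ) : ℝ) * d) ^ (C + 1)) ^ (2 * d) :=
            pow_le_pow_left₀ (by positivity) (pow_le_pow_left₀ (by positivity) hCd2 _) _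
        _ = (((2 * (C + 1) : ℕ) : ℝ) * d) ^ (2 * (C + 1) * d) := by
            rw [← pow_mul]
            congr 1
            ring
    have h8 : ((|discr K| : ℤ) : ℝ) ≤
        (((((2 * (C + 1) : ℕ) : ℤ) * (finrank ℚ K : ℤ)) ^ (2 * (C + 1) * finrank ℚ K) : ℤ) : ℝ) := by
      push_cast at h7 ⊢
      exact h7
    exact_mod_cast h8

end Pool.Agent.Lib.MPcb8a44.RD
end

section
/-!
# Final assembly of Theorem RC
-/
set_option autoImplicit false

open NumberField Module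

namespace Pool.Agent.Lib.MPcb8a44.RC

/-- The reverse Minkowski inequality from block RM. -/
theorem rms_of (h : Pool.Agent.Lib.MP_cb8a44_nt.RM.SpecRMI) : ∃ C : ℝ, 1 ≤ C ∧ RMs C := by
  obtain ⟨C, hC, h⟩ := h
  refine ⟨C, hC, ?_⟩
  intro E _ _ n b hb hSD
  have h1 := (h n b hb (by
    intro m f hf hfs
    have := hSD m f hfs hf
    rw [mul_zero, zero_mul, Real.exp_zero] at this
    exact this)).2
  have h2 : th 0 b = ∑' x : Fin n → ℤ, Real.exp (-(Real.pi * ‖∑ i, (x i : ℝ) • b i‖ ^ 2)) := by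
    unfold th zc
    simp
  rw [h2]
  exact h1

theorem fin (hRMI : Pool.Agent.Lib.MP_cb8a44_nt.RM.SpecRMI) (hFRC : SpecFRC) :
    ∃ C : ℕ, ∀ (K : Type) [Field K] [NumberField K],
      (∀ φ : K →+* ℂ, ∀ x : K, (φ x).im = 0) →
      (∀ x : 𝓞 K, (∃ (m : ℕ) (f : Fin m → 𝓞 K), x = ∑ i, f i ^ 2) →
        ∃ f : Fin 3 → 𝓞 K, x = ∑ i, f i ^ 2) →
      |discr K| ≤ C ^ finrank ℚ K := by
  obtain ⟨C, hC, hRM⟩ := rms_of hRMI
  obtain ⟨C', hC'⟩ := hFRC C hC hRM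
  obtain ⟨N, hN⟩ := exists_nat_ge (Real.exp C')
  refine ⟨N, ?_⟩
  intro K _ _ hK hP
  have h1 := hC' K hK (RD.FINM.p3_of hP)
  have hd : (0 : ℝ) < finrank ℚ K := by exact_mod_cast RD.d_pos
  have hdisc : (0 : ℝ) < |((discr K : ℤ) : ℝ)| := by
    rw [abs_pos]
    exact_mod_cast discr_ne_zero K
  have h2 : Real.log |((discr K : ℤ) : ℝ)| ≤ C' * finrank ℚ K := by
    unfold LD at h1
    rwa [div_le_iff₀ hd] at h1
  have h3 : |((discr K : ℤ) : ℝ)| ≤ (N : ℝ) ^ finrank ℚ K := by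
    calc |((discr K : ℤ) : ℝ)| = Real.exp (Real.log |((discr K : ℤ) : ℝ)|) := (Real.exp_log hdisc).symm
      _ ≤ Real.exp (C' * finrank ℚ K) := Real.exp_le_exp.2 h2
      _ = Real.exp C' ^ finrank ℚ K := by
          rw [← Real.exp_nat_mul]
          congr 1
          ring
      _ ≤ (N : ℝ) ^ finrank ℚ K := pow_le_pow_left₀ (Real.exp_pos _).le hN _
  exact_mod_cast h3

end Pool.Agent.Lib.MPcb8a44.RC
end
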