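import Pool.Agent.Lib.MP_cb8a44_nt.RC.SpecH

/-!
# Theorem RC, block D: few products, digits and the counting inequality

Conventions as in `SpecG.lean`.
-/

set_option autoImplicit false

open NumberField Module
open scoped Pointwise

namespace Pool.Agent.Lib.MPcb8a44.RC

/-- **COB** (200 lines), from EVB, LTB, DUB, PJE.  Bases of the orthogonal lattices.
Proof.  `c` a basis of `lat A`, `append c e` of `lat B`, `append (append c e) f` of `lat ⊤` (LTB).  Let `(c*, e*, f*)` be the dual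
basis in `K` for the trace form (`Algebra.traceForm`, `LinearMap.BilinForm.dualBasis`).  An `x ∈ cod A` is
`∑ Tr(x e_j) e*_j + ∑ Tr(x f_j) f*_j` with integral coefficients, and conversely; so `h := e*`, `g := f*`.
`gk (append g h) = 1/gd (components of ev (e, f) orthogonal to Rs (ev c)) = gk c/gk (append c ..) = Dt A/Dt ⊤ ≤ Dt A`
(`ev (e*, f*)` is the dual basis of these components; PJE; `Dt ⊤ ≥ 1`; reordering does not change `gk`). -/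
def SpecCOB : Prop := ∀ (K : Type) [Field K] [NumberField K], RD.TR K →
  ∀ A B : Submodule ℚ K, A ≤ B → ∃ (p q : ℕ) (g : Fin p → K) (h : Fin q → K),
    LinearIndependent ℚ (Fin.append g h) ∧
    (Submodule.span ℤ (Set.range (Fin.append g h)) : Submodule ℤ K) = cod A ∧
    (Submodule.span ℤ (Set.range g) : Submodule ℤ K) = cod B ∧
    p + finrank ℚ B = finrank ℚ K ∧ p + q + finrank ℚ A = finrank ℚ K ∧
    gk (Fin.append g h) ≤ Dt A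

/-- **CDM** (60 lines), from COB, RHB, GTH, EVB.  Mass of the orthogonal lattice.
Proof.  COB with `B = A`: GTH (2): `rh z (cod A) ≥ exp(z (d - dim A))/√(gk g)`, `gk g ≤ Dt A`. -/
def SpecCDM : Prop := ∀ (K : Type) [Field K] [NumberField K], RD.TR K →
  ∀ (A : Submodule ℚ K) (z : ℝ), (cod A).FG ∧
  (Summable fun x : cod A => Real.exp (-(Real.pi * Real.exp (-2 * z) * ‖ev (x : K)‖ ^ 2))) ∧
  Real.exp (z * ((finrank ℚ K : ℝ) - finrank ℚ A) - Real.log (Dt A) / 2) ≤ rh z (cod A)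

/-- **TQM** (250 lines), from COB, RHB, EVB, PJE, GSP, GTH, LTB, DEQ, HUL, DUB, QDS, RMC.  Transfer through
`x ↦ Tr (x u ·)` on `V = HV x₀`.
Proof.  `B := A ⊔ u V`, `g`, `h` from COB, `q = dim B - dim A`.  `h'` := components of `ev h` orthogonal to `Rs (ev g)`.  GSP:
`rh σ (cod A) = th σ (ev (append g h)) ≤ rh σ (cod B) * th σ h'`.  Let `v` be a basis of `lat V`, `v'` the dual basis of
`ev v`, `P` the orthogonal projection on `Rs (ev v)`, `T` the multiplication by `u` on `EK K` (EVB), `W := P ∘ T`.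
`W (ev g_i) = 0`: `⟪T (ev g_i), ev v_j⟫ = Tr(g_i u v_j) = 0`.  So for real `t_j`:
`‖W (∑ t_j ev h_j)‖ = ‖W (∑ t_j h'_j)‖ ≤ hs u ‖∑ t_j h'_j‖` (`ev h_j - h'_j ∈ Rs (ev g)`).  `w_j := W (ev h_j)`:
`⟪w_j, ev v_i⟫ = Tr(h_j u v_i) ∈ ℤ` (`u v_i` is an integer), so `w_j ∈ Zs v'`.  The `w_j` are independent: if
`∑ t_j w_j = 0`, the vector `∑ t_j ev h_j` is orthogonal to `ev (u V)` and to `ev A`, so to `ev B`, so lies in `Rs (ev g)`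
(dimension `d - dim B`), so `t = 0`.  `SD (-x₀) v'` (HUL, DEQ, QDS), so `th (-x₀) w ≤ C^q` (RMC), and
`th σ h' ≤ th (σ+s) w` (termwise, `‖zc w l‖ ≤ exp(s) ‖zc h' l‖`) `≤ exp((σ+s+x₀) q) th (-x₀) w` (GTH (3)). -/
def SpecTQM : Prop := ∀ C : ℝ, 1 ≤ C → RMs C → ∀ (K : Type) [Field K] [NumberField K],
  RD.TR K → ∀ (A : Submodule ℚ K) (u : K) (x₀ σ s : ℝ), u ≠ 0 → IsIntegral ℤ u →
  RD.hs u ≤ Real.exp s → 0 ≤ σ + s + x₀ →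
  rh σ (cod A) ≤ rh σ (cod (A ⊔ sc u (HV K x₀))) * (C * Real.exp (σ + s + x₀)) ^
    (finrank ℚ (A ⊔ sc u (HV K x₀) : Submodule ℚ K) - finrank ℚ A)

/-- **FPS** (250 lines), from TQM, CDM, MAB, CUB, HUL, LTB.  One more product.
Proof.  `m := x + y + T`, `c₀ := log C`, `U := HV y`, `V := HV x`, `S := Bh U (exp (y+T))` (finite, contains 0),
`σ := (2m+2)/δ`, `Q := σ + m + c₀ ≤ (3m+2+c₀)/δ`, so `Q ρ ≤ δ T`.  Suppose `A_u := A ⊔ u V` has `dim A_u - dim A ≤ ρ d` for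
all `u ∈ S`.  (i) `psi m A ≤ 0`, so `log(Dt A)/2 ≤ m d`; CDM: `rh σ (cod A) ≥ exp((m+2) d)`.  TQM (trivial for
`u = 0`): `rh σ (cod A_u) ≥ exp(-Qρd) rh σ (cod A) ≥ exp((m+2-δT) d) ≥ 2`, so the sum over the nonzero elements of
`cod A_u` is `≥ (1/2) exp(-Qρd) rh σ (cod A)`.  (ii) For `0 ≠ x ∈ cod A`: `U_x := {u ∈ U | ∀ v ∈ V, Tr(x u v) = 0}` has dimension
`≤ d - dim V`, so `dim U - dim U_x ≥ 2δd`; for `u ∈ U`, `x ∈ cod A_u ↔ u ∈ U_x`.  CUB, MAB: the number of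
`u ∈ S ∩ U_x` is `≤ exp(πd) rh (y+T) (lat U_x) ≤ exp(πd) C^d exp(-2δdT) rh (y+T) (lat U) ≤ (4 e^π C)^d exp(-2δdT) #S`.
(iii) Double counting of `∑_(u ∈ S) ∑_(0 ≠ x ∈ cod A_u) exp(-π e^(-2σ) ‖ev x‖^2)`:
`(1/2) exp(-Qρd) ≤ (4 e^π C)^d exp(-2δdT)`, so `2δT ≤ Qρ + log 4 + π + c₀ + log 2 < δT + 6 + c₀`: a contradiction. -/
def SpecFPS : Prop := ∀ C : ℝ, 1 ≤ C → RMs C → ∀ (K : Type) [Field K] [NumberField K],
  RD.TR K → ∀ x y T δ ρ : ℝ, 0 ≤ x → 0 ≤ y → 0 < δ → δ ≤ 1 → 6 + Real.log C ≤ δ * T → 0 < ρ →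
  ρ * (3 * (x + y + T) + 2 + Real.log C) ≤ δ ^ 2 * T →
  (1 + 2 * δ) * finrank ℚ K ≤ (nn K y : ℝ) + nn K x →
  ∀ A : Submodule ℚ K, DE (x + y + T) A → (finrank ℚ A : ℝ) ≤ (1 - δ) * finrank ℚ K →
  ∃ u ∈ Bh (HV K y) (Real.exp (y + T)), u ≠ 0 ∧ (finrank ℚ A : ℝ) + ρ * finrank ℚ K <
    finrank ℚ (A ⊔ sc u (HV K x) : Submodule ℚ K)

/-- **FPK** (120 lines), from FPS, HUL, HMO, HMU.  Few products span almost everything.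
Proof.  `u_0 = 1` (`hs 1 = 1 ≤ exp (y+T)`), `A_1 = HV x`, dense at `x`, so at `m = x + y + T` (HMO (1)).  As long as
`dim A_j < (1-δ) d`, FPS gives `u_j ∈ Bh (HV y) (exp(y+T))`; `u_j (HV x)` is dense at `x + (y+T)` (HMU), so
`A_(j+1) := A_j ⊔ u_j (HV x)` is dense at `m` (HUL) and `dim A_(j+1) > j ρ d`.  Stops after at most `1/ρ + 1` steps. -/
def SpecFPK : Prop := ∀ C : ℝ, 1 ≤ C → RMs C → ∀ (K : Type) [Field K] [NumberField K],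
  RD.TR K → ∀ x y T δ ρ : ℝ, 0 ≤ x → 0 ≤ y → 0 < δ → δ ≤ 1 → 6 + Real.log C ≤ δ * T → 0 < ρ →
  ρ * (3 * (x + y + T) + 2 + Real.log C) ≤ δ ^ 2 * T →
  (1 + 2 * δ) * finrank ℚ K ≤ (nn K y : ℝ) + nn K x →
  ∃ (k : ℕ) (u : Fin k → K), (k : ℝ) ≤ 1 / ρ + 2 ∧
    (∀ i, u i ≠ 0 ∧ IsIntegral ℤ (u i) ∧ RD.hs (u i) ≤ Real.exp (y + T)) ∧ (∃ i, u i = 1) ∧
    (1 - δ) * finrank ℚ K ≤ (finrank ℚ (⨆ i, sc (u i) (HV K x) : Submodule ℚ K) : ℝ)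

/-- **RES** (200 lines), from MAA, MAB, CUB, RHB, GTH, LTB, EVB.  Many residues mod `q` of small elements.
Proof.  `V = HV a`, `r = dim V`, `z := a + log q`, `S := Bh V (q exp a) = Bh V (exp z)`.  CUB, MAA:
`#S ≥ 4^(-d) rh z (lat V) ≥ 4^(-d) exp(-psi z V) = 4^(-d) q^r exp(GG a)`.  `H ⊆ S`: one element from every nonempty class of
`S` modulo `q lat V`.  A class `κ + q lat V` meets `S` in at most
`exp(πd) ∑_(w ∈ lat V) exp(-π e^(-2z) ‖ev κ + q ev w‖^2) ≤ exp(πd) rh a (lat V) ≤ exp(πd) C^d exp(GG a)` elements (all terms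
with `‖ev ·‖^2 ≤ d exp(2z)` are `≥ exp(-πd)`; GTH (1) for the basis `q b` of `q lat V`, `q^2 exp(-2z) = exp(-2a)`; MAB). -/
def SpecRES : Prop := ∀ C : ℝ, 1 ≤ C → RMs C → ∀ (K : Type) [Field K] [NumberField K],
  RD.TR K → ∀ (a : ℝ) (q : ℕ), 1 ≤ q → ∃ H : Finset K,
  (∀ h ∈ H, h ∈ lat (HV K a) ∧ RD.hs h ≤ q * Real.exp a) ∧
  (∀ h ∈ H, ∀ h' ∈ H, (∃ w ∈ lat (HV K a), h - h' = (q : K) * w) → h = h') ∧
  (q : ℝ) ^ nn K a ≤ (4 * Real.exp Real.pi * C) ^ finrank ℚ K * H.card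

/-- **DGL** (80 lines).  Digits.
Proof.  Induction on `m`: modulo `q W` the sums are `h_0`, `h'_0`, so `h_0 = h'_0`; divide by `q` (`K` is a field of
characteristic 0). -/
def SpecDGL : Prop := ∀ (K : Type) [Field K] [CharZero K] (W : Submodule ℤ K) (q : ℕ)
  (H : Set K), 1 ≤ q → (∀ h ∈ H, h ∈ W) →
  (∀ h ∈ H, ∀ h' ∈ H, (∃ w ∈ W, h - h' = (q : K) * w) → h = h') →
  ∀ (m : ℕ) (h h' : Fin m → K), (∀ j, h j ∈ H) → (∀ j, h' j ∈ H) →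
  (∃ w ∈ W, ∑ j : Fin m, (q : K) ^ (j : ℕ) * h j - ∑ j : Fin m, (q : K) ^ (j : ℕ) * h' j =
    (q : K) ^ m * w) → h = h'

/-- **CLS** (200 lines).  Classes of sums of few products.
Proof.  `M := ⨆ u_i W`, free of rank `r'`; `W` free of rank `r`.  The map `(l_i) ↦ ∑ u_i l_i`, `W^k → M` is surjective, so
`(W/QW)^k → M/QM` is a surjective homomorphism of finite groups of orders `Q^(rk)`, `Q^(r')`; every fibre has
`Q^(rk)/Q^(r')` elements.  `L^k` injects into `(W/QW)^k`, so its image in `M/QM` has at least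
`|L|^k Q^(r')/Q^(rk)` elements; `Λ` := one sum `∑ u_i l_i` for every element of the image. -/
def SpecCLS : Prop := ∀ (K : Type) [Field K] [CharZero K] (W : Submodule ℤ K), W.FG →
  ∀ (k : ℕ) (u : Fin k → K) (Q : ℕ) (L : Finset K), 1 ≤ Q → (∀ l ∈ L, l ∈ W) →
  (∀ l ∈ L, ∀ l' ∈ L, (∃ w ∈ W, l - l' = (Q : K) * w) → l = l') →
  ∃ Λ : Finset K, (∀ x ∈ Λ, ∃ l : Fin k → K, (∀ i, l i ∈ L) ∧ x = ∑ i, u i * l i) ∧
    (∀ x ∈ Λ, ∀ x' ∈ Λ,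
      (∃ w ∈ ⨆ i, W.map (LinearMap.mulLeft ℤ (u i)), x - x' = (Q : K) * w) → x = x') ∧
    L.card ^ k * Q ^ finrank ℤ (⨆ i, W.map (LinearMap.mulLeft ℤ (u i)) : Submodule ℤ K) ≤
      Λ.card * Q ^ (finrank ℤ W * k)

/-- **SPL** (60 lines).  Splitting a power of 2 between two factors.
Proof.  `p := min P ⌊(X-α)/log 2⌋₊`, `u' := 2^p u`, `v' := 2^(P-p) v`.  If `p = P`, `hs v' = hs v ≤ exp β`; otherwise
`(P-p) log 2 + β ≤ P log 2 - (X - α) + log 2 + β ≤ X`. -/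
def SpecSPL : Prop := ∀ (K : Type) [Field K] [NumberField K] (u v : K) (α β X : ℝ) (P : ℕ),
  IsIntegral ℤ u → IsIntegral ℤ v → RD.hs u ≤ Real.exp α → RD.hs v ≤ Real.exp β → α ≤ X →
  β ≤ X → P * Real.log 2 + α + β + Real.log 2 ≤ 2 * X →
  ∃ u' v' : K, IsIntegral ℤ u' ∧ IsIntegral ℤ v' ∧ RD.hs u' ≤ Real.exp X ∧
    RD.hs v' ≤ Real.exp X ∧ (2 : K) ^ P * (u * v) = u' * v'

/-- **PRD** (80 lines).  Sums of products as differences of sums of squares.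
Proof.  `2 ∑ u_i v_i = ∑ (u_i+v_i)^2 - ∑ (u_i^2 + v_i^2)`; `Tm (x^2) = Ms x ≤ hs x ^2` (real conjugates), `Tm` is additive. -/
def SpecPRD : Prop := ∀ (K : Type) [Field K] [NumberField K], RD.TR K → ∀ (N : ℕ) (X : ℝ)
  (u v : Fin N → K), (∀ i, IsIntegral ℤ (u i) ∧ RD.hs (u i) ≤ Real.exp X) →
  (∀ i, IsIntegral ℤ (v i) ∧ RD.hs (v i) ≤ Real.exp X) →
  2 * ∑ i, u i * v i ∈ ST K (4 * N * Real.exp (2 * X)) - ST K (4 * N * Real.exp (2 * X))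

/-- **CN3** (120 lines), from MAA.  Counting sums of three squares.
Proof.  `α ∈ ST Y`: `α = a^2+b^2+c^2`, `‖ev a‖^2 + ‖ev b‖^2 + ‖ev c‖^2 = d Tm α ≤ d Y` (`norm_ev_sq`, `Tm (x^2) = Ms x`), so
`1 ≤ exp(πd) exp(-π‖ev a‖^2/Y) exp(-π‖ev b‖^2/Y) exp(-π‖ev c‖^2/Y)`; `α ↦ (a,b,c)` is injective; `exp(-2 (log Y/2)) = 1/Y`; the
family over triples is summable with sum `(rh (log Y/2) (lat ⊤))^3`.  Finiteness of `ST Y` for `TR K`: the conjugates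
of `α` are `≥ 0` with mean `≤ Y`, so `hs α ≤ d Y` (`RD.Bx_finite`). -/
def SpecCN3 : Prop := ∀ (K : Type) [Field K] [NumberField K], RD.TR K →
  (∀ Y : ℝ, (ST K Y).Finite) ∧ (RD.P3 K → ∀ Y : ℝ, 0 < Y →
    ((ST K Y).ncard : ℝ) ≤ Real.exp (Real.pi * finrank ℚ K) *
      rh (Real.log Y / 2) (lat (⊤ : Submodule ℚ K)) ^ 3)

/-- **RUY** (100 lines), from CN3 (finiteness).  Ruzsa.  Proof: word for word that of RD.SpecRUZ (`RD/RUZ.lean`) with `ST` for `SY`: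
`ST Y + ST Y ⊆ ST (2Y)`, `0 ∈ ST Y`, `ST` monotone. -/
def SpecRUY : Prop := ∀ (K : Type) [Field K] [NumberField K], RD.TR K → ∀ Y : ℝ, 0 ≤ Y →
  ∀ J : ℕ, 1 ≤ J → (ST K Y - ST K Y).ncard ^ J ≤ (ST K (2 ^ J * Y)).ncard ^ (J + 1)

/-- **UPB** (80 lines), from CN3, RUY, MAC, HMO.  Upper bound for the number of differences.
Proof.  `Y' = 2^J 4N exp(2X)`, `log Y'/2 = X + t`, `t = (J log 2 + log(4N))/2`.  RUY, CN3, MAC: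
`J log #(ST - ST) ≤ (J+1) (π d + 3 (d log C + GG (X+t)))`, and `GG (X+t) ≤ GG X + t d` (HMO (3) at `y = X+t`, `y' = X`,
`nn ≤ d`). -/
def SpecUPB : Prop := ∀ C : ℝ, 1 ≤ C → RMs C → ∀ (K : Type) [Field K] [NumberField K],
  RD.TR K → RD.P3 K → ∀ (X : ℝ) (N J : ℕ), 1 ≤ N → 1 ≤ J →
  J * Real.log ((ST K (4 * N * Real.exp (2 * X)) - ST K (4 * N * Real.exp (2 * X))).ncard) ≤
    (J + 1) * (finrank ℚ K * (4 + 3 * Real.log C +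
      3 / 2 * (J * Real.log 2 + Real.log (4 * N))) + 3 * GG K X)

/-- **LOW** (300 lines), from RES, DGL, CLS, SPL, PRD, CUB, MAA, HMO, LTB, CN3 (finiteness).  Lower bound.
Proof.  `V = HV a`, `W = lat V`, `q = 2^K₀`, `Q = K₀ log 2`, `H` from RES.  `L := {∑_(j<m₁) q^j h_j | h_j ∈ H}`: `|H|^m₁` elements,
incongruent mod `q^m₁ W` (DGL).  `Λ` from CLS (modulus `q^m₁`): sums `∑_i u_i l_i`, incongruent mod `q^m₁ M`,
`M = ∑ u_i W ⊇ W` (`1` is among the `u_i`), `|Λ| ≥ |L|^k q^(m₁ r')/q^(m₁ r k)`; `rank M = r' = dim ⨆ u_i V` (`M` spans it over `ℚ`).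
`Z := {∑_(j<m₂) q^j h_j + q^m₂ t | h_j ∈ H, t ∈ Bh V (exp a)}`: `|H|^m₂ #Bh` elements, in `W` (DGL).  The elements
`2 (λ + q^m₁ ζ)`, `λ ∈ Λ`, `ζ ∈ Z`, are pairwise different (`λ` is determined mod `q^m₁ M`).  Each is
`2 ∑ 2^(P) u v` over `N = k m₁ + m₂ + 1` terms: `2^(K₀ j) u_i h` (`j < m₁`), `2^(K₀(m₁+j)) 1 h` (`j < m₂`), `2^(K₀(m₁+m₂)) 1 t`, to which SPL
applies with `α = y + T` or `0`, `β = a + Q` or `a`; PRD: it is in `ST - ST`.  Count with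
`|H| ≥ q^r (4 e^π C)^(-d)` and `#Bh V (exp a) ≥ 4^(-d) rh a W ≥ 4^(-d) exp(GG a)`; `log 4 + π ≤ 5`. -/
def SpecLOW : Prop := ∀ C : ℝ, 1 ≤ C → RMs C → ∀ (K : Type) [Field K] [NumberField K],
  RD.TR K → ∀ (a y T X : ℝ) (K₀ m₁ m₂ k : ℕ) (u : Fin k → K), 0 ≤ a → 0 ≤ y → 0 ≤ T → 0 ≤ X →
  (∀ i, u i ≠ 0 ∧ IsIntegral ℤ (u i) ∧ RD.hs (u i) ≤ Real.exp (y + T)) → (∃ i, u i = 1) →
  y + T ≤ X → a + K₀ * Real.log 2 ≤ X →
  y + T + a + m₁ * (K₀ * Real.log 2) + Real.log 2 ≤ 2 * X →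
  a + (m₁ + m₂) * (K₀ * Real.log 2) + Real.log 2 ≤ 2 * X →
  m₁ * (K₀ * Real.log 2) * finrank ℚ (⨆ i, sc (u i) (HV K a) : Submodule ℚ K) +
      m₂ * (K₀ * Real.log 2) * nn K a + GG K a -
      finrank ℚ K * ((5 + Real.log C) * (k * m₁ + m₂ + 1)) ≤
    Real.log ((ST K (4 * (k * m₁ + m₂ + 1 : ℕ) * Real.exp (2 * X)) -
      ST K (4 * (k * m₁ + m₂ + 1 : ℕ) * Real.exp (2 * X))).ncard)

/-- **INF** (200 lines), from FPK, LOW, UPB, HMO.  The counting inequality.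
Proof.  `c₀ = log C`.  `δ := min (1/(2D)) (ε/16)`, `η := min 1 (ε/100)`, `J := ⌈12/ε⌉₊ + 1`, `T₀ := (6+c₀)/δ`, `T := η R + T₀`,
`ρ := δ²/(6/η + 4)` (then `ρ (3(x+y+T)+2+c₀) ≤ ρ (6R + 4T) ≤ ρ T (6/η+4) = δ² T`).  FPK for `(x, y) := (a, y)`: `k ≤ 1/ρ + 2`,
`u_i`, `r' ≥ (1-δ) d`.  `K₀ := ⌈T/log 2⌉₊`, `Q := K₀ log 2 ∈ [T, T+1]`, `m₁ := ⌊(2x-a-y)/Q⌋₊ ≤ 2/η`,
`m₂ := ⌊y/Q⌋₊ ≤ 1/η`, `X := x + T + Q + 1`.  LOW and UPB with `N = k m₁ + m₂ + 1 ≤ const`: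
`m₁ Q r' ≥ (2x-a-y-Q)(1-δ) d ≥ (2x-a-y) d - Q d - 2Rδ d`, `m₂ Q nn a ≥ y nn a - Q d`,
`(1+1/J) 3 GG X ≤ 3 GG x + 3 R d/J + 6 (T+Q+1) d` (`GG X ≤ GG x + (X-x) d`, `GG x ≤ x d ≤ R d`).  The coefficient of
`R d` in the error is `2δ + 3/J + 14η + .. ≤ ε`, everything else is a constant depending on `C, D, ε`. -/
def SpecINF : Prop := ∀ C : ℝ, 1 ≤ C → RMs C → ∀ (D : ℕ) (ε : ℝ), 1 ≤ D → 0 < ε → ε ≤ 1 →
  ∃ C' : ℝ, 0 ≤ C' ∧ ∀ (K : Type) [Field K] [NumberField K], RD.TR K → RD.P3 K →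
  ∀ R x a y : ℝ, 0 ≤ y → y ≤ x → 0 ≤ a → a ≤ x → x ≤ R →
  (1 + 1 / (D : ℝ)) * finrank ℚ K ≤ (nn K y : ℝ) + nn K a →
  GG K a + (2 * x - a - y) * finrank ℚ K + y * nn K a ≤
    3 * GG K x + (ε * R + C') * finrank ℚ K

/-- **TOP** (100 lines), from TWD, DTF, HUL, LTB.  The top of the hull.
Proof.  (1) TWD with `F = ⊤`, `w = 1`, `H = 1` (only `ψ = φ` agrees with `φ` on `⊤`), `sc 1 ⊤ = ⊤`; `discr ⊤ = discr K`
(`IntermediateField.topEquiv`, `NumberField.discr_eq_discr_of_algEquiv`).  (2) `DE y ⊤` and DTF with `F = ⊤`.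
(3) `|discr K| ≥ 1`. -/
def SpecTOP : Prop := ∀ (K : Type) [Field K] [NumberField K], RD.TR K →
  (∀ y : ℝ, LD K ≤ y → HV K y = ⊤) ∧ (∀ y : ℝ, HV K y = ⊤ → LD K ≤ 2 * y) ∧ 0 ≤ LD K

/-- **GRS** (150 lines), from HMO.  `GG` on a grid.
Proof.  `d = finrank`.  Lower bound by induction on `m`: if `e_(m) ≤ a`, then
`GG a ≥ GG (e_m) + nn (e_m) (a - e_m) ≥ (d/D) (∑_(i<m) (e_m - e_i) + (m+1)(a - e_m)) = (d/D) ∑_(i ≤ m) (a - e_i)` (`m = 0`: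
`GG ≥ 0`).  Upper bound by induction on `m`: for `e_(m-1) ≤ x < e_m` (`e_(-1) := 0`; no condition on the right
if `m = D`): `GG x ≤ GG (e_(m-1)) + nn x (x - e_(m-1))` and `nn x ≤ (m+1) d/D`, so
`GG x ≤ (d/D) (∑_(i<m) (e_(m-1) - e_i) + e_(m-1) + (m+1)(x - e_(m-1))) = (d/D)(∑_(i<m) (x - e_i) + x)`; for `x = e_m` by continuity
(`GG x ≤ GG x' + d (x - x')`, `x' ↑ x`); for `m = 0` start with `GG 0 = 0`. -/
def SpecGRS : Prop := ∀ (K : Type) [Field K] [NumberField K], RD.TR K →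
  ∀ (D : ℕ) (e : ℕ → ℝ), 1 ≤ D → (∀ i, 0 ≤ e i) → Monotone e →
  (∀ i < D, (i + 1) * finrank ℚ K ≤ D * nn K (e i)) →
  (∀ i < D, ∀ z < e i, D * nn K z < (i + 1) * finrank ℚ K) →
  (∀ (m : ℕ) (a : ℝ), m ≤ D → 0 ≤ a → (∀ i < m, e i ≤ a) →
    (finrank ℚ K : ℝ) / D * ∑ i ∈ Finset.range m, (a - e i) ≤ GG K a) ∧
  ∀ (m : ℕ) (x : ℝ), m ≤ D → 0 ≤ x → (∀ i < m, e i ≤ x) → (∀ i, m ≤ i → i < D → x ≤ e i) →
    GG K x ≤ (finrank ℚ K : ℝ) / D * (∑ i ∈ Finset.range m, (x - e i) + x)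

/-- **NZ0** (250 lines), from INF, GRS, HMO, PFU, TOP and `RD.specLIN` (`RD/LIN.lean`).  A large hull at a small scale.
Proof.  `D := max 1000 ⌈10^7/ε⌉₊`, `ε₁ := ε/10^6`, `C'` from INF, `R := LD K`, `T := D (5 + log C) + 1`.
`e_i := inf {z ≥ 0 | (i+1) d ≤ D nn z}` for `i < D` (nonempty: TOP gives `nn R = d`; attained by HMO (6)), constant
from `D - 1` on; `e_i ≤ R`.  `ℓ_i := e_i + T`.  LIN (with `d := D`, `E := ε₁ R + C' + 3R/D + 2T`):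
`hD`: `i + j + 1 ≥ D`: `nn e_i + nn e_j ≥ (i+j+2) d/D ≥ (1+1/D) d > (1 + (5+log C)/T) d`, so `HV (e_i + e_j + T) = ⊤` (PFU) and
`e_(D-1) ≤ e_i + e_j + T`.  `hS`: INF with `x = a = y = e_(D-1)` and GRS (upper, `m = D`).  `hR`: INF with `x = e_(D-s)`,
`a = e_(D-s-1)`, `y = e_s` (`nn y + nn a ≥ (s+1+D-s) d/D`), GRS lower at `a` (`m = D-s`), upper at `x` (`m = D-s`),
`nn a ≥ (D-s) d/D`:  `∑_(i<D-s) (a - e_i) + D(2x-a-y) + y (D-s) ≤ 3 ∑_(i<D-s) (x - e_i) + 3x + D(ε₁ R + C')`, i.e.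
`2 ∑_(i<D-s) e_i + s (2x - a - y) ≤ (D-s) x + D (ε₁ R + C' + 3R/D)`; add `T` to all.  LIN: `ℓ_(s-1) ≤ 10^4 E` with
`32 D ≤ 100 s`; `z := 10^4 E ≥ e_(s-1)`, `D nn z ≥ s d`. -/
def SpecNZ0 : Prop := ∀ C : ℝ, 1 ≤ C → RMs C → ∀ ε : ℝ, 0 < ε → ε ≤ 1 →
  ∃ C' : ℝ, ∀ (K : Type) [Field K] [NumberField K], RD.TR K → RD.P3 K →
  ∃ z : ℝ, 0 ≤ z ∧ z ≤ ε * LD K + C' ∧ 32 * finrank ℚ K ≤ 100 * nn K z

end Pool.Agent.Lib.MPcb8a44.RC
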