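import Pool.Agent.Lib.MP_cb8a44_nt.RC.SpecG

/-!
# Theorem RC, block H: the Harder–Narasimhan hull of the integers of a totally real field

Conventions as in `SpecG.lean`.  `V_y = HV K y` is the largest subspace all of whose lattice quotients
of rank `k` have covolume at most `exp (y k)`.
-/

set_option autoImplicit false

open NumberField Module

namespace Pool.Agent.Lib.MPcb8a44.RC

/-- **QDM** (150 lines), from GRA, GDM, ADP, ZIX.  `QD` and linear maps.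
Proof.  Let `c'_i ∈ Zs (T b)`, `i < m`, be independent: `c'_i = T c_i`, `c_i ∈ Zs b`, `c` independent.  ADP with
`S = Rs c`: `Zs b = Zs (append c₁ e)`, `Zs b ∩ Rs c = Zs c₁`, so `c₁` has `m` elements, `c = P c₁`,
`gd c = det P^2 gd c₁`, `gd (T c) = det P^2 gd (T c₁)`; `b` and `append c₁ e` differ by an integral matrix of determinant
`±1` (both directions), so `gd b = gd (append c₁ e)` and `gd (T b) = gd (T (append c₁ e))`.  GDM (2) gives
`gd (T b) gd c₁ ≤ exp(2a(n-m)) gd (T c₁) gd b`; multiply by `det P^2` and use `gd b ≤ exp(2y(n-m)) gd c`,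
divide by `gd c > 0`. -/
def SpecQDM : Prop := ∀ (E E' : Type) [NormedAddCommGroup E] [InnerProductSpace ℝ E]
  [NormedAddCommGroup E'] [InnerProductSpace ℝ E'] (T : E →ₗ[ℝ] E') (a y : ℝ) (n : ℕ)
  (b : Fin n → E), (∀ x, ‖T x‖ ≤ Real.exp a * ‖x‖) → LinearIndependent ℝ b → QD y b →
  QD (y + a) (fun i => T (b i))

/-- **EVB** (200 lines).  The embedding.
Proof.  (1) The Gram matrix of `ev ∘ b` is the rational matrix `Tr (b_i b_j)` (`inner_ev`); for rational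
`x ≠ 0`, `∑ x_i x_j Tr(b_i b_j) = Tr ((∑ x_i b_i)^2) = ‖ev (∑ x_i b_i)‖^2 > 0`, so its determinant is a nonzero rational
number.  Conversely `ev (∑ x_i b_i) = ∑ x_i ev b_i`.  (2) If `x ∉ span b`, take a subfamily `b₀` of `b` that is a basis of
`span b`; then `snoc b₀ x` is independent over `ℚ`, so over `ℝ`.  (3) `ev_int`, `ev_sum`, `ev_inj`.
(4) `(T ξ)_φ := (φ u).re ξ_φ`; conjugates are real, `|(φ u).re| ≤ hs u`. -/
def SpecEVB : Prop := ∀ (K : Type) [Field K] [NumberField K], RD.TR K →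
  (∀ (n : ℕ) (b : Fin n → K), (LinearIndependent ℚ b ↔ LinearIndependent ℝ fun i => ev (b i)) ∧
    (∀ x : K, ev x ∈ Rs (fun i => ev (b i)) ↔ x ∈ Submodule.span ℚ (Set.range b)) ∧
    (∀ x : K, ev x ∈ Zs (fun i => ev (b i)) ↔ x ∈ Submodule.span ℤ (Set.range b)) ∧
    (∀ x : Fin n → ℤ, zc (fun i => ev (b i)) x = ev (∑ i, x i • b i))) ∧
  ∀ u : K, ∃ T : EK K →ₗ[ℝ] EK K, (∀ ξ, ‖T ξ‖ ≤ RD.hs u * ‖ξ‖) ∧ (∀ x, T (ev x) = ev (u * x)) ∧
    ∀ ξ η, inner ℝ (T ξ) η = inner ℝ ξ (T η)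

/-- **LTB** (200 lines).  Bases of lattices of integers.
Proof.  `lat A` is a subgroup of the ring of integers, so free of finite rank; it contains a multiple of
every element of `A`, so its rank is `dim A`, and a `ℤ`-basis is a `ℚ`-basis of `A` (this gives (2)).
(1) `lat A / lat N` is torsion free (`k x ∈ N` gives `x ∈ N`), so free, and `lat A ≅ lat N × free`; `e` lifts a basis of
the quotient; `append b e` generates `lat A` and is independent (`IB A` has `dim A` elements: generating with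
the right number).  (3) `b` and `b'` are related by an invertible integral matrix; any admissible `b'` is
`U b`, `U` integral, `gk b' = det U^2 gk b` (GRA, ZIX for `ev ∘ b`).  `gk b = det (Tr (b_i b_j))` is a positive integer. -/
def SpecLTB : Prop := ∀ (K : Type) [Field K] [NumberField K], RD.TR K →
  (∀ (N A : Submodule ℚ K), N ≤ A → ∀ (n : ℕ) (b : Fin n → K), IB N b →
    ∃ (k : ℕ) (e : Fin k → K), IB A (Fin.append b e)) ∧
  (∀ A : Submodule ℚ K, ∃ (n : ℕ) (b : Fin n → K), IB A b) ∧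
  (∀ (A : Submodule ℚ K) (n : ℕ) (b : Fin n → K), IB A b →
    n = finrank ℚ A ∧ Submodule.span ℚ (Set.range b) = A ∧ Dt A = gk b ∧ 1 ≤ Dt A) ∧
  ∀ (A : Submodule ℚ K) (n : ℕ) (b : Fin n → K), (∀ i, b i ∈ lat A) → LinearIndependent ℚ b →
    n = finrank ℚ A → Dt A ≤ gk b

/-- **DEQ** (100 lines), from EVB, LTB.  A dense subspace has a lattice with small quotients.
Proof.  Let `c_i ∈ Zs (ev ∘ b)`, `i < m`, be independent over `ℝ`: `c_i = ev x_i`, `x_i ∈ lat A` independent over `ℚ`,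
`N := span x ≤ A`, `dim N = m`, `Dt N ≤ gk x = gd c`.  `psi y A ≤ psi y N` is `Dt A ≤ exp(2y(n-m)) Dt N`. -/
def SpecDEQ : Prop := ∀ (K : Type) [Field K] [NumberField K], RD.TR K →
  ∀ (A : Submodule ℚ K) (n : ℕ) (b : Fin n → K) (y : ℝ), IB A b → DE y A →
  QD y fun i => ev (b i)

/-- **QDE** (200 lines), from EVB, LTB, ADP, PJE, ZIX.  Conversely, even for a sublattice of finite index.
Proof.  `N ≤ A`; `p` a basis of `lat N`, `append p q` a basis of `lat A` (LTB).  ADP for `ev ∘ b`, `S = Rs (ev ∘ p)`: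
`Zs (ev b) = Zs (append c e)`, `Zs (ev b) ∩ S = Zs c`; `c` has `dim N` elements (a multiple of every `p_i` is in the
`ℤ`-span of `b`), so `Rs c = S`.  `q'`, `e'` := components of `ev q`, `e` orthogonal to `S`.  `e_j ∈ Zs (ev (append p q))`, so
`e'_j ∈ Zs q'`, `gd q' ≤ gd e'` (ZIX), and `Dt A = Dt N * gd q'`, `gd e' = gd (append c e)/gd c = gd (ev b)/gd c ≤ exp(2 y k)`. -/
def SpecQDE : Prop := ∀ (K : Type) [Field K] [NumberField K], RD.TR K →
  ∀ (A : Submodule ℚ K) (n : ℕ) (b : Fin n → K) (y : ℝ), (∀ i, b i ∈ lat A) →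
  LinearIndependent ℚ b → n = finrank ℚ A → QD y (fun i => ev (b i)) → DE y A

/-- **SBM** (120 lines), from EVB, LTB, GDM.  Submodularity of the covolume.
Proof.  `c` a basis of `lat (A ⊓ B)`, `append c a`, `append c b` bases of `lat A`, `lat B` (LTB).  `append (append c a) b` consists of
`dim (A ⊔ B)` independent elements of `lat (A ⊔ B)`; LTB (4) and GDM (1). -/
def SpecSBM : Prop := ∀ (K : Type) [Field K] [NumberField K], RD.TR K →
  ∀ A B : Submodule ℚ K, Dt (A ⊔ B) * Dt (A ⊓ B) ≤ Dt A * Dt B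

/-- **HUL** (150 lines), from SBM, LTB (`1 ≤ Dt`).  The hull.
Proof.  SBM: `psi y (A ⊔ B) + psi y (A ⊓ B) ≤ psi y A + psi y B` (dimensions are modular).  (i) `A`, `B` dense: let
`N ≤ A ⊔ B`.  `psi N + psi A ≥ psi (N ⊔ A) + psi (N ⊓ A)` and `psi (N ⊓ A) ≥ psi A` give `psi N ≥ psi (N ⊔ A)`; for `N ⊇ A`,
`psi N + psi B ≥ psi (N ⊔ B) + psi (N ⊓ B) ≥ psi (A ⊔ B) + psi B` (`N ⊔ B = A ⊔ B`).  So `A ⊔ B` is dense; `⊥` is dense.
By finite dimension the supremum of the dense subspaces is a finite one (take a dense subspace of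
maximal dimension): `DE y (HV y)`.  (ii) `V = HV y`, `N` arbitrary: `psi N ≥ psi (N ⊔ V) + psi (N ⊓ V) - psi V ≥ psi (N ⊔ V)`.
(iii) Suppose some `N > V` has `psi N ≤ psi V`; take one of minimal dimension.  For `N' ≤ N`: `psi N' ≥ psi (N' ⊔ V)` by
(ii), and `V ≤ N' ⊔ V ≤ N` has `psi (N' ⊔ V) ≥ psi N` (if it is `V`: `psi V ≥ psi N`; if it is `N`: equality; otherwise
minimality gives `> psi V ≥ psi N`).  So `N` is dense, `N ≤ V`: a contradiction.  (iv) (ii) and (iii). -/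
def SpecHUL : Prop := ∀ (K : Type) [Field K] [NumberField K], RD.TR K → ∀ y : ℝ,
  DE y (⊥ : Submodule ℚ K) ∧ (∀ A B : Submodule ℚ K, DE y A → DE y B → DE y (A ⊔ B)) ∧
  DE y (HV K y) ∧ (∀ A : Submodule ℚ K, DE y A → A ≤ HV K y) ∧
  (∀ N : Submodule ℚ K, psi y (HV K y) ≤ psi y N) ∧
  (∀ N : Submodule ℚ K, HV K y < N → psi y (HV K y) < psi y N)

/-- **HMO** (150 lines), from HUL, LTB.  Dependence on the scale.
Proof.  (1) `psi y' A - psi y' N = psi y A - psi y N - (y'-y)(dim A - dim N)`.  (2) from (1).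
(3) `-psi y' (HV y) ≤ -psi y' (HV y')` and `psi y' V = psi y V - (y'-y) dim V`.  (4) `psi y ⊥ = 0` (`Dt ⊥ = 1`); `Dt ≥ 1`.
(5) `y < 0`: `0 ≥ psi y V ≥ -y dim V`.  (6) `nn` is monotone with values in `{0..d}`: for `y' > y` close to `y` the
subspaces `HV y'` are all equal to one `V` (a decreasing family, minimal dimension); `psi y' V ≤ psi y' N` for all
`N ≤ V` and `y' → y` give `DE y V`. -/
def SpecHMO : Prop := ∀ (K : Type) [Field K] [NumberField K], RD.TR K →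
  (∀ (y y' : ℝ) (A : Submodule ℚ K), y ≤ y' → DE y A → DE y' A) ∧
  (∀ y y' : ℝ, y ≤ y' → HV K y ≤ HV K y' ∧ nn K y ≤ nn K y') ∧
  (∀ y y' : ℝ, GG K y + nn K y * (y' - y) ≤ GG K y') ∧
  (∀ y : ℝ, 0 ≤ GG K y ∧ GG K y ≤ y * nn K y) ∧
  (∀ y : ℝ, y < 0 → HV K y = ⊥) ∧
  ∀ (y : ℝ) (m : ℕ), (∀ y', y < y' → m ≤ nn K y') → m ≤ nn K y

/-- **HMU** (100 lines), from EVB, LTB, DEQ, QDE, QDM, HUL.  Multiplication.
Proof.  `b` a basis of `lat A`; `QD y (ev b)` (DEQ), `T` from EVB (4): `QD (y+a) (ev (u b))` (QDM, `hs u ≤ exp a`);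
`u b_i ∈ lat (u A)` (products of integers), independent, `dim (u A) = dim A`; QDE.  The second statement:
`u (HV y') ≤ HV (y' + y + T)` for every generator `u ≠ 0` of `X`, since `HV (y' + a)` contains every dense subspace. -/
def SpecHMU : Prop := ∀ (K : Type) [Field K] [NumberField K], RD.TR K →
  (∀ (u : K) (a y : ℝ) (A : Submodule ℚ K), u ≠ 0 → IsIntegral ℤ u → RD.hs u ≤ Real.exp a →
    DE y A → DE (y + a) (sc u A)) ∧
  ∀ (A : Submodule ℚ K) (a y : ℝ),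
    Submodule.span ℚ (Bh A (Real.exp a)) * HV K y ≤ HV K (y + a)

/-- **DTF** (150 lines), from LTB.  Discriminants.
Proof.  `n = [F:ℚ]`, `k = [K:F]`, `b` a `ℤ`-basis of the integers of `F` (as elements of `K`: `IB F b`).
`Tr_(K/ℚ) = k Tr_(F/ℚ)` on `F` (`Algebra.trace_trace`, `Algebra.trace_algebraMap`), so `gk b = det Tr_K(b_i b_j) = k^n |discr F|`
(`discr F > 0` because the trace form of a totally real field is positive definite; or absolute values).
`psi y F ≤ psi y ⊥ = 0`: `n log k + log |discr F| ≤ 2 y n`. -/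
def SpecDTF : Prop := ∀ (K : Type) [Field K] [NumberField K], RD.TR K →
  ∀ (F : IntermediateField ℚ K) (y : ℝ), DE y (Subalgebra.toSubmodule F.toSubalgebra) →
  LD F ≤ 2 * y

/-- **TWD** (250 lines), from EVB, LTB, DUB, DMN, QDE.  Twisted density: `w F` is dense at the scale
`exp (log H/2 + LD F)` if the geometric mean of the `G_τ = ∑_(ψ over τ) |ψ w|^2` is `≤ H`.
Proof.  `n = [F:ℚ]`, `f` a `ℤ`-basis of the integers of `F`, `b_i := w f_i ∈ lat (w F)`, independent, `n` of them.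
`τ` runs over the embeddings of `F`, `d/n` embeddings of `K` over each, so `∏_φ G_(φ|F) = (∏_τ G_τ)^(d/n)` and the
hypothesis gives `∏_τ G_τ ≤ H^n`; `G_τ > 0`.  Let `ω ≠ 0` be in the dual lattice `Zs b'` of `ev ∘ b`.  The real span of the
`ev (w f_i)` is `{((φ w) t_(φ|F))_φ | t}` (dimension `n`), so `ω_φ = (φ w) t_(φ|F)`.  With `q_τ := G_τ t_τ`:
`⟪ω, ev (w f)⟫ = ∑_φ (φ w)^2 t_(φ|F) φ f = ∑_τ q_τ τ(f) ∈ ℤ` for all integers `f` of `F`, so `q_τ = τ(q)` with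
`q ∈ F`, `q ≠ 0`, in the codifferent of `F` (`Tr(q O_F) ⊆ ℤ`; `q` from the dual basis of `f` for the trace form).
`|N q| ≥ 1/|discr F|`: the different `𝔇` has norm `|discr F|` and `q 𝔇` is a nonzero integral ideal.
`‖ω‖^2 = ∑_τ G_τ t_τ^2 = ∑_τ q_τ^2/G_τ ≥ n (∏ q_τ^2/G_τ)^(1/n) ≥ n |discr F|^(-2/n)/H ≥ n exp(-2y)` (AM-GM,
`Real.inner_le_nnorm_mul_nnorm`/`Real.geom_mean_le_arith_mean_weighted`).  DMN, then QDE. -/
def SpecTWD : Prop := ∀ (K : Type) [Field K] [NumberField K], RD.TR K →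
  ∀ (F : IntermediateField ℚ K) (w : K) (H y : ℝ), w ≠ 0 → IsIntegral ℤ w → 0 < H →
  ∏ φ : K →+* ℂ, (∑ᶠ ψ ∈ {ψ : K →+* ℂ | ∀ f ∈ F, ψ f = φ f}, ‖ψ w‖ ^ 2) ≤ H ^ finrank ℚ K →
  Real.log H / 2 + LD F ≤ y → DE y (sc w (Subalgebra.toSubmodule F.toSubalgebra))

/-- **RHB** (100 lines), from EVB, GSM.  Gaussian sums over lattices of `K`.
Proof.  `x ↦ ∑ x_i b_i` is a bijection of `Fin n → ℤ` with `span ℤ (range b)` (independence); `tsum` along an
equivalence; `ev (∑ x_i b_i) = zc (ev b) x`. -/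
def SpecRHB : Prop := ∀ (K : Type) [Field K] [NumberField K], RD.TR K →
  ∀ (n : ℕ) (b : Fin n → K) (z : ℝ), LinearIndependent ℚ b →
  (Summable fun x : (Submodule.span ℤ (Set.range b) : Submodule ℤ K) =>
    Real.exp (-(Real.pi * Real.exp (-2 * z) * ‖ev (x : K)‖ ^ 2))) ∧
  rh z (Submodule.span ℤ (Set.range b) : Submodule ℤ K) = th z (fun i => ev (b i))

/-- **MAA** (100 lines), from RHB, GTH, LTB, EVB.  Masses, elementary part.
Proof.  `IB A b`: `lat A = span ℤ (range b)`; GTH (2): `exp(z n)/√(gk b) = exp(-psi z A)`; GTH (3).  Monotonicity: a sum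
of nonnegative terms over a subset of a summable family. -/
def SpecMAA : Prop := ∀ (K : Type) [Field K] [NumberField K], RD.TR K → ∀ z : ℝ,
  (∀ A : Submodule ℚ K, Real.exp (-psi z A) ≤ rh z (lat A) ∧ 1 ≤ rh z (lat A) ∧
    (∀ t : ℝ, 0 ≤ t → rh (z + t) (lat A) ≤ Real.exp (t * finrank ℚ A) * rh z (lat A)) ∧
    Summable fun x : lat A => Real.exp (-(Real.pi * Real.exp (-2 * z) * ‖ev (x : K)‖ ^ 2))) ∧
  ∀ A B : Submodule ℚ K, A ≤ B → rh z (lat A) ≤ rh z (lat B)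

/-- **MAB** (150 lines), from MAA, RHB, GTH, DUB, DEQ, QDS, RMC, HUL.  Masses of the hull.
Proof.  `b` a basis of `lat V`, `V = HV y`, `r = dim V`, `b'` the dual basis of `ev ∘ b`.  QD `y` (DEQ), so `SD (-y) b'` (QDS)
and `th (-y) b' ≤ C^r` (RMC).  GTH (5): `rh y (lat V) = exp(y r)/√(gk b) th (-y) b' ≤ exp(GG y) C^r`.  `N ≤ V`, `t ≥ 0`:
`rh (y+t) (lat N) ≤ exp(t dim N) rh y (lat N) ≤ exp(t dim N) rh y (lat V) ≤ exp(t dim N) C^r exp(-psi y V)` and
`rh (y+t) (lat V) ≥ exp(-psi (y+t) V) = exp(t r) exp(-psi y V)`. -/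
def SpecMAB : Prop := ∀ C : ℝ, 1 ≤ C → RMs C → ∀ (K : Type) [Field K] [NumberField K],
  RD.TR K → ∀ y : ℝ, rh y (lat (HV K y)) ≤ C ^ nn K y * Real.exp (GG K y) ∧
  ∀ (N : Submodule ℚ K) (t : ℝ), N ≤ HV K y → 0 ≤ t →
    rh (y + t) (lat N) ≤ C ^ finrank ℚ K * Real.exp (-t * ((nn K y : ℝ) - finrank ℚ N)) *
      rh (y + t) (lat (HV K y))

/-- **MAC** (150 lines), from MAB, RHB, GSP, PJE, RMC, HUL, LTB, EVB.  The total mass.
Proof.  `c` a basis of `lat V`, `V = HV y`, `append c e` a basis of `lat ⊤` (LTB), `e'` := components of `ev e` orthogonal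
to `Rs (ev c)`.  GSP: `rh y (lat ⊤) ≤ th y (ev c) * th y e'`.  `SD y e'`: let `f_i ∈ Zs e'`, `i < m`, be independent,
`f_i = ∑_j x_ij e'_j`, `g_i := ∑_j x_ij e_j`; `append c g` is independent, in `lat N`, `N := V ⊔ span g`,
`dim N = dim V + m`, and `f` = components of `ev g`: `Dt N ≤ gk (append c g) = gk c * gd f = Dt V * gd f`;
`psi y V ≤ psi y N` gives `Dt N ≥ exp(2 y m) Dt V`.  RMC: `th y e' ≤ C^(d-r)`. -/
def SpecMAC : Prop := ∀ C : ℝ, 1 ≤ C → RMs C → ∀ (K : Type) [Field K] [NumberField K],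
  RD.TR K → ∀ y : ℝ, rh y (lat (⊤ : Submodule ℚ K)) ≤ C ^ finrank ℚ K * Real.exp (GG K y)

/-- **CUB** (200 lines).  Cubes and Gaussians.
Proof.  Finiteness: `S` is finitely generated, so `k S` consists of integers for some `k ≠ 0` (`RD.Bx_finite`).
(1) `‖ev x‖^2 ≤ d exp(2z)` (`norm_ev_le_hs`), every term is `≥ exp(-π d)`; the family is summable (GSM, EVB, or
directly from the argument of (2)).  (2) Map `x ∈ S` to `(⌊exp(-z) φ x⌋)_φ ∈ ℤ^d`; two elements `x, x₀` with the same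
image have `hs (x - x₀) ≤ exp z`, so every fibre has at most `N := ncard {x ∈ S | hs x ≤ exp z}` elements; on the
fibre of `m` the term is `≤ ∏_φ w(m_φ)`, `w(j) = exp(-π j^2)` for `j ≥ 0`, `exp(-π (j+1)^2)` for `j < 0`.  The sum over
`m` is `(2 ∑_(j ≥ 0) exp(-π j^2))^d ≤ (2/(1 - exp(-π)))^d ≤ 4^d` (finite partial sums over boxes are enough). -/
def SpecCUB : Prop := ∀ (K : Type) [Field K] [NumberField K], RD.TR K →
  ∀ (S : Submodule ℤ K) (z : ℝ), S.FG → {x : K | x ∈ S ∧ RD.hs x ≤ Real.exp z}.Finite ∧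
  ({x : K | x ∈ S ∧ RD.hs x ≤ Real.exp z}.ncard : ℝ) ≤
    Real.exp (Real.pi * finrank ℚ K) * rh z S ∧
  rh z S ≤ 4 ^ finrank ℚ K * ({x : K | x ∈ S ∧ RD.hs x ≤ Real.exp z}.ncard : ℝ)

/-- **XSP** (100 lines), from MAA, MAB, CUB.  The small elements of the hull span almost all of it.
Proof.  `V = HV y`, `B := Bh V (exp(y+T))`, `X := span B ≤ V`, `B ⊆ lat X`.  CUB: `rh (y+T) (lat V) ≤ 4^d #B` and
`#B ≤ exp(π d) rh (y+T) (lat X) ≤ exp(π d) C^d exp(-T (dim V - dim X)) rh (y+T) (lat V)` (MAB).  Logarithms,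
`log 4 + π ≤ 5`. -/
def SpecXSP : Prop := ∀ C : ℝ, 1 ≤ C → RMs C → ∀ (K : Type) [Field K] [NumberField K],
  RD.TR K → ∀ y T : ℝ, 0 ≤ T →
  Submodule.span ℚ (Bh (HV K y) (Real.exp (y + T))) ≤ HV K y ∧
  T * ((nn K y : ℝ) - finrank ℚ (Submodule.span ℚ (Bh (HV K y) (Real.exp (y + T))))) ≤
    (5 + Real.log C) * finrank ℚ K

/-- **PRF** (60 lines).  Products of subspaces.  Proof.  If `X * V ≠ ⊤` there is `q ≠ 0` with `Tr (q x v) = 0` for
all `x ∈ X`, `v ∈ V` (the trace form is nondegenerate); `q X` lies in the orthogonal complement of `V`, of dimension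
`d - dim V`. -/
def SpecPRF : Prop := ∀ (K : Type) [Field K] [NumberField K] (X V : Submodule ℚ K),
  finrank ℚ K < finrank ℚ X + finrank ℚ V → X * V = ⊤

/-- **PFU** (60 lines), from XSP, PRF, HMU.  Proof.  `X := span (Bh (HV y) (exp (y+T)))`, `dim X + nn y' > d`,
so `⊤ = X * HV y' ≤ HV (y' + (y + T))` (HMU (2)). -/
def SpecPFU : Prop := ∀ C : ℝ, 1 ≤ C → RMs C → ∀ (K : Type) [Field K] [NumberField K],
  RD.TR K → ∀ y y' T : ℝ, 0 < T →
  (finrank ℚ K : ℝ) * (1 + (5 + Real.log C) / T) < nn K y + nn K y' → HV K (y + y' + T) = ⊤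

end Pool.Agent.Lib.MPcb8a44.RC
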