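import Pool.Agent.Lib.MP_cb8a44_nt.RC.SpecG
import Pool.Agent.Lib.MP_cb8a44_nt.RC.SpecH
import Pool.Agent.Lib.MP_cb8a44_nt.RC.SpecE
import Pool.Agent.Lib.MP_cb8a44_nt.RC.SpecD

section
/-!
# ADP: adapted bases
-/
open NumberField Module

namespace Pool.Agent.Lib.MPcb8a44.RC

namespace ADPM

variable {E : Type} [NormedAddCommGroup E] [InnerProductSpace ℝ E]

theorem tf {M : Type*} [AddCommGroup M] [Module ℝ M] : IsTorsionFree ℤ M := by
  refine IsTorsionFree.of_smul_eq_zero (fun r m h => ?_)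
  rw [← Int.cast_smul_eq_zsmul ℝ, smul_eq_zero] at h
  rcases h with h | h
  · left; exact_mod_cast h
  · right; exact h

theorem range_append {E : Type} {m k : ℕ} (c : Fin m → E) (e : Fin k → E) :
    Set.range (Fin.append c e) = Set.range c ∪ Set.range e := by
  ext x
  constructor
  · rintro ⟨i, rfl⟩
    refine Fin.addCases (fun i => ?_) (fun i => ?_) i
    · left; exact ⟨i, by simp⟩
    · right; exact ⟨i, by simp⟩
  · rintro (⟨i, rfl⟩ | ⟨i, rfl⟩)
    · exact ⟨Fin.castAdd k i, by simp⟩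
    · exact ⟨Fin.natAdd m i, by simp⟩

theorem span_real {m k : ℕ} (a : Fin m → E) (b : Fin k → E) (h : Zs a = Zs b) : Rs a = Rs b := by
  apply le_antisymm
  · rw [Submodule.span_le]
    rintro _ ⟨i, rfl⟩
    have h1 : a i ∈ Zs b := h ▸ Submodule.subset_span ⟨i, rfl⟩
    exact Submodule.span_subset_span ℤ ℝ _ h1
  · rw [Submodule.span_le]
    rintro _ ⟨i, rfl⟩
    have h1 : b i ∈ Zs a := h ▸ Submodule.subset_span ⟨i, rfl⟩
    exact Submodule.span_subset_span ℤ ℝ _ h1

end ADPM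

open ADPM in
theorem specADP : SpecADP := by
  intro E _ _ n b hb S
  let φ : (Zs b) →ₗ[ℤ] (E ⧸ S) := (S.mkQ.restrictScalars ℤ).comp (Zs b).subtype
  have hφ : ∀ x : Zs b, φ x = 0 ↔ (x : E) ∈ S := fun x => by
    change S.mkQ (x : E) = 0 ↔ _
    rw [Submodule.mkQ_apply, Submodule.Quotient.mk_eq_zero]
  have hbZ : LinearIndependent ℤ b := by
    refine hb.restrict_scalars ?_
    intro x y hxy
    simpa using hxy
  have hfinL : Module.Finite ℤ (Zs b) := Module.Finite.span_of_finite ℤ (Set.finite_range b)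
  have htf : IsTorsionFree ℤ E := tf
  have htfL : IsTorsionFree ℤ (Zs b) := inferInstance
  have htfq : IsTorsionFree ℤ (E ⧸ S) := tf
  have hfreeR : Module.Free ℤ (LinearMap.range φ) := inferInstance
  have hfreeK : Module.Free ℤ (LinearMap.ker φ) := inferInstance
  have hfinK : Module.Finite ℤ (LinearMap.ker φ) := inferInstance
  obtain ⟨s, hs⟩ := Module.projective_lifting_property φ.rangeRestrict
    (LinearMap.id : LinearMap.range φ →ₗ[ℤ] LinearMap.range φ) φ.surjective_rangeRestrict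
  let Bk := Module.finBasis ℤ (LinearMap.ker φ)
  let Br := Module.finBasis ℤ (LinearMap.range φ)
  let c : Fin (finrank ℤ (LinearMap.ker φ)) → E := fun i => ((Bk i : Zs b) : E)
  let e : Fin (finrank ℤ (LinearMap.range φ)) → E := fun i => ((s (Br i) : Zs b) : E)
  have hc : ∀ x : Zs b, φ x = 0 → (x : E) ∈ Zs c := by
    intro x hx
    have h1 : (⟨x, hx⟩ : LinearMap.ker φ) ∈ Submodule.span ℤ (Set.range Bk) := by
      rw [Bk.span_eq]; trivial
    have h2 := Submodule.mem_map_of_mem (f := (Zs b).subtype.comp (LinearMap.ker φ).subtype) h1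
    rw [Submodule.map_span] at h2
    refine Submodule.span_mono ?_ h2
    rintro _ ⟨_, ⟨i, rfl⟩, rfl⟩
    exact ⟨i, rfl⟩
  have he : ∀ y : LinearMap.range φ, ((s y : Zs b) : E) ∈ Zs e := by
    intro y
    have h1 : y ∈ Submodule.span ℤ (Set.range Br) := by
      rw [Br.span_eq]; trivial
    have h2 := Submodule.mem_map_of_mem (f := (Zs b).subtype.comp s) h1
    rw [Submodule.map_span] at h2
    refine Submodule.span_mono ?_ h2
    rintro _ ⟨_, ⟨i, rfl⟩, rfl⟩
    exact ⟨i, rfl⟩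
  have hspan : Zs (Fin.append c e) = Zs b := by
    apply le_antisymm
    · rw [Submodule.span_le, range_append]
      rintro _ (⟨i, rfl⟩ | ⟨i, rfl⟩)
      · exact (Bk i : Zs b).2
      · exact (s (Br i)).2
    · intro x hx
      have h1 : φ (⟨x, hx⟩ - s (φ.rangeRestrict ⟨x, hx⟩)) = 0 := by
        have h2 := LinearMap.congr_fun hs (φ.rangeRestrict ⟨x, hx⟩)
        have h3 := congrArg (Subtype.val) h2
        rw [map_sub, sub_eq_zero]
        exact h3.symm
      have h2 := hc _ h1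
      have h3 := he (φ.rangeRestrict ⟨x, hx⟩)
      have h4 : x = (((⟨x, hx⟩ : Zs b) - s (φ.rangeRestrict ⟨x, hx⟩) : Zs b) : E) +
          ((s (φ.rangeRestrict ⟨x, hx⟩) : Zs b) : E) := by
        simp
      rw [h4]
      refine Submodule.add_mem _ (Submodule.span_mono ?_ h2) (Submodule.span_mono ?_ h3)
      · rw [range_append]; exact Set.subset_union_left
      · rw [range_append]; exact Set.subset_union_right
  have hmk : finrank ℤ (LinearMap.ker φ) + finrank ℤ (LinearMap.range φ) = n := by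
    have h1 := Submodule.finrank_quotient_add_finrank (LinearMap.ker φ)
    rw [φ.quotKerEquivRange.finrank_eq] at h1
    rw [add_comm, h1]
    have h2 := finrank_span_eq_card (R := ℤ) hbZ
    rw [Fintype.card_fin] at h2
    exact h2
  refine ⟨_, _, c, e, hmk, ?_, hspan, ?_⟩
  · rw [linearIndependent_iff_card_eq_finrank_span, Set.finrank]
    have h1 : Submodule.span ℝ (Set.range (Fin.append c e)) = Submodule.span ℝ (Set.range b) :=
      span_real _ _ hspan
    rw [h1, finrank_span_eq_card hb, Fintype.card_fin, Fintype.card_fin, hmk]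
  · intro x hx
    constructor
    · intro h
      exact hc ⟨x, hx⟩ ((hφ _).2 h)
    · intro h
      have h1 : Zs c ≤ S.restrictScalars ℤ := by
        rw [Submodule.span_le]
        rintro _ ⟨i, rfl⟩
        exact (hφ _).1 (Bk i).2
      exact h1 h

end Pool.Agent.Lib.MPcb8a44.RC
end

section
/-!
# CON: contractions decrease Gram determinants
-/
open NumberField Module

namespace Pool.Agent.Lib.MPcb8a44.RC

namespace CONM

variable {E E' : Type} [NormedAddCommGroup E] [InnerProductSpace ℝ E]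
  [NormedAddCommGroup E'] [InnerProductSpace ℝ E']

theorem infDist_le (T : E →ₗ[ℝ] E') {κ : ℝ} (hκ : 0 ≤ κ) (hT : ∀ x, ‖T x‖ ≤ κ * ‖x‖) {n : ℕ}
    (b : Fin n → E) (v : E) :
    Metric.infDist (T v) (Rs (fun i => T (b i)) : Set E') ≤ κ * Metric.infDist v (Rs b : Set E) := by
  have hmem : ∀ p ∈ Rs b, T p ∈ Rs (fun i => T (b i)) := by
    intro p hp
    have h1 : T p ∈ (Rs b).map T := Submodule.mem_map_of_mem hp
    rw [Submodule.map_span, ← Set.range_comp] at h1
    exact h1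
  rcases hκ.eq_or_lt with h0 | h0
  · have h1 : T v = 0 := by
      have := hT v
      rw [← h0, zero_mul] at this
      exact norm_le_zero_iff.1 this
    rw [h1, ← h0, zero_mul]
    exact (Metric.infDist_zero_of_mem (Submodule.zero_mem _)).le
  · rw [← div_le_iff₀' h0]
    rw [Metric.le_infDist ⟨0, (Rs b).zero_mem⟩]
    intro p hp
    rw [div_le_iff₀' h0]
    refine (Metric.infDist_le_dist_of_mem (hmem p hp)).trans ?_
    rw [dist_eq_norm, dist_eq_norm, ← map_sub]
    exact hT _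

end CONM

open CONM in
theorem specCON (hGRA : SpecGRA) : SpecCON := by
  intro E E' _ _ _ _ T κ hκ hT n
  induction n with
  | zero =>
    intro b
    have h1 : gd b = 1 := Matrix.det_fin_zero
    have h2 : gd (fun i => T (b i)) = 1 := Matrix.det_fin_zero
    rw [h1, h2]
    simp
  | succ n ih =>
    intro b
    have hb : b = (Fin.snoc (Fin.init b) (b (Fin.last n)) : Fin (n + 1) → E) :=
      (Fin.snoc_init_self b).symm
    have hTb : (fun i => T (b i)) =
        (Fin.snoc (fun i => T (Fin.init b i)) (T (b (Fin.last n))) : Fin (n + 1) → E') := by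
      funext i
      refine Fin.lastCases ?_ (fun i => ?_) i
      · rw [Fin.snoc_last]
      · rw [Fin.snoc_castSucc]
        rfl
    have h1 := (hGRA E n (Fin.init b)).2.2.1 (b (Fin.last n))
    rw [← hb] at h1
    have h2 := (hGRA E' n (fun i => T (Fin.init b i))).2.2.1 (T (b (Fin.last n)))
    rw [← hTb] at h2
    rw [h1, h2]
    have h3 := ih (Fin.init b)
    have h4 := infDist_le T hκ hT (Fin.init b) (b (Fin.last n))
    have h5 : Metric.infDist (T (b (Fin.last n))) (Rs (fun i => T (Fin.init b i)) : Set E') ^ 2 ≤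
        (κ * Metric.infDist (b (Fin.last n)) (Rs (Fin.init b) : Set E)) ^ 2 :=
      pow_le_pow_left₀ Metric.infDist_nonneg h4 2
    have h6 : 0 ≤ gd (Fin.init b) := (hGRA E n (Fin.init b)).1
    calc gd (fun i => T (Fin.init b i)) *
          Metric.infDist (T (b (Fin.last n))) (Rs (fun i => T (Fin.init b i)) : Set E') ^ 2
        ≤ (κ ^ (2 * n) * gd (Fin.init b)) *
          (κ * Metric.infDist (b (Fin.last n)) (Rs (Fin.init b) : Set E)) ^ 2 :=
          mul_le_mul h3 h5 (sq_nonneg _) (by positivity)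
      _ = κ ^ (2 * (n + 1)) * (gd (Fin.init b) *
          Metric.infDist (b (Fin.last n)) (Rs (Fin.init b) : Set E) ^ 2) := by ring

end Pool.Agent.Lib.MPcb8a44.RC
end

section
set_option autoImplicit false

open NumberField Module

namespace Pool.Agent.Lib.MPcb8a44.RC

namespace GTHM

variable {E : Type} [NormedAddCommGroup E] [InnerProductSpace ℝ E] {n : ℕ}

theorem zc_zero (b : Fin n → E) : zc b 0 = 0 := by
  unfold zc; simp

theorem zc_mem (b : Fin n → E) (x : Fin n → ℤ) : zc b x ∈ Rs b := by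
  unfold zc
  exact Submodule.sum_mem _ fun i _ => Submodule.smul_mem _ _ (Submodule.subset_span ⟨i, rfl⟩)

theorem summ (hGSM : SpecGSM) {b : Fin n → E} (hb : LinearIndependent ℝ b) (z : ℝ) (v : E) :
    Summable fun x : Fin n → ℤ =>
      Real.exp (-(Real.pi * Real.exp (-2 * z) * ‖v + zc b x‖ ^ 2)) :=
  hGSM E n b _ v hb (by positivity)

theorem summ0 (hGSM : SpecGSM) {b : Fin n → E} (hb : LinearIndependent ℝ b) (z : ℝ) :
    Summable fun x : Fin n → ℤ =>
      Real.exp (-(Real.pi * Real.exp (-2 * z) * ‖zc b x‖ ^ 2)) := by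
  have := summ hGSM hb z 0
  simpa only [zero_add] using this

theorem ths_zero (z : ℝ) (b : Fin n → E) : ths z b 0 = th z b := by
  unfold ths th
  simp only [zero_add]

theorem e2 (z : ℝ) : -2 * -z = 2 * z := by ring

/-- duality -/
theorem dual (hPOI : SpecPOI) {b b' : Fin n → E} (hb : LinearIndependent ℝ b) (hd : DU b b')
    (z : ℝ) : th z b = Real.exp (z * n) / Real.sqrt (gd b) * th (-z) b' := by
  have h := hPOI E n b b' z 0 hb hd
  have e : ∑ i, (0 : Fin n → ℝ) i • b i = 0 := by simp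
  rw [e, ths_zero] at h
  rw [h]
  unfold th
  rw [e2]
  simp

theorem ths_le (hGSM : SpecGSM) (hPOI : SpecPOI) (hDUB : SpecDUB) {b : Fin n → E}
    (hb : LinearIndependent ℝ b) (z : ℝ) (p : E) (hp : p ∈ Rs b) : ths z b p ≤ th z b := by
  obtain ⟨⟨b', hd⟩, hd'⟩ := hDUB E n b hb
  obtain ⟨hb', -, -, -⟩ := hd' b' hd
  obtain ⟨t, ht⟩ := (Submodule.mem_span_range_iff_exists_fun ℝ).1 hp
  rw [← ht, hPOI E n b b' z t hb hd, dual hPOI hb hd z]
  have hs := summ0 hGSM hb' (-z)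
  rw [e2] at hs
  have hc : 0 ≤ Real.exp (z * n) / Real.sqrt (gd b) := by positivity
  refine mul_le_mul_of_nonneg_left ?_ hc
  unfold th
  rw [e2]
  have hle : ∀ k : Fin n → ℤ, Real.exp (-(Real.pi * Real.exp (2 * z) * ‖zc b' k‖ ^ 2)) *
      Real.cos (2 * Real.pi * ∑ i, (k i : ℝ) * t i) ≤
      Real.exp (-(Real.pi * Real.exp (2 * z) * ‖zc b' k‖ ^ 2)) := fun k =>
    mul_le_of_le_one_right (Real.exp_pos _).le (Real.cos_le_one _)
  refine Summable.tsum_le_tsum hle ?_ hs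
  refine Summable.of_norm_bounded hs fun k => ?_
  rw [norm_mul, Real.norm_eq_abs, Real.norm_eq_abs, abs_of_pos (Real.exp_pos _)]
  exact mul_le_of_le_one_right (Real.exp_pos _).le (Real.abs_cos_le_one _)

end GTHM

open GTHM in
theorem specGTH (hGSM : SpecGSM) (hPOI : SpecPOI) (hDUB : SpecDUB) : SpecGTH := by
  intro E _ _ n b z hb
  have h1 : ∀ z : ℝ, 1 ≤ th z b := by
    intro z
    have hs := summ0 hGSM hb z
    have := hs.le_tsum 0 fun x _ => (Real.exp_pos _).le
    rw [zc_zero] at this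
    unfold th
    simpa using this
  obtain ⟨⟨b', hd⟩, hd'⟩ := hDUB E n b hb
  obtain ⟨hb', -, -, -⟩ := hd' b' hd
  refine ⟨fun v => ?_, ?_, fun t ht => ?_, h1 z, fun b' hd => dual hPOI hb hd z⟩
  · have : FiniteDimensional ℝ (Rs b) := FiniteDimensional.span_of_finite ℝ (Set.finite_range b)
    set p : E := (Rs b).starProjection v with hp
    have hpm : p ∈ Rs b := Submodule.starProjection_apply_mem _ _
    have horth : ∀ w ∈ Rs b, inner ℝ (v - p) w = 0 := by
      intro w hw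
      exact Submodule.starProjection_inner_eq_zero v w hw
    have hnorm : ∀ x, ‖v + zc b x‖ ^ 2 = ‖v - p‖ ^ 2 + ‖p + zc b x‖ ^ 2 := by
      intro x
      have e : v + zc b x = (v - p) + (p + zc b x) := by abel
      rw [e]
      have := norm_add_sq_eq_norm_sq_add_norm_sq_of_inner_eq_zero (v - p) (p + zc b x)
        (horth _ (Submodule.add_mem _ hpm (zc_mem b x)))
      rw [sq, this]
      ring
    have hdist : Metric.infDist v (Rs b : Set E) ≤ ‖v - p‖ := by
      rw [← dist_eq_norm]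
      exact Metric.infDist_le_dist_of_mem hpm
    have e : ths z b v = Real.exp (-(Real.pi * Real.exp (-2 * z) * ‖v - p‖ ^ 2)) * ths z b p := by
      unfold ths
      rw [← tsum_mul_left]
      refine tsum_congr fun x => ?_
      rw [← Real.exp_add, hnorm]
      congr 1
      ring
    rw [e]
    refine mul_le_mul ?_ (ths_le hGSM hPOI hDUB hb z p hpm) ?_ (Real.exp_pos _).le
    · apply Real.exp_le_exp.2
      apply neg_le_neg
      have : 0 ≤ Metric.infDist v (Rs b : Set E) := Metric.infDist_nonneg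
      gcongr
    · exact tsum_nonneg fun x => (Real.exp_pos _).le
  · rw [dual hPOI hb hd z]
    have h2 : 1 ≤ th (-z) b' := by
      have hs := summ0 hGSM hb' (-z)
      have := hs.le_tsum 0 fun x _ => (Real.exp_pos _).le
      rw [zc_zero] at this
      unfold th
      simpa using this
    exact le_mul_of_one_le_right (by positivity) h2
  · rw [dual hPOI hb hd (z + t), dual hPOI hb hd z]
    have h2 : th (-(z + t)) b' ≤ th (-z) b' := by
      unfold th
      refine Summable.tsum_le_tsum (fun x => ?_) (summ0 hGSM hb' _) (summ0 hGSM hb' _)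
      apply Real.exp_le_exp.2
      apply neg_le_neg
      have h3 : Real.exp (-2 * -z) ≤ Real.exp (-2 * -(z + t)) := by
        apply Real.exp_le_exp.2
        linarith
      exact mul_le_mul_of_nonneg_right (mul_le_mul_of_nonneg_left h3 Real.pi_pos.le) (sq_nonneg _)
    have e : Real.exp ((z + t) * n) = Real.exp (t * n) * Real.exp (z * n) := by
      rw [← Real.exp_add]
      congr 1
      ring
    calc Real.exp ((z + t) * n) / Real.sqrt (gd b) * th (-(z + t)) b'
        ≤ Real.exp ((z + t) * n) / Real.sqrt (gd b) * th (-z) b' := by gcongr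
      _ = _ := by rw [e]; ring

end Pool.Agent.Lib.MPcb8a44.RC
end

section
/-!
# The dual lattice of an ideal and Poisson summation (common part of CVR and NEG)
-/
set_option autoImplicit false

open NumberField Module

namespace Pool.Agent.Lib.MPcb8a44.RC.CVRM

variable {F : Type} [Field F] [NumberField F]

theorem npos : (0 : ℝ) < finrank ℚ F := by exact_mod_cast RD.d_pos

/-- AM-GM over the embeddings -/
theorem amgm (w : F) (μ : ℝ) (hμ : 0 ≤ μ) (h : μ ^ finrank ℚ F ≤ ∏ φ : F →+* ℂ, ‖φ w‖) :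
    μ ^ 2 ≤ RD.Ms w := by
  have hn := npos (F := F)
  have h1 := Real.geom_mean_le_arith_mean (Finset.univ : Finset (F →+* ℂ)) (fun _ => (1 : ℝ))
    (fun φ => ‖φ w‖ ^ 2) (fun _ _ => zero_le_one) (by
      rw [Finset.sum_const, Finset.card_univ, RD.card_emb]
      simpa using RD.d_pos) (fun _ _ => sq_nonneg _)
  simp only [Real.rpow_one, Finset.sum_const, Finset.card_univ, RD.card_emb, nsmul_eq_mul, mul_one,
    one_mul] at h1
  unfold RD.Ms
  refine le_trans ?_ h1
  have h3 : (∏ φ : F →+* ℂ, ‖φ w‖) ^ 2 = (∏ φ : F →+* ℂ, ‖φ w‖) ^ (2 : ℝ) :=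
    (Real.rpow_natCast _ 2).symm
  rw [Finset.prod_pow, h3, ← Real.rpow_mul (by positivity)]
  have h2 : μ ^ 2 = (μ ^ finrank ℚ F) ^ ((2 : ℝ) * (finrank ℚ F : ℝ)⁻¹) := by
    rw [← Real.rpow_natCast μ (finrank ℚ F), ← Real.rpow_mul hμ, ← Real.rpow_natCast μ 2]
    congr 1
    push_cast
    field_simp
  rw [h2]
  exact Real.rpow_le_rpow (by positivity) h (by positivity)

theorem prod_eq_norm (w : F) : ∏ φ : F →+* ℂ, ‖φ w‖ = |((Algebra.norm ℚ w : ℚ) : ℝ)| := by
  have h1 := Algebra.norm_eq_prod_embeddings ℚ ℂ w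
  have h2 : ∏ σ : F →ₐ[ℚ] ℂ, σ w = ∏ φ : F →+* ℂ, φ w := by
    rw [← (RingHom.equivRatAlgHom (R := F) (S := ℂ)).prod_comp]
    rfl
  rw [← norm_prod, ← h2, ← h1]
  simp

/-- the norm of a nonzero element of the dual of an ideal -/
theorem norm_dual (I : Ideal (𝓞 F)) (hI : I ≠ ⊥) (w : F) (hw : w ≠ 0)
    (h : ∀ x ∈ I, ∃ k : ℤ, Algebra.trace ℚ F (w * (x : F)) = k) :
    1 ≤ (∏ φ : F →+* ℂ, ‖φ w‖) * (Ideal.absNorm I * |((discr F : ℤ) : ℝ)|) := by
  have hco := coeSubmodule_differentIdeal (A := ℤ) (K := ℚ) (B := 𝓞 F) (L := F)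
  -- w I D integral
  have h1 : ∀ x ∈ I, ∀ y ∈ differentIdeal ℤ (𝓞 F), IsIntegral ℤ (w * (x : F) * (y : F)) := by
    intro x hx y hy
    have hwx : w * (x : F) ∈ Submodule.traceDual ℤ ℚ (1 : Submodule (𝓞 F) F) := by
      rw [Submodule.mem_traceDual]
      intro a ha
      obtain ⟨o, rfl⟩ := Submodule.mem_one.1 ha
      obtain ⟨k, hk⟩ := h (x * o) (I.mul_mem_right o hx)
      refine ⟨k, ?_⟩
      rw [Algebra.traceForm_apply, mul_assoc]
      have : (algebraMap (𝓞 F) F) (x * o) = (x : F) * (algebraMap (𝓞 F) F) o := map_mul _ _ _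
      rw [← this, hk]
      simp
    have hy' : (algebraMap (𝓞 F) F) y ∈ (1 : Submodule (𝓞 F) F) /
        Submodule.traceDual ℤ ℚ (1 : Submodule (𝓞 F) F) := by
      rw [← hco]
      exact ⟨y, hy, rfl⟩
    have := Submodule.mem_div_iff_forall_mul_mem.1 hy' _ hwx
    obtain ⟨o, ho⟩ := Submodule.mem_one.1 this
    rw [mul_comm, ← ho]
    exact o.2
  obtain ⟨a, b, hb, hab⟩ := IsFractionRing.div_surjective (A := 𝓞 F) w
  have hb0 : b ≠ 0 := nonZeroDivisors.ne_zero hb
  have hbF : (b : F) ≠ 0 := by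
    simpa using hb0
  have hle : Ideal.span {a} * (I * differentIdeal ℤ (𝓞 F)) ≤ Ideal.span {b} := by
    rw [Ideal.span_singleton_mul_le_iff]
    intro z hz
    refine Submodule.mul_induction_on hz ?_ ?_
    · intro x hx y hy
      rw [Ideal.mem_span_singleton]
      refine ⟨⟨w * (x : F) * (y : F), h1 x hx y hy⟩, ?_⟩
      apply RingOfIntegers.coe_injective
      rw [map_mul, map_mul, map_mul]
      change (a : F) * ((x : F) * (y : F)) = (b : F) * (w * (x : F) * (y : F))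
      have hab' : w * (b : F) = (a : F) := by
        rw [← hab]
        exact div_mul_cancel₀ _ hbF
      rw [← hab']
      ring
    · intro x y hx hy
      rw [mul_add]
      exact Ideal.add_mem _ hx hy
  have hdvd := Ideal.absNorm_dvd_absNorm_of_le hle
  rw [map_mul, map_mul, Ideal.absNorm_span_singleton, Ideal.absNorm_span_singleton,
    absNorm_differentIdeal F] at hdvd
  have ha0 : a ≠ 0 := by
    rintro rfl
    apply hw
    rw [← hab]
    simp
  have hNa : (Algebra.norm ℤ a).natAbs ≠ 0 := by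
    rw [Int.natAbs_ne_zero]
    exact Algebra.norm_ne_zero_iff.2 ha0
  have hNI : Ideal.absNorm I ≠ 0 := by
    rw [Ne, Ideal.absNorm_eq_zero_iff]
    exact hI
  have hNd : (discr F).natAbs ≠ 0 := by
    rw [Int.natAbs_ne_zero]
    exact discr_ne_zero F
  have hle2 : (Algebra.norm ℤ b).natAbs ≤
      (Algebra.norm ℤ a).natAbs * (Ideal.absNorm I * (discr F).natAbs) :=
    Nat.le_of_dvd (Nat.pos_of_ne_zero (by positivity)) hdvd
  have hle3 : |((Algebra.norm ℤ b : ℤ) : ℝ)| ≤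
      |((Algebra.norm ℤ a : ℤ) : ℝ)| * (Ideal.absNorm I * |((discr F : ℤ) : ℝ)|) := by
    have e : ∀ k : ℤ, |(k : ℝ)| = (k.natAbs : ℝ) := by
      intro k
      rw [Nat.cast_natAbs, Int.cast_abs]
    rw [e, e, e]
    exact_mod_cast hle2
  have ea : (Algebra.norm ℚ ((algebraMap (𝓞 F) F) a) : ℚ) = ((Algebra.norm ℤ a : ℤ) : ℚ) :=
    (Algebra.coe_norm_int a).symm
  have eb : (Algebra.norm ℚ ((algebraMap (𝓞 F) F) b) : ℚ) = ((Algebra.norm ℤ b : ℤ) : ℚ) :=
    (Algebra.coe_norm_int b).symm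
  have hab' : w * (algebraMap (𝓞 F) F) b = (algebraMap (𝓞 F) F) a := by
    rw [← hab]
    exact div_mul_cancel₀ _ hbF
  have hN : Algebra.norm ℚ w * ((Algebra.norm ℤ b : ℤ) : ℚ) = ((Algebra.norm ℤ a : ℤ) : ℚ) := by
    rw [← ea, ← eb, ← map_mul, hab']
  have hN2 : |((Algebra.norm ℚ w : ℚ) : ℝ)| * |((Algebra.norm ℤ b : ℤ) : ℝ)| =
      |((Algebra.norm ℤ a : ℤ) : ℝ)| := by
    rw [← abs_mul]
    congr 1
    exact_mod_cast hN
  have hNb : 0 < |((Algebra.norm ℤ b : ℤ) : ℝ)| := by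
    rw [abs_pos]
    exact_mod_cast Algebra.norm_ne_zero_iff.2 hb0
  rw [prod_eq_norm]
  rw [← hN2] at hle3
  by_contra hcon
  rw [not_le] at hcon
  have : |((Algebra.norm ℚ w : ℚ) : ℝ)| * |((Algebra.norm ℤ b : ℤ) : ℝ)| *
      (Ideal.absNorm I * |((discr F : ℤ) : ℝ)|) < 1 * |((Algebra.norm ℤ b : ℤ) : ℝ)| := by
    calc _ = (|((Algebra.norm ℚ w : ℚ) : ℝ)| * (Ideal.absNorm I * |((discr F : ℤ) : ℝ)|)) *
          |((Algebra.norm ℤ b : ℤ) : ℝ)| := by ring
      _ < _ := mul_lt_mul_of_pos_right hcon hNb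
  linarith

/-- the lower bound for the dual of an ideal -/
noncomputable def mu (I : Ideal (𝓞 F)) : ℝ :=
  (Ideal.absNorm I : ℝ) ^ (-(1 : ℝ) / finrank ℚ F) * Real.exp (-LD F)

theorem absNorm_pos {I : Ideal (𝓞 F)} (hI : I ≠ ⊥) : (0 : ℝ) < Ideal.absNorm I := by
  have : Ideal.absNorm I ≠ 0 := by
    rw [Ne, Ideal.absNorm_eq_zero_iff]
    exact hI
  exact_mod_cast Nat.pos_of_ne_zero this

theorem disc_pos : (0 : ℝ) < |((discr F : ℤ) : ℝ)| := by
  rw [abs_pos]
  exact_mod_cast discr_ne_zero F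

theorem mu_pos {I : Ideal (𝓞 F)} (hI : I ≠ ⊥) : 0 < mu I := by
  have := absNorm_pos hI
  unfold mu
  positivity

theorem mu_pow {I : Ideal (𝓞 F)} (hI : I ≠ ⊥) :
    mu I ^ finrank ℚ F * (Ideal.absNorm I * |((discr F : ℤ) : ℝ)|) = 1 := by
  have hN := absNorm_pos hI
  have hn := npos (F := F)
  have hD := disc_pos (F := F)
  have e1 : ((Ideal.absNorm I : ℝ) ^ (-(1 : ℝ) / finrank ℚ F)) ^ finrank ℚ F =
      (Ideal.absNorm I : ℝ)⁻¹ := by
    rw [← Real.rpow_natCast, ← Real.rpow_mul hN.le, div_mul_cancel₀ _ hn.ne',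
      Real.rpow_neg_one]
  have e2 : Real.exp (-LD F) ^ finrank ℚ F = |((discr F : ℤ) : ℝ)|⁻¹ := by
    rw [← Real.exp_nat_mul, LD]
    have : (finrank ℚ F : ℝ) * -(Real.log |((discr F : ℤ) : ℝ)| / finrank ℚ F) =
        -Real.log |((discr F : ℤ) : ℝ)| := by field_simp
    rw [this, Real.exp_neg, Real.exp_log hD]
  unfold mu
  rw [mul_pow, e1, e2]
  field_simp

theorem Ms_dual {I : Ideal (𝓞 F)} (hI : I ≠ ⊥) (w : F) (hw : w ≠ 0)
    (h : ∀ x ∈ I, ∃ k : ℤ, Algebra.trace ℚ F (w * (x : F)) = k) : mu I ^ 2 ≤ RD.Ms w := by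
  refine amgm w _ (mu_pos hI).le ?_
  have h1 := norm_dual I hI w hw h
  rw [← mu_pow hI] at h1
  have hN := absNorm_pos hI
  have hD := disc_pos (F := F)
  exact le_of_mul_le_mul_right h1 (by positivity)

section Tail

variable {m : ℕ}

/-- mass of a lattice without short vectors -/
theorem mass (hF : RD.TR F) (hRHB : SpecRHB) (hCUB : SpecCUB)
    (q : Fin m → F) (hq : LinearIndependent ℚ q) (μ z : ℝ)
    (hS : ∀ w ∈ Submodule.span ℤ (Set.range q), w ≠ 0 → μ ≤ RD.hs w)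
    (hz : Real.exp z < μ) : th z (fun i => ev (q i)) ≤ 4 ^ finrank ℚ F := by
  have h1 := (hRHB F hF m q z hq).2
  have h2 := (hCUB F hF (Submodule.span ℤ (Set.range q)) z
    (Submodule.fg_span (Set.finite_range q))).2.2
  rw [← h1]
  refine h2.trans ?_
  have h3 : {x : F | x ∈ Submodule.span ℤ (Set.range q) ∧ RD.hs x ≤ Real.exp z} ⊆ {0} := by
    rintro x ⟨hx, hx'⟩
    by_contra hx0
    have := hS x hx hx0
    linarith
  have h4 : {x : F | x ∈ Submodule.span ℤ (Set.range q) ∧ RD.hs x ≤ Real.exp z}.ncard ≤ 1 := by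
    refine (Set.ncard_le_ncard h3 (Set.finite_singleton 0)).trans ?_
    rw [Set.ncard_singleton]
  have h5 : (({x : F | x ∈ Submodule.span ℤ (Set.range q) ∧ RD.hs x ≤ Real.exp z}.ncard : ℕ) : ℝ)
      ≤ 1 := by exact_mod_cast h4
  exact mul_le_of_le_one_right (by positivity) h5

theorem tail (hF : RD.TR F) (hGSM : SpecGSM) (hEVB : SpecEVB) (hRHB : SpecRHB) (hCUB : SpecCUB)
    (q : Fin m → F) (hq : LinearIndependent ℚ q) (μ z : ℝ) (hμ : 0 < μ)
    (hS : ∀ w ∈ Submodule.span ℤ (Set.range q), w ≠ 0 → μ ^ 2 ≤ RD.Ms w)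
    (hz : 2 < Real.exp (2 * z) * μ ^ 2) (t : Fin m → ℝ) :
    |(∑' k : Fin m → ℤ, Real.exp (-(Real.pi * Real.exp (2 * z) * ‖zc (fun i => ev (q i)) k‖ ^ 2)) *
      Real.cos (2 * Real.pi * ∑ i, (k i : ℝ) * t i)) - 1| ≤
    4 ^ finrank ℚ F * Real.exp (-(Real.pi / 2 * finrank ℚ F * (Real.exp (2 * z) * μ ^ 2))) := by
  have hlin : LinearIndependent ℝ fun i => ev (q i) := (((hEVB F hF).1 m q).1).1 hq
  have hzc := (((hEVB F hF).1 m q).2.2.2)
  set z' : ℝ := -z + Real.log 2 / 2 with hz'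
  have e2 : Real.exp (-2 * z') = Real.exp (2 * z) / 2 := by
    rw [hz']
    have : -2 * (-z + Real.log 2 / 2) = 2 * z - Real.log 2 := by ring
    rw [this, Real.exp_sub, Real.exp_log (by norm_num)]
  have hm : th z' (fun i => ev (q i)) ≤ 4 ^ finrank ℚ F := by
    refine mass hF hRHB hCUB q hq μ z' (fun w hw hw0 => ?_) ?_
    · have h1 := hS w hw hw0
      have h2 := RD.Ms_le_hs w
      exact (pow_le_pow_iff_left₀ hμ.le (RD.hs_nonneg w) two_ne_zero).1 (h1.trans h2)
    · rw [← pow_lt_pow_iff_left₀ (Real.exp_pos _).le hμ.le two_ne_zero]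
      have h3 : Real.exp z' ^ 2 * Real.exp (-2 * z') = 1 := by
        rw [← Real.exp_nat_mul, ← Real.exp_add]
        simp
      rw [e2] at h3
      have h4 : 0 < Real.exp (2 * z) := Real.exp_pos _
      have h5 : Real.exp z' ^ 2 * Real.exp (2 * z) < μ ^ 2 * Real.exp (2 * z) := by nlinarith
      exact lt_of_mul_lt_mul_right h5 h4.le
  have hs0 := GTHM.summ0 hGSM hlin z'
  set f : (Fin m → ℤ) → ℝ := fun k =>
    Real.exp (-(Real.pi * Real.exp (2 * z) * ‖zc (fun i => ev (q i)) k‖ ^ 2)) *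
      Real.cos (2 * Real.pi * ∑ i, (k i : ℝ) * t i) with hf
  have hsf : Summable f := by
    have hs1 := GTHM.summ0 hGSM hlin (-z)
    rw [GTHM.e2] at hs1
    refine Summable.of_norm_bounded hs1 fun k => ?_
    rw [hf, norm_mul, Real.norm_eq_abs, Real.norm_eq_abs, abs_of_pos (Real.exp_pos _)]
    exact mul_le_of_le_one_right (Real.exp_pos _).le (Real.abs_cos_le_one _)
  classical
  have hd : HasSum (fun k : Fin m → ℤ => if k = 0 then (1 : ℝ) else 0) 1 := by
    have := hasSum_ite_eq (0 : Fin m → ℤ) (1 : ℝ)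
    exact this
  have hsub := (hsf.hasSum.sub hd)
  rw [← hsub.tsum_eq, ← Real.norm_eq_abs]
  set ρ : ℝ := Real.exp (-(Real.pi / 2 * finrank ℚ F * (Real.exp (2 * z) * μ ^ 2))) with hρ
  have hb : HasSum (fun k : Fin m → ℤ => ρ *
      Real.exp (-(Real.pi * Real.exp (-2 * z') * ‖zc (fun i => ev (q i)) k‖ ^ 2)))
      (ρ * th z' (fun i => ev (q i))) := hs0.hasSum.mul_left ρ
  refine (tsum_of_norm_bounded hb fun k => ?_).trans ?_
  · by_cases hk : k = 0
    · subst hk
      have : f 0 = 1 := by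
        rw [hf]
        simp [GTHM.zc_zero]
      rw [this]
      simp only [if_true, sub_self, norm_zero]
      positivity
    · rw [if_neg hk, sub_zero, hf]
      simp only []
      rw [norm_mul, Real.norm_eq_abs, Real.norm_eq_abs, abs_of_pos (Real.exp_pos _)]
      refine (mul_le_of_le_one_right (Real.exp_pos _).le (Real.abs_cos_le_one _)).trans ?_
      rw [hρ, e2, ← Real.exp_add]
      apply Real.exp_le_exp.2
      rw [hzc, norm_ev_sq hF]
      have hw : (∑ i, k i • q i) ∈ Submodule.span ℤ (Set.range q) :=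
        Submodule.sum_mem _ fun i _ => Submodule.smul_mem _ _ (Submodule.subset_span ⟨i, rfl⟩)
      have hw0 : (∑ i, k i • q i) ≠ 0 := by
        intro h0
        apply hk
        have hq' : LinearIndependent ℤ q := hq.restrict_scalars' ℤ
        funext i
        exact Fintype.linearIndependent_iff.1 hq' k h0 i
      have h6 := hS _ hw hw0
      have h7 : Real.pi * Real.exp (2 * z) * (finrank ℚ F * μ ^ 2) ≤
          Real.pi * Real.exp (2 * z) * (finrank ℚ F * RD.Ms (∑ i, k i • q i)) := by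
        gcongr
      nlinarith
  · rw [mul_comm]
    exact mul_le_mul_of_nonneg_right hm (Real.exp_pos _).le

/-- independent families of full rank span the Euclidean space -/
theorem Rs_top (hF : RD.TR F) (hEVB : SpecEVB) (b : Fin m → F) (hb : LinearIndependent ℚ b)
    (hm : m = finrank ℚ F) : Rs (fun i => ev (b i)) = ⊤ := by
  have hlin : LinearIndependent ℝ fun i => ev (b i) := (((hEVB F hF).1 m b).1).1 hb
  apply Submodule.eq_top_of_finrank_eq
  rw [finrank_span_eq_card hlin, Fintype.card_fin, finrank_euclideanSpace, RD.card_emb, hm]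

/-- the trace dual basis -/
theorem exists_dual (hF : RD.TR F) (hEVB : SpecEVB) (b : Fin m → F) (hb : LinearIndependent ℚ b)
    (hm : m = finrank ℚ F) : ∃ q : Fin m → F, LinearIndependent ℚ q ∧
    (∀ i j, Algebra.trace ℚ F (q i * b j) = if i = j then 1 else 0) ∧
    DU (fun i => ev (b i)) (fun i => ev (q i)) := by
  have : Nonempty (Fin m) := by
    have := RD.d_pos (K := F)
    exact ⟨⟨0, by omega⟩⟩
  let B : Basis (Fin m) ℚ F := basisOfLinearIndependentOfCardEqFinrank hb (by simp [hm])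
  have hB : ∀ i, B i = b i := fun i => by
    simp [B]
  let Q := (Algebra.traceForm ℚ F).dualBasis (traceForm_nondegenerate ℚ F) B
  have h1 : ∀ i j, Algebra.trace ℚ F (Q i * b j) = if i = j then 1 else 0 := by
    intro i j
    have := LinearMap.BilinForm.apply_dualBasis_left (B := Algebra.traceForm ℚ F)
      (traceForm_nondegenerate ℚ F) B i j
    rw [Algebra.traceForm_apply, hB] at this
    rw [this]
    simp only [eq_comm]
  refine ⟨Q, Q.linearIndependent, h1, ?_, ?_⟩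
  · rw [Rs_top hF hEVB _ Q.linearIndependent hm, Rs_top hF hEVB _ hb hm]
  · intro i j
    rw [inner_ev hF, mul_comm, h1]
    by_cases h : i = j
    · simp [h]
    · simp [h, Ne.symm h]

theorem pois (hF : RD.TR F) (hGSM : SpecGSM) (hEVB : SpecEVB) (hRHB : SpecRHB) (hCUB : SpecCUB)
    (hPOI : SpecPOI) (b : Fin m → F) (hb : LinearIndependent ℚ b) (hm : m = finrank ℚ F)
    (μ z : ℝ) (hμ : 0 < μ)
    (hS : ∀ w : F, w ≠ 0 → (∀ i, ∃ k : ℤ, Algebra.trace ℚ F (w * b i) = k) → μ ^ 2 ≤ RD.Ms w)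
    (hz : 2 < Real.exp (2 * z) * μ ^ 2) (v : EK F) :
    |ths z (fun i => ev (b i)) v - Real.exp (z * m) / Real.sqrt (gd fun i => ev (b i))| ≤
      Real.exp (z * m) / Real.sqrt (gd fun i => ev (b i)) * (4 ^ finrank ℚ F *
        Real.exp (-(Real.pi / 2 * finrank ℚ F * (Real.exp (2 * z) * μ ^ 2)))) := by
  obtain ⟨q, hq, hqb, hd⟩ := exists_dual hF hEVB b hb hm
  have hlin : LinearIndependent ℝ fun i => ev (b i) := (((hEVB F hF).1 m b).1).1 hb
  have hv : v ∈ Rs (fun i => ev (b i)) := by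
    rw [Rs_top hF hEVB b hb hm]
    trivial
  obtain ⟨t, ht⟩ := (Submodule.mem_span_range_iff_exists_fun ℝ).1 hv
  have h1 := hPOI _ m _ _ z t hlin hd
  rw [ht] at h1
  have h2 := tail hF hGSM hEVB hRHB hCUB q hq μ z hμ (fun w hw hw0 => hS w hw0 fun i => ?_) hz t
  · rw [h1]
    set c : ℝ := Real.exp (z * m) / Real.sqrt (gd fun i => ev (b i)) with hc
    have hc0 : 0 ≤ c := by positivity
    have e : ∀ x : ℝ, c * x - c = c * (x - 1) := fun x => by ring
    rw [e, abs_mul, abs_of_nonneg hc0]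
    exact mul_le_mul_of_nonneg_left h2 hc0
  · refine Submodule.span_induction (p := fun w _ => ∃ k : ℤ, Algebra.trace ℚ F (w * b i) = k)
      ?_ ?_ ?_ ?_ hw
    · rintro _ ⟨j, rfl⟩
      rw [hqb]
      by_cases h : j = i
      · exact ⟨1, by simp [h]⟩
      · exact ⟨0, by simp [h]⟩
    · exact ⟨0, by simp⟩
    · rintro x y _ _ ⟨k, hk⟩ ⟨l, hl⟩
      exact ⟨k + l, by rw [add_mul, map_add, hk, hl]; push_cast; rfl⟩
    · rintro a x _ ⟨k, hk⟩
      exact ⟨a * k, by rw [smul_mul_assoc, map_zsmul, hk]; simp⟩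

end Tail

/-- a basis of an ideal, as a family in the field -/
theorem ideal_basis (I : Ideal (𝓞 F)) (hI : I ≠ ⊥) : ∃ b : Fin (finrank ℚ F) → F,
    LinearIndependent ℚ b ∧
    ∀ x : F, x ∈ Submodule.span ℤ (Set.range b) ↔ ∃ y ∈ I, (y : F) = x := by
  let B : Basis (Fin (finrank ℚ F)) ℤ (𝓞 F) :=
    Module.finBasisOfFinrankEq ℤ (𝓞 F) (RingOfIntegers.rank F)
  let S := Ideal.selfBasis B I hI
  let f : I →ₗ[ℤ] F := ((Algebra.linearMap (𝓞 F) F).restrictScalars ℤ).comp
    (I.subtype.restrictScalars ℤ)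
  have hf : ∀ x : I, f x = ((x : 𝓞 F) : F) := fun x => rfl
  have hinj : Function.Injective f := by
    intro x y hxy
    rw [hf, hf] at hxy
    exact Subtype.ext (RingOfIntegers.coe_injective hxy)
  refine ⟨fun i => f (S i), ?_, fun x => ?_⟩
  · rw [← LinearIndependent.iff_fractionRing ℤ ℚ]
    exact S.linearIndependent.map' f (LinearMap.ker_eq_bot.2 hinj)
  · have e : Submodule.span ℤ (Set.range fun i => f (S i)) = LinearMap.range f := by
      rw [← Submodule.map_top, ← S.span_eq, Submodule.map_span, ← Set.range_comp]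
      rfl
    rw [e, LinearMap.mem_range]
    constructor
    · rintro ⟨y, rfl⟩
      exact ⟨y, y.2, rfl⟩
    · rintro ⟨y, hy, rfl⟩
      exact ⟨⟨y, hy⟩, rfl⟩

theorem gd_pos {E : Type} [NormedAddCommGroup E] [InnerProductSpace ℝ E] {m : ℕ} {b : Fin m → E}
    (hb : LinearIndependent ℝ b) : 0 < gd b :=
  (Matrix.posDef_gram_iff_linearIndependent.2 hb).det_pos

/-- Poisson summation for an ideal -/
theorem pois_ideal (hF : RD.TR F) (hGSM : SpecGSM) (hEVB : SpecEVB) (hRHB : SpecRHB)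
    (hCUB : SpecCUB) (hPOI : SpecPOI) (I : Ideal (𝓞 F)) (hI : I ≠ ⊥) (n : ℕ)
    (hn : n = finrank ℚ F) :
    ∃ b : Fin n → F, LinearIndependent ℚ b ∧
      (∀ x : F, x ∈ Submodule.span ℤ (Set.range b) ↔ ∃ y ∈ I, (y : F) = x) ∧
      ∃ Δ : ℝ, 0 < Δ ∧ Δ = Real.sqrt (gd fun i => ev (b i)) ∧
      ∀ z : ℝ, 2 < Real.exp (2 * z) * mu I ^ 2 → ∀ v : EK F,
      |ths z (fun i => ev (b i)) v - Real.exp (z * n) / Δ| ≤
      Real.exp (z * n) / Δ * (4 ^ n *
        Real.exp (-(Real.pi / 2 * n * (Real.exp (2 * z) * mu I ^ 2)))) := by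
  subst hn
  obtain ⟨b, hb, hbI⟩ := ideal_basis I hI
  have hlin : LinearIndependent ℝ fun i => ev (b i) := (((hEVB F hF).1 _ b).1).1 hb
  refine ⟨b, hb, hbI, _, Real.sqrt_pos.2 (gd_pos hlin), rfl, fun z hz v => ?_⟩
  refine pois hF hGSM hEVB hRHB hCUB hPOI b hb rfl (mu I) z (mu_pos hI) (fun w hw h => ?_) hz v
  refine Ms_dual hI w hw fun x hx => ?_
  have hx' : (x : F) ∈ Submodule.span ℤ (Set.range b) := (hbI _).2 ⟨x, hx, rfl⟩
  refine Submodule.span_induction (p := fun y _ => ∃ k : ℤ, Algebra.trace ℚ F (w * y) = k)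
      ?_ ?_ ?_ ?_ hx'
  · rintro _ ⟨j, rfl⟩
    exact h j
  · exact ⟨0, by simp⟩
  · rintro x y _ _ ⟨k, hk⟩ ⟨l, hl⟩
    exact ⟨k + l, by rw [mul_add, map_add, hk, hl]; push_cast; rfl⟩
  · rintro a x _ ⟨k, hk⟩
    exact ⟨a * k, by rw [mul_smul_comm, map_zsmul, hk]; simp⟩

end Pool.Agent.Lib.MPcb8a44.RC.CVRM
end

section
set_option autoImplicit false

open NumberField Module

namespace Pool.Agent.Lib.MPcb8a44.RC

namespace CVRM

theorem exp_neg_le (k : ℕ) (x : ℝ) (hx : (k : ℝ) ≤ x) : Real.exp (-x) ≤ (37 / 100 : ℝ) ^ k := by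
  calc Real.exp (-x) ≤ Real.exp (-(k : ℝ)) := Real.exp_le_exp.2 (by linarith)
    _ = Real.exp (-1) ^ k := by rw [← Real.exp_nat_mul]; congr 1; ring
    _ ≤ (37 / 100 : ℝ) ^ k := by
      refine pow_le_pow_left₀ (Real.exp_pos _).le ?_ k
      have := Real.exp_neg_one_lt_d9
      linarith

theorem pow_le_quarter (x : ℝ) (n : ℕ) (hn : 1 ≤ n) (h0 : 0 ≤ x) (hx : x ≤ 1 / 4) :
    x ^ n ≤ 1 / 4 := by
  calc x ^ n ≤ x ^ 1 := pow_le_pow_of_le_one h0 (by linarith) hn
    _ ≤ 1 / 4 := by simpa using hx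

end CVRM

open CVRM in
theorem specCVR (hGSM : SpecGSM) (hEVB : SpecEVB) (hRHB : SpecRHB) (hCUB : SpecCUB)
    (hPOI : SpecPOI) : SpecCVR := by
  intro F _ _ hF I v hI
  obtain ⟨n, hn⟩ : ∃ n : ℕ, n = finrank ℚ F := ⟨_, rfl⟩
  obtain ⟨b, hb, hbI, Δ, hΔ, -, hP⟩ := pois_ideal hF hGSM hEVB hRHB hCUB hPOI I hI n hn
  rw [← hn]
  have hn1 : 1 ≤ n := by
    rw [hn]
    exact RD.d_pos
  have hnR : (1 : ℝ) ≤ n := by exact_mod_cast hn1
  have hμ := mu_pos hI
  set μ : ℝ := mu I with hμd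
  have hpi := Real.pi_gt_three
  have hlin : LinearIndependent ℝ fun i => ev (b i) := (((hEVB F hF).1 _ b).1).1 hb
  have hzc := (((hEVB F hF).1 _ b).2.2.2)
  have hgoal : 6 / μ ^ 2 =
      6 * (Ideal.absNorm I : ℝ) ^ ((2 : ℝ) / n) * Real.exp (2 * LD F) := by
    have hN := absNorm_pos hI
    have e1 : ((Ideal.absNorm I : ℝ) ^ (-(1 : ℝ) / n)) ^ 2 * (Ideal.absNorm I : ℝ) ^ ((2 : ℝ) / n)
        = 1 := by
      rw [← Real.rpow_natCast, ← Real.rpow_mul hN.le, ← Real.rpow_add hN]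
      have : -(1 : ℝ) / n * ((2 : ℕ) : ℝ) + 2 / n = 0 := by
        push_cast
        ring
      rw [this, Real.rpow_zero]
    have e2 : Real.exp (-LD F) ^ 2 * Real.exp (2 * LD F) = 1 := by
      rw [← Real.exp_nat_mul, ← Real.exp_add]
      simp
    rw [div_eq_iff (by positivity), hμd]
    unfold mu
    rw [mul_pow, ← hn]
    calc (6 : ℝ) = 6 * (((Ideal.absNorm I : ℝ) ^ (-(1 : ℝ) / n)) ^ 2 *
          (Ideal.absNorm I : ℝ) ^ ((2 : ℝ) / n)) * (Real.exp (-LD F) ^ 2 * Real.exp (2 * LD F)) := by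
            rw [e1, e2]; norm_num
      _ = _ := by ring
  rw [← hgoal]
  by_contra hcon
  push Not at hcon
  -- the two scales
  set z : ℝ := Real.log 3 / 2 - Real.log μ with hz
  set z₂ : ℝ := z + Real.log 2 / 2 with hz₂
  have ez : Real.exp (2 * z) = 3 / μ ^ 2 := by
    have : 2 * z = Real.log 3 - (2 : ℕ) * Real.log μ := by rw [hz]; push_cast; ring
    rw [this, Real.exp_sub, Real.exp_log (by norm_num), Real.exp_nat_mul, Real.exp_log hμ]
  have ez₂ : Real.exp (2 * z₂) = 6 / μ ^ 2 := by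
    have : 2 * z₂ = Real.log 2 + 2 * z := by rw [hz₂]; ring
    rw [this, Real.exp_add, Real.exp_log (by norm_num), ez]
    ring
  have h1 : Real.exp (2 * z) * μ ^ 2 = 3 := by
    rw [ez]
    exact div_mul_cancel₀ _ (by positivity)
  have h2 : Real.exp (2 * z₂) * μ ^ 2 = 6 := by
    rw [ez₂]
    exact div_mul_cancel₀ _ (by positivity)
  have hP1 := hP z (by rw [h1]; norm_num) (ev v)
  have hP2 := hP z₂ (by rw [h2]; norm_num) (ev v)
  rw [h1] at hP1
  rw [h2] at hP2
  set E : ℝ := Real.exp (z * n) / Δ with hE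
  have hE0 : 0 < E := by positivity
  have hE2 : Real.exp (z₂ * n) / Δ = E * Real.exp (Real.log 2 / 2 * n) := by
    rw [hz₂, add_mul, Real.exp_add, hE]
    ring
  rw [hE2] at hP2
  -- numerical facts
  have q1 : (4 : ℝ) ^ n * Real.exp (-(Real.pi / 2 * n * 3)) ≤ 1 / 4 := by
    have : (4 : ℝ) ^ n * Real.exp (-(Real.pi / 2 * n * 3)) =
        (4 * Real.exp (-(Real.pi / 2 * 3))) ^ n := by
      rw [mul_pow, ← Real.exp_nat_mul]
      congr 2
      ring
    rw [this]
    refine pow_le_quarter _ n hn1 (by positivity) ?_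
    have := exp_neg_le 4 (Real.pi / 2 * 3) (by push_cast; linarith)
    norm_num at this
    linarith
  have q2 : (4 : ℝ) ^ n * Real.exp (-(Real.pi / 2 * n * 6)) ≤ 1 / 4 := by
    refine le_trans ?_ q1
    gcongr
    norm_num
  have q3 : Real.exp (-(Real.pi * n)) * Real.exp (Real.log 2 / 2 * n) ≤ 1 / 4 := by
    have : Real.exp (-(Real.pi * n)) * Real.exp (Real.log 2 / 2 * n) =
        (Real.exp (-(Real.pi - Real.log 2 / 2))) ^ n := by
      rw [← Real.exp_nat_mul, ← Real.exp_add]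
      congr 1
      ring
    rw [this]
    refine pow_le_quarter _ n hn1 (by positivity) ?_
    have h3 := Real.log_two_lt_d9
    refine (exp_neg_le 2 (Real.pi - Real.log 2 / 2) (by push_cast; linarith)).trans ?_
    norm_num
  -- comparison of the terms
  have hterm : ∀ k : Fin n → ℤ,
      Real.exp (-(Real.pi * Real.exp (-2 * z) * ‖ev v + zc (fun i => ev (b i)) k‖ ^ 2)) ≤
      Real.exp (-(Real.pi * n)) *
      Real.exp (-(Real.pi * Real.exp (-2 * z₂) * ‖ev v + zc (fun i => ev (b i)) k‖ ^ 2)) := by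
    intro k
    rw [← Real.exp_add]
    apply Real.exp_le_exp.2
    have hmem : -(∑ i, k i • b i) ∈ Submodule.span ℤ (Set.range b) :=
      Submodule.neg_mem _ (Submodule.sum_mem _ fun i _ =>
        Submodule.smul_mem _ _ (Submodule.subset_span ⟨i, rfl⟩))
    obtain ⟨y, hy, hyk⟩ := (hbI _).1 hmem
    have h3 := hcon y hy
    have h4 : ev v + zc (fun i => ev (b i)) k = ev (v - (y : F)) := by
      rw [hzc, ← ev_add, hyk, sub_neg_eq_add]
    rw [h4, norm_ev_sq hF, ← hn]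
    have e1 : Real.exp (-2 * z) = μ ^ 2 / 3 := by
      have : -2 * z = -(2 * z) := by ring
      rw [this, Real.exp_neg, ez, inv_div]
    have e2 : Real.exp (-2 * z₂) = μ ^ 2 / 6 := by
      have : -2 * z₂ = -(2 * z₂) := by ring
      rw [this, Real.exp_neg, ez₂, inv_div]
    rw [e1, e2]
    have h5 : 6 < RD.Ms (v - (y : F)) * μ ^ 2 := by
      rwa [div_lt_iff₀ (by positivity)] at h3
    have h6 : Real.pi * n * 6 ≤ Real.pi * n * (RD.Ms (v - (y : F)) * μ ^ 2) := by
      gcongr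
    nlinarith
  have hs1 := GTHM.summ hGSM hlin z (ev v)
  have hs2 := GTHM.summ hGSM hlin z₂ (ev v)
  have hle : ths z (fun i => ev (b i)) (ev v) ≤
      Real.exp (-(Real.pi * n)) * ths z₂ (fun i => ev (b i)) (ev v) := by
    unfold ths
    rw [← tsum_mul_left]
    exact Summable.tsum_le_tsum hterm hs1 (hs2.mul_left _)
  have h7 := (abs_le.1 hP1).1
  have h8 := (abs_le.1 hP2).2
  set c1 : ℝ := (4 : ℝ) ^ n * Real.exp (-(Real.pi / 2 * n * 3)) with hc1
  set c2 : ℝ := (4 : ℝ) ^ n * Real.exp (-(Real.pi / 2 * n * 6)) with hc2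
  have h9 : E * (3 / 4) ≤ ths z (fun i => ev (b i)) (ev v) := by
    have : E * c1 ≤ E * (1 / 4) := mul_le_mul_of_nonneg_left q1 hE0.le
    linarith
  have h10 : ths z₂ (fun i => ev (b i)) (ev v) ≤ E * Real.exp (Real.log 2 / 2 * n) * (5 / 4) := by
    have : E * Real.exp (Real.log 2 / 2 * n) * c2 ≤ E * Real.exp (Real.log 2 / 2 * n) * (1 / 4) :=
      mul_le_mul_of_nonneg_left q2 (by positivity)
    linarith
  have h11 : E * (3 / 4) ≤ E * (5 / 16) := by
    calc E * (3 / 4) ≤ _ := h9.trans hle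
      _ ≤ Real.exp (-(Real.pi * n)) * (E * Real.exp (Real.log 2 / 2 * n) * (5 / 4)) := by gcongr
      _ = (Real.exp (-(Real.pi * n)) * Real.exp (Real.log 2 / 2 * n)) * (E * (5 / 4)) := by ring
      _ ≤ 1 / 4 * (E * (5 / 4)) := by gcongr
      _ = _ := by ring
  linarith

end Pool.Agent.Lib.MPcb8a44.RC
end

section
/-!
# FPS: one more product
-/
set_option autoImplicit false

open NumberField Module

namespace Pool.Agent.Lib.MPcb8a44.RC

namespace FPSM

variable {K : Type} [Field K] [NumberField K]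

theorem dim_orth (x : K) (hx : x ≠ 0) (V W : Submodule ℚ K)
    (h : ∀ u ∈ W, ∀ v ∈ V, Algebra.trace ℚ K (x * (u * v)) = 0) :
    finrank ℚ W + finrank ℚ V ≤ finrank ℚ K := by
  have h1 := LinearMap.BilinForm.finrank_orthogonal (traceForm_nondegenerate ℚ K) V
  have h2 : W.map (LinearMap.mulLeft ℚ x) ≤ (Algebra.traceForm ℚ K).orthogonal V := by
    rintro _ ⟨u, hu, rfl⟩
    rw [LinearMap.BilinForm.mem_orthogonal_iff]
    intro v hv
    change Algebra.traceForm ℚ K v (x * u) = 0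
    rw [Algebra.traceForm_apply, show v * (x * u) = x * (u * v) by ring]
    exact h u hu v hv
  have hinj : Function.Injective (LinearMap.mulLeft ℚ x) := by
    intro a b hab
    exact mul_left_cancel₀ hx hab
  have h3 : finrank ℚ (W.map (LinearMap.mulLeft ℚ x)) = finrank ℚ W :=
    (Submodule.equivMapOfInjective _ hinj W).finrank_eq.symm
  have h4 := Submodule.finrank_mono h2
  have h5 := V.finrank_le
  omega

/-- the annihilator -/
def UX (x : K) (V U : Submodule ℚ K) : Submodule ℚ K where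
  carrier := {u | u ∈ U ∧ ∀ v ∈ V, Algebra.trace ℚ K (x * (u * v)) = 0}
  add_mem' := by
    rintro a b ⟨ha, ha'⟩ ⟨hb, hb'⟩
    refine ⟨U.add_mem ha hb, fun v hv => ?_⟩
    rw [add_mul, mul_add, map_add, ha' v hv, hb' v hv, add_zero]
  zero_mem' := ⟨U.zero_mem, fun v _ => by simp⟩
  smul_mem' := by
    rintro q a ⟨ha, ha'⟩
    refine ⟨U.smul_mem q ha, fun v hv => ?_⟩
    rw [smul_mul_assoc, mul_smul_comm, map_smul, ha' v hv, smul_zero]

theorem mem_UX {x u : K} {V U : Submodule ℚ K} :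
    u ∈ UX x V U ↔ u ∈ U ∧ ∀ v ∈ V, Algebra.trace ℚ K (x * (u * v)) = 0 := Iff.rfl

theorem mem_cod_sup {A V : Submodule ℚ K} {x u : K} (hx : x ∈ cod A) :
    x ∈ cod (A ⊔ sc u V) ↔ ∀ v ∈ V, Algebra.trace ℚ K (x * (u * v)) = 0 := by
  constructor
  · intro h v hv
    exact h.2 _ ((le_sup_right : sc u V ≤ A ⊔ sc u V) (mem_sc.2 ⟨v, hv, rfl⟩))
  · intro h
    refine ⟨hx.1, fun a ha => ?_⟩
    obtain ⟨b, hb, c, hc, rfl⟩ := Submodule.mem_sup.1 ha
    obtain ⟨v, hv, rfl⟩ := mem_sc.1 hc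
    rw [mul_add, map_add, hx.2 b hb, h v hv, add_zero]

theorem cod_anti {A B : Submodule ℚ K} (h : A ≤ B) : cod B ≤ cod A :=
  fun _ hx => ⟨hx.1, fun a ha => hx.2 a (h ha)⟩

theorem lat_fg (hLTB : SpecLTB) (hK : RD.TR K) (A : Submodule ℚ K) : (lat A).FG := by
  obtain ⟨n, b, hb⟩ := (hLTB K hK).2.1 A
  have h1 : lat A = Submodule.span ℤ (Set.range b) := by
    apply le_antisymm
    · exact hb.gen
    · rw [Submodule.span_le]
      rintro _ ⟨i, rfl⟩
      exact hb.mem i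
  rw [h1]
  exact Submodule.fg_span (Set.finite_range b)

theorem sc_zero (V : Submodule ℚ K) : sc (0 : K) V = ⊥ := by
  rw [eq_bot_iff]
  intro x hx
  obtain ⟨a, -, rfl⟩ := mem_sc.1 hx
  rw [zero_mul]
  exact Submodule.zero_mem _

theorem psi_bot (hLTB : SpecLTB) (hK : RD.TR K) (y : ℝ) : psi y (⊥ : Submodule ℚ K) = 0 := by
  obtain ⟨n, b, hb⟩ := (hLTB K hK).2.1 ⊥
  obtain ⟨hn, -, hD, -⟩ := (hLTB K hK).2.2.1 ⊥ n b hb
  rw [finrank_bot] at hn
  subst hn
  unfold psi
  rw [hD, finrank_bot]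
  unfold gk gd
  simp

/-- double counting -/
theorem count {w : K → ℝ} (hw : ∀ x, 0 ≤ w x) (hw0 : w 0 = 1) (A : Submodule ℚ K)
    (N : K → Submodule ℚ K) (S : Finset K) (hN : ∀ u ∈ S, A ≤ N u)
    (hs : Summable fun x : cod A => w x) (E P : ℝ)
    (hE : ∀ u ∈ S, E + 1 ≤ ∑' x : cod (N u), w x)
    (hP : ∀ x ∈ cod A, x ≠ 0 → ∀ T : Finset K, (∀ u ∈ T, u ∈ S ∧ x ∈ cod (N u)) →
      (T.card : ℝ) ≤ P) (hP0 : 0 ≤ P) :
    S.card * E ≤ P * ∑' x : cod A, w x := by
  classical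
  have hsA : Summable (Set.indicator (cod A : Set K) w) := summable_subtype_iff_indicator.1 hs
  have htA : ∑' x : cod A, w x = ∑' x : K, Set.indicator (cod A : Set K) w x :=
    tsum_subtype (cod A : Set K) w
  have hsu : ∀ u ∈ S, Summable (Set.indicator (cod (N u) : Set K) w) := by
    intro u hu
    refine Summable.of_nonneg_of_le (fun x => ?_) (fun x => ?_) hsA
    · exact Set.indicator_nonneg (fun x _ => hw x) x
    · exact Set.indicator_le_indicator_of_subset (cod_anti (hN u hu)) (fun x => hw x) x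
  have htu : ∀ u, ∑' x : cod (N u), w x = ∑' x : K, Set.indicator (cod (N u) : Set K) w x :=
    fun u => tsum_subtype (cod (N u) : Set K) w
  have h0mem : ∀ u, Set.indicator (cod (N u) : Set K) w 0 = 1 := by
    intro u
    rw [Set.indicator_of_mem, hw0]
    exact (cod (N u)).zero_mem
  have hF : ∀ u ∈ S, Summable fun x : K => if x = 0 then 0 else
      Set.indicator (cod (N u) : Set K) w x := by
    intro u hu
    refine Summable.of_nonneg_of_le (fun x => ?_) (fun x => ?_) (hsu u hu)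
    · split_ifs
      · exact le_rfl
      · exact Set.indicator_nonneg (fun x _ => hw x) x
    · split_ifs
      · exact Set.indicator_nonneg (fun x _ => hw x) x
      · exact le_rfl
  have hFE : ∀ u ∈ S, E ≤ ∑' x : K, (if x = 0 then 0 else
      Set.indicator (cod (N u) : Set K) w x) := by
    intro u hu
    have h1 := (hsu u hu).tsum_eq_add_tsum_ite 0
    rw [h0mem u] at h1
    have h2 := hE u hu
    rw [htu u, h1] at h2
    linarith
  have h1 : S.card * E ≤ ∑ u ∈ S, ∑' x : K, (if x = 0 then 0 else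
      Set.indicator (cod (N u) : Set K) w x) := by
    rw [← nsmul_eq_mul]
    exact Finset.card_nsmul_le_sum _ _ _ hFE
  refine h1.trans ?_
  rw [← Summable.tsum_finsetSum hF, htA, ← tsum_mul_left]
  refine Summable.tsum_le_tsum (fun x => ?_) (summable_sum hF) (hsA.mul_left P)
  by_cases hx0 : x = 0
  · simp only [hx0, if_true, Finset.sum_const_zero]
    exact mul_nonneg hP0 (Set.indicator_nonneg (fun x _ => hw x) _)
  · simp only [hx0, if_false]
    by_cases hxA : x ∈ cod A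
    · have h2 : ∀ u ∈ S, Set.indicator (cod (N u) : Set K) w x =
          if x ∈ cod (N u) then w x else 0 := by
        intro u _
        rw [Set.indicator_apply]
        rfl
      rw [Finset.sum_congr rfl h2, ← Finset.sum_filter, Finset.sum_const, nsmul_eq_mul,
        Set.indicator_of_mem (show x ∈ (cod A : Set K) from hxA)]
      refine mul_le_mul_of_nonneg_right ?_ (hw x)
      exact hP x hxA hx0 _ fun u hu => Finset.mem_filter.1 hu
    · have h2 : ∀ u ∈ S, Set.indicator (cod (N u) : Set K) w x = 0 := by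
        intro u hu
        exact Set.indicator_of_notMem (fun h => hxA (cod_anti (hN u hu) h)) _
      rw [Finset.sum_congr rfl h2, Finset.sum_const_zero]
      exact mul_nonneg hP0 (Set.indicator_nonneg (fun x _ => hw x) _)

end FPSM

open FPSM in
theorem specFPS (hTQM : SpecTQM) (hCDM : SpecCDM) (hMAB : SpecMAB) (hCUB : SpecCUB)
    (hLTB : SpecLTB) : SpecFPS := by
  intro C hC hRM K _ _ hK x y T δ ρ hx hy hδ hδ1 hT hρ hρT hdim A hA hAd
  classical
  by_contra hcon
  push Not at hcon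
  have hd1 : (1 : ℝ) ≤ finrank ℚ K := by exact_mod_cast RD.d_pos
  obtain ⟨d, hd⟩ : ∃ d : ℝ, d = finrank ℚ K := ⟨_, rfl⟩
  have hCpos : 0 < C := by linarith
  have hc0 : 0 ≤ Real.log C := Real.log_nonneg hC
  have hCexp : Real.exp (Real.log C) = C := Real.exp_log hCpos
  obtain ⟨c₀, hc₀⟩ : ∃ c₀ : ℝ, c₀ = Real.log C := ⟨_, rfl⟩
  rw [← hc₀] at hT hρT hc0 hCexp
  have hT0 : 0 < T := by
    by_contra hcon2
    have h1 : δ * T ≤ 0 := mul_nonpos_of_nonneg_of_nonpos hδ.le (not_lt.1 hcon2)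
    linarith
  have hδT : δ * T ≤ T := by
    have h1 : δ * T ≤ 1 * T := mul_le_mul_of_nonneg_right hδ1 hT0.le
    linarith
  obtain ⟨m, hm⟩ : ∃ m : ℝ, m = x + y + T := ⟨_, rfl⟩
  have hm0 : 0 ≤ m := by linarith
  obtain ⟨σ, hσ⟩ : ∃ σ : ℝ, σ = (2 * m + 2) / δ := ⟨_, rfl⟩
  have hσδ : σ * δ = 2 * m + 2 := by rw [hσ, div_mul_cancel₀ _ hδ.ne']
  have hσ0 : 0 ≤ σ := by rw [hσ]; exact div_nonneg (by linarith) hδ.le
  have hQρ : (c₀ + (σ + m)) * ρ ≤ δ * T := by
    have h1 : δ * ((c₀ + (σ + m)) * ρ) ≤ δ * (δ * T) := by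
      have h2 : δ * (c₀ + (σ + m)) ≤ 3 * m + 2 + c₀ := by
        have h3 : δ * (c₀ + m) ≤ 1 * (c₀ + m) := mul_le_mul_of_nonneg_right hδ1 (by linarith)
        have h4 : δ * (c₀ + (σ + m)) = σ * δ + δ * (c₀ + m) := by ring
        rw [h4, hσδ]
        linarith
      have h5 : δ * (c₀ + (σ + m)) * ρ ≤ (3 * m + 2 + c₀) * ρ :=
        mul_le_mul_of_nonneg_right h2 hρ.le
      have h6 : (3 * m + 2 + c₀) * ρ = ρ * (3 * (x + y + T) + 2 + c₀) := by rw [hm]; ring
      have h7 : δ * ((c₀ + (σ + m)) * ρ) = δ * (c₀ + (σ + m)) * ρ := by ring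
      have h8 : δ * (δ * T) = δ ^ 2 * T := by ring
      rw [h7, h8]
      linarith
    exact le_of_mul_le_mul_left h1 hδ
  have hQ0 : 0 ≤ c₀ + (σ + m) := by linarith
  -- (i) the total mass
  obtain ⟨hfg, hsum, hR⟩ := hCDM K hK A σ
  have hpsi : Real.log (Dt A) / 2 ≤ m * d := by
    have h1 := hA ⊥ bot_le
    rw [psi_bot hLTB hK] at h1
    unfold psi at h1
    rw [← hm] at h1
    have h2 : (finrank ℚ A : ℝ) ≤ d := by rw [hd]; exact_mod_cast A.finrank_le
    have h3 : m * (finrank ℚ A : ℝ) ≤ m * d := mul_le_mul_of_nonneg_left h2 hm0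
    linarith
  have hRlow : Real.exp ((m + 2) * d) ≤ rh σ (cod A) := by
    refine le_trans (Real.exp_le_exp.2 ?_) hR
    rw [← hd] at hAd ⊢
    have h1 : σ * (δ * d) ≤ σ * (d - finrank ℚ A) := mul_le_mul_of_nonneg_left (by linarith) hσ0
    have h2 : σ * (δ * d) = (2 * m + 2) * d := by rw [← hσδ]; ring
    linarith
  -- the masses of the smaller lattices
  have hexpQ : C * Real.exp (σ + (y + T) + x) = Real.exp (c₀ + (σ + m)) := by
    rw [← hCexp, ← Real.exp_add, hm]
    congr 1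
    ring
  have hmass : ∀ u ∈ Bh (HV K y) (Real.exp (y + T)),
      rh σ (cod A) ≤ rh σ (cod (A ⊔ sc u (HV K x))) * Real.exp (δ * T * d) := by
    intro u hu
    by_cases hu0 : u = 0
    · have h1 : A ⊔ sc u (HV K x) = A := by rw [hu0, sc_zero, sup_bot_eq]
      rw [h1]
      have h2 : (1 : ℝ) ≤ Real.exp (δ * T * d) := Real.one_le_exp (by
        rw [hd]
        have h3 := mul_pos hδ hT0
        positivity)
      have h3 : 0 < rh σ (cod A) := (Real.exp_pos _).trans_le hRlow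
      calc rh σ (cod A) = rh σ (cod A) * 1 := (mul_one _).symm
        _ ≤ _ := mul_le_mul_of_nonneg_left h2 h3.le
    · have h1 := hTQM C hC hRM K hK A u x σ (y + T) hu0 hu.1.2 hu.2 (by linarith)
      rw [hexpQ, ← Real.exp_nat_mul] at h1
      have hdimu := hcon u hu hu0
      have h2 : ((finrank ℚ (A ⊔ sc u (HV K x) : Submodule ℚ K) - finrank ℚ A : ℕ) : ℝ) ≤
          ρ * d := by
        have h3 : finrank ℚ A ≤ finrank ℚ (A ⊔ sc u (HV K x) : Submodule ℚ K) :=
          Submodule.finrank_mono le_sup_left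
        rw [Nat.cast_sub h3, hd]
        linarith
      have h4 : 0 ≤ rh σ (cod (A ⊔ sc u (HV K x))) := tsum_nonneg fun x => (Real.exp_pos _).le
      refine h1.trans (mul_le_mul_of_nonneg_left (Real.exp_le_exp.2 ?_) h4)
      have h5 : ((finrank ℚ (A ⊔ sc u (HV K x) : Submodule ℚ K) - finrank ℚ A : ℕ) : ℝ) *
          (c₀ + (σ + m)) ≤ ρ * d * (c₀ + (σ + m)) := mul_le_mul_of_nonneg_right h2 hQ0
      have h6 : ρ * d * (c₀ + (σ + m)) = (c₀ + (σ + m)) * ρ * d := by ring
      have h7 : (c₀ + (σ + m)) * ρ * d ≤ δ * T * d :=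
        mul_le_mul_of_nonneg_right hQρ (by rw [hd]; linarith)
      linarith
  -- the finite set
  have hfgU := lat_fg hLTB hK (HV K y)
  obtain ⟨hSfin, -, hScard⟩ := hCUB K hK (lat (HV K y)) (y + T) hfgU
  have hSmem : ∀ u, u ∈ hSfin.toFinset ↔ u ∈ Bh (HV K y) (Real.exp (y + T)) := by
    intro u
    rw [Set.Finite.mem_toFinset]
    rfl
  rw [Set.ncard_eq_toFinset_card _ hSfin] at hScard
  generalize hSdef : hSfin.toFinset = S at hSmem hScard
  have hS1 : (1 : ℝ) ≤ S.card := by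
    have h1 : (0 : K) ∈ S := (hSmem 0).2 ⟨(lat (HV K y)).zero_mem, by
      rw [(RD.hs_eq_zero (x := (0 : K))).2 rfl]
      exact (Real.exp_pos _).le⟩
    exact_mod_cast Finset.card_pos.2 ⟨0, h1⟩
  -- the count
  obtain ⟨P, hPdef⟩ : ∃ P : ℝ, P = Real.exp (Real.pi * d) * (C ^ finrank ℚ K *
      Real.exp (-(T * (2 * δ * d))) * (4 ^ finrank ℚ K * S.card)) := ⟨_, rfl⟩
  have hP0 : 0 ≤ P := by
    rw [hPdef]
    exact mul_nonneg (Real.exp_pos _).le (mul_nonneg (mul_nonneg (pow_nonneg hCpos.le _)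
      (Real.exp_pos _).le) (mul_nonneg (pow_nonneg (by norm_num) _) (Nat.cast_nonneg _)))
  have hmain := count (w := fun x => Real.exp (-(Real.pi * Real.exp (-2 * σ) * ‖ev (x : K)‖ ^ 2)))
    (fun x => (Real.exp_pos _).le) (by
      rw [ev_zero, norm_zero, zero_pow two_ne_zero, mul_zero, neg_zero, Real.exp_zero])
    A (fun u => A ⊔ sc u (HV K x)) S
    (fun u _ => le_sup_left) hsum (1 / 2 * Real.exp (-(δ * T * d)) * rh σ (cod A)) P ?_ ?_ hP0
  · have hR0 : 0 < rh σ (cod A) := (Real.exp_pos _).trans_le hRlow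
    have h1 : S.card * (1 / 2 * Real.exp (-(δ * T * d)) * rh σ (cod A)) ≤ P * rh σ (cod A) := hmain
    have h2 : S.card * (1 / 2 * Real.exp (-(δ * T * d))) ≤ P := by
      have h3 : (S.card * (1 / 2 * Real.exp (-(δ * T * d)))) * rh σ (cod A) ≤
          P * rh σ (cod A) := by
        calc (S.card * (1 / 2 * Real.exp (-(δ * T * d)))) * rh σ (cod A)
            = S.card * (1 / 2 * Real.exp (-(δ * T * d)) * rh σ (cod A)) := by ring
          _ ≤ _ := h1
      exact le_of_mul_le_mul_right h3 hR0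
    have h4 : 1 / 2 * Real.exp (-(δ * T * d)) ≤ Real.exp (Real.pi * d) * (C ^ finrank ℚ K *
        Real.exp (-(T * (2 * δ * d))) * 4 ^ finrank ℚ K) := by
      have hS0 : (0 : ℝ) < S.card := by linarith
      rw [hPdef] at h2
      have h5 : S.card * (1 / 2 * Real.exp (-(δ * T * d))) ≤ S.card * (Real.exp (Real.pi * d) *
          (C ^ finrank ℚ K * Real.exp (-(T * (2 * δ * d))) * 4 ^ finrank ℚ K)) := by
        refine h2.trans (le_of_eq ?_)
        ring
      exact le_of_mul_le_mul_left h5 hS0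
    have e1 : C ^ finrank ℚ K = Real.exp (d * c₀) := by
      rw [hd, Real.exp_nat_mul, hCexp]
    have e2 : (4 : ℝ) ^ finrank ℚ K = Real.exp (d * (2 * Real.log 2)) := by
      rw [hd, Real.exp_nat_mul]
      congr 1
      rw [two_mul, Real.exp_add, Real.exp_log (by norm_num)]
      norm_num
    have e3 : (1 / 2 : ℝ) = Real.exp (-Real.log 2) := by
      rw [Real.exp_neg, Real.exp_log (by norm_num), one_div]
    rw [e1, e2, e3, ← Real.exp_add, ← Real.exp_add, ← Real.exp_add, ← Real.exp_add,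
      Real.exp_le_exp] at h4
    have hπ := Real.pi_lt_d2
    have hl2 := Real.log_two_lt_d9
    have hl0 := Real.log_nonneg (show (1 : ℝ) ≤ 2 by norm_num)
    have h6 : d * (6 + c₀) ≤ d * (δ * T) :=
      mul_le_mul_of_nonneg_left hT (by rw [hd]; linarith)
    have hd1' : 1 ≤ d := by rw [hd]; exact hd1
    have h7 : Real.pi * d ≤ 3.15 * d := mul_le_mul_of_nonneg_right hπ.le (by linarith)
    have h8 : d * (2 * Real.log 2) ≤ d * (2 * 0.6931471808) :=
      mul_le_mul_of_nonneg_left (by linarith) (by linarith)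
    have h9 : T * (2 * δ * d) = 2 * (d * (δ * T)) := by ring
    have h10 : δ * T * d = d * (δ * T) := by ring
    rw [h9, h10] at h4
    have h11 : d * (6 + c₀) = 6 * d + d * c₀ := by ring
    rw [h11] at h6
    linarith
  · -- the lower bound
    intro u hu
    have h1 := hmass u ((hSmem u).1 hu)
    have h2 : Real.exp (-(δ * T * d)) * rh σ (cod A) ≤ rh σ (cod (A ⊔ sc u (HV K x))) := by
      have h3 := mul_le_mul_of_nonneg_left h1 (Real.exp_pos (-(δ * T * d))).le
      have h4 : Real.exp (-(δ * T * d)) * (rh σ (cod (A ⊔ sc u (HV K x))) *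
          Real.exp (δ * T * d)) = rh σ (cod (A ⊔ sc u (HV K x))) := by
        rw [mul_comm, mul_assoc, ← Real.exp_add, add_neg_cancel, Real.exp_zero, mul_one]
      rwa [h4] at h3
    have h5 : 2 ≤ Real.exp (-(δ * T * d)) * rh σ (cod A) := by
      have h6 : Real.exp (-(δ * T * d)) * Real.exp ((m + 2) * d) ≤
          Real.exp (-(δ * T * d)) * rh σ (cod A) :=
        mul_le_mul_of_nonneg_left hRlow (Real.exp_pos _).le
      refine le_trans ?_ h6
      rw [← Real.exp_add]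
      have hd1' : 1 ≤ d := by rw [hd]; exact hd1
      have h7 : 1 ≤ -(δ * T * d) + (m + 2) * d := by
        have h8 : δ * T * d ≤ T * d := mul_le_mul_of_nonneg_right hδT (by linarith)
        have h9 : T * d ≤ m * d := mul_le_mul_of_nonneg_right (by linarith) (by linarith)
        linarith
      have h8 := Real.add_one_le_exp (-(δ * T * d) + (m + 2) * d)
      linarith
    change 1 / 2 * Real.exp (-(δ * T * d)) * rh σ (cod A) + 1 ≤ rh σ (cod (A ⊔ sc u (HV K x)))
    have h10 : 1 / 2 * Real.exp (-(δ * T * d)) * rh σ (cod A) =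
        1 / 2 * (Real.exp (-(δ * T * d)) * rh σ (cod A)) := by ring
    rw [h10]
    linarith
  · -- the number of parameters
    intro z hz hz0 T' hT'
    have h1 : ∀ u ∈ T', u ∈ lat (UX z (HV K x) (HV K y)) ∧ RD.hs u ≤ Real.exp (y + T) := by
      intro u hu
      obtain ⟨huS, huz⟩ := hT' u hu
      have h2 := (hSmem u).1 huS
      exact ⟨⟨mem_UX.2 ⟨h2.1.1, (mem_cod_sup hz).1 huz⟩, h2.1.2⟩, h2.2⟩
    obtain ⟨hfin, hc1, -⟩ := hCUB K hK (lat (UX z (HV K x) (HV K y))) (y + T)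
      (lat_fg hLTB hK _)
    have h2 : (T'.card : ℝ) ≤ ({u : K | u ∈ lat (UX z (HV K x) (HV K y)) ∧
        RD.hs u ≤ Real.exp (y + T)}.ncard : ℝ) := by
      rw [← Set.ncard_coe_finset]
      exact_mod_cast Set.ncard_le_ncard (fun u hu => h1 u hu) hfin
    have h3 := (hMAB C hC hRM K hK y).2 (UX z (HV K x) (HV K y)) T (fun u hu => hu.1) hT0.le
    have h4 : (finrank ℚ (UX z (HV K x) (HV K y)) : ℝ) + nn K x ≤ d := by
      rw [hd]
      have h5 := dim_orth z hz0 (HV K x) (UX z (HV K x) (HV K y)) (fun u hu => hu.2)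
      unfold nn
      exact_mod_cast h5
    have h5 : 2 * δ * d ≤ (nn K y : ℝ) - finrank ℚ (UX z (HV K x) (HV K y)) := by
      rw [← hd] at hdim
      linarith
    have h6 : Real.exp (-T * ((nn K y : ℝ) - finrank ℚ (UX z (HV K x) (HV K y)))) ≤
        Real.exp (-(T * (2 * δ * d))) := by
      refine Real.exp_le_exp.2 ?_
      have h7 := mul_le_mul_of_nonneg_left h5 hT0.le
      linarith
    have hU0 : 0 ≤ rh (y + T) (lat (HV K y)) := tsum_nonneg fun x => (Real.exp_pos _).le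
    have hCn : 0 ≤ C ^ finrank ℚ K := by positivity
    rw [hPdef]
    refine h2.trans (hc1.trans ?_)
    rw [← hd]
    refine mul_le_mul_of_nonneg_left ?_ (Real.exp_pos _).le
    refine h3.trans ?_
    calc C ^ finrank ℚ K * Real.exp (-T * ((nn K y : ℝ) -
          finrank ℚ (UX z (HV K x) (HV K y)))) * rh (y + T) (lat (HV K y))
        ≤ C ^ finrank ℚ K * Real.exp (-(T * (2 * δ * d))) * rh (y + T) (lat (HV K y)) :=
          mul_le_mul_of_nonneg_right (mul_le_mul_of_nonneg_left h6 hCn) hU0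
      _ ≤ C ^ finrank ℚ K * Real.exp (-(T * (2 * δ * d))) * (4 ^ finrank ℚ K * S.card) :=
          mul_le_mul_of_nonneg_left hScard (mul_nonneg hCn (Real.exp_pos _).le)

end Pool.Agent.Lib.MPcb8a44.RC
end

section
/-!
# Theorem RC, module LOW: the lower bound for the number of differences (helper76)
-/
set_option autoImplicit false

open NumberField Module
open scoped Pointwise

namespace Pool.Agent.Lib.MPcb8a44.RC

namespace LOWM

open RD

section Ranks

variable {K : Type} [Field K] [CharZero K]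

/-- the rank of a finitely generated subgroup is the dimension of its span -/
theorem rank_eq (M : Submodule ℤ K) (hM : M.FG) :
    finrank ℤ M = finrank ℚ (Submodule.span ℚ (M : Set K)) := by
  have : Module.Finite ℤ M := Module.Finite.iff_fg.2 hM
  have : Module.Free ℤ M := inferInstance
  let c := Module.finBasis ℤ M
  have h1 : LinearIndependent ℤ (fun i => (c i : K)) :=
    c.linearIndependent.map' M.subtype (Submodule.ker_subtype M)
  have h2 : LinearIndependent ℚ (fun i => (c i : K)) :=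
    (LinearIndependent.iff_fractionRing ℤ ℚ).1 h1
  have h3 : Submodule.span ℚ (Set.range fun i => (c i : K)) = Submodule.span ℚ (M : Set K) := by
    refine le_antisymm ?_ ?_
    · refine Submodule.span_mono ?_
      rintro _ ⟨i, rfl⟩
      exact (c i).2
    · rw [Submodule.span_le]
      intro x hx
      have h4 := c.sum_repr ⟨x, hx⟩
      have h5 := congrArg (fun z : M => (z : K)) h4
      simp only [Submodule.coe_sum, Submodule.coe_smul] at h5
      rw [← h5]
      refine Submodule.sum_mem _ fun i _ => ?_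
      rw [← Int.cast_smul_eq_zsmul ℚ]
      exact Submodule.smul_mem _ _ (Submodule.subset_span ⟨i, rfl⟩)
  rw [← h3, finrank_span_eq_card h2, Fintype.card_fin]

end Ranks

/-- a finite family of products gives a difference of sums of squares -/
theorem prod_mem {K : Type} [Field K] [NumberField K] (hPRD : SpecPRD) (hK : TR K) {ι : Type}
    [Fintype ι] (X : ℝ) (u v : ι → K) (hu : ∀ i, IsIntegral ℤ (u i) ∧ hs (u i) ≤ Real.exp X)
    (hv : ∀ i, IsIntegral ℤ (v i) ∧ hs (v i) ≤ Real.exp X) :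
    2 * ∑ i, u i * v i ∈ ST K (4 * (Fintype.card ι : ℕ) * Real.exp (2 * X)) -
      ST K (4 * (Fintype.card ι : ℕ) * Real.exp (2 * X)) := by
  classical
  let e := Fintype.equivFin ι
  have h := hPRD K hK (Fintype.card ι) X (fun i => u (e.symm i)) (fun i => v (e.symm i))
    (fun i => hu _) (fun i => hv _)
  rwa [Equiv.sum_comp e.symm (fun i => u i * v i)] at h

/-- the real inequality -/
theorem final {lam lH lB Q r r' d k m₁ m₂ G c c₁ l4 : ℝ} (hk : 0 ≤ k) (hm₁ : 0 ≤ m₁) (hm₂ : 0 ≤ m₂)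
    (hd : 0 ≤ d) (h1 : r * Q - d * c₁ ≤ lH)
    (h2 : k * (m₁ * lH) + r' * (m₁ * Q) ≤ lam + r * k * (m₁ * Q))
    (h3 : G - d * l4 ≤ lB) (hc : c₁ ≤ c) (h4 : l4 ≤ c) :
    m₁ * Q * r' + m₂ * Q * r + G - d * (c * (k * m₁ + m₂ + 1)) ≤ lam + m₂ * lH + lB := by
  have a1 : m₂ * (r * Q - d * c₁) ≤ m₂ * lH := mul_le_mul_of_nonneg_left h1 hm₂
  have a2 : k * m₁ * (r * Q - d * c₁) ≤ k * m₁ * lH :=
    mul_le_mul_of_nonneg_left h1 (mul_nonneg hk hm₁)
  have a3 : d * (k * m₁ + m₂) * c₁ ≤ d * (k * m₁ + m₂) * c :=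
    mul_le_mul_of_nonneg_left hc (mul_nonneg hd (add_nonneg (mul_nonneg hk hm₁) hm₂))
  have a4 : d * l4 ≤ d * c := mul_le_mul_of_nonneg_left h4 hd
  nlinarith

/-- the counting -/
theorem count (d r r' k m₁ m₂ K₀ Hc Λc Bc Ec : ℕ) (C G : ℝ) (hC : 1 ≤ C)
    (hH : ((2 : ℝ) ^ K₀) ^ r ≤ (4 * Real.exp Real.pi * C) ^ d * Hc)
    (hΛ : (Hc ^ m₁) ^ k * ((2 ^ K₀) ^ m₁) ^ r' ≤ Λc * ((2 ^ K₀) ^ m₁) ^ (r * k))
    (hB : Real.exp G ≤ 4 ^ d * (Bc : ℝ)) (hE : Ec = Λc * (Hc ^ m₂ * Bc)) :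
    m₁ * (K₀ * Real.log 2) * r' + m₂ * (K₀ * Real.log 2) * r + G -
      d * ((5 + Real.log C) * (k * m₁ + m₂ + 1)) ≤ Real.log Ec ∧ 0 < Ec := by
  have hπ : Real.pi ≤ 3.2 := by linarith [Real.pi_lt_d2]
  have hl4 : Real.log 4 ≤ 1.4 := by
    have h1 : Real.log 4 = 2 * Real.log 2 := by
      rw [show (4 : ℝ) = 2 ^ 2 by norm_num, Real.log_pow]
      push_cast
      rfl
    linarith [Real.log_two_lt_d9]
  have hlC : 0 ≤ Real.log C := Real.log_nonneg hC
  have hlD : Real.log (4 * Real.exp Real.pi * C) = Real.log 4 + Real.pi + Real.log C := by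
    rw [Real.log_mul (by positivity) (by positivity), Real.log_mul (by norm_num) (by positivity),
      Real.log_exp]
  have hD0 : 0 < 4 * Real.exp Real.pi * C := by positivity
  have hH0 : 0 < Hc := by
    rcases Nat.eq_zero_or_pos Hc with h0 | h0
    · exfalso
      rw [h0, Nat.cast_zero, mul_zero] at hH
      have : (0 : ℝ) < ((2 : ℝ) ^ K₀) ^ r := by positivity
      linarith
    · exact h0
  have hH0' : (0 : ℝ) < Hc := by exact_mod_cast hH0
  have hΛ0 : 0 < Λc := by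
    rcases Nat.eq_zero_or_pos Λc with h0 | h0
    · exfalso
      rw [h0, zero_mul] at hΛ
      have : 0 < (Hc ^ m₁) ^ k * ((2 ^ K₀) ^ m₁) ^ r' := by positivity
      omega
    · exact h0
  have hΛ0' : (0 : ℝ) < Λc := by exact_mod_cast hΛ0
  have hB0 : 0 < Bc := by
    rcases Nat.eq_zero_or_pos Bc with h0 | h0
    · exfalso
      rw [h0, Nat.cast_zero, mul_zero] at hB
      have := Real.exp_pos G
      linarith
    · exact h0
  have hB0' : (0 : ℝ) < Bc := by exact_mod_cast hB0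
  have h1 : (r : ℝ) * (K₀ * Real.log 2) - d * Real.log (4 * Real.exp Real.pi * C) ≤
      Real.log Hc := by
    have h2 := Real.log_le_log (by positivity) hH
    rw [Real.log_pow, Real.log_pow, Real.log_mul (by positivity) hH0'.ne', Real.log_pow] at h2
    linarith
  have h2 : (k : ℝ) * (m₁ * Real.log Hc) + (r' : ℝ) * (m₁ * (K₀ * Real.log 2)) ≤
      Real.log Λc + (r : ℝ) * k * (m₁ * (K₀ * Real.log 2)) := by
    have h3 : (((Hc : ℝ) ^ m₁) ^ k) * ((((2 : ℝ) ^ K₀) ^ m₁) ^ r') ≤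
        (Λc : ℝ) * (((2 : ℝ) ^ K₀) ^ m₁) ^ (r * k) := by
      exact_mod_cast hΛ
    have h4 := Real.log_le_log (by positivity) h3
    rw [Real.log_mul (by positivity) (by positivity), Real.log_mul (by positivity) (by positivity)]
      at h4
    simp only [Real.log_pow] at h4
    push_cast at h4
    exact h4
  have h3 : G - d * Real.log 4 ≤ Real.log Bc := by
    have h6 := Real.log_le_log (Real.exp_pos _) hB
    rw [Real.log_exp, Real.log_mul (by positivity) hB0'.ne', Real.log_pow] at h6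
    linarith
  have hfin := final (c := 5 + Real.log C) (Nat.cast_nonneg k) (Nat.cast_nonneg m₁)
    (Nat.cast_nonneg m₂) (Nat.cast_nonneg d) h1 h2 h3 (by rw [hlD]; linarith) (by linarith)
  refine ⟨hfin.trans (le_of_eq ?_), ?_⟩
  · rw [hE]
    push_cast
    rw [Real.log_mul hΛ0'.ne' (by positivity), Real.log_mul (by positivity) hB0'.ne', Real.log_pow]
    ring
  · rw [hE]
    positivity

end LOWM

open LOWM RD in
theorem specLOW (hRES : SpecRES) (hDGL : SpecDGL) (hCLS : SpecCLS) (hSPL : SpecSPL)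
    (hPRD : SpecPRD) (hCUB : SpecCUB) (hMAA : SpecMAA) (hLTB : SpecLTB) (hCN3 : SpecCN3) :
    SpecLOW := by
  classical
  intro C hC hRM K _ _ hK a y T X K₀ m₁ m₂ k u ha hy hT hX hu hu1 hyX haX hb1 hb2
  set V : Submodule ℚ K := HV K a with hV
  set W : Submodule ℤ K := lat V with hW
  set q : ℕ := 2 ^ K₀ with hq
  have hq1 : 1 ≤ q := Nat.one_le_two_pow
  have hqK : (q : K) = 2 ^ K₀ := by rw [hq]; push_cast; rfl
  have hq0 : (q : K) ≠ 0 := by rw [hqK]; exact pow_ne_zero _ two_ne_zero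
  have hqR : (q : ℝ) = Real.exp (K₀ * Real.log 2) := by
    rw [hq, mul_comm, Real.exp_mul, Real.exp_log two_pos, Real.rpow_natCast]
    push_cast
    rfl
  obtain ⟨H, hH1, hH2, hH3⟩ := hRES C hC hRM K hK a q hq1
  -- the lattice
  obtain ⟨n, b, hb⟩ := (hLTB K hK).2.1 V
  obtain ⟨hn, hspan, _, _⟩ := (hLTB K hK).2.2.1 V n b hb
  have hWb : W = Submodule.span ℤ (Set.range b) := by
    refine le_antisymm (fun x hx => hb.gen x hx) ?_
    rw [Submodule.span_le]
    rintro _ ⟨i, rfl⟩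
    exact hb.mem i
  have hWfg : W.FG := by
    rw [hWb]
    exact Submodule.fg_span (Set.finite_range b)
  have hWV : Submodule.span ℚ (W : Set K) = V := by
    refine le_antisymm ?_ ?_
    · rw [Submodule.span_le]
      intro x hx
      exact (mem_lat.1 hx).1
    · rw [← hspan]
      refine Submodule.span_mono ?_
      rintro _ ⟨i, rfl⟩
      exact hb.mem i
  have hWr : finrank ℤ W = nn K a := by
    rw [rank_eq W hWfg, hWV]
    rfl
  set M : Submodule ℤ K := ⨆ i, W.map (LinearMap.mulLeft ℤ (u i)) with hM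
  have hMfg : M.FG := Submodule.fg_iSup _ fun i => hWfg.map _
  have hMsp : Submodule.span ℚ (M : Set K) = ⨆ i, sc (u i) V := by
    refine le_antisymm ?_ ?_
    · rw [Submodule.span_le]
      have h1 : M ≤ (⨆ i, sc (u i) V : Submodule ℚ K).restrictScalars ℤ := by
        refine iSup_le fun i => ?_
        rintro _ ⟨w, hw, rfl⟩
        rw [Submodule.restrictScalars_mem]
        refine (le_iSup (fun i => sc (u i) V) i) ?_
        rw [mem_sc]
        exact ⟨w, (mem_lat.1 hw).1, rfl⟩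
      exact h1
    · refine iSup_le fun i => ?_
      intro x hx
      rw [mem_sc] at hx
      obtain ⟨v, hv, rfl⟩ := hx
      have h1 : V ≤ (Submodule.span ℚ (M : Set K)).comap (LinearMap.mulLeft ℚ (u i)) := by
        rw [← hWV, Submodule.span_le]
        intro w hw
        refine Submodule.subset_span ?_
        exact (le_iSup (fun i => W.map (LinearMap.mulLeft ℤ (u i))) i) ⟨w, hw, rfl⟩
      exact h1 hv
  have hMr : finrank ℤ M = finrank ℚ (⨆ i, sc (u i) V : Submodule ℚ K) := by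
    rw [rank_eq M hMfg, hMsp]
  have hWM : W ≤ M := by
    obtain ⟨i, hi⟩ := hu1
    intro w hw
    refine (le_iSup (fun i => W.map (LinearMap.mulLeft ℤ (u i))) i) ⟨w, hw, ?_⟩
    rw [LinearMap.mulLeft_apply, hi, one_mul]
  have hHW : ∀ h ∈ (H : Set K), h ∈ W := fun h hh => (hH1 h hh).1
  have hdg : ∀ (m : ℕ) (h h' : Fin m → K), (∀ j, h j ∈ H) → (∀ j, h' j ∈ H) →
      (∃ w ∈ W, ∑ j : Fin m, (q : K) ^ (j : ℕ) * h j - ∑ j : Fin m, (q : K) ^ (j : ℕ) * h' j =
        (q : K) ^ m * w) → h = h' :=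
    hDGL K W q (H : Set K) hq1 hHW hH2
  have hsumW : ∀ (m : ℕ) (h : Fin m → K), (∀ j, h j ∈ H) →
      ∑ j : Fin m, (q : K) ^ (j : ℕ) * h j ∈ W := by
    intro m h hh
    refine Submodule.sum_mem _ fun j _ => ?_
    have e1 : (q : K) ^ (j : ℕ) * h j = ((q ^ (j : ℕ) : ℕ) : ℤ) • h j := by
      rw [zsmul_eq_mul]
      push_cast
      rfl
    rw [e1]
    exact Submodule.smul_mem _ _ (hHW _ (hh j))
  -- digits
  set L : Finset K := (Fintype.piFinset fun _ : Fin m₁ => H).image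
    (fun h => ∑ j : Fin m₁, (q : K) ^ (j : ℕ) * h j) with hL
  have hLc : L.card = H.card ^ m₁ := by
    rw [hL, Finset.card_image_of_injOn, Fintype.card_piFinset_const]
    intro h hh h' hh' heq
    rw [Finset.mem_coe, Fintype.mem_piFinset] at hh hh'
    refine hdg m₁ h h' hh hh' ⟨0, W.zero_mem, ?_⟩
    rw [mul_zero, sub_eq_zero]
    exact heq
  have hLW : ∀ l ∈ L, l ∈ W := by
    intro l hl
    rw [hL, Finset.mem_image] at hl
    obtain ⟨h, hh, rfl⟩ := hl
    rw [Fintype.mem_piFinset] at hh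
    exact hsumW m₁ h hh
  have hLi : ∀ l ∈ L, ∀ l' ∈ L, (∃ w ∈ W, l - l' = ((q ^ m₁ : ℕ) : K) * w) → l = l' := by
    intro l hl l' hl' hw
    rw [hL, Finset.mem_image] at hl hl'
    obtain ⟨h, hh, rfl⟩ := hl
    obtain ⟨h', hh', rfl⟩ := hl'
    rw [Fintype.mem_piFinset] at hh hh'
    push_cast at hw
    rw [hdg m₁ h h' hh hh' hw]
  obtain ⟨Λ, hΛ1, hΛ2, hΛ3⟩ := hCLS K W hWfg k u (q ^ m₁) L (Nat.one_le_pow _ _ hq1) hLW hLi
  rw [← hM, hMr, hWr, hLc] at hΛ3
  rw [← hM] at hΛ2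
  -- the small elements
  obtain ⟨hBfin, _, hBc⟩ := hCUB K hK W a hWfg
  set Bt : Finset K := hBfin.toFinset with hBt
  have hBm : ∀ t ∈ Bt, t ∈ W ∧ hs t ≤ Real.exp a := by
    intro t ht
    rw [hBt, Set.Finite.mem_toFinset] at ht
    exact ht
  have hBn : ({x : K | x ∈ W ∧ hs x ≤ Real.exp a}.ncard) = Bt.card :=
    Set.ncard_eq_toFinset_card _ hBfin
  rw [hBn] at hBc
  set Z : Finset K := ((Fintype.piFinset fun _ : Fin m₂ => H) ×ˢ Bt).image
    (fun p => ∑ j : Fin m₂, (q : K) ^ (j : ℕ) * p.1 j + (q : K) ^ m₂ * p.2) with hZ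
  have hZc : Z.card = H.card ^ m₂ * Bt.card := by
    rw [hZ, Finset.card_image_of_injOn, Finset.card_product, Fintype.card_piFinset_const]
    rintro ⟨h, t⟩ hp ⟨h', t'⟩ hp' heq
    rw [Finset.mem_coe, Finset.mem_product, Fintype.mem_piFinset] at hp hp'
    have heq' : ∑ j : Fin m₂, (q : K) ^ (j : ℕ) * h j + (q : K) ^ m₂ * t =
      ∑ j : Fin m₂, (q : K) ^ (j : ℕ) * h' j + (q : K) ^ m₂ * t' := heq
    have h1 : h = h' := by
      refine hdg m₂ h h' hp.1 hp'.1 ⟨t' - t, W.sub_mem (hBm t' hp'.2).1 (hBm t hp.2).1, ?_⟩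
      linear_combination heq'
    subst h1
    have h2 : (q : K) ^ m₂ * t = (q : K) ^ m₂ * t' := add_left_cancel heq'
    have h3 : t = t' := mul_left_cancel₀ (pow_ne_zero _ hq0) h2
    rw [h3]
  have hZW : ∀ z ∈ Z, z ∈ W := by
    intro z hz
    rw [hZ, Finset.mem_image] at hz
    obtain ⟨p, hp, rfl⟩ := hz
    rw [Finset.mem_product, Fintype.mem_piFinset] at hp
    refine W.add_mem (hsumW m₂ p.1 hp.1) ?_
    have e1 : (q : K) ^ m₂ * p.2 = ((q ^ m₂ : ℕ) : ℤ) • p.2 := by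
      rw [zsmul_eq_mul]
      push_cast
      rfl
    rw [e1]
    exact Submodule.smul_mem _ _ (hBm _ hp.2).1
  set E : Finset K := (Λ ×ˢ Z).image (fun p => 2 * (p.1 + (q : K) ^ m₁ * p.2)) with hE
  have hEc : E.card = Λ.card * Z.card := by
    rw [hE, Finset.card_image_of_injOn, Finset.card_product]
    rintro ⟨l, z⟩ hp ⟨l', z'⟩ hp' heq
    rw [Finset.mem_coe, Finset.mem_product] at hp hp'
    have heq' : l + (q : K) ^ m₁ * z = l' + (q : K) ^ m₁ * z' :=
      mul_left_cancel₀ (two_ne_zero) heq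
    have h1 : l = l' := by
      refine hΛ2 l hp.1 l' hp'.1 ⟨z' - z, hWM (W.sub_mem (hZW z' hp'.2) (hZW z hp.2)), ?_⟩
      push_cast
      linear_combination heq'
    subst h1
    have h2 : (q : K) ^ m₁ * z = (q : K) ^ m₁ * z' := add_left_cancel heq'
    have h3 : z = z' := mul_left_cancel₀ (pow_ne_zero _ hq0) h2
    rw [h3]
  -- the elements are differences
  set N : ℕ := k * m₁ + m₂ + 1 with hN
  set ST2 : Set K := ST K (4 * (N : ℕ) * Real.exp (2 * X)) - ST K (4 * (N : ℕ) * Real.exp (2 * X))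
    with hST2
  have hHs : ∀ h ∈ H, IsIntegral ℤ h ∧ hs h ≤ Real.exp (a + K₀ * Real.log 2) := by
    intro h hh
    refine ⟨(mem_lat.1 (hH1 h hh).1).2, ?_⟩
    have h1 := (hH1 h hh).2
    rw [hqR] at h1
    rw [Real.exp_add, mul_comm]
    exact h1
  have hl2 : 0 ≤ Real.log 2 := Real.log_nonneg one_le_two
  have hQ0 : 0 ≤ (K₀ : ℝ) * Real.log 2 := mul_nonneg (Nat.cast_nonneg _) hl2
  have hEST : (E : Set K) ⊆ ST2 := by
    intro x hx
    rw [Finset.mem_coe, hE, Finset.mem_image] at hx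
    obtain ⟨⟨l, z⟩, hp, rfl⟩ := hx
    rw [Finset.mem_product] at hp
    obtain ⟨ll, hll, hl⟩ := hΛ1 l hp.1
    have hll' : ∀ i, ∃ h : Fin m₁ → K, (∀ j, h j ∈ H) ∧
        ll i = ∑ j : Fin m₁, (q : K) ^ (j : ℕ) * h j := by
      intro i
      have h1 := hll i
      rw [hL, Finset.mem_image] at h1
      obtain ⟨h, hh, h2⟩ := h1
      rw [Fintype.mem_piFinset] at hh
      exact ⟨h, hh, h2.symm⟩
    choose g hg1 hg2 using hll'
    have hz := hp.2
    rw [hZ, Finset.mem_image] at hz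
    obtain ⟨⟨h', t⟩, hp2, hz'⟩ := hz
    rw [Finset.mem_product, Fintype.mem_piFinset] at hp2
    have hz2 : z = ∑ j : Fin m₂, (q : K) ^ (j : ℕ) * h' j + (q : K) ^ m₂ * t := hz'.symm
    -- the three kinds of terms
    have T1 : ∀ p : Fin k × Fin m₁, ∃ u' v' : K, IsIntegral ℤ u' ∧ IsIntegral ℤ v' ∧
        hs u' ≤ Real.exp X ∧ hs v' ≤ Real.exp X ∧
        (2 : K) ^ (K₀ * (p.2 : ℕ)) * (u p.1 * g p.1 p.2) = u' * v' := by
      intro p
      refine hSPL K (u p.1) (g p.1 p.2) (y + T) (a + K₀ * Real.log 2) X (K₀ * (p.2 : ℕ))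
        (hu p.1).2.1 (hHs _ (hg1 p.1 p.2)).1 (hu p.1).2.2 (hHs _ (hg1 p.1 p.2)).2 hyX haX ?_
      have e1 : ((p.2 : ℕ) : ℝ) + 1 ≤ m₁ := by exact_mod_cast p.2.2
      have e2 : (((p.2 : ℕ) : ℝ) + 1) * (K₀ * Real.log 2) ≤ m₁ * (K₀ * Real.log 2) :=
        mul_le_mul_of_nonneg_right e1 hQ0
      push_cast
      linarith
    have T2 : ∀ j : Fin m₂, ∃ u' v' : K, IsIntegral ℤ u' ∧ IsIntegral ℤ v' ∧
        hs u' ≤ Real.exp X ∧ hs v' ≤ Real.exp X ∧
        (2 : K) ^ (K₀ * (m₁ + (j : ℕ))) * (1 * h' j) = u' * v' := by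
      intro j
      refine hSPL K 1 (h' j) 0 (a + K₀ * Real.log 2) X (K₀ * (m₁ + (j : ℕ)))
        isIntegral_one (hHs _ (hp2.1 j)).1 (by rw [hs_one, Real.exp_zero]) (hHs _ (hp2.1 j)).2
        hX haX ?_
      have e1 : ((j : ℕ) : ℝ) + 1 ≤ m₂ := by exact_mod_cast j.2
      have e2 : ((m₁ : ℝ) + ((j : ℕ) + 1)) * (K₀ * Real.log 2) ≤
          (m₁ + m₂) * (K₀ * Real.log 2) :=
        mul_le_mul_of_nonneg_right (by linarith) hQ0
      push_cast
      linarith
    have T3 : ∃ u' v' : K, IsIntegral ℤ u' ∧ IsIntegral ℤ v' ∧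
        hs u' ≤ Real.exp X ∧ hs v' ≤ Real.exp X ∧
        (2 : K) ^ (K₀ * (m₁ + m₂)) * (1 * t) = u' * v' := by
      have e0 := hBm t hp2.2
      refine hSPL K 1 t 0 a X (K₀ * (m₁ + m₂)) isIntegral_one (mem_lat.1 e0.1).2
        (by rw [hs_one, Real.exp_zero]) e0.2 hX (by linarith) ?_
      push_cast
      linarith
    choose u₁ v₁ hu₁ hv₁ hsu₁ hsv₁ he₁ using T1
    choose u₂ v₂ hu₂ hv₂ hsu₂ hsv₂ he₂ using T2
    obtain ⟨u₃, v₃, hu₃, hv₃, hsu₃, hsv₃, he₃⟩ := T3
    have hmem := prod_mem hPRD hK (ι := (Fin k × Fin m₁) ⊕ (Fin m₂ ⊕ Unit)) X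
      (Sum.elim u₁ (Sum.elim u₂ fun _ => u₃)) (Sum.elim v₁ (Sum.elim v₂ fun _ => v₃))
      (by
        rintro (p | j | _)
        · exact ⟨hu₁ p, hsu₁ p⟩
        · exact ⟨hu₂ j, hsu₂ j⟩
        · exact ⟨hu₃, hsu₃⟩)
      (by
        rintro (p | j | _)
        · exact ⟨hv₁ p, hsv₁ p⟩
        · exact ⟨hv₂ j, hsv₂ j⟩
        · exact ⟨hv₃, hsv₃⟩)
    have hcard : Fintype.card ((Fin k × Fin m₁) ⊕ (Fin m₂ ⊕ Unit)) = N := by
      rw [hN]
      simp [Fintype.card_sum, Fintype.card_prod, add_assoc]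
    rw [hcard] at hmem
    have hsum : ∑ i : (Fin k × Fin m₁) ⊕ (Fin m₂ ⊕ Unit),
        Sum.elim u₁ (Sum.elim u₂ fun _ => u₃) i * Sum.elim v₁ (Sum.elim v₂ fun _ => v₃) i =
        l + (q : K) ^ m₁ * z := by
      rw [Fintype.sum_sum_type, Fintype.sum_sum_type]
      simp only [Sum.elim_inl, Sum.elim_inr, Finset.univ_unique, Finset.sum_singleton]
      rw [Finset.sum_congr rfl fun p _ => (he₁ p).symm, Finset.sum_congr rfl fun j _ => (he₂ j).symm,
        ← he₃, hl, hz2, hqK, Fintype.sum_prod_type]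
      congr 1
      · refine Finset.sum_congr rfl fun i _ => ?_
        rw [hg2 i, Finset.mul_sum]
        refine Finset.sum_congr rfl fun j _ => ?_
        rw [hqK, ← pow_mul]
        ring
      · rw [mul_add (((2 : K) ^ K₀) ^ m₁), Finset.mul_sum]
        congr 1
        · refine Finset.sum_congr rfl fun j _ => ?_
          rw [← pow_mul, ← pow_mul, Nat.mul_add, pow_add]
          ring
        · rw [← pow_mul, ← pow_mul, Nat.mul_add, pow_add]
          ring
    rw [hsum] at hmem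
    exact hmem
  have hSTfin : ST2.Finite := by
    have h1 := (hCN3 K hK).1 (4 * (N : ℕ) * Real.exp (2 * X))
    exact h1.sub h1
  have hle : E.card ≤ ST2.ncard := by
    rw [← Set.ncard_coe_finset]
    exact Set.ncard_le_ncard hEST hSTfin
  -- counting
  have hgg : Real.exp (GG K a) ≤ rh a W := ((hMAA K hK a).1 V).1
  obtain ⟨hfin, hpos⟩ := count (finrank ℚ K) (nn K a)
    (finrank ℚ (⨆ i, sc (u i) V : Submodule ℚ K)) k m₁ m₂ K₀ H.card Λ.card Bt.card E.card C
    (GG K a) hC (by rw [hq] at hH3; push_cast at hH3; exact hH3) (by rw [hq] at hΛ3; exact hΛ3)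
    (hgg.trans hBc) (by rw [hEc, hZc])
  exact hfin.trans (Real.log_le_log (by exact_mod_cast hpos) (by exact_mod_cast hle))

end Pool.Agent.Lib.MPcb8a44.RC
end

section
set_option autoImplicit false

open NumberField Module

namespace Pool.Agent.Lib.MPcb8a44.RC

namespace NEGM

open CVRM

/-- signs -/
noncomputable def sg (s : Bool) : ℝ := if s then 1 else -1

section Abstract

variable {ι : Type} [Fintype ι] [DecidableEq ι]

/-- one factor -/
noncomputable def fac (A t : ℝ) : ℝ := Real.sinh (2 * Real.pi * t / A) * Real.exp (-(Real.pi / A ^ 2 * t ^ 2))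

theorem fac_eq (A t : ℝ) (hA : 0 < A) : fac A t =
    ∑ s : Bool, sg s / 2 * Real.exp Real.pi * Real.exp (-(Real.pi / A ^ 2 * (t - A * sg s) ^ 2)) := by
  have h1 : Real.exp Real.pi * Real.exp (-(Real.pi / A ^ 2 * (t - A) ^ 2)) =
      Real.exp (2 * Real.pi * t / A) * Real.exp (-(Real.pi / A ^ 2 * t ^ 2)) := by
    rw [← Real.exp_add, ← Real.exp_add]
    congr 1
    field_simp
    ring
  have h2 : Real.exp Real.pi * Real.exp (-(Real.pi / A ^ 2 * (t + A) ^ 2)) =
      Real.exp (-(2 * Real.pi * t / A)) * Real.exp (-(Real.pi / A ^ 2 * t ^ 2)) := by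
    rw [← Real.exp_add, ← Real.exp_add]
    congr 1
    field_simp
    ring
  rw [Fintype.sum_bool]
  simp only [sg, if_true, mul_one]
  have e1 : (1 : ℝ) / 2 * Real.exp Real.pi * Real.exp (-(Real.pi / A ^ 2 * (t - A) ^ 2)) =
      1 / 2 * (Real.exp Real.pi * Real.exp (-(Real.pi / A ^ 2 * (t - A) ^ 2))) := by ring
  have e2 : (-1 : ℝ) / 2 * Real.exp Real.pi * Real.exp (-(Real.pi / A ^ 2 * (t - A * -1) ^ 2)) =
      -(1 / 2) * (Real.exp Real.pi * Real.exp (-(Real.pi / A ^ 2 * (t + A) ^ 2))) := by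
    have : t - A * -1 = t + A := by ring
    rw [this]
    ring
  simp only [Bool.false_eq_true, if_false]
  rw [e1, e2, h1, h2, fac, Real.sinh_eq]
  ring

theorem abs_fac_le (A t : ℝ) :
    |fac A t| ≤ Real.exp (2 * Real.pi) * Real.exp (-(Real.pi / 2 / A ^ 2 * t ^ 2)) := by
  have h1 : |Real.sinh (2 * Real.pi * t / A)| ≤ Real.exp |2 * Real.pi * t / A| := by
    rw [Real.abs_sinh, Real.sinh_eq]
    have := Real.exp_pos |2 * Real.pi * t / A|
    have := Real.exp_pos (-|2 * Real.pi * t / A|)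
    linarith
  rw [fac, abs_mul, abs_of_pos (Real.exp_pos _)]
  refine (mul_le_mul_of_nonneg_right h1 (Real.exp_pos _).le).trans ?_
  rw [← Real.exp_add, ← Real.exp_add]
  apply Real.exp_le_exp.2
  have h2 : |2 * Real.pi * t / A| = 2 * Real.pi * |t / A| := by
    rw [mul_div_assoc, abs_mul, abs_of_pos (by positivity)]
  have h3 : Real.pi / A ^ 2 * t ^ 2 = Real.pi * |t / A| ^ 2 := by
    rw [sq_abs]
    ring
  have h4 : Real.pi / 2 / A ^ 2 * t ^ 2 = Real.pi / 2 * |t / A| ^ 2 := by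
    rw [sq_abs]
    ring
  rw [h2, h3, h4]
  have := mul_nonneg Real.pi_pos.le (sq_nonneg (|t / A| - 2))
  nlinarith

theorem fac_one (A : ℝ) (hA : 1 ≤ A) : 2 * Real.pi / A * Real.exp (-Real.pi) ≤ fac A 1 := by
  have hA0 : 0 < A := by linarith
  have hp := Real.pi_pos
  unfold fac
  have h1 : 2 * Real.pi * 1 / A ≤ Real.sinh (2 * Real.pi * 1 / A) :=
    Real.self_le_sinh_iff.2 (by positivity)
  rw [mul_one] at h1 ⊢
  refine mul_le_mul h1 ?_ (Real.exp_pos _).le (le_trans (by positivity) h1)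
  apply Real.exp_le_exp.2
  have : Real.pi / A ^ 2 * 1 ^ 2 ≤ Real.pi := by
    rw [one_pow, mul_one]
    exact div_le_self hp.le (by nlinarith)
  linarith

/-- the product -/
noncomputable def Ph (A : ℝ) (ξ : ι → ℝ) : ℝ := ∏ i, fac A (ξ i)

theorem Ph_eq (A : ℝ) (hA : 0 < A) (ξ : ι → ℝ) : Ph A ξ =
    ∑ ε : ι → Bool, (∏ i, sg (ε i)) * ((Real.exp Real.pi / 2) ^ Fintype.card ι *
      Real.exp (-(Real.pi / A ^ 2 * ∑ i, (ξ i - A * sg (ε i)) ^ 2))) := by
  unfold Ph
  simp only [fac_eq A _ hA]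
  rw [Finset.prod_univ_sum, Fintype.piFinset_univ]
  refine Finset.sum_congr rfl fun ε _ => ?_
  rw [Finset.mul_sum, ← Finset.sum_neg_distrib, Real.exp_sum, ← Finset.card_univ,
    ← Finset.prod_const, ← Finset.prod_mul_distrib, ← Finset.prod_mul_distrib]
  refine Finset.prod_congr rfl fun i _ => ?_
  ring

theorem sum_sg [Nonempty ι] : ∑ ε : ι → Bool, ∏ i, sg (ε i) = 0 := by
  have h := Finset.prod_univ_sum (fun _ : ι => (Finset.univ : Finset Bool)) (fun _ s => sg s)
  rw [Fintype.piFinset_univ] at h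
  rw [← h]
  have : ∑ s : Bool, sg s = 0 := by
    rw [Fintype.sum_bool]
    simp [sg]
  rw [this]
  exact Finset.prod_eq_zero (Finset.mem_univ (Classical.arbitrary ι)) rfl

omit [DecidableEq ι] in
theorem abs_Ph_le (A : ℝ) (ξ : ι → ℝ) : |Ph A ξ| ≤
    Real.exp (2 * Real.pi) ^ Fintype.card ι *
      Real.exp (-(Real.pi / 2 / A ^ 2 * ∑ i, ξ i ^ 2)) := by
  unfold Ph
  rw [Finset.abs_prod, Finset.mul_sum, ← Finset.sum_neg_distrib, Real.exp_sum, ← Finset.card_univ,
    ← Finset.prod_const, ← Finset.prod_mul_distrib]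
  exact Finset.prod_le_prod (fun _ _ => abs_nonneg _) fun i _ => abs_fac_le A _

omit [DecidableEq ι] in
theorem Ph_nonneg (A : ℝ) (hA : 0 < A) (ξ : ι → ℝ) (h : 0 ≤ ∏ i, ξ i) : 0 ≤ Ph A ξ := by
  have hp := Real.pi_pos
  unfold Ph
  have e : ∀ i, fac A (ξ i) = ξ i * (fac A (ξ i) / ξ i) := by
    intro i
    by_cases h0 : ξ i = 0
    · rw [h0]
      simp [fac]
    · field_simp
  rw [Finset.prod_congr rfl fun i _ => e i, Finset.prod_mul_distrib]
  refine mul_nonneg h (Finset.prod_nonneg fun i _ => ?_)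
  unfold fac
  rcases le_total 0 (ξ i) with h1 | h1
  · apply div_nonneg _ h1
    exact mul_nonneg (Real.sinh_nonneg_iff.2 (by positivity)) (Real.exp_pos _).le
  · apply div_nonneg_of_nonpos _ h1
    refine mul_nonpos_of_nonpos_of_nonneg ?_ (Real.exp_pos _).le
    rw [Real.sinh_nonpos_iff]
    exact div_nonpos_of_nonpos_of_nonneg (mul_nonpos_of_nonneg_of_nonpos (by positivity) h1) hA.le

end Abstract

section Lattice

variable {ι : Type} [Fintype ι] [DecidableEq ι] [Nonempty ι] {n : ℕ}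

/-- the sign vector -/
noncomputable def sv (A : ℝ) (ε : ι → Bool) : EuclideanSpace ℝ ι :=
  WithLp.toLp 2 fun i => A * sg (ε i)

omit [Nonempty ι] in
theorem Ph_shift (b : Fin n → EuclideanSpace ℝ ι) (v : EuclideanSpace ℝ ι) (z : ℝ)
    (k : Fin n → ℤ) : Ph (Real.exp z) (fun i => (v + zc b k) i) =
    ∑ ε : ι → Bool, (∏ i, sg (ε i)) * ((Real.exp Real.pi / 2) ^ Fintype.card ι *
      Real.exp (-(Real.pi * Real.exp (-2 * z) *
        ‖(v - sv (Real.exp z) ε) + zc b k‖ ^ 2))) := by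
  rw [Ph_eq _ (Real.exp_pos z)]
  refine Finset.sum_congr rfl fun ε _ => ?_
  congr 4
  have e1 : Real.pi / Real.exp z ^ 2 = Real.pi * Real.exp (-2 * z) := by
    have : Real.exp (-2 * z) = (Real.exp z ^ 2)⁻¹ := by
      rw [← Real.exp_nat_mul, ← Real.exp_neg]
      congr 1
      push_cast
      ring
    rw [this]
    rfl
  rw [e1, EuclideanSpace.norm_sq_eq]
  congr 1
  refine Finset.sum_congr rfl fun i _ => ?_
  rw [Real.norm_eq_abs, sq_abs]
  congr 1
  simp only [PiLp.add_apply, PiLp.sub_apply, sv]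
  ring

theorem sum_Ph (b : Fin n → EuclideanSpace ℝ ι) (v : EuclideanSpace ℝ ι) (z c η : ℝ)
    (hs : ∀ w, Summable fun x : Fin n → ℤ =>
      Real.exp (-(Real.pi * Real.exp (-2 * z) * ‖w + zc b x‖ ^ 2)))
    (hP : ∀ w, |ths z b w - c| ≤ η) :
    Summable (fun k : Fin n → ℤ => Ph (Real.exp z) (fun i => (v + zc b k) i)) ∧
    |∑' k : Fin n → ℤ, Ph (Real.exp z) (fun i => (v + zc b k) i)| ≤
      Real.exp Real.pi ^ Fintype.card ι * η := by
  simp only [Ph_shift]
  have hsum : ∀ ε ∈ (Finset.univ : Finset (ι → Bool)), HasSum (fun k : Fin n → ℤ =>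
      (∏ i, sg (ε i)) * ((Real.exp Real.pi / 2) ^ Fintype.card ι *
      Real.exp (-(Real.pi * Real.exp (-2 * z) *
        ‖(v - sv (Real.exp z) ε) + zc b k‖ ^ 2))))
      ((∏ i, sg (ε i)) * ((Real.exp Real.pi / 2) ^ Fintype.card ι *
        ths z b (v - sv (Real.exp z) ε))) := fun ε _ =>
    ((hs _).hasSum.mul_left _).mul_left _
  have hS := hasSum_sum hsum
  refine ⟨hS.summable, ?_⟩
  rw [hS.tsum_eq]
  have e1 : ∑ ε : ι → Bool, (∏ i, sg (ε i)) * ((Real.exp Real.pi / 2) ^ Fintype.card ι *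
        ths z b (v - sv (Real.exp z) ε)) =
      ∑ ε : ι → Bool, (∏ i, sg (ε i)) * ((Real.exp Real.pi / 2) ^ Fintype.card ι *
        (ths z b (v - sv (Real.exp z) ε) - c)) := by
    have e2 : ∀ ε : ι → Bool, (∏ i, sg (ε i)) * ((Real.exp Real.pi / 2) ^ Fintype.card ι *
        (ths z b (v - sv (Real.exp z) ε) - c)) =
        (∏ i, sg (ε i)) * ((Real.exp Real.pi / 2) ^ Fintype.card ι *
        ths z b (v - sv (Real.exp z) ε)) - (∏ i, sg (ε i)) *
          ((Real.exp Real.pi / 2) ^ Fintype.card ι * c) := fun ε => by ring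
    rw [Finset.sum_congr rfl fun ε _ => e2 ε, Finset.sum_sub_distrib, ← Finset.sum_mul, sum_sg,
      zero_mul, sub_zero]
  rw [e1]
  refine (Finset.abs_sum_le_sum_abs _ _).trans ?_
  have h1 : ∀ ε : ι → Bool, |(∏ i, sg (ε i)) * ((Real.exp Real.pi / 2) ^ Fintype.card ι *
        (ths z b (v - sv (Real.exp z) ε) - c))| ≤ (Real.exp Real.pi / 2) ^ Fintype.card ι * η := by
    intro ε
    have h2 : |∏ i, sg (ε i)| = 1 := by
      rw [Finset.abs_prod]
      refine Finset.prod_eq_one fun i _ => ?_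
      unfold sg
      split_ifs <;> simp
    rw [abs_mul, h2, one_mul, abs_mul, abs_of_pos (by positivity)]
    exact mul_le_mul_of_nonneg_left (hP _) (by positivity)
  refine (Finset.sum_le_sum fun ε _ => h1 ε).trans ?_
  rw [Finset.sum_const, Finset.card_univ, Fintype.card_fun, Fintype.card_bool, nsmul_eq_mul, div_pow]
  push_cast
  have : (2 : ℝ) ^ Fintype.card ι ≠ 0 := by positivity
  have e3 : (2 : ℝ) ^ Fintype.card ι * (Real.exp Real.pi ^ Fintype.card ι / 2 ^ Fintype.card ι * η) =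
      Real.exp Real.pi ^ Fintype.card ι * η := by
    field_simp
  rw [e3]

end Lattice

section Num

theorem four_thousand : (4000 : ℝ) ≤ Real.exp 9 := by
  have h1 := Real.exp_one_gt_d9
  have : Real.exp 9 = Real.exp 1 ^ 9 := by
    rw [← Real.exp_nat_mul]
    norm_num
  rw [this]
  calc (4000 : ℝ) ≤ (27 / 10) ^ 9 := by norm_num
    _ ≤ Real.exp 1 ^ 9 := pow_le_pow_left₀ (by norm_num) (by linarith) 9

theorem q_le (R A : ℝ) (hR : 0 ≤ R) (hA : A = 20 * Real.exp R * (1 + R)) :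
    Real.exp Real.pi * (20 * A) * Real.exp (-(Real.pi / 2 * (25 * (1 + R) ^ 2))) ≤
      (2 * Real.pi / A * Real.exp (-Real.pi)) / 3 := by
  have hp := Real.pi_gt_three
  have hp4 := Real.pi_le_four
  have hA0 : 0 < A := by
    rw [hA]
    positivity
  have h1 : A ^ 2 ≤ 400 * Real.exp (4 * R) := by
    have h2 : 1 + R ≤ Real.exp R := by
      have := Real.add_one_le_exp R
      linarith
    calc A ^ 2 = 400 * Real.exp R ^ 2 * (1 + R) ^ 2 := by rw [hA]; ring
      _ ≤ 400 * Real.exp R ^ 2 * Real.exp R ^ 2 := by gcongr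
      _ = 400 * (Real.exp R ^ 4) := by ring
      _ = 400 * Real.exp (4 * R) := by
        rw [← Real.exp_nat_mul]
        norm_num
  have h3 : Real.exp (-(Real.pi / 2 * (25 * (1 + R) ^ 2))) ≤ Real.exp (-(37 + 74 * R)) := by
    apply Real.exp_le_exp.2
    have : (1 + 2 * R) ≤ (1 + R) ^ 2 := by nlinarith
    have h4 : 3 / 2 * (25 * (1 + 2 * R)) ≤ Real.pi / 2 * (25 * (1 + R) ^ 2) := by
      gcongr
    linarith
  have eq0 : (2 * Real.pi / A * Real.exp (-Real.pi)) / 3 =
      (2 * Real.pi * Real.exp (-Real.pi)) / (A * 3) := by field_simp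
  rw [eq0, le_div_iff₀ (by positivity)]
  calc Real.exp Real.pi * (20 * A) * Real.exp (-(Real.pi / 2 * (25 * (1 + R) ^ 2))) * (A * 3)
      ≤ Real.exp Real.pi * (20 * A) * Real.exp (-(37 + 74 * R)) * (A * 3) := by gcongr
    _ = 60 * A ^ 2 * (Real.exp Real.pi * Real.exp (-(37 + 74 * R))) := by ring
    _ ≤ 60 * (400 * Real.exp (4 * R)) * (Real.exp Real.pi * Real.exp (-(37 + 74 * R))) := by gcongr
    _ = 6 * (4000 * (Real.exp (4 * R) * (Real.exp Real.pi * Real.exp (-(37 + 74 * R))))) := by ring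
    _ ≤ 6 * (Real.exp 9 * (Real.exp (4 * R) * (Real.exp Real.pi * Real.exp (-(37 + 74 * R))))) := by
        have := four_thousand
        gcongr
    _ = 6 * Real.exp (9 + (4 * R + (Real.pi + -(37 + 74 * R)))) := by
        rw [Real.exp_add 9, Real.exp_add (4 * R), Real.exp_add Real.pi]
    _ ≤ 6 * Real.exp (-Real.pi) := by
        have : 9 + (4 * R + (Real.pi + -(37 + 74 * R))) ≤ -Real.pi := by linarith
        have := Real.exp_le_exp.2 this
        linarith
    _ ≤ 2 * Real.pi * Real.exp (-Real.pi) := by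
        have := Real.exp_pos (-Real.pi)
        nlinarith

theorem r_le (A : ℝ) (hA : 20 ≤ A) :
    Real.exp (2 * Real.pi) * (10 * A) * Real.exp (-(Real.pi / 4 * A ^ 2)) ≤
      (2 * Real.pi / A * Real.exp (-Real.pi)) / 3 := by
  have hp := Real.pi_gt_three
  have hp4 := Real.pi_le_four
  have hA0 : 0 < A := by linarith
  have h1 : A ^ 2 / 8 ≤ Real.exp (A ^ 2 / 8) := by
    have := Real.add_one_le_exp (A ^ 2 / 8)
    linarith
  have h2 : Real.exp (-(Real.pi / 4 * A ^ 2)) ≤ Real.exp (-(A ^ 2 / 4)) * Real.exp (-(A ^ 2 / 4)) *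
      Real.exp (-(A ^ 2 / 8)) := by
    rw [← Real.exp_add, ← Real.exp_add]
    apply Real.exp_le_exp.2
    nlinarith [sq_nonneg A]
  have h3 : Real.exp (-(A ^ 2 / 8)) * A ^ 2 ≤ 8 := by
    rw [Real.exp_neg, inv_mul_le_iff₀ (Real.exp_pos _)]
    linarith
  have h4 : Real.exp (-(A ^ 2 / 4)) ≤ Real.exp (-100) := by
    apply Real.exp_le_exp.2
    nlinarith
  have h5 : Real.exp (-100) ≤ 1 / 4000 := by
    have h6 := four_thousand
    have h7 : Real.exp (-100) ≤ Real.exp (-9) := Real.exp_le_exp.2 (by norm_num)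
    rw [Real.exp_neg 9] at h7
    refine h7.trans ?_
    rw [one_div]
    exact inv_anti₀ (by norm_num) h6
  have h8 : Real.exp (2 * Real.pi) * Real.exp (-100) ≤ Real.exp (-Real.pi) := by
    rw [← Real.exp_add]
    apply Real.exp_le_exp.2
    linarith
  have eq0 : (2 * Real.pi / A * Real.exp (-Real.pi)) / 3 =
      (2 * Real.pi * Real.exp (-Real.pi)) / (A * 3) := by field_simp
  rw [eq0, le_div_iff₀ (by positivity)]
  calc Real.exp (2 * Real.pi) * (10 * A) * Real.exp (-(Real.pi / 4 * A ^ 2)) * (A * 3)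
      = 30 * Real.exp (2 * Real.pi) * A ^ 2 * Real.exp (-(Real.pi / 4 * A ^ 2)) := by ring
    _ ≤ 30 * Real.exp (2 * Real.pi) * A ^ 2 * (Real.exp (-(A ^ 2 / 4)) * Real.exp (-(A ^ 2 / 4)) *
      Real.exp (-(A ^ 2 / 8))) := by gcongr
    _ = 30 * Real.exp (2 * Real.pi) * (Real.exp (-(A ^ 2 / 4)) * Real.exp (-(A ^ 2 / 4))) *
        (Real.exp (-(A ^ 2 / 8)) * A ^ 2) := by ring
    _ ≤ 30 * Real.exp (2 * Real.pi) * (Real.exp (-100) * (1 / 4000)) * 8 := by
        gcongr
        exact h4.trans h5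
    _ = (Real.exp (2 * Real.pi) * Real.exp (-100)) * (240 / 4000) := by ring
    _ ≤ Real.exp (-Real.pi) * (240 / 4000) := by gcongr
    _ ≤ 2 * Real.pi * Real.exp (-Real.pi) := by
        have := Real.exp_pos (-Real.pi)
        nlinarith

theorem pow_contra (p q r : ℝ) (n : ℕ) (hn : 1 ≤ n) (hp : 0 < p) (hq : 0 ≤ q) (hr : 0 ≤ r)
    (hqp : q ≤ p / 3) (hrp : r ≤ p / 3) : q ^ n + r ^ n < p ^ n := by
  have h1 : q ^ n ≤ (p / 3) ^ n := pow_le_pow_left₀ hq hqp n
  have h2 : r ^ n ≤ (p / 3) ^ n := pow_le_pow_left₀ hr hrp n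
  have h3 : (p / 3) ^ n ≤ p ^ n / 3 := by
    rw [div_pow]
    refine div_le_div_of_nonneg_left (by positivity) (by norm_num) ?_
    calc (3 : ℝ) = 3 ^ 1 := by norm_num
      _ ≤ 3 ^ n := pow_le_pow_right₀ (by norm_num) hn
  have h4 : 0 < p ^ n := by positivity
  linarith

end Num

end NEGM

open NEGM CVRM in
theorem specNEG (hGSM : SpecGSM) (hEVB : SpecEVB) (hRHB : SpecRHB) (hCUB : SpecCUB)
    (hPOI : SpecPOI) (hGTH : SpecGTH) : SpecNEG := by
  classical
  refine ⟨12, by norm_num, ?_⟩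
  intro F _ _ hF
  obtain ⟨n, hn⟩ : ∃ n : ℕ, n = finrank ℚ F := ⟨_, rfl⟩
  have hn1 : 1 ≤ n := by
    rw [hn]
    exact RD.d_pos
  have hnR : (1 : ℝ) ≤ n := by exact_mod_cast hn1
  have hI : Ideal.span {(4 : 𝓞 F)} ≠ ⊥ := by
    rw [Ne, Ideal.span_singleton_eq_bot]
    norm_num
  obtain ⟨b, hb, hbI, Δ, hΔ, hΔe, hP⟩ :=
    pois_ideal hF hGSM hEVB hRHB hCUB hPOI _ hI n hn
  have hlin : LinearIndependent ℝ fun i => ev (b i) := (((hEVB F hF).1 _ b).1).1 hb
  have hzc := (((hEVB F hF).1 _ b).2.2.2)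
  have hpi := Real.pi_gt_three
  have hcard : Fintype.card (F →+* ℂ) = n := by rw [RD.card_emb, hn]
  set R : ℝ := LD F with hR
  have hD1 : (1 : ℝ) ≤ |((discr F : ℤ) : ℝ)| := by
    have := Int.one_le_abs (discr_ne_zero F)
    rw [← Int.cast_abs]
    exact_mod_cast this
  have hR0 : 0 ≤ R := by
    rw [hR]
    exact div_nonneg (Real.log_nonneg hD1) (Nat.cast_nonneg _)
  have hmu : mu (Ideal.span {(4 : 𝓞 F)}) = Real.exp (-R) / 4 := by
    have h1 : Ideal.absNorm (Ideal.span {(4 : 𝓞 F)}) = 4 ^ n := by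
      rw [Ideal.absNorm_span_singleton]
      have h2 : (4 : 𝓞 F) = algebraMap ℤ (𝓞 F) 4 := by simp
      rw [h2, Algebra.norm_algebraMap_of_basis (Module.finBasisOfFinrankEq ℤ (𝓞 F)
        (RingOfIntegers.rank F)), Fintype.card_fin, Int.natAbs_pow, ← hn]
      rfl
    unfold mu
    rw [h1, ← hn]
    push_cast
    rw [← Real.rpow_natCast, ← Real.rpow_mul (by norm_num)]
    have h3 : (n : ℝ) * (-1 / n) = -1 := by
      field_simp
    rw [h3, Real.rpow_neg_one]
    ring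
  rw [hmu] at hP
  obtain ⟨A, hA⟩ : ∃ A : ℝ, A = 20 * Real.exp R * (1 + R) := ⟨_, rfl⟩
  have hA20 : 20 ≤ A := by
    have : 1 ≤ Real.exp R := Real.one_le_exp hR0
    rw [hA]
    nlinarith
  have hA0 : 0 < A := by linarith
  set z : ℝ := Real.log A with hz
  have hez : Real.exp z = A := Real.exp_log hA0
  have he2 : Real.exp (2 * z) = A ^ 2 := by
    rw [← hez, ← Real.exp_nat_mul]
    norm_num
  have hem2 : Real.exp (-2 * z) = (A ^ 2)⁻¹ := by
    rw [← he2, ← Real.exp_neg]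
    congr 1
    ring
  have hAmu : Real.exp (2 * z) * (Real.exp (-R) / 4) ^ 2 = 25 * (1 + R) ^ 2 := by
    have h1 : Real.exp R * Real.exp (-R) = 1 := by
      rw [← Real.exp_add]
      simp
    rw [he2, hA]
    calc (20 * Real.exp R * (1 + R)) ^ 2 * (Real.exp (-R) / 4) ^ 2
        = 25 * (1 + R) ^ 2 * (Real.exp R * Real.exp (-R)) ^ 2 := by ring
      _ = _ := by rw [h1]; ring
  have hP1 := hP z (by rw [hAmu]; nlinarith)
  rw [hAmu] at hP1
  -- masses
  have hint : ∀ w ∈ Submodule.span ℤ (Set.range b), ∃ u : 𝓞 F, ((4 * u : 𝓞 F) : F) = w := by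
    intro w hw
    obtain ⟨y, hy, rfl⟩ := (hbI w).1 hw
    obtain ⟨u, rfl⟩ := Ideal.mem_span_singleton.1 hy
    exact ⟨u, rfl⟩
  have hth : ∀ y : ℝ, 0 ≤ y → th y (fun i => ev (b i)) ≤ (5 * Real.exp y) ^ n := by
    intro y hy
    have h1 : th (-(1 / 100)) (fun i => ev (b i)) ≤ 4 ^ finrank ℚ F := by
      refine mass hF hRHB hCUB b hb 1 _ (fun w hw hw0 => ?_) ?_
      · obtain ⟨u, hu⟩ := hint w hw
        refine RD.one_le_hs ?_ hw0
        rw [← hu]
        exact RingOfIntegers.isIntegral_coe _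
      · rw [Real.exp_lt_one_iff]
        norm_num
    have h2 := (hGTH _ n _ (-(1 / 100)) hlin).2.2.1 (y + 1 / 100) (by linarith)
    have e1 : -(1 / 100 : ℝ) + (y + 1 / 100) = y := by ring
    rw [e1] at h2
    rw [← hn] at h1
    have h3 : Real.exp (1 / 100) ≤ 5 / 4 := by
      have h4 := Real.add_one_le_exp (-(1 / 100 : ℝ))
      have h5 : Real.exp (1 / 100) * Real.exp (-(1 / 100)) = 1 := by
        rw [← Real.exp_add]
        simp
      have h6 := Real.exp_pos (1 / 100 : ℝ)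
      nlinarith
    calc th y (fun i => ev (b i)) ≤ Real.exp ((y + 1 / 100) * n) * 4 ^ n :=
          h2.trans (mul_le_mul_of_nonneg_left h1 (Real.exp_pos _).le)
      _ = (Real.exp (1 / 100) * 4 * Real.exp y) ^ n := by
          rw [mul_comm (y + 1 / 100), Real.exp_nat_mul, Real.exp_add, ← mul_pow]
          congr 1
          ring
      _ ≤ (5 * Real.exp y) ^ n := by
          refine pow_le_pow_left₀ (by positivity) ?_ n
          have := Real.exp_pos y
          nlinarith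
  have hz0 : 0 ≤ z := Real.log_nonneg (by linarith)
  have hc : Real.exp (z * n) / Δ ≤ (5 * A) ^ n := by
    have h1 := (hGTH _ n _ z hlin).2.1
    rw [← hΔe] at h1
    have h2 := hth z hz0
    rw [hez] at h2
    exact h1.trans h2
  by_contra hcon
  push Not at hcon
  have hA4 : A ^ 4 ≤ Real.exp (12 * (1 + R)) := by
    have h1 : A ≤ Real.exp (3 + 2 * R) := by
      have h2 : 1 + R ≤ Real.exp R := by
        have := Real.add_one_le_exp R
        linarith
      have h3 : (20 : ℝ) ≤ Real.exp 3 := by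
        have h4 := Real.exp_one_gt_d9
        have h5 : Real.exp 3 = Real.exp 1 ^ 3 := by
          rw [← Real.exp_nat_mul]
          norm_num
        rw [h5]
        calc (20 : ℝ) ≤ 2.7182818283 ^ 3 := by norm_num
          _ ≤ Real.exp 1 ^ 3 := pow_le_pow_left₀ (by norm_num) h4.le 3
      calc A = 20 * Real.exp R * (1 + R) := hA
        _ ≤ Real.exp 3 * Real.exp R * Real.exp R := by gcongr
        _ = Real.exp (3 + 2 * R) := by
          rw [← Real.exp_add, ← Real.exp_add]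
          congr 1
          ring
    calc A ^ 4 ≤ Real.exp (3 + 2 * R) ^ 4 := pow_le_pow_left₀ hA0.le h1 4
      _ = Real.exp (4 * (3 + 2 * R)) := by rw [← Real.exp_nat_mul]; norm_num
      _ ≤ _ := Real.exp_le_exp.2 (by linarith)
  -- products over the embeddings
  have hprod : ∀ x : F, ∏ φ : F →+* ℂ, (ev x) φ = ((Algebra.norm ℚ x : ℚ) : ℝ) := by
    intro x
    have h1 := Algebra.norm_eq_prod_embeddings ℚ ℂ x
    have h2 : ∏ σ : F →ₐ[ℚ] ℂ, σ x = ∏ φ : F →+* ℂ, φ x := by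
      rw [← (RingHom.equivRatAlgHom (R := F) (S := ℂ)).prod_comp]
      rfl
    rw [h2] at h1
    have h3 : ∀ φ : F →+* ℂ, φ x = (((ev x) φ : ℝ) : ℂ) := by
      intro φ
      apply Complex.ext
      · simp [ev_apply]
      · simp [hF φ x]
    rw [Finset.prod_congr rfl fun φ _ => h3 φ, ← Complex.ofReal_prod] at h1
    have h4 := congrArg Complex.re h1
    rw [Complex.ofReal_re] at h4
    rw [← h4]
    simp
  -- lower bound for the terms
  have hlow : ∀ u : 𝓞 F, -(Real.exp (2 * Real.pi) ^ n * Real.exp (-(Real.pi / 4 * A ^ 2)) ^ n *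
      Real.exp (-(Real.pi * (4 * A ^ 2)⁻¹ * ‖ev ((1 + 4 * u : 𝓞 F) : F)‖ ^ 2))) ≤
      Ph A (fun φ => (ev ((1 + 4 * u : 𝓞 F) : F)) φ) := by
    intro u
    by_cases hpos : 0 ≤ ∏ φ : F →+* ℂ, (ev ((1 + 4 * u : 𝓞 F) : F)) φ
    · have h1 := Ph_nonneg A hA0 _ hpos
      refine le_trans ?_ h1
      rw [neg_nonpos]
      positivity
    · rw [not_le, hprod] at hpos
      have h1 : Algebra.norm ℤ (1 + 4 * u) < 0 := by
        have h2 := Algebra.coe_norm_int (1 + 4 * u)
        rw [← h2] at hpos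
        exact_mod_cast hpos
      have h2 := hA4.trans_lt (hcon u h1)
      have h3 := abs_Ph_le A (fun φ => (ev ((1 + 4 * u : 𝓞 F) : F)) φ)
      have h4 : ∑ φ : F →+* ℂ, (ev ((1 + 4 * u : 𝓞 F) : F)) φ ^ 2 =
          n * RD.Ms ((1 + 4 * u : 𝓞 F) : F) := by
        rw [hn, ← norm_ev_sq hF, EuclideanSpace.norm_sq_eq]
        refine Finset.sum_congr rfl fun φ _ => ?_
        rw [Real.norm_eq_abs, sq_abs]
      rw [hcard, h4] at h3
      refine le_trans ?_ (neg_le_of_abs_le h3)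
      apply neg_le_neg
      rw [mul_assoc]
      refine mul_le_mul_of_nonneg_left ?_ (by positivity)
      rw [← Real.exp_nat_mul, ← Real.exp_add]
      apply Real.exp_le_exp.2
      rw [norm_ev_sq hF, ← hn]
      have h5 : A ^ 2 * n ≤ (A ^ 2)⁻¹ * (n * RD.Ms ((1 + 4 * u : 𝓞 F) : F)) := by
        have h6 : (A ^ 2)⁻¹ * A ^ 4 = A ^ 2 := by
          field_simp
        calc A ^ 2 * n = n * ((A ^ 2)⁻¹ * A ^ 4) := by rw [h6]; ring
          _ = (A ^ 2)⁻¹ * (n * A ^ 4) := by ring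
          _ ≤ _ := by gcongr
      have h6 : (4 * A ^ 2)⁻¹ = (A ^ 2)⁻¹ / 4 := by
        rw [mul_inv]
        ring
      have h7 : Real.pi / 2 / A ^ 2 = Real.pi / 2 * (A ^ 2)⁻¹ := rfl
      rw [h6, h7]
      have h8 : Real.pi / 4 * (A ^ 2 * n) ≤
          Real.pi / 4 * ((A ^ 2)⁻¹ * (n * RD.Ms ((1 + 4 * u : 𝓞 F) : F))) := by gcongr
      linarith
  -- the sum
  set z₂ : ℝ := z + Real.log 2 with hz₂
  have hez₂ : Real.exp z₂ = 2 * A := by
    rw [hz₂, Real.exp_add, hez, Real.exp_log (by norm_num)]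
    ring
  have hem₂ : Real.exp (-2 * z₂) = (4 * A ^ 2)⁻¹ := by
    have : -2 * z₂ = -((2 : ℕ) * z₂) := by
      push_cast
      ring
    rw [this, Real.exp_neg, Real.exp_nat_mul, hez₂]
    congr 1
    ring
  have hsP := sum_Ph (fun i => ev (b i)) (ev (1 : F)) z _ _ (fun w => GTHM.summ hGSM hlin z w) hP1
  rw [hez, hcard] at hsP
  have hs2 := GTHM.summ hGSM hlin z₂ (ev (1 : F))
  have hx : ∀ k : Fin n → ℤ, ∃ u : 𝓞 F, ev (1 : F) + zc (fun i => ev (b i)) k =
      ev ((1 + 4 * u : 𝓞 F) : F) := by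
    intro k
    have hmem : (∑ i, k i • b i) ∈ Submodule.span ℤ (Set.range b) :=
      Submodule.sum_mem _ fun i _ => Submodule.smul_mem _ _ (Submodule.subset_span ⟨i, rfl⟩)
    obtain ⟨u, hu⟩ := hint _ hmem
    refine ⟨u, ?_⟩
    rw [hzc, ← ev_add, ← hu]
    congr 1
  set D : ℝ := Real.exp (2 * Real.pi) ^ n * Real.exp (-(Real.pi / 4 * A ^ 2)) ^ n with hD
  have hD0 : 0 ≤ D := by positivity
  have hnn : ∀ k : Fin n → ℤ, 0 ≤ Ph A (fun φ => (ev (1 : F) + zc (fun i => ev (b i)) k) φ) + D *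
      Real.exp (-(Real.pi * Real.exp (-2 * z₂) *
        ‖ev (1 : F) + zc (fun i => ev (b i)) k‖ ^ 2)) := by
    intro k
    obtain ⟨u, hu⟩ := hx k
    rw [hu, hem₂]
    have := hlow u
    linarith
  have hsum := hsP.1.add (hs2.mul_left D)
  have h0 := hsum.le_tsum 0 fun k _ => hnn k
  rw [hsP.1.tsum_add (hs2.mul_left D), tsum_mul_left] at h0
  have h1 : (2 * Real.pi / A * Real.exp (-Real.pi)) ^ n ≤
      Ph A (fun φ => (ev (1 : F) + zc (fun i => ev (b i)) 0) φ) := by
    rw [GTHM.zc_zero, add_zero]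
    unfold Ph
    have h2 : ∀ φ : F →+* ℂ, (ev (1 : F)) φ = 1 := by
      intro φ
      simp [ev_apply]
    rw [← hcard, ← Finset.card_univ, ← Finset.prod_const]
    refine Finset.prod_le_prod (fun _ _ => by positivity) fun φ _ => ?_
    simp only [h2]
    exact fac_one A (by linarith)
  have h2 : ths z₂ (fun i => ev (b i)) (ev (1 : F)) ≤ (10 * A) ^ n := by
    have h3 := (hGTH _ n _ z₂ hlin).1 (ev (1 : F))
    have h4 := hth z₂ (by
      rw [hz₂]
      have := Real.log_nonneg (show (1 : ℝ) ≤ 2 by norm_num)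
      linarith)
    rw [hez₂] at h4
    have h5 : Real.exp (-(Real.pi * Real.exp (-2 * z₂) *
        Metric.infDist (ev (1 : F)) (Rs fun i => ev (b i) : Set (EK F)) ^ 2)) ≤ 1 := by
      rw [Real.exp_le_one_iff, neg_nonpos]
      positivity
    have h6 : 0 ≤ th z₂ (fun i => ev (b i)) := tsum_nonneg fun k => (Real.exp_pos _).le
    calc _ ≤ _ := h3
      _ ≤ th z₂ (fun i => ev (b i)) := mul_le_of_le_one_left h6 h5
      _ ≤ (5 * (2 * A)) ^ n := h4
      _ = _ := by congr 1; ring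
  have h3 := (abs_le.1 hsP.2).2
  unfold ths at h2
  have h4 : D * ∑' x : Fin n → ℤ, Real.exp (-(Real.pi * Real.exp (-2 * z₂) *
      ‖ev (1 : F) + zc (fun i => ev (b i)) x‖ ^ 2)) ≤ D * (10 * A) ^ n :=
    mul_le_mul_of_nonneg_left h2 hD0
  have h5 : Real.exp Real.pi ^ n * (Real.exp (z * n) / Δ * (4 ^ n *
      Real.exp (-(Real.pi / 2 * n * (25 * (1 + R) ^ 2))))) ≤
      (Real.exp Real.pi * (20 * A) * Real.exp (-(Real.pi / 2 * (25 * (1 + R) ^ 2)))) ^ n := by
    calc _ ≤ Real.exp Real.pi ^ n * ((5 * A) ^ n * (4 ^ n *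
          Real.exp (-(Real.pi / 2 * n * (25 * (1 + R) ^ 2))))) := by gcongr
      _ = _ := by
        have e1 : Real.exp (-(Real.pi / 2 * n * (25 * (1 + R) ^ 2))) =
            Real.exp (-(Real.pi / 2 * (25 * (1 + R) ^ 2))) ^ n := by
          rw [← Real.exp_nat_mul]
          congr 1
          ring
        rw [e1, ← mul_pow, ← mul_pow, ← mul_pow]
        congr 1
        ring
  have h6 : D * (10 * A) ^ n =
      (Real.exp (2 * Real.pi) * (10 * A) * Real.exp (-(Real.pi / 4 * A ^ 2))) ^ n := by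
    rw [hD, ← mul_pow, ← mul_pow]
    congr 1
    ring
  have h7 := pow_contra (2 * Real.pi / A * Real.exp (-Real.pi))
    (Real.exp Real.pi * (20 * A) * Real.exp (-(Real.pi / 2 * (25 * (1 + R) ^ 2))))
    (Real.exp (2 * Real.pi) * (10 * A) * Real.exp (-(Real.pi / 4 * A ^ 2))) n hn1
    (by positivity) (by positivity) (by positivity) (q_le R A hR0 hA) (r_le A hA20)
  have h8 : 0 ≤ D * Real.exp (-(Real.pi * Real.exp (-2 * z₂) *
      ‖ev (1 : F) + zc (fun i => ev (b i)) 0‖ ^ 2)) := by positivity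
  linarith

end Pool.Agent.Lib.MPcb8a44.RC
end
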