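import Pool.Agent.Lib.MP_cb8a44_nt.RC.SpecD
import Pool.Agent.Lib.MP_cb8a44_nt.RC.SpecE
import Pool.Agent.Lib.MP_cb8a44_nt.RD.Spec

section
section
/-!
# CDM: mass of the orthogonal lattice
-/
set_option autoImplicit false

open NumberField Module

namespace Pool.Agent.Lib.MPcb8a44.RC

theorem specCDM (hCOB : SpecCOB) (hRHB : SpecRHB) (hGTH : SpecGTH) (hEVB : SpecEVB)
    (hGRA : SpecGRA) : SpecCDM := by
  intro K _ _ hK A z
  obtain ⟨p, q, g, h, hind, hA, -, -, hdim, hgk⟩ := hCOB K hK A A le_rfl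
  generalize Fin.append g h = b at hind hA hgk
  obtain ⟨hsum, hrh⟩ := hRHB K hK (p + q) b z hind
  rw [hA] at hsum hrh
  have hindR := (((hEVB K hK).1 (p + q) b).1).1 hind
  have hpos : 0 < gk b := (hGRA (EK K) (p + q) (fun i => ev (b i))).2.1.1 hindR
  have hDpos : 0 < Dt A := hpos.trans_le hgk
  refine ⟨?_, hsum, ?_⟩
  · rw [← hA]
    exact Submodule.fg_span (Set.finite_range b)
  · rw [hrh]
    refine le_trans ?_ (hGTH (EK K) (p + q) (fun i => ev (b i)) z hindR).2.1
    have h1 : (finrank ℚ K : ℝ) - finrank ℚ A = ((p + q : ℕ) : ℝ) := by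
      rw [← hdim]
      push_cast
      ring
    have h2 : Real.exp (Real.log (Dt A) / 2) = Real.sqrt (Dt A) := by
      rw [Real.exp_half, Real.exp_log hDpos]
    rw [h1, Real.exp_sub, h2]
    refine div_le_div_of_nonneg_left (Real.exp_pos _).le (Real.sqrt_pos.2 hpos) ?_
    exact Real.sqrt_le_sqrt hgk

end Pool.Agent.Lib.MPcb8a44.RC
end

section
set_option autoImplicit false

open NumberField Module
open scoped Pointwise

namespace Pool.Agent.Lib.MPcb8a44.RC

namespace CLSM

lemma red (X : Type*) [AddCommGroup X] [Module.Free ℤ X] [Module.Finite ℤ X] (Q : ℕ) :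
    ∃ ρ : X →+ (Fin (finrank ℤ X) → ZMod Q), Function.Surjective ρ ∧
      ∀ x, ρ x = 0 ↔ ∃ y, x = (Q : ℤ) • y := by
  let b := Module.finBasis ℤ X
  refine ⟨{ toFun := fun x i => ((b.repr x i : ℤ) : ZMod Q)
            map_zero' := by ext i; simp
            map_add' := by intro x y; ext i; simp }, ?_, ?_⟩
  · intro z
    choose z' hz' using fun i => ZMod.intCast_surjective (z i)
    refine ⟨b.equivFun.symm z', ?_⟩
    ext i
    have : b.repr (b.equivFun.symm z') i = z' i := by
      have := congrFun (b.equivFun.apply_symm_apply z') i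
      rwa [Basis.equivFun_apply] at this
    simp only [AddMonoidHom.coe_mk, ZeroHom.coe_mk, this, hz']
  · intro x
    simp only [AddMonoidHom.coe_mk, ZeroHom.coe_mk]
    constructor
    · intro h
      have h1 : ∀ i, (Q : ℤ) ∣ b.repr x i := fun i => (ZMod.intCast_zmod_eq_zero_iff_dvd _ _).1 (congrFun h i)
      choose c hc using h1
      refine ⟨∑ i, c i • b i, ?_⟩
      rw [Finset.smul_sum]
      conv_lhs => rw [← b.sum_repr x]
      refine Finset.sum_congr rfl fun i _ => ?_
      rw [hc i, mul_smul]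
    · rintro ⟨y, rfl⟩
      ext i
      simp

lemma count {X Y : Type} [AddCommGroup X] [AddCommGroup Y] [Module.Free ℤ X] [Module.Finite ℤ X]
    [Module.Free ℤ Y] [Module.Finite ℤ Y] (f : X →ₗ[ℤ] Y) (hf : Function.Surjective f) (Q : ℕ)
    (hQ : 1 ≤ Q) (T : Finset X) (hT : ∀ t ∈ T, ∀ t' ∈ T, (∃ y, t - t' = (Q : ℤ) • y) → t = t') :
    ∃ S : Finset X, S ⊆ T ∧ (∀ t ∈ S, ∀ t' ∈ S, (∃ y, f t - f t' = (Q : ℤ) • y) → t = t') ∧
      T.card * Q ^ finrank ℤ Y ≤ S.card * Q ^ finrank ℤ X := by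
  classical
  have : NeZero Q := ⟨by omega⟩
  obtain ⟨ρ, hρ, hρ0⟩ := red X Q
  obtain ⟨σ, hσ, hσ0⟩ := red Y Q
  -- the induced map
  have hker : ρ.ker ≤ (σ.comp f.toAddMonoidHom).ker := by
    intro x hx
    rw [AddMonoidHom.mem_ker] at hx ⊢
    obtain ⟨y, rfl⟩ := (hρ0 x).1 hx
    rw [AddMonoidHom.comp_apply, hσ0]
    exact ⟨f y, by simp⟩
  let g : (Fin (finrank ℤ X) → ZMod Q) →+ (Fin (finrank ℤ Y) → ZMod Q) :=
    AddMonoidHom.liftOfSurjective ρ hρ ⟨σ.comp f.toAddMonoidHom, hker⟩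
  have hg : ∀ x, g (ρ x) = σ (f x) := fun x => by
    have := AddMonoidHom.liftOfRightInverse_comp_apply ρ _ (Function.rightInverse_surjInv hρ)
      ⟨σ.comp f.toAddMonoidHom, hker⟩ x
    exact this
  have hgs : Function.Surjective g := by
    intro z
    obtain ⟨y, rfl⟩ := hσ z
    obtain ⟨x, rfl⟩ := hf y
    exact ⟨ρ x, hg x⟩
  have hcardX : Fintype.card (Fin (finrank ℤ X) → ZMod Q) = Q ^ finrank ℤ X := by
    simp [ZMod.card]
  have hcardY : Fintype.card (Fin (finrank ℤ Y) → ZMod Q) = Q ^ finrank ℤ Y := by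
    simp [ZMod.card]
  set N := (Finset.univ.filter fun z => g z = 0).card with hN
  have hfib : ∀ w, (Finset.univ.filter fun z => g z = w).card = N := by
    intro w
    obtain ⟨z₀, rfl⟩ := hgs w
    rw [hN]
    refine Finset.card_bij' (fun z _ => z - z₀) (fun z _ => z + z₀) ?_ ?_ ?_ ?_
    · intro z hz
      simp only [Finset.mem_filter, Finset.mem_univ, true_and] at hz ⊢
      rw [map_sub, hz, sub_self]
    · intro z hz
      simp only [Finset.mem_filter, Finset.mem_univ, true_and] at hz ⊢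
      rw [map_add, hz, zero_add]
    · intro z _; simp
    · intro z _; simp
  have htot : Q ^ finrank ℤ X = N * Q ^ finrank ℤ Y := by
    rw [← hcardX, ← hcardY, ← Finset.card_univ,
      Finset.card_eq_sum_card_fiberwise (f := g) (t := Finset.univ) (fun _ _ => Finset.mem_coe.2 (Finset.mem_univ _))]
    rw [Finset.sum_congr rfl fun w _ => hfib w, Finset.sum_const, Finset.card_univ, smul_eq_mul,
      mul_comm]
  have hinj : Set.InjOn ρ (T : Set X) := by
    intro t ht t' ht' h
    refine hT t ht t' ht' ((hρ0 _).1 ?_)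
    rw [map_sub, h, sub_self]
  set T' := T.image ρ with hT'
  have hT'c : T'.card = T.card := Finset.card_image_of_injOn hinj
  have h1 : T'.card ≤ N * (T'.image g).card := by
    refine Finset.card_le_mul_card_image _ _ ?_
    intro w _
    rw [← hfib w]
    exact Finset.card_le_card (Finset.filter_subset_filter _ (Finset.subset_univ _))
  -- the representatives
  have h2 : ∀ w ∈ T.image (fun t => σ (f t)), ∃ t ∈ T, σ (f t) = w := by
    intro w hw
    simpa using hw
  choose! r hr hr2 using h2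
  refine ⟨(T.image fun t => σ (f t)).image r, ?_, ?_, ?_⟩
  · intro t ht
    obtain ⟨w, hw, rfl⟩ := Finset.mem_image.1 ht
    exact hr w hw
  · intro t ht t' ht' h
    obtain ⟨w, hw, rfl⟩ := Finset.mem_image.1 ht
    obtain ⟨w', hw', rfl⟩ := Finset.mem_image.1 ht'
    have := (hσ0 _).2 h
    rw [map_sub, sub_eq_zero, hr2 w hw, hr2 w' hw'] at this
    rw [this]
  · rw [Finset.card_image_of_injOn]
    · have h3 : T'.image g = T.image fun t => σ (f t) := by
        rw [hT', Finset.image_image]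
        refine Finset.image_congr fun t _ => ?_
        simp [hg]
      rw [h3, hT'c] at h1
      rw [htot]
      calc T.card * Q ^ finrank ℤ Y ≤ (N * (T.image fun t => σ (f t)).card) * Q ^ finrank ℤ Y :=
            Nat.mul_le_mul_right _ h1
        _ = _ := by ring
    · intro w hw w' hw' h
      have := congrArg (fun t => σ (f t)) h
      simpa [hr2 w hw, hr2 w' hw'] using this

end CLSM

open CLSM in
theorem specCLS : SpecCLS := by
  classical
  intro K _ _ W hW k u Q L hQ hL hLi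
  have : Module.Finite ℤ W := Module.Finite.iff_fg.2 hW
  set M : Submodule ℤ K := ⨆ i, W.map (LinearMap.mulLeft ℤ (u i)) with hM
  have : Module.Finite ℤ M := by
    refine Module.Finite.iff_fg.2 ?_
    exact Submodule.fg_iSup _ fun i => hW.map _
  have : Module.Free ℤ W := Module.free_of_finite_type_torsion_free'
  have : Module.Free ℤ M := Module.free_of_finite_type_torsion_free'
  have hmem : ∀ t : Fin k → W, ∑ i, u i * (t i : K) ∈ M := fun t =>
    Submodule.sum_mem _ fun i _ => Submodule.mem_iSup_of_mem i ⟨t i, (t i).2, rfl⟩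
  let f : (Fin k → W) →ₗ[ℤ] M :=
    { toFun := fun t => ⟨∑ i, u i * (t i : K), hmem t⟩
      map_add' := fun s t => by
        ext
        simp [mul_add, Finset.sum_add_distrib]
      map_smul' := fun c t => by
        ext
        simp [Finset.mul_sum, mul_left_comm] }
  have hf : Function.Surjective f := by
    rintro ⟨x, hx⟩
    have hle : M ≤ LinearMap.range (M.subtype.comp f) := iSup_le fun i => by
      rintro _ ⟨w, hw, rfl⟩
      refine ⟨Pi.single i ⟨w, hw⟩, ?_⟩
      change ∑ j, u j * ((Pi.single i (⟨w, hw⟩ : W) : Fin k → W) j : K) = u i * w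
      rw [Finset.sum_eq_single i]
      · rw [Pi.single_eq_same]
      · intro j _ hj
        rw [Pi.single_eq_of_ne hj]
        simp
      · intro h
        exact absurd (Finset.mem_univ i) h
    obtain ⟨t, ht⟩ := hle hx
    exact ⟨t, Subtype.ext ht⟩
  -- the tuples of elements of `L`
  let e : L → W := fun l => ⟨l, hL l l.2⟩
  have he : Function.Injective e := fun a b h => Subtype.ext (congrArg (fun x : W => (x : K)) h)
  let T : Finset (Fin k → W) := Finset.univ.image fun s : Fin k → L => fun i => e (s i)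
  have hTc : T.card = L.card ^ k := by
    rw [Finset.card_image_of_injective _ (fun s s' h => by
      ext i
      exact congrArg _ (he (congrFun h i)))]
    simp
  have hT : ∀ t ∈ T, ∀ t' ∈ T, (∃ y, t - t' = (Q : ℤ) • y) → t = t' := by
    rintro t ht t' ht' ⟨y, hy⟩
    obtain ⟨s, -, rfl⟩ := Finset.mem_image.1 ht
    obtain ⟨s', -, rfl⟩ := Finset.mem_image.1 ht'
    ext i
    refine hLi _ (s i).2 _ (s' i).2 ⟨y i, (y i).2, ?_⟩
    have := congrArg (fun x : W => (x : K)) (congrFun hy i)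
    simpa [e] using this
  obtain ⟨S, hS, hS1, hS2⟩ := count f hf Q hQ T hT
  have hinj : Set.InjOn (fun t => (f t : K)) (S : Set (Fin k → W)) := by
    intro t ht t' ht' h
    refine hS1 t ht t' ht' ⟨0, ?_⟩
    rw [smul_zero, sub_eq_zero]
    exact Subtype.ext h
  refine ⟨S.image fun t => (f t : K), ?_, ?_, ?_⟩
  · intro x hx
    obtain ⟨t, ht, rfl⟩ := Finset.mem_image.1 hx
    obtain ⟨s, -, hs⟩ := Finset.mem_image.1 (hS ht)
    refine ⟨fun i => (s i : K), fun i => (s i).2, ?_⟩
    rw [← hs]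
    rfl
  · intro x hx x' hx' ⟨w, hw, hww⟩
    obtain ⟨t, ht, rfl⟩ := Finset.mem_image.1 hx
    obtain ⟨t', ht', rfl⟩ := Finset.mem_image.1 hx'
    have : t = t' := hS1 t ht t' ht' ⟨⟨w, hw⟩, by
      ext
      simpa using hww⟩
    rw [this]
  · rw [Finset.card_image_of_injOn hinj, ← hTc]
    have : finrank ℤ (Fin k → W) = finrank ℤ W * k := by
      rw [Module.finrank_pi_fintype]
      simp [mul_comm]
    rw [← this]
    exact hS2

end Pool.Agent.Lib.MPcb8a44.RC
end

section
/-!
# Theorem RC, block D, module CN3: counting sums of three squares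
-/
set_option autoImplicit false

open NumberField Module
open scoped Pointwise

namespace Pool.Agent.Lib.MPcb8a44.RC

namespace CN3M

variable {K : Type} [Field K] [NumberField K]

lemma SS_nonneg (hK : RD.TR K) (φ : K →+* ℂ) {α : K} (h : α ∈ RD.SS K) :
    0 ≤ (φ α).re := by
  induction h using AddSubmonoid.closure_induction with
  | mem y hy =>
    obtain ⟨x, -, rfl⟩ := hy
    have h1 := hK φ x
    rw [map_pow, pow_two, Complex.mul_re, h1]
    nlinarith [mul_self_nonneg (φ x).re]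
  | zero => simp
  | add x y _ _ hx hy =>
    rw [map_add, Complex.add_re]
    linarith

lemma norm_eq (hK : RD.TR K) (φ : K →+* ℂ) {α : K} (h : α ∈ RD.SS K) : ‖φ α‖ = (φ α).re := by
  have h1 : φ α = ((φ α).re : ℂ) := by
    apply Complex.ext
    · simp
    · simp [hK φ α]
  rw [h1, Complex.norm_real, Real.norm_eq_abs, abs_of_nonneg (SS_nonneg hK φ h), Complex.ofReal_re]

lemma hs_le (hK : RD.TR K) {α : K} (h : α ∈ RD.SS K) : RD.hs α ≤ finrank ℚ K * Tm α := by
  have h0 : (finrank ℚ K : ℝ) ≠ 0 := by exact_mod_cast RD.d_pos.ne'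
  unfold Tm
  rw [mul_div_cancel₀ _ h0]
  obtain ⟨φ, hφ⟩ := RD.exists_hs α
  rw [← hφ, norm_eq hK φ h]
  exact Finset.single_le_sum (f := fun φ : K →+* ℂ => (φ α).re) (fun ψ _ => SS_nonneg hK ψ h)
    (Finset.mem_univ φ)

lemma fin (hK : RD.TR K) (Y : ℝ) : (ST K Y).Finite := by
  refine (RD.Bx_finite (K := K) (finrank ℚ K * Y)).subset ?_
  rintro α ⟨h1, h2⟩
  exact ⟨RD.SS_int h1, (hs_le hK h1).trans (mul_le_mul_of_nonneg_left h2 (Nat.cast_nonneg _))⟩

lemma sq3 (hK : RD.TR K) (a b c : K) :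
    ‖ev a‖ ^ 2 + ‖ev b‖ ^ 2 + ‖ev c‖ ^ 2 = finrank ℚ K * Tm (a ^ 2 + b ^ 2 + c ^ 2) := by
  have h0 : (finrank ℚ K : ℝ) ≠ 0 := by exact_mod_cast RD.d_pos.ne'
  unfold Tm
  rw [mul_div_cancel₀ _ h0, EuclideanSpace.norm_sq_eq, EuclideanSpace.norm_sq_eq,
    EuclideanSpace.norm_sq_eq, ← Finset.sum_add_distrib, ← Finset.sum_add_distrib]
  refine Finset.sum_congr rfl fun φ _ => ?_
  simp only [ev_apply, Real.norm_eq_abs, sq_abs, map_add, map_pow, Complex.add_re]
  rw [pow_two (φ a), pow_two (φ b), pow_two (φ c), Complex.mul_re, Complex.mul_re, Complex.mul_re,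
    hK φ a, hK φ b, hK φ c]
  ring

end CN3M

open CN3M in
/-- **CN3**. -/
theorem specCN3 (hMAA : SpecMAA) : SpecCN3 := by
  intro K _ _ hK
  refine ⟨fun Y => fin hK Y, fun hP Y hY => ?_⟩
  classical
  set z := Real.log Y / 2 with hz
  obtain ⟨-, -, -, hsum⟩ := (hMAA K hK z).1 ⊤
  have hez : Real.exp (-2 * z) = 1 / Y := by
    rw [hz, show -2 * (Real.log Y / 2) = -Real.log Y by ring, Real.exp_neg, Real.exp_log hY, one_div]
  let L := lat (⊤ : Submodule ℚ K)
  let g : L → ℝ := fun x => Real.exp (-(Real.pi * Real.exp (-2 * z) * ‖ev (x : K)‖ ^ 2))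
  have hg : Summable g := hsum
  have hg0 : ∀ x, 0 ≤ g x := fun x => (Real.exp_pos _).le
  have hg2 : Summable fun p : L × L => g p.1 * g p.2 := hg.mul_of_nonneg hg hg0 hg0
  have hg20 : ∀ p : L × L, 0 ≤ g p.1 * g p.2 := fun p => mul_nonneg (hg0 _) (hg0 _)
  have hg3 : Summable fun p : L × (L × L) => g p.1 * (g p.2.1 * g p.2.2) :=
    hg.mul_of_nonneg hg2 hg0 hg20
  have hrh : rh z L = ∑' x, g x := rfl
  have htot : ∑' p : L × (L × L), g p.1 * (g p.2.1 * g p.2.2) = rh z L ^ 3 := by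
    have e2 := hg.tsum_mul_tsum hg hg2
    have e3 := hg.tsum_mul_tsum hg2 hg3
    rw [← e3, ← e2, hrh]; ring
  have hch : ∀ α : ST K Y, ∃ p : L × (L × L),
      (α : K) = (p.1 : K) ^ 2 + (p.2.1 : K) ^ 2 + (p.2.2 : K) ^ 2 := by
    rintro ⟨α, h1, h2⟩
    obtain ⟨a, b, c, ha, hb, hc, he⟩ := hP α h1
    exact ⟨(⟨a, Submodule.mem_top, ha⟩, ⟨b, Submodule.mem_top, hb⟩, ⟨c, Submodule.mem_top, hc⟩), he⟩
  choose f hf using hch
  have hfi : Function.Injective f := by
    intro α β h
    apply Subtype.ext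
    rw [hf α, hf β, h]
  have : Fintype (ST K Y) := (fin hK Y).fintype
  have hterm : ∀ α : ST K Y, 1 ≤ Real.exp (Real.pi * finrank ℚ K) *
      (g (f α).1 * (g (f α).2.1 * g (f α).2.2)) := by
    intro α
    have h1 := sq3 hK (f α).1 (f α).2.1 (f α).2.2
    rw [← hf α] at h1
    have h2 : Tm (α : K) ≤ Y := α.2.2
    have h3 : ‖ev ((f α).1 : K)‖ ^ 2 + ‖ev ((f α).2.1 : K)‖ ^ 2 + ‖ev ((f α).2.2 : K)‖ ^ 2 ≤
        finrank ℚ K * Y := by
      rw [h1]; exact mul_le_mul_of_nonneg_left h2 (Nat.cast_nonneg _)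
    show 1 ≤ Real.exp (Real.pi * finrank ℚ K) *
      (Real.exp (-(Real.pi * Real.exp (-2 * z) * ‖ev ((f α).1 : K)‖ ^ 2)) *
      (Real.exp (-(Real.pi * Real.exp (-2 * z) * ‖ev ((f α).2.1 : K)‖ ^ 2)) *
        Real.exp (-(Real.pi * Real.exp (-2 * z) * ‖ev ((f α).2.2 : K)‖ ^ 2))))
    rw [← Real.exp_add, ← Real.exp_add, ← Real.exp_add, hez]
    apply Real.one_le_exp
    have h4 : Real.pi * (1 / Y) * (‖ev ((f α).1 : K)‖ ^ 2 + ‖ev ((f α).2.1 : K)‖ ^ 2 +
        ‖ev ((f α).2.2 : K)‖ ^ 2) ≤ Real.pi * (1 / Y) * (finrank ℚ K * Y) :=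
      mul_le_mul_of_nonneg_left h3 (by positivity)
    have h5 : Real.pi * (1 / Y) * (finrank ℚ K * Y) = Real.pi * finrank ℚ K := by
      field_simp
    linarith
  have hcard : ((ST K Y).ncard : ℝ) = ∑ _α : ST K Y, (1 : ℝ) := by
    rw [Finset.sum_const, Finset.card_univ, nsmul_eq_mul, mul_one, ← Nat.card_eq_fintype_card]
    rfl
  rw [hcard]
  calc ∑ _α : ST K Y, (1 : ℝ)
      ≤ ∑ α : ST K Y, Real.exp (Real.pi * finrank ℚ K) *
          (g (f α).1 * (g (f α).2.1 * g (f α).2.2)) := Finset.sum_le_sum fun α _ => hterm α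
    _ = Real.exp (Real.pi * finrank ℚ K) * ∑ α : ST K Y, (g (f α).1 * (g (f α).2.1 * g (f α).2.2)) := by
        rw [Finset.mul_sum]
    _ ≤ Real.exp (Real.pi * finrank ℚ K) * rh z L ^ 3 := by
        refine mul_le_mul_of_nonneg_left ?_ (Real.exp_pos _).le
        rw [← htot]
        have h6 : ∑ α : ST K Y, (g (f α).1 * (g (f α).2.1 * g (f α).2.2)) =
            ∑ p ∈ Finset.univ.map ⟨f, hfi⟩, g p.1 * (g p.2.1 * g p.2.2) := by
          rw [Finset.sum_map]; rfl
        rw [h6]
        exact hg3.sum_le_tsum _ fun p _ => mul_nonneg (hg0 _) (hg20 _)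

end Pool.Agent.Lib.MPcb8a44.RC
end

section
/-!
# COB: bases of the orthogonal lattices
-/
set_option autoImplicit false

open NumberField Module

namespace Pool.Agent.Lib.MPcb8a44.RC

namespace COBM

section Euclid

variable {E : Type} [NormedAddCommGroup E] [InnerProductSpace ℝ E]

theorem gd_equiv {n m : ℕ} (σ : Fin m ≃ Fin n) (b : Fin n → E) : gd (fun i => b (σ i)) = gd b := by
  unfold gd
  have h : Matrix.gram ℝ (fun i => b (σ i)) = (Matrix.gram ℝ b).submatrix σ σ := by
    apply Matrix.ext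
    intro i j
    rfl
  rw [h, Matrix.det_submatrix_equiv_self]

/-- an element of `Rs (append C F)` orthogonal to `C` is in the span of the components -/
theorem mem_comp {m k : ℕ} {C : Fin m → E} {F F' : Fin k → E} (h : PJ C F F') (w : E)
    (hw : w ∈ Rs (Fin.append C F)) (ho : ∀ i, inner ℝ (C i) w = 0) : w ∈ Rs F' := by
  have hwC : ∀ u ∈ Rs C, inner ℝ u w = 0 := by
    intro u hu
    refine Submodule.span_induction (p := fun u _ => inner ℝ u w = 0) ?_ ?_ ?_ ?_ hu
    · rintro _ ⟨i, rfl⟩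
      exact ho i
    · exact inner_zero_left _
    · intro x y _ _ hx hy
      rw [inner_add_left, hx, hy, add_zero]
    · intro a x _ hx
      rw [inner_smul_left, hx, mul_zero]
  have hdec : ∀ w ∈ Rs (Fin.append C F), ∃ u ∈ Rs C, ∃ v ∈ Rs F', w = u + v := by
    intro w hw
    refine Submodule.span_induction (p := fun w _ => ∃ u ∈ Rs C, ∃ v ∈ Rs F', w = u + v)
      ?_ ?_ ?_ ?_ hw
    · rintro _ ⟨i, rfl⟩
      refine Fin.addCases (fun i => ?_) (fun i => ?_) i
      · exact ⟨C i, Submodule.subset_span ⟨i, rfl⟩, 0, Submodule.zero_mem _, by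
          rw [Fin.append_left, add_zero]⟩
      · exact ⟨F i - F' i, (h i).1, F' i, Submodule.subset_span ⟨i, rfl⟩, by
          rw [Fin.append_right]; abel⟩
    · exact ⟨0, Submodule.zero_mem _, 0, Submodule.zero_mem _, (add_zero _).symm⟩
    · rintro x y _ _ ⟨u, hu, v, hv, rfl⟩ ⟨u', hu', v', hv', rfl⟩
      exact ⟨u + u', Submodule.add_mem _ hu hu', v + v', Submodule.add_mem _ hv hv', by abel⟩
    · rintro a x _ ⟨u, hu, v, hv, rfl⟩
      exact ⟨a • u, Submodule.smul_mem _ a hu, a • v, Submodule.smul_mem _ a hv, smul_add _ _ _⟩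
  obtain ⟨u, hu, v, hv, rfl⟩ := hdec w hw
  have hvu : inner ℝ u v = 0 := by
    refine Submodule.span_induction (p := fun v _ => inner ℝ u v = 0) ?_ ?_ ?_ ?_ hv
    · rintro _ ⟨i, rfl⟩
      exact (h i).2 u hu
    · exact inner_zero_right _
    · intro x y _ _ hx hy
      rw [inner_add_right, hx, hy, add_zero]
    · intro a x _ hx
      rw [inner_smul_right, hx, mul_zero]
  have huu := hwC u hu
  rw [inner_add_right, hvu, add_zero, inner_self_eq_zero] at huu
  rw [huu, zero_add]
  exact hv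

end Euclid

section Field

variable {K : Type} [Field K] [NumberField K]

theorem dual_exists {n : ℕ} (β : Fin n → K) (hβ : LinearIndependent ℚ β)
    (hspan : Submodule.span ℚ (Set.range β) = ⊤) :
    ∃ δ : Fin n → K, LinearIndependent ℚ δ ∧
      (∀ i j, Algebra.trace ℚ K (δ i * β j) = if j = i then 1 else 0) ∧
      (∀ x, x = ∑ i, Algebra.trace ℚ K (x * β i) • δ i) := by
  classical
  let bas : Basis (Fin n) ℚ K := Basis.mk hβ (by rw [hspan])
  have hbas : ∀ i, bas i = β i := fun i => Basis.mk_apply _ _ _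
  let dl := (Algebra.traceForm ℚ K).dualBasis (traceForm_nondegenerate ℚ K) bas
  refine ⟨dl, dl.linearIndependent, ?_, ?_⟩
  · intro i j
    have h := LinearMap.BilinForm.apply_dualBasis_left (traceForm_nondegenerate ℚ K) bas i j
    rw [Algebra.traceForm_apply, hbas] at h
    exact h
  · intro x
    conv_lhs => rw [← dl.sum_repr x]
    refine Finset.sum_congr rfl fun i _ => ?_
    rw [LinearMap.BilinForm.dualBasis_repr_apply, Algebra.traceForm_apply, hbas]

theorem trace_int {n : ℕ} (β δ : Fin n → K) (hβ : IB (⊤ : Submodule ℚ K) β)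
    (hδ : ∀ i j, Algebra.trace ℚ K (δ i * β j) = if j = i then 1 else 0) (i : Fin n) (o : K)
    (ho : IsIntegral ℤ o) : ∃ k : ℤ, Algebra.trace ℚ K (δ i * o) = k := by
  have h := hβ.gen o ⟨Submodule.mem_top, ho⟩
  refine Submodule.span_induction (p := fun o _ => ∃ k : ℤ, Algebra.trace ℚ K (δ i * o) = k)
    ?_ ?_ ?_ ?_ h
  · rintro _ ⟨j, rfl⟩
    rw [hδ]
    split_ifs
    · exact ⟨1, by simp⟩
    · exact ⟨0, by simp⟩
  · exact ⟨0, by simp⟩
  · rintro x y _ _ ⟨a, ha⟩ ⟨b, hb⟩
    exact ⟨a + b, by rw [mul_add, map_add, ha, hb]; push_cast; rfl⟩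
  · rintro a x _ ⟨b, hb⟩
    exact ⟨a * b, by rw [mul_smul_comm, map_zsmul, hb]; simp⟩

theorem trace_zero {n : ℕ} (c : Fin n → K) (A : Submodule ℚ K)
    (hA : Submodule.span ℚ (Set.range c) = A) (x : K)
    (h : ∀ i, Algebra.trace ℚ K (x * c i) = 0) : ∀ a ∈ A, Algebra.trace ℚ K (x * a) = 0 := by
  intro a ha
  rw [← hA] at ha
  refine Submodule.span_induction (p := fun a _ => Algebra.trace ℚ K (x * a) = 0) ?_ ?_ ?_ ?_ ha
  · rintro _ ⟨j, rfl⟩
    exact h j
  · simp
  · intro y z _ _ hy hz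
    rw [mul_add, map_add, hy, hz, add_zero]
  · intro q y _ hy
    rw [mul_smul_comm, map_smul, hy, smul_zero]

theorem int_smul {q : ℚ} {k : ℤ} (h : q = k) (y : K) (S : Submodule ℤ K) (hy : y ∈ S) :
    q • y ∈ S := by
  rw [h, Int.cast_smul_eq_zsmul]
  exact S.smul_mem k hy

end Field

end COBM

open COBM in
theorem specCOB (hEVB : SpecEVB) (hLTB : SpecLTB) (hDUB : SpecDUB) (hPJE : SpecPJE) :
    SpecCOB := by
  intro K _ _ hK A B hAB
  classical
  obtain ⟨L1, L2, L3, L4⟩ := hLTB K hK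
  obtain ⟨m, c, hc⟩ := L2 A
  obtain ⟨k, e, he⟩ := L1 A B hAB m c hc
  obtain ⟨l, f, hf⟩ := L1 B ⊤ le_top (m + k) (Fin.append c e) he
  obtain ⟨hm, hcA, hDA, hDA1⟩ := L3 A m c hc
  obtain ⟨hmk, heB, hDB, -⟩ := L3 B (m + k) _ he
  obtain ⟨hmkl, hfT, hDT, hDT1⟩ := L3 ⊤ (m + k + l) _ hf
  rw [finrank_top] at hmkl
  obtain ⟨δ, hδi, hδ, hδx⟩ := dual_exists _ hf.ind hfT
  have hint := trace_int _ δ hf hδ
  -- the two tuples
  let g : Fin l → K := fun j => δ (Fin.natAdd (m + k) j)
  let h : Fin k → K := fun j => δ (Fin.castAdd l (Fin.natAdd m j))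
  have hgdef : ∀ j, g j = δ (Fin.natAdd (m + k) j) := fun _ => rfl
  have hhdef : ∀ j, h j = δ (Fin.castAdd l (Fin.natAdd m j)) := fun _ => rfl
  clear_value g h
  -- values of the trace
  have tgc : ∀ j i, Algebra.trace ℚ K (g j * c i) = 0 := by
    intro j i
    have h1 := hδ (Fin.natAdd (m + k) j) (Fin.castAdd l (Fin.castAdd k i))
    rw [Fin.append_left, Fin.append_left, ← hgdef] at h1
    rw [h1, if_neg]
    intro h2
    have h3 := congrArg Fin.val h2
    simp at h3
    have := i.2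
    omega
  have tge : ∀ j i, Algebra.trace ℚ K (g j * e i) = 0 := by
    intro j i
    have h1 := hδ (Fin.natAdd (m + k) j) (Fin.castAdd l (Fin.natAdd m i))
    rw [Fin.append_left, Fin.append_right, ← hgdef] at h1
    rw [h1, if_neg]
    intro h2
    have h3 := congrArg Fin.val h2
    simp at h3
    have := i.2
    omega
  have thc : ∀ j i, Algebra.trace ℚ K (h j * c i) = 0 := by
    intro j i
    have h1 := hδ (Fin.castAdd l (Fin.natAdd m j)) (Fin.castAdd l (Fin.castAdd k i))
    rw [Fin.append_left, Fin.append_left, ← hhdef] at h1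
    rw [h1, if_neg]
    intro h2
    have h3 := congrArg Fin.val h2
    simp at h3
    have := i.2
    omega
  have the : ∀ j i, Algebra.trace ℚ K (h j * e i) = if i = j then 1 else 0 := by
    intro j i
    have h1 := hδ (Fin.castAdd l (Fin.natAdd m j)) (Fin.castAdd l (Fin.natAdd m i))
    rw [Fin.append_left, Fin.append_right, ← hhdef] at h1
    rw [h1]
    congr 1
    rw [eq_iff_iff]
    constructor
    · intro h2
      have h3 := congrArg Fin.val h2
      simp at h3
      exact Fin.ext h3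
    · rintro rfl
      rfl
  have thf : ∀ j i, Algebra.trace ℚ K (h j * f i) = 0 := by
    intro j i
    have h1 := hδ (Fin.castAdd l (Fin.natAdd m j)) (Fin.natAdd (m + k) i)
    rw [Fin.append_right, ← hhdef] at h1
    rw [h1, if_neg]
    intro h2
    have h3 := congrArg Fin.val h2
    simp at h3
    have := j.2
    omega
  have tgf : ∀ j i, Algebra.trace ℚ K (g j * f i) = if i = j then 1 else 0 := by
    intro j i
    have h1 := hδ (Fin.natAdd (m + k) j) (Fin.natAdd (m + k) i)
    rw [Fin.append_right, ← hgdef] at h1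
    rw [h1]
    congr 1
    rw [eq_iff_iff]
    constructor
    · intro h2
      have h3 := congrArg Fin.val h2
      simp at h3
      exact Fin.ext h3
    · rintro rfl
      rfl
  -- integrality
  have ce_int : ∀ i, IsIntegral ℤ (e i) := by
    intro i
    have h1 := (he.mem (Fin.natAdd m i)).2
    rwa [Fin.append_right] at h1
  have cf_int : ∀ i, IsIntegral ℤ (f i) := by
    intro i
    have h1 := (hf.mem (Fin.natAdd (m + k) i)).2
    rwa [Fin.append_right] at h1
  have ce_mem : ∀ i, e i ∈ B := by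
    intro i
    have h1 := (he.mem (Fin.natAdd m i)).1
    rwa [Fin.append_right] at h1
  have cc_mem : ∀ i, c i ∈ A := fun i => (hc.mem i).1
  -- expansions
  have hexp : ∀ x : K, (∀ i, Algebra.trace ℚ K (x * c i) = 0) →
      x = (∑ j, Algebra.trace ℚ K (x * e j) • h j) + ∑ j, Algebra.trace ℚ K (x * f j) • g j := by
    intro x hx
    conv_lhs => rw [hδx x]
    rw [Fin.sum_univ_add, Fin.sum_univ_add]
    simp only [Fin.append_left, Fin.append_right, hx, zero_smul, Finset.sum_const_zero, zero_add,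
      ← hgdef, ← hhdef]
  have hg_cod : ∀ j, g j ∈ cod B := by
    intro j
    refine ⟨fun o ho => by rw [hgdef]; exact hint _ o ho, trace_zero _ B heB _ fun i => ?_⟩
    refine Fin.addCases (fun i => ?_) (fun i => ?_) i
    · rw [Fin.append_left]
      exact tgc j i
    · rw [Fin.append_right]
      exact tge j i
  have hh_cod : ∀ j, h j ∈ cod A := by
    intro j
    exact ⟨fun o ho => by rw [hhdef]; exact hint _ o ho, trace_zero _ A hcA _ (thc j)⟩
  have hBA : cod B ≤ cod A := fun x hx => ⟨hx.1, fun a ha => hx.2 a (hAB ha)⟩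
  have hind : LinearIndependent ℚ (Fin.append g h) := by
    obtain ⟨ι, ι1, ι2⟩ : ∃ ι : Fin (l + k) → Fin (m + k + l),
        (∀ j, ι (Fin.castAdd k j) = Fin.natAdd (m + k) j) ∧
        ∀ j, ι (Fin.natAdd l j) = Fin.castAdd l (Fin.natAdd m j) :=
      ⟨Fin.append (fun j => Fin.natAdd (m + k) j) (fun j => Fin.castAdd l (Fin.natAdd m j)),
        fun j => Fin.append_left _ _ _, fun j => Fin.append_right _ _ _⟩
    have h1 : Fin.append g h = δ ∘ ι := by
      funext i
      refine Fin.addCases (fun i => ?_) (fun i => ?_) i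
      · rw [Fin.append_left, hgdef, Function.comp_apply, ι1]
      · rw [Fin.append_right, hhdef, Function.comp_apply, ι2]
    rw [h1]
    refine hδi.comp ι ?_
    intro i j
    refine Fin.addCases (fun i => ?_) (fun i => ?_) i <;>
      refine Fin.addCases (fun j => ?_) (fun j => ?_) j <;> intro hij <;>
      simp only [ι1, ι2] at hij <;>
      have h3 := congrArg Fin.val hij <;> simp at h3
    · rw [Fin.ext h3]
    · have := j.2
      omega
    · have := i.2
      omega
    · rw [Fin.ext h3]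
  refine ⟨l, k, g, h, hind, ?_, ?_, by omega, by omega, ?_⟩
  · apply le_antisymm
    · rw [Submodule.span_le]
      rintro _ ⟨i, rfl⟩
      refine Fin.addCases (fun i => ?_) (fun i => ?_) i
      · rw [Fin.append_left]
        exact hBA (hg_cod i)
      · rw [Fin.append_right]
        exact hh_cod i
    · intro x hx
      rw [hexp x fun i => hx.2 _ (cc_mem i)]
      refine Submodule.add_mem _ (Submodule.sum_mem _ fun j _ => ?_)
        (Submodule.sum_mem _ fun j _ => ?_)
      · obtain ⟨n, hn⟩ := hx.1 _ (ce_int j)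
        exact int_smul hn _ _ (Submodule.subset_span ⟨Fin.natAdd l j, Fin.append_right _ _ _⟩)
      · obtain ⟨n, hn⟩ := hx.1 _ (cf_int j)
        exact int_smul hn _ _ (Submodule.subset_span ⟨Fin.castAdd k j, Fin.append_left _ _ _⟩)
  · apply le_antisymm
    · rw [Submodule.span_le]
      rintro _ ⟨i, rfl⟩
      exact hg_cod i
    · intro x hx
      rw [hexp x fun i => hx.2 _ (hAB (cc_mem i))]
      refine Submodule.add_mem _ (Submodule.sum_mem _ fun j _ => ?_)
        (Submodule.sum_mem _ fun j _ => ?_)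
      · rw [hx.2 _ (ce_mem j), zero_smul]
        exact Submodule.zero_mem _
      · obtain ⟨n, hn⟩ := hx.1 _ (cf_int j)
        exact int_smul hn _ _ (Submodule.subset_span ⟨j, rfl⟩)
  · -- the determinant
    obtain ⟨EV, -⟩ := hEVB K hK
    have hC : (fun i => ev (Fin.append (Fin.append c e) f i)) =
        fun i => Fin.append (fun i => ev (c i)) (fun i => ev (Fin.append e f i))
          (finCongr (Nat.add_assoc m k l) i) := by
      funext i
      refine Fin.addCases (fun i => ?_) (fun i => ?_) i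
      · refine Fin.addCases (fun i => ?_) (fun i => ?_) i
        · have e1 : finCongr (Nat.add_assoc m k l) (Fin.castAdd l (Fin.castAdd k i)) =
              Fin.castAdd (k + l) i := Fin.ext rfl
          rw [Fin.append_left, Fin.append_left, e1, Fin.append_left]
        · have e1 : finCongr (Nat.add_assoc m k l) (Fin.castAdd l (Fin.natAdd m i)) =
              Fin.natAdd m (Fin.castAdd l i) := Fin.ext rfl
          rw [Fin.append_left, Fin.append_right, e1, Fin.append_right, Fin.append_left]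
      · have e1 : finCongr (Nat.add_assoc m k l) (Fin.natAdd (m + k) i) =
            Fin.natAdd m (Fin.natAdd k i) := Fin.ext (by simp [Nat.add_assoc])
        rw [Fin.append_right, e1, Fin.append_right, Fin.append_right]
    have hgdT : gk (Fin.append (Fin.append c e) f) =
        gd (Fin.append (fun i => ev (c i)) (fun i => ev (Fin.append e f i))) := by
      unfold gk
      rw [hC, gd_equiv]
    have hindT : LinearIndependent ℝ (Fin.append (fun i => ev (c i))
        (fun i => ev (Fin.append e f i))) := by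
      have h1 := ((EV _ (Fin.append (Fin.append c e) f)).1).1 hf.ind
      rw [hC] at h1
      have h2 := h1.comp (finCongr (Nat.add_assoc m k l)).symm
        (finCongr (Nat.add_assoc m k l)).symm.injective
      have h3 : ((fun i => Fin.append (fun i => ev (c i)) (fun i => ev (Fin.append e f i))
          (finCongr (Nat.add_assoc m k l) i)) ∘ (finCongr (Nat.add_assoc m k l)).symm) =
          Fin.append (fun i => ev (c i)) (fun i => ev (Fin.append e f i)) := by
        funext i
        rw [Function.comp_apply, Equiv.apply_symm_apply]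
      rwa [h3] at h2
    obtain ⟨⟨F', hF'⟩, hall⟩ := hPJE (EK K) m (k + l) (fun i => ev (c i))
      (fun i => ev (Fin.append e f i))
    obtain ⟨hgd, hF'i, -, -⟩ := hall F' hF'
    have hF'i' := hF'i hindT
    -- the dual basis
    have hperp : ∀ i j, inner ℝ (ev (c i)) (ev (Fin.append h g j)) = 0 := by
      intro i j
      rw [inner_ev hK, mul_comm]
      refine Fin.addCases (fun j => ?_) (fun j => ?_) j
      · rw [Fin.append_left, thc, Rat.cast_zero]
      · rw [Fin.append_right, tgc, Rat.cast_zero]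
    have hperp2 : ∀ u ∈ Rs (fun i => ev (c i)), ∀ j, inner ℝ u (ev (Fin.append h g j)) = 0 := by
      intro u hu j
      refine Submodule.span_induction (p := fun u _ => inner ℝ u (ev (Fin.append h g j)) = 0)
        ?_ ?_ ?_ ?_ hu
      · rintro _ ⟨i, rfl⟩
        exact hperp i j
      · exact inner_zero_left _
      · intro x y _ _ hx hy
        rw [inner_add_left, hx, hy, add_zero]
      · intro a x _ hx
        rw [inner_smul_left, hx, mul_zero]
    have hpair : ∀ i j, inner ℝ (F' i) (ev (Fin.append h g j)) = if i = j then (1 : ℝ) else 0 := by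
      intro i j
      have h1 := hperp2 _ (hF' i).1 j
      rw [inner_sub_left, sub_eq_zero] at h1
      rw [← h1, inner_ev hK, mul_comm]
      refine Fin.addCases (fun i => ?_) (fun i => ?_) i <;>
        refine Fin.addCases (fun j => ?_) (fun j => ?_) j
      · rw [Fin.append_left, Fin.append_left, the]
        by_cases hij : i = j
        · rw [if_pos hij, if_pos (by rw [hij]), Rat.cast_one]
        · rw [if_neg hij, if_neg, Rat.cast_zero]
          intro h2
          exact hij (Fin.castAdd_injective _ _ h2)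
      · rw [Fin.append_left, Fin.append_right, tge, if_neg, Rat.cast_zero]
        intro h2
        have h3 := congrArg Fin.val h2
        simp at h3
        have := i.2
        omega
      · rw [Fin.append_right, Fin.append_left, thf, if_neg, Rat.cast_zero]
        intro h2
        have h3 := congrArg Fin.val h2
        simp at h3
        have := j.2
        omega
      · rw [Fin.append_right, Fin.append_right, tgf]
        by_cases hij : i = j
        · rw [if_pos hij, if_pos (by rw [hij]), Rat.cast_one]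
        · rw [if_neg hij, if_neg, Rat.cast_zero]
          intro h2
          exact hij (Fin.natAdd_injective _ _ h2)
    have hindhg : LinearIndependent ℚ (Fin.append h g) := by
      have h1 : Fin.append h g = Fin.append g h ∘ finAddFlip := by
        funext i
        refine Fin.addCases (fun i => ?_) (fun i => ?_) i
        · rw [Fin.append_left, Function.comp_apply, finAddFlip_apply_castAdd, Fin.append_right]
        · rw [Fin.append_right, Function.comp_apply, finAddFlip_apply_natAdd, Fin.append_left]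
      rw [h1]
      exact hind.comp _ finAddFlip.injective
    have hindhg2 := ((EV _ (Fin.append h g)).1).1 hindhg
    have hle : Rs (fun i => ev (Fin.append h g i)) ≤ Rs F' := by
      rw [Submodule.span_le]
      rintro _ ⟨j, rfl⟩
      refine mem_comp hF' _ ?_ (fun i => hperp i j)
      have h1 := ((EV _ (Fin.append (Fin.append c e) f)).2.1 (Fin.append h g j)).2 (by
        rw [hfT]
        exact Submodule.mem_top)
      rw [hC] at h1
      refine Submodule.span_mono ?_ h1
      rintro _ ⟨i, rfl⟩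
      exact ⟨finCongr (Nat.add_assoc m k l) i, rfl⟩
    have hfd : FiniteDimensional ℝ (Rs F') := FiniteDimensional.span_of_finite ℝ (Set.finite_range _)
    have heq : Rs (fun i => ev (Fin.append h g i)) = Rs F' := by
      refine Submodule.eq_of_le_of_finrank_eq hle ?_
      rw [finrank_span_eq_card hindhg2, finrank_span_eq_card hF'i']
    obtain ⟨-, hdual⟩ := hDUB (EK K) (k + l) F' hF'i'
    obtain ⟨-, hprod, -, -⟩ := hdual (fun i => ev (Fin.append h g i)) ⟨heq, hpair⟩
    have hflip : gk (Fin.append g h) = gd (fun i => ev (Fin.append h g i)) := by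
      unfold gk
      rw [← gd_equiv (finAddFlip : Fin (k + l) ≃ Fin (l + k)) (fun i => ev (Fin.append g h i))]
      congr 1
      funext i
      refine Fin.addCases (fun i => ?_) (fun i => ?_) i
      · rw [finAddFlip_apply_castAdd, Fin.append_right, Fin.append_left]
      · rw [finAddFlip_apply_natAdd, Fin.append_left, Fin.append_right]
    rw [hflip]
    have hA : Dt A = gd (fun i => ev (c i)) := hDA
    have hT : Dt (⊤ : Submodule ℚ K) = Dt A * gd F' := by rw [hDT, hgdT, hgd, hA]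
    generalize gd (fun i => ev (Fin.append h g i)) = y at hprod
    generalize gd F' = x at hprod hT
    rw [hT] at hDT1
    have hx0 : x ≠ 0 := by
      rintro rfl
      rw [zero_mul] at hprod
      exact zero_ne_one hprod
    have hxpos : 0 < x := by
      rcases lt_or_gt_of_ne hx0 with hx | hx
      · have : Dt A * x ≤ 0 := mul_nonpos_of_nonneg_of_nonpos (by linarith) hx.le
        linarith
      · exact hx
    have hypos : 0 < y := by
      by_contra hcon
      have : x * y ≤ 0 := mul_nonpos_of_nonneg_of_nonpos hxpos.le (not_lt.1 hcon)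
      linarith
    have h9 : y * 1 ≤ y * (Dt A * x) := mul_le_mul_of_nonneg_left hDT1 hypos.le
    have h10 : y * (Dt A * x) = Dt A * (x * y) := by ring
    rw [h10, hprod, mul_one, mul_one] at h9
    exact h9

end Pool.Agent.Lib.MPcb8a44.RC
end

section
/-!
# Theorem RC, block D, module DGL: digits
-/
set_option autoImplicit false

open NumberField Module
open scoped Pointwise

namespace Pool.Agent.Lib.MPcb8a44.RC

/-- **DGL**. -/
theorem specDGL : SpecDGL := by
  intro K _ _ W q H hq hW hH m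
  have hq0 : (q : K) ≠ 0 := by
    have : q ≠ 0 := by omega
    exact_mod_cast this
  have hmul : ∀ (n : ℕ) (x : K), x ∈ W → (q : K) ^ n * x ∈ W := by
    intro n x hx
    have h1 := W.smul_mem ((q : ℤ) ^ n) hx
    rw [zsmul_eq_mul] at h1
    push_cast at h1
    exact h1
  induction m with
  | zero =>
    intro h h' _ _ _
    exact Subsingleton.elim _ _
  | succ m ih =>
    rintro h h' h1 h2 ⟨w, hw, hs⟩
    rw [Fin.sum_univ_succ, Fin.sum_univ_succ] at hs
    simp only [Fin.val_zero, pow_zero, one_mul, Fin.val_succ] at hs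
    set S := ∑ j : Fin m, (q : K) ^ (j : ℕ) * h j.succ with hS
    set S' := ∑ j : Fin m, (q : K) ^ (j : ℕ) * h' j.succ with hS'
    have e1 : ∑ j : Fin m, (q : K) ^ ((j : ℕ) + 1) * h j.succ = q * S := by
      rw [hS, Finset.mul_sum]
      exact Finset.sum_congr rfl fun j _ => by ring
    have e2 : ∑ j : Fin m, (q : K) ^ ((j : ℕ) + 1) * h' j.succ = q * S' := by
      rw [hS', Finset.mul_sum]
      exact Finset.sum_congr rfl fun j _ => by ring
    rw [e1, e2] at hs
    have hSW : S ∈ W := W.sum_mem fun j _ => hmul _ _ (hW _ (h1 _))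
    have hSW' : S' ∈ W := W.sum_mem fun j _ => hmul _ _ (hW _ (h2 _))
    have h0 : h 0 = h' 0 := by
      refine hH _ (h1 0) _ (h2 0) ⟨(q : K) ^ m * w - (S - S'), W.sub_mem (hmul _ _ hw) (W.sub_mem hSW hSW'), ?_⟩
      linear_combination hs
    have h3 : S - S' = (q : K) ^ m * w := by
      apply mul_left_cancel₀ hq0
      rw [h0] at hs
      linear_combination hs
    have h4 := ih (fun j => h j.succ) (fun j => h' j.succ) (fun j => h1 _) (fun j => h2 _) ⟨w, hw, h3⟩
    funext j
    refine Fin.cases h0 (fun i => ?_) j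
    exact congrFun h4 i

end Pool.Agent.Lib.MPcb8a44.RC
end

section
/-!
# FPK: few products span almost everything
-/
set_option autoImplicit false

open NumberField Module
open scoped Pointwise

namespace Pool.Agent.Lib.MPcb8a44.RC

namespace FPKM

variable {K : Type} [Field K] [NumberField K]

theorem sc_one (A : Submodule ℚ K) : sc 1 A = A := by
  ext x
  rw [mem_sc]
  constructor
  · rintro ⟨a, ha, rfl⟩
    rwa [one_mul]
  · intro hx
    exact ⟨x, hx, one_mul x⟩

theorem iSup_snoc {n : ℕ} (u : Fin n → K) (v : K) (A : Submodule ℚ K) :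
    (⨆ i : Fin (n + 1), sc ((Fin.snoc u v : Fin (n + 1) → K) i) A)
      = (⨆ i : Fin n, sc (u i) A) ⊔ sc v A := by
  apply le_antisymm
  · apply iSup_le
    intro i
    refine Fin.lastCases ?_ (fun j => ?_) i
    · rw [Fin.snoc_last]
      exact le_sup_right
    · rw [Fin.snoc_castSucc]
      exact (le_iSup (fun i => sc (u i) A) j).trans le_sup_left
  · apply sup_le
    · apply iSup_le
      intro j
      have h1 := le_iSup (fun i : Fin (n + 1) => sc ((Fin.snoc u v : Fin (n + 1) → K) i) A)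
        (Fin.castSucc j)
      simp only [Fin.snoc_castSucc] at h1
      exact h1
    · have h1 := le_iSup (fun i : Fin (n + 1) => sc ((Fin.snoc u v : Fin (n + 1) → K) i) A)
        (Fin.last n)
      simp only [Fin.snoc_last] at h1
      exact h1

end FPKM

theorem specFPK (hFPS : SpecFPS) (hHUL : SpecHUL) (hHMO : SpecHMO) (hHMU : SpecHMU) :
    SpecFPK := by
  intro C hC hRM K _ _ hK x y T δ ρ hx hy hδ hδ1 hT hρ hρT hnn
  have hlog : 0 ≤ Real.log C := Real.log_nonneg hC
  have hT0 : 0 < T := by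
    by_contra h
    push Not at h
    have h1 : δ * T ≤ 0 := mul_nonpos_of_nonneg_of_nonpos hδ.le h
    linarith
  have hd0 : (0 : ℝ) < finrank ℚ K := by exact_mod_cast RD.d_pos
  obtain ⟨_, hHUL2, hHUL3, _⟩ := hHUL K hK (x + y + T)
  -- the statement for the final tuple
  let Q : ℕ → Prop := fun k => ∃ u : Fin (k + 1) → K,
    (∀ i, u i ≠ 0 ∧ IsIntegral ℤ (u i) ∧ RD.hs (u i) ≤ Real.exp (y + T)) ∧ (∃ i, u i = 1) ∧
    (1 - δ) * finrank ℚ K ≤ (finrank ℚ (⨆ i, sc (u i) (HV K x) : Submodule ℚ K) : ℝ)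
  have key : ∀ k : ℕ, (∃ k' ≤ k, Q k') ∨ ∃ u : Fin (k + 1) → K,
      (∀ i, u i ≠ 0 ∧ IsIntegral ℤ (u i) ∧ RD.hs (u i) ≤ Real.exp (y + T)) ∧ (∃ i, u i = 1) ∧
      DE (x + y + T) (⨆ i, sc (u i) (HV K x)) ∧
      (k : ℝ) * (ρ * finrank ℚ K) ≤ (finrank ℚ (⨆ i, sc (u i) (HV K x) : Submodule ℚ K) : ℝ) := by
    intro k
    induction k with
    | zero =>
      right
      refine ⟨fun _ => 1, fun _ => ⟨one_ne_zero, isIntegral_one, ?_⟩, ⟨0, rfl⟩, ?_, ?_⟩
      · rw [RD.hs_one]
        exact Real.one_le_exp (by linarith)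
      · have h1 : (⨆ _ : Fin (0 + 1), sc (1 : K) (HV K x)) = HV K x := by
          rw [FPKM.sc_one]
          exact iSup_const
        rw [h1]
        exact (hHMO K hK).1 x (x + y + T) _ (by linarith) (hHUL K hK x).2.2.1
      · rw [Nat.cast_zero, zero_mul]
        exact Nat.cast_nonneg _
    | succ k ih =>
      rcases ih with ⟨k', hk', hQ⟩ | ⟨u, hu, hu1, hDE, hdim⟩
      · exact Or.inl ⟨k', by omega, hQ⟩
      · by_cases hbig : (1 - δ) * finrank ℚ K
            ≤ (finrank ℚ (⨆ i, sc (u i) (HV K x) : Submodule ℚ K) : ℝ)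
        · exact Or.inl ⟨k, by omega, u, hu, hu1, hbig⟩
        · right
          push Not at hbig
          obtain ⟨v, hv, hv0, hvdim⟩ := hFPS C hC hRM K hK x y T δ ρ hx hy hδ hδ1 hT hρ hρT hnn
            _ hDE hbig.le
          have hvint : IsIntegral ℤ v := hv.1.2
          have hvhs : RD.hs v ≤ Real.exp (y + T) := hv.2
          refine ⟨Fin.snoc u v, ?_, ?_, ?_, ?_⟩
          · intro i
            refine Fin.lastCases ?_ (fun j => ?_) i
            · rw [Fin.snoc_last]
              exact ⟨hv0, hvint, hvhs⟩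
            · rw [Fin.snoc_castSucc]
              exact hu j
          · obtain ⟨i, hi⟩ := hu1
            exact ⟨Fin.castSucc i, by rw [Fin.snoc_castSucc, hi]⟩
          · rw [FPKM.iSup_snoc]
            apply hHUL2 _ _ hDE
            have h1 := (hHMU K hK).1 v (y + T) x (HV K x) hv0 hvint hvhs (hHUL K hK x).2.2.1
            rwa [← add_assoc] at h1
          · rw [FPKM.iSup_snoc]
            push_cast
            have h1 : ((k : ℝ) + 1) * (ρ * finrank ℚ K)
                = (k : ℝ) * (ρ * finrank ℚ K) + ρ * finrank ℚ K := by ring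
            rw [h1]
            linarith
  -- the number of steps
  set k := ⌊1 / ρ⌋₊ + 1 with hk
  have hkρ : 1 < (k : ℝ) * ρ := by
    have h1 : 1 / ρ < (k : ℝ) := by
      rw [hk]
      push_cast
      exact Nat.lt_floor_add_one _
    rwa [div_lt_iff₀ hρ] at h1
  rcases key k with ⟨k', hk', u, hu, hu1, hbig⟩ | ⟨u, _, _, _, hdim⟩
  · refine ⟨k' + 1, u, ?_, hu, hu1, hbig⟩
    have h1 : (k' : ℝ) ≤ (k : ℝ) := by exact_mod_cast hk'
    have h2 : (k : ℝ) ≤ 1 / ρ + 1 := by
      rw [hk]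
      push_cast
      have := Nat.floor_le (one_div_pos.2 hρ).le
      linarith
    push_cast
    linarith
  · exfalso
    have h1 : (finrank ℚ (⨆ i, sc (u i) (HV K x) : Submodule ℚ K) : ℝ) ≤ finrank ℚ K := by
      exact_mod_cast Submodule.finrank_le _
    have h2 : (k : ℝ) * (ρ * finrank ℚ K) = ((k : ℝ) * ρ) * finrank ℚ K := by ring
    rw [h2] at hdim
    have h3 : 1 * (finrank ℚ K : ℝ) < ((k : ℝ) * ρ) * finrank ℚ K :=
      mul_lt_mul_of_pos_right hkρ hd0
    linarith

end Pool.Agent.Lib.MPcb8a44.RC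
end

section
/-!
# Module FRC of Theorem RC: the theorem from the blocks
-/
set_option autoImplicit false

open NumberField Module

namespace Pool.Agent.Lib.MPcb8a44.RC

namespace FRCM

lemma finrank_one_top {K : Type} [Field K] [NumberField K] (F : IntermediateField ℚ K)
    (h : finrank F K = 1) : fs F = ⊤ := by
  have h1 : F = ⊤ := by
    rw [← IntermediateField.finrank_eq_one_iff_eq_top]
    exact h
  subst h1
  rfl

end FRCM

theorem specFRC (hHUL : SpecHUL) (hHMO : SpecHMO) (hNZ0 : SpecNZ0) (hSBF : SpecSBF)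
    (hDTF : SpecDTF) (hTOP : SpecTOP) (hREL : SpecREL) : SpecFRC := by
  intro C hC hRM
  obtain ⟨C₁, hC₁0, hC₁⟩ := hREL C hC hRM
  set ε : ℝ := 1 / (200 * (C₁ + 1)) with hε
  have hε0 : 0 < ε := by positivity
  have hε1 : ε ≤ 1 := by
    rw [hε, div_le_one (by positivity)]
    linarith
  have hε2 : ε * (C₁ + 1) = 1 / 200 := by
    rw [hε]
    field_simp
  obtain ⟨C', hC'⟩ := hNZ0 C hC hRM ε hε0 hε1
  set M : ℝ := |C'| + 100 * (5 + Real.log C) with hM
  have hlog : 0 ≤ Real.log C := Real.log_nonneg hC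
  have hM0 : 0 ≤ M := by positivity
  refine ⟨200 * (C₁ + 1) * (1 + M), ?_⟩
  intro K _ _ hK hP
  obtain ⟨z, hz0, hz1, hz2⟩ := hC' K hK hP
  obtain ⟨hT1, hT2, hT3⟩ := hTOP K hK
  set z' : ℝ := max z (100 * (5 + Real.log C)) with hz'
  have hz'1 : z' ≤ ε * LD K + M := by
    rw [hz']
    apply max_le
    · have : C' ≤ |C'| := le_abs_self _
      rw [hM]
      linarith
    · rw [hM]
      have := abs_nonneg C'
      nlinarith [mul_nonneg hε0.le hT3]
  have hz'0 : 0 ≤ z' := le_trans hz0 (le_max_left _ _)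
  obtain ⟨-, hmono, -⟩ := hHMO K hK
  have hnn : nn K z ≤ nn K z' := (hmono z z' (le_max_left _ _)).2
  obtain ⟨F, hF3, hFD⟩ := hSBF C hC hRM K hK z' (le_max_right _ _) (by omega)
  have hLF : LD F ≤ 54 * z' := by
    have := hDTF K hK F (27 * z') hFD
    linarith
  have hFpos : 0 < finrank F K := finrank_pos
  have hkey : LD K ≤ (C₁ + 1) * (1 + 54 * z') := by
    rcases Nat.lt_or_ge 1 (finrank F K) with h | h
    · have h1 := hC₁ K hK hP F h hF3
      calc LD K ≤ C₁ * (1 + LD F) := h1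
        _ ≤ C₁ * (1 + 54 * z') := mul_le_mul_of_nonneg_left (by linarith) hC₁0
        _ ≤ (C₁ + 1) * (1 + 54 * z') := by nlinarith
    · have h1 : finrank F K = 1 := by omega
      have htop := FRCM.finrank_one_top F h1
      have h2 : DE (27 * z') (⊤ : Submodule ℚ K) := by
        have := hFD
        rw [htop] at this
        exact this
      obtain ⟨-, -, -, hle, -⟩ := hHUL K hK (27 * z')
      have h3 : HV K (27 * z') = ⊤ := top_le_iff.1 (hle ⊤ h2)
      have h4 := hT2 _ h3
      nlinarith [mul_nonneg hC₁0 hz'0]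
  have h5 : (C₁ + 1) * (1 + 54 * z') ≤ (C₁ + 1) * (1 + 54 * M) + 54 / 200 * LD K := by
    have : (C₁ + 1) * (54 * z') ≤ (C₁ + 1) * (54 * (ε * LD K + M)) := by
      apply mul_le_mul_of_nonneg_left _ (by linarith)
      linarith
    have h6 : (C₁ + 1) * (54 * (ε * LD K + M)) = 54 * (ε * (C₁ + 1)) * LD K + (C₁ + 1) * (54 * M) := by
      ring
    rw [hε2] at h6
    nlinarith
  nlinarith [mul_nonneg hC₁0 hM0]

end Pool.Agent.Lib.MPcb8a44.RC
end

section
/-!
# Theorem RC, block D, module GRS (helper90): `GG` on a grid.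
-/
set_option autoImplicit false

open NumberField Module

namespace Pool.Agent.Lib.MPcb8a44.RC

namespace GRSM

/-- `nn ≤ d`. -/
theorem nn_le (K : Type) [Field K] [NumberField K] (y : ℝ) : nn K y ≤ finrank ℚ K :=
  Submodule.finrank_le _

/-- A one-sided Lipschitz estimate which only uses the values of `nn` strictly below `x`. -/
theorem GG_le (hHMO : SpecHMO) (K : Type) [Field K] [NumberField K] (hK : RD.TR K) (c x x' : ℝ)
    (hx : x' ≤ x) (hc : ∀ z, x' ≤ z → z < x → (nn K z : ℝ) ≤ c) :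
    GG K x ≤ GG K x' + c * (x - x') := by
  obtain ⟨_, _, h3, _, _, _⟩ := hHMO K hK
  rcases eq_or_lt_of_le hx with rfl | hlt
  · simp
  set d : ℝ := (finrank ℚ K : ℝ) with hd
  have hd0 : 0 ≤ d := Nat.cast_nonneg _
  refine le_of_forall_pos_le_add fun ε hε => ?_
  -- a point close to `x`
  obtain ⟨z, hz1, hz2, hz3⟩ : ∃ z, x' ≤ z ∧ z < x ∧ (d + |c|) * (x - z) ≤ ε := by
    refine ⟨max x' (x - ε / (d + |c| + 1)), le_max_left _ _, ?_, ?_⟩
    · have : 0 < ε / (d + |c| + 1) := by positivity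
      exact max_lt hlt (by linarith)
    · have h1 : x - max x' (x - ε / (d + |c| + 1)) ≤ ε / (d + |c| + 1) := by
        have := le_max_right x' (x - ε / (d + |c| + 1))
        linarith
      have h2 : 0 ≤ d + |c| := by positivity
      calc (d + |c|) * (x - max x' (x - ε / (d + |c| + 1)))
          ≤ (d + |c|) * (ε / (d + |c| + 1)) := mul_le_mul_of_nonneg_left h1 h2
        _ ≤ (d + |c| + 1) * (ε / (d + |c| + 1)) :=
            mul_le_mul_of_nonneg_right (by linarith) (by positivity)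
        _ = ε := by
            have : d + |c| + 1 ≠ 0 := by positivity
            field_simp
  -- from `x'` to `z`
  have h4 := h3 z x'
  have h5 : (nn K z : ℝ) * (z - x') ≤ c * (z - x') :=
    mul_le_mul_of_nonneg_right (hc z hz1 hz2) (by linarith)
  -- from `z` to `x`
  have h6 := h3 x z
  have h7 : (nn K x : ℝ) * (x - z) ≤ d * (x - z) := by
    refine mul_le_mul_of_nonneg_right ?_ (by linarith)
    rw [hd]
    exact_mod_cast nn_le K x
  have h8 : -(c * (x - z)) ≤ |c| * (x - z) := by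
    have := neg_abs_le c
    nlinarith
  nlinarith

end GRSM

open GRSM in
/-- **GRS**. -/
theorem specGRS (hHMO : SpecHMO) : SpecGRS := by
  intro K _ _ hK D e hD he0 hemono hge hlt
  obtain ⟨_, _, h3, h4, _, _⟩ := hHMO K hK
  have hD0 : (0 : ℝ) < D := by exact_mod_cast hD
  have hd0 : (0 : ℝ) ≤ (finrank ℚ K : ℝ) := Nat.cast_nonneg _
  have hdD : 0 ≤ (finrank ℚ K : ℝ) / D := div_nonneg hd0 hD0.le
  refine ⟨?_, ?_⟩
  · intro m
    induction m with
    | zero =>
      intro a _ ha _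
      simpa using (h4 a).1
    | succ m ih =>
      intro a hm ha hea
      have hem : e m ≤ a := hea m (Nat.lt_succ_self m)
      have h5 := ih (e m) (by omega) (he0 m) (fun i hi => hemono hi.le)
      have h6 := h3 (e m) a
      have h7 : ((m : ℝ) + 1) * ((finrank ℚ K : ℝ) / D) ≤ nn K (e m) := by
        have h8 : (((m + 1) * finrank ℚ K : ℕ) : ℝ) ≤ ((D * nn K (e m) : ℕ) : ℝ) := by
          exact_mod_cast hge m (by omega)
        push_cast at h8
        rw [mul_div_assoc', div_le_iff₀ hD0]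
        linarith
      have h8 : ((m : ℝ) + 1) * ((finrank ℚ K : ℝ) / D) * (a - e m) ≤
          nn K (e m) * (a - e m) := mul_le_mul_of_nonneg_right h7 (by linarith)
      have h9 : ∑ i ∈ Finset.range m, (a - e i) =
          ∑ i ∈ Finset.range m, (e m - e i) + m * (a - e m) := by
        have : ∀ i ∈ Finset.range m, a - e i = (e m - e i) + (a - e m) := fun i _ => by ring
        rw [Finset.sum_congr rfl this, Finset.sum_add_distrib, Finset.sum_const,
          Finset.card_range, nsmul_eq_mul]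
      rw [Finset.sum_range_succ, h9]
      have h10 : (finrank ℚ K : ℝ) / D *
          (∑ i ∈ Finset.range m, (e m - e i) + m * (a - e m) + (a - e m)) =
          (finrank ℚ K : ℝ) / D * ∑ i ∈ Finset.range m, (e m - e i) +
          ((m : ℝ) + 1) * ((finrank ℚ K : ℝ) / D) * (a - e m) := by ring
      rw [h10]
      linarith
  · intro m
    induction m with
    | zero =>
      intro x _ hx _ hxe
      have h5 := GG_le hHMO K hK ((finrank ℚ K : ℝ) / D) x 0 hx (fun z _ hz => by
        have h6 : (((D * nn K z : ℕ)) : ℝ) < (((0 + 1) * finrank ℚ K : ℕ) : ℝ) := by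
          exact_mod_cast hlt 0 (by omega) z (lt_of_lt_of_le hz (hxe 0 le_rfl (by omega)))
        push_cast at h6
        rw [le_div_iff₀ hD0]
        linarith)
      have h6 : GG K 0 = 0 := by
        have h7 := h4 0
        have h8 := h7.2
        rw [zero_mul] at h8
        exact le_antisymm h8 h7.1
      rw [h6] at h5
      simpa using h5
    | succ m ih =>
      intro x hm hx hea hxe
      have hem : e m ≤ x := hea m (Nat.lt_succ_self m)
      have h5 := ih (e m) (by omega) (he0 m) (fun i hi => hemono hi.le)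
        (fun i hi _ => hemono hi)
      have h6 := GG_le hHMO K hK (((m : ℝ) + 2) * ((finrank ℚ K : ℝ) / D)) x (e m) hem
        (fun z _ hz => by
          rcases lt_or_ge (m + 1) D with hmD | hmD
          · have h7 : (((D * nn K z : ℕ)) : ℝ) < (((m + 1 + 1) * finrank ℚ K : ℕ) : ℝ) := by
              exact_mod_cast hlt (m + 1) hmD z (lt_of_lt_of_le hz (hxe (m + 1) le_rfl hmD))
            push_cast at h7
            rw [mul_div_assoc', le_div_iff₀ hD0]
            nlinarith
          · have h7 : (nn K z : ℝ) ≤ finrank ℚ K := by exact_mod_cast nn_le K z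
            have h8 : (D : ℝ) ≤ m + 2 := by
              have : D ≤ m + 1 := hm |> fun h => by omega
              have h9 : (D : ℝ) ≤ ((m + 1 : ℕ) : ℝ) := by exact_mod_cast this
              push_cast at h9
              linarith
            rw [mul_div_assoc', le_div_iff₀ hD0]
            calc (nn K z : ℝ) * D ≤ finrank ℚ K * D := mul_le_mul_of_nonneg_right h7 hD0.le
              _ ≤ finrank ℚ K * ((m : ℝ) + 2) := mul_le_mul_of_nonneg_left h8 hd0
              _ = ((m : ℝ) + 2) * finrank ℚ K := by ring)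
      have h9 : ∑ i ∈ Finset.range m, (x - e i) =
          ∑ i ∈ Finset.range m, (e m - e i) + m * (x - e m) := by
        have : ∀ i ∈ Finset.range m, x - e i = (e m - e i) + (x - e m) := fun i _ => by ring
        rw [Finset.sum_congr rfl this, Finset.sum_add_distrib, Finset.sum_const,
          Finset.card_range, nsmul_eq_mul]
      rw [Finset.sum_range_succ, h9]
      have h10 : (finrank ℚ K : ℝ) / D *
          (∑ i ∈ Finset.range m, (e m - e i) + m * (x - e m) + (x - e m) + x) =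
          (finrank ℚ K : ℝ) / D * (∑ i ∈ Finset.range m, (e m - e i) + e m) +
          ((m : ℝ) + 2) * ((finrank ℚ K : ℝ) / D) * (x - e m) := by ring
      rw [h10]
      linarith

end Pool.Agent.Lib.MPcb8a44.RC
end

section
/-!
# Theorem RC, block D, module INF (helper90): the counting inequality.
-/
set_option autoImplicit false

open NumberField Module
open scoped Pointwise

namespace Pool.Agent.Lib.MPcb8a44.RC

namespace INFM

/-- `nn ≤ d`. -/
theorem nn_le (K : Type) [Field K] [NumberField K] (y : ℝ) : nn K y ≤ finrank ℚ K :=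
  Submodule.finrank_le _

theorem log_two_pos : 0 < Real.log 2 := Real.log_pos (by norm_num)

theorem log_two_le : Real.log 2 ≤ 1 := by
  have := Real.log_two_lt_d9
  linarith

/-- The step size `Q = K₀ log 2`. -/
theorem exists_step (T : ℝ) : ∃ K₀ : ℕ, T ≤ K₀ * Real.log 2 ∧
    (0 ≤ T → K₀ * Real.log 2 ≤ T + 1) := by
  have h0 := log_two_pos
  refine ⟨⌈T / Real.log 2⌉₊, ?_, fun hT => ?_⟩
  · have h1 := Nat.le_ceil (T / Real.log 2)
    rwa [div_le_iff₀ h0] at h1
  · have h1 := Nat.ceil_lt_add_one (div_nonneg hT h0.le)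
    have h2 := mul_le_mul_of_nonneg_right h1.le h0.le
    have h3 : (T / Real.log 2 + 1) * Real.log 2 = T + Real.log 2 := by
      field_simp
    have := log_two_le
    linarith

/-- The number of steps of size `Q` in `[0, t]`. -/
theorem exists_count (Q t : ℝ) (hQ : 0 < Q) (ht : 0 ≤ t) : ∃ m : ℕ, m * Q ≤ t ∧ t - Q ≤ m * Q := by
  refine ⟨⌊t / Q⌋₊, ?_, ?_⟩
  · have h1 := Nat.floor_le (div_nonneg ht hQ.le)
    rwa [le_div_iff₀ hQ] at h1
  · have h1 := Nat.lt_floor_add_one (t / Q)
    rw [div_lt_iff₀ hQ] at h1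
    linarith

/-- A bound for the number of steps. -/
theorem count_le {m : ℕ} {Q t η R T : ℝ} (hη : 0 < η) (hT : 0 < T) (hTQ : T ≤ Q)
    (hR : η * R ≤ T) (c : ℝ) (hc : 0 ≤ c) (ht : t ≤ c * R) (hm : m * Q ≤ t) :
    (m : ℝ) ≤ c / η := by
  have hQ : 0 < Q := lt_of_lt_of_le hT hTQ
  rw [le_div_iff₀ hη]
  have h1 : (m : ℝ) * Q ≤ c * R := hm.trans ht
  have h2 : (m : ℝ) * Q * η ≤ c * R * η := mul_le_mul_of_nonneg_right h1 hη.le
  have h3 : c * (η * R) ≤ c * Q := mul_le_mul_of_nonneg_left (hR.trans hTQ) hc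
  have h4 : (m : ℝ) * η * Q ≤ c * Q := by
    calc (m : ℝ) * η * Q = m * Q * η := by ring
      _ ≤ c * R * η := h2
      _ = c * (η * R) := by ring
      _ ≤ c * Q := h3
  exact le_of_mul_le_mul_right h4 hQ

end INFM

open INFM in
/-- **INF**. -/
theorem specINF (hFPK : SpecFPK) (hLOW : SpecLOW) (hUPB : SpecUPB) (hHMO : SpecHMO) :
    SpecINF := by
  intro C hC hRM D ε hD hε hε1
  have hc0 : 0 ≤ Real.log C := Real.log_nonneg hC
  set c₀ : ℝ := Real.log C with hc₀
  have hD0 : (0 : ℝ) < D := by exact_mod_cast hD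
  have hD1 : (1 : ℝ) ≤ D := by exact_mod_cast hD
  -- the constants
  obtain ⟨δ, hδ0, hδ1, hδD, hδε⟩ : ∃ δ : ℝ, 0 < δ ∧ δ ≤ 1 ∧ 2 * δ ≤ 1 / D ∧ δ ≤ ε / 16 := by
    refine ⟨min (1 / (2 * D)) (ε / 16), by positivity, ?_, ?_, min_le_right _ _⟩
    · have := min_le_right (1 / (2 * (D : ℝ))) (ε / 16)
      linarith
    · have h1 := min_le_left (1 / (2 * (D : ℝ))) (ε / 16)
      have h2 : 2 * (1 / (2 * (D : ℝ))) = 1 / D := by field_simp
      linarith
  obtain ⟨η, hη⟩ : ∃ η : ℝ, η = ε / 100 := ⟨_, rfl⟩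
  have hη0 : 0 < η := by rw [hη]; positivity
  obtain ⟨J, hJ1, hJε⟩ : ∃ J : ℕ, 1 ≤ J ∧ 3 / (J : ℝ) ≤ ε / 4 := by
    refine ⟨⌈12 / ε⌉₊ + 1, by omega, ?_⟩
    have h1 : 12 / ε ≤ ((⌈12 / ε⌉₊ + 1 : ℕ) : ℝ) := by
      push_cast
      linarith [Nat.le_ceil (12 / ε)]
    have h2 : (0 : ℝ) < ((⌈12 / ε⌉₊ + 1 : ℕ) : ℝ) := by positivity
    rw [div_le_div_iff₀ h2 (by norm_num)]
    rw [div_le_iff₀ hε] at h1
    linarith
  have hJ0 : (0 : ℝ) < J := by exact_mod_cast hJ1
  obtain ⟨T₀, hT₀⟩ : ∃ T₀ : ℝ, T₀ = (6 + c₀) / δ := ⟨_, rfl⟩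
  have hT₀δ : δ * T₀ = 6 + c₀ := by rw [hT₀]; field_simp
  have hT₀6 : 6 + c₀ ≤ T₀ := by
    rw [hT₀, le_div_iff₀ hδ0]
    nlinarith
  have hT₀0 : 0 < T₀ := by linarith
  obtain ⟨ρ, hρ⟩ : ∃ ρ : ℝ, ρ = δ ^ 2 / (6 / η + 4) := ⟨_, rfl⟩
  have hρ0 : 0 < ρ := by rw [hρ]; positivity
  have hρe : ρ * (6 / η + 4) = δ ^ 2 := by
    rw [hρ]
    field_simp
  obtain ⟨N₀, hN₀⟩ : ∃ N₀ : ℝ, N₀ = (1 / ρ + 2) * (2 / η) + 1 / η + 1 := ⟨_, rfl⟩
  have hN₀1 : 1 ≤ N₀ := by
    rw [hN₀]
    have : 0 ≤ (1 / ρ + 2) * (2 / η) + 1 / η := by positivity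
    linarith
  have hlogN₀ : 0 ≤ Real.log (4 * N₀) := Real.log_nonneg (by linarith)
  have hlog2 := log_two_pos
  obtain ⟨C', hC'⟩ : ∃ C' : ℝ, C' = (5 + c₀) * N₀ +
      2 * (4 + 3 * c₀ + 3 / 2 * (J * Real.log 2 + Real.log (4 * N₀))) + 14 * T₀ + 14 := ⟨_, rfl⟩
  have hC'0 : 0 ≤ C' := by
    rw [hC']
    positivity
  refine ⟨C', hC'0, ?_⟩
  intro K _ _ hK h3K R x a y hy0 hyx ha0 hax hxR hsum
  obtain ⟨_, _, h3, h4, _, _⟩ := hHMO K hK
  have hx0 : 0 ≤ x := hy0.trans hyx
  have hR0 : 0 ≤ R := hx0.trans hxR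
  obtain ⟨d, hd⟩ : ∃ d : ℝ, d = (finrank ℚ K : ℝ) := ⟨_, rfl⟩
  have hd0 : 0 ≤ d := by rw [hd]; exact Nat.cast_nonneg _
  obtain ⟨T, hT⟩ : ∃ T : ℝ, T = η * R + T₀ := ⟨_, rfl⟩
  have hTT₀ : T₀ ≤ T := by
    have := mul_nonneg hη0.le hR0
    linarith
  have hT0 : 0 < T := lt_of_lt_of_le hT₀0 hTT₀
  have hηR : η * R ≤ T := by linarith
  -- few products
  have hF1 : 6 + Real.log C ≤ δ * T := by
    have := mul_le_mul_of_nonneg_left hTT₀ hδ0.le
    linarith
  have hF2 : ρ * (3 * (a + y + T) + 2 + Real.log C) ≤ δ ^ 2 * T := by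
    have h5 : 6 * R ≤ 6 / η * T := by
      rw [div_mul_eq_mul_div, le_div_iff₀ hη0]
      linarith
    have h6 : 3 * (a + y + T) + 2 + Real.log C ≤ (6 / η + 4) * T := by
      rw [← hc₀]
      have : (6 / η + 4) * T = 6 / η * T + 4 * T := by ring
      rw [this]
      linarith
    calc ρ * (3 * (a + y + T) + 2 + Real.log C) ≤ ρ * ((6 / η + 4) * T) :=
          mul_le_mul_of_nonneg_left h6 hρ0.le
      _ = δ ^ 2 * T := by rw [← mul_assoc, hρe]
  have hF3 : (1 + 2 * δ) * finrank ℚ K ≤ (nn K y : ℝ) + nn K a := by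
    refine le_trans (mul_le_mul_of_nonneg_right ?_ (Nat.cast_nonneg _)) hsum
    linarith
  obtain ⟨k, u, hk, hu, hu1, hr⟩ := hFPK C hC hRM K hK a y T δ ρ ha0 hy0 hδ0 hδ1 hF1 hρ0 hF2 hF3
  obtain ⟨r, hrdef⟩ : ∃ r : ℕ, r = finrank ℚ (⨆ i, sc (u i) (HV K a) : Submodule ℚ K) := ⟨_, rfl⟩
  rw [← hrdef] at hr
  -- the steps
  obtain ⟨K₀, hK₀1, hK₀2⟩ := exists_step T
  obtain ⟨Q, hQ⟩ : ∃ Q : ℝ, Q = K₀ * Real.log 2 := ⟨_, rfl⟩
  rw [← hQ] at hK₀1 hK₀2
  have hQT := hK₀2 hT0.le
  have hQ0 : 0 < Q := lt_of_lt_of_le hT0 hK₀1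
  obtain ⟨m₁, hm₁1, hm₁2⟩ := exists_count Q (2 * x - a - y) hQ0 (by linarith)
  obtain ⟨m₂, hm₂1, hm₂2⟩ := exists_count Q y hQ0 hy0
  obtain ⟨X, hX⟩ : ∃ X : ℝ, X = x + T + Q + 1 := ⟨_, rfl⟩
  have hlog2' := log_two_le
  -- the number of summands
  obtain ⟨N, hN⟩ : ∃ N : ℕ, N = k * m₁ + m₂ + 1 := ⟨_, rfl⟩
  have hN1 : 1 ≤ N := by omega
  have hm₁b : (m₁ : ℝ) ≤ 2 / η :=
    count_le hη0 hT0 hK₀1 hηR 2 (by norm_num) (by linarith) hm₁1
  have hm₂b : (m₂ : ℝ) ≤ 1 / η :=
    count_le hη0 hT0 hK₀1 hηR 1 (by norm_num) (by linarith) hm₂1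
  have hNb : (N : ℝ) ≤ N₀ := by
    rw [hN, hN₀]
    push_cast
    have h5 : (k : ℝ) * m₁ ≤ (1 / ρ + 2) * (2 / η) :=
      mul_le_mul hk hm₁b (Nat.cast_nonneg _) (by positivity)
    linarith
  have hlow := hLOW C hC hRM K hK a y T X K₀ m₁ m₂ k u ha0 hy0 hT0.le (by linarith) hu hu1
    (by linarith) (by rw [← hQ]; linarith) (by rw [← hQ]; linarith)
    (by rw [← hQ, add_mul]; linarith)
  have hupb := hUPB C hC hRM K hK h3K X N J hN1 hJ1
  rw [← hN, ← hQ, ← hrdef] at hlow
  obtain ⟨L, hL⟩ : ∃ L : ℝ, L = Real.log ((ST K (4 * N * Real.exp (2 * X)) -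
    ST K (4 * N * Real.exp (2 * X))).ncard) := ⟨_, rfl⟩
  rw [← hL] at hlow hupb
  rw [← hc₀, ← hd] at hlow hupb
  rw [← hd] at hr ⊢
  -- lower bound
  have hrd : (r : ℝ) ≤ d := by
    rw [hrdef, hd]
    exact_mod_cast Submodule.finrank_le _
  have hnnd : (nn K a : ℝ) ≤ d := by
    rw [hd]
    exact_mod_cast nn_le K a
  have hnna : (0 : ℝ) ≤ nn K a := Nat.cast_nonneg _
  have hlo1 : (2 * x - a - y) * d - 2 * R * δ * d - Q * d ≤ m₁ * Q * r := by
    have h5 : (m₁ * Q) * ((1 - δ) * d) ≤ (m₁ * Q) * r :=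
      mul_le_mul_of_nonneg_left hr (mul_nonneg (Nat.cast_nonneg _) hQ0.le)
    have h6 : (2 * x - a - y - Q) * ((1 - δ) * d) ≤ (m₁ * Q) * ((1 - δ) * d) :=
      mul_le_mul_of_nonneg_right hm₁2 (mul_nonneg (by linarith) hd0)
    have h7 : (2 * x - a - y) * (δ * d) ≤ 2 * R * (δ * d) :=
      mul_le_mul_of_nonneg_right (by linarith) (mul_nonneg hδ0.le hd0)
    have h8 : 0 ≤ Q * (δ * d) := mul_nonneg hQ0.le (mul_nonneg hδ0.le hd0)
    have h9 : (2 * x - a - y - Q) * ((1 - δ) * d) =
        (2 * x - a - y) * d - (2 * x - a - y) * (δ * d) - Q * d + Q * (δ * d) := by ring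
    rw [h9] at h6
    have h10 : 2 * R * (δ * d) = 2 * R * δ * d := by ring
    linarith
  have hlo2 : y * nn K a - Q * d ≤ m₂ * Q * nn K a := by
    have h5 : (y - Q) * nn K a ≤ m₂ * Q * nn K a := mul_le_mul_of_nonneg_right hm₂2 hnna
    have h6 : Q * nn K a ≤ Q * d := mul_le_mul_of_nonneg_left hnnd hQ0.le
    have h7 : (y - Q) * nn K a = y * nn K a - Q * nn K a := by ring
    rw [h7] at h5
    linarith
  have hlo3 : d * ((5 + c₀) * N) ≤ d * ((5 + c₀) * N₀) :=
    mul_le_mul_of_nonneg_left (mul_le_mul_of_nonneg_left hNb (by linarith)) hd0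
  have hlow' : m₁ * Q * r + m₂ * Q * nn K a + GG K a - d * ((5 + c₀) * N) ≤ L := by
    have h5 : ((5 : ℝ) + c₀) * (k * m₁ + m₂ + 1) = (5 + c₀) * N := by
      rw [hN]
      push_cast
      ring
    rw [← h5]
    exact hlow
  -- upper bound
  have hlogN : Real.log (4 * N) ≤ Real.log (4 * N₀) := by
    have h5 : (0 : ℝ) < 4 * N := by
      have : (1 : ℝ) ≤ N := by exact_mod_cast hN1
      linarith
    exact Real.log_le_log h5 (by linarith)
  have hGX : GG K X ≤ GG K x + d * (T + Q + 1) := by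
    have h5 := h3 X x
    have h6 : (nn K X : ℝ) * (X - x) ≤ d * (X - x) := by
      refine mul_le_mul_of_nonneg_right ?_ (by linarith)
      rw [hd]
      exact_mod_cast nn_le K X
    have h7 : X - x = T + Q + 1 := by rw [hX]; ring
    rw [← h7]
    have h8 : (nn K X : ℝ) * (x - X) = -(nn K X * (X - x)) := by ring
    rw [h8] at h5
    linarith
  have hGx : GG K x ≤ R * d := by
    have h5 := (h4 x).2
    have h6 : x * (nn K x : ℝ) ≤ R * d := by
      refine mul_le_mul hxR ?_ (Nat.cast_nonneg _) hR0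
      rw [hd]
      exact_mod_cast nn_le K x
    linarith
  have hGx0 : 0 ≤ GG K x := (h4 x).1
  have hup1 : L ≤ (1 + 1 / J) * (d * (4 + 3 * c₀ +
      3 / 2 * (J * Real.log 2 + Real.log (4 * N₀))) + 3 * (GG K x + d * (T + Q + 1))) := by
    have h5 : d * (4 + 3 * c₀ + 3 / 2 * (J * Real.log 2 + Real.log (4 * N))) + 3 * GG K X ≤
        d * (4 + 3 * c₀ + 3 / 2 * (J * Real.log 2 + Real.log (4 * N₀))) +
          3 * (GG K x + d * (T + Q + 1)) := by
      have h6 : d * (4 + 3 * c₀ + 3 / 2 * (J * Real.log 2 + Real.log (4 * N))) ≤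
          d * (4 + 3 * c₀ + 3 / 2 * (J * Real.log 2 + Real.log (4 * N₀))) :=
        mul_le_mul_of_nonneg_left (by linarith) hd0
      linarith
    have h7 : (J : ℝ) * L ≤ (J + 1) * (d * (4 + 3 * c₀ +
        3 / 2 * (J * Real.log 2 + Real.log (4 * N₀))) + 3 * (GG K x + d * (T + Q + 1))) :=
      hupb.trans (mul_le_mul_of_nonneg_left h5 (by linarith))
    have h8 : (J : ℝ) * ((1 + 1 / J) * (d * (4 + 3 * c₀ +
        3 / 2 * (J * Real.log 2 + Real.log (4 * N₀))) + 3 * (GG K x + d * (T + Q + 1)))) =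
        (J + 1) * (d * (4 + 3 * c₀ +
        3 / 2 * (J * Real.log 2 + Real.log (4 * N₀))) + 3 * (GG K x + d * (T + Q + 1))) := by
      field_simp
    rw [← h8] at h7
    exact le_of_mul_le_mul_left h7 hJ0
  -- `1 / J`
  have hJinv0 : 0 ≤ 1 / (J : ℝ) := by positivity
  have hJinv1 : 1 / (J : ℝ) ≤ 1 := by
    rw [div_le_one hJ0]
    exact_mod_cast hJ1
  have hJG : 3 * (1 / (J : ℝ)) * GG K x ≤ ε / 4 * (R * d) := by
    have h5 : 3 * (1 / (J : ℝ)) ≤ ε / 4 := by
      have : 3 * (1 / (J : ℝ)) = 3 / J := by ring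
      rw [this]
      exact hJε
    exact mul_le_mul h5 hGx hGx0 (by positivity)
  have hA : 0 ≤ 4 + 3 * c₀ + 3 / 2 * (J * Real.log 2 + Real.log (4 * N₀)) := by positivity
  have hup2 : L ≤ 2 * (d * (4 + 3 * c₀ + 3 / 2 * (J * Real.log 2 + Real.log (4 * N₀)))) +
      3 * GG K x + ε / 4 * (R * d) + 6 * (d * (T + Q + 1)) := by
    have h5 : (1 + 1 / (J : ℝ)) * (d * (4 + 3 * c₀ +
        3 / 2 * (J * Real.log 2 + Real.log (4 * N₀)))) ≤
        2 * (d * (4 + 3 * c₀ + 3 / 2 * (J * Real.log 2 + Real.log (4 * N₀)))) :=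
      mul_le_mul_of_nonneg_right (by linarith) (mul_nonneg hd0 hA)
    have h6 : (1 + 1 / (J : ℝ)) * (3 * (d * (T + Q + 1))) ≤ 2 * (3 * (d * (T + Q + 1))) :=
      mul_le_mul_of_nonneg_right (by linarith)
        (mul_nonneg (by norm_num) (mul_nonneg hd0 (by linarith)))
    have h7 : (1 + 1 / (J : ℝ)) * (d * (4 + 3 * c₀ +
        3 / 2 * (J * Real.log 2 + Real.log (4 * N₀))) + 3 * (GG K x + d * (T + Q + 1))) =
        (1 + 1 / (J : ℝ)) * (d * (4 + 3 * c₀ +
        3 / 2 * (J * Real.log 2 + Real.log (4 * N₀)))) +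
        (3 * GG K x + 3 * (1 / (J : ℝ)) * GG K x) +
        (1 + 1 / (J : ℝ)) * (3 * (d * (T + Q + 1))) := by ring
    rw [h7] at hup1
    linarith
  -- the end
  have hRd : 0 ≤ R * d := mul_nonneg hR0 hd0
  have hδR : 2 * R * δ * d ≤ ε / 8 * (R * d) := by
    have h5 : δ * (R * d) ≤ ε / 16 * (R * d) := mul_le_mul_of_nonneg_right hδε hRd
    have h6 : 2 * R * δ * d = 2 * (δ * (R * d)) := by ring
    rw [h6]
    linarith
  have hQd : Q * d ≤ (T + 1) * d := mul_le_mul_of_nonneg_right hQT hd0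
  have hTd : T * d = ε / 100 * (R * d) + T₀ * d := by
    rw [hT, hη]
    ring
  have hfin : (ε * R + C') * d = ε * (R * d) + (5 + c₀) * N₀ * d +
      2 * (d * (4 + 3 * c₀ + 3 / 2 * (J * Real.log 2 + Real.log (4 * N₀)))) +
      14 * (T₀ * d) + 14 * d := by
    rw [hC']
    ring
  rw [hfin]
  have h5 : 6 * (d * (T + Q + 1)) = 6 * (T * d) + 6 * (Q * d) + 6 * d := by ring
  rw [h5] at hup2
  have h6 : (T + 1) * d = T * d + d := by ring
  rw [h6] at hQd
  have h7 : d * ((5 + c₀) * N₀) = (5 + c₀) * N₀ * d := by ring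
  rw [h7] at hlo3
  have h8 : 0 ≤ ε * (R * d) := mul_nonneg hε.le hRd
  linarith

end Pool.Agent.Lib.MPcb8a44.RC
end
end

section
section
/-!
# Module IX3 of Theorem RD (MP_cb8a44_nt): index 3
-/
set_option autoImplicit false

open NumberField Module Polynomial

namespace Pool.Agent.Lib.MPcb8a44.RD

namespace IX3M

variable {K : Type} [Field K] [NumberField K]

/-- in a cubic extension an element outside the base field satisfies no quadratic equation -/
lemma quad (F : IntermediateField ℚ K) (h3 : finrank F K = 3) {g : K} (hg : g ∉ F) {p q r : K}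
    (hp : p ∈ F) (hq : q ∈ F) (hr : r ∈ F) (h : p + q * g + r * g ^ 2 = 0) :
    p = 0 ∧ q = 0 ∧ r = 0 := by
  have hint : IsIntegral F g := Algebra.IsIntegral.isIntegral g
  have hdvd := minpoly.degree_dvd (K := F) (x := g) hint
  rw [h3] at hdvd
  have hne : (minpoly F g).natDegree ≠ 1 := by
    intro h1
    rw [minpoly.natDegree_eq_one_iff] at h1
    obtain ⟨x, hx⟩ := h1
    exact hg (hx ▸ x.2)
  have hdeg : (minpoly F g).natDegree = 3 := by
    rcases (Nat.dvd_prime Nat.prime_three).1 hdvd with h1 | h1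
    · exact absurd h1 hne
    · exact h1
  set P : F[X] := C ⟨p, hp⟩ + C ⟨q, hq⟩ * X + C ⟨r, hr⟩ * X ^ 2 with hP
  have hev : aeval g P = 0 := by
    rw [hP]
    simp only [map_add, map_mul, map_pow, aeval_C, aeval_X]
    exact h
  have hPdeg : P.natDegree ≤ 2 := by
    rw [hP]
    compute_degree
  have hP0 : P = 0 := by
    apply Polynomial.eq_zero_of_dvd_of_natDegree_lt (minpoly.dvd F g hev)
    omega
  have c0 : P.coeff 0 = ⟨p, hp⟩ := by
    rw [hP]
    simp
  have c1 : P.coeff 1 = ⟨q, hq⟩ := by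
    rw [hP]
    simp [coeff_X, coeff_C]
  have c2 : P.coeff 2 = ⟨r, hr⟩ := by
    rw [hP]
    simp [coeff_X, coeff_C]
  rw [hP0, coeff_zero] at c0 c1 c2
  refine ⟨?_, ?_, ?_⟩
  · exact (congrArg Subtype.val c0).symm
  · exact (congrArg Subtype.val c1).symm
  · exact (congrArg Subtype.val c2).symm

lemma y_ne (F : IntermediateField ℚ K) (h3 : finrank F K = 3) {g y κ : K} (hg : g ∉ F)
    (hκ : κ ∈ F) (hκ0 : κ ≠ 0) (h : y ^ 2 = g ^ 2 + κ) {p q : K} (hp : p ∈ F) (hq : q ∈ F) :
    y ≠ p + q * g := by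
  rintro rfl
  obtain ⟨e1, e2, e3⟩ := quad F h3 hg (p := p ^ 2 - κ) (q := 2 * p * q) (r := q ^ 2 - 1)
    (F.sub_mem (pow_mem hp 2) hκ) (F.mul_mem (F.mul_mem (by exact ofNat_mem F 2) hp) hq)
    (F.sub_mem (pow_mem hq 2) F.one_mem) (by linear_combination h)
  have hq0 : q ≠ 0 := by
    rintro rfl
    norm_num at e3
  have hp0 : p = 0 := by
    rcases mul_eq_zero.1 e2 with h1 | h1
    · rcases mul_eq_zero.1 h1 with h2 | h2
      · norm_num at h2
      · exact h2
    · exact absurd h1 hq0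
  apply hκ0
  rw [hp0] at e1
  linear_combination -e1

lemma indep (F : IntermediateField ℚ K) (h3 : finrank F K = 3) {g y κ : K} (hg : g ∉ F)
    (hκ : κ ∈ F) (hκ0 : κ ≠ 0) (h : y ^ 2 = g ^ 2 + κ) :
    LinearIndependent F ![(1 : K), g, y] := by
  rw [Fintype.linearIndependent_iff]
  intro c hc
  rw [Fin.sum_univ_three] at hc
  simp only [Matrix.cons_val_zero, Matrix.cons_val_one, Matrix.cons_val_two, Matrix.head_cons,
    Matrix.tail_cons, Matrix.cons_val] at hc
  change (c 0 : K) * 1 + (c 1 : K) * g + (c 2 : K) * y = 0 at hc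
  have h2 : (c 2 : K) = 0 := by
    by_contra h2
    apply y_ne F h3 hg hκ hκ0 h (p := -(c 0 : K) / c 2) (q := -(c 1 : K) / c 2)
      (F.div_mem (F.neg_mem (c 0).2) (c 2).2) (F.div_mem (F.neg_mem (c 1).2) (c 2).2)
    field_simp
    linear_combination hc
  rw [h2, zero_mul, add_zero, mul_one] at hc
  have h1 : (c 1 : K) = 0 := by
    by_contra h1
    apply hg
    have : g = -(c 0 : K) / c 1 := by
      field_simp
      linear_combination hc
    rw [this]
    exact F.div_mem (F.neg_mem (c 0).2) (c 1).2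
  rw [h1, zero_mul, add_zero] at hc
  intro i
  fin_cases i
  · exact Subtype.ext hc
  · exact Subtype.ext h1
  · exact Subtype.ext h2

lemma mul_span {S T : Set K} {v c : K} (h : ∀ f ∈ S, f * v ∈ T) (hc : c ∈ Submodule.span ℚ S) :
    c * v ∈ Submodule.span ℚ T := by
  have h1 := Submodule.mem_map_of_mem (f := LinearMap.mulRight ℚ v) hc
  rw [LinearMap.mulRight_apply, Submodule.map_span] at h1
  refine Submodule.span_mono ?_ h1
  rintro _ ⟨f, hf, rfl⟩
  exact h f hf

lemma exists_notMem (m : Mn K) (F : IntermediateField ℚ K) (i : Fin (finrank ℚ K))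
    (h : finrank ℚ F ≤ i) : ∃ j ≤ i, m.w j ∉ F := by
  by_contra hcon
  push Not at hcon
  have hi := i.2
  let e : Fin ((i : ℕ) + 1) → Fin (finrank ℚ K) := fun j => ⟨j, by omega⟩
  have he : Function.Injective e := by
    intro a b hab
    apply Fin.ext
    exact congrArg (fun z : Fin (finrank ℚ K) => (z : ℕ)) hab
  have hmem : ∀ j, m.w (e j) ∈ F := by
    intro j
    apply hcon
    rw [Fin.le_def]
    have := j.2
    simp only [e]
    omega
  let v : Fin ((i : ℕ) + 1) → F := fun j => ⟨m.w (e j), hmem j⟩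
  have hv : LinearIndependent ℚ v := by
    apply LinearIndependent.of_comp F.val.toLinearMap
    exact m.ind.comp e he
  have := hv.fintype_card_le_finrank
  rw [Fintype.card_fin] at this
  omega

end IX3M

open IX3M

theorem specIX3 (hLAM : SpecLAM) : SpecIX3 := by
  intro K _ _ m hK F Φ E g y κ h3 hΦ hS hE hgi hgF hmin hyi hyF hκ hκ0 hy hMy hsum
  set d := finrank ℚ K with hd
  have hd0 : (0 : ℝ) < d := by exact_mod_cast (d_pos (K := K))
  set t := Ms g with ht
  have hg0 : g ≠ 0 := by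
    rintro rfl
    exact hgF F.zero_mem
  have hg1 : 1 ≤ hs g := one_le_hs hgi hg0
  have hdt : hs g ^ 2 ≤ d * t := hs_le_Ms g
  have hdt1 : 1 ≤ (d : ℝ) * t := le_trans (by nlinarith) hdt
  have ht0 : 0 < t := by
    by_contra h
    rw [not_lt] at h
    nlinarith
  have hyd : hs y ^ 2 ≤ 2 * d * t := (hs_le_Ms y).trans (by nlinarith)
  set Q := Real.sqrt (2 * d * t) with hQ
  have hQ2 : Q ^ 2 = 2 * d * t := Real.sq_sqrt (by nlinarith)
  have hQ1 : 1 ≤ Q := by
    rw [hQ, Real.one_le_sqrt]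
    linarith
  have hgQ : hs g ≤ Q := Real.le_sqrt_of_sq_le (by linarith)
  have hyQ : hs y ≤ Q := Real.le_sqrt_of_sq_le hyd
  -- the spanning set
  have hspan : ∀ x : K, x ∈ Submodule.span ℚ {z : K | IsIntegral ℤ z ∧ hs z ≤ Φ * Q} := by
    intro x
    have hind := indep F h3 hgF hκ hκ0 hy
    let b := basisOfLinearIndependentOfCardEqFinrank hind (by rw [h3]; simp)
    have hb : ∀ i, b i = ![(1 : K), g, y] i := fun i => by
      simp only [b, coe_basisOfLinearIndependentOfCardEqFinrank]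
    have hx := b.sum_repr x
    rw [← hx]
    apply Submodule.sum_mem
    intro i _
    rw [hb]
    have hbi : IsIntegral ℤ (![(1 : K), g, y] i) ∧ hs (![(1 : K), g, y] i) ≤ Q := by
      fin_cases i
      · exact ⟨isIntegral_one, by simpa [hs_one] using hQ1⟩
      · exact ⟨hgi, hgQ⟩
      · exact ⟨hyi, hyQ⟩
    have hc := hS ((b.repr x i : F) : K) (b.repr x i).2
    change ((b.repr x i : F) : K) * (![(1 : K), g, y] i) ∈ _
    apply mul_span _ hc
    rintro f ⟨_, hfi, hfΦ⟩
    refine ⟨hfi.mul hbi.1, (hs_mul_le _ _).trans ?_⟩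
    exact mul_le_mul hfΦ hbi.2 (hs_nonneg _) (by linarith)
  have hLam := hLAM K m (Φ * Q) (by nlinarith) hspan
  rw [Real.log_mul (by linarith) (by linarith)] at hLam
  have hlogQ : 2 * Real.log Q = Real.log (2 * d) + Real.log t := by
    rw [← Real.log_mul (by positivity) ht0.ne', ← hQ2, Real.log_pow]
    norm_num
  -- the lower bound for the minima
  have hell : ∀ i, finrank ℚ F ≤ i → i < d → Real.log t / 2 ≤ ell m i := by
    intro i hi hid
    obtain ⟨j, hj, hjF⟩ := exists_notMem m F ⟨i, hid⟩ hi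
    have h1 := hmin _ (m.int j) hjF
    have h2 := Ms_le_hs (m.w j)
    have h3 := m.mono hj
    simp only at h3
    have h4 : t ≤ hs (m.w ⟨i, hid⟩) ^ 2 :=
      h1.trans (h2.trans (pow_le_pow_left₀ (hs_nonneg _) h3 2))
    have h5 := Real.log_le_log ht0 h4
    rw [Real.log_pow] at h5
    have h6 := ell_eq m ⟨i, hid⟩
    simp only at h6
    rw [h6]
    push_cast at h5
    linarith
  set n := finrank ℚ F with hn
  have hdn : n * 3 = d := by
    have := Module.finrank_mul_finrank ℚ F K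
    rwa [h3] at this
  have hn0 : (0 : ℝ) < n := by
    have : 0 < n := by
      have := d_pos (K := K)
      omega
    exact_mod_cast this
  have hdnR : (d : ℝ) = n * 3 := by exact_mod_cast hdn.symm
  have hlow : 2 * n * (Real.log t / 2) ≤ ∑ i ∈ Finset.range d, ell m i := by
    calc 2 * n * (Real.log t / 2) = ∑ _i ∈ Finset.Ico n d, Real.log t / 2 := by
          rw [Finset.sum_const, Nat.card_Ico, nsmul_eq_mul, Nat.cast_sub (by omega), hdnR]
          ring
      _ ≤ ∑ i ∈ Finset.Ico n d, ell m i := by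
          apply Finset.sum_le_sum
          intro i hi
          rw [Finset.mem_Ico] at hi
          exact hell i hi.1 hi.2
      _ ≤ ∑ i ∈ Finset.range d, ell m i := by
          apply Finset.sum_le_sum_of_subset_of_nonneg
          · intro i hi
            rw [Finset.mem_Ico] at hi
            exact Finset.mem_range.2 hi.2
          · intro i _ _
            exact ell_nonneg m i
  have hfin : 2 * Real.log t ≤ 3 * (Lam m + E) := by
    have h1 : n * (2 * Real.log t) ≤ n * (3 * (Lam m + E)) := by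
      have h2 : 2 * (n * Real.log t) ≤ d * Lam m + d * E := by linarith
      rw [hdnR] at h2
      linarith
    exact le_of_mul_le_mul_left h1 hn0
  linarith

end Pool.Agent.Lib.MPcb8a44.RD
end

section
/-!
# Theorem RC, module RX3: index 3
-/
set_option autoImplicit false

open NumberField Module

namespace Pool.Agent.Lib.MPcb8a44.RC

namespace RX3M

variable {K : Type} [Field K] [NumberField K]

lemma one_le_Ms {x : K} (hx : IsIntegral ℤ x) (hx0 : x ≠ 0) : 1 ≤ RD.Ms x := by
  have h1 := RD.one_le_prod_norm hx hx0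
  have hpos : ∀ φ : K →+* ℂ, 0 < ‖φ x‖ := fun φ => norm_pos_iff.2 ((map_ne_zero φ).2 hx0)
  have h2 : 0 ≤ ∑ φ : K →+* ℂ, Real.log ‖φ x‖ := by
    rw [← Real.log_prod (fun φ _ => (hpos φ).ne')]
    exact Real.log_nonneg h1
  have h3 : ∀ φ : K →+* ℂ, 2 * Real.log ‖φ x‖ ≤ ‖φ x‖ ^ 2 - 1 := by
    intro φ
    have := Real.log_le_sub_one_of_pos (pow_pos (hpos φ) 2)
    rw [Real.log_pow] at this
    exact_mod_cast this
  have h4 : (2 : ℝ) * ∑ φ : K →+* ℂ, Real.log ‖φ x‖ ≤ ∑ φ : K →+* ℂ, (‖φ x‖ ^ 2 - 1) := by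
    rw [Finset.mul_sum]
    exact Finset.sum_le_sum fun φ _ => h3 φ
  rw [Finset.sum_sub_distrib, Finset.sum_const, Finset.card_univ, RD.card_emb, nsmul_eq_mul,
    mul_one] at h4
  unfold RD.Ms
  rw [le_div_iff₀ (by exact_mod_cast RD.d_pos (K := K))]
  linarith

lemma Ms_one : RD.Ms (1 : K) = 1 := by
  unfold RD.Ms
  have hd0 : (finrank ℚ K : ℝ) ≠ 0 := by exact_mod_cast (RD.d_pos (K := K)).ne'
  simp only [map_one, norm_one, one_pow, Finset.sum_const, Finset.card_univ, RD.card_emb,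
    nsmul_eq_mul, mul_one]
  exact div_self hd0

lemma LD_nonneg : 0 ≤ LD K := by
  unfold LD
  apply div_nonneg _ (Nat.cast_nonneg _)
  apply Real.log_nonneg
  have h := Int.one_le_abs (NumberField.discr_ne_zero K)
  exact_mod_cast h

/-- the three translates of `F` span `K` -/
lemma top_le (F : IntermediateField ℚ K) (h3 : finrank F K = 3) {g y κ : K} (hg : g ∉ F)
    (hκ : κ ∈ F) (hκ0 : κ ≠ 0) (h : y ^ 2 = g ^ 2 + κ) :
    (⊤ : Submodule ℚ K) ≤ sc 1 (fs F) ⊔ sc g (fs F) ⊔ sc y (fs F) := by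
  intro x _
  have hind := RD.IX3M.indep F h3 hg hκ hκ0 h
  let b := basisOfLinearIndependentOfCardEqFinrank hind (by rw [h3]; simp)
  have hb : ∀ i, b i = ![(1 : K), g, y] i := fun i => by
    simp only [b, coe_basisOfLinearIndependentOfCardEqFinrank]
  have hx := b.sum_repr x
  rw [← hx, Fin.sum_univ_three, hb, hb, hb]
  have e0 : (![(1 : K), g, y] 0) = 1 := rfl
  have e1 : (![(1 : K), g, y] 1) = g := rfl
  have e2 : (![(1 : K), g, y] 2) = y := rfl
  rw [e0, e1, e2]
  refine Submodule.add_mem_sup (Submodule.add_mem_sup ?_ ?_) ?_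
  · rw [mem_sc]
    exact ⟨((b.repr x 0 : F) : K), (b.repr x 0).2, by rw [Algebra.smul_def, mul_comm]; rfl⟩
  · rw [mem_sc]
    exact ⟨((b.repr x 1 : F) : K), (b.repr x 1).2, by rw [Algebra.smul_def, mul_comm]; rfl⟩
  · rw [mem_sc]
    exact ⟨((b.repr x 2 : F) : K), (b.repr x 2).2, by rw [Algebra.smul_def, mul_comm]; rfl⟩

lemma log_six : Real.log 6 ≤ 1.8 := by
  have h : Real.log 6 = Real.log 2 + Real.log 3 := by
    rw [← Real.log_mul (by norm_num) (by norm_num)]
    norm_num
  have h2 := Real.log_two_lt_d9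
  have h3 : Real.log 3 ≤ 1.1 := by
    rw [Real.log_le_iff_le_exp (by norm_num)]
    have e : Real.exp 1.1 = Real.exp 1 * Real.exp 0.1 := by
      rw [← Real.exp_add]
      norm_num
    have e1 := Real.exp_one_gt_d9
    have e2 := Real.quadratic_le_exp_of_nonneg (x := 0.1) (by norm_num)
    rw [e]
    nlinarith
  rw [h]
  linarith

end RX3M

open RX3M

theorem specRX3 (hHSX : SpecHSX) (hTWD : SpecTWD) (hGMN : SpecGMN) (hXSP : SpecXSP)
    (hTOP : SpecTOP) (hHUL : SpecHUL) (hHMO : SpecHMO) : SpecRX3 := by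
  intro C hC hRM
  obtain ⟨C₁, hC₁, hH⟩ := hHSX C hC hRM (1 / 100) (by norm_num) (by norm_num)
  have hlC : 0 ≤ Real.log C := Real.log_nonneg hC
  refine ⟨10 + 10 * (100 * (5 + Real.log C)) + 7 * C₁, ?_⟩
  intro K _ _ hK hP F g y κ h3 hgi hgF hmin hyi hyF hκ hκ0 hy hMy
  set T : ℝ := 100 * (5 + Real.log C) with hT
  have hT0 : 0 < T := by rw [hT]; linarith
  have hg0 : g ≠ 0 := fun h => hgF (h ▸ F.zero_mem)
  have hy0 : y ≠ 0 := fun h => hyF (h ▸ F.zero_mem)
  set t : ℝ := RD.Ms g with ht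
  have ht1 : 1 ≤ t := one_le_Ms hgi hg0
  have hLF : 0 ≤ LD F := LD_nonneg
  set d : ℝ := (finrank ℚ K : ℝ) with hd
  have hd0 : 0 < d := by
    rw [hd]
    exact_mod_cast RD.d_pos (K := K)
  set x : ℝ := Real.log (6 * t) / 2 + LD F with hx
  have hlt : 0 ≤ Real.log t := Real.log_nonneg ht1
  have hl6 : 0 ≤ Real.log 6 := Real.log_nonneg (by norm_num)
  have hx' : x = (Real.log 6 + Real.log t) / 2 + LD F := by
    rw [hx, Real.log_mul (by norm_num) (by linarith)]
  have hx0 : 0 ≤ x := by rw [hx']; linarith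
  -- the three translates are dense
  have hDE : ∀ w : K, w ≠ 0 → IsIntegral ℤ w → RD.Ms w ≤ 2 * t → DE x (sc w (fs F)) := by
    intro w hw0 hwi hMw
    refine hTWD K hK F w (6 * t) x hw0 hwi (by linarith) ?_ le_rfl
    refine (hGMN K F w).1.trans ?_
    apply pow_le_pow_left₀ (mul_nonneg (Nat.cast_nonneg _) (RD.Ms_nonneg w))
    rw [h3]
    push_cast
    linarith
  obtain ⟨-, hsup, -, hle, -, -⟩ := hHUL K hK x
  have htop : HV K x = ⊤ := by
    rw [eq_top_iff]
    refine (top_le F h3 hgF hκ hκ0 hy).trans ?_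
    apply hle
    apply hsup
    · apply hsup
      · exact hDE 1 one_ne_zero isIntegral_one (by rw [Ms_one]; linarith)
      · exact hDE g hg0 hgi (by linarith)
    · exact hDE y hy0 hyi hMy
  have hLK : LD K ≤ 2 * x := (hTOP K hK).2.1 x htop
  have hHx := hH K hK hP x hx0 htop
  obtain ⟨-, -, hG3, hG4, -, -⟩ := hHMO K hK
  -- the lower bound
  have hz : ∀ z : ℝ, 0 ≤ z → z + T < Real.log t / 2 → 1.3 * z ≤ 1.01 * x + C₁ := by
    intro z hz0 hzT
    obtain ⟨-, hX2⟩ := hXSP C hC hRM K hK z T hT0.le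
    set X := Submodule.span ℚ (Bh (HV K z) (Real.exp (z + T))) with hX
    have hXF : X ≤ fs F := by
      rw [hX, Submodule.span_le]
      rintro b ⟨hb, hbs⟩
      by_contra hbF
      have h1 := hmin b hb.2 hbF
      have h2 := RD.Ms_le_hs b
      have h4 : RD.hs b ^ 2 ≤ Real.exp (z + T) ^ 2 :=
        pow_le_pow_left₀ (RD.hs_nonneg b) hbs 2
      have h5 : Real.exp (z + T) ^ 2 < t := by
        rw [← Real.exp_nat_mul]
        rw [← Real.lt_log_iff_exp_lt (by linarith)]
        push_cast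
        linarith
      linarith
    have hdim : finrank ℚ X ≤ finrank ℚ F := by
      have h1 := Submodule.finrank_mono hXF
      exact h1
    have hdF : (3 : ℝ) * (finrank ℚ F : ℝ) = d := by
      have := Module.finrank_mul_finrank ℚ F K
      rw [h3] at this
      rw [hd, ← this]
      push_cast
      ring
    have hdim' : (finrank ℚ X : ℝ) ≤ d / 3 := by
      have : (finrank ℚ X : ℝ) ≤ finrank ℚ F := by exact_mod_cast hdim
      linarith
    have hnn : (nn K z : ℝ) ≤ 0.35 * d := by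
      have h5 : 0 < 5 + Real.log C := by linarith
      have h1 : (5 + Real.log C) * (100 * ((nn K z : ℝ) - finrank ℚ X)) ≤
          (5 + Real.log C) * d := by
        rw [hT] at hX2
        linarith
      have h2 := le_of_mul_le_mul_left h1 h5
      linarith
    have hxz : z ≤ x := by
      rw [hx']
      linarith
    have h1 := hG3 x z
    have h2 := (hG4 z).2
    have hnx : (nn K x : ℝ) ≤ d := by
      rw [hd]
      exact_mod_cast Submodule.finrank_le _
    have h4 : (nn K x : ℝ) * (x - z) ≤ d * (x - z) :=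
      mul_le_mul_of_nonneg_right hnx (by linarith)
    have h5 : z * (nn K z : ℝ) ≤ z * (0.35 * d) := mul_le_mul_of_nonneg_left hnn hz0
    have h6 : d * (1.3 * z) ≤ d * (1.01 * x + C₁) := by
      nlinarith
    exact le_of_mul_le_mul_left h6 hd0
  have hmain : 1.3 * (Real.log t / 2 - T) ≤ 1.01 * x + C₁ := by
    by_contra hcon
    rw [not_le] at hcon
    have hA : 0 ≤ 1.01 * x + C₁ := by linarith
    have h1 := hz (((1.01 * x + C₁) / 1.3 + (Real.log t / 2 - T)) / 2) (by
      have : 0 ≤ (1.01 * x + C₁) / 1.3 := by positivity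
      linarith) (by
      have : (1.01 * x + C₁) / 1.3 < Real.log t / 2 - T := by
        rw [div_lt_iff₀ (by norm_num)]
        linarith
      linarith)
    have h2 : (1.01 * x + C₁) / 1.3 < Real.log t / 2 - T := by
      rw [div_lt_iff₀ (by norm_num)]
      linarith
    have h3 : (1.01 * x + C₁) = 1.3 * ((1.01 * x + C₁) / 1.3) := by
      field_simp
    linarith
  have h6 := log_six
  rw [hx'] at hmain hLK
  have hlog : Real.log t ≤ 7 * (1 + 1.01 * LD F + 1.3 * T + C₁) := by
    linarith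
  nlinarith [mul_nonneg hT0.le hLF, mul_nonneg hC₁ hLF]

end Pool.Agent.Lib.MPcb8a44.RC
end

section
/-!
# Theorem RC, module REL: a subfield of index 2 or 3
-/
set_option autoImplicit false

open NumberField Module

namespace Pool.Agent.Lib.MPcb8a44.RC

namespace RELM

variable {K : Type} [Field K] [NumberField K]

theorem exists_min (F : IntermediateField ℚ K) (hF : F ≠ ⊤) : ∃ g : K, IsIntegral ℤ g ∧ g ∉ F ∧
    ∀ x : K, IsIntegral ℤ x → x ∉ F → RD.Ms g ≤ RD.Ms x := by
  have h0 : ∃ x : K, IsIntegral ℤ x ∧ x ∉ F := by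
    by_contra h
    push Not at h
    apply hF
    rw [eq_top_iff]
    intro z _
    obtain ⟨x, y, hy, rfl⟩ := IsFractionRing.div_surjective (𝓞 K) z
    exact F.div_mem (h _ x.2) (h _ y.2)
  obtain ⟨x₀, hx₀, hx₀F⟩ := h0
  have hd0 : (0 : ℝ) < finrank ℚ K := by exact_mod_cast RD.d_pos (K := K)
  have hfin : ({x | x ∈ RD.Bx K (Real.sqrt (finrank ℚ K * RD.Ms x₀)) ∧ x ∉ F}).Finite :=
    (RD.Bx_finite _).subset fun x hx => hx.1
  have hmem : x₀ ∈ {x | x ∈ RD.Bx K (Real.sqrt (finrank ℚ K * RD.Ms x₀)) ∧ x ∉ F} :=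
    ⟨⟨hx₀, Real.le_sqrt_of_sq_le (RD.hs_le_Ms x₀)⟩, hx₀F⟩
  obtain ⟨g, hg, hmin⟩ := Set.exists_min_image _ (fun x => RD.Ms x) hfin ⟨x₀, hmem⟩
  refine ⟨g, hg.1.1, hg.2, fun x hx hxF => ?_⟩
  by_cases hX : RD.hs x ≤ Real.sqrt (finrank ℚ K * RD.Ms x₀)
  · exact hmin x ⟨⟨hx, hX⟩, hxF⟩
  · rw [not_le, Real.sqrt_lt' (lt_of_le_of_ne (RD.hs_nonneg x) fun h => by
      have := (RD.hs_eq_zero (x := x)).1 h.symm
      rw [this] at hxF
      exact hxF F.zero_mem)] at hX
    have h1 := RD.hs_le_Ms x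
    have h2 : RD.Ms x₀ < RD.Ms x := by
      have := hX.trans_le h1
      exact lt_of_mul_lt_mul_left this hd0.le
    exact (hmin x₀ hmem).trans h2.le

/-- index 3: the square of an element outside `F` is outside `F` -/
theorem sq_notMem (F : IntermediateField ℚ K) (h3 : finrank F K = 3) {g : K} (hg : g ∉ F) :
    g ^ 2 ∉ F := by
  intro h
  have hint : IsIntegral F g := Algebra.IsIntegral.isIntegral g
  have h1 := minpoly.degree_dvd hint
  rw [h3] at h1
  have h2 : minpoly F g ∣ Polynomial.X ^ 2 - Polynomial.C (⟨g ^ 2, h⟩ : F) := by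
    apply minpoly.dvd
    rw [map_sub, map_pow, Polynomial.aeval_X, Polynomial.aeval_C]
    exact sub_self _
  have hne : (Polynomial.X ^ 2 - Polynomial.C (⟨g ^ 2, h⟩ : F)) ≠ 0 :=
    Polynomial.X_pow_sub_C_ne_zero (by norm_num) _
  have h4 := Polynomial.natDegree_le_of_dvd h2 hne
  rw [Polynomial.natDegree_X_pow_sub_C] at h4
  have h5 : (minpoly F g).natDegree ≠ 1 := by
    intro h5
    rw [minpoly.natDegree_eq_one_iff] at h5
    obtain ⟨y, hy⟩ := h5
    exact hg (hy ▸ y.2)
  have h6 : 0 < (minpoly F g).natDegree := minpoly.natDegree_pos hint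
  have h7 : (minpoly F g).natDegree = 2 := by omega
  rw [h7] at h1
  omega

theorem Ms_neg (x : K) : RD.Ms (-x) = RD.Ms x := by
  unfold RD.Ms
  simp only [map_neg, norm_neg]

/-- the sign of `g` can be chosen so that `Ms (g + 1) ≤ Ms g + 1` -/
theorem sign (g : K) : RD.Ms (g + 1) ≤ RD.Ms g + 1 ∨ RD.Ms (-g + 1) ≤ RD.Ms (-g) + 1 := by
  by_contra h
  push Not at h
  have h1 := RD.Ms_parallelogram g 1
  rw [RX3M.Ms_one] at h1
  have h2 : RD.Ms (-g + 1) = RD.Ms (g - 1) := by
    rw [← Ms_neg (g - 1)]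
    congr 1
    ring
  rw [h2, Ms_neg] at h
  linarith [h.1, h.2]

/-- numerical estimate in index 2 -/
theorem arith {L B : ℝ} (hL : 0 ≤ L) (hB : 0 ≤ B) :
    Real.log (8 * (6 * Real.exp (2 * L) + 1 + (1 + Real.exp (B * (1 + L)))) *
    (8 * (6 * Real.exp (2 * L) + 1) + 4 * (1 + Real.exp (B * (1 + L))) +
      4 * (2 * Real.exp (B * (1 + L)) + 1))) + 2 * L ≤ (12 + 2 * (B + 2) + 2) * (1 + L) := by
  have hBL : 0 ≤ B * L := mul_nonneg hB hL
  have e1 : Real.exp (B * (1 + L)) ≤ Real.exp ((B + 2) * (1 + L)) := by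
    apply Real.exp_le_exp.2
    nlinarith
  have e2 : Real.exp (2 * L) ≤ Real.exp ((B + 2) * (1 + L)) := by
    apply Real.exp_le_exp.2
    nlinarith
  have e3 : 1 ≤ Real.exp ((B + 2) * (1 + L)) := Real.one_le_exp (by nlinarith)
  have p1 := Real.exp_pos (B * (1 + L))
  have p2 := Real.exp_pos (2 * L)
  set A := Real.exp ((B + 2) * (1 + L)) with hA
  have f1 : 8 * (6 * Real.exp (2 * L) + 1 + (1 + Real.exp (B * (1 + L)))) ≤ 72 * A := by linarith
  have f2 : 8 * (6 * Real.exp (2 * L) + 1) + 4 * (1 + Real.exp (B * (1 + L))) +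
      4 * (2 * Real.exp (B * (1 + L)) + 1) ≤ 76 * A := by linarith
  have f3 : 8 * (6 * Real.exp (2 * L) + 1 + (1 + Real.exp (B * (1 + L)))) *
    (8 * (6 * Real.exp (2 * L) + 1) + 4 * (1 + Real.exp (B * (1 + L))) +
      4 * (2 * Real.exp (B * (1 + L)) + 1)) ≤ (72 * A) * (76 * A) :=
    mul_le_mul f1 f2 (by positivity) (by positivity)
  have f4 : Real.log ((72 * A) * (76 * A)) ≤ 12 + 2 * ((B + 2) * (1 + L)) := by
    have : (72 * A) * (76 * A) = 5472 * (A ^ 2) := by ring
    rw [this, Real.log_mul (by norm_num) (by positivity), Real.log_pow, hA, Real.log_exp]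
    have h5 : Real.log 5472 ≤ 12 := by
      rw [Real.log_le_iff_le_exp (by norm_num)]
      have h2 : Real.exp 12 = Real.exp 1 ^ 12 := by
        rw [← Real.exp_nat_mul]
        norm_num
      rw [h2]
      have h3 := Real.exp_one_gt_d9
      calc (5472 : ℝ) ≤ 2.7182818283 ^ 12 := by norm_num
        _ ≤ Real.exp 1 ^ 12 := pow_le_pow_left₀ (by norm_num) h3.le 12
    push_cast
    linarith
  have f5 := Real.log_le_log (by positivity) f3
  nlinarith

end RELM

open RELM

theorem specREL (hSM2 : SpecSM2) (hTOP : SpecTOP) (hWTF : SpecWTF) (hFS2 : SpecFS2)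
    (hRX3 : SpecRX3) (hRX2 : SpecRX2) : SpecREL := by
  intro C hC hRM
  obtain ⟨C₃, h₃⟩ := hRX3 C hC hRM
  obtain ⟨B₀, hB₀, hW⟩ := hWTF
  refine ⟨max C₃ (12 + 2 * (B₀ + 2) + 2), le_max_of_le_right (by linarith), ?_⟩
  intro K _ _ hK hP F hF1 hF3
  have hLF : 0 ≤ LD F := RX3M.LD_nonneg
  have hFt : F ≠ ⊤ := fun h => by
    rw [IntermediateField.finrank_eq_one_iff_eq_top.2 h] at hF1
    exact lt_irrefl _ hF1
  obtain ⟨g, hg, hgF, hmin⟩ := exists_min F hFt
  obtain ⟨⟨a, b, c, ha, hb, hc, hB, hn⟩, hcov⟩ := hW K hK F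
  set B : ℝ := Real.exp (B₀ * (1 + LD F)) with hBdef
  have hB0 : 0 < B := Real.exp_pos _
  have hr : (12 + 2 * (B₀ + 2) + 2) * (1 + LD F) ≤ max C₃ (12 + 2 * (B₀ + 2) + 2) * (1 + LD F) :=
    mul_le_mul_of_nonneg_right (le_max_right _ _) (by linarith)
  have hl : C₃ * (1 + LD F) ≤ max C₃ (12 + 2 * (B₀ + 2) + 2) * (1 + LD F) :=
    mul_le_mul_of_nonneg_right (le_max_left _ _) (by linarith)
  by_cases hbig : RD.Ms g ≤ 1 + B
  · have h1 := (hTOP K hK).2.1 _ (hSM2 K hK F g hF1 hF3 hg hgF)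
    have hg0 : g ≠ 0 := fun h => hgF (h ▸ F.zero_mem)
    have ht1 := RX3M.one_le_Ms hg hg0
    have h2 : Real.log (3 * RD.Ms g) ≤ 2 + B₀ * (1 + LD F) := by
      have hB1 : 1 ≤ B := Real.one_le_exp (by positivity)
      have h3 : 3 * RD.Ms g ≤ 6 * B := by linarith
      have h4 := Real.log_le_log (by linarith) h3
      rw [Real.log_mul (by norm_num) hB0.ne', hBdef, Real.log_exp] at h4
      have := RX3M.log_six
      linarith
    nlinarith [mul_nonneg hB₀ hLF]
  rw [not_le] at hbig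
  have hdeg : finrank F K = 2 ∨ finrank F K = 3 := by omega
  rcases hdeg with h2 | h2
  · -- index 2
    have key : ∀ g' h : K, IsIntegral ℤ g' → g' ∉ F →
        (∀ x : K, IsIntegral ℤ x → x ∉ F → RD.Ms g' ≤ RD.Ms x) → 1 + B < RD.Ms g' →
        IsIntegral ℤ h → h ^ 2 ∉ F → RD.Ms h ≤ RD.Ms g' + 1 →
        (h = g' ∨ (g' ^ 2 ∈ F ∧ h = g' + 1)) →
        LD K ≤ (12 + 2 * (B₀ + 2) + 2) * (1 + LD F) := by
      intro g' h hg' hg'F hmin' hbig' hh hhF hhM hhg
      obtain ⟨y, κ, hy, hyF, hκF, hκ0, hyκ, hyM, hκA⟩ := hFS2 K hK hP F a b c g' h B ha hb hc hB hn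
        hg' hg'F hmin' hbig' hh hhF hhM
      have h5 := hRX2 K hK F (1 + B) (2 * B + 1) g' h y κ h2 (by linarith) (by linarith) hcov hg'
        hg'F hmin' hhg hhF hy hyF hκF hκ0 hyκ (by linarith) hκA
      exact h5.trans (arith hLF hB₀)
    refine le_trans ?_ hr
    by_cases hg2 : g ^ 2 ∈ F
    · have hnot : ∀ x : K, x ∉ F → x ^ 2 ∈ F → (x + 1) ^ 2 ∉ F := by
        intro x hx hx2 hcon
        apply hx
        have h4 : 2 * x = (x + 1) ^ 2 - x ^ 2 - 1 := by ring
        have h5 : 2 * x ∈ F := by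
          rw [h4]
          exact F.sub_mem (F.sub_mem hcon hx2) F.one_mem
        have h6 : x = (2 : K)⁻¹ * (2 * x) := by
          field_simp
        rw [h6]
        refine F.mul_mem (F.inv_mem ?_) h5
        have : (2 : K) = 1 + 1 := by norm_num
        rw [this]
        exact F.add_mem F.one_mem F.one_mem
      rcases sign g with hs1 | hs1
      · exact key g (g + 1) hg hgF hmin hbig (hg.add isIntegral_one) (hnot g hgF hg2) hs1
          (Or.inr ⟨hg2, rfl⟩)
      · have hgF' : -g ∉ F := fun h => hgF (by simpa using F.neg_mem h)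
        have hg2' : (-g) ^ 2 ∈ F := by rwa [neg_sq]
        exact key (-g) (-g + 1) hg.neg hgF' (fun x hx hxF => by rw [Ms_neg]; exact hmin x hx hxF)
          (by rw [Ms_neg]; exact hbig) (hg.neg.add isIntegral_one) (hnot _ hgF' hg2') hs1
          (Or.inr ⟨hg2', rfl⟩)
    · exact key g g hg hgF hmin hbig hg hg2 (by linarith) (Or.inl rfl)
  · -- index 3
    have hg2 := sq_notMem F h2 hgF
    obtain ⟨y, κ, hy, hyF, hκF, hκ0, hyκ, hyM, -⟩ := hFS2 K hK hP F a b c g g B ha hb hc hB hn hg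
      hgF hmin hbig hg hg2 (by linarith)
    exact (h₃ K hK hP F g y κ h2 hg hgF hmin hy hyF hκF hκ0 hyκ (by linarith)).trans hl

end Pool.Agent.Lib.MPcb8a44.RC
end
end
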