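import Pool.Agent.Lib.MP_cb8a44_nt.RD.Spec
import Pool.Agent.Lib.MP_cb8a44_nt.RC.SpecE
import Pool.Agent.Lib.MP_cb8a44_nt.RC.SpecD

section
section
/-! # Theorem RD, module IXA: index 2, a pure integer of small norm outside `F` -/
set_option autoImplicit false

open NumberField Module

namespace Pool.Agent.Lib.MPcb8a44.RD

namespace IXAM

variable {K : Type} [Field K] [NumberField K]

/-- the nontrivial automorphism over a subfield of index 2 -/
theorem exists_sigma (F : IntermediateField ℚ K) (hF : finrank F K = 2) :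
    ∃ σ : K ≃ₐ[ℚ] K, (∀ x, σ (σ x) = x) ∧ ∀ x, σ x = x ↔ x ∈ F := by
  have hq : Algebra.IsQuadraticExtension F K := ⟨hF⟩
  have hcard : Nat.card (K ≃ₐ[F] K) = 2 := by rw [IsGalois.card_aut_eq_finrank, hF]
  obtain ⟨σ, hσ, huniq⟩ := (Nat.card_eq_two_iff' (1 : K ≃ₐ[F] K)).1 hcard
  have hall : ∀ τ : K ≃ₐ[F] K, τ = 1 ∨ τ = σ := by
    intro τ
    by_cases h : τ = 1
    · exact Or.inl h
    · exact Or.inr (huniq τ h)
  refine ⟨σ.restrictScalars ℚ, fun x => ?_, fun x => ⟨fun h => ?_, fun h => ?_⟩⟩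
  · have h1 : σ * σ = 1 := by
      rcases hall (σ * σ) with h | h
      · exact h
      · exact absurd (mul_eq_left.1 h) hσ
    exact DFunLike.congr_fun h1 x
  · have h1 : x ∈ (⊥ : IntermediateField F K) := by
      rw [IsGalois.mem_bot_iff_fixed]
      intro τ
      rcases hall τ with rfl | rfl
      · rfl
      · exact h
    obtain ⟨y, rfl⟩ := IntermediateField.mem_bot.1 h1
    exact y.2
  · exact σ.commutes (⟨x, h⟩ : F)

theorem sum_sigma (σ : K ≃ₐ[ℚ] K) (f : (K →+* ℂ) → ℝ) :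
    ∑ φ : K →+* ℂ, f (φ.comp (σ : K →+* K)) = ∑ φ : K →+* ℂ, f φ := by
  let e : (K →+* ℂ) ≃ (K →+* ℂ) :=
    { toFun := fun φ => φ.comp (σ : K →+* K)
      invFun := fun φ => φ.comp (σ.symm : K →+* K)
      left_inv := fun φ => by
        ext x
        simp
      right_inv := fun φ => by
        ext x
        simp }
  exact Equiv.sum_comp e f

theorem Ms_sigma (σ : K ≃ₐ[ℚ] K) (x : K) : Ms (σ x) = Ms x := by
  unfold Ms
  congr 1
  exact sum_sigma σ fun φ => ‖φ x‖ ^ 2

theorem Ms_two_mul (x : K) : Ms (2 * x) = 4 * Ms x := by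
  unfold Ms
  have : ∀ φ : K →+* ℂ, ‖φ (2 * x)‖ ^ 2 = 4 * ‖φ x‖ ^ 2 := by
    intro φ
    rw [map_mul, norm_mul, mul_pow, map_ofNat φ 2]
    norm_num
  rw [Finset.sum_congr rfl fun φ _ => this φ, ← Finset.mul_sum, mul_div_assoc]

theorem Ms_add {σ : K ≃ₐ[ℚ] K} {f x : K} (hf : σ f = f) (hx : σ x = -x) :
    Ms (f + x) = Ms f + Ms x := by
  have h1 := Ms_parallelogram f x
  have h2 : Ms (f - x) = Ms (f + x) := by
    have h3 : f - x = σ (f + x) := by rw [map_add, hf, hx, sub_eq_add_neg]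
    rw [h3, Ms_sigma]
  linarith

theorem trace_small {F : IntermediateField ℚ K} {Φ : ℝ} (hRND : SpecRND) (hΦ : 1 ≤ Φ)
    (hS : Spn F Φ) {σ : K ≃ₐ[ℚ] K} (hσ : ∀ x, σ (σ x) = x) (hσF : ∀ x, σ x = x ↔ x ∈ F)
    {g : K} (hmin : ∀ x : K, IsIntegral ℤ x → x ∉ F → Ms g ≤ Ms x)
    {x : K} (hx : IsIntegral ℤ x) (hxF : x ∉ F) {B : ℝ} (hB : Ms x ≤ Ms g + B) :
    Ms (x + σ x) ≤ 4 * (((finrank ℚ K : ℝ) * Φ) ^ 2 + B) := by
  set z := (x + σ x) / 2 with hz
  set w := (x - σ x) / 2 with hw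
  have hσ2 : σ 2 = 2 := map_ofNat σ 2
  have hσz : σ z = z := by
    rw [hz, map_div₀, map_add, hσ, hσ2, add_comm]
  have hσw : σ w = -w := by
    rw [hw, map_div₀, map_sub, hσ, hσ2, ← neg_div, neg_sub]
  have hxzw : x = z + w := by
    rw [hz, hw]
    ring
  obtain ⟨f, hfF, hfi, hf⟩ := hRND K F Φ hΦ hS z ((hσF z).1 hσz)
  have hσf : σ f = f := (hσF f).2 hfF
  have h1 : Ms (z - f) ≤ ((finrank ℚ K : ℝ) * Φ) ^ 2 :=
    (Ms_le_hs _).trans (pow_le_pow_left₀ (hs_nonneg _) hf 2)
  have h2 : Ms g ≤ Ms (x - f) := by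
    refine hmin _ (hx.sub hfi) fun h => hxF ?_
    have := add_mem h hfF
    rwa [sub_add_cancel] at this
  have h3 : Ms (x - f) = Ms (z - f) + Ms w := by
    have h4 : x - f = (z - f) + w := by
      conv_lhs => rw [hxzw]
      ring
    rw [h4]
    exact Ms_add (by rw [map_sub, hσz, hσf]) hσw
  have h4 : Ms x = Ms z + Ms w := by
    conv_lhs => rw [hxzw]
    exact Ms_add hσz hσw
  have h5 : Ms (x + σ x) = 4 * Ms z := by
    rw [← Ms_two_mul]
    congr 1
    rw [hz]
    ring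
  rw [h5]
  linarith

/-- arithmetic-geometric mean inequality -/
theorem prod_le_mean (a : (K →+* ℂ) → ℝ) (ha : ∀ φ, 0 ≤ a φ) :
    ∏ φ : K →+* ℂ, a φ ≤ ((∑ φ : K →+* ℂ, a φ) / finrank ℚ K) ^ finrank ℚ K := by
  have hd : (0 : ℝ) < finrank ℚ K := by exact_mod_cast d_pos
  have h1 := Real.geom_mean_le_arith_mean_weighted Finset.univ
    (fun _ : K →+* ℂ => ((finrank ℚ K : ℝ))⁻¹) a (fun _ _ => by positivity)
    (by
      rw [Finset.sum_const, Finset.card_univ, card_emb, nsmul_eq_mul, mul_inv_cancel₀ hd.ne'])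
    (fun φ _ => ha φ)
  rw [← Finset.mul_sum, inv_mul_eq_div] at h1
  have h2 := pow_le_pow_left₀ (Finset.prod_nonneg fun φ _ => Real.rpow_nonneg (ha φ) _) h1
    (finrank ℚ K)
  refine le_trans (le_of_eq ?_) h2
  rw [← Finset.prod_pow]
  refine Finset.prod_congr rfl fun φ _ => ?_
  rw [Real.rpow_inv_natCast_pow (ha φ) d_pos.ne']

end IXAM

open IXAM in
theorem specIXA (hRND : SpecRND) : SpecIXA := by
  intro K _ _ hTR F Φ B1 B2 g h y κ hF hΦ hS hB1 hB2 hg hgF hmin hh hhF hy hyF hκF hκ0 hyh hMy hAκ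
  obtain ⟨σ, hσ, hσF⟩ := exists_sigma F hF
  have hd : (0 : ℝ) < finrank ℚ K := by exact_mod_cast d_pos
  have hRR : 0 ≤ ((finrank ℚ K : ℝ) * Φ) ^ 2 := sq_nonneg _
  -- the integers
  have hhi : IsIntegral ℤ h := by
    rcases hh with rfl | ⟨-, rfl⟩
    · exact hg
    · exact hg.add isIntegral_one
  have hint : ∀ x : K, IsIntegral ℤ x → IsIntegral ℤ (σ x) := fun x hx =>
    map_isIntegral_int (σ : K →+* K) hx
  have hhF' : h ∉ F := fun h1 => hhF (pow_mem h1 2)
  set A := h + σ h with hA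
  set e := h - σ h with he
  set P := y + σ y with hP
  have hσe : σ e = -e := by rw [he, map_sub, hσ, neg_sub]
  have he0 : e ≠ 0 := by
    intro h0
    exact hhF' ((hσF h).1 (sub_eq_zero.1 h0).symm)
  have heF : e ∉ F := by
    intro h1
    have h2 := (hσF e).2 h1
    rw [hσe] at h2
    have h3 : (2 : K) * e = 0 := by linear_combination -h2
    rcases mul_eq_zero.1 h3 with h4 | h4
    · exact two_ne_zero h4
    · exact he0 h4
  have he2F : e ^ 2 ∈ F := by
    rw [← hσF, map_pow, hσe, neg_sq]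
  have hei : IsIntegral ℤ e := hhi.sub (hint h hhi)
  have hAi : IsIntegral ℤ A := hhi.add (hint h hhi)
  have hPi : IsIntegral ℤ P := hy.add (hint y hy)
  -- the relations
  have hκσ : σ κ = κ := (hσF κ).2 hκF
  have hyh' : σ y ^ 2 = σ h ^ 2 + κ := by
    rw [← map_pow, hyh, map_add, map_pow, hκσ]
  have hPA : P * (y - σ y) = A * e := by
    rw [hP, hA, he]
    linear_combination hyh - hyh'
  have hPA2 : P ^ 2 + (y - σ y) ^ 2 = A ^ 2 + e ^ 2 + 4 * κ := by
    rw [hP, hA, he]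
    linear_combination 2 * hyh + 2 * hyh'
  have hkey : e ^ 2 * (A ^ 2 - P ^ 2) = P ^ 2 * (A ^ 2 - P ^ 2 + 4 * κ) := by
    linear_combination P ^ 2 * hPA2 - (P * (y - σ y) + A * e) * hPA
  have hA0 : A ≠ 0 := by
    intro h0
    apply hhF
    have h1 : σ h = -h := by
      rw [hA] at h0
      exact eq_neg_of_add_eq_zero_right h0
    rw [← hσF, map_pow, h1, neg_sq]
  have hP0 : P ≠ 0 := by
    intro h0
    rw [h0, zero_mul] at hPA
    rcases mul_eq_zero.1 hPA.symm with h1 | h1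
    · exact hA0 h1
    · exact he0 h1
  have hD0 : A ^ 2 - P ^ 2 ≠ 0 := by
    intro h0
    rw [h0, mul_zero, zero_add] at hkey
    rcases mul_eq_zero.1 hkey.symm with h1 | h1
    · exact hP0 (pow_eq_zero_iff two_ne_zero |>.1 h1)
    · rcases mul_eq_zero.1 h1 with h2 | h2
      · exact (by norm_num : (4 : K) ≠ 0) h2
      · exact hκ0 h2
  -- the sizes
  have hMA : Ms A ≤ 4 * (((finrank ℚ K : ℝ) * Φ) ^ 2 + 1) := by
    rcases hh with rfl | ⟨hg2, hh2⟩
    · have h1 := trace_small hRND hΦ hS hσ hσF hmin hg hgF (B := 0) (by rw [add_zero])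
      rw [← hA] at h1
      linarith
    · have h1 : σ g ^ 2 = g ^ 2 := by
        rw [← map_pow]
        exact (hσF _).2 hg2
      have h2 : σ g = -g := by
        rcases sq_eq_sq_iff_eq_or_eq_neg.1 h1 with h3 | h3
        · exact absurd ((hσF g).1 h3) hgF
        · exact h3
      have h3 : A = 2 * 1 := by
        rw [hA, hh2, map_add, h2, map_one]
        ring
      have h4 : Ms (1 : K) ≤ 1 := by
        have := Ms_le_hs (1 : K)
        rwa [hs_one, one_pow] at this
      rw [h3, Ms_two_mul]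
      linarith
  have hMP : Ms P ≤ 4 * (((finrank ℚ K : ℝ) * Φ) ^ 2 + 1 + B1) := by
    have h1 := trace_small hRND hΦ hS hσ hσF hmin hy hyF hMy
    rw [← hP] at h1
    linarith
  have hMP0 := Ms_nonneg P
  have hMA0 := Ms_nonneg A
  refine ⟨e, hei, heF, he2F, ?_⟩
  set D := A ^ 2 - P ^ 2 with hD
  have hDi : IsIntegral ℤ D := (hAi.pow 2).sub (hPi.pow 2)
  have h1 := one_le_prod_norm hDi hD0
  have h2 : (∏ φ : K →+* ℂ, ‖φ e‖) ^ 2 * ∏ φ : K →+* ℂ, ‖φ D‖ =
      (∏ φ : K →+* ℂ, ‖φ P‖ ^ 2) * ∏ φ : K →+* ℂ, ‖φ (D + 4 * κ)‖ := by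
    rw [← Finset.prod_pow, ← Finset.prod_mul_distrib, ← Finset.prod_mul_distrib]
    refine Finset.prod_congr rfl fun φ _ => ?_
    rw [← norm_pow, ← norm_mul, ← norm_pow, ← norm_mul, ← map_pow, ← map_mul, ← map_pow,
      ← map_mul, hkey]
  have h3 : ∏ φ : K →+* ℂ, ‖φ P‖ ^ 2 ≤ Ms P ^ finrank ℚ K :=
    prod_le_mean _ fun φ => sq_nonneg _
  have h4 : ∏ φ : K →+* ℂ, ‖φ (D + 4 * κ)‖ ≤ (Ms A + Ms P + 4 * B2) ^ finrank ℚ K := by
    refine (prod_le_mean _ fun φ => norm_nonneg _).trans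
      (pow_le_pow_left₀ (by positivity) ?_ _)
    have h5 : ∀ φ : K →+* ℂ, ‖φ (D + 4 * κ)‖ ≤ ‖φ A‖ ^ 2 + ‖φ P‖ ^ 2 + 4 * ‖φ κ‖ := by
      intro φ
      have h6 : φ (D + 4 * κ) = φ A ^ 2 - φ P ^ 2 + 4 * φ κ := by
        rw [hD, map_add, map_sub, map_pow, map_pow, map_mul, map_ofNat φ 4]
      rw [h6]
      refine (norm_add_le _ _).trans (add_le_add ((norm_sub_le _ _).trans ?_) ?_)
      · rw [norm_pow, norm_pow]
      · rw [norm_mul]
        simp
    have h6 : (∑ φ : K →+* ℂ, ‖φ (D + 4 * κ)‖) / (finrank ℚ K : ℝ) ≤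
        Ms A + Ms P + 4 * Av κ := by
      unfold Ms Av
      rw [← mul_div_assoc, ← add_div, ← add_div]
      refine div_le_div_of_nonneg_right ?_ hd.le
      rw [Finset.mul_sum, ← Finset.sum_add_distrib, ← Finset.sum_add_distrib]
      exact Finset.sum_le_sum fun φ _ => h5 φ
    linarith
  have h5 : (∏ φ : K →+* ℂ, ‖φ e‖) ^ 2 ≤
      (Ms P) ^ finrank ℚ K * (Ms A + Ms P + 4 * B2) ^ finrank ℚ K := by
    calc (∏ φ : K →+* ℂ, ‖φ e‖) ^ 2 ≤ (∏ φ : K →+* ℂ, ‖φ e‖) ^ 2 * ∏ φ : K →+* ℂ, ‖φ D‖ :=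
          le_mul_of_one_le_right (sq_nonneg _) h1
      _ = (∏ φ : K →+* ℂ, ‖φ P‖ ^ 2) * ∏ φ : K →+* ℂ, ‖φ (D + 4 * κ)‖ := h2
      _ ≤ _ := mul_le_mul h3 h4 (Finset.prod_nonneg fun _ _ => norm_nonneg _)
          (pow_nonneg hMP0 _)
  have h6 : (Ms P) ^ finrank ℚ K * (Ms A + Ms P + 4 * B2) ^ finrank ℚ K ≤
      ((4 * (((finrank ℚ K : ℝ) * Φ) ^ 2 + 1 + B1) *
      (8 * (((finrank ℚ K : ℝ) * Φ) ^ 2 + 1) + 4 * B1 + 4 * B2)) ^ finrank ℚ F) ^ 2 := by
    rw [← mul_pow, ← pow_mul]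
    have h7 : finrank ℚ F * 2 = finrank ℚ K := by
      rw [← hF]
      exact Module.finrank_mul_finrank ℚ F K
    rw [h7]
    refine pow_le_pow_left₀ (by positivity) (mul_le_mul hMP ?_ (by positivity) (by positivity)) _
    linarith
  exact (pow_le_pow_iff_left₀ (Finset.prod_nonneg fun _ _ => norm_nonneg _) (by positivity)
    two_ne_zero).1 (h5.trans h6)

end Pool.Agent.Lib.MPcb8a44.RD
end

section
/-!
# Theorem RC, module RX2: index 2 (helper76)
-/
set_option autoImplicit false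

open NumberField Module

namespace Pool.Agent.Lib.MPcb8a44.RC

namespace RX2M

open RD IXAM

variable {K : Type} [Field K] [NumberField K]

theorem trace_small {F : IntermediateField ℚ K} {μ : ℝ}
    (hcov : ∀ z ∈ F, ∃ f ∈ F, IsIntegral ℤ f ∧ Ms (z - f) ≤ μ)
    {σ : K ≃ₐ[ℚ] K} (hσ : ∀ x, σ (σ x) = x) (hσF : ∀ x, σ x = x ↔ x ∈ F)
    {g : K} (hmin : ∀ x : K, IsIntegral ℤ x → x ∉ F → Ms g ≤ Ms x)
    {x : K} (hxF : x ∉ F) (hx : IsIntegral ℤ x) {B : ℝ} (hB : Ms x ≤ Ms g + B) :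
    Ms (x + σ x) ≤ 4 * (μ + B) := by
  set z := (x + σ x) / 2 with hz
  set w := (x - σ x) / 2 with hw
  have hσ2 : σ 2 = 2 := map_ofNat σ 2
  have hσz : σ z = z := by
    rw [hz, map_div₀, map_add, hσ, hσ2, add_comm]
  have hσw : σ w = -w := by
    rw [hw, map_div₀, map_sub, hσ, hσ2, ← neg_div, neg_sub]
  have hxzw : x = z + w := by
    rw [hz, hw]
    ring
  obtain ⟨f, hfF, hfi, h1⟩ := hcov z ((hσF z).1 hσz)
  have hσf : σ f = f := (hσF f).2 hfF
  have h2 : Ms g ≤ Ms (x - f) := by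
    refine hmin _ (hx.sub hfi) fun h => hxF ?_
    have := add_mem h hfF
    rwa [sub_add_cancel] at this
  have h3 : Ms (x - f) = Ms (z - f) + Ms w := by
    have h4 : x - f = (z - f) + w := by
      conv_lhs => rw [hxzw]
      ring
    rw [h4]
    exact Ms_add (by rw [map_sub, hσz, hσf]) hσw
  have h4 : Ms x = Ms z + Ms w := by
    conv_lhs => rw [hxzw]
    exact Ms_add hσz hσw
  have h5 : Ms (x + σ x) = 4 * Ms z := by
    rw [← Ms_two_mul]
    congr 1
    rw [hz]
    ring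
  rw [h5]
  linarith

/-- decomposition of an element -/
theorem decomp {F : IntermediateField ℚ K} {σ : K ≃ₐ[ℚ] K} (hσ : ∀ x, σ (σ x) = x)
    (hσF : ∀ x, σ x = x ↔ x ∈ F) {e : K} (he0 : e ≠ 0) (hσe : σ e = -e) (x : K) :
    ∃ a ∈ F, ∃ b ∈ F, x = a + e * b := by
  have hσ2 : σ 2 = 2 := map_ofNat σ 2
  refine ⟨(x + σ x) / 2, ?_, (x - σ x) / (2 * e), ?_, ?_⟩
  · rw [← hσF, map_div₀, map_add, hσ, hσ2, add_comm]
  · rw [← hσF, map_div₀, map_sub, hσ, map_mul, hσ2, hσe]
    rw [mul_neg, div_neg, ← neg_div, neg_sub]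
  · field_simp
    ring

/-- the embeddings with the same restriction -/
theorem fibre {F : IntermediateField ℚ K} {σ : K ≃ₐ[ℚ] K} (hσ : ∀ x, σ (σ x) = x)
    (hσF : ∀ x, σ x = x ↔ x ∈ F) {e : K} (he0 : e ≠ 0) (hσe : σ e = -e) (φ : K →+* ℂ) :
    {ψ : K →+* ℂ | ∀ f ∈ F, ψ f = φ f} ⊆ {φ, φ.comp (σ : K →+* K)} := by
  intro ψ hψ
  have he2F : e ^ 2 ∈ F := by
    rw [← hσF, map_pow, hσe, neg_sq]
  have h1 : ψ e ^ 2 = φ e ^ 2 := by
    rw [← map_pow, ← map_pow]
    exact hψ _ he2F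
  rcases sq_eq_sq_iff_eq_or_eq_neg.1 h1 with h2 | h2
  · left
    ext x
    obtain ⟨a, ha, b, hb, rfl⟩ := decomp hσ hσF he0 hσe x
    rw [map_add, map_add, map_mul, map_mul, h2, hψ a ha, hψ b hb]
  · right
    rw [Set.mem_singleton_iff]
    ext x
    obtain ⟨a, ha, b, hb, rfl⟩ := decomp hσ hσF he0 hσe x
    have e1 : (φ.comp (σ : K →+* K)) (a + e * b) = φ (σ (a + e * b)) := rfl
    rw [e1, map_add σ, map_mul σ, (hσF a).2 ha, (hσF b).2 hb, hσe, map_add, map_add, map_mul,
      map_mul, map_neg, h2, hψ a ha, hψ b hb]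

theorem finsum_le {F : IntermediateField ℚ K} {σ : K ≃ₐ[ℚ] K} (hσ : ∀ x, σ (σ x) = x)
    (hσF : ∀ x, σ x = x ↔ x ∈ F) {e : K} (he0 : e ≠ 0) (hσe : σ e = -e) (φ : K →+* ℂ)
    (w : K) (hw : ‖φ (σ w)‖ = ‖φ w‖) :
    ∑ᶠ ψ ∈ {ψ : K →+* ℂ | ∀ f ∈ F, ψ f = φ f}, ‖ψ w‖ ^ 2 ≤ 2 * ‖φ w‖ ^ 2 := by
  classical
  have hfin : ({ψ : K →+* ℂ | ∀ f ∈ F, ψ f = φ f}).Finite := Set.toFinite _
  rw [finsum_mem_eq_finite_toFinset_sum _ hfin]
  have hsub : hfin.toFinset ⊆ {φ, φ.comp (σ : K →+* K)} := by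
    intro ψ hψ
    rw [Set.Finite.mem_toFinset] at hψ
    have := fibre hσ hσF he0 hσe φ hψ
    simpa using this
  have h1 : ∀ ψ ∈ hfin.toFinset, ‖ψ w‖ ^ 2 ≤ ‖φ w‖ ^ 2 := by
    intro ψ hψ
    have h2 := hsub hψ
    rw [Finset.mem_insert, Finset.mem_singleton] at h2
    rcases h2 with rfl | rfl
    · exact le_rfl
    · have e1 : (φ.comp (σ : K →+* K)) w = φ (σ w) := rfl
      rw [e1, hw]
  have h3 := Finset.sum_le_card_nsmul _ _ _ h1
  have h4 : hfin.toFinset.card ≤ 2 := (Finset.card_le_card hsub).trans (Finset.card_le_two)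
  refine h3.trans ?_
  rw [nsmul_eq_mul]
  refine mul_le_mul_of_nonneg_right ?_ (sq_nonneg _)
  exact_mod_cast h4

end RX2M

open RX2M RD IXAM in
theorem specRX2 (hTWD : SpecTWD) (hTOP : SpecTOP) (hHUL : SpecHUL) : SpecRX2 := by
  intro K _ _ hTR F B1 B2 g h y κ hF hB1 hB2 hcov hg hgF hmin hh hhF hy hyF hκF hκ0 hyh hMy hAκ
  obtain ⟨σ, hσ, hσF⟩ := exists_sigma F hF
  have hd : (0 : ℝ) < finrank ℚ K := by exact_mod_cast d_pos
  set μ : ℝ := 6 * Real.exp (2 * LD F) with hμ
  have hμ0 : 0 < μ := by positivity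
  have hhi : IsIntegral ℤ h := by
    rcases hh with rfl | ⟨-, rfl⟩
    · exact hg
    · exact hg.add isIntegral_one
  have hint : ∀ x : K, IsIntegral ℤ x → IsIntegral ℤ (σ x) := fun x hx =>
    map_isIntegral_int (σ : K →+* K) hx
  have hhF' : h ∉ F := fun h1 => hhF (pow_mem h1 2)
  set A := h + σ h with hA
  set e := h - σ h with he
  set P := y + σ y with hP
  have hσe : σ e = -e := by rw [he, map_sub, hσ, neg_sub]
  have he0 : e ≠ 0 := by
    intro h0
    exact hhF' ((hσF h).1 (sub_eq_zero.1 h0).symm)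
  have hei : IsIntegral ℤ e := hhi.sub (hint h hhi)
  have hAi : IsIntegral ℤ A := hhi.add (hint h hhi)
  have hPi : IsIntegral ℤ P := hy.add (hint y hy)
  -- the relations
  have hκσ : σ κ = κ := (hσF κ).2 hκF
  have hyh' : σ y ^ 2 = σ h ^ 2 + κ := by
    rw [← map_pow, hyh, map_add, map_pow, hκσ]
  have hPA : P * (y - σ y) = A * e := by
    rw [hP, hA, he]
    linear_combination hyh - hyh'
  have hPA2 : P ^ 2 + (y - σ y) ^ 2 = A ^ 2 + e ^ 2 + 4 * κ := by
    rw [hP, hA, he]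
    linear_combination 2 * hyh + 2 * hyh'
  have hkey : e ^ 2 * (A ^ 2 - P ^ 2) = P ^ 2 * (A ^ 2 - P ^ 2 + 4 * κ) := by
    linear_combination P ^ 2 * hPA2 - (P * (y - σ y) + A * e) * hPA
  have hA0 : A ≠ 0 := by
    intro h0
    apply hhF
    have h1 : σ h = -h := by
      rw [hA] at h0
      exact eq_neg_of_add_eq_zero_right h0
    rw [← hσF, map_pow, h1, neg_sq]
  have hP0 : P ≠ 0 := by
    intro h0
    rw [h0, zero_mul] at hPA
    rcases mul_eq_zero.1 hPA.symm with h1 | h1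
    · exact hA0 h1
    · exact he0 h1
  have hD0 : A ^ 2 - P ^ 2 ≠ 0 := by
    intro h0
    rw [h0, mul_zero, zero_add] at hkey
    rcases mul_eq_zero.1 hkey.symm with h1 | h1
    · exact hP0 (pow_eq_zero_iff two_ne_zero |>.1 h1)
    · rcases mul_eq_zero.1 h1 with h2 | h2
      · exact (by norm_num : (4 : K) ≠ 0) h2
      · exact hκ0 h2
  -- the sizes
  have hMA : Ms A ≤ 4 * (μ + 1) := by
    rcases hh with rfl | ⟨hg2, hh2⟩
    · have h1 := trace_small hcov hσ hσF hmin hgF hg (B := 0) (by rw [add_zero])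
      rw [← hA] at h1
      linarith
    · have h1 : σ g ^ 2 = g ^ 2 := by
        rw [← map_pow]
        exact (hσF _).2 hg2
      have h2 : σ g = -g := by
        rcases sq_eq_sq_iff_eq_or_eq_neg.1 h1 with h3 | h3
        · exact absurd ((hσF g).1 h3) hgF
        · exact h3
      have h3 : A = 2 * 1 := by
        rw [hA, hh2, map_add, h2, map_one]
        ring
      have h4 : Ms (1 : K) ≤ 1 := by
        have := Ms_le_hs (1 : K)
        rwa [hs_one, one_pow] at this
      rw [h3, Ms_two_mul]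
      linarith
  have hMP : Ms P ≤ 4 * (μ + 1 + B1) := by
    have h1 := trace_small hcov hσ hσF hmin hyF hy hMy
    rw [← hP] at h1
    linarith
  have hMP0 := Ms_nonneg P
  have hMA0 := Ms_nonneg A
  set D := A ^ 2 - P ^ 2 with hD
  have hDi : IsIntegral ℤ D := (hAi.pow 2).sub (hPi.pow 2)
  have h1 := one_le_prod_norm hDi hD0
  have h2 : (∏ φ : K →+* ℂ, ‖φ e‖) ^ 2 * ∏ φ : K →+* ℂ, ‖φ D‖ =
      (∏ φ : K →+* ℂ, ‖φ P‖ ^ 2) * ∏ φ : K →+* ℂ, ‖φ (D + 4 * κ)‖ := by
    rw [← Finset.prod_pow, ← Finset.prod_mul_distrib, ← Finset.prod_mul_distrib]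
    refine Finset.prod_congr rfl fun φ _ => ?_
    rw [← norm_pow, ← norm_mul, ← norm_pow, ← norm_mul, ← map_pow, ← map_mul, ← map_pow,
      ← map_mul, hkey]
  have h3 : ∏ φ : K →+* ℂ, ‖φ P‖ ^ 2 ≤ Ms P ^ finrank ℚ K :=
    prod_le_mean _ fun φ => sq_nonneg _
  have h4 : ∏ φ : K →+* ℂ, ‖φ (D + 4 * κ)‖ ≤ (Ms A + Ms P + 4 * B2) ^ finrank ℚ K := by
    refine (prod_le_mean _ fun φ => norm_nonneg _).trans
      (pow_le_pow_left₀ (by positivity) ?_ _)
    have h5 : ∀ φ : K →+* ℂ, ‖φ (D + 4 * κ)‖ ≤ ‖φ A‖ ^ 2 + ‖φ P‖ ^ 2 + 4 * ‖φ κ‖ := by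
      intro φ
      have h6 : φ (D + 4 * κ) = φ A ^ 2 - φ P ^ 2 + 4 * φ κ := by
        rw [hD, map_add, map_sub, map_pow, map_pow, map_mul, map_ofNat φ 4]
      rw [h6]
      refine (norm_add_le _ _).trans (add_le_add ((norm_sub_le _ _).trans ?_) ?_)
      · rw [norm_pow, norm_pow]
      · rw [norm_mul]
        simp
    have h6 : (∑ φ : K →+* ℂ, ‖φ (D + 4 * κ)‖) / (finrank ℚ K : ℝ) ≤
        Ms A + Ms P + 4 * Av κ := by
      unfold Ms Av
      rw [← mul_div_assoc, ← add_div, ← add_div]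
      refine div_le_div_of_nonneg_right ?_ hd.le
      rw [Finset.mul_sum, ← Finset.sum_add_distrib, ← Finset.sum_add_distrib]
      exact Finset.sum_le_sum fun φ _ => h5 φ
    linarith
  have h5 : (∏ φ : K →+* ℂ, ‖φ e‖) ^ 2 ≤
      (Ms P) ^ finrank ℚ K * (Ms A + Ms P + 4 * B2) ^ finrank ℚ K := by
    calc (∏ φ : K →+* ℂ, ‖φ e‖) ^ 2 ≤ (∏ φ : K →+* ℂ, ‖φ e‖) ^ 2 * ∏ φ : K →+* ℂ, ‖φ D‖ :=
          le_mul_of_one_le_right (sq_nonneg _) h1
      _ = (∏ φ : K →+* ℂ, ‖φ P‖ ^ 2) * ∏ φ : K →+* ℂ, ‖φ (D + 4 * κ)‖ := h2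
      _ ≤ _ := mul_le_mul h3 h4 (Finset.prod_nonneg fun _ _ => norm_nonneg _)
          (pow_nonneg hMP0 _)
  set H : ℝ := 4 * (μ + 1 + B1) * (8 * (μ + 1) + 4 * B1 + 4 * B2) with hH
  have hH1 : 1 ≤ H := by
    have a1 : 1 ≤ 4 * (μ + 1 + B1) := by linarith
    have a2 : 1 ≤ 8 * (μ + 1) + 4 * B1 + 4 * B2 := by linarith
    exact one_le_mul_of_one_le_of_one_le a1 a2
  have h6 : (∏ φ : K →+* ℂ, ‖φ e‖) ^ 2 ≤ H ^ finrank ℚ K := by
    refine h5.trans ?_
    rw [← mul_pow]
    refine pow_le_pow_left₀ (by positivity) ?_ _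
    rw [hH]
    exact mul_le_mul hMP (by linarith) (by positivity) (by positivity)
  have hnσ : ∀ φ : K →+* ℂ, ‖φ (σ e)‖ = ‖φ e‖ := by
    intro φ
    rw [hσe, map_neg, norm_neg]
  have hnσ1 : ∀ φ : K →+* ℂ, ‖φ (σ 1)‖ = ‖φ 1‖ := by
    intro φ
    rw [map_one σ]
  have he' : ∏ φ : K →+* ℂ, (∑ᶠ ψ ∈ {ψ : K →+* ℂ | ∀ f ∈ F, ψ f = φ f}, ‖ψ e‖ ^ 2) ≤
      (2 * H) ^ finrank ℚ K := by
    calc ∏ φ : K →+* ℂ, (∑ᶠ ψ ∈ {ψ : K →+* ℂ | ∀ f ∈ F, ψ f = φ f}, ‖ψ e‖ ^ 2)
        ≤ ∏ φ : K →+* ℂ, 2 * ‖φ e‖ ^ 2 := by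
          refine Finset.prod_le_prod (fun φ _ => ?_) fun φ _ =>
            finsum_le hσ hσF he0 hσe φ e (hnσ φ)
          exact finsum_nonneg fun ψ => finsum_nonneg fun _ => sq_nonneg _
      _ = 2 ^ finrank ℚ K * (∏ φ : K →+* ℂ, ‖φ e‖) ^ 2 := by
          rw [Finset.prod_mul_distrib, Finset.prod_const, Finset.card_univ, card_emb,
            Finset.prod_pow]
      _ ≤ 2 ^ finrank ℚ K * H ^ finrank ℚ K := by gcongr
      _ = (2 * H) ^ finrank ℚ K := (mul_pow _ _ _).symm
  have h1' : ∏ φ : K →+* ℂ, (∑ᶠ ψ ∈ {ψ : K →+* ℂ | ∀ f ∈ F, ψ f = φ f}, ‖ψ (1 : K)‖ ^ 2) ≤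
      (2 * H) ^ finrank ℚ K := by
    calc ∏ φ : K →+* ℂ, (∑ᶠ ψ ∈ {ψ : K →+* ℂ | ∀ f ∈ F, ψ f = φ f}, ‖ψ (1 : K)‖ ^ 2)
        ≤ ∏ _φ : K →+* ℂ, 2 * H := by
          refine Finset.prod_le_prod (fun φ _ => ?_) fun φ _ => ?_
          · exact finsum_nonneg fun ψ => finsum_nonneg fun _ => sq_nonneg _
          · refine (finsum_le hσ hσF he0 hσe φ 1 (hnσ1 φ)).trans ?_
            rw [map_one, norm_one]
            linarith
      _ = (2 * H) ^ finrank ℚ K := by
          rw [Finset.prod_const, Finset.card_univ, card_emb]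
  set Y : ℝ := Real.log (2 * H) / 2 + LD F with hY
  have hDe := hTWD K hTR F e (2 * H) Y he0 hei (by linarith) he' le_rfl
  have hD1 := hTWD K hTR F 1 (2 * H) Y one_ne_zero isIntegral_one (by linarith) h1' le_rfl
  obtain ⟨_, hsup, _, hmax, _⟩ := hHUL K hTR Y
  have htop : HV K Y = ⊤ := by
    rw [eq_top_iff]
    refine le_trans ?_ (hmax _ (hsup _ _ hD1 hDe))
    intro x _
    obtain ⟨a, ha, b, hb, rfl⟩ := decomp hσ hσF he0 hσe x
    refine Submodule.add_mem_sup ?_ ?_
    · rw [mem_sc]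
      exact ⟨a, ha, one_mul a⟩
    · rw [mem_sc]
      exact ⟨b, hb, rfl⟩
  have hfin := (hTOP K hTR).2.1 Y htop
  have e1 : 8 * (μ + 1 + B1) * (8 * (μ + 1) + 4 * B1 + 4 * B2) = 2 * H := by
    rw [hH]
    ring
  rw [e1]
  rw [hY] at hfin
  linarith

end Pool.Agent.Lib.MPcb8a44.RC
end
end

section
section
/-!
# A subspace of small doubling of a totally real field squares to a subfield

`K / k` a finite field extension with a functional `T` such that `T (y * y) ≠ 0` for `y ≠ 0`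
(for a totally real field: the trace).  If `1 ∈ V` and `2 dim (V V) < 3 dim V` then `V V` is a
subfield.
-/
open Module

namespace Pool.Agent.Lib.MPcb8a44.RD

namespace LEMFM

variable {k K : Type*} [Field k] [Field K] [Algebra k K] [FiniteDimensional k K]

/-- two large subspaces of `V` meet -/
theorem exists_common {V P Q : Submodule k K} (hP : P ≤ V) (hQ : Q ≤ V)
    (h : finrank k V < finrank k P + finrank k Q) : ∃ z, z ≠ 0 ∧ z ∈ P ∧ z ∈ Q := by
  have h1 := Submodule.finrank_sup_add_finrank_inf_eq P Q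
  have h2 : finrank k (P ⊔ Q : Submodule k K) ≤ finrank k V :=
    Submodule.finrank_mono (sup_le hP hQ)
  have h3 : (P ⊓ Q : Submodule k K) ≠ ⊥ := by
    intro h0
    rw [h0, finrank_bot] at h1
    omega
  obtain ⟨z, hz, hz0⟩ := Submodule.exists_mem_ne_zero_of_ne_bot h3
  exact ⟨z, hz0, hz.1, hz.2⟩

/-- `a` times -/
noncomputable def mu (k : Type*) {K : Type*} [Field k] [Field K] [Algebra k K] (a : K) :
    K →ₗ[k] K := LinearMap.mulLeft k a

omit [FiniteDimensional k K] in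
theorem mu_apply (a x : K) : mu k a x = a * x := rfl

omit [FiniteDimensional k K] in
theorem mu_injective {a : K} (ha : a ≠ 0) : Function.Injective (mu k a) := by
  intro x y h
  rw [mu_apply, mu_apply] at h
  exact mul_left_cancel₀ ha h

omit [FiniteDimensional k K] in
theorem finrank_map_mu {a : K} (ha : a ≠ 0) (V : Submodule k K) :
    finrank k (V.map (mu k a)) = finrank k V :=
  LinearEquiv.finrank_eq (Submodule.equivMapOfInjective _ (mu_injective ha) V).symm

/-- the `v ∈ V` with `a v ∈ V` -/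
noncomputable def Y (V : Submodule k K) (a : K) : Submodule k K := V ⊓ V.comap (mu k a)

omit [FiniteDimensional k K] in
theorem mem_Y {V : Submodule k K} {a v : K} : v ∈ Y V a ↔ v ∈ V ∧ a * v ∈ V := Iff.rfl

theorem finrank_Y {V : Submodule k K} (h : 2 * finrank k (V * V : Submodule k K) < 3 * finrank k V)
    {x y : K} (hx : x ∈ V) (hy : y ∈ V) (hx0 : x ≠ 0) (hy0 : y ≠ 0) :
    finrank k V < 2 * finrank k (Y V (x / y)) := by
  have hA : V.map (mu k x) ≤ V * V := by
    rintro _ ⟨v, hv, rfl⟩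
    exact Submodule.mul_mem_mul hx hv
  have hB : V.map (mu k y) ≤ V * V := by
    rintro _ ⟨v, hv, rfl⟩
    exact Submodule.mul_mem_mul hy hv
  have e : (Y V (x / y)).map (mu k x) = V.map (mu k x) ⊓ V.map (mu k y) := by
    ext z
    constructor
    · rintro ⟨v, ⟨hv, hv'⟩, rfl⟩
      refine ⟨⟨v, hv, rfl⟩, ⟨x / y * v, hv', ?_⟩⟩
      rw [mu_apply, mu_apply]
      field_simp
    · rintro ⟨⟨v, hv, rfl⟩, ⟨w, hw, h'⟩⟩
      refine ⟨v, ⟨hv, ?_⟩, rfl⟩
      show x / y * v ∈ V
      have h' : y * w = x * v := h'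
      have : x / y * v = w := by
        field_simp
        exact h'.symm
      rw [this]
      exact hw
  have h1 := Submodule.finrank_sup_add_finrank_inf_eq (V.map (mu k x)) (V.map (mu k y))
  rw [← e, finrank_map_mu hx0, finrank_map_mu hx0, finrank_map_mu hy0] at h1
  have h2 : finrank k (V.map (mu k x) ⊔ V.map (mu k y) : Submodule k K) ≤
      finrank k (V * V : Submodule k K) := Submodule.finrank_mono (sup_le hA hB)
  omega

/-- the quotients of elements of `V` -/
def Rat (V : Submodule k K) (z : K) : Prop := ∃ x ∈ V, ∃ y ∈ V, y ≠ 0 ∧ z = x / y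

omit [FiniteDimensional k K] in
theorem rat_of_mem {V : Submodule k K} (h1 : (1 : K) ∈ V) {x : K} (hx : x ∈ V) : Rat V x :=
  ⟨x, hx, 1, h1, one_ne_zero, by simp⟩

theorem rat_big {V : Submodule k K} (h : 2 * finrank k (V * V : Submodule k K) < 3 * finrank k V)
    {a : K} (ha : Rat V a) (ha0 : a ≠ 0) : finrank k V < 2 * finrank k (Y V a) := by
  obtain ⟨x, hx, y, hy, hy0, rfl⟩ := ha
  refine finrank_Y h hx hy ?_ hy0
  rintro rfl
  simp at ha0

theorem rat_mul {V : Submodule k K} (h1 : (1 : K) ∈ V)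
    (h : 2 * finrank k (V * V : Submodule k K) < 3 * finrank k V)
    {a b : K} (ha : Rat V a) (hb : Rat V b) : Rat V (a * b) := by
  by_cases ha0 : a = 0
  · rw [ha0, zero_mul]; exact rat_of_mem h1 V.zero_mem
  by_cases hb0 : b = 0
  · rw [hb0, mul_zero]; exact rat_of_mem h1 V.zero_mem
  have e1 := rat_big h ha ha0
  have e2 := rat_big h hb hb0
  obtain ⟨z, hz0, ⟨y, hy, rfl⟩, hz2⟩ := exists_common (V := V) (P := (Y V b).map (mu k b))
    (Q := Y V a) (by rintro _ ⟨v, hv, rfl⟩; exact hv.2) (fun v hv => hv.1)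
    (by rw [finrank_map_mu hb0]; omega)
  have hy0 : y ≠ 0 := by
    rintro rfl
    simp at hz0
  refine ⟨a * (b * y), hz2.2, y, hy.1, hy0, ?_⟩
  field_simp

theorem rat_add {V : Submodule k K}
    (h : 2 * finrank k (V * V : Submodule k K) < 3 * finrank k V)
    {a b : K} (ha : Rat V a) (hb : Rat V b) : Rat V (a + b) := by
  by_cases ha0 : a = 0
  · rw [ha0, zero_add]; exact hb
  by_cases hb0 : b = 0
  · rw [hb0, add_zero]; exact ha
  have e1 := rat_big h ha ha0
  have e2 := rat_big h hb hb0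
  obtain ⟨y, hy0, hy1, hy2⟩ := exists_common (V := V) (P := Y V a) (Q := Y V b)
    (fun v hv => hv.1) (fun v hv => hv.1) (by omega)
  refine ⟨a * y + b * y, V.add_mem hy1.2 hy2.2, y, hy1.1, hy0, ?_⟩
  field_simp

omit [FiniteDimensional k K] in
theorem rat_inv {V : Submodule k K} (h1 : (1 : K) ∈ V) {a : K} (ha : Rat V a) :
    Rat V a⁻¹ := by
  obtain ⟨x, hx, y, hy, hy0, rfl⟩ := ha
  by_cases hx0 : x = 0
  · rw [hx0]
    simpa using rat_of_mem h1 V.zero_mem
  · exact ⟨y, hy, x, hx, hx0, by rw [inv_div]⟩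

/-- the field of quotients of elements of `V` -/
noncomputable def R (V : Submodule k K) (h1 : (1 : K) ∈ V)
    (h : 2 * finrank k (V * V : Submodule k K) < 3 * finrank k V) : IntermediateField k K where
  carrier := {z | Rat V z}
  mul_mem' := fun ha hb => rat_mul h1 h ha hb
  add_mem' := fun ha hb => rat_add h ha hb
  algebraMap_mem' := fun r => rat_of_mem h1 (by
    rw [Algebra.algebraMap_eq_smul_one]
    exact V.smul_mem r h1)
  inv_mem' := fun _ ha => rat_inv h1 ha

end LEMFM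

open LEMFM

/-- LEMMA F -/
theorem lemF {k K : Type*} [Field k] [Field K] [Algebra k K] [FiniteDimensional k K]
    (T : K →ₗ[k] k) (hT : ∀ y : K, y ≠ 0 → T (y * y) ≠ 0) (V : Submodule k K) (h1 : (1 : K) ∈ V)
    (h : 2 * finrank k (V * V : Submodule k K) < 3 * finrank k V) :
    ∃ F : IntermediateField k K, (F : Set K) = ((V * V : Submodule k K) : Set K) := by
  refine ⟨R V h1 h, ?_⟩
  apply Set.Subset.antisymm
  · intro r₀ hr₀
    by_contra hn
    have hn : r₀ ∉ (V * V : Submodule k K) := hn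
    obtain ⟨φ, hφ0, hφ⟩ := Submodule.exists_le_ker_of_notMem hn
    -- the pairing
    let L : (R V h1 h) →ₗ[k] Dual k (R V h1 h) :=
      (LinearMap.mul k K).compr₂ φ |>.compl₁₂ (R V h1 h).val.toLinearMap
        (R V h1 h).val.toLinearMap
    have hL : ∀ u x : R V h1 h, L u x = φ ((u : K) * (x : K)) := fun u x => rfl
    have hinj : Function.Injective L := by
      rw [injective_iff_map_eq_zero]
      intro u hu
      by_contra hu0
      have hu0' : (u : K) ≠ 0 := fun h0 => hu0 (Subtype.ext h0)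
      have := LinearMap.congr_fun hu (u⁻¹ * ⟨r₀, hr₀⟩)
      rw [hL] at this
      apply hφ0
      have e : (u : K) * ((u⁻¹ * ⟨r₀, hr₀⟩ : R V h1 h) : K) = r₀ := by
        show (u : K) * ((u : K)⁻¹ * r₀) = r₀
        rw [mul_inv_cancel_left₀ hu0']
      rw [e] at this
      exact this
    have hsurj : Function.Surjective L :=
      (LinearMap.injective_iff_surjective_of_finrank_eq_finrank
        (Subspace.dual_finrank_eq).symm).1 hinj
    obtain ⟨u, hu⟩ := hsurj (T.comp (R V h1 h).val.toLinearMap)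
    have hu' : ∀ x : R V h1 h, φ ((u : K) * (x : K)) = T (x : K) := by
      intro x
      rw [← hL, hu]
      rfl
    have hu0 : (u : K) ≠ 0 := by
      intro h0
      have := hu' 1
      rw [h0, zero_mul, map_zero] at this
      have h2 := hT 1 one_ne_zero
      rw [mul_one] at h2
      exact h2 this.symm
    have hn0 : 0 < finrank k (Y V (u : K)) := by
      have := rat_big h u.2 hu0
      omega
    obtain ⟨y, hy, hy0⟩ := Submodule.exists_mem_ne_zero_of_ne_bot (p := Y V (u : K)) (by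
      intro h0
      rw [h0, finrank_bot] at hn0
      exact lt_irrefl _ hn0)
    have hyR : Rat V y := rat_of_mem h1 hy.1
    have e := hu' (⟨y * y, rat_mul h1 h hyR hyR⟩ : R V h1 h)
    apply hT y hy0
    rw [← e]
    show φ ((u : K) * (y * y)) = 0
    rw [← mul_assoc]
    exact hφ (Submodule.mul_mem_mul hy.2 hy.1)
  · intro z hz
    have hz : z ∈ (V * V : Submodule k K) := hz
    have hle : (V * V : Submodule k K) ≤ Subalgebra.toSubmodule (R V h1 h).toSubalgebra := by
      rw [Submodule.mul_le]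
      intro a ha b hb
      exact rat_mul h1 h (rat_of_mem h1 ha) (rat_of_mem h1 hb)
    exact hle hz

/-- (2a) -/
theorem mul_eq_top {k K : Type*} [Field k] [Field K] [Algebra k K] [FiniteDimensional k K]
    (A B : Submodule k K) (h : finrank k K < finrank k A + finrank k B) :
    A * B = (⊤ : Submodule k K) := by
  by_contra hn
  obtain ⟨r₀, -, hr₀⟩ := SetLike.exists_of_lt (lt_top_iff_ne_top.2 hn)
  obtain ⟨φ, hφ0, hφ⟩ := Submodule.exists_le_ker_of_notMem hr₀
  let L : K →ₗ[k] Dual k K := (LinearMap.mul k K).compr₂ φ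
  have hL : ∀ u x : K, L u x = φ (u * x) := fun u x => rfl
  have hinj : Function.Injective L := by
    rw [injective_iff_map_eq_zero]
    intro u hu
    by_contra hu0
    have := LinearMap.congr_fun hu (u⁻¹ * r₀)
    rw [hL, mul_inv_cancel_left₀ hu0] at this
    exact hφ0 this
  -- `A` is mapped into the annihilator of `B`
  have h1 : A.map L ≤ B.dualAnnihilator := by
    rintro _ ⟨a, ha, rfl⟩
    rw [Submodule.mem_dualAnnihilator]
    intro b hb
    rw [hL]
    exact hφ (Submodule.mul_mem_mul ha hb)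
  have h2 : finrank k (A.map L) = finrank k A :=
    LinearEquiv.finrank_eq (Submodule.equivMapOfInjective _ hinj A).symm
  have h3 := Submodule.finrank_mono h1
  have h4 := Subspace.finrank_add_finrank_dualAnnihilator_eq B
  omega

open NumberField in
/-- the trace of a nonzero square of a totally real field is not zero -/
theorem LEMFM.trace_sq_ne {K : Type} [Field K] [NumberField K]
    (hK : ∀ φ : K →+* ℂ, ∀ x : K, (φ x).im = 0) (y : K) (hy : y ≠ 0) :
    Algebra.trace ℚ K (y * y) ≠ 0 := by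
  intro h
  have h1 := trace_eq_sum_embeddings (K := ℚ) (L := K) ℂ (x := y * y)
  rw [h, map_zero] at h1
  have h2 : ∑ σ : K →ₐ[ℚ] ℂ, σ (y * y) = ∑ φ : K →+* ℂ, φ (y * y) := by
    rw [← (RingHom.equivRatAlgHom (R := K) (S := ℂ)).sum_comp]
    rfl
  rw [h2] at h1
  have h3 : ((∑ φ : K →+* ℂ, realEmb hK φ y ^ 2 : ℝ) : ℂ) = 0 := by
    rw [h1, Complex.ofReal_sum]
    refine Finset.sum_congr rfl fun φ _ => ?_
    rw [Complex.ofReal_pow, ofReal_realEmb, map_mul, sq]
  have h4 : ∑ φ : K →+* ℂ, realEmb hK φ y ^ 2 = 0 := by exact_mod_cast h3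
  obtain ⟨φ⟩ : Nonempty (K →+* ℂ) := inferInstance
  have h5 := (Finset.sum_eq_zero_iff_of_nonneg fun _ _ => sq_nonneg _).1 h4 φ (Finset.mem_univ φ)
  have h6 : realEmb hK φ y = 0 := by simpa using h5
  exact hy ((map_eq_zero _).1 h6)

theorem specLEMF : SpecLEMF := by
  intro K _ _ hK V h1 h
  obtain ⟨F, hF⟩ := lemF (Algebra.trace ℚ K) (LEMFM.trace_sq_ne hK) V h1 h
  refine ⟨F, ?_⟩
  apply SetLike.coe_injective
  exact hF

end Pool.Agent.Lib.MPcb8a44.RD
end

section
/-!
# Theorem RC, module LMX (helper68)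

The 3/2 lemma for subspaces which need not contain 1.
-/
set_option autoImplicit false

open NumberField Module

namespace Pool.Agent.Lib.MPcb8a44.RC

namespace LMXM

open RD.LEMFM

variable {K : Type} [Field K] [NumberField K]

lemma mem_fs {F : IntermediateField ℚ K} {x : K} : x ∈ fs F ↔ x ∈ F := Iff.rfl

/-- two subspaces of `W` which meet in zero -/
lemma dim_le {P Q W : Submodule ℚ K} (hP : P ≤ W) (hQ : Q ≤ W) (h : ∀ z ∈ P, z ∈ Q → z = 0) :
    finrank ℚ P + finrank ℚ Q ≤ finrank ℚ W := by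
  have h1 := Submodule.finrank_sup_add_finrank_inf_eq P Q
  have h2 : finrank ℚ (P ⊔ Q : Submodule ℚ K) ≤ finrank ℚ W := Submodule.finrank_mono (sup_le hP hQ)
  have h3 : (P ⊓ Q : Submodule ℚ K) = ⊥ := by
    rw [eq_bot_iff]
    rintro z ⟨hz1, hz2⟩
    exact (Submodule.mem_bot ℚ).2 (h z hz1 hz2)
  rw [h3, finrank_bot] at h1
  omega

end LMXM

open LMXM RD.LEMFM in
theorem specLMX : SpecLMX := by
  intro K _ _ hK X V W hXV hVW hW hdim
  have hX0 : X ≠ ⊥ := by
    rintro rfl
    rw [finrank_bot] at hdim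
    omega
  obtain ⟨y, hy, hy0⟩ := Submodule.exists_mem_ne_zero_of_ne_bot hX0
  have hyi : y⁻¹ ≠ 0 := inv_ne_zero hy0
  set X' := X.map (mu ℚ y⁻¹) with hX'
  have memX' : ∀ x ∈ X, y⁻¹ * x ∈ X' := fun x hx => ⟨x, hx, rfl⟩
  have one' : (1 : K) ∈ X' := by
    have := memX' y hy
    rwa [inv_mul_cancel₀ hy0] at this
  have up : ∀ z ∈ X' * X', y ^ 2 * z ∈ X * X := by
    intro z hz
    refine Submodule.mul_induction_on hz ?_ ?_
    · rintro _ ⟨a, ha, rfl⟩ _ ⟨b, hb, rfl⟩
      have e : y ^ 2 * (mu ℚ y⁻¹ a * mu ℚ y⁻¹ b) = a * b := by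
        rw [mu_apply, mu_apply]
        field_simp
      rw [e]
      exact Submodule.mul_mem_mul ha hb
    · intro a b ha hb
      rw [mul_add]
      exact Submodule.add_mem _ ha hb
  have dn : ∀ z ∈ X * X, ∃ w ∈ X' * X', z = y ^ 2 * w := by
    intro z hz
    refine Submodule.mul_induction_on hz ?_ ?_
    · intro a ha b hb
      refine ⟨y⁻¹ * a * (y⁻¹ * b), Submodule.mul_mem_mul (memX' a ha) (memX' b hb), ?_⟩
      field_simp
    · rintro a b ⟨w, hw, rfl⟩ ⟨w', hw', rfl⟩
      exact ⟨w + w', Submodule.add_mem _ hw hw', by ring⟩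
  have hXX : X * X ≤ X * V := Submodule.mul_le.2 fun a ha b hb => Submodule.mul_mem_mul ha (hXV hb)
  have hXXW : X * X ≤ W := hXX.trans hW
  have dimX' : finrank ℚ X' = finrank ℚ X := finrank_map_mu hyi X
  have dimXX : finrank ℚ (X' * X' : Submodule ℚ K) ≤ finrank ℚ W := by
    have h1 : (X' * X').map (mu ℚ (y ^ 2)) ≤ W := by
      rintro _ ⟨z, hz, rfl⟩
      exact hXXW (up z hz)
    have h2 := finrank_map_mu (k := ℚ) (pow_ne_zero 2 hy0) (X' * X')
    rw [← h2]
    exact Submodule.finrank_mono h1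
  obtain ⟨F, hF⟩ := RD.specLEMF K hK X' one' (by rw [dimX']; omega)
  have hF' : ∀ z, z ∈ X' * X' ↔ z ∈ F := by
    intro z
    rw [← hF]
    exact mem_fs
  have hX'F : ∀ z ∈ X', z ∈ F := by
    intro z hz
    rw [← hF']
    have := Submodule.mul_mem_mul hz one'
    rwa [mul_one] at this
  -- `y ∈ F`
  have hyF : y ∈ F := by
    by_contra hn
    have h1 := dim_le (P := X) (Q := X * X) (W := W) (hXV.trans hVW) hXXW (by
      intro z hz hz2
      by_contra hz0
      obtain ⟨w, hw, hw2⟩ := dn z hz2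
      have hw3 : w ∈ F := (hF' w).1 hw
      have hw0 : w ≠ 0 := by
        rintro rfl
        rw [mul_zero] at hw2
        exact hz0 hw2
      have h3 : y⁻¹ * z ∈ F := hX'F _ (memX' z hz)
      have h4 : y = y⁻¹ * z / w := by
        rw [hw2]
        field_simp
      apply hn
      rw [h4]
      exact div_mem h3 hw3)
    have h2 : finrank ℚ X ≤ finrank ℚ (X * X : Submodule ℚ K) := by
      have h3 : X.map (mu ℚ y) ≤ X * X := by
        rintro _ ⟨x, hx, rfl⟩
        exact Submodule.mul_mem_mul hy hx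
      rw [← finrank_map_mu (k := ℚ) hy0 X]
      exact Submodule.finrank_mono h3
    omega
  have hXF : ∀ x ∈ X, x ∈ F := by
    intro x hx
    have h1 := mul_mem hyF (hX'F _ (memX' x hx))
    rwa [mul_inv_cancel_left₀ hy0] at h1
  have hFX : fs F ≤ X * X := by
    intro f hf
    have h1 : (y ^ 2)⁻¹ * f ∈ F := mul_mem (inv_mem (pow_mem hyF 2)) hf
    have h2 := up _ ((hF' _).2 h1)
    rwa [mul_inv_cancel_left₀ (pow_ne_zero 2 hy0)] at h2
  have dXF : finrank ℚ X ≤ finrank ℚ (fs F) := Submodule.finrank_mono (fun x hx => hXF x hx)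
  -- `V ≤ F`
  have hVF : V ≤ fs F := by
    intro v hv
    by_contra hn
    have hn : v ∉ F := hn
    have hv0 : v ≠ 0 := by
      rintro rfl
      exact hn (zero_mem F)
    have h1 := dim_le (P := fs F) (Q := X.map (mu ℚ v)) (W := W) (hFX.trans hXXW) (by
        rintro _ ⟨x, hx, rfl⟩
        refine hW ?_
        rw [mu_apply, mul_comm v x]
        exact Submodule.mul_mem_mul hx hv) (by
      rintro _ hz ⟨x, hx, rfl⟩
      by_contra hz0
      rw [mu_apply] at hz hz0
      have hx0 : x ≠ 0 := right_ne_zero_of_mul hz0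
      apply hn
      have h4 : v = v * x / x := by field_simp
      rw [h4]
      exact div_mem hz (hXF x hx))
    rw [finrank_map_mu (k := ℚ) hv0 X] at h1
    omega
  refine ⟨F, le_antisymm (hFX.trans hXX) ?_, hVF⟩
  rw [Submodule.mul_le]
  intro a ha b hb
  have hb' : b ∈ F := hVF hb
  show a * b ∈ F
  exact mul_mem (hXF a ha) hb'

end Pool.Agent.Lib.MPcb8a44.RC
end

section
/-!
# SM2: a small integer outside `F`
-/
set_option autoImplicit false

open NumberField Module

namespace Pool.Agent.Lib.MPcb8a44.RC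

namespace SM2M

variable {K : Type} [Field K] [NumberField K]

/-- The mean square of a nonzero integer is at least `1`. -/
theorem one_le_Ms {x : K} (hx : IsIntegral ℤ x) (hx0 : x ≠ 0) : 1 ≤ RD.Ms x := by
  have h1 := RD.one_le_prod_norm hx hx0
  have h2 : (1 : ℝ) ≤ ∏ φ : K →+* ℂ, ‖φ x‖ ^ 2 := by
    rw [Finset.prod_pow]
    exact one_le_pow₀ h1
  have hd0 : (0 : ℝ) < finrank ℚ K := by exact_mod_cast RD.d_pos
  have hsum : ∑ _φ : K →+* ℂ, (1 : ℝ) = finrank ℚ K := by
    rw [Finset.sum_const, Finset.card_univ, RD.card_emb, nsmul_eq_mul, mul_one]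
  have h3 := Real.geom_mean_le_arith_mean (Finset.univ : Finset (K →+* ℂ)) (fun _ => (1 : ℝ))
    (fun φ => ‖φ x‖ ^ 2) (fun _ _ => zero_le_one) (by rw [hsum]; exact hd0)
    (fun _ _ => sq_nonneg _)
  simp only [Real.rpow_one, one_mul] at h3
  rw [hsum] at h3
  have h4 : (1 : ℝ) ≤ (∏ φ : K →+* ℂ, ‖φ x‖ ^ 2) ^ ((finrank ℚ K : ℝ))⁻¹ :=
    Real.one_le_rpow h2 (inv_nonneg.2 hd0.le)
  exact h4.trans h3

theorem Ms_one : RD.Ms (1 : K) = 1 := by
  unfold RD.Ms
  have hd0 : (finrank ℚ K : ℝ) ≠ 0 := by exact_mod_cast RD.d_pos.ne'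
  simp only [map_one, norm_one, one_pow, Finset.sum_const, Finset.card_univ, RD.card_emb,
    nsmul_eq_mul, mul_one]
  exact div_self hd0

theorem top_le (F : IntermediateField ℚ K) (c : K) (hc : c ∉ F) (h1 : 1 < finrank F K)
    (h3 : finrank F K ≤ 3) (x : K) : x ∈ sc 1 (fs F) ⊔ sc c (fs F) ⊔ sc (c ^ 2) (fs F) := by
  have hint : IsIntegral F c := Algebra.IsIntegral.isIntegral c
  have hpr : (finrank F K).Prime := by
    have h2 : finrank F K = 2 ∨ finrank F K = 3 := by omega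
    rcases h2 with h2 | h2
    · rw [h2]
      exact Nat.prime_two
    · rw [h2]
      exact Nat.prime_three
  have hmul := finrank_mul_finrank F (IntermediateField.adjoin F {c}) K
  have hne1 : finrank F (IntermediateField.adjoin F {c}) ≠ 1 := by
    intro h4
    rw [IntermediateField.finrank_eq_one_iff, IntermediateField.adjoin_simple_eq_bot_iff,
      IntermediateField.mem_bot] at h4
    obtain ⟨y, hy⟩ := h4
    exact hc (hy ▸ y.2)
  have hdvd : finrank F (IntermediateField.adjoin F {c}) ∣ finrank F K := ⟨_, hmul.symm⟩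
  have heq : finrank F (IntermediateField.adjoin F {c}) = finrank F K := by
    rcases (Nat.dvd_prime hpr).1 hdvd with h4 | h4
    · exact absurd h4 hne1
    · exact h4
  have htop : IntermediateField.adjoin F {c} = ⊤ := by
    rw [← IntermediateField.finrank_eq_one_iff_eq_top]
    rw [heq] at hmul
    exact Nat.eq_of_mul_eq_mul_left hpr.pos (by rw [hmul, mul_one])
  have hx : x ∈ IntermediateField.adjoin F {c} := by
    rw [htop]
    exact IntermediateField.mem_top
  let pb := IntermediateField.adjoin.powerBasis hint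
  have hdim : pb.dim ≤ 3 := by
    have h4 : pb.dim = finrank F (IntermediateField.adjoin F {c}) := pb.finrank.symm
    omega
  have hrep := pb.basis.sum_repr ⟨x, hx⟩
  have hrep2 : x = ∑ i : Fin pb.dim, ((pb.basis.repr ⟨x, hx⟩ i : F) : K) * c ^ (i : ℕ) := by
    have h5 := congrArg (fun z : IntermediateField.adjoin F {c} => (z : K)) hrep
    simp only at h5
    refine h5.symm.trans ?_
    rw [IntermediateField.coe_sum]
    refine Finset.sum_congr rfl fun i _ => ?_
    rw [pb.basis_eq_pow]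
    rfl
  have hgoal : (∑ i : Fin pb.dim, ((pb.basis.repr ⟨x, hx⟩ i : F) : K) * c ^ (i : ℕ))
      ∈ sc 1 (fs F) ⊔ sc c (fs F) ⊔ sc (c ^ 2) (fs F) → x ∈ sc 1 (fs F) ⊔ sc c (fs F) ⊔ sc (c ^ 2) (fs F) :=
    fun h => hrep2 ▸ h
  apply hgoal
  apply Submodule.sum_mem
  intro i _
  have hi : (i : ℕ) = 0 ∨ (i : ℕ) = 1 ∨ (i : ℕ) = 2 := by
    have := i.2
    omega
  have hmem : ∀ w : K, ((pb.basis.repr ⟨x, hx⟩ i : F) : K) * w ∈ sc w (fs F) := by
    intro w
    rw [mem_sc]
    exact ⟨_, (pb.basis.repr ⟨x, hx⟩ i : F).2, mul_comm _ _⟩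
  rcases hi with hi | hi | hi
  · rw [hi, pow_zero]
    exact Submodule.mem_sup_left (Submodule.mem_sup_left (hmem 1))
  · rw [hi, pow_one]
    exact Submodule.mem_sup_left (Submodule.mem_sup_right (hmem c))
  · rw [hi]
    exact Submodule.mem_sup_right (hmem (c ^ 2))

end SM2M

theorem specSM2 (hTWD : SpecTWD) (hGMN : SpecGMN) (hHUL : SpecHUL) : SpecSM2 := by
  intro K _ _ hK F c h1 h3 hcint hcF
  have hc0 : c ≠ 0 := by
    rintro rfl
    exact hcF F.zero_mem
  have hMs := SM2M.one_le_Ms hcint hc0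
  have hk : (finrank F K : ℝ) ≤ 3 := by exact_mod_cast h3
  have hk0 : (0 : ℝ) ≤ (finrank F K : ℝ) := Nat.cast_nonneg _
  set y := Real.log (3 * RD.Ms c) + LD F with hy
  have hlog3 : 0 ≤ Real.log 3 := Real.log_nonneg (by norm_num)
  have hlogM : Real.log 3 ≤ Real.log (3 * RD.Ms c) := Real.log_le_log (by norm_num) (by linarith)
  -- the three pieces
  have D1 : DE y (sc 1 (fs F)) := by
    apply hTWD K hK F 1 3 y one_ne_zero isIntegral_one (by norm_num)
    · refine ((hGMN K F 1).1).trans ?_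
      rw [SM2M.Ms_one, mul_one]
      exact pow_le_pow_left₀ hk0 hk _
    · linarith
  have D2 : DE y (sc c (fs F)) := by
    apply hTWD K hK F c (3 * RD.Ms c) y hc0 hcint (by linarith)
    · refine ((hGMN K F c).1).trans ?_
      exact pow_le_pow_left₀ (mul_nonneg hk0 (by linarith))
        (mul_le_mul_of_nonneg_right hk (by linarith)) _
    · linarith
  have D3 : DE y (sc (c ^ 2) (fs F)) := by
    apply hTWD K hK F (c ^ 2) ((3 * RD.Ms c) ^ 2) y (pow_ne_zero 2 hc0) (hcint.pow 2)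
      (by positivity)
    · refine ((hGMN K F c).2).trans ?_
      rw [← pow_mul]
      exact pow_le_pow_left₀ (mul_nonneg hk0 (by linarith))
        (mul_le_mul_of_nonneg_right hk (by linarith)) _
    · rw [Real.log_pow]
      push_cast
      linarith
  obtain ⟨_, hsup, _, hle, _⟩ := hHUL K hK y
  have D4 := hle _ (hsup _ _ (hsup _ _ D1 D2) D3)
  rw [eq_top_iff]
  intro x _
  exact D4 (SM2M.top_le F c hcF h1 h3 x)

end Pool.Agent.Lib.MPcb8a44.RC
end
end

section
section
/-!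
# Module LIN of Theorem RD (MP_cb8a44_nt): real arithmetic
-/
set_option autoImplicit false

namespace Pool.Agent.Lib.MPcb8a44.RD

namespace LINM

lemma split_sum (f : ℕ → ℝ) (d : ℕ) : ∀ s : ℕ, s ≤ d →
    ∑ i ∈ Finset.range d, f i = ∑ i ∈ Finset.range (d - s), f i +
      ∑ j ∈ Finset.range s, f (d - 1 - j)
  | 0, _ => by simp
  | s + 1, h => by
    rw [split_sum f d s (by omega), Finset.sum_range_succ _ s,
      show d - s = (d - (s + 1)) + 1 by omega, Finset.sum_range_succ,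
      show d - 1 - s = d - (s + 1) by omega]
    ring

lemma window_sum {t : ℕ → ℝ} {d : ℕ} (ht : ∀ j < d, 0 ≤ t j) (m n : ℕ) (h : m + n ≤ d) :
    ∑ i ∈ Finset.range n, t (m + i) ≤ ∑ j ∈ Finset.range d, t j := by
  have h1 := Finset.sum_Ico_eq_sum_range t m (m + n)
  rw [show m + n - m = n by omega] at h1
  rw [← h1]
  apply Finset.sum_le_sum_of_subset_of_nonneg
  · intro i hi
    rw [Finset.mem_Ico] at hi
    rw [Finset.mem_range]
    omega
  · intro i hi _
    exact ht i (Finset.mem_range.1 hi)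

end LINM

open LINM

theorem specLIN : SpecLIN := by
  intro d hd ℓ E hE h0 _ hD hS hR
  by_contra hcon
  push Not at hcon
  set L : ℝ := ℓ (d - 1) with hL
  let t : ℕ → ℝ := fun j => ℓ j + ℓ (d - 1 - j) - L
  have ht : ∀ j < d, 0 ≤ t j := by
    intro j hj
    have := hD j (d - 1 - j) hj (by omega) (by omega)
    simp only [t]
    linarith
  have hrefl : ∑ j ∈ Finset.range d, ℓ (d - 1 - j) = ∑ j ∈ Finset.range d, ℓ j :=
    Finset.sum_range_reflect ℓ d
  have hT : ∑ j ∈ Finset.range d, t j = 2 * ∑ i ∈ Finset.range d, ℓ i - d * L := by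
    simp only [t, Finset.sum_sub_distrib, Finset.sum_add_distrib, hrefl, Finset.sum_const,
      Finset.card_range, nsmul_eq_mul]
    ring
  have hT' : ∑ j ∈ Finset.range d, t j ≤ d * E := by
    rw [hT]
    linarith
  -- the basic inequality
  have key : ∀ s : ℕ, 1 ≤ s → 2 * s < d →
      ((d : ℝ) - 3 * s) * ℓ (s - 1) ≤ ((d : ℝ) - 3 * s) * t (s - 1) + s * t s + d * E := by
    intro s hs1 hs2
    have hsum := split_sum ℓ d s (by omega)
    have htsum := split_sum t d s (by omega)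
    have hsym : ∑ j ∈ Finset.range s, t (d - 1 - j) = ∑ j ∈ Finset.range s, t j := by
      apply Finset.sum_congr rfl
      intro j hj
      rw [Finset.mem_range] at hj
      simp only [t]
      rw [show d - 1 - (d - 1 - j) = j by omega]
      ring
    have hle : ∑ j ∈ Finset.range s, t j ≤ ∑ j ∈ Finset.range (d - s), t j := by
      have := window_sum (t := t) (d := d - s) (fun j hj => ht j (by omega)) 0 s (by omega)
      simpa using this
    have hpart : ∑ j ∈ Finset.range s, t j = ∑ j ∈ Finset.range s, ℓ j +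
        ∑ j ∈ Finset.range s, ℓ (d - 1 - j) - s * L := by
      simp only [t, Finset.sum_sub_distrib, Finset.sum_add_distrib, Finset.sum_const,
        Finset.card_range, nsmul_eq_mul]
    have hnn : 0 ≤ ∑ j ∈ Finset.range s, ℓ j :=
      Finset.sum_nonneg fun j hj => h0 j (by have := Finset.mem_range.1 hj; omega)
    have h1 : ℓ (d - s) = L + t (s - 1) - ℓ (s - 1) := by
      simp only [t]
      rw [show d - 1 - (s - 1) = d - s by omega]
      ring
    have h2 : ℓ (d - s - 1) + ℓ s = L + t s := by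
      simp only [t]
      rw [show d - 1 - s = d - s - 1 by omega]
      ring
    have h3 := hR s hs1 hs2
    have h4 : ((d : ℝ) - 2 * s) * L ≤ 2 * ∑ i ∈ Finset.range (d - s), ℓ i := by
      rw [hsym] at htsum
      linarith
    have h5 : (s : ℝ) * (2 * ℓ (d - s) - ℓ (d - s - 1) - ℓ s) =
        s * (2 * (L + t (s - 1) - ℓ (s - 1)) - (L + t s)) := by
      rw [← h1, ← h2]
      ring
    have h6 : ((d : ℝ) - s) * ℓ (d - s) = ((d : ℝ) - s) * (L + t (s - 1) - ℓ (s - 1)) := by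
      rw [h1]
    rw [h5, h6] at h3
    nlinarith [h3, h4]
  -- the window
  set a : ℕ := (32 * d + 99) / 100 with ha
  set b : ℕ := 33 * d / 100 with hb
  have hab : 9 * d ≤ 1000 * (b + 1 - a) := by omega
  have ha1 : 1 ≤ a := by omega
  have hdR : (1000 : ℝ) ≤ d := by exact_mod_cast hd
  have hwin : ∀ s : ℕ, a ≤ s → s ≤ b → 223 * E < t (s - 1) + t s := by
    intro s hs1 hs2
    have e1 : 32 * d ≤ 100 * s := by omega
    have e2 : 100 * s ≤ 33 * d := by omega
    have h1 := hcon s (by omega) e1 (by omega)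
    have h2 := key s (by omega) (by omega)
    have e2' : 100 * (s : ℝ) ≤ 33 * d := by exact_mod_cast e2
    have p1 := ht (s - 1) (by omega)
    have p2 := ht s (by omega)
    by_contra hlt
    rw [not_lt] at hlt
    have c1 : 0 < (d : ℝ) - 3 * s := by linarith
    have c2 : ((d : ℝ) - 3 * s) * (10000 * E) < ((d : ℝ) - 3 * s) * ℓ (s - 1) :=
      mul_lt_mul_of_pos_left h1 c1
    have c3 : ((d : ℝ) - 3 * s) * t (s - 1) ≤ ((d : ℝ) - 3 * s) * (223 * E) :=
      mul_le_mul_of_nonneg_left (by linarith) c1.le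
    have c4 : (s : ℝ) * t s ≤ s * (223 * E) :=
      mul_le_mul_of_nonneg_left (by linarith) (Nat.cast_nonneg _)
    have c5 : (s : ℝ) * (223 * E) ≤ (33 * d / 100) * (223 * E) :=
      mul_le_mul_of_nonneg_right (by linarith) (by linarith)
    have c6 : ((d : ℝ) / 100) * (9777 * E) ≤ ((d : ℝ) - 3 * s) * (9777 * E) :=
      mul_le_mul_of_nonneg_right (by linarith) (by linarith)
    have c7 : 0 ≤ (d : ℝ) * E := by positivity
    nlinarith
  set n : ℕ := b + 1 - a with hn
  have hn0 : 0 < n := by omega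
  have hsumlt : ∑ _i ∈ Finset.range n, 223 * E <
      ∑ i ∈ Finset.range n, (t (a - 1 + i) + t (a + i)) := by
    apply Finset.sum_lt_sum_of_nonempty (Finset.nonempty_range_iff.2 hn0.ne')
    intro i hi
    rw [Finset.mem_range] at hi
    have := hwin (a + i) (by omega) (by omega)
    rwa [show a + i - 1 = a - 1 + i by omega] at this
  rw [Finset.sum_add_distrib, Finset.sum_const, Finset.card_range, nsmul_eq_mul] at hsumlt
  have w1 := window_sum ht (a - 1) n (by omega)
  have w2 := window_sum ht a n (by omega)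
  have hnR : 9 * (d : ℝ) ≤ 1000 * n := by exact_mod_cast hab
  have : 9 * (d : ℝ) * (223 * E) ≤ 1000 * n * (223 * E) :=
    mul_le_mul_of_nonneg_right hnR (by linarith)
  have c7 : 0 ≤ (d : ℝ) * E := by positivity
  linarith

end Pool.Agent.Lib.MPcb8a44.RD
end

section
/-!
# Theorem RC, block D, module NZ0 (helper90): a large hull at a small scale.
-/
set_option autoImplicit false

open NumberField Module
open scoped Pointwise

namespace Pool.Agent.Lib.MPcb8a44.RC

namespace NZ0M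

/-- `nn ≤ d`. -/
theorem nn_le (K : Type) [Field K] [NumberField K] (y : ℝ) : nn K y ≤ finrank ℚ K :=
  Submodule.finrank_le _

theorem nn_top {K : Type} [Field K] [NumberField K] {y : ℝ} (h : HV K y = ⊤) :
    nn K y = finrank ℚ K := by
  rw [nn, h]
  exact finrank_top ℚ K

/-- The scales at which the hull has dimension at least `j d / D`. -/
def SS (K : Type) [Field K] [NumberField K] (D j : ℕ) : Set ℝ :=
  {z | 0 ≤ z ∧ j * finrank ℚ K ≤ D * nn K z}

/-- The first such scale. -/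
noncomputable def ee (K : Type) [Field K] [NumberField K] (D j : ℕ) : ℝ := sInf (SS K D j)

section

variable {K : Type} [Field K] [NumberField K]

theorem bdd (D j : ℕ) : BddBelow (SS K D j) := ⟨0, fun _ h => h.1⟩

theorem mem_LD (hTOP : SpecTOP) (hK : RD.TR K) {D j : ℕ} (hj : j ≤ D) : LD K ∈ SS K D j := by
  obtain ⟨h1, _, h3⟩ := hTOP K hK
  refine ⟨h3, ?_⟩
  rw [nn_top (h1 _ le_rfl)]
  exact Nat.mul_le_mul_right _ hj

theorem ee_nonneg (hTOP : SpecTOP) (hK : RD.TR K) {D j : ℕ} (hj : j ≤ D) : 0 ≤ ee K D j :=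
  le_csInf ⟨_, mem_LD hTOP hK hj⟩ fun _ h => h.1

theorem ee_le (hTOP : SpecTOP) (hK : RD.TR K) {D j : ℕ} (hj : j ≤ D) : ee K D j ≤ LD K :=
  csInf_le (bdd D j) (mem_LD hTOP hK hj)

theorem ee_le_of {D j : ℕ} {z : ℝ} (hz : z ∈ SS K D j) : ee K D j ≤ z := csInf_le (bdd D j) hz

theorem ee_mono (hTOP : SpecTOP) (hK : RD.TR K) {D j j' : ℕ} (hj : j ≤ j') (hj' : j' ≤ D) :
    ee K D j ≤ ee K D j' := by
  refine csInf_le_csInf (bdd D j) ⟨_, mem_LD hTOP hK hj'⟩ ?_
  rintro z ⟨h1, h2⟩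
  exact ⟨h1, (Nat.mul_le_mul_right _ hj).trans h2⟩

/-- The infimum is attained. -/
theorem ee_mem (hTOP : SpecTOP) (hHMO : SpecHMO) (hK : RD.TR K) {D j : ℕ} (hD : 1 ≤ D)
    (hj : j ≤ D) : j * finrank ℚ K ≤ D * nn K (ee K D j) := by
  obtain ⟨_, h2, _, _, _, h6⟩ := hHMO K hK
  -- the least dimension allowed
  have key : ∀ n : ℕ, j * finrank ℚ K ≤ D * n ↔ (j * finrank ℚ K + (D - 1)) / D ≤ n := by
    intro n
    rw [← Nat.lt_succ_iff (n := n), Nat.div_lt_iff_lt_mul (by omega), Nat.succ_mul, Nat.mul_comm n D]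
    omega
  rw [key]
  refine h6 _ _ fun y' hy' => ?_
  rw [← key]
  obtain ⟨z, hz, hzy⟩ := exists_lt_of_csInf_lt ⟨_, mem_LD hTOP hK hj⟩ hy'
  exact hz.2.trans (Nat.mul_le_mul_left _ (h2 z y' hzy.le).2)

theorem ee_lt (hHMO : SpecHMO) (hK : RD.TR K) {D j : ℕ} (hj : 1 ≤ j) (z : ℝ)
    (hz : z < ee K D j) : D * nn K z < j * finrank ℚ K := by
  obtain ⟨_, _, _, _, h5, _⟩ := hHMO K hK
  have hd : 0 < finrank ℚ K := finrank_pos
  by_contra hcon
  push Not at hcon
  rcases lt_or_ge z 0 with h0 | h0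
  · have h1 : nn K z = 0 := by
      rw [nn, h5 z h0]
      exact finrank_bot ℚ K
    rw [h1, mul_zero] at hcon
    have : 0 < j * finrank ℚ K := Nat.mul_pos hj hd
    omega
  · exact absurd (ee_le_of (D := D) (j := j) ⟨h0, hcon⟩) (not_le.mpr hz)

end

end NZ0M

open NZ0M in
/-- **NZ0**. -/
theorem specNZ0 (hINF : SpecINF) (hGRS : SpecGRS) (hHMO : SpecHMO) (hPFU : SpecPFU)
    (hTOP : SpecTOP) : SpecNZ0 := by
  intro C hC hRM ε hε hε1
  have hc0 : 0 ≤ Real.log C := Real.log_nonneg hC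
  -- the constants
  obtain ⟨D, hD1000, hDε⟩ : ∃ D : ℕ, 1000 ≤ D ∧ 10 ^ 7 / ε ≤ (D : ℝ) := by
    refine ⟨max 1000 ⌈10 ^ 7 / ε⌉₊, le_max_left _ _, ?_⟩
    exact (Nat.le_ceil _).trans (by exact_mod_cast le_max_right _ _)
  have hD1 : 1 ≤ D := by omega
  have hD0 : (0 : ℝ) < D := by exact_mod_cast hD1
  obtain ⟨C', hC'0, hC'⟩ := hINF C hC hRM D (ε / 10 ^ 6) hD1 (by positivity)
    ((div_le_one (by norm_num)).mpr (by linarith))
  obtain ⟨T, hT⟩ : ∃ T : ℝ, T = D * (5 + Real.log C) + 1 := ⟨_, rfl⟩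
  have hT0 : 0 < T := by rw [hT]; positivity
  have hTD : (5 + Real.log C) / T < 1 / D := by
    rw [div_lt_div_iff₀ hT0 hD0, hT]
    linarith
  refine ⟨10 ^ 4 * (C' + 2 * T), ?_⟩
  intro K _ _ hK h3K
  obtain ⟨hm1, hm2, hm3, hm4, hm5, hm6⟩ := hHMO K hK
  obtain ⟨ht1, ht2, hR0⟩ := hTOP K hK
  obtain ⟨R, hR⟩ : ∃ R : ℝ, R = LD K := ⟨_, rfl⟩
  rw [← hR] at ht1 hR0 ⊢
  have hd1 : 0 < finrank ℚ K := finrank_pos
  obtain ⟨d, hd⟩ : ∃ d : ℝ, d = (finrank ℚ K : ℝ) := ⟨_, rfl⟩
  have hd0 : 0 < d := by rw [hd]; exact_mod_cast hd1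
  -- the grid
  obtain ⟨e, he⟩ : ∃ e : ℕ → ℝ, e = fun i => ee K D (min i (D - 1) + 1) := ⟨_, rfl⟩
  have hei : ∀ i, i < D → e i = ee K D (i + 1) := by
    intro i hi
    rw [he]
    show ee K D (min i (D - 1) + 1) = _
    rw [min_eq_left (by omega)]
  have hmin : ∀ i, min i (D - 1) + 1 ≤ D := fun i => by
    have := min_le_right i (D - 1)
    omega
  have he0 : ∀ i, 0 ≤ e i := fun i => by
    rw [he]
    exact ee_nonneg hTOP hK (hmin i)
  have heR : ∀ i, e i ≤ R := fun i => by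
    rw [he, hR]
    exact ee_le hTOP hK (hmin i)
  have hemono : Monotone e := by
    intro i j hij
    rw [he]
    exact ee_mono hTOP hK (Nat.succ_le_succ (min_le_min_right _ hij)) (hmin j)
  have hge : ∀ i < D, (i + 1) * finrank ℚ K ≤ D * nn K (e i) := fun i hi => by
    rw [hei i hi]
    exact ee_mem hTOP hHMO hK hD1 (by omega)
  have hlt : ∀ i < D, ∀ z < e i, D * nn K z < (i + 1) * finrank ℚ K := fun i hi z hz => by
    rw [hei i hi] at hz
    exact ee_lt hHMO hK (by omega) z hz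
  obtain ⟨hG1, hG2⟩ := hGRS K hK D e hD1 he0 hemono hge hlt
  -- real form of `hge`
  have hgeR : ∀ i < D, ((i : ℝ) + 1) * d ≤ D * nn K (e i) := fun i hi => by
    rw [hd]
    exact_mod_cast hge i hi
  have hnnd : ∀ z, (nn K z : ℝ) ≤ d := fun z => by
    rw [hd]
    exact_mod_cast nn_le K z
  -- the top
  have hetop : (nn K (e (D - 1)) : ℝ) = d := by
    refine le_antisymm (hnnd _) ?_
    have h1 := hgeR (D - 1) (by omega)
    have h2 : (((D - 1 : ℕ) : ℝ) + 1) = D := by
      have : ((D - 1 : ℕ) + 1 : ℕ) = D := by omega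
      exact_mod_cast this
    rw [h2] at h1
    exact le_of_mul_le_mul_left h1 hD0
  obtain ⟨E, hE⟩ : ∃ E : ℝ, E = ε / 10 ^ 6 * R + C' + 3 * R / D + 2 * T := ⟨_, rfl⟩
  have hE0 : 0 ≤ E := by rw [hE]; positivity
  have hlin := RD.specLIN D hD1000 (fun i => e i + T) E hE0
    (fun i _ => by have := he0 i; show 0 ≤ e i + T; linarith)
    (fun i j hij _ => by have := hemono hij; show e i + T ≤ e j + T; linarith)
    (fun i j hi hj hij => by
      -- `e_(D-1) ≤ e_i + e_j + T`
      show e (D - 1) + T ≤ e i + T + (e j + T)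
      have h1 := hgeR i hi
      have h2 := hgeR j hj
      have h3 : (D : ℝ) + 1 ≤ (i : ℝ) + 1 + ((j : ℝ) + 1) := by
        have : (D : ℝ) ≤ ((i + j + 1 : ℕ) : ℝ) := by exact_mod_cast hij
        push_cast at this
        linarith
      have h4 : ((D : ℝ) + 1) * d ≤ D * (nn K (e i) + nn K (e j)) := by
        have := mul_le_mul_of_nonneg_right h3 hd0.le
        linarith
      have h5 : d * (1 + 1 / D) ≤ (nn K (e i) : ℝ) + nn K (e j) := by
        have h6 : D * (d * (1 + 1 / D)) = ((D : ℝ) + 1) * d := by field_simp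
        rw [← h6] at h4
        exact le_of_mul_le_mul_left h4 hD0
      have h6 : (finrank ℚ K : ℝ) * (1 + (5 + Real.log C) / T) < nn K (e i) + nn K (e j) := by
        rw [← hd]
        have : d * (1 + (5 + Real.log C) / T) < d * (1 + 1 / D) :=
          mul_lt_mul_of_pos_left (by linarith) hd0
        linarith
      have h7 := hPFU C hC hRM K hK (e i) (e j) T hT0 h6
      have h8 : e (D - 1) ≤ e i + e j + T := by
        rw [hei (D - 1) (by omega)]
        refine ee_le_of ⟨by have := he0 i; have := he0 j; linarith, ?_⟩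
        rw [nn_top h7]
        exact Nat.mul_le_mul_right _ (by omega)
      linarith)
    (by
      -- `2 ∑ ℓ ≤ D ℓ_(D-1) + D E`
      show 2 * ∑ i ∈ Finset.range D, (e i + T) ≤ D * (e (D - 1) + T) + D * E
      obtain ⟨x, hx⟩ : ∃ x : ℝ, x = e (D - 1) := ⟨_, rfl⟩
      have hx0 : 0 ≤ x := by rw [hx]; exact he0 _
      have h1 := hC' K hK h3K R x x x hx0 le_rfl hx0 le_rfl (by rw [hx]; exact heR _) (by
        rw [← hd, hx, hetop]
        have : 1 / (D : ℝ) ≤ 1 := by
          rw [div_le_one hD0]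
          exact_mod_cast hD1
        nlinarith)
      rw [← hd] at h1
      have h2 : (nn K x : ℝ) = d := by rw [hx]; exact hetop
      rw [h2] at h1
      have h3 := hG2 D x le_rfl hx0 (fun i hi => by rw [hx]; exact hemono (by omega))
        (fun i h4 h5 => by omega)
      rw [← hd] at h3
      have h4 : ∑ i ∈ Finset.range D, (x - e i) = D * x - ∑ i ∈ Finset.range D, e i := by
        rw [Finset.sum_sub_distrib, Finset.sum_const, Finset.card_range, nsmul_eq_mul]
      rw [h4] at h3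
      rw [Finset.sum_add_distrib, Finset.sum_const, Finset.card_range, nsmul_eq_mul, ← hx]
      obtain ⟨Se, hSe⟩ : ∃ t : ℝ, t = ∑ i ∈ Finset.range D, e i := ⟨_, rfl⟩
      rw [← hSe] at h3 ⊢
      have h5 : x * d ≤ 2 * (d / D * (D * x - Se + x)) + (ε / 10 ^ 6 * R + C') * d := by
        have h6 : (2 * x - x - x) * d = 0 := by ring
        rw [h6] at h1
        linarith
      have h6 : x * D ≤ 2 * (D * x - Se + x) + (ε / 10 ^ 6 * R + C') * D := by
        have h7 : d * (x * D) ≤ d * (2 * (D * x - Se + x) + (ε / 10 ^ 6 * R + C') * D) := by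
          have h8 := mul_le_mul_of_nonneg_right h5 hD0.le
          have h9 : (2 * (d / D * (D * x - Se + x)) + (ε / 10 ^ 6 * R + C') * d) * D =
              d * (2 * (D * x - Se + x) + (ε / 10 ^ 6 * R + C') * D) := by field_simp
          rw [h9] at h8
          linarith
        exact le_of_mul_le_mul_left h7 hd0
      have h7 : x ≤ R := by rw [hx]; exact heR _
      have h8 : D * E = (ε / 10 ^ 6 * R + C') * D + 3 * R + 2 * D * T := by
        rw [hE]
        field_simp
      have h9 : 0 ≤ D * T := by positivity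
      rw [h8]
      linarith)
    (by
      intro s hs1 hs2
      show 2 * ∑ i ∈ Finset.range (D - s), (e i + T) +
        s * (2 * (e (D - s) + T) - (e (D - s - 1) + T) - (e s + T)) ≤
        ((D : ℝ) - s) * (e (D - s) + T) + D * E
      obtain ⟨x, hx⟩ : ∃ x : ℝ, x = e (D - s) := ⟨_, rfl⟩
      obtain ⟨a, ha⟩ : ∃ a : ℝ, a = e (D - s - 1) := ⟨_, rfl⟩
      obtain ⟨y, hy⟩ : ∃ y : ℝ, y = e s := ⟨_, rfl⟩
      have hx0 : 0 ≤ x := by rw [hx]; exact he0 _
      have ha0 : 0 ≤ a := by rw [ha]; exact he0 _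
      have hy0 : 0 ≤ y := by rw [hy]; exact he0 _
      have hyx : y ≤ x := by rw [hx, hy]; exact hemono (by omega)
      have hax : a ≤ x := by rw [hx, ha]; exact hemono (by omega)
      have hxR : x ≤ R := by rw [hx]; exact heR _
      have hDs : ((D - s : ℕ) : ℝ) = D - s := by rw [Nat.cast_sub (by omega)]
      have hnna : ((D : ℝ) - s) * d ≤ D * nn K a := by
        have h1 := hgeR (D - s - 1) (by omega)
        have h2 : (((D - s - 1 : ℕ) : ℝ) + 1) = D - s := by
          rw [← hDs]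
          have : ((D - s - 1 : ℕ) + 1 : ℕ) = D - s := by omega
          exact_mod_cast this
        rw [h2, ← ha] at h1
        exact h1
      have hnny : ((s : ℝ) + 1) * d ≤ D * nn K y := by
        have h1 := hgeR s (by omega)
        rw [← hy] at h1
        exact h1
      have h1 := hC' K hK h3K R x a y hy0 hyx ha0 hax hxR (by
        rw [← hd]
        have h2 : D * ((1 + 1 / (D : ℝ)) * d) ≤ D * ((nn K y : ℝ) + nn K a) := by
          have h3 : D * ((1 + 1 / (D : ℝ)) * d) = ((D : ℝ) + 1) * d := by field_simp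
          rw [h3]
          linarith
        exact le_of_mul_le_mul_left h2 hD0)
      rw [← hd] at h1
      have h2 := hG1 (D - s) a (by omega) ha0 (fun i hi => by rw [ha]; exact hemono (by omega))
      have h3 := hG2 (D - s) x (by omega) hx0 (fun i hi => by rw [hx]; exact hemono (by omega))
        (fun i h4 _ => by rw [hx]; exact hemono h4)
      rw [← hd] at h2 h3
      have h4 : ∀ t : ℝ, ∑ i ∈ Finset.range (D - s), (t - e i) =
          ((D : ℝ) - s) * t - ∑ i ∈ Finset.range (D - s), e i := by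
        intro t
        rw [Finset.sum_sub_distrib, Finset.sum_const, Finset.card_range, nsmul_eq_mul, hDs]
      rw [h4] at h2 h3
      rw [Finset.sum_add_distrib, Finset.sum_const, Finset.card_range, nsmul_eq_mul, hDs, ← hx,
        ← ha, ← hy]
      obtain ⟨Se, hSe⟩ : ∃ t : ℝ, t = ∑ i ∈ Finset.range (D - s), e i := ⟨_, rfl⟩
      rw [← hSe] at h2 h3 ⊢
      -- divide by `d / D`
      have h5 : y * (((D : ℝ) - s) * d) ≤ y * (D * nn K a) := mul_le_mul_of_nonneg_left hnna hy0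
      have h6 : (((D : ℝ) - s) * a - Se) + D * (2 * x - a - y) + y * ((D : ℝ) - s) ≤
          3 * (((D : ℝ) - s) * x - Se + x) + D * (ε / 10 ^ 6 * R + C') := by
        have h7 : d / D * (((D : ℝ) - s) * a - Se) + (2 * x - a - y) * d + y * nn K a ≤
            3 * (d / D * (((D : ℝ) - s) * x - Se + x)) + (ε / 10 ^ 6 * R + C') * d := by linarith
        have h8 := mul_le_mul_of_nonneg_left h7 hD0.le
        have h9 : D * (d / D * (((D : ℝ) - s) * a - Se) + (2 * x - a - y) * d + y * nn K a) =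
            d * (((D : ℝ) - s) * a - Se) + D * (2 * x - a - y) * d + y * (D * nn K a) := by
          field_simp
        have h10 : D * (3 * (d / D * (((D : ℝ) - s) * x - Se + x)) +
            (ε / 10 ^ 6 * R + C') * d) =
            d * (3 * (((D : ℝ) - s) * x - Se + x) + D * (ε / 10 ^ 6 * R + C')) := by
          field_simp
        rw [h9, h10] at h8
        have h11 : d * ((((D : ℝ) - s) * a - Se) + D * (2 * x - a - y) + y * ((D : ℝ) - s)) ≤
            d * (3 * (((D : ℝ) - s) * x - Se + x) + D * (ε / 10 ^ 6 * R + C')) := by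
          have h12 : d * ((((D : ℝ) - s) * a - Se) + D * (2 * x - a - y) + y * ((D : ℝ) - s)) =
              d * (((D : ℝ) - s) * a - Se) + D * (2 * x - a - y) * d +
              y * (((D : ℝ) - s) * d) := by ring
          rw [h12]
          linarith
        exact le_of_mul_le_mul_left h11 hd0
      have h8 : D * E = D * (ε / 10 ^ 6 * R + C') + 3 * R + 2 * D * T := by
        rw [hE]
        field_simp
      have h9 : 0 ≤ s * T := by positivity
      have h10 : 0 ≤ D * T := by positivity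
      rw [h8]
      nlinarith)
  obtain ⟨s, hs1, hs32, hs3, hsE⟩ := hlin
  have hsE' : e (s - 1) + T ≤ 10000 * E := hsE
  refine ⟨10000 * E, by positivity, ?_, ?_⟩
  · have h1 : R / D ≤ ε / 10 ^ 7 * R := by
      rw [div_le_iff₀ hD0]
      rw [div_le_iff₀ hε] at hDε
      have h2 : 1 ≤ ε / 10 ^ 7 * D := by
        rw [div_mul_eq_mul_div, le_div_iff₀ (by norm_num)]
        linarith
      have := mul_le_mul_of_nonneg_left h2 hR0
      linarith
    have h2 : 3 * R / D = 3 * (R / D) := by ring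
    have h3 : 0 ≤ ε * R := mul_nonneg hε.le hR0
    have h4 : ε / 10 ^ 7 * R = (ε * R) / 10 ^ 7 := by ring
    have h5 : ε / 10 ^ 6 * R = (ε * R) / 10 ^ 6 := by ring
    rw [hE, h2, h5]
    rw [h4] at h1
    norm_num at h1 ⊢
    linarith
  · have h1 : e (s - 1) ≤ 10000 * E := by linarith
    have h2 := (hm2 _ _ h1).2
    have h3 := hge (s - 1) (by omega)
    rw [show s - 1 + 1 = s by omega] at h3
    have h4 : s * finrank ℚ K ≤ D * nn K (10000 * E) := h3.trans (Nat.mul_le_mul_left _ h2)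
    have h5 : D * (32 * finrank ℚ K) ≤ D * (100 * nn K (10000 * E)) := by
      calc D * (32 * finrank ℚ K) = 32 * D * finrank ℚ K := by ring
        _ ≤ 100 * s * finrank ℚ K := Nat.mul_le_mul_right _ hs32
        _ = 100 * (s * finrank ℚ K) := by ring
        _ ≤ 100 * (D * nn K (10000 * E)) := Nat.mul_le_mul_left _ h4
        _ = D * (100 * nn K (10000 * E)) := by ring
    exact Nat.le_of_mul_le_mul_left h5 (by omega)

end Pool.Agent.Lib.MPcb8a44.RC
end

section
/-!
# PRD: sums of products as differences of sums of squares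
-/
set_option autoImplicit false

open NumberField Module
open scoped Pointwise

namespace Pool.Agent.Lib.MPcb8a44.RC

namespace PRDM

variable {K : Type} [Field K] [NumberField K]

theorem Tm_add (x y : K) : Tm (x + y) = Tm x + Tm y := by
  unfold Tm
  rw [← add_div, ← Finset.sum_add_distrib]
  congr 1
  refine Finset.sum_congr rfl fun φ _ => ?_
  rw [map_add, Complex.add_re]

theorem Tm_zero : Tm (0 : K) = 0 := by
  unfold Tm
  simp

theorem Tm_sum {ι : Type*} (s : Finset ι) (f : ι → K) : Tm (∑ i ∈ s, f i) = ∑ i ∈ s, Tm (f i) := by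
  classical
  induction s using Finset.induction_on with
  | empty => simp [Tm_zero]
  | insert a s ha ih => rw [Finset.sum_insert ha, Finset.sum_insert ha, Tm_add, ih]

theorem Tm_sq_le (x : K) : Tm (x ^ 2) ≤ RD.hs x ^ 2 := by
  refine le_trans ?_ (RD.Ms_le_hs x)
  unfold Tm RD.Ms
  refine div_le_div_of_nonneg_right ?_ (Nat.cast_nonneg _)
  refine Finset.sum_le_sum fun φ _ => ?_
  rw [map_pow, ← norm_pow]
  exact Complex.re_le_norm _

theorem sq_bd {x : K} {X : ℝ} (h : RD.hs x ≤ Real.exp X) : Tm (x ^ 2) ≤ Real.exp (2 * X) := by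
  refine (Tm_sq_le x).trans ?_
  have h1 := pow_le_pow_left₀ (RD.hs_nonneg x) h 2
  rwa [← Real.exp_nat_mul] at h1

theorem sq_add_bd {x y : K} {X : ℝ} (hx : RD.hs x ≤ Real.exp X) (hy : RD.hs y ≤ Real.exp X) :
    Tm ((x + y) ^ 2) ≤ 4 * Real.exp (2 * X) := by
  refine (Tm_sq_le _).trans ?_
  have h0 : RD.hs (x + y) ≤ 2 * Real.exp X := by
    have := RD.hs_add_le x y
    linarith
  have h1 := pow_le_pow_left₀ (RD.hs_nonneg _) h0 2
  have h2 : (2 * Real.exp X) ^ 2 = 4 * Real.exp (2 * X) := by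
    rw [mul_pow, ← Real.exp_nat_mul]
    norm_num
  linarith

end PRDM

/-- PRD -/
theorem specPRD : SpecPRD := by
  intro K _ _ _ N X u v hu hv
  have e : 2 * ∑ i, u i * v i = (∑ i, (u i + v i) ^ 2) - ∑ i, (u i ^ 2 + v i ^ 2) := by
    rw [← Finset.sum_sub_distrib, Finset.mul_sum]
    refine Finset.sum_congr rfl fun i _ => ?_
    ring
  rw [e]
  refine Set.sub_mem_sub ⟨?_, ?_⟩ ⟨?_, ?_⟩
  · exact sum_mem fun i _ => RD.SS_sq ((hu i).1.add (hv i).1)
  · rw [PRDM.Tm_sum]
    calc ∑ i : Fin N, Tm ((u i + v i) ^ 2) ≤ ∑ _i : Fin N, 4 * Real.exp (2 * X) :=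
          Finset.sum_le_sum fun i _ => PRDM.sq_add_bd (hu i).2 (hv i).2
      _ = 4 * N * Real.exp (2 * X) := by
          rw [Finset.sum_const, Finset.card_univ, Fintype.card_fin, nsmul_eq_mul]
          ring
  · exact sum_mem fun i _ => add_mem (RD.SS_sq (hu i).1) (RD.SS_sq (hv i).1)
  · rw [PRDM.Tm_sum]
    calc ∑ i : Fin N, Tm (u i ^ 2 + v i ^ 2) ≤ ∑ _i : Fin N, 4 * Real.exp (2 * X) :=
          Finset.sum_le_sum fun i _ => by
            rw [PRDM.Tm_add]
            have h1 := PRDM.sq_bd (hu i).2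
            have h2 := PRDM.sq_bd (hv i).2
            have h3 := Real.exp_pos (2 * X)
            linarith
      _ = 4 * N * Real.exp (2 * X) := by
          rw [Finset.sum_const, Finset.card_univ, Fintype.card_fin, nsmul_eq_mul]
          ring

end Pool.Agent.Lib.MPcb8a44.RC
end

section
/-!
# Theorem RC, block D, module RES: many residues mod `q` of small elements
-/
set_option autoImplicit false

open NumberField Module
open scoped Pointwise

namespace Pool.Agent.Lib.MPcb8a44.RC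

namespace RESM

/-- representatives of the classes of a finite set, if every class has at most `M` elements -/
lemma reps {α : Type} [DecidableEq α] (r : Setoid α) (S : Finset α) (M : ℝ)
    (h : ∀ κ ∈ S, ∀ F : Finset α, F ⊆ S → (∀ x ∈ F, r.r x κ) → (F.card : ℝ) ≤ M) :
    ∃ H : Finset α, H ⊆ S ∧ (∀ x ∈ H, ∀ y ∈ H, r.r x y → x = y) ∧ (S.card : ℝ) ≤ M * H.card := by
  classical
  let π : α → Quotient r := fun x => Quotient.mk r x
  let T := S.image π
  have hs : ∀ t : T, ∃ x ∈ S, π x = t := by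
    rintro ⟨t, ht⟩
    obtain ⟨x, hx, he⟩ := Finset.mem_image.1 ht
    exact ⟨x, hx, he⟩
  choose s hsS hsπ using hs
  have hinj : Function.Injective s := by
    intro t t' htt
    apply Subtype.ext
    rw [← hsπ t, ← hsπ t', htt]
  let H : Finset α := Finset.univ.map ⟨s, hinj⟩
  refine ⟨H, ?_, ?_, ?_⟩
  · intro x hx
    obtain ⟨t, -, rfl⟩ := Finset.mem_map.1 hx
    exact hsS t
  · intro x hx y hy hxy
    obtain ⟨t, -, rfl⟩ := Finset.mem_map.1 hx
    obtain ⟨t', -, rfl⟩ := Finset.mem_map.1 hy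
    have h1 : π (s t) = π (s t') := Quotient.sound hxy
    rw [hsπ, hsπ] at h1
    exact congrArg s (Subtype.ext h1)
  · have hH : H.card = T.card := by
      rw [Finset.card_map, Finset.card_univ, Fintype.card_coe]
    rw [hH]
    have h1 : S.card = ∑ t ∈ T, (S.filter fun x => π x = t).card :=
      Finset.card_eq_sum_card_image π S
    rw [h1]
    push_cast
    calc ∑ t ∈ T, ((S.filter fun x => π x = t).card : ℝ) ≤ ∑ _t ∈ T, M := by
          refine Finset.sum_le_sum fun t ht => ?_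
          obtain ⟨κ, hκ, rfl⟩ := Finset.mem_image.1 ht
          refine h κ hκ _ (Finset.filter_subset _ _) fun x hx => ?_
          exact Quotient.exact (Finset.mem_filter.1 hx).2
      _ = M * T.card := by rw [Finset.sum_const, nsmul_eq_mul, mul_comm]

/-- congruence modulo `q L` -/
def cg {K : Type} [Field K] (q : ℕ) (L : Submodule ℤ K) : Setoid K where
  r x y := ∃ w ∈ L, x - y = (q : K) * w
  iseqv :=
    { refl := fun x => ⟨0, L.zero_mem, by simp⟩
      symm := by
        rintro x y ⟨w, hw, h⟩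
        exact ⟨-w, L.neg_mem hw, by linear_combination -h⟩
      trans := by
        rintro x y z ⟨w, hw, h⟩ ⟨w', hw', h'⟩
        exact ⟨w + w', L.add_mem hw hw', by linear_combination h + h'⟩ }

end RESM

open RESM in
/-- **RES**. -/
theorem specRES (hMAA : SpecMAA) (hMAB : SpecMAB) (hCUB : SpecCUB) (hRHB : SpecRHB)
    (hGTH : SpecGTH) (hLTB : SpecLTB) (hEVB : SpecEVB) (hGSM : SpecGSM) : SpecRES := by
  intro C hC hRM K _ _ hK a q hq
  classical
  have hq0 : (0 : ℝ) < q := by exact_mod_cast hq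
  set V := HV K a with hV
  set L := lat V with hL
  set z := a + Real.log q with hz
  have hez : Real.exp z = q * Real.exp a := by
    rw [hz, Real.exp_add, Real.exp_log hq0, mul_comm]
  obtain ⟨n, b, hb⟩ := (hLTB K hK).2.1 V
  obtain ⟨hn, -, hDt, -⟩ := (hLTB K hK).2.2.1 V n b hb
  have hspan : (Submodule.span ℤ (Set.range b) : Submodule ℤ K) = L := by
    apply le_antisymm
    · rw [Submodule.span_le]
      rintro _ ⟨i, rfl⟩
      exact hb.mem i
    · intro x hx
      exact hb.gen x hx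
  have hFG : L.FG := by
    rw [← hspan]
    exact Submodule.fg_span (Set.finite_range b)
  obtain ⟨hfin, -, hcub⟩ := hCUB K hK L z hFG
  have hmass := ((hMAA K hK z).1 V).1
  have hpsi : Real.exp (-psi z V) = (q : ℝ) ^ nn K a * Real.exp (GG K a) := by
    have e1 : -psi z V = (nn K a : ℝ) * Real.log q + GG K a := by
      show -(Real.log (Dt V) / 2 - z * finrank ℚ V) = (finrank ℚ (HV K a) : ℝ) * Real.log q +
        -(Real.log (Dt (HV K a)) / 2 - a * finrank ℚ (HV K a))
      rw [← hV, hz]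
      ring
    rw [e1, Real.exp_add, Real.exp_nat_mul, Real.exp_log hq0]
  -- the real basis
  have hbR : LinearIndependent ℝ (fun i => ev (b i)) := (((hEVB K hK).1 n b).1).1 hb.ind
  have hqb : LinearIndependent ℝ (fun i => (q : ℝ) • ev (b i)) := by
    have := hbR.units_smul (fun _ => Units.mk0 (q : ℝ) hq0.ne')
    exact this
  have hzc : ∀ x : Fin n → ℤ, zc (fun i => (q : ℝ) • ev (b i)) x = (q : ℝ) • ev (∑ i, x i • b i) := by
    intro x
    rw [← ((hEVB K hK).1 n b).2.2.2 x]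
    unfold zc
    rw [Finset.smul_sum]
    exact Finset.sum_congr rfl fun i _ => by rw [smul_comm]
  have hth : th z (fun i => (q : ℝ) • ev (b i)) = rh a L := by
    rw [← hspan, (hRHB K hK n b a hb.ind).2]
    unfold th
    refine tsum_congr fun x => ?_
    rw [hzc, ← ((hEVB K hK).1 n b).2.2.2 x, norm_smul, mul_pow, Real.norm_of_nonneg hq0.le]
    congr 2
    have e1 : Real.exp (-2 * z) * (q : ℝ) ^ 2 = Real.exp (-2 * a) := by
      rw [hz, show -2 * (a + Real.log q) = -2 * a + -(Real.log q + Real.log q) by ring, Real.exp_add,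
        Real.exp_neg, Real.exp_add, Real.exp_log hq0]
      field_simp
    rw [← e1]
    ring
  set M := Real.exp (Real.pi * finrank ℚ K) * (C ^ finrank ℚ K * Real.exp (GG K a)) with hM
  -- a class is small
  have hclass : ∀ κ ∈ hfin.toFinset, ∀ F : Finset K, F ⊆ hfin.toFinset →
      (∀ x ∈ F, (cg q L).r x κ) → (F.card : ℝ) ≤ M := by
    intro κ hκ F hF hFκ
    have hex : ∀ x : F, ∃ y : Fin n → ℤ, (x : K) - κ = (q : K) * ∑ i, y i • b i := by
      rintro ⟨x, hx⟩
      obtain ⟨w, hw, he⟩ := hFκ x hx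
      rw [← hspan, Submodule.mem_span_range_iff_exists_fun] at hw
      obtain ⟨y, rfl⟩ := hw
      exact ⟨y, he⟩
    choose f hf using hex
    have hfi : Function.Injective f := by
      intro x x' h
      apply Subtype.ext
      have h1 := hf x
      have h2 := hf x'
      rw [h] at h1
      have := h1.trans h2.symm
      exact sub_left_injective this
    have hev : ∀ x : F, ev κ + zc (fun i => (q : ℝ) • ev (b i)) (f x) = ev (x : K) := by
      intro x
      rw [hzc]
      have h1 : (x : K) = κ + ((q : ℚ) • ∑ i, f x i • b i) := by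
        have h2 := hf x
        have h3 : ((q : ℚ) • ∑ i, f x i • b i) = (q : K) * ∑ i, f x i • b i := by
          rw [Algebra.smul_def]; simp
        rw [h3, ← h2]; ring
      conv_rhs => rw [h1]
      rw [ev_add, ev_rat]
      simp
    have hsum := hGSM (EK K) n (fun i => (q : ℝ) • ev (b i)) (Real.pi * Real.exp (-2 * z)) (ev κ) hqb
      (by positivity)
    have h1 : ths z (fun i => (q : ℝ) • ev (b i)) (ev κ) ≤ C ^ finrank ℚ K * Real.exp (GG K a) := by
      have h2 := (hGTH (EK K) n (fun i => (q : ℝ) • ev (b i)) z hqb).1 (ev κ)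
      have h3 := (hMAB C hC hRM K hK a).1
      have hth0 : 0 ≤ th z (fun i => (q : ℝ) • ev (b i)) :=
        tsum_nonneg fun _ => (Real.exp_pos _).le
      have h4 : Real.exp (-(Real.pi * Real.exp (-2 * z) *
          Metric.infDist (ev κ) (Rs (fun i => (q : ℝ) • ev (b i)) : Set (EK K)) ^ 2)) ≤ 1 := by
        rw [Real.exp_le_one_iff]
        have : 0 ≤ Real.pi * Real.exp (-2 * z) *
          Metric.infDist (ev κ) (Rs (fun i => (q : ℝ) • ev (b i)) : Set (EK K)) ^ 2 := by positivity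
        linarith
      have h5 : nn K a ≤ finrank ℚ K := Submodule.finrank_le _
      calc ths z (fun i => (q : ℝ) • ev (b i)) (ev κ)
          ≤ 1 * th z (fun i => (q : ℝ) • ev (b i)) := h2.trans (mul_le_mul_of_nonneg_right h4 hth0)
        _ = rh a L := by rw [one_mul, hth]
        _ ≤ C ^ nn K a * Real.exp (GG K a) := h3
        _ ≤ C ^ finrank ℚ K * Real.exp (GG K a) := by
            gcongr
    have hterm : ∀ x : F, 1 ≤ Real.exp (Real.pi * finrank ℚ K) *
        Real.exp (-(Real.pi * Real.exp (-2 * z) *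
          ‖ev κ + zc (fun i => (q : ℝ) • ev (b i)) (f x)‖ ^ 2)) := by
      intro x
      rw [hev x, ← Real.exp_add]
      apply Real.one_le_exp
      have hx : (x : K) ∈ hfin.toFinset := hF x.2
      rw [Set.Finite.mem_toFinset] at hx
      have h2 := norm_ev_le_hs hK (x : K)
      have h3 : RD.hs (x : K) ^ 2 ≤ Real.exp z ^ 2 :=
        pow_le_pow_left₀ (RD.hs_nonneg _) hx.2 2
      have h4 : ‖ev (x : K)‖ ^ 2 ≤ finrank ℚ K * Real.exp z ^ 2 :=
        h2.trans (mul_le_mul_of_nonneg_left h3 (Nat.cast_nonneg _))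
      have h5 : Real.exp (-2 * z) * Real.exp z ^ 2 = 1 := by
        rw [← Real.exp_nat_mul, ← Real.exp_add]
        rw [show -2 * z + ((2 : ℕ) : ℝ) * z = 0 by push_cast; ring, Real.exp_zero]
      have h6 : Real.pi * Real.exp (-2 * z) * ‖ev (x : K)‖ ^ 2 ≤
          Real.pi * Real.exp (-2 * z) * (finrank ℚ K * Real.exp z ^ 2) :=
        mul_le_mul_of_nonneg_left h4 (by positivity)
      have h7 : Real.pi * Real.exp (-2 * z) * (finrank ℚ K * Real.exp z ^ 2) =
          Real.pi * finrank ℚ K * (Real.exp (-2 * z) * Real.exp z ^ 2) := by ring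
      rw [h7, h5, mul_one] at h6
      linarith
    have hcard : (F.card : ℝ) = ∑ _x : F, (1 : ℝ) := by simp
    rw [hcard]
    calc ∑ _x : F, (1 : ℝ) ≤ ∑ x : F, Real.exp (Real.pi * finrank ℚ K) *
          Real.exp (-(Real.pi * Real.exp (-2 * z) *
            ‖ev κ + zc (fun i => (q : ℝ) • ev (b i)) (f x)‖ ^ 2)) :=
          Finset.sum_le_sum fun x _ => hterm x
      _ = Real.exp (Real.pi * finrank ℚ K) * ∑ x : F, Real.exp (-(Real.pi * Real.exp (-2 * z) *
            ‖ev κ + zc (fun i => (q : ℝ) • ev (b i)) (f x)‖ ^ 2)) := by rw [Finset.mul_sum]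
      _ ≤ Real.exp (Real.pi * finrank ℚ K) * (C ^ finrank ℚ K * Real.exp (GG K a)) := by
          refine mul_le_mul_of_nonneg_left (le_trans ?_ h1) (Real.exp_pos _).le
          have h6 : ∑ x : F, Real.exp (-(Real.pi * Real.exp (-2 * z) *
              ‖ev κ + zc (fun i => (q : ℝ) • ev (b i)) (f x)‖ ^ 2)) =
              ∑ y ∈ Finset.univ.map ⟨f, hfi⟩, Real.exp (-(Real.pi * Real.exp (-2 * z) *
                ‖ev κ + zc (fun i => (q : ℝ) • ev (b i)) y‖ ^ 2)) := by
            rw [Finset.sum_map]; rfl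
          rw [h6]
          exact hsum.sum_le_tsum _ fun y _ => (Real.exp_pos _).le
  obtain ⟨H, hHS, hHc, hHn⟩ := reps (cg q L) hfin.toFinset M hclass
  refine ⟨H, fun h hh => ?_, fun h hh h' hh' hc => hHc h hh h' hh' hc, ?_⟩
  · have h1 := hHS hh
    rw [Set.Finite.mem_toFinset] at h1
    exact ⟨h1.1, by rw [← hez]; exact h1.2⟩
  · rw [Set.ncard_eq_toFinset_card _ hfin] at hcub
    have hG := Real.exp_pos (GG K a)
    have h1 : (q : ℝ) ^ nn K a * Real.exp (GG K a) ≤
        4 ^ finrank ℚ K * (M * H.card) := by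
      rw [← hpsi]
      exact hmass.trans (hcub.trans (mul_le_mul_of_nonneg_left hHn (by positivity)))
    have h2 : (4 : ℝ) ^ finrank ℚ K * (M * H.card) =
        ((4 * Real.exp Real.pi * C) ^ finrank ℚ K * H.card) * Real.exp (GG K a) := by
      rw [hM, mul_pow, mul_pow, ← Real.exp_nat_mul, mul_comm (Real.pi) (finrank ℚ K : ℝ)]
      ring
    rw [h2] at h1
    exact le_of_mul_le_mul_right h1 hG

end Pool.Agent.Lib.MPcb8a44.RC
end

section
/-!
# RUY: differences of sums of squares of bounded mean trace, by the triangle inequality of Ruzsa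
-/
set_option autoImplicit false

open NumberField Module
open scoped Pointwise

namespace Pool.Agent.Lib.MPcb8a44.RC

namespace RUYM

variable {K : Type} [Field K] [NumberField K]

theorem ST_mono {Y Y' : ℝ} (h : Y ≤ Y') : ST K Y ⊆ ST K Y' := fun _ hx => ⟨hx.1, hx.2.trans h⟩

theorem Tm_add (x y : K) : Tm (x + y) = Tm x + Tm y := by
  unfold Tm
  rw [← add_div, ← Finset.sum_add_distrib]
  congr 1
  refine Finset.sum_congr rfl fun φ _ => ?_
  rw [map_add, Complex.add_re]

theorem Tm_zero : Tm (0 : K) = 0 := by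
  unfold Tm
  simp

theorem zero_mem_ST {Y : ℝ} (h : 0 ≤ Y) : (0 : K) ∈ ST K Y :=
  ⟨zero_mem _, by rwa [Tm_zero]⟩

theorem step (hf : ∀ Y : ℝ, (ST K Y).Finite) {Y : ℝ} (hY : 0 ≤ Y) (j : ℕ) :
    (ST K Y - ST K Y).ncard * (ST K (2 ^ j * Y)).ncard ≤ (ST K (2 ^ (j + 1) * Y)).ncard ^ 2 := by
  classical
  have h1 := hf Y
  have h2 := hf (2 ^ j * Y)
  have h3 := hf (2 ^ (j + 1) * Y)
  have hsub : h1.toFinset + h2.toFinset ⊆ h3.toFinset := by
    intro z hz
    obtain ⟨a, ha, b, hb, rfl⟩ := Finset.mem_add.1 hz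
    rw [Set.Finite.mem_toFinset] at ha hb ⊢
    refine ⟨add_mem ha.1 hb.1, ?_⟩
    rw [Tm_add]
    have hp : (1 : ℝ) ≤ 2 ^ j := one_le_pow₀ (by norm_num)
    have := ha.2
    have := hb.2
    rw [pow_succ]
    nlinarith
  have h := Finset.ruzsa_triangle_inequality_sub_add_add h1.toFinset h2.toFinset h1.toFinset
  have e1 : (ST K Y - ST K Y).ncard = (h1.toFinset - h1.toFinset).card := by
    rw [← Set.ncard_coe_finset, Finset.coe_sub, Set.Finite.coe_toFinset]
  have e2 : (ST K (2 ^ j * Y)).ncard = h2.toFinset.card := Set.ncard_eq_toFinset_card _ h2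
  have e3 : (ST K (2 ^ (j + 1) * Y)).ncard = h3.toFinset.card := Set.ncard_eq_toFinset_card _ h3
  rw [e1, e2, e3, sq]
  exact h.trans (Nat.mul_le_mul (Finset.card_le_card hsub) (Finset.card_le_card hsub))

theorem iter (hf : ∀ Y : ℝ, (ST K Y).Finite) {Y : ℝ} (hY : 0 ≤ Y) (J : ℕ) :
    (ST K Y - ST K Y).ncard ^ J * (ST K Y).ncard ≤ (ST K (2 ^ J * Y)).ncard ^ (J + 1) := by
  induction J with
  | zero => simp
  | succ J ih =>
    have h1 := step (K := K) hf hY J
    have h2 : (ST K (2 ^ J * Y)).ncard ≤ (ST K (2 ^ (J + 1) * Y)).ncard := by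
      refine Set.ncard_le_ncard (ST_mono ?_) (hf _)
      gcongr
      · norm_num
      · omega
    calc (ST K Y - ST K Y).ncard ^ (J + 1) * (ST K Y).ncard
        = (ST K Y - ST K Y).ncard * ((ST K Y - ST K Y).ncard ^ J * (ST K Y).ncard) := by ring
      _ ≤ (ST K Y - ST K Y).ncard * (ST K (2 ^ J * Y)).ncard ^ (J + 1) :=
          Nat.mul_le_mul le_rfl ih
      _ = (ST K Y - ST K Y).ncard * (ST K (2 ^ J * Y)).ncard * (ST K (2 ^ J * Y)).ncard ^ J := by
          ring
      _ ≤ (ST K (2 ^ (J + 1) * Y)).ncard ^ 2 * (ST K (2 ^ (J + 1) * Y)).ncard ^ J :=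
          Nat.mul_le_mul h1 (Nat.pow_le_pow_left h2 _)
      _ = (ST K (2 ^ (J + 1) * Y)).ncard ^ (J + 1 + 1) := by ring

end RUYM

/-- RUY -/
theorem specRUY (hCN3 : SpecCN3) : SpecRUY := by
  intro K _ _ hK Y hY J _
  have hf : ∀ Y : ℝ, (ST K Y).Finite := (hCN3 K hK).1
  have h1 : 1 ≤ (ST K Y).ncard :=
    (Set.ncard_pos (hf Y)).2 ⟨0, RUYM.zero_mem_ST hY⟩
  calc (ST K Y - ST K Y).ncard ^ J = (ST K Y - ST K Y).ncard ^ J * 1 := (mul_one _).symm
    _ ≤ (ST K Y - ST K Y).ncard ^ J * (ST K Y).ncard := Nat.mul_le_mul le_rfl h1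
    _ ≤ _ := RUYM.iter hf hY J

end Pool.Agent.Lib.MPcb8a44.RC
end

section
/-!
# SPL: splitting a power of two between two factors
-/
set_option autoImplicit false

open NumberField Module

namespace Pool.Agent.Lib.MPcb8a44.RC

namespace SPLM

variable {K : Type} [Field K] [NumberField K]

theorem hs_two_pow_mul (p : ℕ) (x : K) {α : ℝ} (hx : RD.hs x ≤ Real.exp α) :
    RD.hs ((2 : K) ^ p * x) ≤ Real.exp (p * Real.log 2 + α) := by
  have h1 : RD.hs ((2 : K) ^ p * x) = 2 ^ p * RD.hs x := by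
    have := RD.hs_natCast_mul (K := K) (2 ^ p) x
    push_cast at this
    exact this
  rw [h1, Real.exp_add, ← Real.log_pow, Real.exp_log (by positivity)]
  exact mul_le_mul_of_nonneg_left hx (by positivity)

omit [NumberField K] in
theorem two_pow_int (p : ℕ) {x : K} (hx : IsIntegral ℤ x) : IsIntegral ℤ ((2 : K) ^ p * x) := by
  refine IsIntegral.mul ?_ hx
  have h2 : IsIntegral ℤ ((2 : K)) := by
    have := isIntegral_algebraMap (R := ℤ) (A := K) (x := 2)
    simpa using this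
  exact h2.pow p

end SPLM

/-- SPL -/
theorem specSPL : SpecSPL := by
  intro K _ _ u v α β X P hu hv hua hvb hα hβ hP
  have hl2 : 0 < Real.log 2 := Real.log_pos (by norm_num)
  have h0 : 0 ≤ (X - α) / Real.log 2 := div_nonneg (by linarith) hl2.le
  have hfl := Nat.floor_le h0
  have hfl2 := Nat.lt_floor_add_one ((X - α) / Real.log 2)
  have hfl' : (⌊(X - α) / Real.log 2⌋₊ : ℝ) * Real.log 2 ≤ X - α := by
    rwa [le_div_iff₀ hl2] at hfl
  have hfl2' : X - α < ((⌊(X - α) / Real.log 2⌋₊ : ℝ) + 1) * Real.log 2 := by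
    rwa [div_lt_iff₀ hl2] at hfl2
  rcases le_total P ⌊(X - α) / Real.log 2⌋₊ with h | h
  · refine ⟨(2 : K) ^ P * u, v, SPLM.two_pow_int P hu, hv, ?_, ?_, by ring⟩
    · refine (SPLM.hs_two_pow_mul P u hua).trans (Real.exp_le_exp.2 ?_)
      have h' : (P : ℝ) ≤ (⌊(X - α) / Real.log 2⌋₊ : ℝ) := by exact_mod_cast h
      have := mul_le_mul_of_nonneg_right h' hl2.le
      linarith
    · exact hvb.trans (Real.exp_le_exp.2 hβ)
  · refine ⟨(2 : K) ^ ⌊(X - α) / Real.log 2⌋₊ * u, (2 : K) ^ (P - ⌊(X - α) / Real.log 2⌋₊) * v,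
      SPLM.two_pow_int _ hu, SPLM.two_pow_int _ hv, ?_, ?_, ?_⟩
    · refine (SPLM.hs_two_pow_mul _ u hua).trans (Real.exp_le_exp.2 ?_)
      linarith
    · refine (SPLM.hs_two_pow_mul _ v hvb).trans (Real.exp_le_exp.2 ?_)
      rw [Nat.cast_sub h]
      nlinarith
    · have : (2 : K) ^ P = 2 ^ ⌊(X - α) / Real.log 2⌋₊ * 2 ^ (P - ⌊(X - α) / Real.log 2⌋₊) := by
        rw [← pow_add, Nat.add_sub_cancel' h]
      rw [this]
      ring

end Pool.Agent.Lib.MPcb8a44.RC
end

section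
set_option autoImplicit false

open NumberField Module
open scoped Pointwise

namespace Pool.Agent.Lib.MPcb8a44.RC

namespace TQMM

section Eu

variable {E : Type} [NormedAddCommGroup E] [InnerProductSpace ℝ E]

lemma Zs_le_Rs {n : ℕ} (b : Fin n → E) {x : E} (hx : x ∈ Zs b) : x ∈ Rs b := by
  have h : Zs b ≤ (Rs b).restrictScalars ℤ := Submodule.span_le.2 fun y hy => Submodule.subset_span hy
  exact h hx

lemma inner_zero {k : ℕ} (e' : Fin k → E) (v : E) (h : ∀ i, inner ℝ v (e' i) = 0) {w : E}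
    (hw : w ∈ Rs e') : inner ℝ v w = 0 := by
  refine Submodule.span_induction (p := fun w _ => inner ℝ v w = 0) ?_ ?_ ?_ ?_ hw
  · rintro _ ⟨i, rfl⟩; exact h i
  · simp
  · intro x y _ _ hx hy; rw [inner_add_right, hx, hy, add_zero]
  · intro a x _ hx; rw [inner_smul_right, hx, mul_zero]

lemma zc_sub {n : ℕ} (b c : Fin n → E) (x : Fin n → ℤ) : zc b x - zc c x = zc (fun i => b i - c i) x := by
  simp only [zc, smul_sub, Finset.sum_sub_distrib]

lemma zc_mem {n : ℕ} (b : Fin n → E) (x : Fin n → ℤ) (S : Submodule ℝ E) (h : ∀ i, b i ∈ S) :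
    zc b x ∈ S := Submodule.sum_mem _ fun i _ => S.smul_mem _ (h i)

lemma zc_map {E' : Type} [NormedAddCommGroup E'] [InnerProductSpace ℝ E'] {n : ℕ} (b : Fin n → E)
    (x : Fin n → ℤ) (W : E →ₗ[ℝ] E') : zc (fun i => W (b i)) x = W (zc b x) := by
  simp only [zc, map_sum, map_smul]

/-- Comparison of Gaussian sums. -/
lemma th_le (hGSM : SpecGSM) {E' : Type} [NormedAddCommGroup E'] [InnerProductSpace ℝ E'] {q : ℕ}
    (a : Fin q → E) (w : Fin q → E') (ha : LinearIndependent ℝ a) (hw : LinearIndependent ℝ w)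
    (σ s : ℝ) (h : ∀ x, ‖zc w x‖ ≤ Real.exp s * ‖zc a x‖) : th σ a ≤ th (σ + s) w := by
  have s1 : Summable fun x : Fin q → ℤ => Real.exp (-(Real.pi * Real.exp (-2 * σ) * ‖zc a x‖ ^ 2)) := by
    have := hGSM E q a (Real.pi * Real.exp (-2 * σ)) 0 ha (by positivity)
    simpa using this
  have s2 : Summable fun x : Fin q → ℤ =>
      Real.exp (-(Real.pi * Real.exp (-2 * (σ + s)) * ‖zc w x‖ ^ 2)) := by
    have := hGSM E' q w (Real.pi * Real.exp (-2 * (σ + s))) 0 hw (by positivity)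
    simpa using this
  refine Summable.tsum_le_tsum (fun x => ?_) s1 s2
  refine Real.exp_le_exp.2 (neg_le_neg ?_)
  rw [mul_assoc, mul_assoc]
  refine mul_le_mul_of_nonneg_left ?_ Real.pi_pos.le
  have h1 : ‖zc w x‖ ^ 2 ≤ Real.exp (2 * s) * ‖zc a x‖ ^ 2 := by
    have h2 := pow_le_pow_left₀ (norm_nonneg _) (h x) 2
    rw [mul_pow, ← Real.exp_nat_mul] at h2
    exact_mod_cast h2
  calc Real.exp (-2 * (σ + s)) * ‖zc w x‖ ^ 2 ≤
        Real.exp (-2 * (σ + s)) * (Real.exp (2 * s) * ‖zc a x‖ ^ 2) :=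
        mul_le_mul_of_nonneg_left h1 (Real.exp_pos _).le
    _ = Real.exp (-2 * σ) * ‖zc a x‖ ^ 2 := by
        rw [← mul_assoc, ← Real.exp_add]
        congr 2
        ring

end Eu

section Fi

variable {K : Type} [Field K] [NumberField K]

lemma ev_append {p q : ℕ} (g : Fin p → K) (h : Fin q → K) :
    (fun i => ev (Fin.append g h i)) = Fin.append (fun i => ev (g i)) (fun i => ev (h i)) := by
  ext1 i
  refine Fin.addCases (fun i => ?_) (fun i => ?_) i
  · rw [Fin.append_left, Fin.append_left]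
  · rw [Fin.append_right, Fin.append_right]

lemma in_smul_right (c : ℝ) (x y : EK K) : inner ℝ x (c • y) = c * inner ℝ x y := by
  simp only [PiLp.inner_apply, Finset.mul_sum]
  refine Finset.sum_congr rfl fun i _ => ?_
  simp
  ring

lemma in_smul_left (c : ℝ) (x y : EK K) : inner ℝ (c • x) y = c * inner ℝ x y := by
  rw [real_inner_comm, in_smul_right, real_inner_comm]

/-- The vectors orthogonal to `ev B`, `g` a basis of the orthogonal lattice. -/
lemma orth_mem (hK : RD.TR K) (hEVB : SpecEVB) (B : Submodule ℚ K) {p : ℕ} (g : Fin p → K)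
    (hg : LinearIndependent ℚ g) (hp : p + finrank ℚ B = finrank ℚ K)
    (hgB : ∀ i, ∀ b ∈ B, Algebra.trace ℚ K (g i * b) = 0) (η : EK K)
    (hη : ∀ b ∈ B, inner ℝ η (ev b) = 0) : η ∈ Rs fun i => ev (g i) := by
  obtain ⟨hE, -⟩ := hEVB K hK
  let β := Module.finBasis ℚ B
  have hβ : LinearIndependent ℚ fun i => (β i : K) :=
    β.linearIndependent.map' B.subtype (Submodule.ker_subtype B)
  have hβR := ((hE _ (fun i => (β i : K))).1).1 hβ
  have hgR := ((hE _ g).1).1 hg
  set S : Submodule ℝ (EK K) := Rs fun i => ev (β i : K) with hS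
  have h1 : finrank ℝ S = finrank ℚ B := by
    have := finrank_span_eq_card hβR
    rw [Fintype.card_fin] at this
    exact this
  have h2 : finrank ℝ (EK K) = finrank ℚ K := by
    rw [finrank_euclideanSpace]
    exact NumberField.Embeddings.card K ℂ
  have h3 := Submodule.finrank_add_finrank_orthogonal S
  have h4 : finrank ℝ (Rs fun i => ev (g i)) = p := by
    have := finrank_span_eq_card hgR
    rw [Fintype.card_fin] at this
    exact this
  have h5 : (Rs fun i => ev (g i)) ≤ Sᗮ := by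
    refine Submodule.span_le.2 ?_
    rintro _ ⟨i, rfl⟩
    rw [SetLike.mem_coe, Submodule.mem_orthogonal]
    intro w hw
    rw [real_inner_comm]
    refine inner_zero _ _ (fun j => ?_) hw
    rw [inner_ev hK, hgB i _ (β j).2]
    simp
  have h6 : (Rs fun i => ev (g i)) = Sᗮ :=
    Submodule.eq_of_le_of_finrank_eq h5 (by omega)
  rw [h6, Submodule.mem_orthogonal]
  intro w hw
  rw [real_inner_comm]
  exact inner_zero _ _ (fun j => hη _ (β j).2) hw

end Fi

end TQMM

open TQMM in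
theorem specTQM (hCOB : SpecCOB) (hRHB : SpecRHB) (hEVB : SpecEVB) (hPJE : SpecPJE)
    (hGSP : SpecGSP) (hGTH : SpecGTH) (hGSM : SpecGSM) (hLTB : SpecLTB) (hDEQ : SpecDEQ)
    (hHUL : SpecHUL) (hDUB : SpecDUB) (hQDS : SpecQDS) (hRMC : SpecRMC) : SpecTQM := by
  intro C hC hRM K _ _ hK A u x₀ σ s hu hui hus hnn
  set B : Submodule ℚ K := A ⊔ sc u (HV K x₀) with hB
  obtain ⟨p, q, g, h, hgh, hcodA, hcodB, hpB, hpA, -⟩ := hCOB K hK A B le_sup_left
  have hq : finrank ℚ B - finrank ℚ A = q := by omega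
  obtain ⟨hE, hET⟩ := hEVB K hK
  -- real independence
  have hghR : LinearIndependent ℝ (Fin.append (fun i => ev (g i)) (fun i => ev (h i))) := by
    rw [← ev_append]
    exact ((hE _ _).1).1 hgh
  have hg : LinearIndependent ℚ g := by
    have := hgh.comp (Fin.castAdd q) (Fin.castAdd_injective p q)
    convert this using 1
    ext i
    simp
  have hgA : ∀ i, g i ∈ cod B := fun i => by
    rw [← hcodB]
    exact Submodule.subset_span ⟨i, rfl⟩
  have hhA : ∀ i, h i ∈ cod A := fun i => by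
    rw [← hcodA]
    refine Submodule.subset_span ⟨Fin.natAdd p i, ?_⟩
    simp
  -- the basis of the hull
  set V : Submodule ℚ K := HV K x₀ with hV
  obtain ⟨-, hL2, hL3, -⟩ := hLTB K hK
  obtain ⟨n, v, hv⟩ := hL2 V
  have hvs : Submodule.span ℚ (Set.range v) = V := (hL3 V n v hv).2.1
  have hQD : QD x₀ fun i => ev (v i) := hDEQ K hK V n v x₀ hv (hHUL K hK x₀).2.2.1
  have hvR : LinearIndependent ℝ fun i => ev (v i) := ((hE n v).1).1 hv.ind
  obtain ⟨⟨v', hv'⟩, hDU⟩ := hDUB (EK K) n (fun i => ev (v i)) hvR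
  have hv'mem := (hDU v' hv').2.2.2
  have hSD : SD (-x₀) v' := hQDS (EK K) n _ v' x₀ hvR hv' hQD
  -- the transfer map
  obtain ⟨T, hT1, hT2, hT3⟩ := hET u
  set S : Submodule ℝ (EK K) := Rs fun i => ev (v i) with hSdef
  let W : EK K →ₗ[ℝ] EK K := (S.starProjection : EK K →L[ℝ] EK K).toLinearMap.comp T
  have hWS : ∀ ξ, W ξ ∈ S := fun ξ => S.starProjection_apply_mem (T ξ)
  have hWin : ∀ ξ j, inner ℝ (W ξ) (ev (v j)) = inner ℝ ξ (ev (u * v j)) := by
    intro ξ j
    have hj : ev (v j) ∈ S := Submodule.subset_span ⟨j, rfl⟩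
    have h1 : inner ℝ (W ξ) (ev (v j)) = inner ℝ (T ξ) (ev (v j)) := by
      have h2 : inner ℝ (T ξ - S.starProjection (T ξ)) (ev (v j)) = 0 :=
        Submodule.starProjection_inner_eq_zero (K := S) (T ξ) (ev (v j)) hj
      rw [inner_sub_left, sub_eq_zero] at h2
      exact h2.symm
    rw [h1, hT3, hT2]
  have hWn : ∀ ξ, ‖W ξ‖ ≤ Real.exp s * ‖ξ‖ := by
    intro ξ
    calc ‖W ξ‖ ≤ ‖T ξ‖ := S.norm_starProjection_apply_le (T ξ)
      _ ≤ RD.hs u * ‖ξ‖ := hT1 ξ
      _ ≤ _ := mul_le_mul_of_nonneg_right hus (norm_nonneg _)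
  have hWzero : ∀ ξ, (∀ j, inner ℝ (W ξ) (ev (v j)) = 0) → W ξ = 0 := by
    intro ξ hξ
    have : inner ℝ (W ξ) (W ξ) = 0 := inner_zero _ _ hξ (hWS ξ)
    exact inner_self_eq_zero.1 this
  have huv : ∀ j, u * v j ∈ B := fun j =>
    (le_sup_right : sc u V ≤ B) (mem_sc.2 ⟨v j, (hv.mem j).1, rfl⟩)
  have hWg : ∀ ξ ∈ Rs (fun i => ev (g i)), W ξ = 0 := by
    intro ξ hξ
    have : (Rs fun i => ev (g i)) ≤ LinearMap.ker W := by
      refine Submodule.span_le.2 ?_
      rintro _ ⟨i, rfl⟩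
      refine hWzero _ fun j => ?_
      rw [hWin, inner_ev hK, (hgA i).2 _ (huv j)]
      simp
    exact this hξ
  set w : Fin q → EK K := fun j => W (ev (h j)) with hw
  have hwmem : ∀ j, w j ∈ Zs v' := by
    intro j
    refine hv'mem _ (hWS _) fun i => ?_
    obtain ⟨m, hm⟩ := (hhA j).1 (u * v i) (hui.mul (hv.mem i).2)
    refine ⟨m, ?_⟩
    rw [real_inner_comm, hWin, inner_ev hK, hm]
    simp
  -- independence of the images
  have hwi : LinearIndependent ℝ w := by
    rw [Fintype.linearIndependent_iff]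
    intro t ht
    set η : EK K := ∑ j, t j • ev (h j) with hη
    have hWη : W η = 0 := by
      rw [hη, map_sum, ← ht]
      exact Finset.sum_congr rfl fun j _ => by rw [map_smul]
    have hηB : ∀ b ∈ B, inner ℝ η (ev b) = 0 := by
      let N : Submodule ℚ K :=
        { carrier := {b | inner ℝ η (ev b) = 0}
          add_mem' := fun {a b} ha hb => by
            simp only [Set.mem_ofPred_eq] at ha hb ⊢
            rw [ev_add, inner_add_right, ha, hb, add_zero]
          zero_mem' := by simp [ev_zero]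
          smul_mem' := fun c a ha => by
            simp only [Set.mem_ofPred_eq] at ha ⊢
            rw [ev_rat, in_smul_right, ha, mul_zero] }
      have hN : B ≤ N := by
        refine sup_le ?_ ?_
        · intro a ha
          change inner ℝ η (ev a) = 0
          rw [hη, sum_inner]
          refine Finset.sum_eq_zero fun j _ => ?_
          rw [in_smul_left, inner_ev hK, (hhA j).2 a ha]
          simp
        · change Submodule.map (LinearMap.mulLeft ℚ u) V ≤ N
          rw [← hvs, Submodule.map_span]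
          refine Submodule.span_le.2 ?_
          rintro _ ⟨_, ⟨j, rfl⟩, rfl⟩
          change inner ℝ η (ev (u * v j)) = 0
          rw [← hWin, hWη, inner_zero_left]
      exact fun b hb => hN hb
    have hηg := orth_mem hK hEVB B g hg hpB (fun i b hb => (hgA i).2 b hb) η hηB
    obtain ⟨r, hr⟩ := (Submodule.mem_span_range_iff_exists_fun ℝ).1 hηg
    have hli := (Fintype.linearIndependent_iff.1 hghR) (Fin.append (fun i => -r i) t) (by
      rw [Fin.sum_univ_add]
      simp only [Fin.append_left, Fin.append_right, neg_smul, Finset.sum_neg_distrib]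
      rw [hr, ← hη, neg_add_cancel])
    intro j
    have := hli (Fin.natAdd p j)
    rwa [Fin.append_right] at this
  -- orthogonal components
  obtain ⟨⟨h', hh'⟩, hPJ⟩ := hPJE (EK K) p q (fun i => ev (g i)) (fun i => ev (h i))
  have hh'i := (hPJ h' hh').2.1 hghR
  have hzc : ∀ l, ‖zc w l‖ ≤ Real.exp s * ‖zc h' l‖ := by
    intro l
    have h1 : zc w l = W (zc h' l) := by
      rw [hw, zc_map]
      have h2 : W (zc (fun i => ev (h i)) l - zc h' l) = 0 := by
        refine hWg _ ?_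
        rw [zc_sub]
        exact zc_mem _ _ _ fun i => (hh' i).1
      rw [map_sub, sub_eq_zero] at h2
      exact h2
    rw [h1]
    exact hWn _
  have e1 : rh σ (cod A) = th σ (Fin.append (fun i => ev (g i)) (fun i => ev (h i))) := by
    rw [← ev_append, ← hcodA]
    exact (hRHB K hK _ _ σ hgh).2
  have e2 : rh σ (cod B) = th σ (fun i => ev (g i)) := by
    rw [← hcodB]
    exact (hRHB K hK _ _ σ hg).2
  have e3 := hGSP (EK K) p q (fun i => ev (g i)) (fun i => ev (h i)) h' σ hghR hh'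
  have e4 : th σ h' ≤ th (σ + s) w := th_le hGSM h' w hh'i hwi σ s hzc
  have e5 : th (σ + s) w ≤ Real.exp ((σ + s + x₀) * q) * th (-x₀) w := by
    have := (hGTH (EK K) q w (-x₀) hwi).2.2.1 (σ + s + x₀) hnn
    have h2 : -x₀ + (σ + s + x₀) = σ + s := by ring
    rwa [h2] at this
  have e6 : th (-x₀) w ≤ C ^ q := hRMC C hRM (EK K) n q v' w (-x₀) hSD hwmem hwi
  have e7 : 0 ≤ th σ (fun i => ev (g i)) := tsum_nonneg fun _ => (Real.exp_pos _).le
  rw [hq, e1, e2]
  refine e3.trans (mul_le_mul_of_nonneg_left ?_ e7)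
  refine e4.trans (e5.trans ?_)
  rw [mul_pow, ← Real.exp_nat_mul, mul_comm (C ^ q)]
  have h8 : (q : ℝ) * (σ + s + x₀) = (σ + s + x₀) * q := mul_comm _ _
  rw [h8]
  exact mul_le_mul_of_nonneg_left e6 (Real.exp_pos _).le

end Pool.Agent.Lib.MPcb8a44.RC
end
end
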