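import Pool.Agent.Lib.MP_cb8a44_nt.RC.SpecH

/-!
# Theorem RC, module TWD: twisted density
-/

set_option autoImplicit false

open NumberField Module

namespace Pool.Agent.Lib.MPcb8a44.RC.TWDM

/-! ## Pure lemmas -/

theorem pow_pos_of_ne {x : ℝ} (h : x ≠ 0) : 0 < x ^ 2 := by positivity

/-- AM-GM without roots. -/
theorem amgm {n : ℕ} (x : Fin n → ℝ) (c : ℝ) (hc : 0 < c) (hx : ∀ k, 0 < x k)
    (h : c ^ n ≤ ∏ k, x k) : n * c ≤ ∑ k, x k := by
  have h1 : ∀ k, c + c * (Real.log (x k) - Real.log c) ≤ x k := by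
    intro k
    have h2 := Real.log_le_sub_one_of_pos (div_pos (hx k) hc)
    rw [Real.log_div (hx k).ne' hc.ne'] at h2
    have h3 := mul_le_mul_of_nonneg_left h2 hc.le
    have h4 : c * (x k / c - 1) = x k - c := by
      field_simp
    linarith
  have h2 : ∑ k, (c + c * (Real.log (x k) - Real.log c)) ≤ ∑ k, x k :=
    Finset.sum_le_sum fun k _ => h1 k
  have h3 : ∑ k, (c + c * (Real.log (x k) - Real.log c)) =
      n * c + c * (∑ k, Real.log (x k) - n * Real.log c) := by
    rw [Finset.sum_add_distrib, ← Finset.mul_sum, Finset.sum_sub_distrib]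
    simp
  have h4 : n * Real.log c ≤ ∑ k, Real.log (x k) := by
    rw [← Real.log_prod (fun k _ => (hx k).ne'), ← Real.log_pow]
    exact Real.log_le_log (pow_pos hc n) h
  have h5 : 0 ≤ c * (∑ k, Real.log (x k) - n * Real.log c) :=
    mul_nonneg hc.le (by linarith)
  linarith

theorem la {n : ℕ} (E : Matrix (Fin n) (Fin n) ℝ) (q : Fin n → ℝ) (N : Matrix (Fin n) (Fin n) ℤ)
    (hN : ∀ i j, (N i j : ℝ) = ∑ k, q k * E k i * E k j) (hE : E.det ≠ 0)
    (hinj : ∀ v : Fin n → ℤ, v ≠ 0 → ∀ k, ∑ j, E k j * (v j : ℝ) ≠ 0) (hq : ∃ k, q k ≠ 0) :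
    1 ≤ |E.det ^ 2 * ∏ k, q k| := by
  have hM : N.map (Int.castRingHom ℝ) = E.transpose * (Matrix.diagonal q * E) := by
    ext i j
    rw [Matrix.map_apply, Matrix.mul_apply]
    change (N i j : ℝ) = _
    rw [hN]
    refine Finset.sum_congr rfl fun k _ => ?_
    rw [Matrix.diagonal_mul, Matrix.transpose_apply]
    ring
  have hdet : ((N.det : ℤ) : ℝ) = E.det ^ 2 * ∏ k, q k := by
    have h1 : ((N.det : ℤ) : ℝ) = (N.map (Int.castRingHom ℝ)).det := by
      rw [← RingHom.mapMatrix_apply, ← RingHom.map_det]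
      rfl
    rw [h1, hM, Matrix.det_mul, Matrix.det_mul, Matrix.det_transpose, Matrix.det_diagonal]
    ring
  have hne : N.det ≠ 0 := by
    intro h0
    obtain ⟨v, hv, hv0⟩ := Matrix.exists_mulVec_eq_zero_iff.2 h0
    obtain ⟨k, hk⟩ := hq
    let v' : Fin n → ℝ := fun j => (v j : ℝ)
    have h1 : (N.map (Int.castRingHom ℝ)).mulVec v' = 0 := by
      ext i
      have h2 := congrFun hv0 i
      rw [Matrix.mulVec, dotProduct] at h2 ⊢
      have h3 : ((∑ j, N i j * v j : ℤ) : ℝ) = 0 := by rw [h2]; simp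
      rw [Int.cast_sum] at h3
      rw [Pi.zero_apply, ← h3]
      refine Finset.sum_congr rfl fun j _ => ?_
      rw [Int.cast_mul]
      rfl
    rw [hM, ← Matrix.mulVec_mulVec] at h1
    have h2 : (Matrix.diagonal q * E).mulVec v' = 0 := by
      by_contra hne
      have h3 : E.transpose.det = 0 := Matrix.exists_mulVec_eq_zero_iff.1 ⟨_, hne, h1⟩
      rw [Matrix.det_transpose] at h3
      exact hE h3
    have h3 := congrFun h2 k
    rw [← Matrix.mulVec_mulVec, Matrix.mulVec_diagonal, Pi.zero_apply, mul_eq_zero] at h3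
    rcases h3 with h3 | h3
    · exact hk h3
    · exact hinj v hv k h3
  rw [← hdet, ← Int.cast_abs]
  exact_mod_cast Int.one_le_abs hne

/-! ## Embeddings of a subfield -/

section

variable {F K : Type} [Field F] [NumberField F] [Field K] [NumberField K] [Algebra F K]

open Classical in
theorem fib (τ : F →+* ℂ) :
    (Finset.univ.filter fun φ : K →+* ℂ => φ.comp (algebraMap F K) = τ).card = finrank F K := by
  let _ := τ.toAlgebra
  have h1 : {φ : K →+* ℂ // φ.comp (algebraMap F K) = τ} ≃ (K →ₐ[F] ℂ) :=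
    { toFun := fun φ => { φ.1 with commutes' := fun r => congrArg (fun g : F →+* ℂ => g r) φ.2 }
      invFun := fun ψ => ⟨ψ.toRingHom, RingHom.ext fun r => ψ.commutes r⟩
      left_inv := fun φ => rfl
      right_inv := fun ψ => rfl }
  rw [← AlgHom.card F K ℂ, ← Fintype.card_congr h1, Fintype.card_subtype]

open Classical in
theorem prod_fib (g : (F →+* ℂ) → ℝ) :
    ∏ φ : K →+* ℂ, g (φ.comp (algebraMap F K)) = (∏ τ, g τ) ^ finrank F K := by
  rw [← Finset.prod_fiberwise (s := Finset.univ) (g := fun φ : K →+* ℂ => φ.comp (algebraMap F K)),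
    ← Finset.prod_pow]
  refine Finset.prod_congr rfl fun τ _ => ?_
  rw [← fib (K := K) τ]
  refine Finset.prod_eq_pow_card fun φ hφ => ?_
  rw [(Finset.mem_filter.1 hφ).2]

theorem exists_ext (τ : F →+* ℂ) : ∃ φ : K →+* ℂ, φ.comp (algebraMap F K) = τ := by
  classical
  have h1 : 0 < (Finset.univ.filter fun φ : K →+* ℂ => φ.comp (algebraMap F K) = τ).card := by
    have : Module.Finite F K := Module.Finite.of_restrictScalars_finite ℚ F K
    rw [fib]
    exact finrank_pos
  obtain ⟨φ, hφ⟩ := Finset.card_pos.1 h1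
  exact ⟨φ, (Finset.mem_filter.1 hφ).2⟩

omit [NumberField K] in
theorem re_mul (hK : RD.TR K) (φ : K →+* ℂ) (x y : K) :
    (φ (x * y)).re = (φ x).re * (φ y).re := by
  rw [map_mul, Complex.mul_re, hK φ x, hK φ y]
  simp

theorem im_sub (hK : RD.TR K) (τ : F →+* ℂ) (x : F) : (τ x).im = 0 := by
  obtain ⟨φ, hφ⟩ := exists_ext (K := K) τ
  rw [← hφ]
  exact hK φ _

/-- the sums `G_τ` -/
noncomputable def G (w : K) (τ : F →+* ℂ) : ℝ :=
  open Classical in ∑ φ : K →+* ℂ with φ.comp (algebraMap F K) = τ, (φ w).re ^ 2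

theorem G_pos (hK : RD.TR K) {w : K} (hw : w ≠ 0) (τ : F →+* ℂ) : 0 < G w τ := by
  classical
  obtain ⟨φ, hφ⟩ := exists_ext (K := K) τ
  have h1 : (φ w).re ≠ 0 := by
    intro h0
    apply hw
    apply φ.injective
    rw [map_zero]
    exact Complex.ext h0 (hK φ w)
  unfold G
  apply Finset.sum_pos'
  · intro i _
    exact sq_nonneg _
  · exact ⟨φ, Finset.mem_filter.2 ⟨Finset.mem_univ _, hφ⟩, by positivity⟩

theorem sum_fib (w : K) (g : (F →+* ℂ) → ℝ) :
    ∑ φ : K →+* ℂ, (φ w).re ^ 2 * g (φ.comp (algebraMap F K)) = ∑ τ, G w τ * g τ := by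
  classical
  rw [← Finset.sum_fiberwise (s := Finset.univ) (g := fun φ : K →+* ℂ => φ.comp (algebraMap F K))]
  refine Finset.sum_congr rfl fun τ _ => ?_
  unfold G
  rw [Finset.sum_mul]
  refine Finset.sum_congr rfl fun φ hφ => ?_
  rw [(Finset.mem_filter.1 hφ).2]

theorem discr_mat {n : ℕ} (e0 : Free.ChooseBasisIndex ℤ (𝓞 F) ≃ Fin n)
    (e : Fin n ≃ (F →+* ℂ)) (hre : ∀ (τ : F →+* ℂ) (x : F), (τ x).im = 0) :
    (Matrix.of fun k i : Fin n => ((e k) (integralBasis F (e0.symm i))).re).det ^ 2 =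
      ((discr F : ℤ) : ℝ) := by
  classical
  let e' : Fin n ≃ (F →ₐ[ℚ] ℂ) := e.trans (RingHom.equivRatAlgHom F ℂ)
  have h1 := Algebra.discr_eq_det_embeddingsMatrixReindex_pow_two ℚ ℂ
    (integralBasis F ∘ e0.symm) e'
  rw [Algebra.discr_reindex, ← coe_discr] at h1
  set M : Matrix (Fin n) (Fin n) ℝ :=
    Matrix.of fun k i : Fin n => ((e k) (integralBasis F (e0.symm i))).re with hM
  have h2 : Algebra.embeddingsMatrixReindex ℚ ℂ (integralBasis F ∘ e0.symm) e' =
      (M.map Complex.ofRealHom).transpose := by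
    ext i k
    have h3 : Algebra.embeddingsMatrixReindex ℚ ℂ (integralBasis F ∘ e0.symm) e' i k =
        (e k) (integralBasis F (e0.symm i)) := rfl
    rw [h3]
    change (e k) (integralBasis F (e0.symm i)) = ((e k (integralBasis F (e0.symm i))).re : ℂ)
    apply Complex.ext
    · simp
    · rw [hre, Complex.ofReal_im]
  rw [h2, Matrix.det_transpose, ← RingHom.mapMatrix_apply, ← RingHom.map_det] at h1
  have h3 : ((((discr F : ℤ) : ℝ)) : ℂ) = ((M.det ^ 2 : ℝ) : ℂ) := by
    rw [Complex.ofReal_pow]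
    rw [← Complex.ofRealHom_eq_coe M.det, ← h1]
    simp
  exact (Complex.ofReal_injective h3).symm

theorem key (hK : RD.TR K) {w : K} (hw : w ≠ 0) {n : ℕ} (hn : n = finrank ℚ F)
    (e0 : Free.ChooseBasisIndex ℤ (𝓞 F) ≃ Fin n) (c : Fin n → ℝ)
    (hz : ∀ i, ∃ z : ℤ, inner ℝ (ev (w * algebraMap F K (integralBasis F (e0.symm i))))
      (∑ i, c i • ev (w * algebraMap F K (integralBasis F (e0.symm i)))) = z)
    (h0 : ∑ i, c i • ev (w * algebraMap F K (integralBasis F (e0.symm i))) ≠ 0)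
    {H y : ℝ} (hH : 0 < H) (hG : ∏ τ : F →+* ℂ, G w τ ≤ H ^ n)
    (hy : Real.log H / 2 + LD F ≤ y) :
    n * Real.exp (-2 * y) ≤
      ‖∑ i, c i • ev (w * algebraMap F K (integralBasis F (e0.symm i)))‖ ^ 2 := by
  classical
  set f : Fin n → F := fun i => integralBasis F (e0.symm i) with hf
  set ω : EK K := ∑ i, c i • ev (w * algebraMap F K (f i)) with hω
  have him : ∀ (τ : F →+* ℂ) (x : F), (τ x).im = 0 := im_sub hK
  have hcard : Fintype.card (Fin n) = Fintype.card (F →+* ℂ) := by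
    rw [Fintype.card_fin, hn, RD.card_emb]
  let e : Fin n ≃ (F →+* ℂ) := Fintype.equivOfCardEq hcard
  let s : (F →+* ℂ) → ℝ := fun τ => ∑ i, c i * (τ (f i)).re
  have hωφ : ∀ φ : K →+* ℂ, ω φ = (φ w).re * s (φ.comp (algebraMap F K)) := by
    intro φ
    rw [hω]
    have h1 : (∑ i, c i • ev (w * algebraMap F K (f i))) φ =
        ∑ i, c i * (φ (w * algebraMap F K (f i))).re := by
      simp [ev]
    rw [h1]
    simp only [s, Finset.mul_sum]
    refine Finset.sum_congr rfl fun i _ => ?_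
    rw [re_mul hK]
    simp only [RingHom.comp_apply]
    ring
  let q : (F →+* ℂ) → ℝ := fun τ => G w τ * s τ
  have hin : ∀ x : F, inner ℝ (ev (w * algebraMap F K x)) ω = ∑ τ, q τ * (τ x).re := by
    intro x
    rw [PiLp.inner_apply]
    have h1 : ∀ φ : K →+* ℂ, inner ℝ (ev (w * algebraMap F K x) φ) (ω φ) =
        (φ w).re ^ 2 * (s (φ.comp (algebraMap F K)) * ((φ.comp (algebraMap F K)) x).re) := by
      intro φ
      rw [hωφ, ev_apply, re_mul hK]
      simp only [RingHom.comp_apply, RCLike.inner_apply, conj_trivial]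
      ring
    rw [Finset.sum_congr rfl fun φ _ => h1 φ, sum_fib w (fun τ => s τ * (τ x).re)]
    refine Finset.sum_congr rfl fun τ _ => ?_
    simp only [q]
    ring
  have hint : ∀ x : 𝓞 F, ∃ z : ℤ, ∑ τ, q τ * (τ (algebraMap (𝓞 F) F x)).re = z := by
    intro x
    choose z hz' using hz
    refine ⟨∑ l, (RingOfIntegers.basis F).repr x l * z (e0 l), ?_⟩
    have h1 : algebraMap (𝓞 F) F x = ∑ l, (RingOfIntegers.basis F).repr x l • f (e0 l) := by
      conv_lhs => rw [← (RingOfIntegers.basis F).sum_repr x]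
      rw [map_sum]
      refine Finset.sum_congr rfl fun l _ => ?_
      rw [map_zsmul, hf]
      simp only [Equiv.symm_apply_apply, integralBasis_apply]
    have h2 : ∀ τ : F →+* ℂ, (τ (algebraMap (𝓞 F) F x)).re =
        ∑ l, ((RingOfIntegers.basis F).repr x l : ℝ) * (τ (f (e0 l))).re := by
      intro τ
      rw [h1, map_sum, Complex.re_sum]
      refine Finset.sum_congr rfl fun l _ => ?_
      rw [map_zsmul]
      simp
    have h3 : ∑ τ, q τ * (τ (algebraMap (𝓞 F) F x)).re =
        ∑ l, ((RingOfIntegers.basis F).repr x l : ℝ) * ∑ τ, q τ * (τ (f (e0 l))).re := by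
      simp only [h2, Finset.mul_sum]
      rw [Finset.sum_comm]
      refine Finset.sum_congr rfl fun l _ => Finset.sum_congr rfl fun τ _ => ?_
      ring
    rw [h3]
    push_cast
    refine Finset.sum_congr rfl fun l _ => ?_
    rw [← hin, hz' (e0 l)]
  have hN : ∀ i j : Fin n, ∃ z : ℤ, (z : ℝ) =
      ∑ k, q (e k) * (e k (f i)).re * (e k (f j)).re := by
    intro i j
    obtain ⟨z, hz'⟩ := hint (RingOfIntegers.basis F (e0.symm i) * RingOfIntegers.basis F (e0.symm j))
    refine ⟨z, ?_⟩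
    rw [← hz', ← e.sum_comp]
    refine Finset.sum_congr rfl fun k _ => ?_
    have h1 : algebraMap (𝓞 F) F
        (RingOfIntegers.basis F (e0.symm i) * RingOfIntegers.basis F (e0.symm j)) = f i * f j := by
      rw [map_mul, hf]
      simp only [integralBasis_apply]
    rw [h1, map_mul, Complex.mul_re, him, him]
    ring
  choose N hN using hN
  let E : Matrix (Fin n) (Fin n) ℝ := Matrix.of fun k i => (e k (f i)).re
  have hE2 : E.det ^ 2 = ((discr F : ℤ) : ℝ) := discr_mat e0 e him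
  have hD0 : ((discr F : ℤ) : ℝ) ≠ 0 := by exact_mod_cast discr_ne_zero F
  have hE : E.det ≠ 0 := by
    intro h
    rw [h] at hE2
    exact hD0 (by rw [← hE2]; simp)
  have hfind : LinearIndependent ℚ f :=
    (integralBasis F).linearIndependent.comp e0.symm e0.symm.injective
  have hinj : ∀ v : Fin n → ℤ, v ≠ 0 → ∀ k, ∑ j, E k j * (v j : ℝ) ≠ 0 := by
    intro v hv k hk
    apply hv
    have h1 : ((e k) (∑ j, (v j : ℚ) • f j)).re = 0 := by
      rw [map_sum, Complex.re_sum, ← hk]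
      refine Finset.sum_congr rfl fun j _ => ?_
      rw [Algebra.smul_def, map_mul, Complex.mul_re, him, him]
      simp [E, mul_comm]
    have h2 : ∑ j, (v j : ℚ) • f j = 0 := by
      apply (e k).injective
      rw [map_zero]
      exact Complex.ext h1 (him _ _)
    have h3 := Fintype.linearIndependent_iff.1 hfind _ h2
    funext j
    exact_mod_cast h3 j
  have hGp : ∀ τ : F →+* ℂ, 0 < G w τ := G_pos hK hw
  have hq : ∃ k, q (e k) ≠ 0 := by
    by_contra hn'
    push Not at hn'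
    apply h0
    have h1 : ∀ τ : F →+* ℂ, s τ = 0 := by
      intro τ
      have h2 := hn' (e.symm τ)
      rw [Equiv.apply_symm_apply] at h2
      exact (mul_eq_zero.1 h2).resolve_left (hGp τ).ne'
    ext φ
    rw [hωφ, h1, mul_zero]
    rfl
  have hla := la E (fun k => q (e k)) N hN hE hinj hq
  rw [hE2] at hla
  set D : ℝ := ((discr F : ℤ) : ℝ) with hD
  set Q : ℝ := ∏ k, q (e k) with hQ
  have hQ0 : Q ≠ 0 := by
    intro h
    rw [h, mul_zero, abs_zero] at hla
    linarith
  have hqk : ∀ k, q (e k) ≠ 0 := by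
    intro k hk
    exact hQ0 (Finset.prod_eq_zero (Finset.mem_univ k) hk)
  have hnorm : ‖ω‖ ^ 2 = ∑ k, q (e k) ^ 2 / G w (e k) := by
    rw [EuclideanSpace.norm_sq_eq]
    have h1 : ∀ φ : K →+* ℂ, ‖ω φ‖ ^ 2 =
        (φ w).re ^ 2 * s (φ.comp (algebraMap F K)) ^ 2 := by
      intro φ
      rw [hωφ, Real.norm_eq_abs, sq_abs, mul_pow]
    rw [Finset.sum_congr rfl fun φ _ => h1 φ, sum_fib w (fun τ => s τ ^ 2), ← e.sum_comp]
    refine Finset.sum_congr rfl fun k _ => ?_
    simp only [q]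
    field_simp [(hGp (e k)).ne']
  rw [hnorm]
  apply amgm _ _ (Real.exp_pos _) (fun k => div_pos (pow_pos_of_ne (hqk k)) (hGp (e k)))
  have hn0 : (0 : ℝ) < n := by
    rw [hn]
    exact_mod_cast finrank_pos
  set P : ℝ := ∏ τ : F →+* ℂ, G w τ with hP
  have hP0 : 0 < P := Finset.prod_pos fun τ _ => hGp τ
  rw [Finset.prod_div_distrib, Finset.prod_pow, e.prod_comp (fun τ => G w τ), ← hP, ← hQ,
    le_div_iff₀ hP0, ← Real.exp_nat_mul]
  have hDa : 0 < |D| := abs_pos.2 hD0
  have hLD : LD F = Real.log |D| / n := by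
    unfold LD
    rw [hn]
  rw [hLD] at hy
  have h1 : n * Real.log H + 2 * Real.log |D| ≤ 2 * y * n := by
    have h2 := mul_le_mul_of_nonneg_left hy (by positivity : (0 : ℝ) ≤ 2 * n)
    have h3 : 2 * (n : ℝ) * (Real.log H / 2 + Real.log |D| / n) =
        n * Real.log H + 2 * Real.log |D| := by
      field_simp
    linarith
  have h2 : Real.exp (n * (-2 * y)) * H ^ n * |D| ^ 2 ≤ 1 := by
    have h3 : H ^ n = Real.exp (n * Real.log H) := by
      rw [Real.exp_nat_mul, Real.exp_log hH]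
    have h4 : |D| ^ 2 = Real.exp (2 * Real.log |D|) := by
      have := Real.exp_nat_mul (Real.log |D|) 2
      rw [Real.exp_log hDa] at this
      rw [← this]
      norm_num
    rw [h3, h4, ← Real.exp_add, ← Real.exp_add]
    apply Real.exp_le_one_iff.2
    linarith
  have h3 : 1 ≤ |D| ^ 2 * Q ^ 2 := by
    have h4 : |D| ^ 2 * Q ^ 2 = |D * Q| ^ 2 := by
      rw [sq_abs, sq_abs, mul_pow]
    rw [h4]
    exact one_le_pow₀ hla
  have h4 : Real.exp (n * (-2 * y)) * P ≤ Real.exp (n * (-2 * y)) * H ^ n :=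
    mul_le_mul_of_nonneg_left hG (Real.exp_pos _).le
  have h5 : 0 < |D| ^ 2 := by positivity
  have h6 : Real.exp (n * (-2 * y)) * H ^ n * |D| ^ 2 ≤ Q ^ 2 * |D| ^ 2 := by
    linarith [mul_comm (Q ^ 2) (|D| ^ 2)]
  exact h4.trans (le_of_mul_le_mul_right h6 h5)

end

end Pool.Agent.Lib.MPcb8a44.RC.TWDM

namespace Pool.Agent.Lib.MPcb8a44.RC

open TWDM

theorem specTWD (hEVB : SpecEVB) (hDUB : SpecDUB) (hDMN : SpecDMN) (hQDE : SpecQDE) : SpecTWD := by
  classical
  intro K _ _ hK F w H y hw0 hwint hH hG hy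
  set n : ℕ := finrank ℚ F with hn
  have hcard : Fintype.card (Free.ChooseBasisIndex ℤ (𝓞 F)) = Fintype.card (Fin n) := by
    rw [Fintype.card_fin, hn, finrank_eq_card_basis (integralBasis F)]
  let e0 : Free.ChooseBasisIndex ℤ (𝓞 F) ≃ Fin n := Fintype.equivOfCardEq hcard
  set f : Fin n → F := fun i => integralBasis F (e0.symm i) with hf
  set b : Fin n → K := fun i => w * algebraMap F K (f i) with hb
  set A : Submodule ℚ K := sc w (Subalgebra.toSubmodule F.toSubalgebra) with hA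
  have hfind : LinearIndependent ℚ f :=
    (integralBasis F).linearIndependent.comp e0.symm e0.symm.injective
  have hbind : LinearIndependent ℚ b := by
    rw [Fintype.linearIndependent_iff] at hfind ⊢
    intro g hg
    apply hfind
    have h1 : w * algebraMap F K (∑ i, g i • f i) = 0 := by
      rw [← hg, map_sum, Finset.mul_sum]
      refine Finset.sum_congr rfl fun i _ => ?_
      rw [hb]
      simp only [Algebra.smul_def, map_mul]
      rw [← IsScalarTower.algebraMap_apply ℚ F K]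
      ring
    have h2 := (mul_eq_zero.1 h1).resolve_left hw0
    exact (map_eq_zero_iff _ (algebraMap F K).injective).1 h2
  have hblat : ∀ i, b i ∈ lat A := by
    intro i
    refine ⟨mem_sc.2 ⟨algebraMap F K (f i), (f i).2, rfl⟩, hwint.mul ?_⟩
    have h1 : IsIntegral ℤ (f i) := by
      rw [hf]
      simp only [integralBasis_apply]
      exact RingOfIntegers.isIntegral_coe _
    exact h1.algebraMap
  have hnA : n = finrank ℚ A := by
    have hinj : Function.Injective (LinearMap.mulLeft ℚ w : K →ₗ[ℚ] K) := fun x y h =>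
      mul_left_cancel₀ hw0 h
    exact (Submodule.equivMapOfInjective (LinearMap.mulLeft ℚ w) hinj
      (Subalgebra.toSubmodule F.toSubalgebra)).finrank_eq
  refine hQDE K hK A n b y hblat hbind hnA ?_
  have hbR : LinearIndependent ℝ fun i => ev (b i) := ((hEVB K hK).1 n b).1.1 hbind
  obtain ⟨⟨b', hb'⟩, _⟩ := hDUB (EK K) n (fun i => ev (b i)) hbR
  refine hDMN (EK K) n (fun i => ev (b i)) b' y hbR hb' ?_
  intro ω hω hω0
  have hωR : ω ∈ Rs (fun i => ev (b i)) := by
    rw [← hb'.1]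
    exact Submodule.span_le_restrictScalars ℤ ℝ (Set.range b') hω
  obtain ⟨c, hc⟩ := (Submodule.mem_span_range_iff_exists_fun ℝ).1 hωR
  have hzi : ∀ i, ∃ z : ℤ, inner ℝ (ev (b i)) ω = z := by
    intro i
    obtain ⟨a, ha⟩ := (Submodule.mem_span_range_iff_exists_fun ℤ).1 hω
    refine ⟨a i, ?_⟩
    rw [← ha, inner_sum, Finset.sum_eq_single i]
    · rw [← Int.cast_smul_eq_zsmul ℝ, inner_smul_right, hb'.2, if_pos rfl, mul_one]
    · intro j _ hj
      rw [← Int.cast_smul_eq_zsmul ℝ, inner_smul_right, hb'.2, if_neg (Ne.symm hj), mul_zero]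
    · intro h
      exact absurd (Finset.mem_univ i) h
  rw [← hc] at hzi hω0 ⊢
  refine key hK hw0 hn e0 c hzi hω0 hH ?_ hy
  -- the product of the `G`
  have hm : 0 < finrank F K := by
    have : Module.Finite F K := Module.Finite.of_restrictScalars_finite ℚ F K
    exact finrank_pos
  have hGp : ∀ τ : F →+* ℂ, 0 < G w τ := G_pos hK hw0
  have h1 : ∏ φ : K →+* ℂ, G w (φ.comp (algebraMap F K)) ≤ H ^ finrank ℚ K := by
    refine le_trans (le_of_eq ?_) hG
    refine Finset.prod_congr rfl fun φ _ => ?_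
    unfold G
    rw [← finsum_mem_coe_finset]
    have h2 : ((Finset.univ.filter fun ψ : K →+* ℂ =>
        ψ.comp (algebraMap F K) = φ.comp (algebraMap F K) : Finset (K →+* ℂ)) : Set (K →+* ℂ)) =
        {ψ : K →+* ℂ | ∀ f ∈ F, ψ f = φ f} := by
      ext ψ
      rw [Finset.mem_coe, Finset.mem_filter, Set.mem_ofPred_eq]
      constructor
      · rintro ⟨_, h⟩ g hg
        exact congrArg (fun t : F →+* ℂ => t ⟨g, hg⟩) h
      · intro h
        exact ⟨Finset.mem_univ _, RingHom.ext fun g => h g.1 g.2⟩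
    rw [h2]
    refine finsum_mem_congr rfl fun ψ _ => ?_
    rw [Complex.sq_norm, Complex.normSq_apply, hK ψ w]
    ring
  rw [prod_fib, ← finrank_mul_finrank ℚ F K, pow_mul] at h1
  exact (pow_le_pow_iff_left₀ (Finset.prod_nonneg fun τ _ => (hGp τ).le) (by positivity)
    hm.ne').1 h1

end Pool.Agent.Lib.MPcb8a44.RC
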