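import Pool.Agent.Lib.MP_cb8a44_nt.RD.Spec
import Pool.Agent.Lib.MP_cb8a44_nt.RC.SpecE

section
section
/-!
# Module FSQ of Theorem RD (MP_cb8a44_nt): the forced square
-/
set_option autoImplicit false

open NumberField Module

namespace Pool.Agent.Lib.MPcb8a44.RD

namespace FSQM

variable {K : Type} [Field K] [NumberField K]

/-- the mean value -/
noncomputable def Tm (hK : TR K) (x : K) : ℝ := (∑ φ : K →+* ℂ, realEmb hK φ x) / finrank ℚ K

lemma Ms_eq_Tm (hK : TR K) (x : K) : Ms x = Tm hK (x ^ 2) := by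
  rw [Ms_eq hK]
  unfold Tm
  simp only [map_pow]

lemma Tm_add (hK : TR K) (x y : K) : Tm hK (x + y) = Tm hK x + Tm hK y := by
  unfold Tm
  simp only [map_add, Finset.sum_add_distrib, add_div]

lemma Av_sq (x : K) : Av (x ^ 2) = Ms x := by
  unfold Av Ms
  simp only [map_pow, norm_pow]

lemma Av_add_le (x y : K) : Av (x + y) ≤ Av x + Av y := by
  unfold Av
  rw [← add_div, ← Finset.sum_add_distrib]
  apply div_le_div_of_nonneg_right _ (Nat.cast_nonneg _)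
  apply Finset.sum_le_sum
  intro φ _
  rw [map_add]
  exact norm_add_le _ _

lemma Av_neg (x : K) : Av (-x) = Av x := by
  unfold Av
  simp only [map_neg, norm_neg]

lemma Av_sub_le (x y : K) : Av (x - y) ≤ Av x + Av y := by
  rw [sub_eq_add_neg]
  exact (Av_add_le _ _).trans (by rw [Av_neg])

lemma Ms_le_of_hs {x : K} {B : ℝ} (h : hs x ≤ B) : Ms x ≤ B ^ 2 :=
  (Ms_le_hs x).trans (pow_le_pow_left₀ (hs_nonneg x) h 2)

lemma key (hK : TR K) (F : IntermediateField ℚ K) (a b c g h : K) (B : ℝ)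
    (ha : a ∈ F ∧ IsIntegral ℤ a ∧ hs a ≤ B) (hb : b ∈ F ∧ IsIntegral ℤ b ∧ hs b ≤ B)
    (hc : c ∈ F ∧ IsIntegral ℤ c ∧ hs c ≤ B)
    (hn : ∀ y z : K, y ∈ F → z ∈ F → IsIntegral ℤ y → IsIntegral ℤ z →
      a ^ 2 + b ^ 2 + c ^ 2 ≠ y ^ 2 + z ^ 2)
    (hmin : ∀ x : K, IsIntegral ℤ x → x ∉ F → Ms g ≤ Ms x)
    (hg : 1 + 3 * B ^ 2 < Ms g) (hh : Ms h ≤ Ms g + 1)
    (y y' y'' : K) (hy : IsIntegral ℤ y) (hy' : IsIntegral ℤ y') (hy'' : IsIntegral ℤ y'')
    (he : h ^ 2 + (a ^ 2 + b ^ 2 + c ^ 2) = y ^ 2 + y' ^ 2 + y'' ^ 2) (hyF : y ∉ F) :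
    ∃ y κ : K, IsIntegral ℤ y ∧ y ∉ F ∧ κ ∈ F ∧ κ ≠ 0 ∧ y ^ 2 = h ^ 2 + κ ∧
      Ms y ≤ Ms g + 1 + 3 * B ^ 2 ∧ Av κ ≤ 6 * B ^ 2 + 1 := by
  have hsum : Ms h + (Ms a + Ms b + Ms c) = Ms y + Ms y' + Ms y'' := by
    simp only [Ms_eq_Tm hK, ← Tm_add]
    rw [he]
  have h1 := hmin y hy hyF
  have h2 := Ms_nonneg y'
  have h3 := Ms_nonneg y''
  have ea := Ms_le_of_hs ha.2.2
  have eb := Ms_le_of_hs hb.2.2
  have ec := Ms_le_of_hs hc.2.2
  have hF' : y' ∈ F := by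
    by_contra hF
    have := hmin y' hy' hF
    linarith
  have hF'' : y'' ∈ F := by
    by_contra hF
    have := hmin y'' hy'' hF
    linarith
  refine ⟨y, (a ^ 2 + b ^ 2 + c ^ 2) - (y' ^ 2 + y'' ^ 2), hy, hyF, ?_, ?_, ?_, ?_, ?_⟩
  · exact F.sub_mem (F.add_mem (F.add_mem (pow_mem ha.1 2) (pow_mem hb.1 2)) (pow_mem hc.1 2))
      (F.add_mem (pow_mem hF' 2) (pow_mem hF'' 2))
  · exact sub_ne_zero.2 (hn y' y'' hF' hF'' hy' hy'')
  · linear_combination -he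
  · linarith
  · have e1 := Av_sub_le (a ^ 2 + b ^ 2 + c ^ 2) (y' ^ 2 + y'' ^ 2)
    have e2 := Av_add_le (a ^ 2 + b ^ 2) (c ^ 2)
    have e3 := Av_add_le (a ^ 2) (b ^ 2)
    have e4 := Av_add_le (y' ^ 2) (y'' ^ 2)
    simp only [Av_sq] at e2 e3 e4
    linarith

end FSQM

open FSQM

theorem specFSQ : SpecFSQ := by
  intro K _ _ hK hP F a b c g h B ha hb hc hn _ _ hmin hg hh hhF hMh
  have hmem : h ^ 2 + (a ^ 2 + b ^ 2 + c ^ 2) ∈ SS K :=
    add_mem (SS_sq hh) (add_mem (add_mem (SS_sq ha.2.1) (SS_sq hb.2.1)) (SS_sq hc.2.1))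
  obtain ⟨y1, y2, y3, i1, i2, i3, he⟩ := hP _ hmem
  by_cases h1 : y1 ∈ F
  · by_cases h2 : y2 ∈ F
    · by_cases h3 : y3 ∈ F
      · exfalso
        apply hhF
        have : h ^ 2 = (y1 ^ 2 + y2 ^ 2 + y3 ^ 2) - (a ^ 2 + b ^ 2 + c ^ 2) := by
          linear_combination he
        rw [this]
        exact F.sub_mem (F.add_mem (F.add_mem (pow_mem h1 2) (pow_mem h2 2)) (pow_mem h3 2))
          (F.add_mem (F.add_mem (pow_mem ha.1 2) (pow_mem hb.1 2)) (pow_mem hc.1 2))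
      · exact key hK F a b c g h B ha hb hc hn hmin hg hMh y3 y1 y2 i3 i1 i2
          (by linear_combination he) h3
    · exact key hK F a b c g h B ha hb hc hn hmin hg hMh y2 y1 y3 i2 i1 i3
        (by linear_combination he) h2
  · exact key hK F a b c g h B ha hb hc hn hmin hg hMh y1 y2 y3 i1 i2 i3
      (by linear_combination he) h1

end Pool.Agent.Lib.MPcb8a44.RD
end

section
/-!
# Theorem RC, module FS2: the forced square, in mean values (helper76)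
-/
set_option autoImplicit false

open NumberField Module

namespace Pool.Agent.Lib.MPcb8a44.RC

namespace FS2M

open RD

variable {K : Type} [Field K] [NumberField K]

lemma key (hK : TR K) (F : IntermediateField ℚ K) (a b c g h : K) (B : ℝ)
    (ha : a ∈ F ∧ IsIntegral ℤ a) (hb : b ∈ F ∧ IsIntegral ℤ b)
    (hc : c ∈ F ∧ IsIntegral ℤ c) (hB : Ms a + Ms b + Ms c ≤ B)
    (hn : ∀ y z : K, y ∈ F → z ∈ F → IsIntegral ℤ y → IsIntegral ℤ z →
      a ^ 2 + b ^ 2 + c ^ 2 ≠ y ^ 2 + z ^ 2)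
    (hmin : ∀ x : K, IsIntegral ℤ x → x ∉ F → Ms g ≤ Ms x)
    (hg : 1 + B < Ms g) (hh : Ms h ≤ Ms g + 1)
    (y y' y'' : K) (hy : IsIntegral ℤ y) (hy' : IsIntegral ℤ y') (hy'' : IsIntegral ℤ y'')
    (he : h ^ 2 + (a ^ 2 + b ^ 2 + c ^ 2) = y ^ 2 + y' ^ 2 + y'' ^ 2) (hyF : y ∉ F) :
    ∃ y κ : K, IsIntegral ℤ y ∧ y ∉ F ∧ κ ∈ F ∧ κ ≠ 0 ∧ y ^ 2 = h ^ 2 + κ ∧
      Ms y ≤ Ms g + 1 + B ∧ Av κ ≤ 2 * B + 1 := by
  have hsum : Ms h + (Ms a + Ms b + Ms c) = Ms y + Ms y' + Ms y'' := by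
    simp only [FSQM.Ms_eq_Tm hK, ← FSQM.Tm_add]
    rw [he]
  have h1 := hmin y hy hyF
  have h2 := Ms_nonneg y'
  have h3 := Ms_nonneg y''
  have hF' : y' ∈ F := by
    by_contra hF
    have := hmin y' hy' hF
    linarith
  have hF'' : y'' ∈ F := by
    by_contra hF
    have := hmin y'' hy'' hF
    linarith
  refine ⟨y, (a ^ 2 + b ^ 2 + c ^ 2) - (y' ^ 2 + y'' ^ 2), hy, hyF, ?_, ?_, ?_, ?_, ?_⟩
  · exact F.sub_mem (F.add_mem (F.add_mem (pow_mem ha.1 2) (pow_mem hb.1 2)) (pow_mem hc.1 2))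
      (F.add_mem (pow_mem hF' 2) (pow_mem hF'' 2))
  · exact sub_ne_zero.2 (hn y' y'' hF' hF'' hy' hy'')
  · linear_combination -he
  · linarith
  · have e1 := FSQM.Av_sub_le (a ^ 2 + b ^ 2 + c ^ 2) (y' ^ 2 + y'' ^ 2)
    have e2 := FSQM.Av_add_le (a ^ 2 + b ^ 2) (c ^ 2)
    have e3 := FSQM.Av_add_le (a ^ 2) (b ^ 2)
    have e4 := FSQM.Av_add_le (y' ^ 2) (y'' ^ 2)
    simp only [FSQM.Av_sq] at e2 e3 e4
    linarith

end FS2M

open FS2M RD

theorem specFS2 : SpecFS2 := by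
  intro K _ _ hK hP F a b c g h B ha hb hc hB hn _ _ hmin hg hh hhF hMh
  have hmem : h ^ 2 + (a ^ 2 + b ^ 2 + c ^ 2) ∈ SS K :=
    add_mem (SS_sq hh) (add_mem (add_mem (SS_sq ha.2) (SS_sq hb.2)) (SS_sq hc.2))
  obtain ⟨y1, y2, y3, i1, i2, i3, he⟩ := hP _ hmem
  by_cases h1 : y1 ∈ F
  · by_cases h2 : y2 ∈ F
    · by_cases h3 : y3 ∈ F
      · exfalso
        apply hhF
        have : h ^ 2 = (y1 ^ 2 + y2 ^ 2 + y3 ^ 2) - (a ^ 2 + b ^ 2 + c ^ 2) := by
          linear_combination he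
        rw [this]
        exact F.sub_mem (F.add_mem (F.add_mem (pow_mem h1 2) (pow_mem h2 2)) (pow_mem h3 2))
          (F.add_mem (F.add_mem (pow_mem ha.1 2) (pow_mem hb.1 2)) (pow_mem hc.1 2))
      · exact key hK F a b c g h B ha hb hc hB hn hmin hg hMh y3 y1 y2 i3 i1 i2
          (by linear_combination he) h3
    · exact key hK F a b c g h B ha hb hc hB hn hmin hg hMh y2 y1 y3 i2 i1 i3
        (by linear_combination he) h2
  · exact key hK F a b c g h B ha hb hc hB hn hmin hg hMh y1 y2 y3 i1 i2 i3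
      (by linear_combination he) h1

end Pool.Agent.Lib.MPcb8a44.RC
end

section
/-!
# Theorem RC, module GMN : geometric mean of the `G_τ`
-/
set_option autoImplicit false

open NumberField Module

namespace Pool.Agent.Lib.MPcb8a44.RC

namespace GMNM

variable {K : Type} [Field K] [NumberField K]

/-- arithmetic-geometric mean inequality -/
theorem prod_le_mean (a : (K →+* ℂ) → ℝ) (ha : ∀ φ, 0 ≤ a φ) :
    ∏ φ : K →+* ℂ, a φ ≤ ((∑ φ : K →+* ℂ, a φ) / finrank ℚ K) ^ finrank ℚ K := by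
  have hd : (0 : ℝ) < finrank ℚ K := by exact_mod_cast RD.d_pos
  have h1 := Real.geom_mean_le_arith_mean_weighted Finset.univ
    (fun _ : K →+* ℂ => ((finrank ℚ K : ℝ))⁻¹) a (fun _ _ => by positivity)
    (by
      rw [Finset.sum_const, Finset.card_univ, RD.card_emb, nsmul_eq_mul, mul_inv_cancel₀ hd.ne'])
    (fun φ _ => ha φ)
  rw [← Finset.mul_sum, inv_mul_eq_div] at h1
  have h2 := pow_le_pow_left₀ (Finset.prod_nonneg fun φ _ => Real.rpow_nonneg (ha φ) _) h1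
    (finrank ℚ K)
  refine le_trans (le_of_eq ?_) h2
  rw [← Finset.prod_pow]
  refine Finset.prod_congr rfl fun φ _ => ?_
  rw [Real.rpow_inv_natCast_pow (ha φ) RD.d_pos.ne']

/-- The number of the embeddings with the same restriction to `F`. -/
theorem card_class (F : IntermediateField ℚ K) (φ : K →+* ℂ) :
    {ψ : K →+* ℂ | ∀ f ∈ F, ψ f = φ f}.ncard ≤ finrank F K := by
  let _ : Algebra F ℂ := (φ.comp (algebraMap F K)).toAlgebra
  have hmap : ∀ f : F, algebraMap F ℂ f = φ f := fun f => rfl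
  let g : {ψ : K →+* ℂ | ∀ f ∈ F, ψ f = φ f} → (K →ₐ[F] ℂ) := fun ψ =>
    { ψ.1 with commutes' := fun f => (ψ.2 f f.2).trans (hmap f).symm }
  have hg : Function.Injective g := by
    intro ψ ψ' h
    apply Subtype.ext
    ext x
    exact congrArg (fun u : K →ₐ[F] ℂ => u x) h
  rw [← Nat.card_coe_set_eq]
  calc Nat.card {ψ : K →+* ℂ | ∀ f ∈ F, ψ f = φ f} ≤ Nat.card (K →ₐ[F] ℂ) :=
        Nat.card_le_card_of_injective g hg
    _ = finrank F K := by
        rw [Nat.card_eq_fintype_card, AlgHom.card]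

/-- Nonnegativity. -/
theorem fs_nonneg (s : Set (K →+* ℂ)) (b : (K →+* ℂ) → ℝ) (hb : ∀ ψ, 0 ≤ b ψ) :
    0 ≤ ∑ᶠ ψ ∈ s, b ψ := by
  rw [finsum_mem_eq_finite_toFinset_sum _ (Set.toFinite _)]
  exact Finset.sum_nonneg fun ψ _ => hb ψ

/-- The sum over the embeddings of the sums over the classes. -/
theorem sum_class (F : IntermediateField ℚ K) (b : (K →+* ℂ) → ℝ) (hb : ∀ ψ, 0 ≤ b ψ) :
    ∑ φ : K →+* ℂ, (∑ᶠ ψ ∈ {ψ : K →+* ℂ | ∀ f ∈ F, ψ f = φ f}, b ψ) ≤
      finrank F K * ∑ ψ : K →+* ℂ, b ψ := by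
  classical
  have h1 : ∀ φ : K →+* ℂ, (∑ᶠ ψ ∈ {ψ : K →+* ℂ | ∀ f ∈ F, ψ f = φ f}, b ψ) =
      ∑ ψ : K →+* ℂ, if ∀ f ∈ F, ψ f = φ f then b ψ else 0 := by
    intro φ
    rw [finsum_mem_eq_finite_toFinset_sum _ (Set.toFinite _), ← Finset.sum_filter]
    refine Finset.sum_congr ?_ fun _ _ => rfl
    ext ψ
    simp
  rw [Finset.sum_congr rfl fun φ _ => h1 φ, Finset.sum_comm, Finset.mul_sum]
  refine Finset.sum_le_sum fun ψ _ => ?_
  have h2 : ∀ φ : K →+* ℂ, (if ∀ f ∈ F, ψ f = φ f then b ψ else 0) =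
      (if ∀ f ∈ F, φ f = ψ f then b ψ else 0) := by
    intro φ
    have : (∀ f ∈ F, ψ f = φ f) ↔ ∀ f ∈ F, φ f = ψ f :=
      ⟨fun h f hf => (h f hf).symm, fun h f hf => (h f hf).symm⟩
    simp only [this]
  rw [Finset.sum_congr rfl fun φ _ => h2 φ, ← Finset.sum_filter, Finset.sum_const, nsmul_eq_mul]
  refine mul_le_mul_of_nonneg_right ?_ (hb ψ)
  have h3 := card_class F ψ
  rw [Set.ncard_eq_toFinset_card'] at h3
  refine (Nat.cast_le.2 (le_trans (le_of_eq ?_) h3))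
  congr 1
  ext φ
  simp

end GMNM

open GMNM in
theorem specGMN : SpecGMN := by
  intro K _ _ F w
  have hd : (0 : ℝ) < finrank ℚ K := by exact_mod_cast RD.d_pos
  have hG : ∀ φ : K →+* ℂ, 0 ≤ ∑ᶠ ψ ∈ {ψ : K →+* ℂ | ∀ f ∈ F, ψ f = φ f}, ‖ψ w‖ ^ 2 := by
    intro φ
    exact fs_nonneg _ _ fun ψ => sq_nonneg _
  have h1 : ∏ φ : K →+* ℂ, (∑ᶠ ψ ∈ {ψ : K →+* ℂ | ∀ f ∈ F, ψ f = φ f}, ‖ψ w‖ ^ 2) ≤
      (finrank F K * RD.Ms w) ^ finrank ℚ K := by
    refine (prod_le_mean _ hG).trans ?_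
    refine pow_le_pow_left₀ (div_nonneg (Finset.sum_nonneg fun φ _ => hG φ) hd.le) ?_ _
    have h2 := sum_class F (fun ψ : K →+* ℂ => ‖ψ w‖ ^ 2) (fun _ => sq_nonneg _)
    unfold RD.Ms
    rw [mul_div_assoc']
    exact div_le_div_of_nonneg_right h2 hd.le
  refine ⟨h1, ?_⟩
  rw [mul_comm 2, pow_mul]
  refine le_trans ?_ (pow_le_pow_left₀ (Finset.prod_nonneg fun φ _ => hG φ) h1 2)
  rw [← Finset.prod_pow]
  refine Finset.prod_le_prod (fun φ _ => fs_nonneg _ _ fun ψ => sq_nonneg _) fun φ _ => ?_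
  rw [finsum_mem_eq_finite_toFinset_sum _ (Set.toFinite _),
    finsum_mem_eq_finite_toFinset_sum _ (Set.toFinite _)]
  have h3 : ∀ ψ : K →+* ℂ, ‖ψ (w ^ 2)‖ ^ 2 = (‖ψ w‖ ^ 2) ^ 2 := by
    intro ψ
    rw [map_pow, norm_pow]
  rw [Finset.sum_congr rfl fun ψ _ => h3 ψ]
  generalize (Set.toFinite {ψ : K →+* ℂ | ∀ f ∈ F, ψ f = φ f}).toFinset = s
  calc ∑ ψ ∈ s, (‖ψ w‖ ^ 2) ^ 2 ≤ ∑ ψ ∈ s, (‖ψ w‖ ^ 2) * ∑ ψ ∈ s, ‖ψ w‖ ^ 2 := by
        refine Finset.sum_le_sum fun ψ hψ => ?_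
        rw [sq (‖ψ w‖ ^ 2)]
        exact mul_le_mul_of_nonneg_left (Finset.single_le_sum (f := fun ψ : K →+* ℂ => ‖ψ w‖ ^ 2)
          (fun _ _ => sq_nonneg _) hψ) (sq_nonneg _)
    _ = (∑ ψ ∈ s, ‖ψ w‖ ^ 2) ^ 2 := by
        rw [← Finset.sum_mul, sq]

end Pool.Agent.Lib.MPcb8a44.RC
end

section
/-!
# HSX: the counting inequality at the top of the hull
-/
set_option autoImplicit false

open NumberField Module

namespace Pool.Agent.Lib.MPcb8a44.RC

/-- HSX -/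
theorem specHSX (hINF : SpecINF) : SpecHSX := by
  intro C hC hRM ε hε hε1
  obtain ⟨C', hC', h⟩ := hINF C hC hRM 1 ε le_rfl hε hε1
  refine ⟨C', hC', ?_⟩
  intro K _ _ hK hP x hx hV
  have hn : nn K x = finrank ℚ K := by
    unfold nn
    rw [hV]
    exact finrank_top ℚ K
  have h1 := h K hK hP x x x x hx le_rfl hx le_rfl le_rfl (by
    rw [hn]
    push_cast
    linarith)
  rw [hn] at h1
  linarith

end Pool.Agent.Lib.MPcb8a44.RC
end

section
/-!
# Theorem RC, module SBF (helper68)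

The subfield.
-/
set_option autoImplicit false

open NumberField Module

namespace Pool.Agent.Lib.MPcb8a44.RC

namespace SBFM

variable {K : Type} [Field K] [NumberField K]

/-- suprema of dense subspaces are dense -/
lemma dense_of_le {y : ℝ} (h0 : DE y (⊥ : Submodule ℚ K))
    (h1 : ∀ A B : Submodule ℚ K, DE y A → DE y B → DE y (A ⊔ B)) (G : Submodule ℚ K)
    (hG : ∀ D : Submodule ℚ K, D ≤ G → (∀ A : Submodule ℚ K, A ≤ G → DE y A → A ≤ D) → G ≤ D) :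
    DE y G := by
  obtain ⟨D, ⟨hD1, hD2⟩, hD3⟩ := (wellFounded_gt (α := Submodule ℚ K)).has_min
    {A : Submodule ℚ K | A ≤ G ∧ DE y A} ⟨⊥, bot_le, h0⟩
  have h2 : ∀ A : Submodule ℚ K, A ≤ G → DE y A → A ≤ D := by
    intro A hA hA2
    have h3 := hD3 (D ⊔ A) ⟨sup_le hD1 hA, h1 D A hD2 hA2⟩
    have h4 : D ⊔ A = D := by
      by_contra hne
      exact h3 (lt_of_le_of_ne le_sup_left (Ne.symm hne))
    rw [← h4]
    exact le_sup_right
  have h5 := hG D hD1 h2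
  rw [le_antisymm h5 hD1]
  exact hD2

/-- one step -/
lemma step (hLMX : SpecLMX) (hHMU : SpecHMU) (hHMO : SpecHMO) (hHUL : SpecHUL) (hK : RD.TR K)
    {z w : ℝ} (hz : 0 ≤ z) (hzw : z ≤ w) (h32 : 32 * finrank ℚ K ≤ 100 * nn K z)
    (hle : 2 * w + z ≤ 27 * z) {X : Submodule ℚ K}
    (hX : X = Submodule.span ℚ (Bh (HV K w) (Real.exp (w + z)))) (hXV : X ≤ HV K w)
    (hd : 2 * nn K (2 * w + z) < 3 * finrank ℚ X) :
    ∃ F : IntermediateField ℚ K, finrank F K ≤ 3 ∧ DE (27 * z) (fs F) := by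
  have ew : w + (w + z) = 2 * w + z := by ring
  have h1 := (hHMU K hK).2 (HV K w) (w + z) w
  rw [← hX, ew] at h1
  have hw : w ≤ 2 * w + z := by linarith
  obtain ⟨F, hF, hVF⟩ := hLMX K hK X (HV K w) (HV K (2 * w + z)) hXV
    ((hHMO K hK).2.1 w (2 * w + z) hw).1 h1 hd
  refine ⟨F, ?_, ?_⟩
  · have d1 : finrank ℚ F * finrank F K = finrank ℚ K := finrank_mul_finrank ℚ F K
    have d2 : nn K z ≤ nn K w := ((hHMO K hK).2.1 z w hzw).2
    have d3 : nn K w ≤ finrank ℚ (fs F) := Submodule.finrank_mono hVF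
    have d4 : finrank ℚ (fs F) = finrank ℚ F := rfl
    have d5 : 0 < finrank ℚ K := RD.d_pos
    by_contra hn
    have hn : 4 ≤ finrank F K := by omega
    have d6 : finrank ℚ F * 4 ≤ finrank ℚ K := by
      rw [← d1]
      exact Nat.mul_le_mul_left _ hn
    omega
  · refine (hHMO K hK).1 (2 * w + z) (27 * z) (fs F) hle ?_
    obtain ⟨u1, u2, -⟩ := hHUL K hK (2 * w + z)
    refine dense_of_le u1 u2 (fs F) ?_
    intro D hD hmax
    rw [hF, hX, Submodule.mul_le]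
    intro a ha v hv
    refine Submodule.span_induction (p := fun a _ => a * v ∈ D) ?_ ?_ ?_ ?_ ha
    · intro u hu
      by_cases hu0 : u = 0
      · rw [hu0, zero_mul]
        exact D.zero_mem
      have hu1 : u ∈ X := by
        rw [hX]
        exact Submodule.subset_span hu
      have s1 := (hHMU K hK).1 u (w + z) w (HV K w) hu0 hu.1.2 hu.2 (hHUL K hK w).2.2.1
      rw [ew] at s1
      have s2 : sc u (HV K w) ≤ fs F := by
        intro x hx
        obtain ⟨a, ha, rfl⟩ := mem_sc.1 hx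
        rw [hF]
        exact Submodule.mul_mem_mul hu1 ha
      exact hmax _ s2 s1 (mem_sc.2 ⟨v, hv, rfl⟩)
    · rw [zero_mul]
      exact D.zero_mem
    · intro a b _ _ ha hb
      rw [add_mul]
      exact D.add_mem ha hb
    · intro q a _ ha
      rw [smul_mul_assoc]
      exact D.smul_mem q ha

end SBFM

open SBFM in
theorem specSBF (hLMX : SpecLMX) (hXSP : SpecXSP) (hHMU : SpecHMU) (hHMO : SpecHMO)
    (hHUL : SpecHUL) : SpecSBF := by
  intro C hC hR K _ _ hK z hz h32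
  have hlog : 0 ≤ Real.log C := Real.log_nonneg hC
  have hz0 : 0 < z := by linarith
  have hd0 : (0 : ℝ) < finrank ℚ K := by exact_mod_cast RD.d_pos
  have hX : ∀ w : ℝ, Submodule.span ℚ (Bh (HV K w) (Real.exp (w + z))) ≤ HV K w ∧
      (nn K w : ℝ) - finrank ℚ (Submodule.span ℚ (Bh (HV K w) (Real.exp (w + z)))) ≤
        finrank ℚ K / 100 := by
    intro w
    obtain ⟨h1, h2⟩ := hXSP C hC hR K hK w z hz0.le
    refine ⟨h1, ?_⟩
    have h3 : (5 + Real.log C) * finrank ℚ K ≤ z * (finrank ℚ K / 100) := by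
      have h4 : (5 + Real.log C) * finrank ℚ K ≤ (z / 100) * finrank ℚ K :=
        mul_le_mul_of_nonneg_right (by linarith) hd0.le
      linarith
    exact le_of_mul_le_mul_left (h2.trans h3) hz0
  have hst : ∀ w : ℝ, z ≤ w → 2 * w + z ≤ 27 * z →
      2 * nn K (2 * w + z) < 3 * finrank ℚ (Submodule.span ℚ (Bh (HV K w) (Real.exp (w + z)))) →
      ∃ F : IntermediateField ℚ K, finrank F K ≤ 3 ∧ DE (27 * z) (fs F) := fun w h1 h2 h3 =>
    step hLMX hHMU hHMO hHUL hK hz0.le h1 h32 h2 rfl (hX w).1 h3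
  by_contra hn
  have key : ∀ w : ℝ, z ≤ w → 2 * w + z ≤ 27 * z →
      3 / 2 * ((nn K w : ℝ) - finrank ℚ K / 100) ≤ nn K (2 * w + z) := by
    intro w h1 h2
    have h3 : ¬ 2 * nn K (2 * w + z) <
        3 * finrank ℚ (Submodule.span ℚ (Bh (HV K w) (Real.exp (w + z)))) := fun h3 => hn (hst w h1 h2 h3)
    have h4 : 3 * finrank ℚ (Submodule.span ℚ (Bh (HV K w) (Real.exp (w + z)))) ≤
        2 * nn K (2 * w + z) := by omega
    have h5 : (3 : ℝ) * finrank ℚ (Submodule.span ℚ (Bh (HV K w) (Real.exp (w + z)))) ≤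
        2 * nn K (2 * w + z) := by exact_mod_cast h4
    have h6 := (hX w).2
    linarith
  have k0 : (32 : ℝ) * finrank ℚ K ≤ 100 * nn K z := by exact_mod_cast h32
  have k1 := key z le_rfl (by linarith)
  have k2 := key (2 * z + z) (by linarith) (by linarith)
  have k3 := key (2 * (2 * z + z) + z) (by linarith) (by linarith)
  have k4 : nn K (2 * (2 * (2 * z + z) + z) + z) ≤ finrank ℚ K := Submodule.finrank_le _
  have k5 : (nn K (2 * (2 * (2 * z + z) + z) + z) : ℝ) ≤ finrank ℚ K := by exact_mod_cast k4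
  linarith

end Pool.Agent.Lib.MPcb8a44.RC
end

section
/-!
# Theorem RC, module TOP : the top of the hull
-/
set_option autoImplicit false

open NumberField Module

namespace Pool.Agent.Lib.MPcb8a44.RC

namespace TOPM

variable (K : Type) [Field K] [NumberField K]

theorem LD_top : LD (⊤ : IntermediateField ℚ K) = LD K := by
  unfold LD
  have h1 : discr (⊤ : IntermediateField ℚ K) = discr K :=
    NumberField.discr_eq_discr_of_algEquiv _ (IntermediateField.topEquiv (F := ℚ) (E := K))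
  have h2 : finrank ℚ (⊤ : IntermediateField ℚ K) = finrank ℚ K :=
    (IntermediateField.topEquiv (F := ℚ) (E := K)).toLinearEquiv.finrank_eq
  rw [h1, h2]

theorem toSub_top :
    Subalgebra.toSubmodule (⊤ : IntermediateField ℚ K).toSubalgebra = (⊤ : Submodule ℚ K) := by
  rw [IntermediateField.top_toSubalgebra, Algebra.top_toSubmodule]

end TOPM

open TOPM in
theorem specTOP (hTWD : SpecTWD) (hDTF : SpecDTF) (hHUL : SpecHUL) : SpecTOP := by
  intro K _ _ hTR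
  refine ⟨fun y hy => ?_, fun y hy => ?_, ?_⟩
  · have h1 := hTWD K hTR ⊤ 1 1 y one_ne_zero isIntegral_one one_pos (by
      rw [one_pow]
      refine Finset.prod_le_one (fun φ _ => ?_) (fun φ _ => ?_)
      · rw [finsum_mem_eq_finite_toFinset_sum _ (Set.toFinite _)]
        exact Finset.sum_nonneg fun _ _ => sq_nonneg _
      · have h2 : {ψ : K →+* ℂ | ∀ f ∈ (⊤ : IntermediateField ℚ K), ψ f = φ f} = {φ} := by
          ext ψ
          constructor
          · intro h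
            exact RingHom.ext fun x => h x IntermediateField.mem_top
          · rintro rfl
            exact fun _ _ => rfl
        rw [h2, finsum_mem_singleton, map_one, norm_one, one_pow]) (by
      rw [Real.log_one, zero_div, zero_add, LD_top]
      exact hy)
    rw [toSub_top] at h1
    have h2 : sc (1 : K) (⊤ : Submodule ℚ K) = ⊤ := by
      rw [eq_top_iff]
      intro x _
      rw [mem_sc]
      exact ⟨x, trivial, one_mul x⟩
    rw [h2] at h1
    exact top_le_iff.1 ((hHUL K hTR y).2.2.2.1 ⊤ h1)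
  · have h1 := (hHUL K hTR y).2.2.1
    rw [hy] at h1
    have h2 := hDTF K hTR ⊤ y (by rw [toSub_top]; exact h1)
    rwa [LD_top] at h2
  · unfold LD
    refine div_nonneg (Real.log_nonneg ?_) (Nat.cast_nonneg _)
    have h1 : (1 : ℤ) ≤ |discr K| := Int.one_le_abs (NumberField.discr_ne_zero K)
    exact_mod_cast h1

end Pool.Agent.Lib.MPcb8a44.RC
end

section
/-!
# Theorem RC, module UPB : upper bound for the number of differences
-/
set_option autoImplicit false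

open NumberField Module
open scoped Pointwise

namespace Pool.Agent.Lib.MPcb8a44.RC

theorem specUPB (hCN3 : SpecCN3) (hRUY : SpecRUY) (hMAC : SpecMAC) (hHMO : SpecHMO) :
    SpecUPB := by
  intro C hC1 hC K _ _ hTR hP3 X N J hN hJ
  set n1 : ℕ := (ST K (4 * N * Real.exp (2 * X)) - ST K (4 * N * Real.exp (2 * X))).ncard with hn1
  set t : ℝ := (J * Real.log 2 + Real.log (4 * N)) / 2 with ht
  set d : ℝ := (finrank ℚ K : ℝ) with hd
  have hd0 : 0 ≤ d := Nat.cast_nonneg _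
  have hNR : (1 : ℝ) ≤ N := by exact_mod_cast hN
  have hlog2 : 0 ≤ Real.log 2 := Real.log_nonneg (by norm_num)
  have hlogN : 0 ≤ Real.log (4 * N) := Real.log_nonneg (by linarith)
  have hlogC : 0 ≤ Real.log C := Real.log_nonneg hC1
  have ht0 : 0 ≤ t := by positivity
  obtain ⟨-, -, h3, h4, -, -⟩ := hHMO K hTR
  have hGX : 0 ≤ GG K X := (h4 X).1
  have hR0 : 0 ≤ (J + 1) * (d * (4 + 3 * Real.log C +
      3 / 2 * (J * Real.log 2 + Real.log (4 * N))) + 3 * GG K X) := by positivity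
  rcases Nat.eq_zero_or_pos n1 with h0 | h0
  · rw [h0, Nat.cast_zero, Real.log_zero, mul_zero]
    exact hR0
  set Y : ℝ := 4 * N * Real.exp (2 * X) with hY
  have hYpos : 0 < Y := by positivity
  have h5 := hRUY K hTR Y hYpos.le J hJ
  rw [← hn1] at h5
  have hY' : 0 < 2 ^ J * Y := by positivity
  have h6 := (hCN3 K hTR).2 hP3 (2 ^ J * Y) hY'
  set n2 : ℕ := (ST K (2 ^ J * Y)).ncard with hn2
  have hn2pos : 0 < n2 := by
    rcases Nat.eq_zero_or_pos n2 with h | h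
    · rw [h, zero_pow (by omega)] at h5
      exact absurd (Nat.le_zero.1 h5) (pow_pos h0 J).ne'
    · exact h
  have h7 : Real.log (2 ^ J * Y) / 2 = X + t := by
    rw [Real.log_mul (by positivity) hYpos.ne', Real.log_pow, hY,
      Real.log_mul (by positivity) (Real.exp_pos _).ne', Real.log_exp, ht]
    ring
  have h8 := hMAC C hC1 hC K hTR (X + t)
  rw [h7] at h6
  have h9 : GG K (X + t) ≤ GG K X + d * t := by
    have h10 := h3 (X + t) X
    have h11 : (nn K (X + t) : ℝ) ≤ d := by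
      have : nn K (X + t) ≤ finrank ℚ K := Submodule.finrank_le _
      exact Nat.cast_le.2 this
    nlinarith
  -- logarithms
  have h10 : Real.log n2 ≤ Real.pi * d + 3 * (d * Real.log C + GG K (X + t)) := by
    have h11 : (n2 : ℝ) ≤ Real.exp (Real.pi * d) *
        (C ^ finrank ℚ K * Real.exp (GG K (X + t))) ^ 3 := by
      refine h6.trans (mul_le_mul_of_nonneg_left ?_ (Real.exp_pos _).le)
      refine pow_le_pow_left₀ ?_ h8 3
      exact tsum_nonneg fun _ => (Real.exp_pos _).le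
    have hC0 : 0 < C := by linarith
    have h12 := Real.log_le_log (by exact_mod_cast hn2pos) h11
    rw [Real.log_mul (Real.exp_pos _).ne' (by positivity), Real.log_exp, Real.log_pow,
      Real.log_mul (by positivity) (Real.exp_pos _).ne', Real.log_pow, Real.log_exp] at h12
    push_cast at h12
    exact h12
  have h11 : J * Real.log n1 ≤ (J + 1) * Real.log n2 := by
    have h12 : ((n1 : ℝ)) ^ J ≤ (n2 : ℝ) ^ (J + 1) := by exact_mod_cast h5
    have h13 := Real.log_le_log (by positivity) h12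
    rw [Real.log_pow, Real.log_pow] at h13
    push_cast at h13
    exact h13
  refine h11.trans (mul_le_mul_of_nonneg_left ?_ (by positivity))
  have hpi := Real.pi_le_four
  have h12 : Real.pi * d ≤ 4 * d := mul_le_mul_of_nonneg_right hpi hd0
  have h13 : 2 * t = J * Real.log 2 + Real.log (4 * N) := by
    rw [ht]
    ring
  rw [← h13]
  nlinarith

end Pool.Agent.Lib.MPcb8a44.RC
end
end

section
section
/-!
# BET: a small sum of three squares which is not a sum of two squares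
-/
set_option autoImplicit false

open NumberField Module

namespace Pool.Agent.Lib.MPcb8a44.RD

namespace BETM

variable {F : Type} [Field F] [NumberField F]

lemma exists_prime_of (I : Ideal (𝓞 F)) : Ideal.absNorm I % 4 = 3 →
    ∃ P : Ideal (𝓞 F), P.IsPrime ∧ P ≠ ⊥ ∧ Ideal.absNorm P % 4 = 3 ∧ I ≤ P := by
  induction I using UniqueFactorizationMonoid.induction_on_prime with
  | h₁ => intro h; simp at h
  | h₂ I hI =>
    intro h
    rw [Ideal.isUnit_iff.1 hI, Ideal.absNorm_top] at h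
    norm_num at h
  | h₃ I P hI hP ih =>
    intro h
    rw [map_mul, Nat.mul_mod] at h
    have hcases : Ideal.absNorm P % 4 = 3 ∨ Ideal.absNorm I % 4 = 3 := by
      have h3 : Ideal.absNorm P % 4 < 4 := Nat.mod_lt _ (by norm_num)
      have h4 : Ideal.absNorm I % 4 < 4 := Nat.mod_lt _ (by norm_num)
      interval_cases (Ideal.absNorm P % 4) <;> interval_cases (Ideal.absNorm I % 4) <;>
        simp_all
    rcases hcases with h3 | h3
    · exact ⟨P, Ideal.isPrime_of_prime hP, hP.ne_zero, h3, Ideal.mul_le_left⟩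
    · obtain ⟨Q, h5, h6, h7, h8⟩ := ih h3
      exact ⟨Q, h5, h6, h7, Ideal.mul_le_right.trans h8⟩

lemma exists_prime_mem {u : 𝓞 F} (hu : Algebra.norm ℤ (1 + 4 * u) < 0) :
    ∃ P : Ideal (𝓞 F), P.IsPrime ∧ P ≠ ⊥ ∧ Ideal.absNorm P % 4 = 3 ∧ 1 + 4 * u ∈ P := by
  have h1 := norm_one_add_four_mul u
  have h2 : Ideal.absNorm (Ideal.span {1 + 4 * u}) % 4 = 3 := by
    rw [Ideal.absNorm_span_singleton]
    have h3 : (Algebra.norm ℤ (1 + 4 * u)) % 4 = 1 := by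
      have h4 : ((Algebra.norm ℤ (1 + 4 * u) : ℤ) : ZMod 4) = ((1 : ℤ) : ZMod 4) := by rw [h1]; simp
      rw [ZMod.intCast_eq_intCast_iff'] at h4
      simpa using h4
    omega
  obtain ⟨P, h3, h4, h5, h6⟩ := exists_prime_of _ h2
  exact ⟨P, h3, h4, h5, h6 (Ideal.mem_span_singleton_self _)⟩

/-- the arithmetic part, without sizes -/
lemma core {P : Ideal (𝓞 F)} (hP : P.IsPrime) (hP0 : P ≠ ⊥) (hPn : Ideal.absNorm P % 4 = 3)
    {γ : 𝓞 F} (hγ : γ ∈ P ^ 2) (R : 𝓞 F → Prop) (hR : ∀ x, ∃ x', R x' ∧ γ ∣ x - x') :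
    ∃ a b : 𝓞 F, R a ∧ R b ∧ ((¬ ∃ y z : 𝓞 F, a ^ 2 + b ^ 2 + 1 ^ 2 = y ^ 2 + z ^ 2) ∨
      ∃ π : 𝓞 F, R π ∧ ¬ ∃ y z : 𝓞 F, (a + π) ^ 2 + b ^ 2 + 1 ^ 2 = y ^ 2 + z ^ 2) := by
  classical
  have hPmax : P.IsMaximal := hP.isMaximal hP0
  let _ : Field (𝓞 F ⧸ P) := Ideal.Quotient.field P
  have : Finite (𝓞 F ⧸ P) := Ideal.finiteQuotientOfFreeOfNeBot P hP0
  let _ : Fintype (𝓞 F ⧸ P) := Fintype.ofFinite _
  have hcard : Fintype.card (𝓞 F ⧸ P) % 4 = 3 := by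
    rw [← Nat.card_eq_fintype_card]
    exact hPn
  have hns : ¬ IsSquare (-1 : 𝓞 F ⧸ P) := by
    rw [FiniteField.isSquare_neg_one_iff, not_not]
    exact hcard
  -- two squares in `P`
  have htwo : ∀ y z : 𝓞 F, y ^ 2 + z ^ 2 ∈ P → z ∈ P := by
    intro y z h
    by_contra hz
    apply hns
    have hz' : (Ideal.Quotient.mk P z) ≠ 0 := by
      rwa [Ne, Ideal.Quotient.eq_zero_iff_mem]
    have h1 : (Ideal.Quotient.mk P y) ^ 2 + (Ideal.Quotient.mk P z) ^ 2 = 0 := by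
      rw [← map_pow, ← map_pow, ← map_add, Ideal.Quotient.eq_zero_iff_mem]
      exact h
    refine ⟨Ideal.Quotient.mk P y / Ideal.Quotient.mk P z, ?_⟩
    field_simp
    linear_combination -h1
  have htwo' : ∀ y z : 𝓞 F, y ^ 2 + z ^ 2 ∈ P → y ^ 2 + z ^ 2 ∈ P ^ 2 := by
    intro y z h
    have hz := htwo y z h
    have hy := htwo z y (by rwa [add_comm])
    exact add_mem (Ideal.pow_mem_pow hy 2) (Ideal.pow_mem_pow hz 2)
  -- an element of `P` which is a sum of three squares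
  obtain ⟨p, hp⟩ := CharP.exists (𝓞 F ⧸ P)
  have hpp : p.Prime := CharP.char_is_prime (𝓞 F ⧸ P) p
  have : NeZero p := ⟨hpp.ne_zero⟩
  obtain ⟨a0, b0, hab0⟩ := CharP.sq_add_sq (𝓞 F ⧸ P) p (-1)
  obtain ⟨a, haR, c1, hc1⟩ := hR (a0 : 𝓞 F)
  obtain ⟨b, hbR, c2, hc2⟩ := hR (b0 : 𝓞 F)
  have hγP : γ ∈ P := Ideal.pow_le_self two_ne_zero hγ
  have hγ0 : (Ideal.Quotient.mk P γ) = 0 := Ideal.Quotient.eq_zero_iff_mem.2 hγP
  have hab : (Ideal.Quotient.mk P a) ^ 2 + (Ideal.Quotient.mk P b) ^ 2 = -1 := by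
    have e1 : a = (a0 : 𝓞 F) - γ * c1 := by rw [← hc1]; ring
    have e2 : b = (b0 : 𝓞 F) - γ * c2 := by rw [← hc2]; ring
    rw [e1, e2]
    simp only [map_sub, map_mul, map_natCast, hγ0, zero_mul, sub_zero]
    rw [hab0]
    push_cast
    ring
  have hs0 : a ^ 2 + b ^ 2 + 1 ^ 2 ∈ P := by
    rw [← Ideal.Quotient.eq_zero_iff_mem]
    simp only [map_add, map_pow, map_one]
    rw [hab]
    ring
  refine ⟨a, b, haR, hbR, ?_⟩
  by_cases hs : a ^ 2 + b ^ 2 + 1 ^ 2 ∈ P ^ 2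
  · -- change `a`
    right
    have hlt : ∃ π ∈ P, π ∉ P ^ 2 := by
      have h1 : P ^ 2 < P ^ 1 :=
        Ideal.pow_right_strictAnti P hP0 hP.ne_top (show 1 < 2 by norm_num)
      rw [pow_one] at h1
      obtain ⟨π, h2, h3⟩ := Set.exists_of_ssubset h1
      exact ⟨π, h2, h3⟩
    obtain ⟨π0, hπ0, hπ02⟩ := hlt
    obtain ⟨π, hπR, c3, hc3⟩ := hR π0
    have hπ : π ∈ P := by
      have e : π = π0 - γ * c3 := by rw [← hc3]; ring
      rw [e]
      exact sub_mem hπ0 (P.mul_mem_right _ hγP)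
    have hπ2 : π ∉ P ^ 2 := by
      intro h
      apply hπ02
      have e : π0 = π + γ * c3 := by rw [← hc3]; ring
      rw [e]
      exact add_mem h ((P ^ 2).mul_mem_right _ hγ)
    refine ⟨π, hπR, ?_⟩
    rintro ⟨y, z, hyz⟩
    have hmem : (a + π : 𝓞 F) ^ 2 + b ^ 2 + 1 ^ 2 ∈ P := by
      have h1 : (a + π : 𝓞 F) ^ 2 + b ^ 2 + 1 ^ 2 =
          (a ^ 2 + b ^ 2 + 1 ^ 2) + (2 * a + π) * π := by ring
      rw [h1]
      exact add_mem hs0 (P.mul_mem_left _ hπ)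
    rw [hyz] at hmem
    have h2 := htwo' y z hmem
    rw [← hyz] at h2
    have h3 : (2 * a) * π ∈ P ^ 2 := by
      have h4 : (2 * a) * π = ((a + π : 𝓞 F) ^ 2 + b ^ 2 + 1 ^ 2) -
        (a ^ 2 + b ^ 2 + 1 ^ 2) - π ^ 2 := by ring
      rw [h4]
      exact sub_mem (sub_mem h2 hs) (Ideal.pow_mem_pow hπ 2)
    rcases Ideal.IsPrime.mul_mem_pow P h3 with h4 | h4
    · apply hns
      rcases hP.mem_or_mem h4 with h5 | h5
      · have h6 : (2 : 𝓞 F ⧸ P) = 0 := by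
          have := Ideal.Quotient.eq_zero_iff_mem.2 h5
          rwa [map_ofNat] at this
        exact ⟨1, by linear_combination -h6⟩
      · have h6 : Ideal.Quotient.mk P a = 0 := Ideal.Quotient.eq_zero_iff_mem.2 h5
        refine ⟨Ideal.Quotient.mk P b, ?_⟩
        rw [h6] at hab
        linear_combination -hab
    · exact hπ2 h4
  · left
    rintro ⟨y, z, hyz⟩
    apply hs
    rw [hyz] at hs0 ⊢
    exact htwo' y z hs0

end BETM

open BETM in
theorem specBET (hRED : SpecRED) (hGAM : SpecGAM) : SpecBET := by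
  intro F _ _ Φ hTR hΦ hsp
  obtain ⟨u, hu, hus⟩ := hGAM F Φ hTR hΦ hsp
  obtain ⟨P, hP, hP0, hPn, huP⟩ := exists_prime_mem hu
  set n : ℝ := (finrank ℚ F : ℝ) with hn
  have hn1 : 1 ≤ n := by
    rw [hn]
    exact_mod_cast (d_pos (K := F))
  have hγ0 : (1 + 4 * u) ^ 2 ≠ 0 := by
    intro h
    have h1 : (1 + 4 * u) = 0 := pow_eq_zero_iff two_ne_zero |>.1 h
    rw [h1] at hu
    simp at hu
  have hR : ∀ x : 𝓞 F, ∃ x' : 𝓞 F, hs (x' : F) ≤ 49 * n ^ 3 * Φ ^ 3 ∧ (1 + 4 * u) ^ 2 ∣ x - x' := by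
    intro x
    obtain ⟨x', h1, h2⟩ := hRED F Φ hΦ hsp ((1 + 4 * u) ^ 2) x hγ0
    refine ⟨x', h2.trans ?_, h1⟩
    have e : (((1 + 4 * u) ^ 2 : 𝓞 F) : F) = ((1 + 4 * u : 𝓞 F) : F) ^ 2 := by
      push_cast
      ring
    rw [e, hs_pow]
    calc n * Φ * hs ((1 + 4 * u : 𝓞 F) : F) ^ 2 ≤ n * Φ * (7 * n * Φ) ^ 2 := by
          gcongr
          exact hs_nonneg _
      _ = 49 * n ^ 3 * Φ ^ 3 := by ring
  obtain ⟨a, b, ha, hb, h⟩ := core hP hP0 hPn (Ideal.pow_mem_pow huP 2)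
    (fun x => hs (x : F) ≤ 49 * n ^ 3 * Φ ^ 3) hR
  have hpos : 1 ≤ n ^ 3 * Φ ^ 3 := one_le_mul_of_one_le_of_one_le (one_le_pow₀ hn1) (one_le_pow₀ hΦ)
  have h1 : hs ((1 : 𝓞 F) : F) ≤ 100 * n ^ 3 * Φ ^ 3 := by
    rw [show ((1 : 𝓞 F) : F) = 1 from rfl, hs_one]
    nlinarith
  rcases h with h | ⟨π, hπ, h⟩
  · exact ⟨a, b, 1, ⟨by nlinarith, by nlinarith, h1⟩, h⟩
  · refine ⟨a + π, b, 1, ⟨?_, by nlinarith, h1⟩, h⟩
    rw [show ((a + π : 𝓞 F) : F) = (a : F) + (π : F) from rfl]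
    refine (hs_add_le _ _).trans ?_
    nlinarith

end Pool.Agent.Lib.MPcb8a44.RD
end

section
/-!
# Theorem RC, block E, module WIT: a small sum of three squares which is not a sum of two squares
-/
set_option autoImplicit false

open NumberField Module

namespace Pool.Agent.Lib.MPcb8a44.RC

namespace WITM

variable {F : Type} [Field F] [NumberField F]

lemma prod_norm (y : 𝓞 F) :
    ∏ φ : F →+* ℂ, ‖φ (y : F)‖ = ((Algebra.norm ℤ y).natAbs : ℝ) := by
  have h1 := Algebra.norm_eq_prod_embeddings ℚ ℂ (y : F)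
  have h2 : ∏ σ : F →ₐ[ℚ] ℂ, σ (y : F) = ∏ φ : F →+* ℂ, φ (y : F) := by
    rw [← (RingHom.equivRatAlgHom (R := F) (S := ℂ)).prod_comp]
    rfl
  rw [← norm_prod, ← h2, ← h1, ← Algebra.coe_norm_int]
  simp only [eq_ratCast, Rat.cast_intCast, Complex.norm_intCast]
  rw [Nat.cast_natAbs, Int.cast_abs]

/-- the geometric mean is at most the arithmetic mean -/
lemma amgm (x : F) : (∏ φ : F →+* ℂ, ‖φ x‖) ^ ((2 : ℝ) / finrank ℚ F) ≤ RD.Ms x := by
  have hn : (0 : ℝ) < finrank ℚ F := by exact_mod_cast RD.d_pos (K := F)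
  have h := Real.geom_mean_le_arith_mean_weighted (Finset.univ : Finset (F →+* ℂ))
    (fun _ => (1 : ℝ) / finrank ℚ F) (fun φ => ‖φ x‖ ^ 2) (fun _ _ => by positivity)
    (by
      rw [Finset.sum_const, Finset.card_univ, RD.card_emb, nsmul_eq_mul,
        mul_one_div_cancel hn.ne'])
    (fun _ _ => by positivity)
  have h1 : ∑ φ : F →+* ℂ, (1 : ℝ) / finrank ℚ F * ‖φ x‖ ^ 2 = RD.Ms x := by
    rw [← Finset.mul_sum, RD.Ms]
    ring
  rw [h1, Real.finsetProd_rpow _ _ (fun _ _ => by positivity)] at h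
  have h2 : ∏ φ : F →+* ℂ, ‖φ x‖ ^ 2 = (∏ φ : F →+* ℂ, ‖φ x‖) ^ 2 := by
    rw [Finset.prod_pow]
  rw [h2, ← Real.rpow_natCast, ← Real.rpow_mul (Finset.prod_nonneg fun _ _ => norm_nonneg _)] at h
  have h3 : ((2 : ℕ) : ℝ) * (1 / finrank ℚ F) = 2 / finrank ℚ F := by push_cast; ring
  rwa [h3] at h

lemma LD_nonneg : 0 ≤ LD F := by
  unfold LD
  apply div_nonneg _ (Nat.cast_nonneg _)
  apply Real.log_nonneg
  have h : (1 : ℤ) ≤ |discr F| := Int.one_le_abs (discr_ne_zero F)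
  exact_mod_cast h

lemma Ms_add_le (x y : F) : RD.Ms (x + y) ≤ 2 * RD.Ms x + 2 * RD.Ms y := by
  have h := RD.Ms_parallelogram x y
  have h1 := RD.Ms_nonneg (x - y)
  linarith

lemma Ms_one_le : RD.Ms (1 : F) ≤ 1 := by
  have h := RD.Ms_le_hs (1 : F)
  rwa [RD.hs_one, one_pow] at h

end WITM

open WITM in
theorem specWIT (hCVR : SpecCVR) (hNEG : SpecNEG) : SpecWIT := by
  obtain ⟨B, hB0, hB⟩ := hNEG
  refine ⟨2 * B + 6, by positivity, ?_⟩
  intro F _ _ hF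
  obtain ⟨u, hu, hus⟩ := hB F hF
  obtain ⟨P, hP, hP0, hPn, huP⟩ := RD.BETM.exists_prime_mem hu
  have hn : (0 : ℝ) < finrank ℚ F := by exact_mod_cast RD.d_pos (K := F)
  have hL := LD_nonneg (F := F)
  set γ : 𝓞 F := 1 + 4 * u with hγdef
  have hγ0 : γ ^ 2 ≠ 0 := by
    intro h
    have h1 : γ = 0 := pow_eq_zero_iff two_ne_zero |>.1 h
    rw [h1] at hu
    simp at hu
  have hI : Ideal.span {γ ^ 2} ≠ ⊥ := by
    rw [Ne, Ideal.span_singleton_eq_bot]
    exact hγ0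
  obtain ⟨M, hMdef⟩ : ∃ M : ℝ, M = 6 * Real.exp ((2 * B + 2) * (1 + LD F)) := ⟨_, rfl⟩
  have hnorm : (Ideal.absNorm (Ideal.span {γ ^ 2}) : ℝ) ^ ((2 : ℝ) / finrank ℚ F) ≤
      Real.exp (2 * B * (1 + LD F)) := by
    rw [Ideal.absNorm_span_singleton, map_pow, Int.natAbs_pow, Nat.cast_pow, ← prod_norm,
      ← Real.rpow_natCast, ← Real.rpow_mul (Finset.prod_nonneg fun _ _ => norm_nonneg _),
      mul_comm ((2 : ℕ) : ℝ), Real.rpow_mul (Finset.prod_nonneg fun _ _ => norm_nonneg _),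
      Real.rpow_natCast]
    calc ((∏ φ : F →+* ℂ, ‖φ (γ : F)‖) ^ ((2 : ℝ) / finrank ℚ F)) ^ 2
        ≤ (Real.exp (B * (1 + LD F))) ^ 2 := by
          apply pow_le_pow_left₀ (Real.rpow_nonneg (Finset.prod_nonneg fun _ _ => norm_nonneg _) _)
          exact (amgm _).trans hus
      _ = Real.exp (2 * B * (1 + LD F)) := by
          rw [← Real.exp_nat_mul]
          congr 1
          push_cast
          ring
  have hR : ∀ x : 𝓞 F, ∃ x' : 𝓞 F, RD.Ms (x' : F) ≤ M ∧ γ ^ 2 ∣ x - x' := by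
    intro x
    obtain ⟨f, hf, hfm⟩ := hCVR F hF (Ideal.span {γ ^ 2}) (x : F) hI
    refine ⟨x - f, ?_, ?_⟩
    · rw [show ((x - f : 𝓞 F) : F) = (x : F) - (f : F) from rfl]
      refine hfm.trans ?_
      rw [hMdef]
      calc 6 * (Ideal.absNorm (Ideal.span {γ ^ 2}) : ℝ) ^ ((2 : ℝ) / finrank ℚ F) *
            Real.exp (2 * LD F)
          ≤ 6 * Real.exp (2 * B * (1 + LD F)) * Real.exp (2 * LD F) := by gcongr
        _ = 6 * Real.exp (2 * B * (1 + LD F) + 2 * LD F) := by rw [mul_assoc, ← Real.exp_add]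
        _ ≤ 6 * Real.exp ((2 * B + 2) * (1 + LD F)) := by
            gcongr
            linarith
    · rw [sub_sub_cancel]
      exact Ideal.mem_span_singleton.1 hf
  obtain ⟨a, b, ha, hb, h⟩ := RD.BETM.core hP hP0 hPn (Ideal.pow_mem_pow huP 2)
    (fun x => RD.Ms (x : F) ≤ M) hR
  have h1 : RD.Ms ((1 : 𝓞 F) : F) ≤ 1 := Ms_one_le
  have hM1 : 1 ≤ Real.exp ((2 * B + 2) * (1 + LD F)) := Real.one_le_exp (by positivity)
  have hfin : 5 * M + 1 ≤ Real.exp ((2 * B + 6) * (1 + LD F)) := by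
    have h4 : (2 * B + 6) * (1 + LD F) = (2 * B + 2) * (1 + LD F) + 4 * (1 + LD F) := by ring
    have h5 : 31 ≤ Real.exp (4 * (1 + LD F)) := by
      have h6 : Real.exp 4 ≤ Real.exp (4 * (1 + LD F)) := Real.exp_le_exp.2 (by linarith)
      have h7 : (2.7 : ℝ) ^ 4 ≤ Real.exp 4 := by
        have h8 := Real.exp_one_gt_d9
        have h9 : Real.exp 4 = Real.exp 1 ^ 4 := by
          rw [← Real.exp_nat_mul]; norm_num
        rw [h9]
        exact pow_le_pow_left₀ (by norm_num) (by linarith) 4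
      have h8 : (31 : ℝ) ≤ 2.7 ^ 4 := by norm_num
      linarith
    rw [h4, Real.exp_add, hMdef]
    nlinarith
  rcases h with h | ⟨π, hπ, h⟩
  · refine ⟨a, b, 1, ?_, h⟩
    have hM0 : 0 ≤ M := (RD.Ms_nonneg _).trans ha
    linarith
  · refine ⟨a + π, b, 1, ?_, h⟩
    rw [show ((a + π : 𝓞 F) : F) = (a : F) + (π : F) from rfl]
    have h2 := Ms_add_le (a : F) (π : F)
    linarith

end Pool.Agent.Lib.MPcb8a44.RC
end
end
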