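import Pool.Agent.Lib.MP_cb8a44_nt.RC.SpecH

section
/-!
# Theorem RC, module CUB: cubes and Gaussian sums
-/
set_option autoImplicit false

open NumberField Module

namespace Pool.Agent.Lib.MPcb8a44.RC

namespace CUBM

/-- `j` for `j ≥ 0`, `-(j + 1)` for `j < 0`: a lower bound of `|t|` for `⌊t⌋ = j`. -/
def kap (j : ℤ) : ℕ := if 0 ≤ j then j.toNat else (-(j + 1)).toNat

lemma kap_le (t : ℝ) : (kap ⌊t⌋ : ℝ) ≤ |t| := by
  unfold kap
  split_ifs with h
  · have h1 : ((⌊t⌋.toNat : ℕ) : ℤ) = ⌊t⌋ := Int.toNat_of_nonneg h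
    have h2 : ((⌊t⌋.toNat : ℕ) : ℝ) = (⌊t⌋ : ℝ) := by exact_mod_cast congrArg (Int.cast (R := ℝ)) h1
    rw [h2]
    exact (Int.floor_le t).trans (le_abs_self t)
  · rw [not_le] at h
    have h1 : (((-(⌊t⌋ + 1)).toNat : ℕ) : ℤ) = -(⌊t⌋ + 1) := Int.toNat_of_nonneg (by omega)
    have h2 : (((-(⌊t⌋ + 1)).toNat : ℕ) : ℝ) = -((⌊t⌋ : ℝ) + 1) := by
      have := congrArg (Int.cast (R := ℝ)) h1
      push_cast at this
      exact_mod_cast this
    rw [h2]
    have h3 := Int.lt_floor_add_one t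
    have h4 := neg_le_abs t
    linarith

lemma exp_neg_pi_le : Real.exp (-Real.pi) ≤ 1 / 2 := by
  have h1 : Real.exp (-Real.pi) ≤ Real.exp (-1) :=
    Real.exp_le_exp.2 (by linarith [Real.pi_gt_three])
  have h2 : Real.exp (-1) ≤ 1 / 2 := by
    rw [Real.exp_neg, inv_le_comm₀ (Real.exp_pos 1) (by norm_num)]
    have := Real.add_one_le_exp (1 : ℝ)
    norm_num at this ⊢
    exact this
  exact h1.trans h2

/-- One coordinate. -/
lemma term_le (t : ℝ) : Real.exp (-(Real.pi * t ^ 2)) ≤ (1 / 2 : ℝ) ^ kap ⌊t⌋ := by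
  have h1 := kap_le t
  have h2 : (kap ⌊t⌋ : ℝ) ≤ t ^ 2 := by
    have h3 : (kap ⌊t⌋ : ℝ) ≤ (kap ⌊t⌋ : ℝ) ^ 2 := by
      rcases Nat.eq_zero_or_pos (kap ⌊t⌋) with h | h
      · rw [h]
        norm_num
      · have : (1 : ℝ) ≤ kap ⌊t⌋ := by exact_mod_cast h
        nlinarith
    calc (kap ⌊t⌋ : ℝ) ≤ (kap ⌊t⌋ : ℝ) ^ 2 := h3
      _ ≤ |t| ^ 2 := pow_le_pow_left₀ (Nat.cast_nonneg _) h1 2
      _ = t ^ 2 := sq_abs t
  calc Real.exp (-(Real.pi * t ^ 2)) ≤ Real.exp (-Real.pi * kap ⌊t⌋) := by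
        apply Real.exp_le_exp.2
        have := mul_le_mul_of_nonneg_left h2 Real.pi_pos.le
        linarith
    _ = Real.exp (-Real.pi) ^ kap ⌊t⌋ := by
        rw [mul_comm, Real.exp_nat_mul]
    _ ≤ (1 / 2 : ℝ) ^ kap ⌊t⌋ := pow_le_pow_left₀ (Real.exp_pos _).le exp_neg_pi_le _

/-- A box of integers. -/
def box (M : ℕ) : Finset ℤ :=
  (Finset.range M).image (fun k : ℕ => (k : ℤ)) ∪ (Finset.range M).image fun k : ℕ => -(k : ℤ) - 1

lemma mem_box {M : ℕ} {j : ℤ} (h : j.natAbs < M) : j ∈ box M := by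
  unfold box
  rw [Finset.mem_union, Finset.mem_image, Finset.mem_image]
  rcases le_or_gt 0 j with h0 | h0
  · left
    exact ⟨j.toNat, Finset.mem_range.2 (by omega), by omega⟩
  · right
    exact ⟨(-(j + 1)).toNat, Finset.mem_range.2 (by omega), by omega⟩

lemma sum_box (M : ℕ) : ∑ j ∈ box M, (1 / 2 : ℝ) ^ kap j ≤ 4 := by
  classical
  have h0 : ∀ j : ℤ, (0 : ℝ) ≤ (1 / 2 : ℝ) ^ kap j := fun j => by positivity
  have h1 : ∑ j ∈ box M, (1 / 2 : ℝ) ^ kap j ≤
      ∑ j ∈ (Finset.range M).image (fun k : ℕ => (k : ℤ)), (1 / 2 : ℝ) ^ kap j +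
      ∑ j ∈ (Finset.range M).image (fun k : ℕ => -(k : ℤ) - 1), (1 / 2 : ℝ) ^ kap j := by
    rw [← Finset.sum_union_inter]
    exact le_add_of_nonneg_right (Finset.sum_nonneg fun j _ => h0 j)
  rw [Finset.sum_image (fun a _ b _ h => by simpa using h),
    Finset.sum_image (fun a _ b _ h => by simpa using h)] at h1
  have h2 : ∀ k : ℕ, kap (k : ℤ) = k := fun k => by
    unfold kap
    rw [if_pos (by omega)]
    omega
  have h3 : ∀ k : ℕ, kap (-(k : ℤ) - 1) = k := fun k => by
    unfold kap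
    rw [if_neg (by omega)]
    omega
  simp only [h2, h3] at h1
  have h4 := sum_geometric_two_le M
  linarith

variable {K : Type} [Field K] [NumberField K]

/-- The elements of `S` of house at most `X`. -/
def BS (S : Submodule ℤ K) (X : ℝ) : Set K := {x : K | x ∈ S ∧ RD.hs x ≤ X}

lemma BS_finite (S : Submodule ℤ K) (X : ℝ) (hS : S.FG) : (BS S X).Finite := by
  classical
  obtain ⟨s, hs⟩ := hS
  obtain ⟨k, hk, hks⟩ := exists_integral_multiples ℤ ℚ s
  have h1 : ∀ x ∈ S, IsIntegral ℤ (k • x) := by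
    intro x hx
    rw [← hs] at hx
    induction hx using Submodule.span_induction with
    | mem x hx => exact hks x hx
    | zero =>
      rw [smul_zero]
      exact isIntegral_zero
    | add x y _ _ hx hy =>
      rw [smul_add]
      exact hx.add hy
    | smul q x _ hx =>
      rw [smul_comm]
      rw [zsmul_eq_mul]
      exact (isIntegral_algebraMap (R := ℤ) (x := q)).mul hx
  have h2 : Set.InjOn (fun x : K => k • x) (BS S X) := by
    intro x _ y _ h
    exact smul_right_injective K hk h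
  refine Set.Finite.of_finite_image ?_ h2
  refine (RD.Bx_finite (K := K) (|(k : ℝ)| * X)).subset ?_
  rintro _ ⟨x, ⟨hx, hxX⟩, rfl⟩
  refine ⟨h1 x hx, ?_⟩
  show RD.hs (k • x) ≤ _
  rw [zsmul_eq_mul, RD.hs_intCast_mul]
  exact mul_le_mul_of_nonneg_left hxX (abs_nonneg _)

/-- The vector of the integral parts. -/
noncomputable def fl (z : ℝ) (x : K) : (K →+* ℂ) → ℤ := fun φ => ⌊Real.exp (-z) * (φ x).re⌋

lemma exp_term (z : ℝ) (x : K) :
    Real.exp (-(Real.pi * Real.exp (-2 * z) * ‖ev x‖ ^ 2)) =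
      ∏ φ : K →+* ℂ, Real.exp (-(Real.pi * (Real.exp (-z) * (φ x).re) ^ 2)) := by
  rw [← Real.exp_sum]
  congr 1
  rw [EuclideanSpace.norm_sq_eq, Finset.mul_sum, ← Finset.sum_neg_distrib]
  refine Finset.sum_congr rfl fun φ _ => ?_
  have h1 : Real.exp (-2 * z) = Real.exp (-z) ^ 2 := by
    rw [← Real.exp_nat_mul]
    congr 1
    push_cast
    ring
  rw [h1, ev_apply, Real.norm_eq_abs, sq_abs]
  ring

lemma term_le_prod (z : ℝ) (x : K) :
    Real.exp (-(Real.pi * Real.exp (-2 * z) * ‖ev x‖ ^ 2)) ≤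
      ∏ φ : K →+* ℂ, (1 / 2 : ℝ) ^ kap (fl z x φ) := by
  rw [exp_term]
  exact Finset.prod_le_prod (fun _ _ => (Real.exp_pos _).le) fun φ _ => term_le _

/-- Two elements with the same integral parts are close. -/
lemma hs_sub_of_fl (hK : RD.TR K) (z : ℝ) {x y : K} (h : fl z x = fl z y) :
    RD.hs (x - y) ≤ Real.exp z := by
  rw [RD.hs_le_iff (Real.exp_pos z).le]
  intro φ
  have h1 : ⌊Real.exp (-z) * (φ x).re⌋ = ⌊Real.exp (-z) * (φ y).re⌋ := congrFun h φ
  have h2 := Int.abs_sub_lt_one_of_floor_eq_floor h1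
  have h3 : φ (x - y) = (((φ x).re - (φ y).re : ℝ) : ℂ) := by
    apply Complex.ext
    · simp
    · rw [hK φ (x - y), Complex.ofReal_im]
  rw [h3, Complex.norm_real, Real.norm_eq_abs]
  rw [← mul_sub, abs_mul, abs_of_pos (Real.exp_pos _), Real.exp_neg] at h2
  have h4 : |(φ x).re - (φ y).re| < Real.exp z := by
    have h5 := (inv_mul_lt_iff₀ (Real.exp_pos z)).1 h2
    rwa [mul_one] at h5
  exact h4.le

/-- Bound of the finite partial sums. -/
lemma sum_le (hK : RD.TR K) (S : Submodule ℤ K) (z : ℝ) (hS : S.FG) (u : Finset S) :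
    ∑ x ∈ u, Real.exp (-(Real.pi * Real.exp (-2 * z) * ‖ev (x : K)‖ ^ 2)) ≤
      4 ^ finrank ℚ K * ((BS S (Real.exp z)).ncard : ℝ) := by
  classical
  obtain ⟨M, hM⟩ : ∃ M : ℕ, ∀ x ∈ u, ∀ φ, (fl z (x : K) φ).natAbs < M := by
    refine ⟨(∑ x ∈ u, ∑ φ, (fl z (x : K) φ).natAbs) + 1, fun x hx φ => ?_⟩
    have h1 : (fl z (x : K) φ).natAbs ≤ ∑ φ, (fl z (x : K) φ).natAbs :=
      Finset.single_le_sum (f := fun φ => (fl z (x : K) φ).natAbs) (fun _ _ => Nat.zero_le _)
        (Finset.mem_univ φ)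
    have h2 : ∑ φ, (fl z (x : K) φ).natAbs ≤ ∑ x ∈ u, ∑ φ, (fl z (x : K) φ).natAbs :=
      Finset.single_le_sum (f := fun x : S => ∑ φ, (fl z (x : K) φ).natAbs)
        (fun _ _ => Nat.zero_le _) hx
    omega
  set T : Finset ((K →+* ℂ) → ℤ) := Fintype.piFinset fun _ => box M with hT
  have hmap : ∀ x ∈ u, fl z (x : K) ∈ T := fun x hx => by
    rw [hT, Fintype.mem_piFinset]
    exact fun φ => mem_box (hM x hx φ)
  rw [← Finset.sum_fiberwise_of_maps_to hmap]
  have hfib : ∀ m ∈ T, ∑ x ∈ u.filter (fun x : S => fl z (x : K) = m),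
      Real.exp (-(Real.pi * Real.exp (-2 * z) * ‖ev (x : K)‖ ^ 2)) ≤
      ((BS S (Real.exp z)).ncard : ℝ) * ∏ φ : K →+* ℂ, (1 / 2 : ℝ) ^ kap (m φ) := by
    intro m _
    have h1 : ∑ x ∈ u.filter (fun x : S => fl z (x : K) = m),
        Real.exp (-(Real.pi * Real.exp (-2 * z) * ‖ev (x : K)‖ ^ 2)) ≤
        ∑ x ∈ u.filter (fun x : S => fl z (x : K) = m), ∏ φ : K →+* ℂ, (1 / 2 : ℝ) ^ kap (m φ) := by
      refine Finset.sum_le_sum fun x hx => ?_
      rw [Finset.mem_filter] at hx
      rw [← hx.2]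
      exact term_le_prod z (x : K)
    refine h1.trans ?_
    rw [Finset.sum_const, nsmul_eq_mul]
    refine mul_le_mul_of_nonneg_right ?_ (Finset.prod_nonneg fun _ _ => by positivity)
    rw [Nat.cast_le]
    rcases (u.filter (fun x : S => fl z (x : K) = m)).eq_empty_or_nonempty with h | ⟨x₀, hx₀⟩
    · rw [h, Finset.card_empty]
      exact Nat.zero_le _
    · rw [Finset.mem_filter] at hx₀
      rw [← Set.ncard_coe_finset]
      refine Set.ncard_le_ncard_of_injOn (fun x : S => (x : K) - x₀) ?_ ?_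
        (BS_finite S _ hS)
      · intro x hx
        rw [Finset.mem_coe, Finset.mem_filter] at hx
        exact ⟨S.sub_mem x.2 x₀.2, hs_sub_of_fl hK z (hx.2.trans hx₀.2.symm)⟩
      · intro x _ y _ h
        exact Subtype.ext (sub_left_injective h)
  refine (Finset.sum_le_sum hfib).trans ?_
  rw [← Finset.mul_sum, mul_comm]
  refine mul_le_mul_of_nonneg_right ?_ (Nat.cast_nonneg _)
  rw [hT, ← Finset.prod_univ_sum (fun _ => box M) (fun _ j => (1 / 2 : ℝ) ^ kap j)]
  calc ∏ _φ : K →+* ℂ, ∑ j ∈ box M, (1 / 2 : ℝ) ^ kap j ≤ ∏ _φ : K →+* ℂ, (4 : ℝ) :=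
        Finset.prod_le_prod (fun _ _ => Finset.sum_nonneg fun _ _ => by positivity)
          fun _ _ => sum_box M
    _ = 4 ^ finrank ℚ K := by
        rw [Finset.prod_const, Finset.card_univ, RD.card_emb]

end CUBM

theorem specCUB : SpecCUB := by
  intro K _ _ hK S z hS
  have hnn : 0 ≤ fun x : S => Real.exp (-(Real.pi * Real.exp (-2 * z) * ‖ev (x : K)‖ ^ 2)) :=
    fun _ => (Real.exp_pos _).le
  have hsum := summable_of_sum_le hnn (CUBM.sum_le hK S z hS)
  refine ⟨CUBM.BS_finite S _ hS, ?_, Real.tsum_le_of_sum_le hnn (CUBM.sum_le hK S z hS)⟩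
  classical
  have hfin : (CUBM.BS S (Real.exp z)).Finite := CUBM.BS_finite S _ hS
  -- the finite set of the elements of `S` in the cube
  have hfin' : {x : S | (x : K) ∈ CUBM.BS S (Real.exp z)}.Finite :=
    hfin.preimage Subtype.val_injective.injOn
  have hcard : (CUBM.BS S (Real.exp z)).ncard = hfin'.toFinset.card := by
    rw [← Set.ncard_eq_toFinset_card _ hfin']
    have h1 : CUBM.BS S (Real.exp z) =
        (fun x : S => (x : K)) '' {x : S | (x : K) ∈ CUBM.BS S (Real.exp z)} := by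
      ext y
      constructor
      · intro hy
        exact ⟨⟨y, hy.1⟩, hy, rfl⟩
      · rintro ⟨x, hx, rfl⟩
        exact hx
    conv_lhs => rw [h1]
    exact Set.ncard_image_of_injective _ Subtype.val_injective
  show ((CUBM.BS S (Real.exp z)).ncard : ℝ) ≤ _
  have h2 : ∑ x ∈ hfin'.toFinset, Real.exp (-(Real.pi * Real.exp (-2 * z) * ‖ev (x : K)‖ ^ 2)) ≤
      rh z S := hsum.sum_le_tsum _ fun x _ => (Real.exp_pos _).le
  have h3 : ∀ x ∈ hfin'.toFinset, Real.exp (-(Real.pi * finrank ℚ K)) ≤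
      Real.exp (-(Real.pi * Real.exp (-2 * z) * ‖ev (x : K)‖ ^ 2)) := by
    intro x hx
    rw [Set.Finite.mem_toFinset] at hx
    apply Real.exp_le_exp.2
    have h4 := norm_ev_le_hs hK (x : K)
    have h5 : RD.hs (x : K) ^ 2 ≤ Real.exp z ^ 2 :=
      pow_le_pow_left₀ (RD.hs_nonneg _) hx.2 2
    have h6 : Real.exp (-2 * z) * Real.exp z ^ 2 = 1 := by
      rw [← Real.exp_nat_mul, ← Real.exp_add]
      rw [show -2 * z + ((2 : ℕ) : ℝ) * z = 0 by push_cast; ring, Real.exp_zero]
    have h7 : Real.exp (-2 * z) * ‖ev (x : K)‖ ^ 2 ≤ finrank ℚ K := by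
      calc Real.exp (-2 * z) * ‖ev (x : K)‖ ^ 2
          ≤ Real.exp (-2 * z) * (finrank ℚ K * Real.exp z ^ 2) := by
            refine mul_le_mul_of_nonneg_left (h4.trans ?_) (Real.exp_pos _).le
            exact mul_le_mul_of_nonneg_left h5 (Nat.cast_nonneg _)
        _ = finrank ℚ K * (Real.exp (-2 * z) * Real.exp z ^ 2) := by ring
        _ = finrank ℚ K := by rw [h6, mul_one]
    have h8 := mul_le_mul_of_nonneg_left h7 Real.pi_pos.le
    rw [← mul_assoc] at h8
    linarith
  have h4 := Finset.card_nsmul_le_sum _ _ _ h3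
  rw [nsmul_eq_mul, ← hcard] at h4
  have h5 : ((CUBM.BS S (Real.exp z)).ncard : ℝ) * Real.exp (-(Real.pi * finrank ℚ K)) ≤
      rh z S := h4.trans h2
  calc ((CUBM.BS S (Real.exp z)).ncard : ℝ)
      = Real.exp (Real.pi * finrank ℚ K) *
        (((CUBM.BS S (Real.exp z)).ncard : ℝ) * Real.exp (-(Real.pi * finrank ℚ K))) := by
        rw [Real.exp_neg]
        field_simp
    _ ≤ Real.exp (Real.pi * finrank ℚ K) * rh z S :=
        mul_le_mul_of_nonneg_left h5 (Real.exp_pos _).le

end Pool.Agent.Lib.MPcb8a44.RC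
end

section
/-!
# DEQ: a dense subspace has a lattice with small quotients
-/
set_option autoImplicit false

open NumberField Module

namespace Pool.Agent.Lib.MPcb8a44.RC

namespace DEQM

variable {K : Type} [Field K] [NumberField K]

lemma one_le_Dt (hLTB : SpecLTB) (hK : RD.TR K) (A : Submodule ℚ K) : 1 ≤ Dt A := by
  obtain ⟨-, h2, h3, -⟩ := hLTB K hK
  obtain ⟨n, b, hb⟩ := h2 A
  exact (h3 A n b hb).2.2.2

lemma span_le_lat {A : Submodule ℚ K} {n : ℕ} {b : Fin n → K} (hb : ∀ i, b i ∈ lat A) :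
    Submodule.span ℤ (Set.range b) ≤ lat A := by
  rw [Submodule.span_le]
  rintro _ ⟨i, rfl⟩
  exact hb i

lemma exists_ev (hEVB : SpecEVB) (hK : RD.TR K) {n : ℕ} (b : Fin n → K) {c : EK K}
    (hc : c ∈ Zs (fun i => ev (b i))) :
    ∃ x : K, x ∈ Submodule.span ℤ (Set.range b) ∧ c = ev x := by
  obtain ⟨h1, -⟩ := hEVB K hK
  obtain ⟨-, -, h3, -⟩ := h1 n b
  obtain ⟨k, hk⟩ := (Submodule.mem_span_range_iff_exists_fun ℤ).1 hc
  have hc' : c = ev (∑ i, k i • b i) := by
    rw [← hk, ev_sum]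
    exact Finset.sum_congr rfl fun i _ => by rw [ev_int, Int.cast_smul_eq_zsmul]
  refine ⟨∑ i, k i • b i, ?_, hc'⟩
  exact (Submodule.mem_span_range_iff_exists_fun ℤ).2 ⟨k, rfl⟩

end DEQM

open DEQM in
theorem specDEQ (hEVB : SpecEVB) (hLTB : SpecLTB) : SpecDEQ := by
  intro K _ _ hK A n b y hb hD m c hc hci
  choose x hx hcx using fun i => exists_ev hEVB hK b (hc i)
  obtain ⟨hE, -⟩ := hEVB K hK
  obtain ⟨-, hL2, hL3, hL4⟩ := hLTB K hK
  have hcx' : c = fun i => ev (x i) := funext hcx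
  have hxi : LinearIndependent ℚ x := by
    rw [(hE m x).1, ← hcx']
    exact hci
  have hxA : ∀ i, x i ∈ lat A := fun i => span_le_lat hb.mem (hx i)
  set N : Submodule ℚ K := Submodule.span ℚ (Set.range x) with hN
  have hNA : N ≤ A := by
    rw [hN, Submodule.span_le]
    rintro _ ⟨i, rfl⟩
    exact (hxA i).1
  have hdN : finrank ℚ N = m := by
    rw [hN, finrank_span_eq_card hxi, Fintype.card_fin]
  have hxN : ∀ i, x i ∈ lat N := fun i => ⟨Submodule.subset_span ⟨i, rfl⟩, (hxA i).2⟩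
  have h1 : Dt N ≤ gk x := hL4 N m x hxN hxi hdN.symm
  obtain ⟨h2, -, h3, h4⟩ := hL3 A n b hb
  have h5 := one_le_Dt hLTB hK N
  have h6 : psi y A ≤ psi y N := hD N hNA
  unfold psi at h6
  rw [hdN, ← h2] at h6
  have h7 : Real.log (Dt A) ≤ 2 * y * ((n : ℝ) - m) + Real.log (Dt N) := by linarith
  have h8 : Dt A ≤ Real.exp (2 * y * ((n : ℝ) - m)) * Dt N := by
    have := Real.exp_le_exp.2 h7
    rwa [Real.exp_log (by linarith), Real.exp_add, Real.exp_log (by linarith)] at this
  have h9 : gd c = gk x := by rw [hcx']; rfl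
  calc gd (fun i => ev (b i)) = Dt A := h3.symm
    _ ≤ Real.exp (2 * y * ((n : ℝ) - m)) * Dt N := h8
    _ ≤ Real.exp (2 * y * ((n : ℝ) - m)) * gd c := by
      rw [h9]
      exact mul_le_mul_of_nonneg_left h1 (Real.exp_pos _).le

end Pool.Agent.Lib.MPcb8a44.RC
end

section
/-!
# DTF: a dense subfield has small root discriminant
-/
set_option autoImplicit false

open NumberField Module

namespace Pool.Agent.Lib.MPcb8a44.RC

namespace DTFM

variable {K : Type} [Field K] [NumberField K]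

lemma one_le_Dt (hLTB : SpecLTB) (hK : RD.TR K) (A : Submodule ℚ K) : 1 ≤ Dt A := by
  obtain ⟨-, h2, h3, -⟩ := hLTB K hK
  obtain ⟨n, b, hb⟩ := h2 A
  exact (h3 A n b hb).2.2.2

lemma Dt_bot (hLTB : SpecLTB) (hK : RD.TR K) : Dt (⊥ : Submodule ℚ K) = 1 := by
  obtain ⟨-, h2, h3, -⟩ := hLTB K hK
  obtain ⟨n, b, hb⟩ := h2 ⊥
  obtain ⟨h4, -, h5, -⟩ := h3 ⊥ n b hb
  rw [finrank_bot] at h4
  subst h4
  rw [h5]
  unfold gk gd
  exact Matrix.det_isEmpty

/-- an integral basis of a subfield, as a tuple in `K` -/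
lemma exists_IB (hK : RD.TR K) (F : IntermediateField ℚ K) :
    ∃ f : Fin (finrank ℚ F) → K, IB (Subalgebra.toSubmodule F.toSubalgebra) f ∧
      gk f = ((finrank F K : ℕ) : ℝ) ^ finrank ℚ F * ((discr F : ℤ) : ℝ) := by
  classical
  have hcard : Fintype.card (Free.ChooseBasisIndex ℤ (𝓞 F)) = finrank ℚ F := by
    rw [← RingOfIntegers.rank F, finrank_eq_card_chooseBasisIndex]
  let σ : Free.ChooseBasisIndex ℤ (𝓞 F) ≃ Fin (finrank ℚ F) := Fintype.equivFinOfCardEq hcard
  let β : Basis (Fin (finrank ℚ F)) ℚ F := (integralBasis F).reindex σ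
  have hβ : ∀ i, β i = ((RingOfIntegers.basis F (σ.symm i) : 𝓞 F) : F) := by
    intro i
    rw [Basis.reindex_apply, integralBasis_apply]
  have hint : ∀ i, IsIntegral ℤ (β i) := by
    intro i
    rw [hβ]
    exact RingOfIntegers.isIntegral_coe _
  refine ⟨fun i => ((β i : F) : K), ⟨?_, ?_, ?_⟩, ?_⟩
  · intro i
    refine ⟨(β i).2, ?_⟩
    exact (hint i).map (F.val.restrictScalars ℤ)
  · have h1 : LinearIndependent ℚ (F.val.toLinearMap ∘ β) :=
      β.linearIndependent.map' _ (LinearMap.ker_eq_bot.2 F.val.injective)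
    exact h1
  · intro x hx
    obtain ⟨hxF, hxi⟩ := hx
    have hxF' : x ∈ F := hxF
    have hxi' : IsIntegral ℤ (⟨x, hxF'⟩ : F) := by
      have : Function.Injective (F.val.restrictScalars ℤ) := F.val.injective
      exact (isIntegral_algHom_iff (F.val.restrictScalars ℤ) this).1 hxi
    let z : 𝓞 F := ⟨⟨x, hxF'⟩, hxi'⟩
    have hz : ((z : F) : K) = x := rfl
    rw [← hz, ← (RingOfIntegers.basis F).sum_repr z]
    have h2 : (((∑ i, (RingOfIntegers.basis F).repr z i • RingOfIntegers.basis F i : 𝓞 F) : F) : K) =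
        ∑ i, (RingOfIntegers.basis F).repr z i • (((RingOfIntegers.basis F i : 𝓞 F) : F) : K) := by
      have h3 : ∀ w : 𝓞 F, ((w : F) : K) =
          ((F.val.restrictScalars ℤ).toLinearMap ∘ₗ (Algebra.linearMap (𝓞 F) F).restrictScalars ℤ) w :=
        fun w => rfl
      rw [h3, map_sum]
      refine Finset.sum_congr rfl fun i _ => ?_
      rw [map_smul, ← h3]
    rw [h2]
    refine Submodule.sum_mem _ fun i _ => Submodule.smul_mem _ _ (Submodule.subset_span ⟨σ i, ?_⟩)
    change ((β (σ i) : F) : K) = _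
    rw [hβ, Equiv.symm_apply_apply]
  · have h1 : ((discr F : ℤ) : ℚ) = Algebra.discr ℚ β := by
      rw [coe_discr, ← Algebra.discr_reindex ℚ (integralBasis F) σ]
      congr 1
      funext i
      simp [β]
    have h2 : ∀ i j, inner ℝ (ev ((β i : F) : K)) (ev ((β j : F) : K)) =
        ((finrank F K : ℕ) : ℝ) * ((Algebra.trace ℚ F (β i * β j) : ℚ) : ℝ) := by
      intro i j
      rw [inner_ev hK]
      have h3 : ((β i : F) : K) * ((β j : F) : K) = algebraMap F K (β i * β j) := by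
        rw [map_mul]
        rfl
      rw [h3, ← Algebra.trace_trace (S := F), Algebra.trace_algebraMap, map_nsmul]
      push_cast
      simp [nsmul_eq_mul]
    unfold gk gd
    have h4 : Matrix.gram ℝ (fun i => ev ((β i : F) : K)) =
        ((finrank F K : ℕ) : ℝ) • (Algebra.traceMatrix ℚ β).map (algebraMap ℚ ℝ) := by
      ext i j
      rw [Matrix.gram_apply, h2, Matrix.smul_apply, Matrix.map_apply, Algebra.traceMatrix_apply,
        Algebra.traceForm_apply, smul_eq_mul]
      rfl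
    rw [h4, Matrix.det_smul, Fintype.card_fin]
    congr 1
    have h5 : ((Algebra.traceMatrix ℚ β).map (algebraMap ℚ ℝ)).det =
        algebraMap ℚ ℝ (Algebra.traceMatrix ℚ β).det := by
      rw [RingHom.map_det]
      rfl
    rw [h5, ← Algebra.discr_def, ← h1]
    simp

end DTFM

open DTFM in
theorem specDTF (hLTB : SpecLTB) : SpecDTF := by
  intro K _ _ hK F y hD
  obtain ⟨f, hf, hg⟩ := exists_IB hK F
  obtain ⟨-, -, hL3, -⟩ := hLTB K hK
  obtain ⟨hn, -, hDt, -⟩ := hL3 _ _ f hf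
  have hone := one_le_Dt hLTB hK (Subalgebra.toSubmodule F.toSubalgebra)
  have h1 := hD ⊥ bot_le
  unfold psi at h1
  rw [Dt_bot hLTB hK, Real.log_one, finrank_bot, ← hn] at h1
  have hn0 : (0 : ℝ) < (finrank ℚ F : ℝ) := by exact_mod_cast (finrank_pos : 0 < finrank ℚ F)
  have hk : 1 ≤ ((finrank F K : ℕ) : ℝ) := by exact_mod_cast (finrank_pos : 0 < finrank F K)
  have h2 : |((discr F : ℤ) : ℝ)| ≤ Dt (Subalgebra.toSubmodule F.toSubalgebra) := by
    rw [hDt]
    have h3 : gk f = |gk f| := by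
      rw [abs_of_nonneg]
      rw [← hDt]
      linarith
    rw [h3, hg, abs_mul, abs_of_nonneg (by positivity :
      (0 : ℝ) ≤ ((finrank F K : ℕ) : ℝ) ^ finrank ℚ F)]
    exact le_mul_of_one_le_left (abs_nonneg _) (one_le_pow₀ hk)
  have h4 : 0 < |((discr F : ℤ) : ℝ)| := by
    rw [abs_pos]
    exact_mod_cast discr_ne_zero F
  have h5 : Real.log |((discr F : ℤ) : ℝ)| ≤
      Real.log (Dt (Subalgebra.toSubmodule F.toSubalgebra)) := Real.log_le_log h4 h2
  unfold LD
  rw [div_le_iff₀ hn0]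
  push_cast at h1
  linarith

end Pool.Agent.Lib.MPcb8a44.RC
end

section
/-!
# Theorem RC, module EVB: the embedding of a totally real field in its Euclidean space
-/
set_option autoImplicit false

open NumberField Module

namespace Pool.Agent.Lib.MPcb8a44.RC

namespace EVBM

variable {K : Type} [Field K] [NumberField K]

/-- independence over `ℚ` gives independence over `ℝ` of the images -/
lemma linInd_ev (hK : RD.TR K) {n : ℕ} (b : Fin n → K) (hb : LinearIndependent ℚ b) :
    LinearIndependent ℝ fun i => ev (b i) := by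
  classical
  rw [← Matrix.det_gram_ne_zero_iff_linearIndependent (𝕜 := ℝ)]
  set M : Matrix (Fin n) (Fin n) ℚ := Matrix.of fun i j => Algebra.trace ℚ K (b i * b j) with hM
  have h1 : Matrix.gram ℝ (fun i => ev (b i)) = M.map (algebraMap ℚ ℝ) := by
    ext i j
    rw [Matrix.gram_apply, inner_ev hK, Matrix.map_apply, hM, Matrix.of_apply]
    rfl
  rw [h1]
  have h2 : (M.map (algebraMap ℚ ℝ)).det = algebraMap ℚ ℝ M.det := by
    rw [RingHom.map_det]
    rfl
  rw [h2]
  intro h3
  have h4 : M.det = 0 := by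
    have : (algebraMap ℚ ℝ) M.det = (algebraMap ℚ ℝ) 0 := by rw [h3, map_zero]
    exact (algebraMap ℚ ℝ).injective this
  obtain ⟨x, hx, hx2⟩ := Matrix.exists_mulVec_eq_zero_iff.2 h4
  set z : K := ∑ i, x i • b i with hz
  have h5 : ∀ i, Algebra.trace ℚ K (b i * z) = 0 := by
    intro i
    have h6 := congrFun hx2 i
    rw [Matrix.mulVec, dotProduct, Pi.zero_apply] at h6
    rw [← h6, hz, Finset.mul_sum, map_sum]
    refine Finset.sum_congr rfl fun j _ => ?_
    rw [mul_smul_comm, map_smul, hM, Matrix.of_apply, smul_eq_mul, mul_comm]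
  have h7 : Algebra.trace ℚ K (z * z) = 0 := by
    conv_lhs => rw [hz]
    rw [Finset.sum_mul, map_sum]
    refine Finset.sum_eq_zero fun i _ => ?_
    rw [smul_mul_assoc, map_smul, ← hz, h5 i, smul_zero]
  have h8 : inner ℝ (ev z) (ev z) = 0 := by
    rw [inner_ev hK, h7, Rat.cast_zero]
  have h9 : ev z = 0 := inner_self_eq_zero.1 h8
  have h10 : z = 0 := ev_inj hK (by rw [h9, ev_zero])
  apply hx
  funext i
  exact (Fintype.linearIndependent_iff.1 hb) x h10 i

lemma linInd_of_ev {n : ℕ} (b : Fin n → K) (hb : LinearIndependent ℝ fun i => ev (b i)) :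
    LinearIndependent ℚ b := by
  rw [Fintype.linearIndependent_iff] at hb ⊢
  intro g hg i
  have h1 : ∑ i, (g i : ℝ) • ev (b i) = 0 := by
    rw [← ev_zero (K := K), ← hg, ev_sum]
    exact Finset.sum_congr rfl fun j _ => (ev_rat _ _).symm
  exact_mod_cast hb (fun i => (g i : ℝ)) h1 i

/-- rational combinations -/
lemma ev_mem_of_mem {s : Set K} {x : K} (hx : x ∈ Submodule.span ℚ s) :
    ev x ∈ Submodule.span ℝ (ev '' s) := by
  induction hx using Submodule.span_induction with
  | mem x hx => exact Submodule.subset_span ⟨x, hx, rfl⟩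
  | zero =>
    rw [ev_zero]
    exact Submodule.zero_mem _
  | add x y _ _ hx hy =>
    rw [ev_add]
    exact Submodule.add_mem _ hx hy
  | smul q x _ hx =>
    rw [ev_rat]
    exact Submodule.smul_mem _ _ hx

lemma mem_of_ev_mem (hK : RD.TR K) {n : ℕ} (b : Fin n → K) {x : K}
    (hx : ev x ∈ Rs (fun i => ev (b i))) : x ∈ Submodule.span ℚ (Set.range b) := by
  classical
  by_contra hcon
  obtain ⟨t, htb, hts, hti⟩ := exists_linearIndependent ℚ (Set.range b)
  have htf : t.Finite := (Set.finite_range b).subset htb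
  obtain ⟨m, c, hc, hcr⟩ : ∃ (m : ℕ) (c : Fin m → K), LinearIndependent ℚ c ∧ Set.range c = t := by
    have := htf.fintype
    refine ⟨Fintype.card t, fun i => ((Fintype.equivFin t).symm i : K), ?_, ?_⟩
    · exact hti.comp _ (Fintype.equivFin t).symm.injective
    · ext y
      constructor
      · rintro ⟨i, rfl⟩
        exact ((Fintype.equivFin t).symm i).2
      · intro hy
        exact ⟨Fintype.equivFin t ⟨y, hy⟩, by simp⟩
  have h1 : x ∉ Submodule.span ℚ (Set.range c) := by rwa [hcr, hts]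
  have h2 : LinearIndependent ℚ (Fin.snoc c x : Fin (m + 1) → K) :=
    linearIndependent_finSnoc.2 ⟨hc, h1⟩
  have h3 := linInd_ev hK _ h2
  have h4 : (fun i => ev ((Fin.snoc c x : Fin (m + 1) → K) i)) =
      (Fin.snoc (fun i => ev (c i)) (ev x) : Fin (m + 1) → EK K) := by
    funext i
    refine Fin.lastCases ?_ (fun j => ?_) i
    · simp
    · simp
  rw [h4] at h3
  have h5 := (linearIndependent_finSnoc.1 h3).2
  apply h5
  have h6 : Rs (fun i => ev (b i)) ≤ Submodule.span ℝ (Set.range fun i => ev (c i)) := by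
    rw [Rs, Submodule.span_le]
    rintro _ ⟨i, rfl⟩
    have h7 : b i ∈ Submodule.span ℚ (Set.range c) := by
      rw [hcr, hts]
      exact Submodule.subset_span ⟨i, rfl⟩
    have h8 := ev_mem_of_mem h7
    rwa [← Set.range_comp] at h8
  exact h6 hx

/-- `ev` as an additive map -/
noncomputable def evZ : K →+ EK K where
  toFun := ev
  map_zero' := ev_zero
  map_add' := ev_add

lemma mem_Zs_iff (hK : RD.TR K) {n : ℕ} (b : Fin n → K) (x : K) :
    ev x ∈ Zs (fun i => ev (b i)) ↔ x ∈ Submodule.span ℤ (Set.range b) := by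
  have h1 : Zs (fun i => ev (b i)) =
      (Submodule.span ℤ (Set.range b)).map (evZ (K := K)).toIntLinearMap := by
    rw [Submodule.map_span, ← Set.range_comp]
    rfl
  rw [h1, Submodule.mem_map]
  constructor
  · rintro ⟨y, hy, hyx⟩
    have h2 : ev y = ev x := hyx
    rwa [← ev_inj hK h2]
  · intro hx
    exact ⟨x, hx, rfl⟩

/-- multiplication by `u` -/
noncomputable def mulMap (u : K) : EK K →ₗ[ℝ] EK K where
  toFun ξ := WithLp.toLp 2 fun φ : K →+* ℂ => (φ u).re * ξ φ
  map_add' ξ η := by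
    ext φ
    simp [mul_add]
  map_smul' r ξ := by
    ext φ
    simp
    ring

lemma mulMap_apply (u : K) (ξ : EK K) (φ : K →+* ℂ) : mulMap u ξ φ = (φ u).re * ξ φ := rfl

end EVBM

theorem specEVB : SpecEVB := by
  intro K _ _ hK
  refine ⟨fun n b => ⟨⟨EVBM.linInd_ev hK b, EVBM.linInd_of_ev b⟩, fun x =>
    ⟨EVBM.mem_of_ev_mem hK b, fun hx => ?_⟩, EVBM.mem_Zs_iff hK b, fun x => ?_⟩, fun u => ?_⟩
  · have h := EVBM.ev_mem_of_mem hx
    rwa [← Set.range_comp] at h
  · rw [zc, ev_sum]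
    exact Finset.sum_congr rfl fun i _ => (ev_int _ _).symm
  · refine ⟨EVBM.mulMap u, fun ξ => ?_, fun x => ?_, fun ξ η => ?_⟩
    · have h0 : 0 ≤ RD.hs u * ‖ξ‖ := mul_nonneg (RD.hs_nonneg u) (norm_nonneg _)
      refine le_of_sq_le_sq ?_ h0
      rw [mul_pow, EuclideanSpace.norm_sq_eq, EuclideanSpace.norm_sq_eq, Finset.mul_sum]
      refine Finset.sum_le_sum fun φ _ => ?_
      rw [EVBM.mulMap_apply, norm_mul, mul_pow]
      refine mul_le_mul_of_nonneg_right ?_ (sq_nonneg _)
      refine pow_le_pow_left₀ (norm_nonneg _) ?_ 2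
      exact (Complex.abs_re_le_norm _).trans (RD.norm_le_hs φ u)
    · ext φ
      rw [EVBM.mulMap_apply, ev_apply, ev_apply, map_mul, Complex.mul_re, hK φ u, zero_mul,
        sub_zero]
    · rw [PiLp.inner_apply, PiLp.inner_apply]
      refine Finset.sum_congr rfl fun φ _ => ?_
      rw [EVBM.mulMap_apply, EVBM.mulMap_apply]
      simp
      ring

end Pool.Agent.Lib.MPcb8a44.RC
end

section
/-!
# Theorem RC, module HMO: dependence of the hull on the scale
-/
set_option autoImplicit false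

open NumberField Module

namespace Pool.Agent.Lib.MPcb8a44.RC

theorem specHMO (hHUL : SpecHUL) (hLTB : SpecLTB) : SpecHMO := by
  intro K _ _ hK
  obtain ⟨_, l2, l3, _⟩ := hLTB K hK
  have hDt : ∀ A : Submodule ℚ K, 1 ≤ Dt A := by
    intro A
    obtain ⟨n, b, hb⟩ := l2 A
    exact (l3 A n b hb).2.2.2
  have hD : ∀ y, DE y (HV K y) := fun y => (hHUL K hK y).2.2.1
  have hle : ∀ y (A : Submodule ℚ K), DE y A → A ≤ HV K y := fun y => (hHUL K hK y).2.2.2.1
  have hmin : ∀ y (N : Submodule ℚ K), psi y (HV K y) ≤ psi y N :=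
    fun y => (hHUL K hK y).2.2.2.2.1
  have hfr : ∀ {N A : Submodule ℚ K}, N ≤ A → (finrank ℚ N : ℝ) ≤ finrank ℚ A := fun h => by
    exact_mod_cast Submodule.finrank_mono h
  have h1 : ∀ (y y' : ℝ) (A : Submodule ℚ K), y ≤ y' → DE y A → DE y' A := by
    intro y y' A hyy hA N hN
    have e1 := hA N hN
    have e2 := mul_le_mul_of_nonneg_left (hfr hN) (sub_nonneg.2 hyy)
    unfold psi at e1 ⊢
    linarith
  have h2 : ∀ y y' : ℝ, y ≤ y' → HV K y ≤ HV K y' ∧ nn K y ≤ nn K y' := by
    intro y y' hyy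
    have := hle y' _ (h1 y y' _ hyy (hD y))
    exact ⟨this, Submodule.finrank_mono this⟩
  have h3 : ∀ y y' : ℝ, GG K y + nn K y * (y' - y) ≤ GG K y' := by
    intro y y'
    have e1 := hmin y' (HV K y)
    unfold GG nn
    unfold psi at e1 ⊢
    linarith
  have hbot : ∀ y : ℝ, psi y (⊥ : Submodule ℚ K) = 0 := by
    intro y
    obtain ⟨n, b, hb⟩ := l2 (⊥ : Submodule ℚ K)
    obtain ⟨e1, _, e3, _⟩ := l3 _ n b hb
    rw [finrank_bot] at e1
    subst e1
    have e4 : gk b = 1 := by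
      unfold gk gd
      exact Matrix.det_isEmpty
    unfold psi
    rw [e3, e4, Real.log_one, finrank_bot]
    simp
  have h4 : ∀ y : ℝ, 0 ≤ GG K y ∧ GG K y ≤ y * nn K y := by
    intro y
    constructor
    · have e1 := hmin y ⊥
      rw [hbot y] at e1
      unfold GG
      linarith
    · have e1 := Real.log_nonneg (hDt (HV K y))
      unfold GG psi nn
      linarith
  have h5 : ∀ y : ℝ, y < 0 → HV K y = ⊥ := by
    intro y hy
    obtain ⟨e1, e2⟩ := h4 y
    have e3 : nn K y = 0 := by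
      by_contra hne
      have e4 : (0 : ℝ) < nn K y := by
        exact_mod_cast Nat.pos_of_ne_zero hne
      have e5 := mul_neg_of_neg_of_pos hy e4
      linarith
    exact Submodule.finrank_eq_zero.1 e3
  refine ⟨h1, h2, h3, h4, h5, ?_⟩
  intro y m hm
  obtain ⟨k, ⟨y1, hy1, hk⟩, hkmin⟩ := (wellFounded_lt (α := ℕ)).has_min
    {k | ∃ y', y < y' ∧ nn K y' = k} ⟨_, y + 1, by linarith, rfl⟩
  have hV : ∀ y', y < y' → y' ≤ y1 → HV K y' = HV K y1 := by
    intro y' hy' hy1'
    apply Submodule.eq_of_le_of_finrank_le (h2 y' y1 hy1').1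
    have := hkmin (nn K y') ⟨y', hy', rfl⟩
    change nn K y1 ≤ nn K y'
    rw [hk]
    exact not_lt.1 this
  have hDV : DE y (HV K y1) := by
    intro N hN
    by_contra hlt
    push Not at hlt
    set V := HV K y1 with hVdef
    set c : ℝ := (finrank ℚ V : ℝ) - finrank ℚ N with hc
    have hc0 : 0 ≤ c := by
      have := hfr hN
      linarith
    set δ : ℝ := psi y V - psi y N with hδ
    have hδ0 : 0 < δ := by linarith
    -- choose a scale close to `y`
    set t : ℝ := min (y1 - y) (δ / (2 * (c + 1))) with ht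
    have ht0 : 0 < t := lt_min (by linarith) (div_pos hδ0 (by linarith))
    have ht1 : t ≤ y1 - y := min_le_left _ _
    have ht2 : t ≤ δ / (2 * (c + 1)) := min_le_right _ _
    have e1 := hD (y + t)
    rw [hV (y + t) (by linarith) (by linarith)] at e1
    have e2 := e1 N hN
    have e3 : t * c ≤ δ / 2 := by
      have : t * (c + 1) ≤ δ / 2 := by
        calc t * (c + 1) ≤ δ / (2 * (c + 1)) * (c + 1) :=
              mul_le_mul_of_nonneg_right ht2 (by linarith)
          _ = δ / 2 := by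
              field_simp
      nlinarith
    unfold psi at e2 hδ
    have e4 : t * c = t * finrank ℚ V - t * finrank ℚ N := by rw [hc, mul_sub]
    linarith
  exact (hm y1 hy1).trans (Submodule.finrank_mono (hle y _ hDV))

end Pool.Agent.Lib.MPcb8a44.RC
end

section
/-!
# HMU: multiplication and the hull
-/
set_option autoImplicit false

open NumberField Module

namespace Pool.Agent.Lib.MPcb8a44.RC

namespace HMUM

section

variable {K : Type} [Field K] [NumberField K]

theorem mulLeft_inj {u : K} (hu : u ≠ 0) : Function.Injective (LinearMap.mulLeft ℚ u) :=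
  fun _ _ h => mul_left_cancel₀ hu h

theorem finrank_sc {u : K} (hu : u ≠ 0) (A : Submodule ℚ K) : finrank ℚ (sc u A) = finrank ℚ A := by
  unfold sc
  exact (LinearEquiv.finrank_eq (Submodule.equivMapOfInjective _ (mulLeft_inj hu) A)).symm

end

end HMUM

open HMUM in
theorem specHMU (hEVB : SpecEVB) (hLTB : SpecLTB) (hDEQ : SpecDEQ) (hQDE : SpecQDE)
    (hQDM : SpecQDM) (hHUL : SpecHUL) : SpecHMU := by
  intro K _ _ hK
  obtain ⟨-, hL2, hL3, -⟩ := hLTB K hK
  obtain ⟨hE1, hE2⟩ := hEVB K hK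
  have first : ∀ (u : K) (a y : ℝ) (A : Submodule ℚ K), u ≠ 0 → IsIntegral ℤ u →
      RD.hs u ≤ Real.exp a → DE y A → DE (y + a) (sc u A) := by
    intro u a y A hu hui huh hA
    obtain ⟨n, b, hb⟩ := hL2 A
    obtain ⟨hn, -, -, -⟩ := hL3 A n b hb
    have hQ := hDEQ K hK A n b y hb hA
    obtain ⟨T, hT1, hT2, -⟩ := hE2 u
    have hTb : ∀ x, ‖T x‖ ≤ Real.exp a * ‖x‖ := fun x =>
      (hT1 x).trans (mul_le_mul_of_nonneg_right huh (norm_nonneg _))
    have hind : LinearIndependent ℝ fun i => ev (b i) := (hE1 n b).1.1 hb.ind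
    have hQ2 := hQDM (EK K) (EK K) T a y n (fun i => ev (b i)) hTb hind hQ
    simp only [hT2] at hQ2
    refine hQDE K hK (sc u A) n (fun i => u * b i) (y + a) ?_ ?_ ?_ hQ2
    · intro i
      refine ⟨mem_sc.2 ⟨b i, (hb.mem i).1, rfl⟩, hui.mul (hb.mem i).2⟩
    · have h := hb.ind.map' (LinearMap.mulLeft ℚ u) (LinearMap.ker_eq_bot.2 (mulLeft_inj hu))
      exact h
    · rw [finrank_sc hu]
      exact hn
  refine ⟨first, ?_⟩
  intro A a y
  obtain ⟨-, -, hH3, hH4, -, -⟩ := hHUL K hK y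
  have hH4' := (hHUL K hK (y + a)).2.2.2.1
  rw [Submodule.mul_le]
  intro m hm
  induction hm using Submodule.span_induction with
  | mem u hu =>
    intro n hn
    by_cases hu0 : u = 0
    · rw [hu0, zero_mul]
      exact Submodule.zero_mem _
    · have h1 : DE (y + a) (sc u (HV K y)) := first u a y (HV K y) hu0 hu.1.2 hu.2 hH3
      exact hH4' _ h1 (mem_sc.2 ⟨n, hn, rfl⟩)
  | zero =>
    intro n _
    rw [zero_mul]
    exact Submodule.zero_mem _
  | add x z _ _ hx hz =>
    intro n hn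
    rw [add_mul]
    exact Submodule.add_mem _ (hx n hn) (hz n hn)
  | smul q x _ hx =>
    intro n hn
    rw [smul_mul_assoc]
    exact Submodule.smul_mem _ q (hx n hn)

end Pool.Agent.Lib.MPcb8a44.RC
end

section
/-!
# Theorem RC, module HUL: the hull
-/
set_option autoImplicit false

open NumberField Module

namespace Pool.Agent.Lib.MPcb8a44.RC.HULM

section

variable {L : Type*} [CompleteLattice L]

/-- Dense elements for a submodular function. -/
def D (p : L → ℝ) (A : L) : Prop := ∀ N ≤ A, p A ≤ p N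

variable {p : L → ℝ}

theorem bot_D : D p ⊥ := fun N hN => by rw [le_bot_iff.1 hN]

theorem sup_le (hp : ∀ A B, p (A ⊔ B) + p (A ⊓ B) ≤ p A + p B) {A : L} (hA : D p A) (N : L) :
    p (N ⊔ A) ≤ p N := by
  have h1 := hp N A
  have h2 := hA (N ⊓ A) inf_le_right
  linarith

theorem sup_D (hp : ∀ A B, p (A ⊔ B) + p (A ⊓ B) ≤ p A + p B) {A B : L} (hA : D p A)
    (hB : D p B) : D p (A ⊔ B) := by
  intro N hN
  have h1 := sup_le hp hA N
  have h2 := sup_le hp hB (N ⊔ A)
  have h3 : N ⊔ A ⊔ B = A ⊔ B := by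
    rw [sup_assoc]
    exact sup_eq_right.2 hN
  rw [h3] at h2
  linarith

theorem hull_D [WellFoundedGT L] (hp : ∀ A B, p (A ⊔ B) + p (A ⊓ B) ≤ p A + p B) :
    D p (sSup {A | D p A}) := by
  obtain ⟨M, hM, hmax⟩ := (wellFounded_gt (α := L)).has_min {A | D p A} ⟨⊥, bot_D⟩
  have h1 : sSup {A | D p A} = M := by
    apply le_antisymm
    · apply sSup_le
      intro A hA
      have h2 : A ⊔ M ∈ {A | D p A} := sup_D hp hA hM
      have h3 := hmax _ h2
      have h4 : M ≤ A ⊔ M := le_sup_right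
      have h5 : M = A ⊔ M := by
        by_contra hne
        exact h3 (lt_of_le_of_ne h4 hne)
      rw [h5]
      exact le_sup_left
    · exact le_sSup hM
  rw [h1]
  exact hM

theorem lt_hull [WellFoundedGT L] [WellFoundedLT L]
    (hp : ∀ A B, p (A ⊔ B) + p (A ⊓ B) ≤ p A + p B) (N : L) (hN : sSup {A | D p A} < N) :
    p (sSup {A | D p A}) < p N := by
  set V := sSup {A | D p A} with hV
  have hVD : D p V := hull_D hp
  by_contra hn
  push Not at hn
  obtain ⟨M, ⟨hM1, hM2⟩, hmin⟩ := (wellFounded_lt (α := L)).has_min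
    {N | V < N ∧ p N ≤ p V} ⟨N, hN, hn⟩
  have hMD : D p M := by
    intro N' hN'
    have h1 := sup_le hp hVD N'
    by_cases h2 : N' ⊔ V = V
    · rw [h2] at h1
      exact hM2.trans h1
    · by_cases h3 : N' ⊔ V = M
      · rwa [h3] at h1
      · have h4 : N' ⊔ V < M := lt_of_le_of_ne (_root_.sup_le hN' hM1.le) h3
        have h5 : V < N' ⊔ V := lt_of_le_of_ne le_sup_right (Ne.symm h2)
        have h6 : ¬ p (N' ⊔ V) ≤ p V := fun h => hmin _ ⟨h5, h⟩ h4
        push Not at h6
        linarith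
  exact absurd (le_sSup hMD) (not_le_of_gt hM1)

theorem hull_le [WellFoundedGT L] [WellFoundedLT L]
    (hp : ∀ A B, p (A ⊔ B) + p (A ⊓ B) ≤ p A + p B) (N : L) :
    p (sSup {A | D p A}) ≤ p N := by
  have h1 := sup_le hp (hull_D hp) N
  by_cases h2 : N ⊔ sSup {A | D p A} = sSup {A | D p A}
  · rwa [h2] at h1
  · have h3 := lt_hull hp (N ⊔ sSup {A | D p A}) (lt_of_le_of_ne le_sup_right (Ne.symm h2))
    linarith

end

end Pool.Agent.Lib.MPcb8a44.RC.HULM

namespace Pool.Agent.Lib.MPcb8a44.RC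

theorem specHUL (hSBM : SpecSBM) (hLTB : SpecLTB) : SpecHUL := by
  intro K _ _ hK y
  obtain ⟨_, l2, l3, _⟩ := hLTB K hK
  have hDt : ∀ A : Submodule ℚ K, 1 ≤ Dt A := by
    intro A
    obtain ⟨n, b, hb⟩ := l2 A
    exact (l3 A n b hb).2.2.2
  have hp : ∀ A B : Submodule ℚ K, psi y (A ⊔ B) + psi y (A ⊓ B) ≤ psi y A + psi y B := by
    intro A B
    have h1 := hSBM K hK A B
    have hA : 0 < Dt A := zero_lt_one.trans_le (hDt A)
    have hB : 0 < Dt B := zero_lt_one.trans_le (hDt B)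
    have hs : 0 < Dt (A ⊔ B) := zero_lt_one.trans_le (hDt _)
    have hi : 0 < Dt (A ⊓ B) := zero_lt_one.trans_le (hDt _)
    have h2 := Real.log_le_log (mul_pos hs hi) h1
    rw [Real.log_mul hs.ne' hi.ne', Real.log_mul hA.ne' hB.ne'] at h2
    have h3 := Submodule.finrank_sup_add_finrank_inf_eq A B
    have h4 : (finrank ℚ ↥(A ⊔ B) : ℝ) + finrank ℚ ↥(A ⊓ B) = finrank ℚ A + finrank ℚ B := by
      exact_mod_cast h3
    unfold psi
    have h5 : y * (finrank ℚ ↥(A ⊔ B) : ℝ) + y * finrank ℚ ↥(A ⊓ B) =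
        y * finrank ℚ A + y * finrank ℚ B := by
      rw [← mul_add, h4, mul_add]
    linarith
  exact ⟨HULM.bot_D, fun A B hA hB => HULM.sup_D hp hA hB, HULM.hull_D hp,
    fun A hA => le_sSup hA, HULM.hull_le hp, HULM.lt_hull hp⟩

end Pool.Agent.Lib.MPcb8a44.RC
end

section
/-!
# LTB: bases of lattices of integers
-/
open NumberField Module

namespace Pool.Agent.Lib.MPcb8a44.RC

namespace LTBM

variable {K : Type} [Field K] [NumberField K]

theorem finite_lat (A : Submodule ℚ K) : Module.Finite ℤ (lat A) := by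
  have h1 : IsNoetherian ℤ (Subalgebra.toSubmodule (integralClosure ℤ K)) :=
    (inferInstance : IsNoetherian ℤ (𝓞 K))
  have hle : lat A ≤ Subalgebra.toSubmodule (integralClosure ℤ K) := fun x hx => hx.2
  have : IsNoetherian ℤ (lat A) := isNoetherian_of_le hle
  infer_instance

theorem ind_iff {n : ℕ} (b : Fin n → K) : LinearIndependent ℚ b ↔ LinearIndependent ℤ b :=
  (LinearIndependent.iff_fractionRing ℤ ℚ).symm

theorem exists_ib (A : Submodule ℚ K) : ∃ (n : ℕ) (b : Fin n → K), IB A b := by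
  have := finite_lat A
  let B := Module.finBasis ℤ (lat A)
  refine ⟨finrank ℤ (lat A), fun i => (B i : K), ?_, ?_, ?_⟩
  · exact fun i => (B i).2
  · rw [ind_iff]
    exact B.linearIndependent.map' (lat A).subtype (Submodule.ker_subtype _)
  · intro x hx
    have h1 := B.mem_span ⟨x, hx⟩
    have h2 := Submodule.mem_map_of_mem (f := (lat A).subtype) h1
    rw [Submodule.map_span, ← Set.range_comp] at h2
    exact h2

theorem mem_of_zsmul {N : Submodule ℚ K} {k : ℤ} (hk : k ≠ 0) {x : K} (h : k • x ∈ N) : x ∈ N := by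
  have h1 : x = ((k : ℚ)⁻¹) • (k • x) := by
    rw [← Int.cast_smul_eq_zsmul ℚ, smul_smul, inv_mul_cancel₀ (by exact_mod_cast hk), one_smul]
  rw [h1]
  exact N.smul_mem _ h

theorem extend {N A : Submodule ℚ K} (hNA : N ≤ A) {n : ℕ} {b : Fin n → K} (hb : IB N b) :
    ∃ (k : ℕ) (e : Fin k → K), IB A (Fin.append b e) := by
  have hfin := finite_lat A
  let L0 : Submodule ℤ (lat A) := (lat N).comap (lat A).subtype
  have hmem0 : ∀ y : lat A, y ∈ L0 ↔ (y : K) ∈ lat N := fun y => Iff.rfl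
  have htf : Module.IsTorsionFree ℤ (lat A ⧸ L0) := by
    apply Module.IsTorsionFree.of_smul_eq_zero
    intro r m
    obtain ⟨y, rfl⟩ := Submodule.mkQ_surjective L0 m
    intro h
    by_cases hr : r = 0
    · exact Or.inl hr
    · right
      rw [← map_smul, Submodule.mkQ_apply, Submodule.Quotient.mk_eq_zero, hmem0] at h
      rw [Submodule.mkQ_apply, Submodule.Quotient.mk_eq_zero, hmem0]
      exact ⟨mem_of_zsmul hr h.1, y.2.2⟩
  let B := Module.finBasis ℤ (lat A ⧸ L0)
  have hlift : ∀ j, ∃ y : lat A, L0.mkQ y = B j := fun j => Submodule.mkQ_surjective L0 (B j)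
  choose e' he' using hlift
  refine ⟨finrank ℤ (lat A ⧸ L0), fun j => (e' j : K), ?_, ?_, ?_⟩
  · intro i
    refine Fin.addCases (fun i => ?_) (fun j => ?_) i
    · rw [Fin.append_left]
      exact lat_mono hNA (hb.mem i)
    · rw [Fin.append_right]
      exact (e' j).2
  · rw [ind_iff, Fintype.linearIndependent_iff]
    intro g hg
    rw [Fin.sum_univ_add] at hg
    simp only [Fin.append_left, Fin.append_right] at hg
    have hs : (∑ i, g (Fin.castAdd _ i) • b i) ∈ lat N :=
      Submodule.sum_mem _ (fun i _ => (lat N).smul_mem _ (hb.mem i))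
    have hy : (∑ j, g (Fin.natAdd n j) • e' j) ∈ L0 := by
      rw [hmem0]
      have h1 : ((∑ j, g (Fin.natAdd n j) • e' j : lat A) : K) =
          -(∑ i, g (Fin.castAdd _ i) • b i) := by
        rw [eq_neg_iff_add_eq_zero, add_comm]
        rw [← hg]
        congr 1
        simp
      rw [h1]
      exact (lat N).neg_mem hs
    have hq : ∑ j, g (Fin.natAdd n j) • B j = 0 := by
      have h1 : L0.mkQ (∑ j, g (Fin.natAdd n j) • e' j) = 0 := by
        rw [Submodule.mkQ_apply, Submodule.Quotient.mk_eq_zero]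
        exact hy
      rw [map_sum] at h1
      rw [← h1]
      refine Finset.sum_congr rfl (fun j _ => ?_)
      rw [map_smul, he']
    have hz : ∀ j, g (Fin.natAdd n j) = 0 :=
      Fintype.linearIndependent_iff.1 B.linearIndependent (fun j => g (Fin.natAdd n j)) hq
    have hb0 : ∑ i, g (Fin.castAdd _ i) • b i = 0 := by
      rw [← hg]
      simp [hz]
    have hz' := Fintype.linearIndependent_iff.1 ((ind_iff b).1 hb.ind)
      (fun i => g (Fin.castAdd _ i)) hb0
    intro i
    refine Fin.addCases (fun i => ?_) (fun j => ?_) i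
    · exact hz' i
    · exact hz j
  · intro x hx
    have h1 : ∃ r : _ → ℤ, ∑ j, r j • B j = L0.mkQ ⟨x, hx⟩ :=
      ⟨fun j => B.repr (L0.mkQ ⟨x, hx⟩) j, B.sum_repr _⟩
    obtain ⟨r, hr⟩ := h1
    have h2 : (⟨x, hx⟩ - ∑ j, r j • e' j : lat A) ∈ L0 := by
      rw [← Submodule.Quotient.mk_eq_zero, ← Submodule.mkQ_apply, map_sub, ← hr, map_sum, sub_eq_zero]
      refine Finset.sum_congr rfl (fun j _ => ?_)
      rw [map_smul, he']
    rw [hmem0] at h2
    have h3 : x = ((⟨x, hx⟩ - ∑ j, r j • e' j : lat A) : K) + ∑ j, r j • (e' j : K) := by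
      simp
    rw [h3]
    refine Submodule.add_mem _ ?_ ?_
    · refine Submodule.span_mono ?_ (hb.gen _ h2)
      rintro y ⟨i, rfl⟩
      exact ⟨Fin.castAdd _ i, Fin.append_left _ _ i⟩
    · refine Submodule.sum_mem _ (fun j _ => Submodule.smul_mem _ _ ?_)
      exact Submodule.subset_span ⟨Fin.natAdd n j, Fin.append_right _ _ j⟩

theorem span_eq {A : Submodule ℚ K} {n : ℕ} {b : Fin n → K} (hb : IB A b) :
    Submodule.span ℚ (Set.range b) = A := by
  apply le_antisymm
  · rw [Submodule.span_le]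
    rintro x ⟨i, rfl⟩
    exact (hb.mem i).1
  · intro a ha
    have halg : IsAlgebraic ℤ a :=
      (IsFractionRing.isAlgebraic_iff ℤ ℚ K).2 (Algebra.IsAlgebraic.isAlgebraic a)
    obtain ⟨k, hk, hint⟩ := halg.exists_integral_multiple
    have h1 : k • a ∈ lat A := by
      refine ⟨?_, hint⟩
      rw [← Int.cast_smul_eq_zsmul ℚ]
      exact A.smul_mem _ ha
    have h2 := hb.gen _ h1
    apply mem_of_zsmul hk
    exact Submodule.span_subset_span ℤ ℚ _ h2

theorem gk_le (hZIX : SpecZIX) (hEVB : SpecEVB) (hK : RD.TR K) {A : Submodule ℚ K} {n : ℕ}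
    {b b' : Fin n → K} (hb : IB A b) (h1 : ∀ i, b' i ∈ lat A) (h2 : LinearIndependent ℚ b') :
    gk b ≤ gk b' := by
  obtain ⟨hE, -⟩ := hEVB K hK
  refine (hZIX (EK K) n (fun i => ev (b i)) (fun i => ev (b' i)) ((hE n b').1.1 h2)
    (fun i => ?_)).1
  exact ((hE n b).2.2.1 (b' i)).2 (hb.gen _ (h1 i))

theorem one_le (hGRA : SpecGRA) (hEVB : SpecEVB) (hK : RD.TR K) {A : Submodule ℚ K} {n : ℕ}
    {b : Fin n → K} (hb : IB A b) : 1 ≤ gk b := by
  obtain ⟨hE, -⟩ := hEVB K hK
  have hpos : 0 < gk b := (hGRA (EK K) n _).2.1.1 ((hE n b).1.1 hb.ind)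
  have hint : ∀ i j, ∃ m : ℤ, (m : ℚ) = Algebra.trace ℚ K (b i * b j) := by
    intro i j
    have h1 : IsIntegral ℤ (Algebra.trace ℚ K (b i * b j)) :=
      Algebra.isIntegral_trace ((hb.mem i).2.mul (hb.mem j).2)
    obtain ⟨m, hm⟩ := IsIntegrallyClosed.isIntegral_iff.1 h1
    exact ⟨m, by rw [← hm]; simp⟩
  choose M hM using hint
  have h2 : gk b = ((Matrix.of M).det : ℤ) := by
    change (Matrix.gram ℝ (fun i => ev (b i))).det = _
    have h3 : Matrix.gram ℝ (fun i => ev (b i)) = (Matrix.of M).map (fun k : ℤ => (k : ℝ)) := by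
      ext i j
      rw [Matrix.gram_apply, inner_ev hK, ← hM i j]
      simp
    rw [h3]
    exact (Int.cast_det (Matrix.of M)).symm
  rw [h2] at hpos ⊢
  have h4 : 0 < (Matrix.of M).det := by exact_mod_cast hpos
  have h5 : 1 ≤ (Matrix.of M).det := by omega
  exact_mod_cast h5

theorem card_eq {A : Submodule ℚ K} {n : ℕ} {b : Fin n → K} (hb : IB A b) :
    n = finrank ℚ A := by
  have h1 := finrank_span_eq_card hb.ind
  rw [span_eq hb, Fintype.card_fin] at h1
  exact h1.symm

theorem dt_eq (hZIX : SpecZIX) (hEVB : SpecEVB) (hK : RD.TR K) {A : Submodule ℚ K} {n : ℕ}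
    {b : Fin n → K} (hb : IB A b) : Dt A = gk b := by
  have hn := card_eq hb
  subst hn
  have h1 : IsLeast {g | ∃ b : Fin (finrank ℚ A) → K, (∀ i, b i ∈ lat A) ∧
      LinearIndependent ℚ b ∧ g = gk b} (gk b) := by
    refine ⟨⟨b, hb.mem, hb.ind, rfl⟩, ?_⟩
    rintro g ⟨b', h1, h2, rfl⟩
    exact gk_le hZIX hEVB hK hb h1 h2
  exact h1.csInf_eq

end LTBM

open LTBM in
theorem specLTB (hGRA : SpecGRA) (hZIX : SpecZIX) (hEVB : SpecEVB) : SpecLTB := by
  intro K _ _ hK
  refine ⟨?_, exists_ib, ?_, ?_⟩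
  · intro N A hNA n b hb
    exact extend hNA hb
  · intro A n b hb
    refine ⟨card_eq hb, span_eq hb, dt_eq hZIX hEVB hK hb, ?_⟩
    rw [dt_eq hZIX hEVB hK hb]
    exact one_le hGRA hEVB hK hb
  · intro A n b h1 h2 hn
    obtain ⟨n', b', hb'⟩ := exists_ib A
    have hn' := card_eq hb'
    obtain rfl : n = n' := hn.trans hn'.symm
    rw [dt_eq hZIX hEVB hK hb']
    exact gk_le hZIX hEVB hK hb' h1 h2

end Pool.Agent.Lib.MPcb8a44.RC
end

section
/-!
# MAA: masses of lattices of integers, elementary part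
-/
set_option autoImplicit false

open NumberField Module

namespace Pool.Agent.Lib.MPcb8a44.RC

namespace MAAM

variable {K : Type} [Field K] [NumberField K]

theorem lat_eq_span {A : Submodule ℚ K} {n : ℕ} {b : Fin n → K} (hb : IB A b) :
    lat A = Submodule.span ℤ (Set.range b) := by
  apply le_antisymm
  · exact fun x hx => hb.gen x hx
  · rw [Submodule.span_le]
    rintro _ ⟨i, rfl⟩
    exact hb.mem i

theorem exp_neg_psi (z : ℝ) (A : Submodule ℚ K) (h : 0 < Dt A) :
    Real.exp (-psi z A) = Real.exp (z * finrank ℚ A) / Real.sqrt (Dt A) := by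
  have h1 : Real.sqrt (Dt A) = Real.exp (Real.log (Dt A) / 2) := by
    rw [Real.exp_half, Real.exp_log h]
  rw [h1, ← Real.exp_sub]
  congr 1
  unfold psi
  ring

theorem main (hRHB : SpecRHB) (hGTH : SpecGTH) (hLTB : SpecLTB) (hEVB : SpecEVB) (hK : RD.TR K)
    (z : ℝ) (A : Submodule ℚ K) : Real.exp (-psi z A) ≤ rh z (lat A) ∧ 1 ≤ rh z (lat A) ∧
    (∀ t : ℝ, 0 ≤ t → rh (z + t) (lat A) ≤ Real.exp (t * finrank ℚ A) * rh z (lat A)) ∧
    Summable fun x : lat A => Real.exp (-(Real.pi * Real.exp (-2 * z) * ‖ev (x : K)‖ ^ 2)) := by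
  obtain ⟨-, hL2, hL3, -⟩ := hLTB K hK
  obtain ⟨n, b, hb⟩ := hL2 A
  obtain ⟨hn, -, hD, hD1⟩ := hL3 A n b hb
  have hD0 : 0 < Dt A := by linarith
  have hR := fun z => hRHB K hK n b z hb.ind
  have hind : LinearIndependent ℝ fun i => ev (b i) := ((hEVB K hK).1 n b).1.1 hb.ind
  obtain ⟨-, hG2, hG3, hG4, -⟩ := hGTH (EK K) n (fun i => ev (b i)) z hind
  rw [lat_eq_span hb, exp_neg_psi z A hD0, ← hn]
  refine ⟨?_, ?_, ?_, (hR z).1⟩
  · rw [(hR z).2, hD]
    exact hG2
  · rw [(hR z).2]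
    exact hG4
  · intro t ht
    rw [(hR z).2, (hR (z + t)).2]
    exact hG3 t ht

end MAAM

/-- MAA -/
theorem specMAA (hRHB : SpecRHB) (hGTH : SpecGTH) (hLTB : SpecLTB) (hEVB : SpecEVB) : SpecMAA := by
  intro K _ _ hK z
  refine ⟨fun A => MAAM.main hRHB hGTH hLTB hEVB hK z A, ?_⟩
  intro A B hAB
  have hA := (MAAM.main hRHB hGTH hLTB hEVB hK z A).2.2.2
  have hB := (MAAM.main hRHB hGTH hLTB hEVB hK z B).2.2.2
  refine Summable.tsum_le_tsum_of_inj (fun x : lat A => (⟨x.1, lat_mono hAB x.2⟩ : lat B)) ?_ ?_ ?_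
    hA hB
  · intro x y hxy
    exact Subtype.ext (congrArg (fun w : lat B => (w : K)) hxy)
  · intro c _
    exact (Real.exp_pos _).le
  · intro x
    exact le_rfl

end Pool.Agent.Lib.MPcb8a44.RC
end

section
/-!
# MAB: masses of the hull
-/
set_option autoImplicit false

open NumberField Module

namespace Pool.Agent.Lib.MPcb8a44.RC

namespace MABM

variable {K : Type} [Field K] [NumberField K]

theorem lat_eq {A : Submodule ℚ K} {n : ℕ} {b : Fin n → K} (h : IB A b) :
    lat A = (Submodule.span ℤ (Set.range b) : Submodule ℤ K) := by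
  apply le_antisymm
  · exact fun x hx => h.gen x hx
  · rw [Submodule.span_le]
    rintro _ ⟨i, rfl⟩
    exact h.mem i

theorem exp_psi {y D r : ℝ} (hD : 1 ≤ D) :
    Real.exp (-(Real.log D / 2 - y * r)) = Real.exp (y * r) / Real.sqrt D := by
  have hD0 : 0 < D := by linarith
  have h1 : Real.sqrt D = Real.exp (Real.log D / 2) := by
    have h2 : Real.exp (Real.log D / 2) ^ 2 = D := by
      rw [← Real.exp_nat_mul]
      push_cast
      rw [mul_div_cancel₀ _ (by norm_num : (2 : ℝ) ≠ 0), Real.exp_log hD0]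
    rw [← Real.sqrt_sq (Real.exp_pos (Real.log D / 2)).le, h2]
  rw [h1, ← Real.exp_sub]
  congr 1
  ring

end MABM

theorem specMAB (hMAA : SpecMAA) (hRHB : SpecRHB) (hGTH : SpecGTH) (hDUB : SpecDUB)
    (hDEQ : SpecDEQ) (hQDS : SpecQDS) (hRMC : SpecRMC) (hHUL : SpecHUL) (hLTB : SpecLTB)
    (hEVB : SpecEVB) : SpecMAB := by
  intro C hC hRM K _ _ hK y
  obtain ⟨_, hb1, hb2, _⟩ := hLTB K hK
  obtain ⟨n, b, hb⟩ := hb1 (HV K y)
  obtain ⟨hn, hspan, hDt, hDt1⟩ := hb2 _ n b hb
  have hev := (hEVB K hK).1 n b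
  have hli : LinearIndependent ℝ fun i => ev (b i) := hev.1.1 hb.ind
  obtain ⟨_, _, hDE, _⟩ := hHUL K hK y
  have hQD := hDEQ K hK (HV K y) n b y hb hDE
  obtain ⟨hdual, hdual2⟩ := hDUB (EK K) n (fun i => ev (b i)) hli
  obtain ⟨b', hb'⟩ := hdual
  have hli' := (hdual2 b' hb').1
  have hSD := hQDS (EK K) n (fun i => ev (b i)) b' y hli hb' hQD
  have hth : th (-y) b' ≤ C ^ n :=
    hRMC C hRM (EK K) n n b' b' (-y) hSD (fun i => Submodule.subset_span ⟨i, rfl⟩) hli'
  have hGT := (hGTH (EK K) n (fun i => ev (b i)) y hli).2.2.2.2 b' hb'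
  have hrh := (hRHB K hK n b y hb.ind).2
  have hGG : Real.exp (GG K y) = Real.exp (y * n) / Real.sqrt (gd fun i => ev (b i)) := by
    unfold GG psi
    rw [hDt] at hDt1 ⊢
    rw [MABM.exp_psi hDt1, ← hn]
    rfl
  have hnn : nn K y = n := hn.symm
  have hA : rh y (lat (HV K y)) ≤ C ^ nn K y * Real.exp (GG K y) := by
    rw [MABM.lat_eq hb, hrh, hGT, hnn, ← hGG, mul_comm]
    exact mul_le_mul_of_nonneg_right hth (Real.exp_pos _).le
  refine ⟨hA, ?_⟩
  intro N t hN ht
  have h1 := ((hMAA K hK y).1 N).2.2.1 t ht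
  have h2 := (hMAA K hK y).2 N (HV K y) hN
  have h3 := ((hMAA K hK (y + t)).1 (HV K y)).1
  have hr : nn K y ≤ finrank ℚ K := Submodule.finrank_le _
  have hCr : C ^ nn K y ≤ C ^ finrank ℚ K := pow_le_pow_right₀ hC hr
  have hpsi : -psi (y + t) (HV K y) = GG K y + t * nn K y := by
    unfold GG psi nn
    ring
  rw [hpsi] at h3
  calc rh (y + t) (lat N) ≤ Real.exp (t * finrank ℚ N) * rh y (lat N) := h1
    _ ≤ Real.exp (t * finrank ℚ N) * (C ^ finrank ℚ K * Real.exp (GG K y)) := by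
        apply mul_le_mul_of_nonneg_left _ (Real.exp_pos _).le
        refine (h2.trans hA).trans ?_
        exact mul_le_mul_of_nonneg_right hCr (Real.exp_pos _).le
    _ = C ^ finrank ℚ K * Real.exp (-t * ((nn K y : ℝ) - finrank ℚ N)) *
          Real.exp (GG K y + t * nn K y) := by
        have h4 : Real.exp (-t * ((nn K y : ℝ) - finrank ℚ N)) * Real.exp (GG K y + t * nn K y)
            = Real.exp (t * finrank ℚ N) * Real.exp (GG K y) := by
          rw [← Real.exp_add, ← Real.exp_add]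
          congr 1
          ring
        rw [mul_assoc, h4]
        ring
    _ ≤ C ^ finrank ℚ K * Real.exp (-t * ((nn K y : ℝ) - finrank ℚ N)) *
          rh (y + t) (lat (HV K y)) := by
        apply mul_le_mul_of_nonneg_left h3
        have h5 : 0 ≤ C ^ finrank ℚ K := pow_nonneg (by linarith) _
        positivity

end Pool.Agent.Lib.MPcb8a44.RC
end

section
/-!
# MAC: the total mass
-/
set_option autoImplicit false

open NumberField Module

namespace Pool.Agent.Lib.MPcb8a44.RC

namespace MACM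

section

variable {K : Type} [Field K] [NumberField K]

theorem lat_eq_span {A : Submodule ℚ K} {n : ℕ} {b : Fin n → K} (hb : IB A b) :
    lat A = Submodule.span ℤ (Set.range b) := by
  apply le_antisymm
  · exact fun x hx => hb.gen x hx
  · rw [Submodule.span_le]
    rintro _ ⟨i, rfl⟩
    exact hb.mem i

theorem ev_append {m k : ℕ} (c : Fin m → K) (e : Fin k → K) :
    (fun i => ev (Fin.append c e i)) = Fin.append (fun i => ev (c i)) (fun i => ev (e i)) := by
  funext i
  refine Fin.addCases (fun j => ?_) (fun j => ?_) i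
  · rw [Fin.append_left, Fin.append_left]
  · rw [Fin.append_right, Fin.append_right]

end

end MACM

open MACM in
theorem specMAC (hEVB : SpecEVB) (hLTB : SpecLTB) (hMAB : SpecMAB) (hRHB : SpecRHB)
    (hGSP : SpecGSP) (hPJE : SpecPJE) (hRMC : SpecRMC) (hHUL : SpecHUL) (hGRA : SpecGRA) :
    SpecMAC := by
  intro C hC hR K _ _ hK y
  obtain ⟨hL1, hL2, hL3, hL4⟩ := hLTB K hK
  obtain ⟨hE1, -⟩ := hEVB K hK
  obtain ⟨-, -, -, -, hH5, -⟩ := hHUL K hK y
  set V := HV K y with hV
  obtain ⟨n, c, hc⟩ := hL2 V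
  obtain ⟨k, e, hce⟩ := hL1 V ⊤ le_top n c hc
  obtain ⟨hn, hcs, hDV, hDV1⟩ := hL3 V n c hc
  obtain ⟨hnk, -, -, -⟩ := hL3 ⊤ (n + k) _ hce
  have hnk' : n + k = finrank ℚ K := by rw [hnk, finrank_top]
  have hindR : LinearIndependent ℝ (fun i => ev (Fin.append c e i)) :=
    (hE1 _ _).1.1 hce.ind
  have hindcR : LinearIndependent ℝ (fun i => ev (c i)) := (hE1 _ _).1.1 hc.ind
  obtain ⟨⟨e', he'⟩, hP⟩ := hPJE (EK K) n k (fun i => ev (c i)) (fun i => ev (e i))
  obtain ⟨-, hPind, -, -⟩ := hP e' he'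
  rw [ev_append] at hindR
  have he'ind : LinearIndependent ℝ e' := hPind hindR
  -- the total mass
  have h1 : rh y (lat (⊤ : Submodule ℚ K)) = th y (Fin.append (fun i => ev (c i)) fun i => ev (e i)) := by
    rw [lat_eq_span hce, (hRHB K hK (n + k) _ y hce.ind).2, ev_append]
  have h2 := hGSP (EK K) n k (fun i => ev (c i)) (fun i => ev (e i)) e' y hindR he'
  have h3 : th y (fun i => ev (c i)) ≤ C ^ n * Real.exp (GG K y) := by
    have h4 := (hMAB C hC hR K hK y).1
    rw [← hV, lat_eq_span hc, (hRHB K hK n c y hc.ind).2] at h4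
    have h5 : nn K y = n := hn.symm
    rw [h5] at h4
    exact h4
  -- the stability of the quotient
  have hSD : SD y e' := by
    intro m f hf hfind
    have hx : ∀ i, ∃ x : Fin k → ℤ, f i = ∑ j, x j • e' j := by
      intro i
      obtain ⟨x, hx⟩ := (Submodule.mem_span_range_iff_exists_fun ℤ).1 (hf i)
      exact ⟨x, hx.symm⟩
    choose x hx using hx
    set g : Fin m → K := fun i => ∑ j, x i j • e j with hg
    have hgev : ∀ i, ev (g i) = ∑ j, x i j • ev (e j) := by
      intro i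
      rw [hg]
      simp only
      rw [ev_sum]
      refine Finset.sum_congr rfl fun j _ => ?_
      rw [ev_int, Int.cast_smul_eq_zsmul]
    have hPJ : PJ (fun i => ev (c i)) (fun i => ev (g i)) f := by
      intro i
      constructor
      · show ev (g i) - f i ∈ Rs fun i => ev (c i)
        rw [hgev, hx, ← Finset.sum_sub_distrib]
        refine Submodule.sum_mem _ fun j _ => ?_
        rw [← smul_sub, ← Int.cast_smul_eq_zsmul ℝ]
        exact Submodule.smul_mem _ _ (he' j).1
      · intro w hw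
        rw [hx, inner_sum]
        refine Finset.sum_eq_zero fun j _ => ?_
        rw [← Int.cast_smul_eq_zsmul ℝ, inner_smul_right, (he' j).2 w hw, mul_zero]
    obtain ⟨-, hP2⟩ := hPJE (EK K) n m (fun i => ev (c i)) (fun i => ev (g i))
    obtain ⟨hgd, -, -, -⟩ := hP2 f hPJ
    have hcpos : 0 < gd (fun i => ev (c i)) := (hGRA (EK K) n _).2.1.1 hindcR
    have hfpos : 0 < gd f := (hGRA (EK K) m _).2.1.1 hfind
    have hindg : LinearIndependent ℚ (Fin.append c g) := by
      refine (hE1 _ _).1.2 ?_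
      rw [ev_append]
      refine (hGRA (EK K) (n + m) _).2.1.2 ?_
      rw [hgd]
      exact mul_pos hcpos hfpos
    set N : Submodule ℚ K := Submodule.span ℚ (Set.range (Fin.append c g)) with hN
    have hNdim : n + m = finrank ℚ N := by
      rw [hN, finrank_span_eq_card hindg, Fintype.card_fin]
    have hmemN : ∀ i, Fin.append c g i ∈ lat N := by
      intro i
      refine ⟨Submodule.subset_span ⟨i, rfl⟩, ?_⟩
      refine Fin.addCases (fun j => ?_) (fun j => ?_) i
      · rw [Fin.append_left]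
        exact (hc.mem j).2
      · rw [Fin.append_right]
        have h6 : ∀ l, e l ∈ lat (⊤ : Submodule ℚ K) := by
          intro l
          have := hce.mem (Fin.natAdd n l)
          rwa [Fin.append_right] at this
        have h7 : g j ∈ lat (⊤ : Submodule ℚ K) := by
          rw [hg]
          exact Submodule.sum_mem _ fun l _ => Submodule.smul_mem _ _ (h6 l)
        exact h7.2
    have hDN := hL4 N (n + m) _ hmemN hindg hNdim
    have hgk : gk (Fin.append c g) = Dt V * gd f := by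
      unfold gk
      rw [ev_append, hgd, hDV]
      rfl
    rw [hgk] at hDN
    have hDN1 : 1 ≤ Dt N := by
      obtain ⟨n', b', hb'⟩ := hL2 N
      exact (hL3 N n' b' hb').2.2.2
    have hpsi := hH5 N
    unfold psi at hpsi
    rw [← hn, ← hNdim] at hpsi
    have hlog : Real.log (Dt V) + 2 * y * m ≤ Real.log (Dt N) := by
      push_cast at hpsi
      linarith
    have hDVpos : 0 < Dt V := by linarith
    have hDNpos : 0 < Dt N := by linarith
    have h8 : Dt V * Real.exp (2 * y * m) ≤ Dt N := by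
      have := Real.exp_le_exp.2 hlog
      rw [Real.exp_add, Real.exp_log hDVpos, Real.exp_log hDNpos] at this
      exact this
    have h9 : Dt V * Real.exp (2 * y * m) ≤ Dt V * gd f := h8.trans hDN
    exact le_of_mul_le_mul_left h9 hDVpos
  have h5 : th y e' ≤ C ^ k :=
    hRMC C hR (EK K) k k e' e' y hSD (fun i => Submodule.subset_span ⟨i, rfl⟩) he'ind
  have hth0 : 0 ≤ th y e' := tsum_nonneg fun x => (Real.exp_pos _).le
  rw [h1]
  calc th y (Fin.append (fun i => ev (c i)) fun i => ev (e i))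
      ≤ th y (fun i => ev (c i)) * th y e' := h2
    _ ≤ (C ^ n * Real.exp (GG K y)) * C ^ k := mul_le_mul h3 h5 hth0 (by positivity)
    _ = C ^ finrank ℚ K * Real.exp (GG K y) := by
        rw [← hnk', pow_add]
        ring

end Pool.Agent.Lib.MPcb8a44.RC
end

section
/-!
# Theorem RC, module PFU (helper68)

If the hulls at the scales `y` and `y'` together have dimension much larger than `d`, the hull at
`y + y' + T` is everything.
-/
set_option autoImplicit false

open NumberField Module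

namespace Pool.Agent.Lib.MPcb8a44.RC

theorem specPFU (hXSP : SpecXSP) (hPRF : SpecPRF) (hHMU : SpecHMU) : SpecPFU := by
  intro C hC hR K _ _ hK y y' T hT h
  obtain ⟨-, h1⟩ := hXSP C hC hR K hK y T hT.le
  have h2 := (hHMU K hK).2 (HV K y) (y + T) y'
  set X := Submodule.span ℚ (Bh (HV K y) (Real.exp (y + T))) with hX
  have h3 : (nn K y : ℝ) - finrank ℚ X ≤ (5 + Real.log C) / T * finrank ℚ K := by
    have h4 : (5 + Real.log C) / T * finrank ℚ K = (5 + Real.log C) * finrank ℚ K / T := by ring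
    rw [h4, le_div_iff₀ hT]
    linarith
  have h5 : (finrank ℚ K : ℝ) < finrank ℚ X + finrank ℚ (HV K y') := by
    have h6 : (finrank ℚ K : ℝ) * (1 + (5 + Real.log C) / T) =
        finrank ℚ K + (5 + Real.log C) / T * finrank ℚ K := by ring
    rw [h6] at h
    have h7 : (nn K y' : ℝ) = finrank ℚ (HV K y') := rfl
    linarith
  have h8 : finrank ℚ K < finrank ℚ X + finrank ℚ (HV K y') := by exact_mod_cast h5
  have h9 := hPRF K X (HV K y') h8
  rw [h9] at h2
  have h10 : y' + (y + T) = y + y' + T := by ring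
  rw [h10] at h2
  exact top_le_iff.1 h2

end Pool.Agent.Lib.MPcb8a44.RC
end

section
/-!
# PRF: products of large subspaces
-/
set_option autoImplicit false

open NumberField Module

namespace Pool.Agent.Lib.MPcb8a44.RC

namespace PRFM

variable {K : Type} [Field K] [NumberField K]

/-- a proper subspace is orthogonal to a nonzero element for the trace form -/
theorem exists_orth {W : Submodule ℚ K} (hW : W ≠ ⊤) :
    ∃ q : K, q ≠ 0 ∧ ∀ w ∈ W, Algebra.trace ℚ K (q * w) = 0 := by
  have hlt : W < ⊤ := lt_top_iff_ne_top.2 hW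
  obtain ⟨x, -, hx⟩ := SetLike.exists_of_lt hlt
  obtain ⟨f, hf1, hf2⟩ := Submodule.exists_dual_map_eq_bot_of_notMem hx inferInstance
  have hnd := traceForm_nondegenerate ℚ K
  let e := LinearMap.BilinForm.toDual (Algebra.traceForm ℚ K) hnd
  refine ⟨e.symm f, ?_, ?_⟩
  · intro h0
    have : f = 0 := by
      have := congrArg e h0
      rwa [LinearEquiv.apply_symm_apply, map_zero] at this
    rw [this] at hf1
    exact hf1 rfl
  · intro w hw
    have h1 : Algebra.traceForm ℚ K (e.symm f) w = f w := by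
      have h2 : e (e.symm f) w = f w := by rw [LinearEquiv.apply_symm_apply]
      rwa [LinearMap.BilinForm.toDual_def] at h2
    rw [Algebra.traceForm_apply] at h1
    rw [h1]
    have h3 : f w ∈ W.map f := Submodule.mem_map_of_mem hw
    rw [hf2] at h3
    exact (Submodule.mem_bot ℚ).1 h3

end PRFM

/-- PRF -/
theorem specPRF : SpecPRF := by
  intro K _ _ X V hd
  by_contra hne
  obtain ⟨q, hq, hort⟩ := PRFM.exists_orth hne
  have hnd := traceForm_nondegenerate ℚ K
  have h1 : (sc q X) ≤ (LinearMap.BilinForm.orthogonal (Algebra.traceForm ℚ K) V) := by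
    intro z hz
    obtain ⟨x, hx, rfl⟩ := mem_sc.1 hz
    rw [LinearMap.BilinForm.mem_orthogonal_iff]
    intro v hv
    change Algebra.traceForm ℚ K v (q * x) = 0
    rw [Algebra.traceForm_apply]
    have := hort (x * v) (Submodule.mul_mem_mul hx hv)
    rw [← this]
    congr 1
    ring
  have h2 : finrank ℚ (sc q X) = finrank ℚ X := by
    have hinj : Function.Injective (LinearMap.mulLeft ℚ q) := by
      intro a b hab
      exact mul_left_cancel₀ hq hab
    exact (Submodule.equivMapOfInjective _ hinj X).symm.finrank_eq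
  have h3 := LinearMap.BilinForm.finrank_orthogonal (B := Algebra.traceForm ℚ K) hnd V
  have h4 := Submodule.finrank_mono h1
  have h5 := Submodule.finrank_le V
  omega

end Pool.Agent.Lib.MPcb8a44.RC
end

section
/-!
# QDE: a sublattice of finite index with small quotients makes the subspace dense
-/
set_option autoImplicit false

open NumberField Module

namespace Pool.Agent.Lib.MPcb8a44.RC

namespace QDEM

variable {K : Type} [Field K] [NumberField K]

lemma one_le_Dt (hLTB : SpecLTB) (hK : RD.TR K) (A : Submodule ℚ K) : 1 ≤ Dt A := by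
  obtain ⟨-, h2, h3, -⟩ := hLTB K hK
  obtain ⟨n, b, hb⟩ := h2 A
  exact (h3 A n b hb).2.2.2

lemma exists_int_mul {n : ℕ} (b : Fin n → K) {x : K} (hx : x ∈ Submodule.span ℚ (Set.range b)) :
    ∃ D : ℤ, D ≠ 0 ∧ D • x ∈ Submodule.span ℤ (Set.range b) := by
  obtain ⟨c, rfl⟩ := (Submodule.mem_span_range_iff_exists_fun ℚ).1 hx
  refine ⟨∏ j, ((c j).den : ℤ), Finset.prod_ne_zero_iff.2 fun j _ => by
    exact_mod_cast (c j).den_nz, ?_⟩
  rw [Finset.smul_sum]
  refine Submodule.sum_mem _ fun j _ => ?_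
  have h1 : (∏ j, ((c j).den : ℤ)) • c j • b j =
      ((∏ i ∈ Finset.univ.erase j, ((c i).den : ℤ)) * (c j).num) • b j := by
    rw [← Finset.mul_prod_erase Finset.univ _ (Finset.mem_univ j), mul_comm ((c j).den : ℤ),
      mul_smul, mul_smul]
    congr 1
    rw [← Int.cast_smul_eq_zsmul ℚ, ← Int.cast_smul_eq_zsmul ℚ, smul_smul]
    congr 1
    have := Rat.mul_den_eq_num (c j)
    push_cast
    rw [mul_comm, this]
  rw [h1]
  exact Submodule.smul_mem _ _ (Submodule.subset_span ⟨j, rfl⟩)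

lemma Zs_le_Rs {E : Type} [NormedAddCommGroup E] [InnerProductSpace ℝ E] {n : ℕ} (b : Fin n → E)
    {x : E} (hx : x ∈ Zs b) : x ∈ Rs b := by
  obtain ⟨k, rfl⟩ := (Submodule.mem_span_range_iff_exists_fun ℤ).1 hx
  refine Submodule.sum_mem _ fun i _ => ?_
  rw [← Int.cast_smul_eq_zsmul ℝ]
  exact Submodule.smul_mem _ _ (Submodule.subset_span ⟨i, rfl⟩)

/-- components of integral combinations -/
lemma comp_mem {E : Type} [NormedAddCommGroup E] [InnerProductSpace ℝ E] {m k l : ℕ}
    (c : Fin m → E) (q q' : Fin k → E) (c₂ : Fin l → E) {e e' : E} (hR : Rs c₂ = Rs c)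
    (hq : PJ c q q') (he : e - e' ∈ Rs c₂) (he' : ∀ w ∈ Rs c₂, inner ℝ w e' = 0)
    (hm : e ∈ Zs (Fin.append c q)) : e' ∈ Zs q' := by
  obtain ⟨x, hx⟩ := (Submodule.mem_span_range_iff_exists_fun ℤ).1 hm
  rw [Fin.sum_univ_add] at hx
  simp only [Fin.append_left, Fin.append_right] at hx
  rw [hR] at he he'
  have h1 : e' - ∑ i, x (Fin.natAdd m i) • q' i ∈ Rs c := by
    have : e' - ∑ i, x (Fin.natAdd m i) • q' i =
        ∑ i, x (Fin.castAdd k i) • c i + ∑ i, x (Fin.natAdd m i) • (q i - q' i) - (e - e') := by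
      rw [← hx]
      simp only [smul_sub, Finset.sum_sub_distrib]
      abel
    rw [this]
    refine Submodule.sub_mem _ (Submodule.add_mem _ (Submodule.sum_mem _ fun i _ => ?_)
      (Submodule.sum_mem _ fun i _ => ?_)) he
    · rw [← Int.cast_smul_eq_zsmul ℝ]
      exact Submodule.smul_mem _ _ (Submodule.subset_span ⟨i, rfl⟩)
    · rw [← Int.cast_smul_eq_zsmul ℝ]
      exact Submodule.smul_mem _ _ (hq i).1
  have h2 : ∀ w ∈ Rs c, inner ℝ w (e' - ∑ i, x (Fin.natAdd m i) • q' i) = 0 := by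
    intro w hw
    rw [inner_sub_right, he' w hw, inner_sum, Finset.sum_eq_zero, sub_zero]
    intro i _
    rw [← Int.cast_smul_eq_zsmul ℝ, inner_smul_right, (hq i).2 w hw, mul_zero]
  have h3 : e' - ∑ i, x (Fin.natAdd m i) • q' i = 0 := inner_self_eq_zero.1 (h2 _ h1)
  rw [sub_eq_zero.1 h3]
  exact Submodule.sum_mem _ fun i _ => Submodule.smul_mem _ _ (Submodule.subset_span ⟨i, rfl⟩)

lemma ev_append {m k : ℕ} (p : Fin m → K) (q : Fin k → K) :
    (fun i => ev (Fin.append p q i)) = Fin.append (fun i => ev (p i)) (fun i => ev (q i)) := by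
  funext i
  refine Fin.addCases (fun j => ?_) (fun j => ?_) i
  · simp
  · simp

end QDEM

open QDEM in
theorem specQDE (hEVB : SpecEVB) (hLTB : SpecLTB) (hADP : SpecADP) (hPJE : SpecPJE)
    (hZIX : SpecZIX) : SpecQDE := by
  intro K _ _ hK A n b y hbA hbi hn hQ N hNA
  have hone := one_le_Dt hLTB hK
  obtain ⟨hE, -⟩ := hEVB K hK
  obtain ⟨hL1, hL2, hL3, hL4⟩ := hLTB K hK
  obtain ⟨r, p, hp⟩ := hL2 N
  obtain ⟨k, q, hq⟩ := hL1 N A hNA r p hp
  obtain ⟨hr, hpN, hDN, -⟩ := hL3 N r p hp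
  obtain ⟨hrk, -, hDA, -⟩ := hL3 A _ _ hq
  have hbR : LinearIndependent ℝ fun i => ev (b i) := (hE n b).1.1 hbi
  obtain ⟨m, k', c, e, hmk, hce, hZ, hS⟩ := hADP (EK K) n (fun i => ev (b i)) hbR
    (Rs fun i => ev (p i))
  have hcZ : ∀ i, c i ∈ Zs fun i => ev (b i) := by
    intro i
    rw [← hZ]
    refine Submodule.subset_span ⟨Fin.castAdd k' i, ?_⟩
    simp
  have heZ : ∀ i, e i ∈ Zs fun i => ev (b i) := by
    intro i
    rw [← hZ]
    refine Submodule.subset_span ⟨Fin.natAdd m i, ?_⟩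
    simp
  have hcci : LinearIndependent ℝ c := by
    have := hce.comp (Fin.castAdd k') (Fin.castAdd_injective m k')
    have h2 : Fin.append c e ∘ Fin.castAdd k' = c := by
      funext i
      simp
    rwa [h2] at this
  -- the span of `b` over the rationals
  have hbspan : Submodule.span ℚ (Set.range b) = A := by
    apply Submodule.eq_of_le_of_finrank_eq
    · rw [Submodule.span_le]
      rintro _ ⟨i, rfl⟩
      exact (hbA i).1
    · rw [finrank_span_eq_card hbi, Fintype.card_fin, hn]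
  -- the two real spans agree
  have hRc : Rs c = Rs fun i => ev (p i) := by
    apply le_antisymm
    · rw [Submodule.span_le]
      rintro _ ⟨i, rfl⟩
      exact (hS _ (hcZ i)).2 (Submodule.subset_span ⟨i, rfl⟩)
    · rw [Submodule.span_le]
      rintro _ ⟨i, rfl⟩
      have h1 : p i ∈ Submodule.span ℚ (Set.range b) := by
        rw [hbspan]
        exact hNA (hp.mem i).1
      obtain ⟨D, hD, hD2⟩ := exists_int_mul b h1
      have h2 : ev (D • p i) ∈ Zs fun i => ev (b i) := ((hE n b).2.2.1 _).2 hD2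
      have h3 : ev (D • p i) ∈ Rs fun i => ev (p i) := by
        rw [ev_int]
        exact Submodule.smul_mem _ _ (Submodule.subset_span ⟨i, rfl⟩)
      have h4 : ev (D • p i) ∈ Rs c := Zs_le_Rs c ((hS _ h2).1 h3)
      rw [ev_int] at h4
      have h5 : ((D : ℝ))⁻¹ • ((D : ℝ) • ev (p i)) ∈ Rs c := Submodule.smul_mem _ _ h4
      rwa [smul_smul, inv_mul_cancel₀ (by exact_mod_cast hD), one_smul] at h5
  have hmr : m = r := by
    have h1 : finrank ℝ (Rs c) = m := by rw [finrank_span_eq_card hcci, Fintype.card_fin]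
    have h2 : finrank ℝ (Rs fun i => ev (p i)) = r := by
      rw [finrank_span_eq_card ((hE r p).1.1 hp.ind), Fintype.card_fin]
    rw [← h1, ← h2, hRc]
  subst hmr
  have hkk : k' = k := by omega
  subst hkk
  subst hmk
  obtain ⟨⟨q', hq'⟩, hq2⟩ := hPJE (EK K) m k' (fun i => ev (p i)) (fun i => ev (q i))
  obtain ⟨⟨e', he'⟩, he2⟩ := hPJE (EK K) m k' c e
  obtain ⟨g1, -, -, -⟩ := hq2 q' hq'
  obtain ⟨g2, g3, -, -⟩ := he2 e' he'
  have hbq : ∀ i, b i ∈ Submodule.span ℤ (Set.range (Fin.append p q)) := fun i => hq.gen _ (hbA i)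
  have hZle : Zs (fun i => ev (b i)) ≤ Zs (Fin.append (fun i => ev (p i)) (fun i => ev (q i))) := by
    rw [← ev_append, Submodule.span_le]
    rintro _ ⟨i, rfl⟩
    exact ((hE _ _).2.2.1 _).2 (hbq i)
  have he'q : ∀ i, e' i ∈ Zs q' := fun i =>
    comp_mem (fun i => ev (p i)) (fun i => ev (q i)) q' c hRc hq' (he' i).1 (he' i).2
      (hZle (heZ i))
  obtain ⟨z1, -, -⟩ := hZIX (EK K) k' q' e' (g3 hce) he'q
  obtain ⟨-, -, z2⟩ := hZIX (EK K) (m + k') (Fin.append c e) (fun i => ev (b i)) hbR (by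
    intro i
    rw [hZ]
    exact Submodule.subset_span ⟨i, rfl⟩)
  have z3 := z2 hZ
  have q1 := hQ m c hcZ hcci
  have hcpos : 0 < gd c := by
    have h1 : gk b ≠ 0 := by
      have h2 : 1 ≤ gk b := (hone A).trans (hL4 A _ b hbA hbi hn)
      linarith
    have h2 : gd c * gd e' ≠ 0 := by
      rw [← g2, z3]
      exact h1
    have h3 : gd c ≠ 0 := left_ne_zero_of_mul h2
    have h4 : 0 ≤ gd c := by
      have h5 := Matrix.posSemidef_gram ℝ c
      exact h5.det_nonneg
    exact lt_of_le_of_ne h4 h3.symm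
  have w1 : gd e' ≤ Real.exp (2 * y * (((m + k' : ℕ) : ℝ) - m)) := by
    rw [← z3, g2, mul_comm (gd c)] at q1
    exact le_of_mul_le_mul_right q1 hcpos
  have w2 : Dt A = Dt N * gd q' := by
    rw [hDA, hDN]
    unfold gk
    rw [ev_append, g1]
  have w3 : Dt A ≤ Dt N * Real.exp (2 * y * (((m + k' : ℕ) : ℝ) - m)) := by
    rw [w2]
    exact mul_le_mul_of_nonneg_left (z1.trans w1) (by linarith [hone N])
  have w4 : Real.log (Dt A) ≤ Real.log (Dt N) + 2 * y * (((m + k' : ℕ) : ℝ) - m) := by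
    have h1 := Real.log_le_log (by linarith [hone A]) w3
    rwa [Real.log_mul (by linarith [hone N]) (Real.exp_pos _).ne', Real.log_exp] at h1
  unfold psi
  rw [← hn, ← hr]
  linarith

end Pool.Agent.Lib.MPcb8a44.RC
end

section
/-!
# QDM: quotient densities and linear maps
-/
open NumberField Module

namespace Pool.Agent.Lib.MPcb8a44.RC

namespace QDMM

variable {E : Type} [NormedAddCommGroup E] [InnerProductSpace ℝ E]

theorem zs_le_rs {n : ℕ} (b : Fin n → E) {x : E} (hx : x ∈ Zs b) : x ∈ Rs b := by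
  obtain ⟨u, hu⟩ := (Submodule.mem_span_range_iff_exists_fun ℤ).1 hx
  rw [← hu]
  refine Submodule.sum_mem _ (fun i _ => ?_)
  rw [← Int.cast_smul_eq_zsmul ℝ]
  exact Submodule.smul_mem _ _ (Submodule.subset_span ⟨i, rfl⟩)

end QDMM

open QDMM in
theorem specQDM (hGRA : SpecGRA) (hGDM : SpecGDM) (hADP : SpecADP) (hZIX : SpecZIX) :
    SpecQDM := by
  intro E E' _ _ _ _ T a y n b hT hb hQ m c' hc' hind'
  have hex : ∀ i, ∃ x ∈ Zs b, T x = c' i := by
    intro i
    have h1 : Zs (fun i => T (b i)) = (Zs b).map (T.restrictScalars ℤ) := by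
      rw [Submodule.map_span, ← Set.range_comp]
      rfl
    have h2 := hc' i
    rw [h1] at h2
    exact h2
  choose c hc hTc using hex
  have hTc' : (fun i => T (c i)) = c' := funext hTc
  have hind : LinearIndependent ℝ c := by
    apply LinearIndependent.of_comp T
    have : (T ∘ c : Fin m → E') = c' := hTc'
    rw [this]
    exact hind'
  obtain ⟨m₁, k, c₁, e, hmk, hap, hZ, hS⟩ := hADP E n b hb (Rs c)
  have hind₁ : LinearIndependent ℝ c₁ := by
    have h3 := hap.comp (Fin.castAdd k) (Fin.castAdd_injective m₁ k)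
    have h4 : Fin.append c₁ e ∘ Fin.castAdd k = c₁ := by
      funext i
      exact Fin.append_left c₁ e i
    rwa [h4] at h3
  have hcc₁ : ∀ i, c i ∈ Zs c₁ := fun i =>
    (hS (c i) (hc i)).1 (Submodule.subset_span ⟨i, rfl⟩)
  have hc₁b : ∀ i, c₁ i ∈ Zs b := by
    intro i
    rw [← hZ]
    exact Submodule.subset_span ⟨Fin.castAdd k i, Fin.append_left c₁ e i⟩
  have hRs : Rs c = Rs c₁ := by
    apply le_antisymm
    · rw [Submodule.span_le]
      rintro x ⟨i, rfl⟩
      exact zs_le_rs c₁ (hcc₁ i)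
    · rw [Submodule.span_le]
      rintro x ⟨i, rfl⟩
      exact (hS (c₁ i) (hc₁b i)).2 (Submodule.subset_span ⟨i, rfl⟩)
  have hmm : m = m₁ := by
    have h1 := finrank_span_eq_card hind
    have h2 := finrank_span_eq_card hind₁
    rw [Fintype.card_fin] at h1 h2
    have h3 : finrank ℝ (Rs c) = finrank ℝ (Rs c₁) := by rw [hRs]
    rw [← h1, ← h2]
    exact h3
  subst hmm
  subst hmk
  -- matrices
  have hP : ∀ i, ∃ p : Fin m → ℝ, ∑ j, p j • c₁ j = c i := fun i =>
    (Submodule.mem_span_range_iff_exists_fun ℝ).1 (zs_le_rs c₁ (hcc₁ i))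
  choose P hP using hP
  have hgc : gd c = (Matrix.of P).det ^ 2 * gd c₁ := by
    rw [← (hGRA E m c₁).2.2.2 (Matrix.of P)]
    congr 1
    funext i
    exact (hP i).symm
  have hgTc : gd c' = (Matrix.of P).det ^ 2 * gd (fun i => T (c₁ i)) := by
    rw [← (hGRA E' m (fun i => T (c₁ i))).2.2.2 (Matrix.of P)]
    congr 1
    funext i
    rw [← hTc i, ← hP i, map_sum]
    refine Finset.sum_congr rfl (fun j _ => ?_)
    rw [map_smul]
    rfl
  have hU : ∀ i, ∃ p : Fin (m + k) → ℝ, ∑ j, p j • Fin.append c₁ e j = b i := by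
    intro i
    apply (Submodule.mem_span_range_iff_exists_fun ℝ).1
    apply zs_le_rs
    rw [hZ]
    exact Submodule.subset_span ⟨i, rfl⟩
  choose U hU using hU
  have hgb : gd b = (Matrix.of U).det ^ 2 * gd (Fin.append c₁ e) := by
    rw [← (hGRA E (m + k) (Fin.append c₁ e)).2.2.2 (Matrix.of U)]
    congr 1
    funext i
    exact (hU i).symm
  have hgTb : gd (fun i => T (b i)) =
      (Matrix.of U).det ^ 2 * gd (fun i => T (Fin.append c₁ e i)) := by
    rw [← (hGRA E' (m + k) (fun i => T (Fin.append c₁ e i))).2.2.2 (Matrix.of U)]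
    congr 1
    funext i
    rw [← hU i, map_sum]
    refine Finset.sum_congr rfl (fun j _ => ?_)
    rw [map_smul]
    rfl
  have hgap : gd (Fin.append c₁ e) = gd b := by
    refine (hZIX E (m + k) (Fin.append c₁ e) b hb (fun i => ?_)).2.2 hZ
    rw [hZ]
    exact Submodule.subset_span ⟨i, rfl⟩
  have hgbpos : 0 < gd b := (hGRA E (m + k) b).2.1.1 hb
  have hdetU : (Matrix.of U).det ^ 2 = 1 := by
    rw [hgap] at hgb
    have h1 : (Matrix.of U).det ^ 2 * gd b = 1 * gd b := by rw [one_mul]; exact hgb.symm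
    exact mul_right_cancel₀ hgbpos.ne' h1
  rw [hdetU, one_mul] at hgTb
  have hgdm := hGDM.2 E E' T (Real.exp a) (Real.exp_pos a).le hT m k c₁ e
  rw [← hgTb, hgap] at hgdm
  have hq := hQ m c hc hind
  have hc₁pos : 0 < gd c₁ := (hGRA E m c₁).2.1.1 hind₁
  have hTc₁ : 0 ≤ gd (fun i => T (c₁ i)) := (hGRA E' m _).1
  have hk : ((m + k : ℕ) : ℝ) - m = k := by push_cast; ring
  rw [hk] at hq ⊢
  have hexp : Real.exp a ^ (2 * k) = Real.exp (2 * a * k) := by
    rw [← Real.exp_nat_mul]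
    congr 1
    push_cast
    ring
  rw [hexp] at hgdm
  refine le_of_mul_le_mul_right ?_ hc₁pos
  calc gd (fun i => T (b i)) * gd c₁
      ≤ Real.exp (2 * a * k) * (gd (fun i => T (c₁ i)) * gd b) := hgdm
    _ ≤ Real.exp (2 * a * k) * (gd (fun i => T (c₁ i)) * (Real.exp (2 * y * k) * gd c)) := by
        apply mul_le_mul_of_nonneg_left _ (Real.exp_pos _).le
        exact mul_le_mul_of_nonneg_left hq hTc₁
    _ = Real.exp (2 * (y + a) * k) * gd c' * gd c₁ := by
        rw [hgc, hgTc]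
        have : Real.exp (2 * (y + a) * k) = Real.exp (2 * a * k) * Real.exp (2 * y * k) := by
          rw [← Real.exp_add]
          congr 1
          ring
        rw [this]
        ring

end Pool.Agent.Lib.MPcb8a44.RC
end

section
/-!
# Theorem RC, module RHB: Gaussian sums over lattices of `K` (from EVB, GSM)
-/
set_option autoImplicit false

open NumberField Module

namespace Pool.Agent.Lib.MPcb8a44.RC

namespace RHBM

variable {K : Type} [Field K] [NumberField K]

/-- Integer coordinates on the lattice spanned by an independent tuple. -/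
lemma exists_equiv {n : ℕ} (b : Fin n → K) (hb : LinearIndependent ℚ b) :
    ∃ e : (Fin n → ℤ) ≃ (Submodule.span ℤ (Set.range b) : Submodule ℤ K),
      ∀ x, ((e x : (Submodule.span ℤ (Set.range b) : Submodule ℤ K)) : K) = ∑ i, x i • b i := by
  have hb' : LinearIndependent ℤ b := by
    rw [Fintype.linearIndependent_iff] at hb ⊢
    intro g hg i
    have h1 : ∑ i, ((g i : ℤ) : ℚ) • b i = 0 := by
      rw [← hg]
      exact Finset.sum_congr rfl fun j _ => Int.cast_smul_eq_zsmul ℚ _ _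
    exact_mod_cast hb (fun i => ((g i : ℤ) : ℚ)) h1 i
  let B := Basis.span hb'
  refine ⟨B.equivFun.symm.toEquiv, fun x => ?_⟩
  have h2 : B.equivFun.symm.toEquiv x = ∑ i, x i • B i := Basis.equivFun_symm_apply B x
  rw [h2, AddSubmonoidClass.coe_finsetSum]
  refine Finset.sum_congr rfl fun i _ => ?_
  rw [Submodule.coe_smul]
  congr 1
  exact congrArg Subtype.val (Basis.span_apply hb' i)

end RHBM

theorem specRHB (hEVB : SpecEVB) (hGSM : SpecGSM) : SpecRHB := by
  intro K _ _ hK n b z hb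
  obtain ⟨e, he⟩ := RHBM.exists_equiv b hb
  have h1 : ∀ x, ev ((e x : (Submodule.span ℤ (Set.range b) : Submodule ℤ K)) : K) =
      zc (fun i => ev (b i)) x := fun x => by
    rw [he, ((hEVB K hK).1 n b).2.2.2 x]
  have h2 := hGSM (EK K) n (fun i => ev (b i)) (Real.pi * Real.exp (-2 * z)) 0
    (((hEVB K hK).1 n b).1.1 hb) (by positivity)
  constructor
  · rw [← e.summable_iff]
    refine h2.congr fun x => ?_
    simp only [Function.comp_apply, h1, zero_add]
  · rw [rh, th, ← e.tsum_eq]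
    simp only [h1]

end Pool.Agent.Lib.MPcb8a44.RC
end

section
/-!
# Theorem RC, block H, module SBM: submodularity of the covolume
-/
set_option autoImplicit false

open NumberField Module

namespace Pool.Agent.Lib.MPcb8a44.RC

namespace SBMM

theorem comp_append {α β : Type} {m n : ℕ} (g : α → β) (a : Fin m → α) (b : Fin n → α) :
    (fun i => g (Fin.append a b i)) = Fin.append (fun i => g (a i)) (fun i => g (b i)) := by
  funext i
  refine Fin.addCases (fun i => ?_) (fun i => ?_) i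
  · simp only [Fin.append_left]
  · simp only [Fin.append_right]

end SBMM

open SBMM in
theorem specSBM (hLTB : SpecLTB) (hGDM : SpecGDM) : SpecSBM := by
  intro K _ _ hK A B
  obtain ⟨h1, h2, h3, h4⟩ := hLTB K hK
  obtain ⟨n, c, hc⟩ := h2 (A ⊓ B)
  obtain ⟨p, a, ha⟩ := h1 (A ⊓ B) A inf_le_left n c hc
  obtain ⟨q, b, hb⟩ := h1 (A ⊓ B) B inf_le_right n c hc
  obtain ⟨hcn, -, hcD, hc1⟩ := h3 _ _ _ hc
  obtain ⟨han, haS, haD, -⟩ := h3 _ _ _ ha
  obtain ⟨hbn, hbS, hbD, -⟩ := h3 _ _ _ hb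
  have hfin := Submodule.finrank_sup_add_finrank_inf_eq A B
  set f : Fin (n + p + q) → K := Fin.append (Fin.append c a) b with hf
  have hfm : ∀ i, f i ∈ lat (A ⊔ B) := by
    intro i
    refine Fin.addCases (fun i => ?_) (fun i => ?_) i
    · rw [hf, Fin.append_left]
      exact lat_mono le_sup_left (ha.mem i)
    · rw [hf, Fin.append_right]
      have := hb.mem (Fin.natAdd n i)
      rw [Fin.append_right] at this
      exact lat_mono le_sup_right this
  have hspan : Submodule.span ℚ (Set.range f) = A ⊔ B := by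
    apply le_antisymm
    · rw [Submodule.span_le]
      rintro _ ⟨i, rfl⟩
      exact (hfm i).1
    · refine sup_le ?_ ?_
      · rw [← haS, Submodule.span_le]
        rintro _ ⟨i, rfl⟩
        apply Submodule.subset_span
        exact ⟨Fin.castAdd q i, by rw [hf, Fin.append_left]⟩
      · rw [← hbS, Submodule.span_le]
        rintro _ ⟨i, rfl⟩
        apply Submodule.subset_span
        refine Fin.addCases (fun i => ?_) (fun i => ?_) i
        · exact ⟨Fin.castAdd q (Fin.castAdd p i), by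
            rw [hf, Fin.append_left, Fin.append_left, Fin.append_left]⟩
        · exact ⟨Fin.natAdd (n + p) i, by rw [hf, Fin.append_right, Fin.append_right]⟩
  have hind : LinearIndependent ℚ f := by
    rw [linearIndependent_iff_card_eq_finrank_span, Set.finrank, hspan, Fintype.card_fin]
    omega
  have h5 := h4 (A ⊔ B) (n + p + q) f hfm hind (by omega)
  have h6 := hGDM.1 (EK K) n p q (fun i => ev (c i)) (fun i => ev (a i)) (fun i => ev (b i))
  rw [← comp_append, ← comp_append, ← comp_append] at h6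
  rw [haD, hbD, hcD]
  rw [hcD] at hc1
  calc Dt (A ⊔ B) * gk c ≤ gk f * gk c := mul_le_mul_of_nonneg_right h5 (by linarith)
    _ ≤ _ := h6

end Pool.Agent.Lib.MPcb8a44.RC
end

section
/-!
# XSP: the small elements of the hull span almost all of it
-/
set_option autoImplicit false

open NumberField Module

namespace Pool.Agent.Lib.MPcb8a44.RC

namespace XSPM

theorem num {r4 B rX L d t C : ℝ} {D : ℕ} (hd : d = D) (hC : 1 ≤ C) (hL : 1 ≤ L)
    (h1 : L ≤ 4 ^ D * B) (h2 : B ≤ Real.exp (Real.pi * d) * rX)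
    (h3 : rX ≤ C ^ D * Real.exp (-t) * L) (_h4 : r4 = 0) :
    t ≤ (5 + Real.log C) * d := by
  have hC0 : 0 < C := by linarith
  have hexp : 0 < Real.exp (Real.pi * d) := Real.exp_pos _
  have h5 : L ≤ (4 ^ D * (Real.exp (Real.pi * d) * (C ^ D * Real.exp (-t)))) * L := by
    calc L ≤ 4 ^ D * B := h1
      _ ≤ 4 ^ D * (Real.exp (Real.pi * d) * (C ^ D * Real.exp (-t) * L)) := by
          refine mul_le_mul_of_nonneg_left (h2.trans ?_) (by positivity)
          exact mul_le_mul_of_nonneg_left h3 hexp.le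
      _ = _ := by ring
  have h6 : 1 ≤ 4 ^ D * (Real.exp (Real.pi * d) * (C ^ D * Real.exp (-t))) := by
    have hL0 : 0 < L := by linarith
    by_contra hcon
    rw [not_le] at hcon
    have := mul_lt_mul_of_pos_right hcon hL0
    linarith
  have h7 : Real.exp t ≤ 4 ^ D * (Real.exp (Real.pi * d) * C ^ D) := by
    have h8 : Real.exp t * 1 ≤
        Real.exp t * (4 ^ D * (Real.exp (Real.pi * d) * (C ^ D * Real.exp (-t)))) :=
      mul_le_mul_of_nonneg_left h6 (Real.exp_pos t).le
    rw [mul_one] at h8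
    refine h8.trans (le_of_eq ?_)
    have h9 : Real.exp t * Real.exp (-t) = 1 := by
      rw [← Real.exp_add, add_neg_cancel, Real.exp_zero]
    calc Real.exp t * (4 ^ D * (Real.exp (Real.pi * d) * (C ^ D * Real.exp (-t))))
        = (4 ^ D * (Real.exp (Real.pi * d) * C ^ D)) * (Real.exp t * Real.exp (-t)) := by ring
      _ = _ := by rw [h9, mul_one]
  have h10 : t ≤ Real.log (4 ^ D * (Real.exp (Real.pi * d) * C ^ D)) := by
    rw [← Real.log_exp t]
    exact Real.log_le_log (Real.exp_pos t) h7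
  rw [Real.log_mul (by positivity) (by positivity), Real.log_mul (by positivity) (by positivity),
    Real.log_pow, Real.log_pow, Real.log_exp] at h10
  have hlog4 : Real.log 4 ≤ 1.4 := by
    have : (4 : ℝ) = 2 ^ 2 := by norm_num
    rw [this, Real.log_pow]
    have := Real.log_two_lt_d9
    push_cast
    linarith
  have hpi := Real.pi_lt_d2
  have hd0 : 0 ≤ d := by rw [hd]; exact Nat.cast_nonneg D
  rw [← hd] at h10
  nlinarith

end XSPM

open XSPM in
theorem specXSP (hLTB : SpecLTB) (hMAA : SpecMAA) (hMAB : SpecMAB) (hCUB : SpecCUB) :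
    SpecXSP := by
  intro C hC hR K _ _ hK y T hT
  have hfg : ∀ A : Submodule ℚ K, (lat A).FG := by
    intro A
    obtain ⟨n, b, hb⟩ := (hLTB K hK).2.1 A
    have h1 : lat A = Submodule.span ℤ (Set.range b) := by
      apply le_antisymm
      · exact fun x hx => hb.gen x hx
      · rw [Submodule.span_le]
        rintro _ ⟨i, rfl⟩
        exact hb.mem i
    rw [h1]
    exact Submodule.fg_span (Set.finite_range b)
  set V := HV K y with hV
  set X := Submodule.span ℚ (Bh V (Real.exp (y + T))) with hX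
  have hXV : X ≤ V := by
    rw [hX, Submodule.span_le]
    intro x hx
    exact hx.1.1
  refine ⟨hXV, ?_⟩
  have hsub : Bh V (Real.exp (y + T)) ⊆ {x : K | x ∈ lat X ∧ RD.hs x ≤ Real.exp (y + T)} := by
    intro x hx
    exact ⟨⟨Submodule.subset_span hx, hx.1.2⟩, hx.2⟩
  obtain ⟨-, -, hc3⟩ := hCUB K hK (lat V) (y + T) (hfg V)
  obtain ⟨hf, hc2, -⟩ := hCUB K hK (lat X) (y + T) (hfg X)
  have hcard : ((Bh V (Real.exp (y + T))).ncard : ℝ) ≤
      ({x : K | x ∈ lat X ∧ RD.hs x ≤ Real.exp (y + T)}.ncard : ℝ) := by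
    exact_mod_cast Set.ncard_le_ncard hsub hf
  have hm := (hMAB C hC hR K hK y).2 X T hXV hT
  have h1 := (hMAA K hK (y + T)).1 V
  refine num (r4 := 0) (D := finrank ℚ K) rfl hC h1.2.1 hc3 (hcard.trans hc2) ?_ rfl
  rw [← neg_mul]
  exact hm

end Pool.Agent.Lib.MPcb8a44.RC
end
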