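import Pool.Agent.Lib.MP_cb8a44_nt.RC.SpecG

section
set_option autoImplicit false

open NumberField Module
open scoped Pointwise

namespace Pool.Agent.Lib.MPcb8a44.RC

namespace DMNM

variable {E : Type} [NormedAddCommGroup E] [InnerProductSpace ℝ E]

lemma Zs_le_Rs {n : ℕ} (b : Fin n → E) {x : E} (hx : x ∈ Zs b) : x ∈ Rs b := by
  have h : Zs b ≤ (Rs b).restrictScalars ℤ := Submodule.span_le.2 fun y hy => Submodule.subset_span hy
  exact h hx

lemma Rs_le {n m : ℕ} {b : Fin n → E} {c : Fin m → E} (h : ∀ i, b i ∈ Rs c) : Rs b ≤ Rs c := by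
  refine Submodule.span_le.2 ?_
  rintro _ ⟨i, rfl⟩
  exact h i

lemma Rs_of_Zs {n m : ℕ} {b : Fin n → E} {c : Fin m → E} (h : Zs b = Zs c) : Rs b = Rs c := by
  apply le_antisymm
  · exact Rs_le fun i => Zs_le_Rs c (h ▸ Submodule.subset_span ⟨i, rfl⟩)
  · exact Rs_le fun i => Zs_le_Rs b (h.symm ▸ Submodule.subset_span ⟨i, rfl⟩)

lemma inner_zero {k : ℕ} (e' : Fin k → E) (v : E) (h : ∀ i, inner ℝ v (e' i) = 0) {w : E}
    (hw : w ∈ Rs e') : inner ℝ v w = 0 := by
  refine Submodule.span_induction (p := fun w _ => inner ℝ v w = 0) ?_ ?_ ?_ ?_ hw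
  · rintro _ ⟨i, rfl⟩; exact h i
  · simp
  · intro x y _ _ hx hy; rw [inner_add_right, hx, hy, add_zero]
  · intro a x _ hx; rw [inner_smul_right, hx, mul_zero]

lemma inner_int_left {n : ℕ} (b : Fin n → E) (w : E) (h : ∀ i, ∃ k : ℤ, inner ℝ (b i) w = k) {x : E}
    (hx : x ∈ Zs b) : ∃ k : ℤ, inner ℝ x w = k := by
  refine Submodule.span_induction (p := fun x _ => ∃ k : ℤ, inner ℝ x w = k) ?_ ?_ ?_ ?_ hx
  · rintro _ ⟨i, rfl⟩; exact h i
  · exact ⟨0, by simp⟩
  · rintro x y _ _ ⟨k, hk⟩ ⟨l, hl⟩; exact ⟨k + l, by rw [inner_add_left, hk, hl]; push_cast; ring⟩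
  · rintro a x _ ⟨k, hk⟩
    refine ⟨a * k, ?_⟩
    rw [← Int.cast_smul_eq_zsmul ℝ, inner_smul_left, hk]
    simp

lemma inner_int_right {n : ℕ} (b : Fin n → E) (w : E) (h : ∀ i, ∃ k : ℤ, inner ℝ w (b i) = k) {x : E}
    (hx : x ∈ Zs b) : ∃ k : ℤ, inner ℝ w x = k := by
  rw [real_inner_comm]
  exact inner_int_left b w (fun i => by rw [real_inner_comm]; exact h i) hx

end DMNM

open DMNM in
theorem specDMN (hGRA : SpecGRA) (hPJE : SpecPJE) (hZIX : SpecZIX) (hDUB : SpecDUB)
    (hADP : SpecADP) (hMKW : SpecMKW) : SpecDMN := by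
  intro E _ _ n b b' y hb hbb' hlong m₀ c₀ hc₀ hc₀i
  obtain ⟨m, k, c, e, hmk, hce, hZ, hS⟩ := hADP E n b hb (Rs c₀)
  subst hmk
  have hci : LinearIndependent ℝ c := by
    have := hce.comp (Fin.castAdd k) (Fin.castAdd_injective m k)
    convert this using 1
    ext i
    simp
  have hcZ : ∀ i, c i ∈ Zs b := fun i => by
    rw [← hZ]
    have : c i = Fin.append c e (Fin.castAdd k i) := by simp
    rw [this]
    exact Submodule.subset_span ⟨_, rfl⟩
  have hc₀c : ∀ i, c₀ i ∈ Zs c := fun i =>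
    (hS _ (hc₀ i)).1 (Submodule.subset_span ⟨i, rfl⟩)
  have hRs : Rs c = Rs c₀ := by
    apply le_antisymm
    · exact Rs_le fun i => (hS _ (hcZ i)).2 (Submodule.subset_span ⟨i, rfl⟩)
    · exact Rs_le fun i => Zs_le_Rs c (hc₀c i)
  have hm : m = m₀ := by
    have h1 := finrank_span_eq_card hci
    have h2 := finrank_span_eq_card hc₀i
    rw [Fintype.card_fin] at h1 h2
    rw [← h1, ← h2]
    change finrank ℝ (Rs c) = finrank ℝ (Rs c₀)
    rw [hRs]
  subst hm
  have hcc₀ : gd c ≤ gd c₀ := (hZIX E m c c₀ hc₀i hc₀c).1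
  obtain ⟨⟨e', he'⟩, hPJ⟩ := hPJE E m k c e
  obtain ⟨hgd, hind, -, hmem⟩ := hPJ e' he'
  have he'i := hind hce
  obtain ⟨⟨f, hf⟩, hDf⟩ := hDUB E k e' he'i
  obtain ⟨hfi, hgf, -, -⟩ := hDf f hf
  have hgdb : gd b = gd (Fin.append c e) :=
    (hZIX E (m + k) b (Fin.append c e) hce
      (fun i => hZ ▸ Submodule.subset_span ⟨i, rfl⟩)).2.2 hZ.symm
  -- the vectors of the dual of the quotient
  have hfb' : ∀ w ∈ Zs f, w ∈ Zs b' := by
    intro w hw
    have hwe : w ∈ Rs e' := by
      rw [← hf.1]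
      exact Zs_le_Rs f hw
    refine ((hDUB E (m + k) b hb).2 b' hbb').2.2.2 w ?_ ?_
    · rw [← Rs_of_Zs hZ]
      exact Rs_le hmem hwe
    · have hw0 : ∀ v ∈ Rs c, inner ℝ v w = 0 := fun v hv =>
        inner_zero e' v (fun i => (he' i).2 v hv) hwe
      have hwe' : ∀ j, ∃ l : ℤ, inner ℝ (e' j) w = l := fun j =>
        inner_int_right f (e' j) (fun i => by
          rw [hf.2 j i]
          split_ifs
          · exact ⟨1, by simp⟩
          · exact ⟨0, by simp⟩) hw
      have key : ∀ i, ∃ l : ℤ, inner ℝ (Fin.append c e i) w = l := by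
        intro i
        refine Fin.addCases (fun i => ?_) (fun j => ?_) i
        · rw [Fin.append_left]
          exact ⟨0, by rw [hw0 _ (Submodule.subset_span ⟨i, rfl⟩)]; simp⟩
        · rw [Fin.append_right]
          obtain ⟨l, hl⟩ := hwe' j
          refine ⟨l, ?_⟩
          rw [← hl]
          have := hw0 _ (he' j).1
          rw [inner_sub_left, sub_eq_zero] at this
          exact this
      intro i
      exact inner_int_left _ w key (hZ ▸ Submodule.subset_span ⟨i, rfl⟩)
  have hMK := hMKW E k f (Real.exp (-y)) hfi (Real.exp_pos _) (by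
    intro w hw hw0
    have h1 := hlong w (hfb' w hw) hw0
    have h2 : Real.exp (-y) ^ 2 = Real.exp (-2 * y) := by
      rw [← Real.exp_nat_mul]
      congr 1
      push_cast
      ring
    rw [h2]
    refine le_trans ?_ h1
    refine mul_le_mul_of_nonneg_right ?_ (Real.exp_pos _).le
    push_cast
    linarith [(Nat.cast_nonneg m : (0 : ℝ) ≤ m)])
  have he'pos : 0 < gd e' := ((hGRA E k e').2.1).1 he'i
  have hc0 : 0 ≤ gd c := (hGRA E m c).1
  have h3 : gd e' ≤ Real.exp (2 * y * k) := by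
    have h4 : Real.exp (-y) ^ (2 * k) = (Real.exp (2 * y * k))⁻¹ := by
      rw [← Real.exp_nat_mul, ← Real.exp_neg]
      congr 1
      push_cast
      ring
    rw [h4] at hMK
    have h5 : gd e' * (Real.exp (2 * y * k))⁻¹ ≤ 1 := by
      rw [← hgf]
      exact mul_le_mul_of_nonneg_left hMK he'pos.le
    rwa [mul_inv_le_iff₀ (Real.exp_pos _), one_mul] at h5
  rw [hgdb, hgd]
  have h6 : (((m + k : ℕ) : ℝ) - m) = k := by push_cast; ring
  rw [h6]
  calc gd c * gd e' ≤ gd c₀ * Real.exp (2 * y * k) :=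
        mul_le_mul hcc₀ h3 he'pos.le (hc0.trans hcc₀)
    _ = _ := mul_comm _ _

end Pool.Agent.Lib.MPcb8a44.RC
end

section
set_option autoImplicit false

open NumberField Module

namespace Pool.Agent.Lib.MPcb8a44.RC

namespace DUBM

variable {E : Type} [NormedAddCommGroup E] [InnerProductSpace ℝ E]

lemma inner_sum_gram {n : ℕ} (b : Fin n → E) (x : Fin n → ℝ) (k : Fin n) :
    inner ℝ (b k) (∑ i, x i • b i) = ∑ i, x i * Matrix.gram ℝ b k i := by
  rw [inner_sum]
  refine Finset.sum_congr rfl fun i _ => ?_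
  rw [inner_smul_right, Matrix.gram_apply]

lemma gram_symm {n : ℕ} (b : Fin n → E) (i j : Fin n) :
    Matrix.gram ℝ b i j = Matrix.gram ℝ b j i := by
  rw [Matrix.gram_apply, Matrix.gram_apply, real_inner_comm]

end DUBM

open DUBM in
theorem specDUB (hGRA : SpecGRA) : SpecDUB := by
  intro E _ _ n b hb
  obtain ⟨-, g2, -, g4⟩ := hGRA E n b
  have hG : 0 < gd b := g2.1 hb
  set G := Matrix.gram ℝ b with hGdef
  have hGd : G.det = gd b := rfl
  have hGu : IsUnit G.det := by
    rw [hGd]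
    exact isUnit_iff_ne_zero.2 hG.ne'
  have hsymm : G.transpose = G := by
    ext i j
    rw [Matrix.transpose_apply]
    exact gram_symm b j i
  have hinvsymm : (G⁻¹).transpose = G⁻¹ := by
    rw [Matrix.transpose_nonsing_inv, hsymm]
  constructor
  · refine ⟨fun j => ∑ i, (G⁻¹) j i • b i, ?_, ?_⟩
    · apply le_antisymm
      · rw [Submodule.span_le]
        rintro _ ⟨j, rfl⟩
        exact Submodule.sum_mem _ fun i _ => Submodule.smul_mem _ _ (Submodule.subset_span ⟨i, rfl⟩)
      · rw [Submodule.span_le]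
        rintro _ ⟨k, rfl⟩
        have h1 : b k = ∑ j, G k j • (∑ i, (G⁻¹) j i • b i) := by
          simp only [Finset.smul_sum, smul_smul]
          rw [Finset.sum_comm]
          have h2 : ∀ i, ∑ j, (G k j * (G⁻¹) j i) • b i = (if k = i then (1 : ℝ) else 0) • b i := by
            intro i
            rw [← Finset.sum_smul, ← Matrix.mul_apply, Matrix.mul_nonsing_inv _ hGu,
              Matrix.one_apply]
          rw [Finset.sum_congr rfl fun i _ => h2 i]
          simp
        rw [h1]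
        exact Submodule.sum_mem _ fun i _ => Submodule.smul_mem _ _ (Submodule.subset_span ⟨i, rfl⟩)
    · intro i j
      rw [inner_sum_gram]
      have h1 : ∑ k, (G⁻¹) j k * Matrix.gram ℝ b i k = (G⁻¹ * G) j i := by
        rw [Matrix.mul_apply]
        refine Finset.sum_congr rfl fun k _ => ?_
        rw [gram_symm b i k]
      rw [h1, Matrix.nonsing_inv_mul _ hGu, Matrix.one_apply]
      by_cases h : i = j
      · rw [if_pos h, if_pos h.symm]
      · rw [if_neg h, if_neg (Ne.symm h)]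
  · intro b' hb'
    obtain ⟨hR, hI⟩ := hb'
    have hA : ∀ j, ∃ a : Fin n → ℝ, ∑ i, a i • b i = b' j := by
      intro j
      have h1 : b' j ∈ Rs b := by
        rw [← hR]
        exact Submodule.subset_span ⟨j, rfl⟩
      exact (Submodule.mem_span_range_iff_exists_fun ℝ).1 h1
    choose A hA using hA
    have hAG : (Matrix.of A) * G = 1 := by
      ext j k
      rw [Matrix.mul_apply, Matrix.one_apply]
      have h1 := hI k j
      rw [← hA j, inner_sum_gram] at h1
      have h2 : ∑ i, A j i * Matrix.gram ℝ b k i = ∑ i, Matrix.of A j i * G i k := by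
        refine Finset.sum_congr rfl fun i _ => ?_
        rw [gram_symm b k i]
        rfl
      rw [← h2, h1]
      by_cases h : k = j
      · rw [if_pos h, if_pos h.symm]
      · rw [if_neg h, if_neg (Ne.symm h)]
    have hdet : (Matrix.of A).det * gd b = 1 := by
      rw [← hGd, ← Matrix.det_mul, hAG, Matrix.det_one]
    have hgd' : gd b' = (Matrix.of A).det ^ 2 * gd b := by
      rw [← g4]
      congr 1
      funext j
      exact (hA j).symm
    have hmul : gd b * gd b' = 1 := by
      rw [hgd']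
      calc gd b * ((Matrix.of A).det ^ 2 * gd b) = ((Matrix.of A).det * gd b) ^ 2 := by ring
        _ = 1 := by rw [hdet]; norm_num
    have hgpos : 0 < gd b' := by
      by_contra h
      push Not at h
      nlinarith
    have hli : LinearIndependent ℝ b' := (hGRA E n b').2.1.2 hgpos
    refine ⟨hli, hmul, ⟨hR.symm, fun i j => ?_⟩, ?_⟩
    · rw [real_inner_comm, hI j i]
      by_cases h : i = j
      · rw [if_pos h, if_pos h.symm]
      · rw [if_neg h, if_neg (Ne.symm h)]
    · intro w hw hk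
      rw [← hR] at hw
      obtain ⟨x, hx⟩ := (Submodule.mem_span_range_iff_exists_fun ℝ).1 hw
      have h1 : ∀ j, inner ℝ (b j) w = x j := by
        intro j
        rw [← hx, inner_sum, Finset.sum_eq_single j]
        · rw [inner_smul_right, hI, if_pos rfl, mul_one]
        · intro i _ hij
          rw [inner_smul_right, hI, if_neg (Ne.symm hij), mul_zero]
        · intro h
          exact absurd (Finset.mem_univ _) h
      choose k hk using hk
      rw [← hx]
      refine Submodule.sum_mem _ fun i _ => ?_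
      have h2 : x i = (k i : ℝ) := by rw [← h1 i, hk i]
      rw [h2, Int.cast_smul_eq_zsmul]
      exact Submodule.smul_mem _ _ (Submodule.subset_span ⟨i, rfl⟩)

end Pool.Agent.Lib.MPcb8a44.RC
end

section
set_option autoImplicit false

open NumberField Module

namespace Pool.Agent.Lib.MPcb8a44.RC

namespace GDMM

variable {E : Type} [NormedAddCommGroup E] [InnerProductSpace ℝ E]

/-- The projection orthogonal to the span of a finite tuple. -/
lemma exists_proj {n : ℕ} (b : Fin n → E) : ∃ Q : E →ₗ[ℝ] E, (∀ x, ‖Q x‖ ≤ ‖x‖) ∧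
    (∀ x ∈ Rs b, Q x = 0) ∧ (∀ x, x - Q x ∈ Rs b) ∧ (∀ x, ∀ w ∈ Rs b, inner ℝ w (Q x) = 0) ∧
    ∀ x, (∀ w ∈ Rs b, inner ℝ w x = 0) → Q x = x := by
  have : FiniteDimensional ℝ (Rs b) := FiniteDimensional.span_of_finite ℝ (Set.finite_range b)
  refine ⟨LinearMap.id - ((Rs b).starProjection : E →L[ℝ] E).toLinearMap, ?_, ?_, ?_, ?_, ?_⟩
  · intro x
    have h1 : x - (Rs b).starProjection x = (Rs b)ᗮ.starProjection x := by
      have := (Rs b).starProjection_add_starProjection_orthogonal x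
      rw [← this]
      simp
    show ‖x - (Rs b).starProjection x‖ ≤ ‖x‖
    rw [h1]
    exact (Rs b)ᗮ.norm_starProjection_apply_le x
  · intro x hx
    show x - (Rs b).starProjection x = 0
    rw [Submodule.starProjection_eq_self_iff.2 hx, sub_self]
  · intro x
    show x - (x - (Rs b).starProjection x) ∈ Rs b
    rw [sub_sub_cancel]
    exact Submodule.starProjection_apply_mem _ _
  · intro x w hw
    show inner ℝ w (x - (Rs b).starProjection x) = 0
    exact Submodule.inner_right_of_mem_orthogonal hw (Submodule.sub_starProjection_mem_orthogonal x)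
  · intro x hx
    show x - (Rs b).starProjection x = x
    have : x ∈ (Rs b)ᗮ := (Submodule.mem_orthogonal _ _).2 hx
    rw [(Submodule.starProjection_apply_eq_zero_iff _).2 this, sub_zero]

/-- If `x - y` lies in the span and `y` is orthogonal to it, `Q x = y`. -/
lemma Q_eq {S : Submodule ℝ E} {Q : E →ₗ[ℝ] E} (h0 : ∀ x ∈ S, Q x = 0)
    (h1 : ∀ x, (∀ w ∈ S, inner ℝ w x = 0) → Q x = x) {x y : E} (hxy : x - y ∈ S)
    (hy : ∀ w ∈ S, inner ℝ w y = 0) : Q x = y := by
  have h2 : Q (x - y) = 0 := h0 _ hxy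
  rw [map_sub, h1 y hy, sub_eq_zero] at h2
  exact h2

lemma Rs_append_left {m p : ℕ} (c : Fin m → E) (a : Fin p → E) : Rs c ≤ Rs (Fin.append c a) := by
  refine Submodule.span_mono ?_
  rintro _ ⟨i, rfl⟩
  exact ⟨Fin.castAdd p i, Fin.append_left _ _ _⟩

end GDMM

open GDMM in
theorem specGDM (hGRA : SpecGRA) (hPJE : SpecPJE) (hCON : SpecCON) : SpecGDM := by
  constructor
  · intro E _ _ m p q c a b
    obtain ⟨⟨b', hb'⟩, h1⟩ := hPJE E m q c b
    obtain ⟨⟨b'', hb''⟩, h2⟩ := hPJE E (m + p) q (Fin.append c a) b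
    obtain ⟨e1, -, -, -⟩ := h1 b' hb'
    obtain ⟨e2, -, -, -⟩ := h2 b'' hb''
    obtain ⟨Q, q1, q2, q3, q4, q5⟩ := exists_proj (Fin.append c a)
    have hQ : ∀ i, Q (b' i) = b'' i := by
      intro i
      refine Q_eq q2 q5 ?_ (hb'' i).2
      have : b' i - b'' i = (b i - b'' i) - (b i - b' i) := by abel
      rw [this]
      exact Submodule.sub_mem _ (hb'' i).1 (Rs_append_left c a (hb' i).1)
    have h3 := hCON E E Q 1 zero_le_one (fun x => by rw [one_mul]; exact q1 x) q b'
    rw [one_pow, one_mul] at h3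
    have h4 : gd b'' ≤ gd b' := by
      have : (fun i => Q (b' i)) = b'' := funext hQ
      rwa [this] at h3
    rw [e1, e2]
    have g1 := (hGRA E (m + p) (Fin.append c a)).1
    have g2 := (hGRA E m c).1
    calc gd (Fin.append c a) * gd b'' * gd c = (gd (Fin.append c a) * gd c) * gd b'' := by ring
      _ ≤ (gd (Fin.append c a) * gd c) * gd b' := mul_le_mul_of_nonneg_left h4 (mul_nonneg g1 g2)
      _ = gd (Fin.append c a) * (gd c * gd b') := by ring
  · intro E E' _ _ _ _ T κ hκ hT m k c e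
    obtain ⟨⟨e', he'⟩, h1⟩ := hPJE E m k c e
    obtain ⟨e1, -, -, -⟩ := h1 e' he'
    obtain ⟨⟨f', hf'⟩, h2⟩ := hPJE E' m k (fun i => T (c i)) (fun i => T (e i))
    obtain ⟨e2, -, -, -⟩ := h2 f' hf'
    obtain ⟨Q, q1, q2, q3, q4, q5⟩ := exists_proj (fun i => T (c i))
    have hmap : ∀ x ∈ Rs c, T x ∈ Rs (fun i => T (c i)) := by
      intro x hx
      have h := Submodule.mem_map_of_mem (f := T) hx
      rw [Submodule.map_span] at h
      have h' : (T '' Set.range c) = Set.range (fun i => T (c i)) := by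
        rw [← Set.range_comp]
        rfl
      rwa [h'] at h
    have hQ : ∀ i, Q (T (e' i)) = f' i := by
      intro i
      refine Q_eq q2 q5 ?_ (hf' i).2
      have : T (e' i) - f' i = (T (e i) - f' i) - T (e i - e' i) := by
        rw [map_sub]
        abel
      rw [this]
      exact Submodule.sub_mem _ (hf' i).1 (hmap _ (he' i).1)
    have h3 := hCON E E' (Q ∘ₗ T) κ hκ (fun x => (q1 (T x)).trans (hT x)) k e'
    have h4 : gd f' ≤ κ ^ (2 * k) * gd e' := by
      have : (fun i => (Q ∘ₗ T) (e' i)) = f' := funext hQ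
      rwa [this] at h3
    have h5 : (fun i => T (Fin.append c e i)) = Fin.append (fun i => T (c i)) (fun i => T (e i)) := by
      funext i
      refine Fin.addCases (fun i => ?_) (fun i => ?_) i
      · rw [Fin.append_left, Fin.append_left]
      · rw [Fin.append_right, Fin.append_right]
    rw [h5, e2, e1]
    have g1 := (hGRA E' m (fun i => T (c i))).1
    have g2 := (hGRA E m c).1
    calc gd (fun i => T (c i)) * gd f' * gd c = (gd (fun i => T (c i)) * gd c) * gd f' := by ring
      _ ≤ (gd (fun i => T (c i)) * gd c) * (κ ^ (2 * k) * gd e') :=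
          mul_le_mul_of_nonneg_left h4 (mul_nonneg g1 g2)
      _ = κ ^ (2 * k) * (gd (fun i => T (c i)) * (gd c * gd e')) := by ring

end Pool.Agent.Lib.MPcb8a44.RC
end

section
/-! Module GFT (Fourier transform of a Gaussian). -/
set_option autoImplicit false

open scoped BigOperators

namespace Pool.Agent.Lib.MPcb8a44.RC

namespace GFTM

open MeasureTheory

/-- change of variables for a square matrix -/
theorem integral_matrix {n : ℕ} (M : Matrix (Fin n) (Fin n) ℝ) (hM : M.det ≠ 0)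
    (f : EuclideanSpace ℝ (Fin n) → ℂ) :
    ∫ t : Fin n → ℝ, f (WithLp.toLp 2 (Matrix.toLin' M t)) =
      ((|M.det|⁻¹ : ℝ) : ℂ) * ∫ v : EuclideanSpace ℝ (Fin n), f v := by
  have h1 := Real.map_matrix_volume_pi_eq_smul_volume_pi hM
  have hemb : MeasurableEmbedding (Matrix.toLin' M : (Fin n → ℝ) → (Fin n → ℝ)) := by
    have hu : IsUnit M.det := isUnit_iff_ne_zero.mpr hM
    let e := (Matrix.toLinearEquiv' M ((Matrix.isUnit_iff_isUnit_det M).mpr hu).invertible)
    have : (Matrix.toLin' M : (Fin n → ℝ) → (Fin n → ℝ)) = e.toContinuousLinearEquiv.toHomeomorph := by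
      ext t
      rfl
    rw [this]
    exact e.toContinuousLinearEquiv.toHomeomorph.measurableEmbedding
  have h2 := hemb.integral_map (μ := volume) (fun y => f (WithLp.toLp 2 y))
  rw [← h2, h1, integral_smul_measure, (PiLp.volume_preserving_toLp (Fin n)).integral_comp
    (MeasurableEquiv.toLp 2 _).measurableEmbedding, abs_inv, ENNReal.toReal_ofReal (by positivity)]
  rw [Complex.real_smul]

end GFTM

open MeasureTheory GFTM in
theorem specGFT : SpecGFT := by
  intro E _ _ n b b' z k hb hd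
  obtain ⟨hR, hin⟩ := hd
  have hfd : FiniteDimensional ℝ (Rs b) := FiniteDimensional.span_of_finite ℝ (Set.finite_range b)
  have hrank : Module.finrank ℝ (Rs b) = n := by
    rw [finrank_span_eq_card hb]
    simp
  let u : OrthonormalBasis (Fin n) ℝ (Rs b) := (stdOrthonormalBasis ℝ (Rs b)).reindex (finCongr hrank)
  let bb : Fin n → Rs b := fun i => ⟨b i, Submodule.subset_span ⟨i, rfl⟩⟩
  let β : Fin n → EuclideanSpace ℝ (Fin n) := fun i => u.repr (bb i)
  let M : Matrix (Fin n) (Fin n) ℝ := Matrix.of fun j i => β i j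
  have hinner : ∀ i j, inner ℝ (b i) (b j) = ∑ l, β i l * β j l := by
    intro i j
    have h1 : inner ℝ (b i) (b j) = inner ℝ (β i) (β j) := by
      simp only [β]
      rw [LinearIsometryEquiv.inner_map_map]
      rfl
    rw [h1, PiLp.inner_apply]
    refine Finset.sum_congr rfl (fun l _ => ?_)
    simp [mul_comm]
  have hgram : Matrix.gram ℝ b = M.transpose * M := by
    ext i j
    rw [Matrix.gram_apply, hinner, Matrix.mul_apply]
    rfl
  have hgd : gd b = M.det ^ 2 := by
    unfold gd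
    rw [hgram, Matrix.det_mul, Matrix.det_transpose, sq]
  have hpos : 0 < gd b := by
    unfold gd
    exact (Matrix.posDef_gram_iff_linearIndependent.mpr hb).det_pos
  have hM : M.det ≠ 0 := by
    intro h0
    rw [hgd, h0] at hpos
    simp at hpos
  have habs : |M.det| = Real.sqrt (gd b) := by rw [hgd, Real.sqrt_sq_eq_abs]
  have hphi : ∀ t : Fin n → ℝ, WithLp.toLp 2 (Matrix.toLin' M t) = ∑ i, t i • β i := by
    intro t
    ext l
    rw [WithLp.ofLp_sum, Finset.sum_apply]
    simp only [Matrix.toLin'_apply, Matrix.mulVec, dotProduct, M, Matrix.of_apply, WithLp.ofLp_smul,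
      Pi.smul_apply, smul_eq_mul]
    exact Finset.sum_congr rfl (fun i _ => mul_comm _ _)
  have hrho : ∀ t : Fin n → ℝ, ∑ i, t i • β i = u.repr (∑ i, t i • bb i) := by
    intro t
    rw [map_sum]
    refine Finset.sum_congr rfl (fun i _ => ?_)
    rw [map_smul]
  have hcoe : ∀ t : Fin n → ℝ, ((∑ i, t i • bb i : Rs b) : E) = ∑ i, t i • b i := by
    intro t
    simp [bb]
  have hnorm : ∀ t : Fin n → ℝ, ‖WithLp.toLp 2 (Matrix.toLin' M t)‖ = ‖∑ i, t i • b i‖ := by
    intro t
    rw [hphi, hrho, LinearIsometryEquiv.norm_map, ← hcoe]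
    rfl
  have hw : zc b' k ∈ Rs b := by
    rw [← hR]
    unfold zc
    exact Submodule.sum_mem _ (fun i _ => Submodule.smul_mem _ _ (Submodule.subset_span ⟨i, rfl⟩))
  set ω : EuclideanSpace ℝ (Fin n) := u.repr ⟨zc b' k, hw⟩ with hω
  have hωn : ‖ω‖ = ‖zc b' k‖ := by
    rw [hω, LinearIsometryEquiv.norm_map]
    rfl
  have hωi : ∀ t : Fin n → ℝ, inner ℝ ω (WithLp.toLp 2 (Matrix.toLin' M t)) =
      ∑ i, (k i : ℝ) * t i := by
    intro t
    rw [hphi, hrho, hω, LinearIsometryEquiv.inner_map_map, Submodule.coe_inner, hcoe]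
    simp only
    unfold zc
    rw [sum_inner]
    refine Finset.sum_congr rfl (fun j _ => ?_)
    rw [inner_smul_left, inner_sum, Finset.sum_eq_single j]
    · rw [inner_smul_right, real_inner_comm, hin]
      simp
    · intro i _ hij
      rw [inner_smul_right, real_inner_comm, hin, if_neg hij, mul_zero]
    · intro h
      exact absurd (Finset.mem_univ j) h
  have hs : (0 : ℝ) < Real.pi * Real.exp (-2 * z) := by positivity
  set s : ℝ := Real.exp (-2 * z) with hsdef
  have hfun : ∀ t : Fin n → ℝ,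
      (Real.exp (-(Real.pi * s * ‖∑ i, t i • b i‖ ^ 2)) : ℂ) *
        Complex.exp (-(2 * Real.pi * Complex.I * ∑ i, (k i : ℂ) * (t i : ℂ))) =
      Complex.exp (-((Real.pi * s : ℝ) : ℂ) * ‖WithLp.toLp 2 (Matrix.toLin' M t)‖ ^ 2 +
        (-(2 * Real.pi * Complex.I)) * (inner ℝ ω (WithLp.toLp 2 (Matrix.toLin' M t)) : ℝ)) := by
    intro t
    rw [hnorm, hωi, Complex.exp_add]
    congr 1
    · push_cast
      congr 1
      ring
    · push_cast
      congr 1
      ring
  rw [integral_congr_ae (Filter.Eventually.of_forall hfun)]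
  rw [integral_matrix M hM (fun v => Complex.exp (-((Real.pi * s : ℝ) : ℂ) * ‖v‖ ^ 2 +
        (-(2 * Real.pi * Complex.I)) * (inner ℝ ω v : ℝ)))]
  rw [GaussianFourier.integral_cexp_neg_mul_sq_norm_add_of_euclideanSpace (by
    rw [Complex.ofReal_re]; exact hs)]
  rw [hωn, habs, Fintype.card_fin]
  have hsne : (s : ℂ) ≠ 0 := by
    rw [hsdef]
    exact_mod_cast (Real.exp_pos _).ne'
  have hpne : (Real.pi : ℂ) ≠ 0 := by exact_mod_cast Real.pi_ne_zero
  have hsinv : (Real.exp (2 * z) : ℝ) = s⁻¹ := by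
    rw [hsdef, ← Real.exp_neg]; congr 1; ring
  have e1 : ((Real.pi : ℂ) / ((Real.pi * s : ℝ) : ℂ)) ^ ((n : ℂ) / 2) = ((Real.exp (z * n) : ℝ) : ℂ) := by
    have h1 : (Real.pi : ℂ) / ((Real.pi * s : ℝ) : ℂ) = ((Real.exp (2 * z) : ℝ) : ℂ) := by
      rw [hsinv]
      push_cast
      field_simp
    rw [h1]
    have h2 : ((n : ℂ) / 2) = (((n : ℝ) / 2 : ℝ) : ℂ) := by push_cast; rfl
    rw [h2, ← Complex.ofReal_cpow (Real.exp_pos _).le, ← Real.exp_mul]
    congr 2
    ring
  have e2 : (-(2 * (Real.pi : ℂ) * Complex.I)) ^ 2 * (‖zc b' k‖ : ℂ) ^ 2 /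
      (4 * ((Real.pi * s : ℝ) : ℂ)) = ((-(Real.pi * Real.exp (2 * z) * ‖zc b' k‖ ^ 2) : ℝ) : ℂ) := by
    rw [hsinv]
    push_cast
    have h3 : (-(2 * (Real.pi : ℂ) * Complex.I)) ^ 2 = -(4 * (Real.pi : ℂ) ^ 2) := by
      rw [neg_sq, mul_pow, mul_pow, Complex.I_sq]; ring
    rw [h3]
    field_simp
  rw [e1, e2, ← Complex.ofReal_exp]
  push_cast
  ring

end Pool.Agent.Lib.MPcb8a44.RC
end

section
set_option autoImplicit false

open NumberField Module

namespace Pool.Agent.Lib.MPcb8a44.RC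

namespace GRAM

variable {E : Type} [NormedAddCommGroup E] [InnerProductSpace ℝ E]

lemma infDist_eq (S : Submodule ℝ E) (p h : E) (hp : p ∈ S) (hh : ∀ w ∈ S, inner ℝ w h = 0) :
    Metric.infDist (p + h) (S : Set E) = ‖h‖ := by
  apply le_antisymm
  · refine (Metric.infDist_le_dist_of_mem (show p ∈ (S : Set E) from hp)).trans ?_
    rw [dist_eq_norm, add_sub_cancel_left]
  · rw [Metric.le_infDist ⟨p, hp⟩]
    intro w hw
    rw [dist_eq_norm]
    have h1 : p + h - w = (p - w) + h := by abel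
    have h2 : inner ℝ (p - w) h = 0 := hh _ (S.sub_mem hp hw)
    have h3 : ‖p + h - w‖ ^ 2 = ‖p - w‖ ^ 2 + ‖h‖ ^ 2 := by
      rw [h1, norm_add_sq_real, h2]
      ring
    have h4 : ‖h‖ ^ 2 ≤ ‖p + h - w‖ ^ 2 := by
      rw [h3]
      nlinarith [sq_nonneg ‖p - w‖]
    exact le_of_sq_le_sq h4 (norm_nonneg _)

lemma gd_lin {n : ℕ} (b : Fin n → E) (U : Matrix (Fin n) (Fin n) ℝ) :
    gd (fun i => ∑ j, U i j • b j) = U.det ^ 2 * gd b := by
  unfold gd
  have h : Matrix.gram ℝ (fun i => ∑ j, U i j • b j) = U * Matrix.gram ℝ b * U.transpose := by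
    ext i j
    rw [Matrix.gram_apply, sum_inner, Matrix.mul_apply]
    simp only [inner_sum, inner_smul_left, inner_smul_right, Matrix.mul_apply, Matrix.transpose_apply,
      Matrix.gram_apply, RCLike.conj_to_real]
    rw [Finset.sum_comm]
    refine Finset.sum_congr rfl fun k _ => ?_
    rw [Finset.sum_mul]
    refine Finset.sum_congr rfl fun l _ => ?_
    ring
  rw [h, Matrix.det_mul, Matrix.det_mul, Matrix.det_transpose]
  ring

lemma gd_orth {n : ℕ} (b : Fin n → E) (h : E) (hh : ∀ i, inner ℝ (b i) h = 0) :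
    gd (Fin.snoc b h : Fin (n + 1) → E) = gd b * ‖h‖ ^ 2 := by
  unfold gd
  rw [Matrix.det_succ_row _ (Fin.last n), Fin.sum_univ_castSucc]
  have h0 : ∀ i : Fin n, (-1 : ℝ) ^ ((Fin.last n : ℕ) + (i.castSucc : ℕ)) *
      Matrix.gram ℝ (Fin.snoc b h : Fin (n + 1) → E) (Fin.last n) i.castSucc *
      ((Matrix.gram ℝ (Fin.snoc b h : Fin (n + 1) → E)).submatrix (Fin.last n).succAbove
        i.castSucc.succAbove).det = 0 := by
    intro i
    have : Matrix.gram ℝ (Fin.snoc b h : Fin (n + 1) → E) (Fin.last n) i.castSucc = 0 := by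
      rw [Matrix.gram_apply, Fin.snoc_last, Fin.snoc_castSucc, real_inner_comm]
      exact hh i
    rw [this]
    ring
  rw [Finset.sum_eq_zero (fun i _ => h0 i), zero_add]
  have h1 : (Matrix.gram ℝ (Fin.snoc b h : Fin (n + 1) → E)).submatrix (Fin.last n).succAbove
      (Fin.last n).succAbove = Matrix.gram ℝ b := by
    ext i j
    rw [Matrix.submatrix_apply, Matrix.gram_apply, Matrix.gram_apply, Fin.succAbove_last,
      Fin.snoc_castSucc, Fin.snoc_castSucc]
  rw [h1, Matrix.gram_apply, Fin.snoc_last, real_inner_self_eq_norm_sq]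
  have h2 : (-1 : ℝ) ^ ((Fin.last n : ℕ) + (Fin.last n : ℕ)) = 1 := by
    rw [← two_mul, pow_mul]
    norm_num
  rw [h2]
  ring

lemma gd_snoc {n : ℕ} (b : Fin n → E) (v : E) :
    gd (Fin.snoc b v : Fin (n + 1) → E) = gd b * Metric.infDist v (Rs b : Set E) ^ 2 := by
  have : FiniteDimensional ℝ (Rs b) := FiniteDimensional.span_of_finite ℝ (Set.finite_range b)
  obtain ⟨p, hp, h, hh, hv⟩ := (Rs b).exists_add_mem_mem_orthogonal v
  have hh' : ∀ w ∈ Rs b, inner ℝ w h = 0 := fun w hw => Submodule.inner_right_of_mem_orthogonal hw hh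
  rw [hv, infDist_eq (Rs b) p h hp hh', ← gd_orth b h (fun i => hh' _ (Submodule.subset_span ⟨i, rfl⟩))]
  obtain ⟨a, ha⟩ := (Submodule.mem_span_range_iff_exists_fun ℝ).1 hp
  -- the unitriangular matrix
  let U : Matrix (Fin (n + 1)) (Fin (n + 1)) ℝ := fun i j =>
    if i = j then 1 else (Fin.lastCases (motive := fun _ => ℝ)
      (Fin.lastCases (motive := fun _ => ℝ) 0 (fun j => a j) j) (fun _ => 0) i)
  have hU1 : ∀ i : Fin n, ∀ j, U i.castSucc j = if i.castSucc = j then 1 else 0 := by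
    intro i j
    simp [U]
  have hU2 : ∀ j : Fin n, U (Fin.last n) j.castSucc = a j := by
    intro j
    simp [U, (Fin.castSucc_lt_last j).ne']
  have hU3 : U (Fin.last n) (Fin.last n) = 1 := by simp [U]
  have hdet : U.det = 1 := by
    rw [Matrix.det_of_lowerTriangular U]
    · refine Finset.prod_eq_one fun i _ => ?_
      simp [U]
    · intro i j hij
      have hij' : i < j := hij
      refine Fin.lastCases (motive := fun i => i < j → U i j = 0) ?_ ?_ i hij'
      · intro h
        exact absurd (Fin.le_last j) (not_le.2 h)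
      · intro i h
        rw [hU1, if_neg h.ne]
  have key : (Fin.snoc b (p + h) : Fin (n + 1) → E) =
      fun i => ∑ j, U i j • (Fin.snoc b h : Fin (n + 1) → E) j := by
    funext i
    refine Fin.lastCases ?_ ?_ i
    · rw [Fin.snoc_last, Fin.sum_univ_castSucc, hU3, Fin.snoc_last, one_smul, ← ha]
      congr 1
      refine Finset.sum_congr rfl fun j _ => ?_
      rw [hU2, Fin.snoc_castSucc]
    · intro i
      rw [Fin.snoc_castSucc, Finset.sum_eq_single i.castSucc]
      · rw [hU1, if_pos rfl, one_smul, Fin.snoc_castSucc]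
      · intro j _ hj
        rw [hU1, if_neg hj.symm, zero_smul]
      · intro h
        exact absurd (Finset.mem_univ _) h
  rw [key, gd_lin, hdet]
  ring

end GRAM

open GRAM in
theorem specGRA : SpecGRA := by
  intro E _ _ n b
  refine ⟨(Matrix.posSemidef_gram ℝ b).det_nonneg, ?_, gd_snoc b, gd_lin b⟩
  constructor
  · intro h
    exact (Matrix.posDef_gram_iff_linearIndependent.2 h).det_pos
  · intro h
    exact Matrix.det_gram_ne_zero_iff_linearIndependent.1 (ne_of_gt h)

end Pool.Agent.Lib.MPcb8a44.RC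
end

section
/-! Module GSM (summability of Gaussian sums). -/
set_option autoImplicit false

open scoped BigOperators

namespace Pool.Agent.Lib.MPcb8a44.RC

namespace GSMM

theorem summable_nat {c : ℝ} (hc : 0 < c) : Summable fun x : ℕ => Real.exp (-(c * (x : ℝ) ^ 2)) := by
  have h1 : Summable fun x : ℕ => Real.exp (-c) ^ x :=
    summable_geometric_of_lt_one (Real.exp_pos _).le (by
      rw [Real.exp_lt_one_iff]; linarith)
  refine Summable.of_nonneg_of_le (fun x => (Real.exp_pos _).le) (fun x => ?_) h1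
  rw [← Real.exp_nat_mul]
  apply Real.exp_le_exp.mpr
  have h2 : (x : ℝ) ≤ (x : ℝ) ^ 2 := by
    have h3 : x ≤ x ^ 2 := Nat.le_self_pow (by norm_num) x
    exact_mod_cast h3
  nlinarith

theorem summable_int {c : ℝ} (hc : 0 < c) : Summable fun x : ℤ => Real.exp (-(c * (x : ℝ) ^ 2)) := by
  apply Summable.of_nat_of_neg
  · exact_mod_cast summable_nat hc
  · refine (summable_nat hc).congr (fun x => ?_)
    push_cast
    rw [neg_sq]

theorem summable_pi {f : ℤ → ℝ} (hf : Summable f) (h0 : ∀ x, 0 ≤ f x) (n : ℕ) :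
    Summable fun x : Fin n → ℤ => ∏ i, f (x i) := by
  induction n with
  | zero => exact (hasSum_fintype _).summable
  | succ n ih =>
    have h1 := hf.mul_of_nonneg ih h0 (fun x => Finset.prod_nonneg fun i _ => h0 _)
    rw [← (Fin.consEquiv (fun _ => ℤ)).summable_iff]
    refine h1.congr (fun x => ?_)
    simp [Fin.prod_univ_succ, Fin.consEquiv]

end GSMM

open GSMM in
theorem specGSM : SpecGSM := by
  intro E _ _ n b κ v hb hκ
  have hker : LinearMap.ker (Fintype.linearCombination ℝ b) = ⊥ := by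
    rw [LinearMap.ker_eq_bot']
    intro t ht
    funext i
    rw [Fintype.linearCombination_apply] at ht
    exact Fintype.linearIndependent_iff.mp hb t ht i
  obtain ⟨K, hK, hL⟩ := LinearMap.exists_antilipschitzWith _ hker
  have hK' : (0 : ℝ) < K := by exact_mod_cast hK
  set c : ℝ := κ / (2 * (n + 1) * K ^ 2) with hc
  have hcpos : 0 < c := by positivity
  have hS := (summable_pi (summable_int hcpos) (fun x => (Real.exp_pos _).le) n).mul_left
    (Real.exp (κ * ‖v‖ ^ 2))
  refine Summable.of_nonneg_of_le (fun x => (Real.exp_pos _).le) (fun x => ?_) hS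
  rw [← Real.exp_sum, ← Real.exp_add]
  apply Real.exp_le_exp.mpr
  set t : Fin n → ℝ := fun i => (x i : ℝ) with ht
  have hz : zc b x = Fintype.linearCombination ℝ b t := by
    rw [Fintype.linearCombination_apply]
    rfl
  have h1 : ‖t‖ ≤ K * ‖zc b x‖ := by
    rw [hz]
    exact ZeroHomClass.bound_of_antilipschitz _ hL t
  have h2 : ∀ i, (x i : ℝ) ^ 2 ≤ K ^ 2 * ‖zc b x‖ ^ 2 := by
    intro i
    have h3 : |(x i : ℝ)| ≤ K * ‖zc b x‖ := by
      have := norm_le_pi_norm t i
      rw [Real.norm_eq_abs] at this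
      exact this.trans h1
    rw [← mul_pow, ← sq_abs (x i : ℝ)]
    exact pow_le_pow_left₀ (abs_nonneg _) h3 2
  have h3 : ∑ i, (x i : ℝ) ^ 2 ≤ n * (K ^ 2 * ‖zc b x‖ ^ 2) := by
    have := Finset.sum_le_card_nsmul Finset.univ (fun i => (x i : ℝ) ^ 2) _ (fun i _ => h2 i)
    simpa using this
  have h4 : c * ∑ i, (x i : ℝ) ^ 2 ≤ κ * ‖zc b x‖ ^ 2 / 2 := by
    have h5 : c * ∑ i, (x i : ℝ) ^ 2 ≤ c * (n * (K ^ 2 * ‖zc b x‖ ^ 2)) :=
      mul_le_mul_of_nonneg_left h3 hcpos.le
    refine h5.trans ?_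
    have h6 : c * (n * (K ^ 2 * ‖zc b x‖ ^ 2)) = (n / (n + 1)) * (κ * ‖zc b x‖ ^ 2 / 2) := by
      rw [hc]; field_simp
    rw [h6]
    have h7 : (n : ℝ) / (n + 1) ≤ 1 := by
      rw [div_le_one (by positivity)]; linarith
    have h8 : 0 ≤ κ * ‖zc b x‖ ^ 2 / 2 := by positivity
    nlinarith
  have h5 : ‖zc b x‖ ^ 2 ≤ 2 * ‖v + zc b x‖ ^ 2 + 2 * ‖v‖ ^ 2 := by
    have h6 : ‖zc b x‖ ≤ ‖v + zc b x‖ + ‖v‖ := by
      have h7 : zc b x = (v + zc b x) - v := by abel
      calc ‖zc b x‖ = ‖(v + zc b x) - v‖ := by rw [← h7]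
        _ ≤ _ := norm_sub_le _ _
    have h8 := norm_nonneg (zc b x)
    nlinarith [sq_nonneg (‖v + zc b x‖ - ‖v‖), norm_nonneg (v + zc b x), norm_nonneg v]
  have h6 : ∑ i, -(c * (x i : ℝ) ^ 2) = -(c * ∑ i, (x i : ℝ) ^ 2) := by
    rw [Finset.sum_neg_distrib, Finset.mul_sum]
  rw [h6]
  nlinarith

end Pool.Agent.Lib.MPcb8a44.RC
end

section
/-!
# GSP: splitting off a sublattice in a Gaussian sum
-/
open NumberField Module

namespace Pool.Agent.Lib.MPcb8a44.RC

namespace GSPM

variable {E : Type} [NormedAddCommGroup E] [InnerProductSpace ℝ E]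

theorem zc_append {m k : ℕ} (c : Fin m → E) (e : Fin k → E) (x : Fin m → ℤ) (l : Fin k → ℤ) :
    zc (Fin.append c e) (Fin.append x l) = zc e l + zc c x := by
  unfold zc
  rw [Fin.sum_univ_add, add_comm]
  simp

end GSPM

open GSPM in
theorem specGSP (hGSM : SpecGSM) (hPJE : SpecPJE) (hGTH : SpecGTH) : SpecGSP := by
  intro E _ _ m k c e e' z hind hpj
  obtain ⟨-, h1, h2, -⟩ := (hPJE E m k c e).2 e' hpj
  have he' : LinearIndependent ℝ e' := h1 hind
  have hc : LinearIndependent ℝ c := by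
    have h3 := hind.comp (Fin.castAdd k) (Fin.castAdd_injective m k)
    have h4 : Fin.append c e ∘ Fin.castAdd k = c := by
      funext i
      exact Fin.append_left c e i
    rwa [h4] at h3
  set κ : ℝ := Real.pi * Real.exp (-2 * z) with hκ
  have hκ0 : 0 < κ := by positivity
  set ε : (Fin k → ℤ) × (Fin m → ℤ) ≃ (Fin (m + k) → ℤ) :=
    (Equiv.prodComm _ _).trans (Fin.appendEquiv m k) with hε
  set F : (Fin k → ℤ) × (Fin m → ℤ) → ℝ :=
    fun q => Real.exp (-(κ * ‖zc e q.1 + zc c q.2‖ ^ 2)) with hF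
  have hval : ∀ q, Real.exp (-(κ * ‖zc (Fin.append c e) (ε q)‖ ^ 2)) = F q := by
    intro q
    have h3 : ε q = Fin.append q.2 q.1 := rfl
    rw [h3, zc_append]
  have hsum : Summable F := by
    have h3 := hGSM E (m + k) (Fin.append c e) κ 0 hind hκ0
    simp only [zero_add] at h3
    have h4 := (ε.summable_iff).2 h3
    refine h4.congr (fun q => ?_)
    exact hval q
  have htot : th z (Fin.append c e) = ∑' l : Fin k → ℤ, ths z c (zc e l) := by
    have h3 : th z (Fin.append c e) = ∑' q, F q := by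
      unfold th
      rw [← ε.tsum_eq]
      exact tsum_congr hval
    rw [h3, hsum.tsum_prod]
    rfl
  rw [htot]
  have hs1 : Summable fun l : Fin k → ℤ => ths z c (zc e l) := hsum.prod
  have hs2 : Summable fun l : Fin k → ℤ => Real.exp (-(κ * ‖zc e' l‖ ^ 2)) := by
    have h3 := hGSM E k e' κ 0 he' hκ0
    simpa only [zero_add] using h3
  have hle : ∀ l : Fin k → ℤ, ths z c (zc e l) ≤
      Real.exp (-(κ * ‖zc e' l‖ ^ 2)) * th z c := by
    intro l
    have h3 := (hGTH E m c z hc).1 (zc e l)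
    rw [← h2 l] at h3
    exact h3
  calc ∑' l : Fin k → ℤ, ths z c (zc e l)
      ≤ ∑' l : Fin k → ℤ, Real.exp (-(κ * ‖zc e' l‖ ^ 2)) * th z c :=
        hs1.tsum_le_tsum hle (hs2.mul_right _)
    _ = (∑' l : Fin k → ℤ, Real.exp (-(κ * ‖zc e' l‖ ^ 2))) * th z c := tsum_mul_right
    _ = th z c * th z e' := by rw [mul_comm]; rfl

end Pool.Agent.Lib.MPcb8a44.RC
end

section
/-!
# MKW: Minkowski's theorem for the cube inside the ball
-/
open NumberField Module MeasureTheory

namespace Pool.Agent.Lib.MPcb8a44.RC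

namespace MKWM

/-- Minkowski for the cube in `Fin n → ℝ`. -/
theorem cube {n : ℕ} (B : Basis (Fin n) ℝ (Fin n → ℝ)) (μ : ℝ) (hμ : 0 < μ)
    (h : |(Matrix.of B).det| < μ ^ n) :
    ∃ x ∈ Submodule.span ℤ (Set.range B), x ≠ 0 ∧ ∀ i, |x i| < μ := by
  set s : Set (Fin n → ℝ) := Set.pi Set.univ (fun _ => Set.Ioo (-μ) μ) with hs
  have hvol : volume s = ENNReal.ofReal ((2 * μ) ^ n) := by
    rw [hs, Real.volume_pi_Ioo]
    simp only [sub_neg_eq_add, Finset.prod_const, Finset.card_univ, Fintype.card_fin]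
    rw [← ENNReal.ofReal_pow (by linarith)]
    congr 2
    ring
  have hc : Countable (Submodule.span ℤ (Set.range B)).toAddSubgroup := by
    change Countable (Submodule.span ℤ (Set.range B))
    infer_instance
  obtain ⟨x, hx0, hxs⟩ := exists_ne_zero_mem_lattice_of_measure_mul_two_pow_lt_measure
    (μ := volume) (s := s) (ZSpan.isAddFundamentalDomain' B volume) (by
      intro x hx i hi
      have h1 := hx i hi
      simp only [Set.mem_Ioo, Pi.neg_apply] at h1 ⊢
      constructor <;> linarith [h1.1, h1.2]) (by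
      rw [hs]
      exact convex_pi (fun i _ => convex_Ioo _ _)) (by
      rw [hvol, ZSpan.volume_fundamentalDomain]
      have h2 : (2 : ENNReal) ^ finrank ℝ (Fin n → ℝ) = ENNReal.ofReal (2 ^ n) := by
        rw [finrank_fin_fun, ENNReal.ofReal_pow (by norm_num)]
        norm_num
      rw [h2, ← ENNReal.ofReal_mul (abs_nonneg _)]
      rw [ENNReal.ofReal_lt_ofReal_iff (by positivity), mul_pow, mul_comm]
      exact mul_lt_mul_of_pos_left h (by positivity))
  refine ⟨(x : Fin n → ℝ), x.2, ?_, ?_⟩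
  · intro h0
    exact hx0 (Subtype.ext h0)
  · intro i
    have h1 := hxs i (Set.mem_univ i)
    rw [abs_lt]
    exact ⟨h1.1, h1.2⟩

end MKWM

open MKWM in
theorem specMKW : SpecMKW := by
  intro E _ _ n b μ hb hμ hlong
  by_contra hcon
  rw [not_le] at hcon
  -- coordinates
  have hfd : FiniteDimensional ℝ (Rs b) := FiniteDimensional.span_of_finite ℝ (Set.finite_range b)
  have hfr : finrank ℝ (Rs b) = n := by
    have := finrank_span_eq_card hb
    rwa [Fintype.card_fin] at this
  let u : OrthonormalBasis (Fin n) ℝ (Rs b) :=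
    (stdOrthonormalBasis ℝ (Rs b)).reindex (finCongr hfr)
  let bb : Basis (Fin n) ℝ (Rs b) := Basis.span hb
  have hbb : ∀ i, ((bb i : Rs b) : E) = b i := fun i =>
    congrArg Subtype.val (Basis.span_apply hb i)
  let T : Rs b ≃ₗ[ℝ] (Fin n → ℝ) := u.repr.toLinearEquiv.trans (WithLp.linearEquiv 2 ℝ (Fin n → ℝ))
  let B : Basis (Fin n) ℝ (Fin n → ℝ) := bb.map T
  have hT : ∀ v w : Rs b, ∑ i, T v i * T w i = inner ℝ (v : E) (w : E) := by
    intro v w
    have h1 : inner ℝ (u.repr v) (u.repr w) = inner ℝ v w := u.repr.inner_map_map v w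
    rw [PiLp.inner_apply] at h1
    change _ = inner ℝ v w
    rw [← h1]
    refine Finset.sum_congr rfl (fun i _ => ?_)
    change T v i * T w i = inner ℝ (T v i) (T w i)
    simp [mul_comm]
  have hdet : (Matrix.of B).det ^ 2 = gd b := by
    have h1 : (Matrix.of B : Matrix (Fin n) (Fin n) ℝ) * (Matrix.of B).transpose =
        Matrix.gram ℝ b := by
      ext i j
      rw [Matrix.mul_apply, Matrix.gram_apply]
      have h2 := hT (bb i) (bb j)
      rw [hbb, hbb] at h2
      rw [← h2]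
      rfl
    rw [gd, ← h1, Matrix.det_mul, Matrix.det_transpose, sq]
  have habs : |(Matrix.of B).det| < μ ^ n := by
    rw [← hdet, mul_comm 2 n, pow_mul] at hcon
    exact abs_lt_of_sq_lt_sq hcon (by positivity)
  obtain ⟨x, hx, hx0, hxμ⟩ := cube B μ hμ habs
  -- back
  have h1 : ((T.symm x : Rs b) : E) ∈ Zs b := by
    have h2 : T.symm x ∈ Submodule.span ℤ (Set.range bb) := by
      have h3 := Submodule.mem_map_of_mem (f := (T.symm.toLinearMap.restrictScalars ℤ)) hx
      rw [Submodule.map_span] at h3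
      refine Submodule.span_mono ?_ h3
      rintro _ ⟨_, ⟨i, rfl⟩, rfl⟩
      refine ⟨i, ?_⟩
      change bb i = T.symm (T (bb i))
      rw [T.symm_apply_apply]
    have h3 := Submodule.mem_map_of_mem (f := ((Rs b).subtype.restrictScalars ℤ)) h2
    rw [Submodule.map_span] at h3
    refine Submodule.span_mono ?_ h3
    rintro _ ⟨_, ⟨i, rfl⟩, rfl⟩
    exact ⟨i, (hbb i).symm⟩
  have h2 : ((T.symm x : Rs b) : E) ≠ 0 := by
    intro h
    apply hx0
    have h3 : T.symm x = 0 := Subtype.ext h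
    rwa [LinearEquiv.map_eq_zero_iff] at h3
  have h3 := hlong _ h1 h2
  have h4 : ‖((T.symm x : Rs b) : E)‖ ^ 2 = ∑ i, x i ^ 2 := by
    rw [← real_inner_self_eq_norm_sq, ← hT]
    refine Finset.sum_congr rfl (fun i _ => ?_)
    rw [T.apply_symm_apply, sq]
  rw [h4] at h3
  have hn : 0 < n := by
    rcases Nat.eq_zero_or_pos n with h | h
    · exfalso
      subst h
      exact hx0 (Subsingleton.elim _ _)
    · exact h
  have h5 : ∑ i, x i ^ 2 < ∑ _i : Fin n, μ ^ 2 := by
    refine Finset.sum_lt_sum_of_nonempty ⟨⟨0, hn⟩, Finset.mem_univ _⟩ (fun i _ => ?_)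
    have := hxμ i
    rw [← sq_abs]
    exact pow_lt_pow_left₀ this (abs_nonneg _) (by norm_num)
  rw [Finset.sum_const, Finset.card_univ, Fintype.card_fin, nsmul_eq_mul] at h5
  linarith

end Pool.Agent.Lib.MPcb8a44.RC
end

section
/-!
# PJE: orthogonal components
-/
open NumberField Module

namespace Pool.Agent.Lib.MPcb8a44.RC

namespace PJEM

variable {E : Type} [NormedAddCommGroup E] [InnerProductSpace ℝ E]

theorem exists_pj {m k : ℕ} (c : Fin m → E) (e : Fin k → E) : ∃ e', PJ c e e' := by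
  have hfin : FiniteDimensional ℝ (Rs c) := FiniteDimensional.span_of_finite ℝ (Set.finite_range c)
  have h1 : ∀ i, ∃ z : E, e i - z ∈ Rs c ∧ ∀ w ∈ Rs c, inner ℝ w z = 0 := by
    intro i
    obtain ⟨y, hy, z, hz, hyz⟩ := (Rs c).exists_add_mem_mem_orthogonal (e i)
    refine ⟨z, ?_, ?_⟩
    · rw [hyz, add_sub_cancel_right]
      exact hy
    · exact fun w hw => (Submodule.mem_orthogonal _ _).1 hz w hw
  choose e' he' using h1
  exact ⟨e', he'⟩

theorem gd_append_orth {m k : ℕ} (c : Fin m → E) (e : Fin k → E)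
    (h : ∀ i j, inner ℝ (c i) (e j) = 0) : gd (Fin.append c e) = gd c * gd e := by
  unfold gd
  rw [← Matrix.det_submatrix_equiv_self finSumFinEquiv (Matrix.gram ℝ (Fin.append c e))]
  have h1 : (Matrix.gram ℝ (Fin.append c e)).submatrix finSumFinEquiv finSumFinEquiv =
      Matrix.fromBlocks (Matrix.gram ℝ c) 0 0 (Matrix.gram ℝ e) := by
    ext i j
    rcases i with i | i <;> rcases j with j | j
    · simp [Matrix.gram_apply]
    · simp [Matrix.gram_apply, h]
    · simp [Matrix.gram_apply, real_inner_comm, h]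
    · simp [Matrix.gram_apply]
  rw [h1, Matrix.det_fromBlocks_zero₂₁]

theorem gd_append_eq (hGRA : SpecGRA) {m k : ℕ} (c : Fin m → E) (e e' : Fin k → E)
    (h : ∀ i, e i - e' i ∈ Rs c) : gd (Fin.append c e) = gd (Fin.append c e') := by
  have h1 : ∀ i, ∃ a : Fin m → ℝ, ∑ j, a j • c j = e i - e' i := fun i =>
    (Submodule.mem_span_range_iff_exists_fun ℝ).1 (h i)
  choose A hA using h1
  set B : Matrix (Fin m ⊕ Fin k) (Fin m ⊕ Fin k) ℝ :=
    Matrix.fromBlocks 1 0 (Matrix.of A) 1 with hB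
  set U : Matrix (Fin (m + k)) (Fin (m + k)) ℝ :=
    B.submatrix finSumFinEquiv.symm finSumFinEquiv.symm with hU
  have hdet : U.det = 1 := by
    rw [hU, Matrix.det_submatrix_equiv_self, hB, Matrix.det_fromBlocks_zero₁₂]
    simp
  have h2 : (fun i => ∑ j, U i j • Fin.append c e' j) = Fin.append c e := by
    funext i
    rw [Fin.sum_univ_add]
    refine Fin.addCases (fun i => ?_) (fun i => ?_) i
    · simp [hU, hB, Matrix.one_apply]
    · have h3 : ∑ j, A i j • c j = e i - e' i := hA i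
      simp [hU, hB, Matrix.one_apply, h3]
  have h4 := (hGRA E (m + k) (Fin.append c e')).2.2.2 U
  rw [h2, hdet] at h4
  rw [h4]
  ring

theorem infDist_eq {S : Submodule ℝ E} {v h : E} (h1 : v - h ∈ S)
    (h2 : ∀ w ∈ S, inner ℝ w h = 0) : Metric.infDist v (S : Set E) = ‖h‖ := by
  apply le_antisymm
  · refine (Metric.infDist_le_dist_of_mem h1).trans ?_
    rw [dist_eq_norm, sub_sub_cancel]
  · rw [Metric.le_infDist ⟨0, S.zero_mem⟩]
    intro y hy
    rw [dist_eq_norm]
    have h3 : v - y = (v - h - y) + h := by abel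
    have h4 : v - h - y ∈ S := S.sub_mem h1 hy
    have h5 := norm_add_sq_real (v - h - y) h
    rw [h2 _ h4, ← h3] at h5
    have h6 : ‖h‖ ^ 2 ≤ ‖v - y‖ ^ 2 := by
      rw [h5]
      nlinarith [sq_nonneg ‖v - h - y‖]
    exact (pow_le_pow_iff_left₀ (norm_nonneg _) (norm_nonneg _) (by norm_num)).1 h6

theorem rs_le_left {m k : ℕ} (c : Fin m → E) (e : Fin k → E) : Rs c ≤ Rs (Fin.append c e) := by
  rw [Submodule.span_le]
  rintro x ⟨i, rfl⟩
  exact Submodule.subset_span ⟨Fin.castAdd k i, Fin.append_left c e i⟩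

end PJEM

open PJEM in
theorem specPJE (hGRA : SpecGRA) : SpecPJE := by
  intro E _ _ m k c e
  refine ⟨exists_pj c e, ?_⟩
  intro e' he'
  have h1 : gd (Fin.append c e) = gd c * gd e' := by
    rw [gd_append_eq hGRA c e e' (fun i => (he' i).1)]
    exact gd_append_orth c e' (fun i j => (he' j).2 _ (Submodule.subset_span ⟨i, rfl⟩))
  refine ⟨h1, ?_, ?_, ?_⟩
  · intro hind
    have h2 := (hGRA E (m + k) (Fin.append c e)).2.1.1 hind
    rw [h1] at h2
    have h3 : 0 ≤ gd c := (hGRA E m c).1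
    rw [(hGRA E k e').2.1]
    by_contra hcon
    have h4 : gd e' ≤ 0 := not_lt.1 hcon
    exact absurd h2 (not_lt.2 (mul_nonpos_of_nonneg_of_nonpos h3 h4))
  · intro x
    symm
    apply infDist_eq
    · unfold zc
      rw [← Finset.sum_sub_distrib]
      refine Submodule.sum_mem _ (fun i _ => ?_)
      rw [← smul_sub]
      exact Submodule.smul_mem _ _ (he' i).1
    · intro w hw
      unfold zc
      rw [inner_sum]
      refine Finset.sum_eq_zero (fun i _ => ?_)
      rw [inner_smul_right, (he' i).2 w hw, mul_zero]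
  · intro i
    have h2 : e' i = e i - (e i - e' i) := by abel
    rw [h2]
    refine Submodule.sub_mem _ ?_ (rs_le_left c e (he' i).1)
    exact Submodule.subset_span ⟨Fin.natAdd m i, Fin.append_right c e i⟩

end Pool.Agent.Lib.MPcb8a44.RC
end

section
set_option autoImplicit false

open NumberField Module

namespace Pool.Agent.Lib.MPcb8a44.RC

namespace POIM

open MeasureTheory Set

/-- Integer vectors as real vectors. -/
def ix {n : ℕ} (x : Fin n → ℤ) : Fin n → ℝ := fun i => (x i : ℝ)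

lemma ix_add {n : ℕ} (x y : Fin n → ℤ) : ix (x + y) = ix x + ix y := by
  funext i
  simp [ix]

/-- The exponential. -/
noncomputable def ek {n : ℕ} (k : Fin n → ℤ) (t : Fin n → ℝ) : ℂ :=
  Complex.exp (-(2 * Real.pi * Complex.I * ∑ i, (k i : ℂ) * (t i : ℂ)))

lemma ek_norm {n : ℕ} (k : Fin n → ℤ) (t : Fin n → ℝ) : ‖ek k t‖ = 1 := by
  have h : -(2 * (Real.pi : ℂ) * Complex.I * ∑ i, (k i : ℂ) * (t i : ℂ)) =
      ((-(2 * Real.pi * ∑ i, (k i : ℝ) * t i) : ℝ) : ℂ) * Complex.I := by
    push_cast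
    ring
  unfold ek
  rw [h, Complex.norm_exp_ofReal_mul_I]

lemma ek_cont {n : ℕ} (k : Fin n → ℤ) : Continuous (ek k) := by
  unfold ek
  fun_prop

lemma ek_add {n : ℕ} (k : Fin n → ℤ) (t : Fin n → ℝ) (m : Fin n → ℤ) :
    ek k (t + ix m) = ek k t := by
  unfold ek
  have h : -(2 * (Real.pi : ℂ) * Complex.I * ∑ i, (k i : ℂ) * (((t + ix m) i : ℝ) : ℂ)) =
      -(2 * (Real.pi : ℂ) * Complex.I * ∑ i, (k i : ℂ) * (t i : ℂ)) +
        ((-∑ i, k i * m i : ℤ) : ℂ) * (2 * Real.pi * Complex.I) := by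
    simp only [Pi.add_apply, ix, Complex.ofReal_add, Complex.ofReal_intCast, mul_add,
      Finset.sum_add_distrib]
    push_cast
    ring
  rw [h, Complex.exp_add, Complex.exp_int_mul_two_pi_mul_I, mul_one]

/-- The cubes. -/
def cb {n : ℕ} (m : Fin n → ℤ) : Set (Fin n → ℝ) := {x | ∀ i, x i ∈ Ioc (m i : ℝ) (m i + 1)}

lemma cb_meas {n : ℕ} (m : Fin n → ℤ) : MeasurableSet (cb m) := by
  have : cb m = Set.pi Set.univ fun i => Ioc (m i : ℝ) (m i + 1) := by
    ext x
    simp [cb]
  rw [this]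
  exact MeasurableSet.univ_pi fun i => measurableSet_Ioc

lemma cb_disj {n : ℕ} : Pairwise (Function.onFun Disjoint (cb (n := n))) := by
  intro m m' hmm
  rw [Function.onFun, Set.disjoint_left]
  intro x hx hx'
  apply hmm
  funext i
  obtain ⟨h1, h2⟩ := hx i
  obtain ⟨h3, h4⟩ := hx' i
  have h5 : (m i : ℝ) < m' i + 1 := lt_of_lt_of_le h1 h4
  have h6 : (m' i : ℝ) < m i + 1 := lt_of_lt_of_le h3 h2
  have h7 : m i < m' i + 1 := by exact_mod_cast h5
  have h8 : m' i < m i + 1 := by exact_mod_cast h6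
  omega

lemma cb_union {n : ℕ} : (⋃ m : Fin n → ℤ, cb m) = univ := by
  rw [eq_univ_iff_forall]
  intro x
  rw [mem_iUnion]
  refine ⟨fun i => ⌈x i⌉ - 1, fun i => ?_⟩
  constructor
  · have := Int.ceil_lt_add_one (x i)
    push_cast
    linarith
  · have := Int.le_ceil (x i)
    push_cast
    linarith

lemma cb_add {n : ℕ} (m : Fin n → ℤ) (x : Fin n → ℝ) : x + ix m ∈ cb m ↔ x ∈ cb (0 : Fin n → ℤ) := by
  unfold cb ix
  simp only [mem_ofPred_eq, Pi.add_apply, mem_Ioc, Pi.zero_apply, Int.cast_zero]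
  refine forall_congr' fun i => ?_
  constructor
  · rintro ⟨h1, h2⟩
    constructor <;> linarith
  · rintro ⟨h1, h2⟩
    constructor <;> linarith

lemma integral_cb {n : ℕ} {V : Type} [NormedAddCommGroup V] [NormedSpace ℝ V]
    (h : (Fin n → ℝ) → V) (m : Fin n → ℤ) :
    ∫ x in cb m, h x = ∫ x in cb (0 : Fin n → ℤ), h (x + ix m) := by
  rw [← integral_indicator (cb_meas m), ← integral_indicator (cb_meas 0),
    ← integral_add_right_eq_self _ (ix m)]
  congr 1
  funext x
  by_cases hx : x ∈ cb (0 : Fin n → ℤ)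
  · rw [indicator_of_mem hx, indicator_of_mem ((cb_add m x).2 hx)]
  · rw [indicator_of_notMem hx, indicator_of_notMem (fun h => hx ((cb_add m x).1 h))]

lemma hasSum_cb {n : ℕ} {V : Type} [NormedAddCommGroup V] [NormedSpace ℝ V]
    (h : (Fin n → ℝ) → V) (hi : Integrable h) :
    HasSum (fun m : Fin n → ℤ => ∫ x in cb (0 : Fin n → ℤ), h (x + ix m)) (∫ x, h x) := by
  have h1 := hasSum_integral_iUnion (f := h) (μ := volume) (fun m : Fin n → ℤ => cb_meas m) cb_disj
    (by rw [cb_union]; exact hi.integrableOn)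
  rw [cb_union, setIntegral_univ] at h1
  have h2 : (fun m : Fin n → ℤ => ∫ x in cb m, h x) =
      fun m : Fin n → ℤ => ∫ x in cb (0 : Fin n → ℤ), h (x + ix m) := funext (integral_cb h)
  rwa [h2] at h1

/-- The periodization. -/
noncomputable def per {n : ℕ} (g : (Fin n → ℝ) → ℂ) (t : Fin n → ℝ) : ℂ :=
  ∑' x : Fin n → ℤ, g (t + ix x)

lemma per_add {n : ℕ} (g : (Fin n → ℝ) → ℂ) (t : Fin n → ℝ) (m : Fin n → ℤ) :
    per g (t + ix m) = per g t := by
  unfold per
  rw [← (Equiv.addLeft m).tsum_eq (fun x : Fin n → ℤ => g (t + ix x))]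
  refine tsum_congr fun x => ?_
  congr 1
  show t + ix m + ix x = t + ix (m + x)
  rw [ix_add, add_assoc]

lemma per_cont {n : ℕ} (g : (Fin n → ℝ) → ℂ) (hc : Continuous g)
    (hloc : ∀ R : ℝ, ∃ u : (Fin n → ℤ) → ℝ, Summable u ∧ ∀ x t, ‖t‖ ≤ R → ‖g (t + ix x)‖ ≤ u x) :
    Continuous (per g) := by
  rw [continuous_iff_continuousAt]
  intro t
  obtain ⟨u, hu, hu'⟩ := hloc (‖t‖ + 1)
  have h1 : ContinuousOn (per g) (Metric.ball 0 (‖t‖ + 1)) := by
    refine continuousOn_tsum (fun x => ?_) hu (fun x s hs => hu' x s ?_)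
    · exact (hc.comp (continuous_id.add continuous_const)).continuousOn
    · rw [mem_ball_zero_iff] at hs
      exact hs.le
  exact h1.continuousAt (Metric.isOpen_ball.mem_nhds (by rw [mem_ball_zero_iff]; linarith))

/-- The projection to the torus. -/
def prj {n : ℕ} (t : Fin n → ℝ) : UnitAddTorus (Fin n) := fun i => (t i : UnitAddCircle)

lemma prj_quot {n : ℕ} : IsOpenQuotientMap (prj (n := n)) := by
  have := IsOpenQuotientMap.piMap (A := fun _ : Fin n => ℝ) (B := fun _ : Fin n => UnitAddCircle)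
    (f := fun _ => (QuotientAddGroup.mk : ℝ → UnitAddCircle))
    (fun _ => QuotientAddGroup.isOpenQuotientMap_mk)
  exact this

lemma prj_eq {n : ℕ} {s t : Fin n → ℝ} (h : prj s = prj t) : ∃ m : Fin n → ℤ, s = t + ix m := by
  have h1 : ∀ i, ∃ m : ℤ, s i = t i + m := by
    intro i
    have h2 : ((s i : ℝ) : UnitAddCircle) = ((t i : ℝ) : UnitAddCircle) := congrFun h i
    rw [eq_comm, QuotientAddGroup.eq] at h2
    obtain ⟨m, hm⟩ := AddSubgroup.mem_zmultiples_iff.1 h2
    refine ⟨m, ?_⟩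
    rw [zsmul_one] at hm
    linarith
  choose m hm using h1
  exact ⟨m, funext hm⟩

lemma mFourier_prj {n : ℕ} (k : Fin n → ℤ) (t : Fin n → ℝ) :
    UnitAddTorus.mFourier (-k) (prj t) = ek k t := by
  show ∏ i, fourier ((-k) i) ((t i : ℝ) : UnitAddCircle) = _
  have : ∀ i, fourier ((-k) i) ((t i : ℝ) : UnitAddCircle) =
      Complex.exp (-(2 * Real.pi * Complex.I * ((k i : ℂ) * (t i : ℂ)))) := by
    intro i
    rw [fourier_coe_apply]
    congr 1
    push_cast [Pi.neg_apply]
    ring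
  rw [Finset.prod_congr rfl fun i _ => this i, ← Complex.exp_sum]
  unfold ek
  congr 1
  rw [Finset.sum_neg_distrib, Finset.mul_sum]

/-- Poisson summation in several variables. -/
theorem poisson {n : ℕ} (g : (Fin n → ℝ) → ℂ) (hc : Continuous g) (hi : Integrable g)
    (hloc : ∀ R : ℝ, ∃ u : (Fin n → ℤ) → ℝ, Summable u ∧ ∀ x t, ‖t‖ ≤ R → ‖g (t + ix x)‖ ≤ u x)
    (hsum : Summable fun k : Fin n → ℤ => ∫ s, g s * ek k s) (t : Fin n → ℝ) :
    HasSum (fun k : Fin n → ℤ => (∫ s, g s * ek k s) * ek (-k) t) (per g t) := by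
  have hpc := per_cont g hc hloc
  have hsurj : Function.Surjective (prj (n := n)) := prj_quot.surjective
  let f : UnitAddTorus (Fin n) → ℂ := fun θ => per g (Function.surjInv hsurj θ)
  have hf : ∀ s, f (prj s) = per g s := by
    intro s
    obtain ⟨m, hm⟩ := prj_eq (Function.surjInv_eq hsurj (prj s))
    show per g (Function.surjInv hsurj (prj s)) = per g s
    rw [hm, per_add]
  have hfc : Continuous f := by
    rw [prj_quot.isQuotientMap.continuous_iff]
    have : f ∘ prj = per g := funext hf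
    rw [this]
    exact hpc
  let fc : C(UnitAddTorus (Fin n), ℂ) := ⟨f, hfc⟩
  have hint : ∀ k : Fin n → ℤ, Integrable (fun s => g s * ek k s) := by
    intro k
    refine hi.mul_bdd (c := 1) (ek_cont k).aestronglyMeasurable ?_
    exact Filter.Eventually.of_forall fun s => (ek_norm k s).le
  have hcoef : ∀ k : Fin n → ℤ, UnitAddTorus.mFourierCoeff fc k = ∫ s, g s * ek k s := by
    intro k
    rw [UnitAddTorus.mFourierCoeff_eq_integral _ _ 0]
    have hset : {x : Fin n → ℝ | ∀ i, x i ∈ Ioc ((0 : Fin n → ℝ) i) ((0 : Fin n → ℝ) i + 1)} =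
        cb (0 : Fin n → ℤ) := by
      ext x
      simp [cb]
    rw [hset]
    have h1 : ∀ x : Fin n → ℝ, UnitAddTorus.mFourier (-k) (fun i => ((x i : ℝ) : UnitAddCircle)) •
        fc (fun i => ((x i : ℝ) : UnitAddCircle)) =
        ∑' m : Fin n → ℤ, g (x + ix m) * ek k (x + ix m) := by
      intro x
      have h2 : UnitAddTorus.mFourier (-k) (fun i => ((x i : ℝ) : UnitAddCircle)) = ek k x :=
        mFourier_prj k x
      have h3 : fc (fun i => ((x i : ℝ) : UnitAddCircle)) = per g x := hf x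
      rw [h2, h3, smul_eq_mul, mul_comm]
      unfold per
      rw [← tsum_mul_right]
      refine tsum_congr fun m => ?_
      rw [ek_add]
    rw [integral_congr_ae (Filter.Eventually.of_forall h1)]
    have h4 := integral_tsum_of_summable_integral_norm (μ := volume.restrict (cb (0 : Fin n → ℤ)))
      (F := fun (m : Fin n → ℤ) (x : Fin n → ℝ) => g (x + ix m) * ek k (x + ix m))
      (fun m => ((hint k).comp_add_right (ix m)).integrableOn)
      (by
        have := (hasSum_cb (fun x => ‖g x * ek k x‖) (hint k).norm).summable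
        exact this)
    rw [← h4]
    exact (hasSum_cb (fun x => g x * ek k x) (hint k)).tsum_eq
  have hsummable : Summable (UnitAddTorus.mFourierCoeff fc) := by
    refine hsum.congr fun k => ?_
    exact (hcoef k).symm
  have h1 := UnitAddTorus.hasSum_mFourier_series_apply_of_summable hsummable (prj t)
  have h2 : fc (prj t) = per g t := hf t
  rw [h2] at h1
  have h3 : (fun k : Fin n → ℤ => UnitAddTorus.mFourierCoeff fc k •
      UnitAddTorus.mFourier k (prj t)) =
      fun k : Fin n → ℤ => (∫ s, g s * ek k s) * ek (-k) t := by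
    funext k
    have h4 := mFourier_prj (-k) t
    rw [neg_neg] at h4
    rw [h4, hcoef k, smul_eq_mul]
  rwa [h3] at h1

variable {E : Type} [NormedAddCommGroup E] [InnerProductSpace ℝ E]

lemma half_bound (u v : E) : ‖v‖ ^ 2 / 2 - ‖u‖ ^ 2 ≤ ‖u + v‖ ^ 2 := by
  have h1 : ‖v‖ ≤ ‖u + v‖ + ‖u‖ := by
    have := norm_sub_le (u + v) u
    rwa [add_sub_cancel_left] at this
  have h2 : ‖v‖ ^ 2 ≤ (‖u + v‖ + ‖u‖) ^ 2 := by
    gcongr
  nlinarith [sq_nonneg (‖u + v‖ - ‖u‖)]

end POIM

open POIM MeasureTheory in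
theorem specPOI (hGSM : SpecGSM) (hGFT : SpecGFT) : SpecPOI := by
  intro E _ _ n b b' z t hb hdu
  obtain ⟨hR, hI⟩ := hdu
  -- `b'` is independent
  have hb' : LinearIndependent ℝ b' := by
    rw [Fintype.linearIndependent_iff]
    intro a ha i
    have h1 : inner ℝ (b i) (∑ j, a j • b' j) = a i := by
      rw [inner_sum, Finset.sum_eq_single i]
      · rw [inner_smul_right, hI, if_pos rfl, mul_one]
      · intro j _ hj
        rw [inner_smul_right, hI, if_neg (Ne.symm hj), mul_zero]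
      · intro h
        exact absurd (Finset.mem_univ _) h
    rw [← h1, ha, inner_zero_right]
  set κ := Real.pi * Real.exp (-2 * z) with hκ
  have hκ0 : 0 < κ := by positivity
  set T : (Fin n → ℝ) → E := fun t => ∑ i, t i • b i with hT
  have hTc : Continuous T := by
    rw [hT]
    fun_prop
  have hTadd : ∀ s x, T (s + ix x) = T s + zc b x := by
    intro s x
    simp only [hT, zc, ix, Pi.add_apply, add_smul, Finset.sum_add_distrib]
  set g : (Fin n → ℝ) → ℂ := fun s => ((Real.exp (-(κ * ‖T s‖ ^ 2)) : ℝ) : ℂ) with hg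
  have hgc : Continuous g := by
    rw [hg]
    fun_prop
  have hGF : ∀ k : Fin n → ℤ, ∫ s, g s * ek k s =
      ((Real.exp (z * n) / Real.sqrt (gd b) *
        Real.exp (-(Real.pi * Real.exp (2 * z) * ‖zc b' k‖ ^ 2)) : ℝ) : ℂ) := by
    intro k
    exact hGFT E n b b' z k hb ⟨hR, hI⟩
  have hgd : 0 < gd b := by
    exact (Matrix.posDef_gram_iff_linearIndependent.2 hb).det_pos
  have hgi : Integrable g := by
    by_contra hni
    have h1 := hGF 0
    have h2 : (fun s => g s * ek (0 : Fin n → ℤ) s) = g := by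
      funext s
      simp [ek]
    rw [h2, integral_undef hni] at h1
    have h3 : (0 : ℝ) < Real.exp (z * n) / Real.sqrt (gd b) *
        Real.exp (-(Real.pi * Real.exp (2 * z) * ‖zc b' (0 : Fin n → ℤ)‖ ^ 2)) := by
      have := Real.sqrt_pos.2 hgd
      positivity
    have h4 : Real.exp (z * n) / Real.sqrt (gd b) *
        Real.exp (-(Real.pi * Real.exp (2 * z) * ‖zc b' (0 : Fin n → ℤ)‖ ^ 2)) = 0 := by
      exact_mod_cast h1.symm
    linarith
  have hloc : ∀ R : ℝ, ∃ u : (Fin n → ℤ) → ℝ, Summable u ∧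
      ∀ x t, ‖t‖ ≤ R → ‖g (t + ix x)‖ ≤ u x := by
    intro R
    -- bound of `‖T s‖` on the ball
    obtain ⟨C, hC⟩ : ∃ C : ℝ, ∀ s : Fin n → ℝ, ‖s‖ ≤ R → ‖T s‖ ≤ C := by
      refine ⟨R * ∑ i, ‖b i‖, fun s hs => ?_⟩
      refine (norm_sum_le _ _).trans ?_
      rw [Finset.mul_sum]
      refine Finset.sum_le_sum fun i _ => ?_
      rw [norm_smul]
      exact mul_le_mul_of_nonneg_right ((norm_le_pi_norm s i).trans hs) (norm_nonneg _)
    refine ⟨fun x => Real.exp (κ * C ^ 2) * Real.exp (-(κ / 2 * ‖(0 : E) + zc b x‖ ^ 2)),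
      (hGSM E n b (κ / 2) 0 hb (half_pos hκ0)).mul_left _, fun x s hs => ?_⟩
    rw [hg]
    simp only [Complex.norm_real, Real.norm_eq_abs, Real.abs_exp]
    rw [← Real.exp_add, Real.exp_le_exp, hTadd, zero_add]
    have h1 := half_bound (T s) (zc b x)
    have h2 : ‖T s‖ ^ 2 ≤ C ^ 2 := by
      have := hC s hs
      gcongr
    nlinarith [mul_le_mul_of_nonneg_left h1 hκ0.le, mul_le_mul_of_nonneg_left h2 hκ0.le]
  have hsum : Summable fun k : Fin n → ℤ => ∫ s, g s * ek k s := by
    simp only [hGF]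
    have h1 := (hGSM E n b' (Real.pi * Real.exp (2 * z)) 0 hb' (by positivity)).mul_left
      (Real.exp (z * n) / Real.sqrt (gd b))
    simp only [zero_add] at h1
    exact_mod_cast (Complex.hasSum_ofReal.2 h1.hasSum).summable
  have hP := poisson g hgc hgi hloc hsum t
  -- real parts
  have hre := Complex.hasSum_re hP
  have e1 : (per g t).re = ths z b (∑ i, t i • b i) := by
    unfold per ths
    have h1 : ∀ x : Fin n → ℤ, g (t + ix x) =
        ((Real.exp (-(Real.pi * Real.exp (-2 * z) * ‖∑ i, t i • b i + zc b x‖ ^ 2)) : ℝ) : ℂ) := by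
      intro x
      rw [hg]
      simp only
      rw [hTadd]
    simp only [h1]
    rw [← Complex.ofReal_tsum, Complex.ofReal_re]
  have e2 : ∀ k : Fin n → ℤ, ((∫ s, g s * ek k s) * ek (-k) t).re =
      Real.exp (z * n) / Real.sqrt (gd b) *
        (Real.exp (-(Real.pi * Real.exp (2 * z) * ‖zc b' k‖ ^ 2)) *
          Real.cos (2 * Real.pi * ∑ i, (k i : ℝ) * t i)) := by
    intro k
    rw [hGF, Complex.re_ofReal_mul]
    have h1 : ek (-k) t = Complex.exp (((2 * Real.pi * ∑ i, (k i : ℝ) * t i : ℝ) : ℂ) *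
        Complex.I) := by
      unfold ek
      congr 1
      push_cast [Pi.neg_apply]
      simp only [neg_mul, Finset.sum_neg_distrib]
      ring
    rw [h1, Complex.exp_ofReal_mul_I_re]
    ring
  simp only [e2] at hre
  rw [e1] at hre
  rw [← tsum_mul_left]
  exact hre.tsum_eq.symm

end Pool.Agent.Lib.MPcb8a44.RC
end

section
/-!
# QDS: quotients of a lattice and sublattices of the dual
-/
open NumberField Module

namespace Pool.Agent.Lib.MPcb8a44.RC

namespace QDSM

variable {E : Type} [NormedAddCommGroup E] [InnerProductSpace ℝ E]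

theorem Zs_Rs {n : ℕ} (b : Fin n → E) {x : E} (hx : x ∈ Zs b) : x ∈ Rs b :=
  Submodule.span_subset_span ℤ ℝ _ hx

theorem Rs_le' {n m : ℕ} {b : Fin n → E} {c : Fin m → E} (h : ∀ i, b i ∈ Rs c) : Rs b ≤ Rs c := by
  refine Submodule.span_le.2 ?_
  rintro _ ⟨i, rfl⟩
  exact h i

theorem Rs_eq {n m : ℕ} {b : Fin n → E} {c : Fin m → E} (h : Zs b = Zs c) : Rs b = Rs c := by
  apply le_antisymm
  · exact Rs_le' fun i => Zs_Rs c (h ▸ Submodule.subset_span ⟨i, rfl⟩)
  · exact Rs_le' fun i => Zs_Rs b (h.symm ▸ Submodule.subset_span ⟨i, rfl⟩)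

theorem inner_zero' {k : ℕ} (e' : Fin k → E) (v : E) (h : ∀ i, inner ℝ v (e' i) = 0) {w : E}
    (hw : w ∈ Rs e') : inner ℝ v w = 0 := by
  refine Submodule.span_induction (p := fun w _ => inner ℝ v w = 0) ?_ ?_ ?_ ?_ hw
  · rintro _ ⟨i, rfl⟩; exact h i
  · simp
  · intro x y _ _ hx hy; rw [inner_add_right, hx, hy, add_zero]
  · intro a x _ hx; rw [inner_smul_right, hx, mul_zero]

theorem inner_int {n : ℕ} (b : Fin n → E) (w : E) (h : ∀ i, ∃ k : ℤ, inner ℝ (b i) w = k) {x : E}
    (hx : x ∈ Zs b) : ∃ k : ℤ, inner ℝ x w = k := by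
  refine Submodule.span_induction (p := fun x _ => ∃ k : ℤ, inner ℝ x w = k) ?_ ?_ ?_ ?_ hx
  · rintro _ ⟨i, rfl⟩; exact h i
  · exact ⟨0, by simp⟩
  · rintro x y _ _ ⟨k, hk⟩ ⟨l, hl⟩; exact ⟨k + l, by rw [inner_add_left, hk, hl]; push_cast; ring⟩
  · rintro a x _ ⟨k, hk⟩
    refine ⟨a * k, ?_⟩
    rw [← Int.cast_smul_eq_zsmul ℝ, inner_smul_left, hk]
    simp

end QDSM

open QDSM in
theorem specQDS (hGRA : SpecGRA) (hPJE : SpecPJE) (hZIX : SpecZIX) (hDUB : SpecDUB)
    (hADP : SpecADP) : SpecQDS := by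
  intro E _ _ n b b' y hb hbb' hQD m f hf hfi
  -- the orthogonal complement of f
  let S : Submodule ℝ E :=
    { carrier := {v | ∀ i, inner ℝ (f i) v = 0}
      add_mem' := fun {x y} hx hy i => by rw [inner_add_right, hx i, hy i, add_zero]
      zero_mem' := fun i => by simp
      smul_mem' := fun a x hx i => by rw [inner_smul_right, hx i, mul_zero] }
  obtain ⟨r, k, c, e, hrk, hce, hZ, hS⟩ := hADP E n b hb S
  subst hrk
  have hci : LinearIndependent ℝ c := by
    have := hce.comp (Fin.castAdd k) (Fin.castAdd_injective r k)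
    convert this using 1
    ext i
    simp
  have hcZ : ∀ i, c i ∈ Zs b := fun i => by
    rw [← hZ]
    have : c i = Fin.append c e (Fin.castAdd k i) := by simp
    rw [this]
    exact Submodule.subset_span ⟨_, rfl⟩
  have heZ : ∀ i, e i ∈ Zs b := fun i => by
    rw [← hZ]
    have : e i = Fin.append c e (Fin.natAdd r i) := by simp
    rw [this]
    exact Submodule.subset_span ⟨_, rfl⟩
  have hcf : ∀ i, ∀ v ∈ Rs c, inner ℝ (f i) v = 0 := by
    intro i v hv
    refine inner_zero' c (f i) (fun j => ?_) hv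
    exact (hS _ (hcZ j)).2 (Submodule.subset_span ⟨j, rfl⟩) i
  obtain ⟨⟨e', he'⟩, hPJ⟩ := hPJE E r k c e
  obtain ⟨hgd, hind, -, hmem⟩ := hPJ e' he'
  have he'i := hind hce
  have he'pos : 0 < gd e' := ((hGRA E k e').2.1).1 he'i
  obtain ⟨⟨g, hg⟩, hDg⟩ := hDUB E k e' he'i
  obtain ⟨hgi, hgg, -, -⟩ := hDg g hg
  have hgdb : gd b = gd (Fin.append c e) :=
    (hZIX E (r + k) b (Fin.append c e) hce
      (fun i => hZ ▸ Submodule.subset_span ⟨i, rfl⟩)).2.2 hZ.symm
  -- f in the span of e'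
  have hfe : ∀ i, f i ∈ Rs e' := by
    intro i
    have h1 : f i ∈ Rs (Fin.append c e) := by
      rw [Rs_eq hZ, ← hbb'.1]
      exact Zs_Rs b' (hf i)
    have h2 : Rs (Fin.append c e) ≤ Rs c ⊔ Rs e' := by
      refine Submodule.span_le.2 ?_
      rintro _ ⟨j, rfl⟩
      refine Fin.addCases (fun j => ?_) (fun j => ?_) j
      · rw [Fin.append_left]
        exact Submodule.mem_sup_left (Submodule.subset_span ⟨j, rfl⟩)
      · rw [Fin.append_right]
        have h3 : e j = (e j - e' j) + e' j := by abel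
        rw [h3]
        exact Submodule.add_mem_sup (he' j).1 (Submodule.subset_span ⟨j, rfl⟩)
    obtain ⟨u, hu, v, hv, huv⟩ := Submodule.mem_sup.1 (h2 h1)
    have h4 : inner ℝ u v = 0 := inner_zero' e' u (fun j => (he' j).2 u hu) hv
    have h5 : inner ℝ (f i) u = 0 := hcf i u hu
    have h6 : inner ℝ u u = (0 : ℝ) := by
      rw [← huv, inner_add_left, real_inner_comm, real_inner_comm u v] at h5
      rw [h4, add_zero] at h5
      exact h5
    have h7 : u = 0 := inner_self_eq_zero.1 h6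
    rw [← huv, h7, zero_add]
    exact hv
  -- the matrix
  have hint : ∀ i j, ∃ l : ℤ, inner ℝ (e' j) (f i) = l := by
    intro i j
    have h1 : inner ℝ (e j - e' j) (f i) = 0 := by
      rw [real_inner_comm]
      exact hcf i _ (he' j).1
    rw [inner_sub_left, sub_eq_zero] at h1
    rw [← h1]
    refine inner_int b (f i) (fun t => ?_) (heZ j)
    rw [real_inner_comm]
    refine inner_int b' (b t) (fun s => ?_) (hf i)
    rw [real_inner_comm, hbb'.2 t s]
    split_ifs
    · exact ⟨1, by simp⟩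
    · exact ⟨0, by simp⟩
  choose P hP using hint
  have hkm : k ≤ m := by
    have h1 := card_le_of_injective ℤ (Matrix.mulVecLin (Matrix.of P : Matrix (Fin m) (Fin k) ℤ))
      (by
        rw [← LinearMap.ker_eq_bot, LinearMap.ker_eq_bot']
        intro x hx
        have h2 : ∀ i, ∑ j, P i j * x j = 0 := by
          intro i
          have := congrFun hx i
          simpa [Matrix.mulVec, dotProduct] using this
        have h3 : zc e x ∈ Zs b := by
          refine Submodule.sum_mem _ (fun j _ => ?_)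
          rw [Int.cast_smul_eq_zsmul ℝ]
          exact Submodule.smul_mem _ _ (heZ j)
        have h4 : zc e x ∈ S := by
          intro i
          rw [zc, inner_sum]
          have h5 : ∀ j, inner ℝ (f i) ((x j : ℝ) • e j) = ((P i j * x j : ℤ) : ℝ) := by
            intro j
            have h6 : inner ℝ (f i) (e j - e' j) = 0 := hcf i _ (he' j).1
            rw [inner_sub_right, sub_eq_zero] at h6
            rw [inner_smul_right, h6, real_inner_comm, hP i j]
            push_cast
            ring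
          rw [Finset.sum_congr rfl (fun j _ => h5 j), ← Int.cast_sum, h2 i, Int.cast_zero]
        have h5 := Zs_Rs c ((hS _ h3).1 h4)
        obtain ⟨w, hw⟩ := (Submodule.mem_span_range_iff_exists_fun ℝ).1 h5
        have h6 : ∑ j : Fin (r + k), (Fin.append (fun i => w i) (fun j => -(x j : ℝ)) j) •
            Fin.append c e j = 0 := by
          rw [Fin.sum_univ_add]
          simp only [Fin.append_left, Fin.append_right]
          rw [hw, zc]
          simp
        have h7 := Fintype.linearIndependent_iff.1 hce _ h6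
        funext j
        have h8 := h7 (Fin.natAdd r j)
        rw [Fin.append_right] at h8
        have h9 : (x j : ℝ) = 0 := by linarith
        simpa using h9)
    simpa using h1
  have hmk : m ≤ k := by
    have h1 : Rs f ≤ Rs e' := Rs_le' hfe
    have h2 : FiniteDimensional ℝ (Rs e') := FiniteDimensional.span_of_finite ℝ (Set.finite_range e')
    have h3 := Submodule.finrank_mono h1
    have h4 := finrank_span_eq_card hfi
    have h5 := finrank_span_eq_card he'i
    rw [Fintype.card_fin] at h4 h5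
    rw [← h4, ← h5]
    exact h3
  obtain rfl : m = k := le_antisymm hmk hkm
  -- f = P g
  have hfP : (fun i => ∑ j, ((Matrix.of P : Matrix (Fin m) (Fin m) ℤ).map
      (fun l : ℤ => (l : ℝ))) i j • g j) = f := by
    funext i
    set w : E := f i - ∑ j, ((P i j : ℤ) : ℝ) • g j with hw
    have h1 : ∀ t, inner ℝ (e' t) w = 0 := by
      intro t
      rw [hw, inner_sub_right, hP i t, inner_sum]
      have h2 : ∀ j, inner ℝ (e' t) (((P i j : ℤ) : ℝ) • g j) = if t = j then ((P i j : ℤ) : ℝ) else 0 := by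
        intro j
        rw [inner_smul_right, hg.2 t j]
        split_ifs <;> simp
      rw [Finset.sum_congr rfl (fun j _ => h2 j)]
      simp
    have h2 : w ∈ Rs e' := by
      refine Submodule.sub_mem _ (hfe i) (Submodule.sum_mem _ (fun j _ => Submodule.smul_mem _ _ ?_))
      rw [← hg.1]
      exact Submodule.subset_span ⟨j, rfl⟩
    have h3 : inner ℝ w w = (0 : ℝ) := by
      refine inner_zero' e' w (fun t => ?_) h2
      rw [real_inner_comm]
      exact h1 t
    have h4 : w = 0 := inner_self_eq_zero.1 h3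
    have h5 := sub_eq_zero.1 h4
    rw [h5]
    rfl
  have h6 := (hGRA E m g).2.2.2 ((Matrix.of P : Matrix (Fin m) (Fin m) ℤ).map
      (fun l : ℤ => (l : ℝ)))
  rw [hfP] at h6
  have h7 : ((Matrix.of P : Matrix (Fin m) (Fin m) ℤ).map (fun l : ℤ => (l : ℝ))).det =
      (((Matrix.of P : Matrix (Fin m) (Fin m) ℤ).det : ℤ) : ℝ) :=
    (Int.cast_det _).symm
  rw [h7] at h6
  have h8 : 0 < gd f := (hGRA E m f).2.1.1 hfi
  have h9 : (1 : ℝ) ≤ (((Matrix.of P : Matrix (Fin m) (Fin m) ℤ).det : ℤ) : ℝ) ^ 2 := by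
    have h10 : (Matrix.of P : Matrix (Fin m) (Fin m) ℤ).det ≠ 0 := by
      intro h
      rw [h] at h6
      rw [h6] at h8
      simp at h8
    have h11 : 1 ≤ (Matrix.of P : Matrix (Fin m) (Fin m) ℤ).det ^ 2 := by
      have := sq_pos_of_ne_zero h10
      omega
    exact_mod_cast h11
  have hg0 : 0 ≤ gd g := (hGRA E m g).1
  have h12 : gd g ≤ gd f := by
    rw [h6]
    nlinarith
  -- conclusion
  have h13 := hQD r c hcZ hci
  rw [hgdb, hgd] at h13
  have hc0 : 0 < gd c := (hGRA E r c).2.1.1 hci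
  have h14 : gd e' ≤ Real.exp (2 * y * m) := by
    have h15 : (((r + m : ℕ) : ℝ) - r) = m := by push_cast; ring
    rw [h15, mul_comm] at h13
    exact le_of_mul_le_mul_right h13 hc0
  have h16 : Real.exp (2 * -y * m) = (Real.exp (2 * y * m))⁻¹ := by
    rw [← Real.exp_neg]
    congr 1
    ring
  rw [h16]
  refine le_trans ?_ h12
  have h17 : gd g = (gd e')⁻¹ := by
    field_simp
    linarith
  rw [h17]
  exact inv_anti₀ he'pos h14

end Pool.Agent.Lib.MPcb8a44.RC
end

section
set_option autoImplicit false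

open NumberField Module

namespace Pool.Agent.Lib.MPcb8a44.RC

namespace RMCM

variable {E : Type} [NormedAddCommGroup E] [InnerProductSpace ℝ E]

lemma gd_smul {n : ℕ} (b : Fin n → E) (t : ℝ) : gd (fun i => t • b i) = t ^ (2 * n) * gd b := by
  unfold gd
  have h : Matrix.gram ℝ (fun i => t • b i) = (t ^ 2) • Matrix.gram ℝ b := by
    ext i j
    rw [Matrix.gram_apply, Matrix.smul_apply, Matrix.gram_apply, inner_smul_left, inner_smul_right]
    simp
    ring
  rw [h, Matrix.det_smul, Fintype.card_fin, ← pow_mul]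

lemma zs_smul {n : ℕ} (b : Fin n → E) (t : ℝ) {x : E} (hx : x ∈ Zs (fun i => t • b i)) :
    ∃ y ∈ Zs b, x = t • y := by
  refine Submodule.span_induction (p := fun x _ => ∃ y ∈ Zs b, x = t • y) ?_ ?_ ?_ ?_ hx
  · rintro _ ⟨i, rfl⟩
    exact ⟨b i, Submodule.subset_span ⟨i, rfl⟩, rfl⟩
  · exact ⟨0, Submodule.zero_mem _, by rw [smul_zero]⟩
  · rintro _ _ - - ⟨y, hy, rfl⟩ ⟨z, hz, rfl⟩
    exact ⟨y + z, Submodule.add_mem _ hy hz, by rw [smul_add]⟩
  · rintro a _ - ⟨y, hy, rfl⟩
    exact ⟨a • y, Submodule.smul_mem _ _ hy, (smul_comm t a y).symm⟩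

lemma li_smul {n : ℕ} {b : Fin n → E} {t : ℝ} (ht : t ≠ 0) (hb : LinearIndependent ℝ b) :
    LinearIndependent ℝ (fun i => t • b i) := by
  have := hb.units_smul (fun _ => Units.mk0 t ht)
  exact this

end RMCM

open RMCM in
theorem specRMC : SpecRMC := by
  intro C hC E _ _ n k b c y hSD hc hli
  have he : Real.exp (-y) ≠ 0 := (Real.exp_pos _).ne'
  have he' : Real.exp y ≠ 0 := (Real.exp_pos _).ne'
  have hcb : Zs c ≤ Zs b := by
    rw [Submodule.span_le]
    rintro _ ⟨i, rfl⟩
    exact hc i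
  have h1 : SD 0 (fun i => Real.exp (-y) • c i) := by
    intro m f hf hfl
    have h2 : ∀ i, Real.exp y • f i ∈ Zs b := by
      intro i
      obtain ⟨z, hz, hfz⟩ := zs_smul c (Real.exp (-y)) (hf i)
      rw [hfz, smul_smul, ← Real.exp_add, add_neg_cancel, Real.exp_zero, one_smul]
      exact hcb hz
    have h3 := hSD m (fun i => Real.exp y • f i) h2 (li_smul he' hfl)
    rw [gd_smul, ← Real.exp_nat_mul] at h3
    have h4 : ((2 * m : ℕ) : ℝ) * y = 2 * y * m := by
      push_cast
      ring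
    rw [h4] at h3
    have h5 : Real.exp (2 * 0 * m) = 1 := by simp
    rw [h5]
    have h6 := Real.exp_pos (2 * y * m)
    by_contra hlt
    push Not at hlt
    nlinarith
  have h2 := hC E k (fun i => Real.exp (-y) • c i) (li_smul he hli) h1
  have h3 : th 0 (fun i => Real.exp (-y) • c i) = th y c := by
    unfold th
    refine tsum_congr fun x => ?_
    have h4 : zc (fun i => Real.exp (-y) • c i) x = Real.exp (-y) • zc c x := by
      unfold zc
      rw [Finset.smul_sum]
      refine Finset.sum_congr rfl fun i _ => ?_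
      rw [smul_comm]
    rw [h4, norm_smul, Real.norm_eq_abs, abs_of_pos (Real.exp_pos _), mul_pow, ← Real.exp_nat_mul]
    congr 1
    have h5 : ((2 : ℕ) : ℝ) * -y = -2 * y := by push_cast; ring
    rw [h5]
    simp only [mul_zero, Real.exp_zero, mul_one]
    ring
  rwa [h3] at h2

end Pool.Agent.Lib.MPcb8a44.RC
end

section
/-!
# ZIX: sublattices have larger Gram determinants
-/
open NumberField Module

namespace Pool.Agent.Lib.MPcb8a44.RC

namespace ZIXM

variable {E : Type} [NormedAddCommGroup E] [InnerProductSpace ℝ E]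

theorem key (hGRA : SpecGRA) {n : ℕ} (b c : Fin n → E) (hc : LinearIndependent ℝ c)
    (hcb : ∀ i, c i ∈ Zs b) : gd b ≤ gd c ∧ LinearIndependent ℝ b := by
  have h1 : ∀ i, ∃ u : Fin n → ℤ, ∑ j, u j • b j = c i := fun i =>
    (Submodule.mem_span_range_iff_exists_fun ℤ).1 (hcb i)
  choose U hU using h1
  set V : Matrix (Fin n) (Fin n) ℤ := Matrix.of U with hV
  set W : Matrix (Fin n) (Fin n) ℝ := V.map (fun k : ℤ => (k : ℝ)) with hW
  have h2 : (fun i => ∑ j, W i j • b j) = c := by
    funext i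
    rw [← hU i]
    refine Finset.sum_congr rfl (fun j _ => ?_)
    change ((U i j : ℤ) : ℝ) • b j = U i j • b j
    exact Int.cast_smul_eq_zsmul ℝ (U i j) (b j)
  obtain ⟨h3, h4, -, h5⟩ := hGRA E n b
  have h6 := h5 W
  rw [h2] at h6
  have h7 : W.det = (V.det : ℝ) := by
    rw [hW]
    exact (Int.cast_det V).symm
  have h8 : 0 < gd c := (hGRA E n c).2.1.1 hc
  rw [h6] at h8
  have h9 : W.det ≠ 0 := by
    intro h
    rw [h] at h8
    simp at h8
  have h10 : (1 : ℝ) ≤ W.det ^ 2 := by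
    rw [h7] at h9 ⊢
    have h11 : V.det ≠ 0 := by exact_mod_cast h9
    have h12 : 1 ≤ V.det ^ 2 := by
      have := sq_pos_of_ne_zero h11
      omega
    exact_mod_cast h12
  constructor
  · rw [h6]
    nlinarith
  · rw [h4]
    by_contra hcon
    have h13 : gd b = 0 := le_antisymm (not_lt.1 hcon) h3
    rw [h13, mul_zero] at h8
    exact lt_irrefl _ h8

end ZIXM

open ZIXM in
theorem specZIX (hGRA : SpecGRA) : SpecZIX := by
  intro E _ _ n b c hc hcb
  obtain ⟨h1, h2⟩ := key hGRA b c hc hcb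
  refine ⟨h1, h2, fun h => le_antisymm h1 ?_⟩
  refine (key hGRA c b h2 (fun i => ?_)).1
  rw [← h]
  exact Submodule.subset_span ⟨i, rfl⟩

end Pool.Agent.Lib.MPcb8a44.RC
end
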