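import Mathlib
import Pool.Agent.Lib.MP_cb8a44_nt.RD.Defs

/-!
# `P(O_K) ≤ 3` bounds the root discriminant absolutely: definitions (Theorem RC)

Notation.  `E` is a real inner product space; a lattice is given by a tuple `b : Fin n → E`, linearly
independent over `ℝ`; `K` is a number field, `d = finrank ℚ K`.
-/

set_option autoImplicit false

open NumberField Module
open scoped Pointwise

namespace Pool.Agent.Lib.MPcb8a44.RC

section Euclid

variable {E : Type} [NormedAddCommGroup E] [InnerProductSpace ℝ E]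

/-- Gram determinant of a tuple (the square of the covolume). -/
noncomputable def gd {n : ℕ} (b : Fin n → E) : ℝ := (Matrix.gram ℝ b).det

/-- Real span of a tuple. -/
abbrev Rs {n : ℕ} (b : Fin n → E) : Submodule ℝ E := Submodule.span ℝ (Set.range b)

/-- The lattice spanned by a tuple. -/
abbrev Zs {n : ℕ} (b : Fin n → E) : Submodule ℤ E := Submodule.span ℤ (Set.range b)

/-- Integer combinations. -/
noncomputable def zc {n : ℕ} (b : Fin n → E) (x : Fin n → ℤ) : E := ∑ i, (x i : ℝ) • b i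

/-- Shifted Gaussian sum of the lattice `Zs b` at the scale `exp z`. -/
noncomputable def ths {n : ℕ} (z : ℝ) (b : Fin n → E) (v : E) : ℝ :=
  ∑' x : Fin n → ℤ, Real.exp (-(Real.pi * Real.exp (-2 * z) * ‖v + zc b x‖ ^ 2))

/-- Gaussian sum of the lattice `Zs b` at the scale `exp z`. -/
noncomputable def th {n : ℕ} (z : ℝ) (b : Fin n → E) : ℝ :=
  ∑' x : Fin n → ℤ, Real.exp (-(Real.pi * Real.exp (-2 * z) * ‖zc b x‖ ^ 2))

/-- `b'` is the dual basis of `b`. -/
def DU {n : ℕ} (b b' : Fin n → E) : Prop :=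
  Rs b' = Rs b ∧ ∀ i j, inner ℝ (b i) (b' j) = if i = j then (1 : ℝ) else 0

/-- `e'` is the tuple of the components of `e` orthogonal to the span of `c`. -/
def PJ {m k : ℕ} (c : Fin m → E) (e e' : Fin k → E) : Prop :=
  ∀ i, e i - e' i ∈ Rs c ∧ ∀ w ∈ Rs c, inner ℝ w (e' i) = 0

/-- All sublattices of rank `m` have covolume at least `exp (y m)`. -/
def SD (y : ℝ) {n : ℕ} (b : Fin n → E) : Prop :=
  ∀ (m : ℕ) (c : Fin m → E), (∀ i, c i ∈ Zs b) → LinearIndependent ℝ c →
    Real.exp (2 * y * m) ≤ gd c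

/-- All quotients of rank `k` have covolume at most `exp (y k)`. -/
def QD (y : ℝ) {n : ℕ} (b : Fin n → E) : Prop :=
  ∀ (m : ℕ) (c : Fin m → E), (∀ i, c i ∈ Zs b) → LinearIndependent ℝ c →
    gd b ≤ Real.exp (2 * y * ((n : ℝ) - m)) * gd c

end Euclid

/-- The exponential reverse Minkowski inequality with constant `C` (block RM, helper98). -/
def RMs (C : ℝ) : Prop :=
  ∀ (E : Type) [NormedAddCommGroup E] [InnerProductSpace ℝ E] (n : ℕ) (b : Fin n → E),
    LinearIndependent ℝ b → SD 0 b → th 0 b ≤ C ^ n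

section Field

variable {K : Type} [Field K] [NumberField K]

/-- The Euclidean space of a number field. -/
abbrev EK (K : Type) [Field K] [NumberField K] : Type := EuclideanSpace ℝ (K →+* ℂ)

/-- The embedding of `K` in its Euclidean space (real parts of the conjugates; used for totally real
`K`). -/
noncomputable def ev (x : K) : EK K := WithLp.toLp 2 fun φ : K →+* ℂ => (φ x).re

/-- Gaussian sum over a subset of `K` at the scale `exp z`. -/
noncomputable def rhs (z : ℝ) (S : Set K) : ℝ :=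
  ∑' x : S, Real.exp (-(Real.pi * Real.exp (-2 * z) * ‖ev (x : K)‖ ^ 2))

/-- Gaussian sum over a lattice in `K` at the scale `exp z`. -/
noncomputable def rh (z : ℝ) (S : Submodule ℤ K) : ℝ :=
  ∑' x : S, Real.exp (-(Real.pi * Real.exp (-2 * z) * ‖ev (x : K)‖ ^ 2))

/-- The integers in a subspace. -/
def lat (A : Submodule ℚ K) : Submodule ℤ K where
  carrier := {x | x ∈ A ∧ IsIntegral ℤ x}
  add_mem' := fun ha hb => ⟨A.add_mem ha.1 hb.1, ha.2.add hb.2⟩
  zero_mem' := ⟨A.zero_mem, isIntegral_zero⟩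
  smul_mem' := fun n x hx => ⟨by
    rw [← Int.cast_smul_eq_zsmul ℚ]
    exact A.smul_mem _ hx.1, by
    rw [zsmul_eq_mul]
    exact (isIntegral_algebraMap (R := ℤ) (x := n)).mul hx.2⟩

/-- The elements of the codifferent orthogonal (for the trace form) to a subspace. -/
def cod (A : Submodule ℚ K) : Submodule ℤ K where
  carrier := {x | (∀ o : K, IsIntegral ℤ o → ∃ n : ℤ, Algebra.trace ℚ K (x * o) = n) ∧
    ∀ a ∈ A, Algebra.trace ℚ K (x * a) = 0}
  add_mem' := by
    rintro x y ⟨hx, hx'⟩ ⟨hy, hy'⟩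
    refine ⟨fun o ho => ?_, fun a ha => ?_⟩
    · obtain ⟨m, hm⟩ := hx o ho
      obtain ⟨n, hn⟩ := hy o ho
      exact ⟨m + n, by rw [add_mul, map_add, hm, hn]; push_cast; rfl⟩
    · rw [add_mul, map_add, hx' a ha, hy' a ha, add_zero]
  zero_mem' := ⟨fun o _ => ⟨0, by simp⟩, fun a _ => by simp⟩
  smul_mem' := by
    rintro n x ⟨hx, hx'⟩
    refine ⟨fun o ho => ?_, fun a ha => ?_⟩
    · obtain ⟨m, hm⟩ := hx o ho
      exact ⟨n * m, by rw [smul_mul_assoc, map_zsmul, hm]; simp⟩
    · rw [smul_mul_assoc, map_zsmul, hx' a ha, smul_zero]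

/-- `b` is a `ℤ`-basis of the integers of the subspace `A`. -/
structure IB (A : Submodule ℚ K) {n : ℕ} (b : Fin n → K) : Prop where
  mem : ∀ i, b i ∈ lat A
  ind : LinearIndependent ℚ b
  gen : ∀ x ∈ lat A, x ∈ Submodule.span ℤ (Set.range b)

/-- Gram determinant of a tuple of `K`. -/
noncomputable def gk {n : ℕ} (b : Fin n → K) : ℝ := gd fun i => ev (b i)

/-- The Gram determinant of the lattice of integers of the subspace `A`. -/
noncomputable def Dt (A : Submodule ℚ K) : ℝ :=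
  sInf {g | ∃ b : Fin (finrank ℚ A) → K, (∀ i, b i ∈ lat A) ∧ LinearIndependent ℚ b ∧ g = gk b}

/-- `log covolume - y rank`. -/
noncomputable def psi (y : ℝ) (A : Submodule ℚ K) : ℝ := Real.log (Dt A) / 2 - y * finrank ℚ A

/-- `A` is dense at the scale `exp y`: all quotients of rank `k` of its lattice have covolume at
most `exp (y k)`. -/
def DE (y : ℝ) (A : Submodule ℚ K) : Prop := ∀ N ≤ A, psi y A ≤ psi y N

variable (K) in
/-- The hull: the largest dense subspace. -/
noncomputable def HV (y : ℝ) : Submodule ℚ K := sSup {A | DE y A}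

variable (K) in
/-- Dimension of the hull. -/
noncomputable def nn (y : ℝ) : ℕ := finrank ℚ (HV K y)

variable (K) in
/-- The logarithm of the mass at the scale `exp y`, up to `O(d)`. -/
noncomputable def GG (y : ℝ) : ℝ := -psi y (HV K y)

/-- `u A` -/
noncomputable def sc (u : K) (A : Submodule ℚ K) : Submodule ℚ K :=
  A.map (LinearMap.mulLeft ℚ u)

variable (K) in
/-- The logarithm of the root discriminant. -/
noncomputable def LD : ℝ := Real.log |((discr K : ℤ) : ℝ)| / finrank ℚ K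

/-- The integers of the subspace `A` of house at most `X`. -/
def Bh (A : Submodule ℚ K) (X : ℝ) : Set K := {x | x ∈ lat A ∧ RD.hs x ≤ X}

/-- The mean trace. -/
noncomputable def Tm (x : K) : ℝ := (∑ φ : K →+* ℂ, (φ x).re) / finrank ℚ K

variable (K) in
/-- The sums of squares of mean trace at most `Y`. -/
def ST (Y : ℝ) : Set K := {α | α ∈ RD.SS K ∧ Tm α ≤ Y}

lemma mem_lat {A : Submodule ℚ K} {x : K} : x ∈ lat A ↔ x ∈ A ∧ IsIntegral ℤ x := Iff.rfl

lemma mem_cod {A : Submodule ℚ K} {x : K} : x ∈ cod A ↔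
    (∀ o : K, IsIntegral ℤ o → ∃ n : ℤ, Algebra.trace ℚ K (x * o) = n) ∧
    ∀ a ∈ A, Algebra.trace ℚ K (x * a) = 0 := Iff.rfl

lemma lat_mono {A B : Submodule ℚ K} (h : A ≤ B) : lat A ≤ lat B := fun _ hx => ⟨h hx.1, hx.2⟩

lemma ev_apply (x : K) (φ : K →+* ℂ) : ev x φ = (φ x).re := rfl

lemma ev_add (x y : K) : ev (x + y) = ev x + ev y := by
  ext φ
  simp [ev]

lemma ev_zero : ev (0 : K) = 0 := by
  ext φ
  simp [ev]

lemma ev_neg (x : K) : ev (-x) = -ev x := by
  ext φ
  simp [ev]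

lemma ev_sub (x y : K) : ev (x - y) = ev x - ev y := by
  rw [sub_eq_add_neg, ev_add, ev_neg, sub_eq_add_neg]

lemma ev_rat (q : ℚ) (x : K) : ev (q • x) = (q : ℝ) • ev x := by
  ext φ
  simp [ev, Algebra.smul_def]

lemma ev_int (q : ℤ) (x : K) : ev (q • x) = (q : ℝ) • ev x := by
  ext φ
  simp [ev]

lemma ev_sum {ι : Type*} (s : Finset ι) (f : ι → K) : ev (∑ i ∈ s, f i) = ∑ i ∈ s, ev (f i) := by
  classical
  induction s using Finset.induction_on with
  | empty => simp [ev_zero]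
  | insert a s ha ih => rw [Finset.sum_insert ha, Finset.sum_insert ha, ev_add, ih]

lemma mem_sc {u x : K} {A : Submodule ℚ K} : x ∈ sc u A ↔ ∃ a ∈ A, u * a = x := by
  simp [sc]

lemma norm_ev_sq (hK : RD.TR K) (x : K) : ‖ev x‖ ^ 2 = finrank ℚ K * RD.Ms x := by
  have h0 : (finrank ℚ K : ℝ) ≠ 0 := by exact_mod_cast RD.d_pos.ne'
  rw [EuclideanSpace.norm_sq_eq, RD.Ms, mul_div_cancel₀ _ h0]
  refine Finset.sum_congr rfl fun φ _ => ?_
  have h := hK φ x
  have h2 : φ x = ((φ x).re : ℂ) := by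
    apply Complex.ext
    · simp
    · simp [h]
  rw [ev_apply, h2]
  simp

lemma inner_ev (hK : RD.TR K) (x y : K) :
    inner ℝ (ev x) (ev y) = ((Algebra.trace ℚ K (x * y) : ℚ) : ℝ) := by
  have h1 : ((Algebra.trace ℚ K (x * y) : ℚ) : ℂ) = ∑ φ : K →+* ℂ, φ (x * y) := by
    have := trace_eq_sum_embeddings (K := ℚ) (L := K) (E := ℂ) (x := x * y)
    rw [eq_ratCast] at this
    rw [this, ← (RingHom.equivRatAlgHom (R := K) (S := ℂ)).sum_comp]
    rfl
  have h2 := congrArg Complex.re h1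
  rw [Complex.ratCast_re, Complex.re_sum] at h2
  rw [h2, PiLp.inner_apply]
  refine Finset.sum_congr rfl fun φ _ => ?_
  rw [map_mul, Complex.mul_re, hK φ x, hK φ y]
  simp [ev_apply, mul_comm]

lemma ev_inj (hK : RD.TR K) {x y : K} (h : ev x = ev y) : x = y := by
  have h1 : ev (x - y) = 0 := by rw [ev_sub, h, sub_self]
  have h2 := norm_ev_sq hK (x - y)
  rw [h1, norm_zero] at h2
  have h3 : RD.Ms (x - y) = 0 := by
    have : (0 : ℝ) = finrank ℚ K * RD.Ms (x - y) := by simpa using h2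
    rcases mul_eq_zero.1 this.symm with h | h
    · exact absurd h (by exact_mod_cast RD.d_pos.ne')
    · exact h
  have h4 := RD.hs_le_Ms (x - y)
  rw [h3, mul_zero] at h4
  have h5 : RD.hs (x - y) = 0 := by
    have := RD.hs_nonneg (x - y)
    nlinarith
  exact sub_eq_zero.1 (RD.hs_eq_zero.1 h5)

lemma norm_ev_le_hs (hK : RD.TR K) (x : K) : ‖ev x‖ ^ 2 ≤ finrank ℚ K * RD.hs x ^ 2 := by
  rw [norm_ev_sq hK]
  exact mul_le_mul_of_nonneg_left (RD.Ms_le_hs x) (Nat.cast_nonneg _)

end Field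

end Pool.Agent.Lib.MPcb8a44.RC
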