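import Pool.Agent.Lib.MP_cb8a44_nt.RC.Defs

/-!
# Theorem RC, block G: Gram determinants and Gaussian sums of lattices in a Euclidean space

Module `XXX` is the file `RC/XXX.lean` with `theorem specXXX (hYYY : SpecYYY) .. : SpecXXX` (any other Spec
may be a hypothesis if there is no circle; the docstring says which ones are meant) and its own lemmas in
the namespace `Pool.Agent.Lib.MPcb8a44.RC.XXXM`.

`E` is any real inner product space (not assumed complete or finite dimensional; the spans of finite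
tuples are finite dimensional, hence complete).  `gd b` = Gram determinant, `Rs b`, `Zs b` = real and
integral span, `zc b x = ∑ x_i b_i`, `DU b b'` = `b'` is the dual basis in `Rs b`, `PJ c e e'` = the `e'_i` are
the components of the `e_i` orthogonal to `Rs c`.
-/

set_option autoImplicit false

open NumberField Module

namespace Pool.Agent.Lib.MPcb8a44.RC

/-- **GRA** (150 lines).  Gram determinants.
Proof.  `≥ 0`: `Matrix.posSemidef_gram`; `> 0 ↔` independent: `Matrix.posDef_gram_iff_linearIndependent`,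
`Matrix.det_gram_ne_zero_iff_linearIndependent`.  Last item: `gram (U b) = U (gram b) Uᵀ`.  Third item: write
`v = p + h`, `p ∈ Rs b`, `h ⊥ Rs b` (`Rs b` is finite dimensional), `‖h‖ = infDist v (Rs b)`.  `p = ∑ a_j b_j`, so
`snoc b v = U (snoc b h)` with `U` unitriangular, and the Gram matrix of `snoc b h` is block diagonal with
blocks `gram b`, `‖h‖^2` (`Matrix.det_succ_row`/`Matrix.det_fromBlocks_zero₂₁` after `Fin.castSucc`/`finSumFinEquiv`
reindexing). -/
def SpecGRA : Prop := ∀ (E : Type) [NormedAddCommGroup E] [InnerProductSpace ℝ E] (n : ℕ)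
  (b : Fin n → E), 0 ≤ gd b ∧ (LinearIndependent ℝ b ↔ 0 < gd b) ∧
  (∀ v : E, gd (Fin.snoc b v : Fin (n + 1) → E) =
    gd b * Metric.infDist v (Rs b : Set E) ^ 2) ∧
  (∀ U : Matrix (Fin n) (Fin n) ℝ, gd (fun i => ∑ j, U i j • b j) = U.det ^ 2 * gd b)

/-- **PJE** (150 lines), from GRA.  Orthogonal components.
Proof.  `e'_i := e_i - P e_i`, `P` the orthogonal projection on `Rs c` (`Submodule.starProjection` or
`exists_add_mem_mem_orthogonal`).  For any `e'` with `PJ c e e'`: `append c e = U (append c e')` with `U` block unitriangular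
(determinant 1), the Gram matrix of `append c e'` is block diagonal (reindex by `finSumFinEquiv`), so
`gd (append c e) = gd c * gd e'`; independence by `gd ≠ 0`.  `zc e x - zc e' x ∈ Rs c`, `zc e' x ⊥ Rs c`, so
`‖zc e' x‖ = infDist (zc e x) (Rs c)`.  `Rs c ≤ Rs (append c e)`. -/
def SpecPJE : Prop := ∀ (E : Type) [NormedAddCommGroup E] [InnerProductSpace ℝ E] (m k : ℕ)
  (c : Fin m → E) (e : Fin k → E), (∃ e', PJ c e e') ∧ ∀ e', PJ c e e' →
    gd (Fin.append c e) = gd c * gd e' ∧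
    (LinearIndependent ℝ (Fin.append c e) → LinearIndependent ℝ e') ∧
    (∀ x : Fin k → ℤ, ‖zc e' x‖ = Metric.infDist (zc e x) (Rs c : Set E)) ∧
    ∀ i, e' i ∈ Rs (Fin.append c e)

/-- **CON** (100 lines), from GRA.  Contractions.
Proof.  Induction on `n` (`Fin.snoc_init_self`): `gd (T (snoc b v)) = gd (T b) * infDist (T v) (Rs (T b))^2` and
`infDist (T v) (Rs (T b)) ≤ κ infDist v (Rs b)`, because for `p ∈ Rs b`, `T p ∈ Rs (T b)` and
`‖T v - T p‖ ≤ κ ‖v - p‖` (infimum over `p`). -/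
def SpecCON : Prop := ∀ (E E' : Type) [NormedAddCommGroup E] [InnerProductSpace ℝ E]
  [NormedAddCommGroup E'] [InnerProductSpace ℝ E'] (T : E →ₗ[ℝ] E') (κ : ℝ), 0 ≤ κ →
  (∀ x, ‖T x‖ ≤ κ * ‖x‖) → ∀ (n : ℕ) (b : Fin n → E), gd (fun i => T (b i)) ≤ κ ^ (2 * n) * gd b

/-- **GDM** (120 lines), from GRA, PJE, CON.  Quotient determinants are monotone.
Proof.  (1) Let `b'` be the components of `b` orthogonal to `Rs c`, `b''` those orthogonal to
`Rs (append c a)`.  Then `b'' = Q b'`, `Q` = projection on the orthogonal complement of `Rs (append c a)` (norm ≤ 1), so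
`gd b'' ≤ gd b'` by CON.  PJE: `gd (append (append c a) b) = gd (append c a) * gd b''`,
`gd (append c b) = gd c * gd b'`.  (2) `f'` := components of `T e` orthogonal to `Rs (T c)`, `e'` := components of `e`
orthogonal to `Rs c`: `f' = Q (T e')`, `Q` the projection orthogonal to `Rs (T c)` (since `T (e - e') ∈ Rs (T c)`); CON with
`Q ∘ T`, and PJE twice (`T ∘ append c e = append (T c) (T e)`). -/
def SpecGDM : Prop := (∀ (E : Type) [NormedAddCommGroup E] [InnerProductSpace ℝ E] (m p q : ℕ)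
    (c : Fin m → E) (a : Fin p → E) (b : Fin q → E),
    gd (Fin.append (Fin.append c a) b) * gd c ≤ gd (Fin.append c a) * gd (Fin.append c b)) ∧
  ∀ (E E' : Type) [NormedAddCommGroup E] [InnerProductSpace ℝ E]
    [NormedAddCommGroup E'] [InnerProductSpace ℝ E'] (T : E →ₗ[ℝ] E') (κ : ℝ), 0 ≤ κ →
    (∀ x, ‖T x‖ ≤ κ * ‖x‖) → ∀ (m k : ℕ) (c : Fin m → E) (e : Fin k → E),
    gd (fun i => T (Fin.append c e i)) * gd c ≤
      κ ^ (2 * k) * (gd (fun i => T (c i)) * gd (Fin.append c e))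

/-- **ZIX** (100 lines), from GRA.  Index.
Proof.  (1) `c = U b` with an integral matrix `U` (`Submodule.mem_span_range_iff_exists_fun`), `gd c = det U^2 gd b`,
`gd c > 0`, so `det U` is a nonzero integer, `det U^2 ≥ 1`.  (2) twice (1). -/
def SpecZIX : Prop := ∀ (E : Type) [NormedAddCommGroup E] [InnerProductSpace ℝ E] (n : ℕ)
  (b c : Fin n → E), LinearIndependent ℝ c → (∀ i, c i ∈ Zs b) →
  gd b ≤ gd c ∧ LinearIndependent ℝ b ∧ (Zs b = Zs c → gd b = gd c)

/-- **DUB** (150 lines), from GRA.  The dual basis.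
Proof.  `G := gram b` is invertible; `b'_j := ∑_i (G⁻¹)_ij b_i`: `⟪b_i, b'_j⟫ = (G G⁻¹)_ij`; `b'_j ∈ Rs b` and the `b'_j` are
independent (pair with `b_i`), so `Rs b' = Rs b` by dimension.  Uniqueness: for `DU b b'` one has
`b'_j = ∑_i (G⁻¹)_ij b_i` (the difference is in `Rs b` and orthogonal to all `b_i`), so `gd b' = det G⁻¹`.  `DU b' b`: symmetry of
the inner product.  If `w ∈ Rs b = Rs b'`, then `w = ∑ ⟪b_i, w⟫ b'_i`, whence the last item. -/
def SpecDUB : Prop := ∀ (E : Type) [NormedAddCommGroup E] [InnerProductSpace ℝ E] (n : ℕ)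
  (b : Fin n → E), LinearIndependent ℝ b → (∃ b', DU b b') ∧ ∀ b', DU b b' →
    LinearIndependent ℝ b' ∧ gd b * gd b' = 1 ∧ DU b' b ∧
    ∀ w ∈ Rs b, (∀ i, ∃ k : ℤ, inner ℝ (b i) w = k) → w ∈ Zs b'

/-- **ADP** (200 lines).  Adapted bases.
Proof.  `L := Zs b` is a free `ℤ`-module of rank `n`.  `L₁ := {x ∈ L, x ∈ S}` is saturated (`k x ∈ S`, `k ≠ 0` gives
`x ∈ S`), so `L/L₁` is finitely generated and torsion free, hence free (`Module.free_of_finite_type_torsion_free'`), and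
`L = L₁ ⊕ L₂`, `L₂ ≅ L/L₁` (`Module.projective_lifting_property` or `Submodule.exists_isCompl` of a projective quotient).
`c` := a basis of `L₁`, `e` := a basis of `L₂`; `m + k = n` by ranks.  `Rs (append c e) = Rs b` has dimension `n`, so
`append c e` is independent over `ℝ`. -/
def SpecADP : Prop := ∀ (E : Type) [NormedAddCommGroup E] [InnerProductSpace ℝ E] (n : ℕ)
  (b : Fin n → E), LinearIndependent ℝ b → ∀ S : Submodule ℝ E,
  ∃ (m k : ℕ) (c : Fin m → E) (e : Fin k → E), m + k = n ∧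
    LinearIndependent ℝ (Fin.append c e) ∧ Zs (Fin.append c e) = Zs b ∧
    ∀ x ∈ Zs b, (x ∈ S ↔ x ∈ Zs c)

/-- **QDS** (200 lines), from GRA, PJE, ZIX, DUB, ADP.  Duality: if all quotients of a lattice have covolume
`≤ exp (y rank)`, all sublattices of the dual have covolume `≥ exp (-y rank)`.
Proof.  Let `f_1..f_m ∈ Zs b'` be independent.  `S := {v | ∀ i, ⟪f_i, v⟫ = 0}`; ADP: `Zs b = Zs (append c e)`,
`c : Fin r → E` spans `Zs b ∩ S`, `e : Fin k → E`.  Let `g = append g₁ g₂` be the dual basis of `append c e`.  Every `f_i` is in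
`Rs b`, `⟪c_j, f_i⟫ = 0`, so `f_i = ∑_j P_ij g₂_j` with `P_ij = ⟪e_j, f_i⟫ ∈ ℤ`.  So `m ≤ k`; and `k ≤ m`: the `m` functionals
`⟪f_i, ·⟫` have, on the `ℤ`-module spanned by `e`, only the common zero 0 (a common zero is in
`Zs c ∩ Zs e = 0`), and `P` is integral, so its rank over `ℚ` is `k`.  So `m = k`, `det P ≠ 0` is an integer,
`gd f = det P^2 gd g₂ ≥ gd g₂`.  `g₂` is the dual basis of the components `e'` of `e` orthogonal to `Rs c`
(`g₂ ⊥ c`, `⟪e'_i, g₂_j⟫ = δ`, both span the orthogonal complement of `Rs c` in `Rs b`), so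
`gd g₂ = 1/gd e' = gd c/gd (append c e) = gd c/gd b ≥ exp (-2 y k)` by `QD` for `c` (`n - r = k`). -/
def SpecQDS : Prop := ∀ (E : Type) [NormedAddCommGroup E] [InnerProductSpace ℝ E] (n : ℕ)
  (b b' : Fin n → E) (y : ℝ), LinearIndependent ℝ b → DU b b' → QD y b → SD (-y) b'

/-- **MKW** (200 lines), from GRA.  Minkowski's theorem for the cube inside the ball.
Proof.  `n = 0`: `gd b = 1`.  `n ≥ 1`: identify `Rs b` with `EuclideanSpace ℝ (Fin n)` by an orthonormal basis `u`; the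
fundamental parallelepiped of `b` has volume `|det (⟪u_j, b_i⟫)| = √(gd b)`.  If `gd b < μ^(2n)`, the cube
`{|x_i| < μ}`, of volume `(2μ)^n > 2^n √(gd b)`, contains a nonzero point of the lattice
(`MeasureTheory.exists_ne_zero_mem_lattice_of_measure_mul_two_pow_lt_measure`), of squared norm `< n μ^2`: a
contradiction. -/
def SpecMKW : Prop := ∀ (E : Type) [NormedAddCommGroup E] [InnerProductSpace ℝ E] (n : ℕ)
  (b : Fin n → E) (μ : ℝ), LinearIndependent ℝ b → 0 < μ →
  (∀ x ∈ Zs b, x ≠ 0 → n * μ ^ 2 ≤ ‖x‖ ^ 2) → μ ^ (2 * n) ≤ gd b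

/-- **DMN** (200 lines), from GRA, PJE, ZIX, DUB, ADP, MKW.  If the nonzero vectors of the dual are long,
all quotients have small covolume.
Proof.  Let `c₀ : Fin m → E`, `c₀_i ∈ Zs b` independent.  ADP with `S = Rs c₀`: `Zs b = Zs (append c e)`,
`Zs c = Zs b ∩ Rs c₀`; `c₀_i ∈ Zs c`, so `Rs c = Rs c₀`, `c` has `m` elements and `gd c ≤ gd c₀` (ZIX).  `e'` := components of
`e` orthogonal to `Rs c`, `k = n - m` of them; `gd b = gd c * gd e'`.  Let `f` be the dual basis of `e'`.  A nonzero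
`w ∈ Zs f` is orthogonal to `c`, has integral inner products with `e'`, hence with `append c e`, hence with
`b`, and lies in `Rs b`; so `w ∈ Zs b'` (DUB) and `k exp(-2y) ≤ n exp(-2y) ≤ ‖w‖^2`.  MKW with `μ = exp(-y)`:
`exp(-2 y k) ≤ gd f = 1/gd e'`. -/
def SpecDMN : Prop := ∀ (E : Type) [NormedAddCommGroup E] [InnerProductSpace ℝ E] (n : ℕ)
  (b b' : Fin n → E) (y : ℝ), LinearIndependent ℝ b → DU b b' →
  (∀ w ∈ Zs b', w ≠ 0 → n * Real.exp (-2 * y) ≤ ‖w‖ ^ 2) → QD y b

/-- **GSM** (120 lines).  Summability.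
Proof.  The map `t ↦ ∑ t_i b_i` is injective linear on `Fin n → ℝ`, so `‖zc b x‖ ≥ κ ∑ |x_i|` for some `κ > 0`
(`LinearMap.exists_antilipschitzWith`), and `‖v + zc b x‖^2 ≥ ‖zc b x‖^2/2 - ‖v‖^2 ≥ κ' ∑ |x_i|^2 - ‖v‖^2`; the sum over
`x : Fin n → ℤ` of `∏ exp (-κ'' x_i^2)` converges (product of summable families: induction on `n`, or
`Summable.of_norm_bounded` by `∏ exp(-κ'' |x_i|)`). -/
def SpecGSM : Prop := ∀ (E : Type) [NormedAddCommGroup E] [InnerProductSpace ℝ E] (n : ℕ)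
  (b : Fin n → E) (κ : ℝ) (v : E), LinearIndependent ℝ b → 0 < κ →
  Summable fun x : Fin n → ℤ => Real.exp (-(κ * ‖v + zc b x‖ ^ 2))

/-- **GFT** (200 lines), from GRA, DUB.  Fourier transform of a Gaussian.
Proof.  Let `u` be an orthonormal basis of `Rs b`; `t ↦ (⟪u_j, ∑ t_i b_i⟫)_j` is a linear isomorphism of
`Fin n → ℝ` onto `EuclideanSpace ℝ (Fin n)` of determinant `± √(gd b)`; `∑ k_i t_i = ⟪w, ∑ t_i b_i⟫` with `w = zc b' k`.
Change of variables (`MeasureTheory.Measure.addHaar_preimage_linearMap`/`integral_comp` forms) and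
`GaussianFourier.integral_cexp_neg_mul_sq_norm_add` / `fourierIntegral_gaussian_innerProductSpace`:
`∫ exp(-π s ‖x‖^2 - 2πi⟪w,x⟫) dx = s^(-n/2) exp(-π ‖w‖^2/s)`, `s = exp(-2z)`. -/
def SpecGFT : Prop := ∀ (E : Type) [NormedAddCommGroup E] [InnerProductSpace ℝ E] (n : ℕ)
  (b b' : Fin n → E) (z : ℝ) (k : Fin n → ℤ), LinearIndependent ℝ b → DU b b' →
  ∫ t : Fin n → ℝ, (Real.exp (-(Real.pi * Real.exp (-2 * z) * ‖∑ i, t i • b i‖ ^ 2)) : ℂ) *
      Complex.exp (-(2 * Real.pi * Complex.I * ∑ i, (k i : ℂ) * (t i : ℂ))) =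
    ((Real.exp (z * n) / Real.sqrt (gd b) *
      Real.exp (-(Real.pi * Real.exp (2 * z) * ‖zc b' k‖ ^ 2)) : ℝ) : ℂ)

/-- **POI** (250 lines), from GSM, GFT.  Poisson summation for Gaussians.
Proof.  `g(t) = exp(-π e^(-2z) ‖∑ t_i b_i‖^2)`; `F(t) = ∑_x g(t + x)` converges locally uniformly
(`‖∑ (t_i + x_i) b_i‖ ≥ κ ‖x‖ - const` on bounded sets), is continuous and periodic, so it defines a continuous
function on `UnitAddTorus (Fin n)`; its coefficient `UnitAddTorus.mFourierCoeff F k = ∫_(unit cube) F e(-k t)`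
(`mFourierCoeff_eq_integral`) `= ∫_(ℝ^n) g e(-k t)` (unfold the sum over the translates of the cube:
`MeasureTheory.integral_tsum`/`IsAddFundamentalDomain.integral_eq_tsum`), computed by GFT; these coefficients are summable
(GSM for `b'`), so `UnitAddTorus.hasSum_mFourier_series_apply_of_summable` gives the value at `t`; real parts. -/
def SpecPOI : Prop := ∀ (E : Type) [NormedAddCommGroup E] [InnerProductSpace ℝ E] (n : ℕ)
  (b b' : Fin n → E) (z : ℝ) (t : Fin n → ℝ), LinearIndependent ℝ b → DU b b' →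
  ths z b (∑ i, t i • b i) = Real.exp (z * n) / Real.sqrt (gd b) *
    ∑' k : Fin n → ℤ, Real.exp (-(Real.pi * Real.exp (2 * z) * ‖zc b' k‖ ^ 2)) *
      Real.cos (2 * Real.pi * ∑ i, (k i : ℝ) * t i)

/-- **GTH** (150 lines), from GSM, POI, DUB.  Consequences.
Proof.  `v = p + h`, `p ∈ Rs b`, `h ⊥ Rs b`: `‖v + zc b x‖^2 = ‖h‖^2 + ‖p + zc b x‖^2`, `‖h‖ = infDist v (Rs b)`; for `p`: POI and
`cos ≤ 1`.  Duality: POI with `t = 0`.  Lower bound: the term `k = 0`.  Growth: `th (-(z+t)) b' ≤ th (-z) b'` termwise.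
`1 ≤`: the term `x = 0`. -/
def SpecGTH : Prop := ∀ (E : Type) [NormedAddCommGroup E] [InnerProductSpace ℝ E] (n : ℕ)
  (b : Fin n → E) (z : ℝ), LinearIndependent ℝ b →
  (∀ v : E, ths z b v ≤
    Real.exp (-(Real.pi * Real.exp (-2 * z) * Metric.infDist v (Rs b : Set E) ^ 2)) * th z b) ∧
  (Real.exp (z * n) / Real.sqrt (gd b) ≤ th z b) ∧
  (∀ t : ℝ, 0 ≤ t → th (z + t) b ≤ Real.exp (t * n) * th z b) ∧
  1 ≤ th z b ∧
  (∀ b', DU b b' → th z b = Real.exp (z * n) / Real.sqrt (gd b) * th (-z) b')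

/-- **GSP** (120 lines), from GSM, PJE, GTH.  Splitting off a sublattice.
Proof.  `Fin (m+k) → ℤ ≃ (Fin m → ℤ) × (Fin k → ℤ)` (`Fin.appendEquiv` or `finSumFinEquiv`),
`zc (append c e) (x, l) = zc e l + zc c x`; for fixed `l` the sum over `x` is
`ths z c (zc e l) ≤ exp(-π e^(-2z) infDist^2) th z c`, and `infDist (zc e l) (Rs c) = ‖zc e' l‖` (PJE).  `append c e`
independent gives `c`, `e'` independent. -/
def SpecGSP : Prop := ∀ (E : Type) [NormedAddCommGroup E] [InnerProductSpace ℝ E] (m k : ℕ)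
  (c : Fin m → E) (e e' : Fin k → E) (z : ℝ), LinearIndependent ℝ (Fin.append c e) → PJ c e e' →
  th z (Fin.append c e) ≤ th z c * th z e'

/-- **RMC** (80 lines).  The reverse Minkowski inequality at the scale `y` and for sublattices.
Proof.  Apply `RMs` to `w_i := exp(-y) c_i`: `SD 0 w` because for `f_i ∈ Zs w` independent, `exp(y) f_i ∈ Zs c ⊆ Zs b`
and `gd (exp(y) f) = exp(2 y m) gd f`; `‖zc w x‖^2 = exp(-2y) ‖zc c x‖^2`. -/
def SpecRMC : Prop := ∀ C : ℝ, RMs C → ∀ (E : Type) [NormedAddCommGroup E]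
  [InnerProductSpace ℝ E] (n k : ℕ) (b : Fin n → E) (c : Fin k → E) (y : ℝ), SD y b →
  (∀ i, c i ∈ Zs b) → LinearIndependent ℝ c → th y c ≤ C ^ k

end Pool.Agent.Lib.MPcb8a44.RC
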